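import Pool.Agent.Lib.MP_8a819d_co.LH.AbC3

/-!
# The assembly of the absorber (all numerical conditions as hypotheses)

PLAN (helper72 / helper31). `U = unitsW S w`, `c = cW f`, `UG = unitsK S w K`, `G = |UG|`, `M = G + h ≤ 2 G`, `L = log (6 N)`, `F₀ = (FT ∪ R)` as integers, `Xs = {x ∈ [1, N] : x ∉ FT}`.
1. `stageA` with `F₀`, `Xs` (`trn_floor`): `Z 0`, `Z 1`, `q`. `Z1 σ = (Z σ).image toNat`, `π 0 d = (q d).toNat` (even), `π 1 d = (q d + c d).toNat` (odd), `P σ = UG.image (π σ)`; `|Z1 σ ∪ P σ| = 2 G`, `M ≤ 2 G ≤ 2 M`.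
2. `template5` (`hC`) for `σ = 0, 1`: `m σ ≤ C M ≤ 2 C G`, `Lk σ`, `pre σ`.
3. `unit_pairs` with `Ub = UG`, `n = m 0 + m 1 ≤ 4 C G`: the units `g x true`, `g x false` (labels `c1 ≠ c2`) of the core `x < n`.
4. `sel` with `F₀' = F₀ ∪ lbA UG c Z q`, `Xs = ∅`, `A = ∅`, `T = n`, `O x = {0, c2, -c2, c2 + c1, c2 - c1, c1 - c2}` with `c1 = c (g x true)`, `c2 = c (g x false)`, `σ x = 0` for `x < m 0` and `1` otherwise: the centres `p x`. Core `K x = {p - c2, p, p + c2}`,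
   ports `E (x, 0) = p + c2 + c1`, `E (x, 1) = p + c2 - c1`, `E (x, 2) = p - c2 + c1` (the six labels of a group are different as `c1 ≠ c2` are odd and positive).
5. `hLk` (links) with `Λ = (Fin (m 0) × Fin 3) ⊕ (Fin (m 1) × Fin 3)`, `J = Lk 0 ⊔ Lk 1` (`|J| = 2 (m 0 + m 1) + 2 M ≤ 8 C G + 4 G`), `a j` = label of `pre j`, `b j = E j`, `F = F₀' ∪` all labels of the cores and ports, `Ub = UG ∪` units of the cores. Same parity of the ends. REGULARITY of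
   `F` at `x`: `κ/4` (`hreg`; `x ∉ FT` since `x ∉ F` or `x` is one of the chosen labels) `+ κ/8` (stageA) `+ κ/8` (sel). ENDS: a label is at most twice an `a j` (`deg1`, `deg2`, `E` injective) and at most once a `b j`, so the sums are at most `2 (κ/8 + κ/8) |U|`.
6. `link_match`, `core_match` (RuW): `HubC` for `σ = 0, 1` with `UK x = {g x true, g x false}`, `UL j` = units of `l j`, `L j = (wlab c (a j) (l j)).toFinset.image toNat`: everything is disjoint as link labels are not in `F` and in `[1, N]`. `D' σ = hubD`, `A' σ = hubA`.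
7. `DT = unitsW S1 w \ (UG ∪ D' 0 ∪ D' 1)`, `fix_pairs` with `F = FT ∪ R ∪ Z1 0 ∪ P 0 ∪ Z1 1 ∪ P 1 ∪ A' 0 ∪ A' 1` (these labels are at most `2 |UG ∪ D' 0 ∪ D' 1|`-ish in number: `|Z1 0 ∪ P 0 ∪ ... ∪ A' 1| = 2 |UG ∪ D' 0 ∪ D' 1| - 2 h` by `ru_2card` or directly):
   `TA`. `2 |F| + 4 |DT| + 1 ≤ 2 |FT ∪ R| + 4 |unitsW S1 w| + 1 ≤ N/2`.
8. `RuCfg` with `JJ = Icc 1 N \ FT`; junk: `junk` with `Z = Z 0 ∪ Z 1`, `mix`, `η' = 4 η`; for `u ∈ J` the option `t u = (e, s)`: `md c u (e, s) = u ± c e ∈ Z 0 ∪ Z 1` has the parity of `u + 1`, so it is in `Z ((u + 1) % 2)`; `{u, u ± c e}` is a block.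
   Then `ru_bal`, `ru_2card`, `ru_match`.
-/

set_option autoImplicit false

namespace SSB

open Finset

/-- the data chosen before the fixed pairs -/
private theorem ac_data {ι : Type} [DecidableEq ι] [Inhabited ι] {N h C : ℕ} {U UG : Finset ι}
    {c : ι → ℕ} {F₀ Xs : Finset ℤ} {κ η : ℝ}
    (hC : ∀ M : ℕ, 1 ≤ M → ∀ Z : Finset ℕ, M ≤ Z.card → Z.card ≤ 2 * M →
      ∃ (m : ℕ) (Lk : Finset (Fin m × Fin 3)) (pre : Fin m × Fin 3 → (Fin m × Fin 3) ⊕ ℕ),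
        m ≤ C * M ∧ Hub M Z m Lk pre)
    (hq : QRU N U c η κ) (hLk : LinksOK N U c κ) (htr : Trn U UG c)
    (hreg : ∀ x : ℤ, 1 ≤ x → x ≤ N → x ∉ F₀ → Rgl U c (κ / 4) F₀ x)
    (hXs : ∀ x ∈ Xs, (1 ≤ x ∧ x ≤ N) ∧ Rgl U c (1 / 100) F₀ x)
    (h1 : 1 ≤ h) (h2 : 2 * h ≤ UG.card) (hN : 1000 ≤ N) (hη : 0 ≤ η)
    (hη1 : 12 * η * Real.log (6 * N) ≤ κ / 16)
    (hη2 : η ≤ 1 / 4) (hκ : κ ≤ 1 / 1000)
    (hG1 : 300 * (UG.card : ℝ) / N ≤ κ / 16) (hG2 : 400 * C * (UG.card : ℝ) / N ≤ κ / 16)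
    (hG3 : 30000 * UG.card ≤ N) (hG4 : 40000 * C * UG.card ≤ N)
    (hG5 : (8 * C + 4) * (UG.card : ℝ) ≤ κ * U.card)
    (hG6 : (8 * C + 4) * (UG.card : ℝ) ≤ κ * N)
    (hFR : 100 * (F₀.card + 4 * UG.card) ≤ N) :
    ∃ (Z : ℤ → Finset ℤ) (q : ι → ℤ) (g : ℕ → Bool → ι) (p : ℕ → ℤ) (n : ℕ) (m : ℕ → ℕ)
      (Lk : ∀ σ, Finset (Fin (m σ) × Fin 3))
      (pre : ∀ σ, Fin (m σ) × Fin 3 → (Fin (m σ) × Fin 3) ⊕ ℕ)
      (l : (Σ σ : ℕ, Fin (m σ) × Fin 3) → List (ι × Bool)),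
      LkH N n U UG c F₀ Z q g p (UG.card + h) m Lk pre ∧
      LnkO N n U UG c F₀ Z q g p m Lk pre l ∧
      ∀ x ∈ Xs, ((UG.card : ℝ) / (4 * N) - 12 * η * Real.log (6 * N)) * UG.card ≤
        ((stps UG).filter (fun s => md c x s ∈ Z 0 ∪ Z 1)).card := by
  have hUG : UG.Nonempty := card_pos.1 (by omega)
  have hU : U.Nonempty := hUG.mono htr.1
  have hN0 : (0 : ℝ) < N := by
    have : 0 < N := by omega
    exact_mod_cast this
  have hG0 : (0 : ℝ) < UG.card := by exact_mod_cast card_pos.2 hUG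
  have hU0 : (0 : ℝ) < U.card := by exact_mod_cast card_pos.2 hU
  have hκ0 : 0 ≤ κ := by
    have h3 : 0 ≤ 300 * (UG.card : ℝ) / N := by positivity
    linarith
  have hη3 : 12 * η * Real.log (6 * N) ≤ 1 / 100 := by linarith
  obtain ⟨Z, q, s1, s2, s3, s4, s5⟩ := stageA hN hU hUG hη hη3 hq.odd hq.le hq.mult htr F₀ Xs hXs
    (by omega) (by omega)
  have hsta : StAO N UG c F₀ Z q := by
    refine ⟨fun ρ hρ => (s1 ρ hρ).1, fun ρ hρ => (s1 ρ hρ).2, ?_, ?_, ?_, ?_⟩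
    · intro e he
      obtain ⟨a1, a2, a3, a4, a5, -, -⟩ := s2 e he
      exact ⟨a1, a2, a3, a4, a5⟩
    · intro e he
      obtain ⟨-, -, -, -, -, a6, a7⟩ := s2 e he
      exact ⟨a6, a7⟩
    · intro e he e' he' hee
      by_contra hne
      exact (s3 e he e' he' hne).1 hee
    · intro e he e' he' hee
      by_contra hne
      exact (s3 e he e' he' hne).2 hee
  have hoG : ∀ e ∈ UG, c e % 2 = 1 := fun e he => hq.odd e (htr.1 he)
  have hex : ∀ σ : ℕ, ∃ (mσ : ℕ) (Lkσ : Finset (Fin mσ × Fin 3))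
      (preσ : Fin mσ × Fin 3 → (Fin mσ × Fin 3) ⊕ ℕ), σ < 2 → mσ ≤ C * (UG.card + h) ∧
        Hub (UG.card + h) (zN Z σ ∪ UG.image (piN c q σ)) mσ Lkσ preσ := by
    intro σ
    by_cases hσ : σ < 2
    · obtain ⟨mσ, Lkσ, preσ, a1, a2⟩ := hC (UG.card + h) (by omega)
        (zN Z σ ∪ UG.image (piN c q σ)) (by rw [zp_card hsta hoG hσ]; omega)
        (by rw [zp_card hsta hoG hσ]; omega)
      exact ⟨mσ, Lkσ, preσ, fun _ => ⟨a1, a2⟩⟩
    · exact ⟨0, ∅, fun k => Sum.inl k, fun h => absurd h hσ⟩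
  choose m Lk pre hm using hex
  have hn1 : m 0 + m 1 ≤ 4 * C * UG.card := by
    have a0 := (hm 0 (by norm_num)).1
    have a1 := (hm 1 (by norm_num)).1
    have a2 : C * (UG.card + h) ≤ C * (2 * UG.card) := Nat.mul_le_mul_left C (by omega)
    have a3 : C * (2 * UG.card) = 2 * C * UG.card := by ring
    have a4 : 4 * C * UG.card = 2 * (2 * C * UG.card) := by ring
    omega
  obtain ⟨n, hn⟩ : ∃ n, m 0 + m 1 = n := ⟨_, rfl⟩
  rw [hn] at hn1
  have hn1' : (n : ℝ) ≤ 4 * C * UG.card := by exact_mod_cast hn1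
  have hF1 : (F₀ ∪ lbA UG c Z q).card ≤ F₀.card + 4 * UG.card := by
    have a1 := card_union_le F₀ (lbA UG c Z q)
    have a2 := lbA_card hsta
    omega
  have hCG : (8 * C + 4) * (UG.card : ℝ) = 8 * C * UG.card + 4 * UG.card := by ring
  obtain ⟨g, p, hcor, hct⟩ := cores_exist hN hq htr hU hUG hη hη3 (F₀ ∪ lbA UG c Z q) (by omega) n
    (m 0) (by
      have a1 : 40000 * C * UG.card = 10000 * (4 * C * UG.card) := by ring
      omega)
    (by
      have a1 : η * (U.card : ℝ) ≤ 1 / 4 * U.card := mul_le_mul_of_nonneg_right hη2 hU0.le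
      have a2 : κ * (U.card : ℝ) ≤ 1 / 1000 * U.card := mul_le_mul_of_nonneg_right hκ hU0.le
      nlinarith)
  have H : LkH N n U UG c F₀ Z q g p (UG.card + h) m Lk pre :=
    ⟨hsta, htr.1, hq.odd, hcor, hn, fun σ hσ => (hm σ hσ).2⟩
  have h2' : 2 * (h : ℝ) ≤ UG.card := by exact_mod_cast h2
  obtain ⟨l, O⟩ := links_exist H hLk hκ0 hreg
    (fun x hx1 hx2 k hk => by
      refine (s4 x hx1 hx2 k hk).trans (mul_le_mul_of_nonneg_right ?_ hU0.le)
      linarith)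
    (fun x hx1 hx2 k hk => by
      refine (hct x hx1 hx2 k hk).trans (mul_le_mul_of_nonneg_right ?_ hU0.le)
      have a1 : 100 * (n : ℝ) / N ≤ 400 * C * (UG.card : ℝ) / N := by
        apply div_le_div_of_nonneg_right _ hN0.le
        linarith
      linarith)
    (by
      rw [hCG] at hG5
      linarith)
    (by
      rw [hCG] at hG5
      push_cast
      linarith)
    (by
      rw [hCG] at hG6
      push_cast
      linarith)
  exact ⟨Z, q, g, p, n, m, Lk, pre, l, H, O, s5⟩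

/-- the assembly for any type of units -/
private theorem ac_gen {ι : Type} [DecidableEq ι] [Inhabited ι] {N h C : ℕ} {U UG U1 : Finset ι}
    {c : ι → ℕ} {FT R : Finset ℕ} {κ η γ : ℝ}
    (hC : ∀ M : ℕ, 1 ≤ M → ∀ Z : Finset ℕ, M ≤ Z.card → Z.card ≤ 2 * M →
      ∃ (m : ℕ) (Lk : Finset (Fin m × Fin 3)) (pre : Fin m × Fin 3 → (Fin m × Fin 3) ⊕ ℕ),
        m ≤ C * M ∧ Hub M Z m Lk pre)
    (hq : QRU N U c η κ) (hLk : LinksOK N U c κ) (htr : Trn U UG c) (hU1 : U ⊆ U1)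
    (hc1 : ∀ e ∈ U1, c e % 2 = 1 ∧ 8 * c e ≤ N)
    (hreg : ∀ x : ℤ, 1 ≤ x → x ≤ N → (∀ y ∈ FT, (y : ℤ) ≠ x) →
      Rgl U c (κ / 4) ((FT ∪ R).image (fun y : ℕ => (y : ℤ))) x)
    (h1 : 1 ≤ h) (h2 : 2 * h ≤ UG.card) (hN : 1000 ≤ N) (hη : 0 ≤ η)
    (hη1 : 12 * η * Real.log (6 * N) ≤ κ / 16)
    (hη2 : η ≤ 1 / 4) (hκ : κ ≤ 1 / 1000)
    (hG1 : 300 * (UG.card : ℝ) / N ≤ κ / 16) (hG2 : 400 * C * (UG.card : ℝ) / N ≤ κ / 16)
    (hG3 : 30000 * UG.card ≤ N) (hG4 : 40000 * C * UG.card ≤ N)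
    (hG5 : (8 * C + 4) * (UG.card : ℝ) ≤ κ * U.card)
    (hG6 : (8 * C + 4) * (UG.card : ℝ) ≤ κ * N)
    (hFR : 100 * ((FT ∪ R).card + 4 * UG.card) ≤ N)
    (hγ : 0 < γ) (hγ1 : γ ≤ (UG.card : ℝ) / (4 * N) - 12 * η * Real.log (6 * N))
    (hγ2 : 512 * η ≤ γ)
    (hh1 : 2 * (h : ℝ) ≤ γ * N / 8192) (hh2 : 2 * (h : ℝ) ≤ γ * UG.card / 64)
    (hfix : 2 * (FT ∪ R).card + 4 * U1.card + 1 ≤ N / 2) :
    ∃ A : Finset ℕ, A ⊆ Icc 1 N ∧ Disjoint A FT ∧ Disjoint A R ∧ Bal A ∧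
      A.card + 2 * h = 2 * U1.card ∧
      ∀ J : Finset ℕ, J ⊆ Icc 1 N → Disjoint J A → Disjoint J FT → Bal J →
        J.card + A.card = 2 * U1.card → MatchU U1 c (A ∪ J) := by
  obtain ⟨F₀, eF₀⟩ : ∃ F₀ : Finset ℤ, F₀ = (FT ∪ R).image (fun y : ℕ => (y : ℤ)) := ⟨_, rfl⟩
  obtain ⟨Xs, eXs⟩ : ∃ Xs : Finset ℤ, Xs = (Icc (1 : ℤ) N).filter (fun x => ∀ y ∈ FT, (y : ℤ) ≠ x) :=
    ⟨_, rfl⟩
  rw [← eF₀] at hreg
  have hF₀c : F₀.card ≤ (FT ∪ R).card := by
    rw [eF₀]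
    exact card_image_le
  have hUG : UG.Nonempty := card_pos.1 (by omega)
  have hU : U.Nonempty := hUG.mono htr.1
  have hU0 : (0 : ℝ) < U.card := by exact_mod_cast card_pos.2 hU
  have hF₀ : ∀ y : ℕ, (y : ℤ) ∉ F₀ → y ∉ FT ∧ y ∉ R := by
    intro y hy
    constructor
    · intro h3
      exact hy (by
        rw [eF₀]
        exact mem_image_of_mem (fun y : ℕ => (y : ℤ)) (mem_union_left _ h3))
    · intro h3
      exact hy (by
        rw [eF₀]
        exact mem_image_of_mem (fun y : ℕ => (y : ℤ)) (mem_union_right _ h3))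
  have hregF : ∀ x : ℤ, 1 ≤ x → x ≤ N → x ∉ F₀ → Rgl U c (κ / 4) F₀ x := by
    intro x hx1 hx2 hx3
    refine hreg x hx1 hx2 fun y hy hyx => hx3 ?_
    rw [eF₀, ← hyx]
    exact mem_image_of_mem (fun y : ℕ => (y : ℤ)) (mem_union_left _ hy)
  have hXs : ∀ x ∈ Xs, (1 ≤ x ∧ x ≤ N) ∧ Rgl U c (1 / 100) F₀ x := by
    intro x hx
    rw [eXs, mem_filter, mem_Icc] at hx
    refine ⟨hx.1, fun k hk => (hreg x hx.1.1 hx.1.2 hx.2 k hk).trans ?_⟩
    refine mul_le_mul_of_nonneg_right ?_ hU0.le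
    linarith
  obtain ⟨Z, q, g, p, n, m, Lk, pre, l, H, O, hlow⟩ := ac_data hC hq hLk htr hregF hXs h1 h2 hN hη hη1
    hη2 hκ hG1 hG2 hG3 hG4 hG5 hG6 (by omega)
  have hoG : ∀ e ∈ UG, c e % 2 = 1 := fun e he => hq.odd e (htr.1 he)
  have hab : ∀ σ < 2, HubC c (zN Z σ ∪ UG.image (piN c q σ)) (Lk σ) (pre σ)
      (fun k => eN c g p (off m σ + k.1) k.2) (fun x => kN c g p (off m σ + x))
      (fun x => uN g (off m σ + x)) (fun k => wlabN c (lkA c g p m pre ⟨σ, k⟩) (l ⟨σ, k⟩))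
      (fun k => wunits (l ⟨σ, k⟩)) := fun σ hσ => hubC_mk H O hσ
  have hDc : ∀ σ < 2, 2 * (abD g m Lk l σ).card = (abA c g p m Lk pre l σ).card + (UG.card + h) :=
    fun σ hσ => hub_card (H.hub σ hσ) (hab σ hσ)
  obtain ⟨DT, eDT⟩ : ∃ DT, DT = U1 \ (UG ∪ abD g m Lk l 0 ∪ abD g m Lk l 1) := ⟨_, rfl⟩
  have dU := fun (σ : ℕ) (hσ : σ < 2) => abD_fact H O hσ
  have hsub : UG ∪ abD g m Lk l 0 ∪ abD g m Lk l 1 ⊆ U1 :=
    union_subset (union_subset (htr.1.trans hU1) ((dU 0 (by norm_num)).1.trans hU1))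
      ((dU 1 (by norm_num)).1.trans hU1)
  have dD10 := abD_dis H O
  have cD : (UG ∪ abD g m Lk l 0 ∪ abD g m Lk l 1).card =
      UG.card + (abD g m Lk l 0).card + (abD g m Lk l 1).card := by
    rw [card_union_of_disjoint, card_union_of_disjoint (dU 0 (by norm_num)).2.symm]
    rw [disjoint_union_left]
    exact ⟨(dU 1 (by norm_num)).2.symm, dD10.symm⟩
  have cU1 : DT.card + (UG.card + (abD g m Lk l 0).card + (abD g m Lk l 1).card) = U1.card := by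
    rw [← cD, eDT]
    exact card_sdiff_add_card_eq_card hsub
  obtain ⟨FX, eFX⟩ : ∃ FX, FX = FT ∪ R ∪ (zN Z 0 ∪ UG.image (piN c q 0)) ∪
      (zN Z 1 ∪ UG.image (piN c q 1)) ∪ abA c g p m Lk pre l 0 ∪ abA c g p m Lk pre l 1 := ⟨_, rfl⟩
  have cFX : FX.card ≤ (FT ∪ R).card + 2 * UG.card + 2 * UG.card + (abA c g p m Lk pre l 0).card +
      (abA c g p m Lk pre l 1).card := by
    rw [eFX]
    have a1 := card_union_le (FT ∪ R ∪ (zN Z 0 ∪ UG.image (piN c q 0)) ∪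
      (zN Z 1 ∪ UG.image (piN c q 1)) ∪ abA c g p m Lk pre l 0) (abA c g p m Lk pre l 1)
    have a2 := card_union_le (FT ∪ R ∪ (zN Z 0 ∪ UG.image (piN c q 0)) ∪
      (zN Z 1 ∪ UG.image (piN c q 1))) (abA c g p m Lk pre l 0)
    have a3 := card_union_le (FT ∪ R ∪ (zN Z 0 ∪ UG.image (piN c q 0)))
      (zN Z 1 ∪ UG.image (piN c q 1))
    have a4 := card_union_le (FT ∪ R) (zN Z 0 ∪ UG.image (piN c q 0))
    have a5 := zp_card H.sta hoG (σ := 0) (by norm_num)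
    have a6 := zp_card H.sta hoG (σ := 1) (by norm_num)
    omega
  obtain ⟨TA, hTA1, hTA2, hTA3⟩ := fix_pairs (c := c) (N := N) DT (fun e he => by
      have h3 : e ∈ U1 := by
        rw [eDT] at he
        exact (mem_sdiff.1 he).1
      have h4 := hc1 e h3
      omega) FX (by
      have a0 := hDc 0 (by norm_num)
      have a1 := hDc 1 (by norm_num)
      omega)
  rw [eFX, disjoint_union_right, disjoint_union_right, disjoint_union_right, disjoint_union_right,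
    disjoint_union_right] at hTA2
  obtain ⟨⟨⟨⟨⟨t1, t2⟩, t3⟩, t4⟩, t5⟩, t6⟩ := hTA2
  have hZA : ∀ σ < 2, ∀ τ < 2, Disjoint (abA c g p m Lk pre l σ) (zN Z τ ∪ UG.image (piN c q τ)) := by
    intro σ hσ τ hτ
    rw [disjoint_left]
    intro x hx hx'
    exact (abA_fact H O hσ hx).2.2 (zp_mem H.sta hoG hτ hx').2.2.2.1
  have hdDT : Disjoint DT UG ∧ Disjoint DT (abD g m Lk l 0) ∧ Disjoint DT (abD g m Lk l 1) := by
    have h3 : Disjoint DT (UG ∪ abD g m Lk l 0 ∪ abD g m Lk l 1) := by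
      rw [eDT]
      exact sdiff_disjoint
    rw [disjoint_union_right, disjoint_union_right] at h3
    exact ⟨h3.1.1, h3.1.2, h3.2⟩
  have cfg : RuCfg c (Icc 1 N \ FT) TA DT UG (zN Z) (fun σ => UG.image (piN c q σ))
      (abA c g p m Lk pre l) (abD g m Lk l) (piN c q) UG.card h (UG.card + h) := by
    refine
      { TA_m := hTA3
        DT_odd := ?_
        DG_odd := hoG
        Z1_cls := fun σ hσ x hx => (zN_mem H.sta hσ hx).1
        Z1_card := fun σ hσ => zN_card H.sta hσ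
        junk := ?_
        π_blk := fun d hd => piN_blk H.sta hoG hd
        π_inj := fun σ hσ => piN_inj H.sta hoG hσ
        π_cls := fun σ hσ d hd => (piN_mem H.sta hoG hσ hd).1
        P_eq := fun σ hσ => rfl
        D_odd := fun σ hσ d hd => hq.odd d ((dU σ hσ).1 hd)
        D_card := hDc
        D_m := fun σ hσ Z' hZ' hc => hub_match (H.hub σ hσ) (hab σ hσ) Z' hZ' hc
        M_eq := rfl
        h_le := h2
        dZP := fun σ hσ => piN_dis H.sta hoG hσ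
        dA1 := t3.symm
        dA2 := ?_
        dA3 := ?_
        dA4 := ?_
        dD1 := hdDT.1.symm
        dD2 := ?_
        dD3 := ?_ }
    · intro d hd
      rw [eDT] at hd
      exact (hc1 d (mem_sdiff.1 hd).1).1
    · -- junk
      intro J hJ _ hJc hJne
      have hJN : ∀ u ∈ J, (1 ≤ u ∧ u ≤ N) ∧ u ∉ FT := fun u hu => by
        have h3 := mem_sdiff.1 (hJ hu)
        exact ⟨mem_Icc.1 h3.1, h3.2⟩
      obtain ⟨J', eJ'⟩ : ∃ J' : Finset ℤ, J' = J.image (fun y : ℕ => (y : ℤ)) := ⟨_, rfl⟩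
      have hJ'm : ∀ u ∈ J, (u : ℤ) ∈ J' := fun u hu => by
        rw [eJ']
        exact mem_image_of_mem (fun y : ℕ => (y : ℤ)) hu
      have hJ'c : (J'.card : ℝ) ≤ 2 * h := by
        have h3 : J'.card ≤ 2 * h := by
          rw [eJ']
          exact card_image_le.trans hJc
        exact_mod_cast h3
      have hZN : Z 0 ∪ Z 1 ⊆ Icc 1 (N : ℤ) := by
        intro z hz
        rw [mem_Icc]
        rcases mem_union.1 hz with h3 | h3
        · exact (H.sta.Zm 0 (Or.inl rfl) z h3).2.1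
        · exact (H.sta.Zm 1 (Or.inr rfl) z h3).2.1
      obtain ⟨t, ht1, ht2⟩ := junk (N := N) (UG := UG) (c := c) (η' := 4 * η) (γ := γ) (Z := Z 0 ∪ Z 1)
        hγ (by positivity) (by omega) hUG (by linarith) hZN
        (fun P Q hP hQ => mix hq htr hU hη (by omega) hP hQ) J'
        (fun u hu => by
          rw [eJ'] at hu
          obtain ⟨y, hy, rfl⟩ := mem_image.1 hu
          have h3 := (hJN y hy).1
          rw [mem_Icc]
          omega)
        (hJ'c.trans hh1) (hJ'c.trans hh2)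
        (fun u hu => by
          rw [eJ'] at hu
          obtain ⟨y, hy, rfl⟩ := mem_image.1 hu
          have h3 := hJN y hy
          refine le_trans (mul_le_mul_of_nonneg_right hγ1 (Nat.cast_nonneg _)) (hlow (y : ℤ) ?_)
          rw [eXs, mem_filter, mem_Icc]
          refine ⟨by omega, fun y' hy' he => h3.2 ?_⟩
          have h4 : y' = y := by exact_mod_cast he
          rwa [← h4])
      have hmd : ∀ u ∈ J, (md c u (t u) = u + c (t u).1 ∨ md c u (t u) = u - c (t u).1) := by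
        intro u hu
        unfold md sgnU
        cases (t (u : ℤ)).2
        · right
          simp
          ring
        · left
          simp
      have hmp : ∀ u ∈ J, 1 ≤ md c u (t u) := fun u hu =>
        (mem_Icc.1 (hZN (ht1 u (hJ'm u hu)).2)).1
      refine ⟨fun u => (t u).1, fun u => (md c u (t u)).toNat, fun u hu => ⟨?_, ?_, ?_⟩, ?_, ?_⟩
      · exact (ht1 u (hJ'm u hu)).1
      · have h3 := (ht1 u (hJ'm u hu)).2
        have h4 := hoG _ (ht1 u (hJ'm u hu)).1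
        have h5 := hmd u hu
        rcases mem_union.1 h3 with h6 | h6
        · have h7 := (H.sta.Zm 0 (Or.inl rfl) _ h6).1
          have h8 : (u + 1) % 2 = 0 := by omega
          rw [h8]
          exact mem_zN H.sta (σ := 0) (by norm_num) h6
        · have h7 := (H.sta.Zm 1 (Or.inr rfl) _ h6).1
          have h8 : (u + 1) % 2 = 1 := by omega
          rw [h8]
          exact mem_zN H.sta (σ := 1) (by norm_num) h6
      · have h4 := hoG _ (ht1 u (hJ'm u hu)).1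
        have h5 := hmd u hu
        have h6 := hmp u hu
        have h7 := (hJN u hu).1
        change IsBlock 1 (c (t (u : ℤ)).1, c (t (u : ℤ)).1) {u, (md c u (t u)).toNat}
        rcases h5 with h5 | h5
        · exact isBlock_add (by omega) (by omega) (by omega)
        · have h8 : IsBlock 1 (c (t (u : ℤ)).1, c (t (u : ℤ)).1) {(md c u (t u)).toNat, u} :=
            isBlock_add (by omega) (by omega) (by omega)
          rwa [pair_comm] at h8
      · intro u hu v hv huv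
        by_contra hne
        exact (ht2 u (hJ'm u hu) v (hJ'm v hv) (by exact_mod_cast hne)).1 huv
      · intro u hu v hv huv
        by_contra hne
        have h3 := (ht2 u (hJ'm u hu) v (hJ'm v hv) (by exact_mod_cast hne)).2
        have h4 := hmp u hu
        have h5 := hmp v hv
        have h6 : (md c u (t u)).toNat = (md c v (t v)).toNat := huv
        exact h3 (by omega)
    · rw [disjoint_union_right]
      refine ⟨t4.symm, ?_⟩
      rw [disjoint_left]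
      intro x hx hx'
      have h3 := (zp_mem H.sta hoG (σ := 1) (by norm_num) hx).1
      have h4 := (zp_mem H.sta hoG (σ := 0) (by norm_num) hx').1
      omega
    · rw [disjoint_union_right, disjoint_union_right]
      exact ⟨⟨t5.symm, hZA 0 (by norm_num) 0 (by norm_num)⟩, hZA 0 (by norm_num) 1 (by norm_num)⟩
    · rw [disjoint_union_right, disjoint_union_right, disjoint_union_right]
      exact ⟨⟨⟨t6.symm, hZA 1 (by norm_num) 0 (by norm_num)⟩, hZA 1 (by norm_num) 1 (by norm_num)⟩,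
        abA_dis H O⟩
    · rw [disjoint_union_right]
      exact ⟨hdDT.2.1.symm, (dU 0 (by norm_num)).2⟩
    · rw [disjoint_union_right, disjoint_union_right]
      exact ⟨⟨hdDT.2.2.symm, (dU 1 (by norm_num)).2⟩, dD10⟩
  have hD : ruD DT UG (abD g m Lk l) = U1 := by
    unfold ruD
    rw [union_assoc, union_assoc, ← union_assoc UG, eDT]
    exact sdiff_union_of_subset hsub
  have hmem : ∀ x ∈ ruA TA (zN Z) (fun σ => UG.image (piN c q σ)) (abA c g p m Lk pre l),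
      (1 ≤ x ∧ x ≤ N) ∧ x ∉ FT ∧ x ∉ R := by
    intro x hx
    unfold ruA at hx
    have hzp : ∀ σ < 2, x ∈ zN Z σ ∪ UG.image (piN c q σ) → (1 ≤ x ∧ x ≤ N) ∧ x ∉ FT ∧ x ∉ R := by
      intro σ hσ h3
      obtain ⟨-, h4, h5, -, h6⟩ := zp_mem H.sta hoG hσ h3
      exact ⟨⟨h4, h5⟩, hF₀ x h6⟩
    rcases mem_union.1 hx with hx | hx
    · rcases mem_union.1 hx with hx | hx
      · rcases mem_union.1 hx with hx | hx
        · rcases mem_union.1 hx with hx | hx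
          · exact ⟨mem_Icc.1 (hTA1 hx), disjoint_left.1 t1 hx, disjoint_left.1 t2 hx⟩
          · exact hzp 0 (by norm_num) hx
        · exact hzp 1 (by norm_num) hx
      · obtain ⟨h3, h4, -⟩ := abA_fact H O (σ := 0) (by norm_num) hx
        exact ⟨h3, hF₀ x h4⟩
    · obtain ⟨h3, h4, -⟩ := abA_fact H O (σ := 1) (by norm_num) hx
      exact ⟨h3, hF₀ x h4⟩
  have h2c := ru_2card cfg
  rw [hD] at h2c
  refine ⟨ruA TA (zN Z) (fun σ => UG.image (piN c q σ)) (abA c g p m Lk pre l), ?_, ?_, ?_,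
    ru_bal cfg, h2c.symm, ?_⟩
  · intro x hx
    exact mem_Icc.2 (hmem x hx).1
  · rw [disjoint_left]
    exact fun x hx => (hmem x hx).2.1
  · rw [disjoint_left]
    exact fun x hx => (hmem x hx).2.2
  · intro J hJ hJA hJF hB hc
    have h3 := ru_match cfg J (fun x hx => mem_sdiff.2 ⟨hJ hx, disjoint_left.1 hJF hx⟩) hJA
      (by rw [hD]; exact hc) hB
    rwa [hD] at h3

theorem absCore {N K h C : ℕ} {S S1 : Finset ℕ} {w f : ℕ → ℕ} {FT R : Finset ℕ} {κ η γ : ℝ}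
    (hC : ∀ M : ℕ, 1 ≤ M → ∀ Z : Finset ℕ, M ≤ Z.card → Z.card ≤ 2 * M →
      ∃ (m : ℕ) (Lk : Finset (Fin m × Fin 3)) (pre : Fin m × Fin 3 → (Fin m × Fin 3) ⊕ ℕ),
        m ≤ C * M ∧ Hub M Z m Lk pre)
    (hq : QRU N (unitsW S w) (cW f) η κ) (hLk : LinksOK N (unitsW S w) (cW f) κ)
    (hS : S ⊆ S1) (hf : Set.InjOn f S1) (hf1 : ∀ u ∈ S1, f u % 2 = 1 ∧ 8 * f u ≤ N) (hK : 1 ≤ K) (hw : ∀ u ∈ S, K ≤ w u)
    (hreg : ∀ x : ℤ, 1 ≤ x → x ≤ N → (∀ y ∈ FT, (y : ℤ) ≠ x) →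
      Rgl (unitsW S w) (cW f) (κ / 4) ((FT ∪ R).image (fun y : ℕ => (y : ℤ))) x)
    (h1 : 1 ≤ h) (h2 : 2 * h ≤ (unitsK S w K).card) (hN : 1000 ≤ N) (hη : 0 ≤ η) (hη1 : 12 * η * Real.log (6 * N) ≤ κ / 16)
    (hη2 : η ≤ 1 / 4) (hκ : κ ≤ 1 / 1000)
    (hG1 : 300 * ((unitsK S w K).card : ℝ) / N ≤ κ / 16) (hG2 : 400 * C * ((unitsK S w K).card : ℝ) / N ≤ κ / 16)
    (hG3 : 30000 * (unitsK S w K).card ≤ N) (hG4 : 40000 * C * (unitsK S w K).card ≤ N)
    (hG5 : (8 * C + 4) * ((unitsK S w K).card : ℝ) ≤ κ * (unitsW S w).card)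
    (hG6 : (8 * C + 4) * ((unitsK S w K).card : ℝ) ≤ κ * N)
    (hFR : 100 * ((FT ∪ R).card + 4 * (unitsK S w K).card) ≤ N)
    (hγ : 0 < γ) (hγ1 : γ ≤ ((unitsK S w K).card : ℝ) / (4 * N) - 12 * η * Real.log (6 * N)) (hγ2 : 512 * η ≤ γ)
    (hh1 : 2 * (h : ℝ) ≤ γ * N / 8192) (hh2 : 2 * (h : ℝ) ≤ γ * (unitsK S w K).card / 64)
    (hfix : 2 * (FT ∪ R).card + 4 * (unitsW S1 w).card + 1 ≤ N / 2) :
    ∃ A : Finset ℕ, A ⊆ Icc 1 N ∧ Disjoint A FT ∧ Disjoint A R ∧ Bal A ∧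
      A.card + 2 * h = 2 * (unitsW S1 w).card ∧
      ∀ J : Finset ℕ, J ⊆ Icc 1 N → Disjoint J A → Disjoint J FT → Bal J →
        J.card + A.card = 2 * (unitsW S1 w).card → MatchU (unitsW S1 w) (cW f) (A ∪ J) := by
  have hUG : (unitsK S w K).Nonempty := card_pos.1 (by omega)
  obtain ⟨e0, he0⟩ := hUG
  haveI : Inhabited ((_ : ℕ) × ℕ) := ⟨e0⟩
  have hUU : unitsW S w ⊆ unitsW S1 w := by
    intro e he
    unfold unitsW at he ⊢
    rw [mem_sigma] at he ⊢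
    exact ⟨hS he.1, he.2⟩
  exact ac_gen hC hq hLk (trn_floor hK hw (hf.mono (coe_subset.2 hS))) hUU
    (fun e he => by
      unfold unitsW at he
      rw [mem_sigma] at he
      exact hf1 e.1 he.1)
    hreg h1 h2 hN hη hη1 hη2 hκ hG1 hG2 hG3 hG4 hG5 hG6 hFR hγ hγ1 hγ2 hh1 hh2 hfix

end SSB
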