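import Mathlib

/-!
# Independent transversals by counting

For `S ⊆ s` let `G S` be the set of the conflict-free choices on `S` (with a fixed value outside `S`). For `i ∉ S` one has
`2 |G (insert i S)| ≥ |V i| |G S|`, by induction on `|S|`.
-/

set_option autoImplicit false

namespace SSB

open Finset

private theorem trv_fin {J Ω : Type*} [Fintype J] [DecidableEq J] [DecidableEq Ω] (V : J → Finset Ω)
    (K : J → Ω → J → Ω → Prop) (hsym : ∀ i x j y, K i x j y → K j y i x) (ω₀ : Ω)
    (hne : ∀ i, (V i).Nonempty)
    (h : ∀ i, ∀ x ∈ V i, ∀ (T : J → Finset Ω), (∀ j, T j ⊆ V j) → (∀ j, ∀ y ∈ T j, K i x j y) →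
      ∑ j ∈ univ.erase i, ((T j).card : ℝ) / (V j).card ≤ 1 / 4) :
    ∃ g : J → Ω, (∀ i, g i ∈ V i) ∧ ∀ i j, i ≠ j → ¬ K i (g i) j (g j) := by
  classical
  let G : Finset J → Finset (J → Ω) := fun S =>
    (Fintype.piFinset (fun i => if i ∈ S then V i else {ω₀})).filter
      (fun g => ∀ i ∈ S, ∀ j ∈ S, i ≠ j → ¬ K i (g i) j (g j))
  have memG : ∀ S g, g ∈ G S ↔ (∀ i ∈ S, g i ∈ V i) ∧ (∀ i, i ∉ S → g i = ω₀) ∧
      ∀ i ∈ S, ∀ j ∈ S, i ≠ j → ¬ K i (g i) j (g j) := by
    intro S g
    simp only [G, mem_filter, Fintype.mem_piFinset]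
    constructor
    · rintro ⟨h1, h2⟩
      refine ⟨fun i hi => ?_, fun i hi => ?_, h2⟩
      · simpa [hi] using h1 i
      · simpa [hi] using h1 i
    · rintro ⟨h1, h2, h3⟩
      refine ⟨fun i => ?_, h3⟩
      by_cases hi : i ∈ S
      · simpa [hi] using h1 i hi
      · simpa [hi] using h2 i hi
  have h2 : ∀ S, ∀ j ∈ S, ∀ y, ((G S).filter (fun g => g j = y)).card ≤ (G (S.erase j)).card := by
    intro S j hj y
    refine card_le_card_of_injOn (fun g => Function.update g j ω₀) ?_ ?_
    · intro g hg
      rw [mem_coe, mem_filter, memG] at hg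
      obtain ⟨⟨hg1, hg2, hg3⟩, -⟩ := hg
      rw [mem_coe, memG]
      refine ⟨fun i hi => ?_, fun i hi => ?_, fun i hi k hk hik => ?_⟩
      · rw [mem_erase] at hi
        simp only [Function.update_of_ne hi.1]
        exact hg1 i hi.2
      · by_cases hij : i = j
        · subst hij; simp
        · simp only [Function.update_of_ne hij]
          exact hg2 i (fun hiS => hi (mem_erase.2 ⟨hij, hiS⟩))
      · rw [mem_erase] at hi hk
        simp only [Function.update_of_ne hi.1, Function.update_of_ne hk.1]
        exact hg3 i hi.2 k hk.2 hik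
    · intro g hg g' hg' hgg
      rw [mem_coe, mem_filter] at hg hg'
      funext i
      by_cases hij : i = j
      · rw [hij, hg.2, hg'.2]
      · have := congrFun hgg i
        simpa only [Function.update_of_ne hij] using this
  have h1 : ∀ S, ∀ i ∉ S, (V i).card * (G S).card ≤ (G (insert i S)).card +
      ∑ x ∈ V i, ∑ j ∈ S, ((V j).filter (fun y => K i x j y)).card * (G (S.erase j)).card := by
    intro S i hi
    have e0 : (V i).card * (G S).card = ∑ x ∈ V i, (G S).card := by
      rw [sum_const, smul_eq_mul]
    have e1 : ∀ x ∈ V i, (G S).card = ((G S).filter (fun g => ∀ j ∈ S, ¬ K i x j (g j))).card +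
        ((G S).filter (fun g => ¬ ∀ j ∈ S, ¬ K i x j (g j))).card := by
      intro x _
      rw [card_filter_add_card_filter_not]
    rw [e0, sum_congr rfl e1, sum_add_distrib]
    refine add_le_add ?_ (sum_le_sum fun x _ => ?_)
    · rw [← card_sigma]
      refine card_le_card_of_injOn (fun p : (_ : Ω) × (J → Ω) => Function.update p.2 i p.1) ?_ ?_
      · rintro ⟨x, g⟩ hp
        rw [mem_coe, mem_sigma, mem_filter, memG] at hp
        obtain ⟨hx, ⟨hg1, hg2, hg3⟩, hg4⟩ := hp
        rw [mem_coe, memG]
        refine ⟨fun k hk => ?_, fun k hk => ?_, fun k hk l hl hkl => ?_⟩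
        · by_cases hki : k = i
          · subst hki
            simpa using hx
          · simp only [Function.update_of_ne hki]
            exact hg1 k ((mem_insert.1 hk).resolve_left hki)
        · rw [mem_insert] at hk
          push Not at hk
          simp only [Function.update_of_ne hk.1]
          exact hg2 k hk.2
        · by_cases hki : k = i
          · subst hki
            have hlk : l ≠ k := fun e => hkl e.symm
            have hlS := (mem_insert.1 hl).resolve_left hlk
            simp only [Function.update_self, Function.update_of_ne hlk]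
            exact hg4 l hlS
          · have hkS := (mem_insert.1 hk).resolve_left hki
            by_cases hli : l = i
            · subst hli
              simp only [Function.update_self, Function.update_of_ne hki]
              exact fun hK => hg4 k hkS (hsym _ _ _ _ hK)
            · have hlS := (mem_insert.1 hl).resolve_left hli
              simp only [Function.update_of_ne hki, Function.update_of_ne hli]
              exact hg3 k hkS l hlS hkl
      · rintro ⟨x, g⟩ hp ⟨x', g'⟩ hp' hpp
        rw [mem_coe, mem_sigma, mem_filter, memG] at hp hp'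
        obtain ⟨-, ⟨-, hg2, -⟩, -⟩ := hp
        obtain ⟨-, ⟨-, hg2', -⟩, -⟩ := hp'
        have hx : x = x' := by
          have := congrFun hpp i
          simpa using this
        have hg : g = g' := by
          funext k
          by_cases hki : k = i
          · subst hki
            rw [show g k = ω₀ from hg2 k hi, show g' k = ω₀ from hg2' k hi]
          · have := congrFun hpp k
            simpa only [Function.update_of_ne hki] using this
        rw [hx, hg]
    · calc ((G S).filter (fun g => ¬ ∀ j ∈ S, ¬ K i x j (g j))).card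
          ≤ (S.biUnion fun j => ((V j).filter (fun y => K i x j y)).biUnion
              fun y => (G S).filter (fun g => g j = y)).card := by
            refine card_le_card fun g hg => ?_
            rw [mem_filter] at hg
            obtain ⟨hg1, hg2⟩ := hg
            push Not at hg2
            obtain ⟨j, hj, hK⟩ := hg2
            rw [mem_biUnion]
            refine ⟨j, hj, mem_biUnion.2 ⟨g j, mem_filter.2 ⟨((memG S g).1 hg1).1 j hj, hK⟩,
              mem_filter.2 ⟨hg1, rfl⟩⟩⟩
        _ ≤ ∑ j ∈ S, (((V j).filter (fun y => K i x j y)).biUnion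
              fun y => (G S).filter (fun g => g j = y)).card := card_biUnion_le
        _ ≤ ∑ j ∈ S, ((V j).filter (fun y => K i x j y)).card * (G (S.erase j)).card := by
            refine sum_le_sum fun j hj => ?_
            exact card_biUnion_le_card_mul _ _ _ (fun y _ => h2 S j hj y)
  have hVpos : ∀ j, (0 : ℝ) < (V j).card := fun j => by exact_mod_cast (hne j).card_pos
  have main : ∀ n : ℕ, ∀ S : Finset J, S.card = n → ∀ i ∉ S,
      ((V i).card : ℝ) * (G S).card ≤ 2 * (G (insert i S)).card := by
    intro n
    induction n using Nat.strong_induction_on with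
    | _ n ih =>
      intro S hS i hi
      have h3 : ((V i).card : ℝ) * (G S).card ≤ (G (insert i S)).card +
          ∑ x ∈ V i, ∑ j ∈ S, (((V j).filter (fun y => K i x j y)).card : ℝ) *
            (G (S.erase j)).card := by
        exact_mod_cast h1 S i hi
      have h4 : ∑ x ∈ V i, ∑ j ∈ S, (((V j).filter (fun y => K i x j y)).card : ℝ) *
            (G (S.erase j)).card ≤ ∑ x ∈ V i, (1 / 4 : ℝ) * (2 * (G S).card) := by
        refine sum_le_sum fun x hx => ?_
        calc ∑ j ∈ S, (((V j).filter (fun y => K i x j y)).card : ℝ) * (G (S.erase j)).card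
            ≤ ∑ j ∈ S, (((V j).filter (fun y => K i x j y)).card : ℝ) / (V j).card *
                (2 * (G S).card) := by
              refine sum_le_sum fun j hj => ?_
              have h5 := ih (S.erase j).card (by rw [← hS]; exact card_erase_lt_of_mem hj)
                (S.erase j) rfl j (notMem_erase j S)
              rw [insert_erase hj] at h5
              rw [div_mul_eq_mul_div, le_div_iff₀ (hVpos j)]
              calc (((V j).filter (fun y => K i x j y)).card : ℝ) * (G (S.erase j)).card * (V j).card
                  = (((V j).filter (fun y => K i x j y)).card : ℝ) *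
                      ((V j).card * (G (S.erase j)).card) := by ring
                _ ≤ (((V j).filter (fun y => K i x j y)).card : ℝ) * (2 * (G S).card) :=
                    mul_le_mul_of_nonneg_left h5 (Nat.cast_nonneg _)
          _ = (∑ j ∈ S, (((V j).filter (fun y => K i x j y)).card : ℝ) / (V j).card) *
                (2 * (G S).card) := by rw [sum_mul]
          _ ≤ (1 / 4 : ℝ) * (2 * (G S).card) := by
              refine mul_le_mul_of_nonneg_right ?_ (by positivity)
              refine le_trans ?_ (h i x hx (fun j => (V j).filter (fun y => K i x j y))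
                (fun j => filter_subset _ _) (fun j y hy => (mem_filter.1 hy).2))
              refine sum_le_sum_of_subset_of_nonneg (fun j hj => mem_erase.2 ⟨?_, mem_univ _⟩)
                (fun j _ _ => by positivity)
              intro e
              rw [e] at hj
              exact hi hj
      rw [sum_const, nsmul_eq_mul] at h4
      have h6 : ((V i).card : ℝ) * ((1 / 4 : ℝ) * (2 * (G S).card)) =
          (((V i).card : ℝ) * (G S).card) / 2 := by ring
      rw [h6] at h4
      linarith
  have hpos : ∀ S : Finset J, 0 < (G S).card := by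
    intro S
    induction S using Finset.induction_on with
    | empty =>
      rw [card_pos]
      exact ⟨fun _ => ω₀, (memG _ _).2 ⟨by simp, by simp, by simp⟩⟩
    | insert i S hi ih =>
      have h7 := main S.card S rfl i hi
      have h8 : (0 : ℝ) < (V i).card * (G S).card := mul_pos (hVpos i) (by exact_mod_cast ih)
      have h9 : (0 : ℝ) < 2 * (G (insert i S)).card := lt_of_lt_of_le h8 h7
      have h10 : (0 : ℝ) < (G (insert i S)).card := by linarith
      exact_mod_cast h10
  obtain ⟨g, hg⟩ := card_pos.1 (hpos univ)
  obtain ⟨hg1, -, hg3⟩ := (memG _ _).1 hg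
  exact ⟨g, fun i => hg1 i (mem_univ i), fun i j hij => hg3 i (mem_univ i) j (mem_univ j) hij⟩

theorem transversal {I Ω : Type*} [DecidableEq I] [DecidableEq Ω] [Nonempty Ω] (s : Finset I) (V : I → Finset Ω)
    (K : I → Ω → I → Ω → Prop) (hsym : ∀ i x j y, K i x j y → K j y i x)
    (hne : ∀ i ∈ s, (V i).Nonempty)
    (h : ∀ i ∈ s, ∀ x ∈ V i, ∀ (T : I → Finset Ω), (∀ j, T j ⊆ V j) → (∀ j, ∀ y ∈ T j, K i x j y) →
      ∑ j ∈ s.erase i, ((T j).card : ℝ) / (V j).card ≤ 1 / 4) :
    ∃ g : I → Ω, (∀ i ∈ s, g i ∈ V i) ∧ ∀ i ∈ s, ∀ j ∈ s, i ≠ j → ¬ K i (g i) j (g j) := by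
  classical
  rcases s.eq_empty_or_nonempty with rfl | ⟨i₀, hi₀⟩
  · exact ⟨fun _ => Classical.arbitrary Ω, by simp, by simp⟩
  obtain ⟨ω₀, -⟩ := hne i₀ hi₀
  obtain ⟨g, hg1, hg2⟩ := trv_fin (J := {i // i ∈ s}) (fun i => V i) (fun i x j y => K i x j y)
    (fun i x j y => hsym i x j y) ω₀ (fun i => hne i i.2) (by
      intro i x hx T hT1 hT2
      have h1 := h i i.2 x hx (fun j => if hj : j ∈ s then T ⟨j, hj⟩ else ∅) (by
        intro j
        by_cases hj : j ∈ s
        · simp only [hj, dite_true]; exact hT1 ⟨j, hj⟩
        · simp [hj]) (by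
        intro j y hy
        by_cases hj : j ∈ s
        · simp only [hj, dite_true] at hy
          exact hT2 ⟨j, hj⟩ y hy
        · simp [hj] at hy)
      refine le_trans (le_of_eq ?_) h1
      refine sum_bij (fun j _ => j.1) ?_ ?_ ?_ ?_
      · intro j hj
        rw [mem_erase] at hj ⊢
        exact ⟨fun e => hj.1 (Subtype.ext e), j.2⟩
      · intro j _ k _ e
        exact Subtype.ext e
      · intro j hj
        rw [mem_erase] at hj
        exact ⟨⟨j, hj.2⟩, mem_erase.2 ⟨fun e => hj.1 (congrArg Subtype.val e), mem_univ _⟩, rfl⟩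
      · intro j _
        simp [j.2])
  refine ⟨fun i => if hi : i ∈ s then g ⟨i, hi⟩ else ω₀, fun i hi => ?_, fun i hi j hj hij => ?_⟩
  · simp only [hi, dite_true]
    exact hg1 ⟨i, hi⟩
  · simp only [hi, hj, dite_true]
    exact hg2 ⟨i, hi⟩ ⟨j, hj⟩ (fun e => hij (congrArg Subtype.val e))

end SSB
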