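import Pool.Agent.Lib.MP_8a819d_co.LH.MixU
import Pool.Agent.Lib.MP_8a819d_co.LH.Trv

/-!
# The junk labels

JOB Jnk (all of this file). Every junk label `u ∈ J` has at least `γ |UG|` options `t = (e, s)` with `u ± c e ∈ Z`; we choose one option for every `u`, with different units and different partners.

`junk_peel`. Let `m = |UG|`, `opts u = {t ∈ stps UG : md c u t ∈ Z}`, `K = γ/32`. Induction on `|J|` (strong, for all `J` with `|J| ≤ γ N/8192`, `|J| ≤ γ m/64` and the lower bound for the options). `J = ∅` is trivial.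
Otherwise let `T = {z ∈ Z : #{(t, u) : u ∈ J, t ∈ stps UG, md c u t = z} > K m}`, `J' = {u ∈ J : more than half of its options lead to T}`. By `hmix` for `(J, T)`:
`|T| K m ≤ 128 |J| |T| m/N + η' m √(|J| |T|)`, and `128 |J|/N ≤ K/2` (`|J| ≤ γ N/8192`): `|T| K/2 ≤ η' √(|J| |T|)`, so `|T| ≤ (2 η'/K)² |J| = (64 η'/γ)² |J|`. By `hmix` for `(J', T)`:
`|J'| γ m/2 ≤ 128 |J'| |T| m/N + η' m √(|J'| |T|)`; `128 |T|/N ≤ 128 |J|/N ≤ γ/64 ≤ γ/4` (`64 η' ≤ γ/2`), so `|J'| γ/4 ≤ η' √(|J'| |T|)`, `|J'| ≤ (4 η'/γ)² |T| ≤ |J|/2 < |J|`.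
Apply the induction to `J'`: sets `V' u` for `u ∈ J'`. Put `V u = V' u` for `u ∈ J'` and `V u = {t ∈ opts u : md c u t ∉ T}` for `u ∈ J \ J'`. Sizes: at least half of the options. Degrees: for `z ∉ T` (or `z ∉ Z`: no option at all) the
number of all the options of all `u ∈ J` leading to `z` is at most `K m`; for `z ∈ T` only `u ∈ J'` contribute: induction.

`junk`. `transversal` with `I = ℤ`, `Ω = ι × Bool`, conflict of `(u, t)` and `(u', t')`: the same unit `t.1 = t'.1` or the same partner `md c u t = md c u' t'`. For a given `(u, t)`: every `u'` has at most two options with the unit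
`t.1`, together `∑ u' 2/(γ m/2) = 4 |J|/(γ m) ≤ 1/16`; the options with the partner `z = md c u t`: at most `K m/(γ m/2) = 1/16`.
-/

set_option autoImplicit false

namespace SSB

open Finset

variable {ι : Type} [DecidableEq ι]

/-- number of pairs (step, start) counted by the partner -/
private theorem jnk_pe_card (UG : Finset ι) (c : ι → ℕ) (P Q : Finset ℤ) :
    (pe UG c P Q).card = ∑ z ∈ Q, ∑ u ∈ P, ((stps UG).filter (fun t => md c u t = z)).card := by
  classical
  unfold pe
  have h1 : ((stps UG ×ˢ P).filter (fun s => md c s.2 s.1 ∈ Q)).card =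
      ∑ u ∈ P, ((stps UG).filter (fun t => md c u t ∈ Q)).card := by
    rw [Finset.card_filter, Finset.sum_product, Finset.sum_comm]
    refine Finset.sum_congr rfl fun u _ => ?_
    rw [Finset.card_filter]
  rw [h1, Finset.sum_comm]
  refine Finset.sum_congr rfl fun u _ => ?_
  have h2 : ((stps UG).filter (fun t => md c u t ∈ Q)).card =
      ∑ z ∈ Q, (((stps UG).filter (fun t => md c u t ∈ Q)).filter (fun t => md c u t = z)).card :=
    Finset.card_eq_sum_card_fiberwise (f := fun t => md c u t) (s := (stps UG).filter (fun t => md c u t ∈ Q)) (t := Q)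
      (fun t ht => (Finset.mem_filter.1 ht).2)
  rw [h2]
  refine Finset.sum_congr rfl fun z hz => ?_
  congr 1
  ext t
  simp only [Finset.mem_filter]
  constructor
  · rintro ⟨⟨h1, _⟩, h3⟩
    exact ⟨h1, h3⟩
  · rintro ⟨h1, h3⟩
    exact ⟨⟨h1, h3.symm ▸ hz⟩, h3⟩

private theorem jnk_pe_card' (UG : Finset ι) (c : ι → ℕ) (P Q : Finset ℤ) :
    (pe UG c P Q).card = ∑ u ∈ P, ((stps UG).filter (fun t => md c u t ∈ Q)).card := by
  classical
  unfold pe
  rw [Finset.card_filter, Finset.sum_product, Finset.sum_comm]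
  refine Finset.sum_congr rfl fun u _ => ?_
  rw [Finset.card_filter]

/-- `A t ≤ e √(j t)` implies `A² t ≤ e² j` -/
private theorem jnk_sqrt {A e j t : ℝ} (hA : 0 ≤ A) (hj : 0 ≤ j) (ht : 0 ≤ t)
    (h : A * t ≤ e * √(j * t)) : A ^ 2 * t ≤ e ^ 2 * j := by
  rcases eq_or_lt_of_le ht with h0 | h0
  · rw [← h0]
    have := mul_nonneg (sq_nonneg e) hj
    simpa using this
  · have h1 : (A * t) ^ 2 ≤ (e * √(j * t)) ^ 2 := pow_le_pow_left₀ (mul_nonneg hA ht) h 2
    rw [mul_pow, mul_pow, Real.sq_sqrt (mul_nonneg hj ht)] at h1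
    have h2 : (A ^ 2 * t) * t ≤ (e ^ 2 * j) * t := by nlinarith [h1]
    exact le_of_mul_le_mul_right h2 h0

open Classical in
theorem junk_peel {N : ℕ} {UG : Finset ι} {c : ι → ℕ} {η' γ : ℝ} {Z : Finset ℤ} (hγ : 0 < γ) (hη' : 0 ≤ η') (hN : 1 ≤ N)
    (hUG : UG.Nonempty) (h1 : 128 * η' ≤ γ) (hZ : Z ⊆ Icc 1 (N : ℤ))
    (hmix : ∀ P Q : Finset ℤ, P ⊆ Icc 1 (N : ℤ) → Q ⊆ Icc 1 (N : ℤ) →
      ((pe UG c P Q).card : ℝ) ≤ 128 * P.card * Q.card * UG.card / N + η' * UG.card * √(P.card * Q.card))
    (J : Finset ℤ) (hJ : J ⊆ Icc 1 (N : ℤ)) (hJ1 : (J.card : ℝ) ≤ γ * N / 8192)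
    (hlow : ∀ u ∈ J, γ * UG.card ≤ ((stps UG).filter (fun t => md c u t ∈ Z)).card) :
    ∃ V : ℤ → Finset (ι × Bool), (∀ u ∈ J, (V u ⊆ (stps UG).filter (fun t => md c u t ∈ Z)) ∧
      γ * UG.card / 2 ≤ (V u).card) ∧
      ∀ z : ℤ, (∑ u ∈ J, ((V u).filter (fun t => md c u t = z)).card : ℝ) ≤ γ / 32 * UG.card := by
  have hm : (0 : ℝ) < UG.card := by exact_mod_cast Finset.card_pos.2 hUG
  have hN' : (0 : ℝ) < N := by exact_mod_cast hN
  induction hk : J.card using Nat.strong_induction_on generalizing J with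
  | _ k ih =>
  rcases J.eq_empty_or_nonempty with h0 | h0
  · subst h0
    refine ⟨fun _ => ∅, fun u hu => absurd hu (Finset.notMem_empty u), fun z => ?_⟩
    simp only [Finset.sum_empty]
    positivity
  -- the dangerous partners
  set O : ℤ → Finset (ι × Bool) := fun u => (stps UG).filter (fun t => md c u t ∈ Z) with hO
  set T : Finset ℤ := Z.filter (fun z => γ / 32 * UG.card <
    (∑ u ∈ J, ((O u).filter (fun t => md c u t = z)).card : ℝ)) with hT
  have hTZ : T ⊆ Z := Finset.filter_subset _ _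
  have hTN : T ⊆ Icc 1 (N : ℤ) := hTZ.trans hZ
  have hJN : 128 * (J.card : ℝ) / N ≤ γ / 64 := by
    rw [div_le_iff₀ hN']
    nlinarith [hJ1]
  have hTc : (T.card : ℝ) ≤ J.card / 4 := by
    have e1 : (T.card : ℝ) * (γ / 32 * UG.card) ≤ (pe UG c J T).card := by
      rw [jnk_pe_card]
      push_cast
      rw [← nsmul_eq_mul]
      refine Finset.card_nsmul_le_sum _ _ _ fun z hz => ?_
      have h2 := (Finset.mem_filter.1 hz).2
      refine h2.le.trans (Finset.sum_le_sum fun u _ => ?_)
      have h3 : (O u).filter (fun t => md c u t = z) ⊆ (stps UG).filter (fun t => md c u t = z) :=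
        Finset.filter_subset_filter _ (Finset.filter_subset _ _)
      exact_mod_cast Finset.card_le_card h3
    have e2 := e1.trans (hmix J T hJ hTN)
    have e3 : 128 * (J.card : ℝ) * T.card * UG.card / N ≤ γ / 64 * T.card * UG.card := by
      have h2 : 128 * (J.card : ℝ) * T.card * UG.card / N = (128 * (J.card : ℝ) / N) * (T.card * UG.card) := by
        ring
      rw [h2]
      have h3 := mul_le_mul_of_nonneg_right hJN (mul_nonneg (Nat.cast_nonneg T.card) hm.le)
      linarith
    have e4 : (γ / 64 * T.card) * UG.card ≤ (η' * √(J.card * T.card)) * UG.card := by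
      nlinarith [e2, e3]
    have e5 := jnk_sqrt (by positivity) (Nat.cast_nonneg J.card) (Nat.cast_nonneg T.card)
      (le_of_mul_le_mul_right e4 hm)
    have e6 : η' ^ 2 ≤ (γ / 128) ^ 2 := pow_le_pow_left₀ hη' (by linarith) 2
    have e7 : η' ^ 2 * (J.card : ℝ) ≤ (γ / 128) ^ 2 * J.card := mul_le_mul_of_nonneg_right e6 (Nat.cast_nonneg _)
    have e8 : γ ^ 2 * (T.card : ℝ) ≤ γ ^ 2 * (J.card / 4) := by nlinarith [e5, e7]
    exact le_of_mul_le_mul_left e8 (by positivity)
  -- the vertices most options of which are dangerous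
  set J' : Finset ℤ := J.filter (fun u => ((O u).card : ℝ) / 2 <
    (((O u).filter (fun t => md c u t ∈ T)).card : ℝ)) with hJ'
  have hJ'J : J' ⊆ J := Finset.filter_subset _ _
  have hJ'c : (J'.card : ℝ) ≤ T.card := by
    have e1 : (J'.card : ℝ) * (γ * UG.card / 2) ≤ (pe UG c J' T).card := by
      rw [jnk_pe_card']
      push_cast
      rw [← nsmul_eq_mul]
      refine Finset.card_nsmul_le_sum _ _ _ fun u hu => ?_
      have h2 := (Finset.mem_filter.1 hu).2
      have h3 := hlow u (hJ'J hu)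
      have h4 : (O u).filter (fun t => md c u t ∈ T) ⊆ (stps UG).filter (fun t => md c u t ∈ T) :=
        Finset.filter_subset_filter _ (Finset.filter_subset _ _)
      have h5 : (((O u).filter (fun t => md c u t ∈ T)).card : ℝ) ≤
          ((stps UG).filter (fun t => md c u t ∈ T)).card := by exact_mod_cast Finset.card_le_card h4
      have h6 : γ * UG.card ≤ ((O u).card : ℝ) := h3
      linarith
    have e2 := e1.trans (hmix J' T (hJ'J.trans hJ) hTN)
    have e3 : 128 * (J'.card : ℝ) * T.card * UG.card / N ≤ γ / 256 * J'.card * UG.card := by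
      have h2 : 128 * (J'.card : ℝ) * T.card * UG.card / N = (128 * (T.card : ℝ) / N) * (J'.card * UG.card) := by
        ring
      have h4 : 128 * (T.card : ℝ) / N ≤ γ / 256 := by
        have h5 : 128 * (T.card : ℝ) / N ≤ 128 * (J.card : ℝ) / N / 4 := by
          rw [div_div, div_le_div_iff₀ hN' (by positivity)]
          nlinarith [hTc, hN']
        linarith
      rw [h2]
      have h3 := mul_le_mul_of_nonneg_right h4 (mul_nonneg (Nat.cast_nonneg J'.card) hm.le)
      linarith
    have e4 : (γ / 4 * J'.card) * UG.card ≤ (η' * √(T.card * J'.card)) * UG.card := by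
      rw [mul_comm (T.card : ℝ) (J'.card : ℝ)]
      have h2 : 0 ≤ γ * (J'.card * UG.card) := by positivity
      nlinarith [e2, e3]
    have e5 := jnk_sqrt (by positivity) (Nat.cast_nonneg T.card) (Nat.cast_nonneg J'.card)
      (le_of_mul_le_mul_right e4 hm)
    have e6 : η' ^ 2 ≤ (γ / 128) ^ 2 := pow_le_pow_left₀ hη' (by linarith) 2
    have e7 : η' ^ 2 * (T.card : ℝ) ≤ (γ / 128) ^ 2 * T.card := mul_le_mul_of_nonneg_right e6 (Nat.cast_nonneg _)
    have h9 : 0 ≤ γ ^ 2 * (T.card : ℝ) := by positivity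
    have e8 : γ ^ 2 * (J'.card : ℝ) ≤ γ ^ 2 * T.card := by nlinarith [e5, e7]
    exact le_of_mul_le_mul_left e8 (by positivity)
  have hJpos : (0 : ℝ) < J.card := by exact_mod_cast Finset.card_pos.2 h0
  have hlt : (J'.card : ℝ) < J.card := by linarith
  have hlt' : J'.card < k := by
    rw [← hk]
    exact_mod_cast hlt
  obtain ⟨V', hV1, hV2⟩ := ih J'.card hlt' J' (hJ'J.trans hJ) (hlt.le.trans hJ1)
    (fun u hu => hlow u (hJ'J hu)) rfl
  refine ⟨fun u => if u ∈ J' then V' u else (O u).filter (fun t => md c u t ∉ T), fun u hu => ?_, fun z => ?_⟩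
  · by_cases h2 : u ∈ J'
    · simp only [if_pos h2]
      exact hV1 u h2
    · simp only [if_neg h2]
      refine ⟨Finset.filter_subset _ _, ?_⟩
      have h3 : ¬ (((O u).card : ℝ) / 2 < (((O u).filter (fun t => md c u t ∈ T)).card : ℝ)) := fun h4 =>
        h2 (Finset.mem_filter.2 ⟨hu, h4⟩)
      have h4 : ((O u).filter (fun t => md c u t ∈ T)).card + ((O u).filter (fun t => ¬ md c u t ∈ T)).card =
          (O u).card := Finset.card_filter_add_card_filter_not _
      have h5 : ((((O u).filter (fun t => md c u t ∈ T)).card : ℝ) +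
          (((O u).filter (fun t => ¬ md c u t ∈ T)).card : ℝ)) = ((O u).card : ℝ) := by exact_mod_cast h4
      have h6 : γ * UG.card ≤ ((O u).card : ℝ) := hlow u hu
      push Not at h3
      linarith
  · by_cases hz : z ∈ T
    · have h2 : (∑ u ∈ J, (((if u ∈ J' then V' u else (O u).filter (fun t => md c u t ∉ T)).filter
          (fun t => md c u t = z)).card : ℝ)) = ∑ u ∈ J', (((V' u).filter (fun t => md c u t = z)).card : ℝ) := by
        rw [← Finset.sum_subset hJ'J]
        · refine Finset.sum_congr rfl fun u hu => ?_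
          rw [if_pos hu]
        · intro u _ hu
          rw [if_neg hu]
          have h3 : ((O u).filter (fun t => md c u t ∉ T)).filter (fun t => md c u t = z) = ∅ := by
            refine Finset.filter_eq_empty_iff.2 fun t ht h4 => ?_
            exact (Finset.mem_filter.1 ht).2 (h4 ▸ hz)
          rw [h3]
          simp
      rw [h2]
      exact hV2 z
    · have h2 : (∑ u ∈ J, (((if u ∈ J' then V' u else (O u).filter (fun t => md c u t ∉ T)).filter
          (fun t => md c u t = z)).card : ℝ)) ≤ ∑ u ∈ J, (((O u).filter (fun t => md c u t = z)).card : ℝ) := by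
        refine Finset.sum_le_sum fun u hu => ?_
        have h3 : (if u ∈ J' then V' u else (O u).filter (fun t => md c u t ∉ T)) ⊆ O u := by
          by_cases h4 : u ∈ J'
          · rw [if_pos h4]
            exact (hV1 u h4).1
          · rw [if_neg h4]
            exact Finset.filter_subset _ _
        exact_mod_cast Finset.card_le_card (Finset.filter_subset_filter _ h3)
      refine h2.trans ?_
      by_cases hzZ : z ∈ Z
      · have h3 : ¬ (γ / 32 * UG.card < (∑ u ∈ J, ((O u).filter (fun t => md c u t = z)).card : ℝ)) := fun h4 =>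
          hz (Finset.mem_filter.2 ⟨hzZ, h4⟩)
        exact not_lt.1 h3
      · have h3 : (∑ u ∈ J, (((O u).filter (fun t => md c u t = z)).card : ℝ)) = 0 := by
          refine Finset.sum_eq_zero fun u _ => ?_
          have h4 : (O u).filter (fun t => md c u t = z) = ∅ := by
            refine Finset.filter_eq_empty_iff.2 fun t ht h5 => ?_
            exact hzZ (h5 ▸ (Finset.mem_filter.1 ht).2)
          rw [h4]
          simp
        rw [h3]
        positivity

open Classical in
theorem junk {N : ℕ} {UG : Finset ι} {c : ι → ℕ} {η' γ : ℝ} {Z : Finset ℤ} (hγ : 0 < γ) (hη' : 0 ≤ η') (hN : 1 ≤ N)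
    (hUG : UG.Nonempty) (h1 : 128 * η' ≤ γ) (hZ : Z ⊆ Icc 1 (N : ℤ))
    (hmix : ∀ P Q : Finset ℤ, P ⊆ Icc 1 (N : ℤ) → Q ⊆ Icc 1 (N : ℤ) →
      ((pe UG c P Q).card : ℝ) ≤ 128 * P.card * Q.card * UG.card / N + η' * UG.card * √(P.card * Q.card))
    (J : Finset ℤ) (hJ : J ⊆ Icc 1 (N : ℤ)) (hJ1 : (J.card : ℝ) ≤ γ * N / 8192) (hJ2 : (J.card : ℝ) ≤ γ * UG.card / 64)
    (hlow : ∀ u ∈ J, γ * UG.card ≤ ((stps UG).filter (fun t => md c u t ∈ Z)).card) :
    ∃ t : ℤ → ι × Bool, (∀ u ∈ J, (t u).1 ∈ UG ∧ md c u (t u) ∈ Z) ∧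
      (∀ u ∈ J, ∀ v ∈ J, u ≠ v → (t u).1 ≠ (t v).1 ∧ md c u (t u) ≠ md c v (t v)) := by
  have hm : (0 : ℝ) < UG.card := by exact_mod_cast Finset.card_pos.2 hUG
  obtain ⟨V, hV1, hV2⟩ := junk_peel hγ hη' hN hUG h1 hZ hmix J hJ hJ1 hlow
  have hpos : ∀ u ∈ J, (0 : ℝ) < (V u).card := fun u hu =>
    lt_of_lt_of_le (by positivity) (hV1 u hu).2
  haveI : Nonempty (ι × Bool) := ⟨(hUG.choose, true)⟩
  obtain ⟨g, hg1, hg2⟩ := transversal J V (fun u t v t' => t.1 = t'.1 ∨ md c u t = md c v t')
    (fun u t v t' h => h.imp Eq.symm Eq.symm)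
    (fun u hu => Finset.card_pos.1 (by exact_mod_cast hpos u hu)) (by
      intro i hi x hx T hT1 hT2
      have e1 : ∀ j ∈ J, ((T j).card : ℝ) / (V j).card ≤
          (2 + (((V j).filter (fun t => md c j t = md c i x)).card : ℝ)) / (γ * UG.card / 2) := by
        intro j hj
        have h3 : T j ⊆ ({(x.1, true), (x.1, false)} : Finset (ι × Bool)) ∪
            (V j).filter (fun t => md c j t = md c i x) := by
          intro y hy
          rcases hT2 j y hy with h4 | h4
          · refine Finset.mem_union_left _ ?_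
            rcases y with ⟨y1, y2⟩
            simp only at h4
            subst h4
            cases y2 <;> simp
          · exact Finset.mem_union_right _ (Finset.mem_filter.2 ⟨hT1 j hy, h4.symm⟩)
        have h4 : ((T j).card : ℝ) ≤ 2 + (((V j).filter (fun t => md c j t = md c i x)).card : ℝ) := by
          have h5 := (Finset.card_le_card h3).trans (Finset.card_union_le _ _)
          have h6 : ({(x.1, true), (x.1, false)} : Finset (ι × Bool)).card ≤ 2 := Finset.card_le_two
          exact_mod_cast h5.trans (Nat.add_le_add_right h6 _)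
        exact div_le_div₀ (by positivity) h4 (by positivity) (hV1 j hj).2
      have e2 : ∑ j ∈ J.erase i, ((T j).card : ℝ) / (V j).card ≤ ∑ j ∈ J, ((T j).card : ℝ) / (V j).card :=
        Finset.sum_le_sum_of_subset_of_nonneg (Finset.erase_subset _ _) (fun _ _ _ => by positivity)
      refine (e2.trans (Finset.sum_le_sum e1)).trans ?_
      rw [← Finset.sum_div, Finset.sum_add_distrib, Finset.sum_const, nsmul_eq_mul, div_le_iff₀ (by positivity)]
      have e3 := hV2 (md c i x)
      nlinarith [e3, hJ2, mul_pos hγ hm])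
  refine ⟨g, fun u hu => ?_, fun u hu v hv huv => ?_⟩
  · have h2 := Finset.mem_filter.1 ((hV1 u hu).1 (hg1 u hu))
    exact ⟨(Finset.mem_product.1 h2.1).1, h2.2⟩
  · have h2 := hg2 u hu v hv huv
    push Not at h2
    exact h2

end SSB
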