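import Pool.Agent.Lib.MP_8a819d_co.LH.RuT

/-!
# MP_8a819d_co: absorbers with repeated units, 3. The configuration

`TA`: fixed labels (the tiny labels, their partners, and any other fixed pairs), units `DT`; `DG`: flexible units with the default pairs
`{π 0 d, π 1 d}` (`π 0 d` even, `π 1 d` odd); `D' σ`: robust absorbers for the labels `Z1 σ ∪ P σ` of parity `σ`, where `P σ` are the labels
`π σ d`. `junk`: at most `2 h` labels `u ∈ JJ` can be combined with different labels of `Z1 (u + 1 mod 2)` by different units of `DG`.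
-/

set_option autoImplicit false

namespace SSB

open Finset

/-- all the labels of the absorber -/
def ruA (TA : Finset ℕ) (Z1 P A' : ℕ → Finset ℕ) : Finset ℕ :=
  TA ∪ (Z1 0 ∪ P 0) ∪ (Z1 1 ∪ P 1) ∪ A' 0 ∪ A' 1

/-- all the units of the absorber -/
def ruD {υ : Type*} [DecidableEq υ] (DT DG : Finset υ) (D' : ℕ → Finset υ) : Finset υ :=
  DT ∪ DG ∪ D' 0 ∪ D' 1

/-- the construction -/
structure RuCfg {υ : Type*} [DecidableEq υ] (ℓ : υ → ℕ) (JJ TA : Finset ℕ) (DT DG : Finset υ)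
    (Z1 P A' : ℕ → Finset ℕ) (D' : ℕ → Finset υ) (π : ℕ → υ → ℕ) (z1 h M : ℕ) : Prop where
  TA_m : MatchU DT ℓ TA
  DT_odd : ∀ d ∈ DT, ℓ d % 2 = 1
  DG_odd : ∀ d ∈ DG, ℓ d % 2 = 1
  Z1_cls : ∀ σ < 2, ∀ x ∈ Z1 σ, x % 2 = σ
  Z1_card : ∀ σ < 2, (Z1 σ).card = z1
  junk : ∀ J : Finset ℕ, J ⊆ JJ → Disjoint J (ruA TA Z1 P A') → J.card ≤ 2 * h → J.Nonempty →
    ∃ (e : ℕ → υ) (z : ℕ → ℕ), (∀ u ∈ J, e u ∈ DG ∧ z u ∈ Z1 ((u + 1) % 2) ∧
      IsBlock 1 (ℓ (e u), ℓ (e u)) {u, z u}) ∧ Set.InjOn e J ∧ Set.InjOn z J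
  π_blk : ∀ d ∈ DG, IsBlock 1 (ℓ d, ℓ d) {π 0 d, π 1 d}
  π_inj : ∀ σ < 2, Set.InjOn (π σ) DG
  π_cls : ∀ σ < 2, ∀ d ∈ DG, π σ d % 2 = σ
  P_eq : ∀ σ < 2, P σ = DG.image (π σ)
  D_odd : ∀ σ < 2, ∀ d ∈ D' σ, ℓ d % 2 = 1
  D_card : ∀ σ < 2, 2 * (D' σ).card = (A' σ).card + M
  D_m : ∀ σ < 2, ∀ Z' ⊆ Z1 σ ∪ P σ, Z'.card = M → MatchU (D' σ) ℓ (A' σ ∪ Z')
  M_eq : M = z1 + h
  h_le : 2 * h ≤ DG.card
  dZP : ∀ σ < 2, Disjoint (Z1 σ) (P σ)
  dA1 : Disjoint (Z1 0 ∪ P 0) TA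
  dA2 : Disjoint (Z1 1 ∪ P 1) (TA ∪ (Z1 0 ∪ P 0))
  dA3 : Disjoint (A' 0) (TA ∪ (Z1 0 ∪ P 0) ∪ (Z1 1 ∪ P 1))
  dA4 : Disjoint (A' 1) (TA ∪ (Z1 0 ∪ P 0) ∪ (Z1 1 ∪ P 1) ∪ A' 0)
  dD1 : Disjoint DG DT
  dD2 : Disjoint (D' 0) (DT ∪ DG)
  dD3 : Disjoint (D' 1) (DT ∪ DG ∪ D' 0)

section ru

variable {υ : Type*} [DecidableEq υ] {ℓ : υ → ℕ} {JJ TA : Finset ℕ} {DT DG : Finset υ}
  {Z1 P A' : ℕ → Finset ℕ} {D' : ℕ → Finset υ} {π : ℕ → υ → ℕ} {z1 h M : ℕ}

private theorem ru_P (c : RuCfg ℓ JJ TA DT DG Z1 P A' D' π z1 h M) {σ : ℕ} (hσ : σ < 2) :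
    (P σ).card = DG.card ∧ (Z1 σ ∪ P σ).card = z1 + DG.card ∧ ∀ x ∈ Z1 σ ∪ P σ, x % 2 = σ := by
  have h1 : (P σ).card = DG.card := by
    rw [c.P_eq σ hσ]
    exact card_image_of_injOn (c.π_inj σ hσ)
  refine ⟨h1, ?_, fun x hx => ?_⟩
  · rw [card_union_of_disjoint (c.dZP σ hσ), h1, c.Z1_card σ hσ]
  · rcases mem_union.1 hx with h2 | h2
    · exact c.Z1_cls σ hσ x h2
    · rw [c.P_eq σ hσ] at h2
      obtain ⟨d, hd, rfl⟩ := mem_image.1 h2
      exact c.π_cls σ hσ d hd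

private theorem ru_cardA (c : RuCfg ℓ JJ TA DT DG Z1 P A' D' π z1 h M) :
    (ruA TA Z1 P A').card = 2 * DT.card + (z1 + DG.card) + (z1 + DG.card) +
      (A' 0).card + (A' 1).card := by
  unfold ruA
  rw [card_union_of_disjoint c.dA4.symm, card_union_of_disjoint c.dA3.symm,
    card_union_of_disjoint c.dA2.symm, card_union_of_disjoint c.dA1.symm, matchU_card c.TA_m,
    (ru_P c (σ := 0) (by norm_num)).2.1, (ru_P c (σ := 1) (by norm_num)).2.1]

private theorem ru_cardD (c : RuCfg ℓ JJ TA DT DG Z1 P A' D' π z1 h M) :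
    (ruD DT DG D').card = DT.card + DG.card + (D' 0).card + (D' 1).card := by
  unfold ruD
  rw [card_union_of_disjoint c.dD3.symm, card_union_of_disjoint c.dD2.symm,
    card_union_of_disjoint c.dD1.symm]

/-- the numbers of labels and units -/
theorem ru_2card (c : RuCfg ℓ JJ TA DT DG Z1 P A' D' π z1 h M) :
    2 * (ruD DT DG D').card = (ruA TA Z1 P A').card + 2 * h := by
  have h1 := ru_cardD c
  have h3 := ru_cardA c
  have h4 := c.D_card 0 (by norm_num)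
  have h5 := c.D_card 1 (by norm_num)
  have h6 := c.M_eq
  omega

private theorem ru_countA (c : RuCfg ℓ JJ TA DT DG Z1 P A' D' π z1 h M) {σ : ℕ} (hσ : σ < 2) {ρ : ℕ}
    (hρ : ρ < 2) : ((A' σ).filter (fun x => x % 2 = ρ)).card + (if ρ = σ then M else 0) =
      (D' σ).card := by
  have h0 := c.h_le
  have hM := c.M_eq
  obtain ⟨-, h1, h2⟩ := ru_P c hσ
  obtain ⟨Z', hZ', hc⟩ := exists_subset_card_eq (show M ≤ (Z1 σ ∪ P σ).card by omega)
  have h3 := matchU_count (c.D_odd σ hσ) (c.D_m σ hσ Z' hZ' hc) hρ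
  have hd : Disjoint (A' σ) (Z1 σ ∪ P σ) := by
    have h4 : σ = 0 ∨ σ = 1 := by omega
    rcases h4 with rfl | rfl
    · exact disjoint_of_subset_right (subset_union_right.trans subset_union_left) c.dA3
    · exact disjoint_of_subset_right (subset_union_right.trans subset_union_left) c.dA4
  rw [filter_union, card_union_of_disjoint ((hd.mono_right hZ').mono (filter_subset _ _)
    (filter_subset _ _))] at h3
  have h5 : (Z'.filter (fun x => x % 2 = ρ)).card = if ρ = σ then M else 0 := by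
    split_ifs with h6
    · rw [filter_true_of_mem, hc]
      intro x hx
      rw [h6]
      exact h2 x (hZ' hx)
    · rw [filter_false_of_mem, card_empty]
      intro x hx h7
      have h8 := h2 x (hZ' hx)
      omega
  rw [← h5]
  exact h3

/-- the set of labels is balanced -/
theorem ru_bal (c : RuCfg ℓ JJ TA DT DG Z1 P A' D' π z1 h M) :
    ((ruA TA Z1 P A').filter (fun x => x % 2 = 0)).card =
      ((ruA TA Z1 P A').filter (fun x => x % 2 = 1)).card := by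
  have key : ∀ ρ < 2, ((ruA TA Z1 P A').filter (fun x => x % 2 = ρ)).card + M =
      DT.card + (z1 + DG.card) + (D' 0).card + (D' 1).card := by
    intro ρ hρ
    unfold ruA
    have f : ∀ X Y : Finset ℕ, Disjoint X Y → ((X ∪ Y).filter (fun x => x % 2 = ρ)).card =
        (X.filter (fun x => x % 2 = ρ)).card + (Y.filter (fun x => x % 2 = ρ)).card := by
      intro X Y hXY
      rw [filter_union, card_union_of_disjoint (hXY.mono (filter_subset _ _) (filter_subset _ _))]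
    rw [f _ _ c.dA4.symm, f _ _ c.dA3.symm, f _ _ c.dA2.symm, f _ _ c.dA1.symm,
      matchU_count c.DT_odd c.TA_m hρ]
    have h0 := ru_countA c (σ := 0) (by norm_num) hρ
    have h1 := ru_countA c (σ := 1) (by norm_num) hρ
    have hz : ∀ σ < 2, ((Z1 σ ∪ P σ).filter (fun x => x % 2 = ρ)).card =
        if ρ = σ then z1 + DG.card else 0 := by
      intro σ hσ
      obtain ⟨-, h2, h3⟩ := ru_P c hσ
      split_ifs with h6
      · rw [filter_true_of_mem, h2]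
        intro x hx
        rw [h6]
        exact h3 x hx
      · rw [filter_false_of_mem, card_empty]
        intro x hx h7
        have h8 := h3 x hx
        omega
    rw [hz 0 (by norm_num), hz 1 (by norm_num)]
    have hρ' : ρ = 0 ∨ ρ = 1 := by omega
    rcases hρ' with rfl | rfl
    · rw [if_pos rfl] at h0 ⊢
      rw [if_neg (by norm_num)] at h1 ⊢
      omega
    · rw [if_neg (by norm_num)] at h0 ⊢
      rw [if_pos rfl] at h1 ⊢
      omega
  have h0 := key 0 (by norm_num)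
  have h1 := key 1 (by norm_num)
  omega

/-- the junk pairs -/
private theorem ru_junk (c : RuCfg ℓ JJ TA DT DG Z1 P A' D' π z1 h M) (J : Finset ℕ)
    (hJ : J ⊆ JJ) (hJA : Disjoint J (ruA TA Z1 P A')) (hJne : J.Nonempty)
    (hJZ : ∀ σ < 2, Disjoint J (Z1 σ)) (hJc : J.card = 2 * h)
    (hJf : ∀ σ < 2, (J.filter (fun x => x % 2 = σ)).card = h) :
    ∃ (DJ : Finset υ) (W : ℕ → Finset ℕ), DJ ⊆ DG ∧ DJ.card = 2 * h ∧
      (∀ σ < 2, W σ ⊆ Z1 σ ∧ (W σ).card = h) ∧ MatchU DJ ℓ (J ∪ (W 0 ∪ W 1)) := by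
  obtain ⟨dj, zj, k1, k2, k3⟩ := c.junk J hJ hJA hJc.le hJne
  obtain ⟨W, eW⟩ : ∃ W : ℕ → Finset ℕ, W = fun σ => (J.filter (fun x => x % 2 = 1 - σ)).image zj :=
    ⟨_, rfl⟩
  have eW' : ∀ σ, W σ = (J.filter (fun x => x % 2 = 1 - σ)).image zj := fun σ => by rw [eW]
  have hzp : ∀ u ∈ J, zj u ∉ J := by
    intro u hu h4
    have h1 := (k1 u hu).2.1
    have h2 : (u + 1) % 2 < 2 := by omega
    exact disjoint_left.1 (hJZ _ h2) h4 h1
  refine ⟨J.image dj, W, ?_, ?_, fun σ hσ => ⟨?_, ?_⟩, ?_⟩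
  · intro x hx
    obtain ⟨u, hu, rfl⟩ := mem_image.1 hx
    exact (k1 u hu).1
  · rw [card_image_of_injOn k2, hJc]
  · intro x hx
    rw [eW'] at hx
    obtain ⟨u, hu, rfl⟩ := mem_image.1 hx
    obtain ⟨hu1, hu2⟩ := mem_filter.1 hu
    have h1 := (k1 u hu1).2.1
    have h2 : (u + 1) % 2 = σ := by omega
    rwa [h2] at h1
  · rw [eW', card_image_of_injOn (fun x hx y hy hxy =>
      k3 (mem_coe.2 (mem_filter.1 (mem_coe.1 hx)).1) (mem_coe.2 (mem_filter.1 (mem_coe.1 hy)).1) hxy)]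
    exact hJf (1 - σ) (by omega)
  · have h1 : MatchU (J.biUnion (fun u => {dj u})) ℓ (J.biUnion (fun u => {u, zj u})) := by
      refine matchU_biUnion J _ _ (fun u hu => matchU_single (k1 u hu).2.2) ?_ ?_
      · intro u hu v hv huv
        exact disjoint_singleton.2 fun h2 => huv (k2 (mem_coe.2 hu) (mem_coe.2 hv) h2)
      · intro u hu v hv huv
        have h2 := hzp u hu
        have h3 := hzp v hv
        simp only [disjoint_insert_left, disjoint_singleton_left, mem_insert, mem_singleton, not_or]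
        refine ⟨⟨huv, fun h4 => h3 (h4 ▸ hu)⟩, fun h4 => h2 (h4.symm ▸ hv),
          fun h4 => huv (k3 (mem_coe.2 hu) (mem_coe.2 hv) h4)⟩
    have h2 : J.biUnion (fun u => ({u, zj u} : Finset ℕ)) = J ∪ (W 0 ∪ W 1) := by
      ext x
      simp only [mem_biUnion, mem_insert, mem_singleton, mem_union, eW', mem_image, mem_filter]
      constructor
      · rintro ⟨u, hu, rfl | rfl⟩
        · exact Or.inl hu
        · have h3 : u % 2 = 1 - 0 ∨ u % 2 = 1 - 1 := by omega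
          rcases h3 with h3 | h3
          · exact Or.inr (Or.inl ⟨u, ⟨hu, h3⟩, rfl⟩)
          · exact Or.inr (Or.inr ⟨u, ⟨hu, h3⟩, rfl⟩)
      · rintro (hx | ⟨u, ⟨hu, -⟩, rfl⟩ | ⟨u, ⟨hu, -⟩, rfl⟩)
        · exact ⟨x, hx, Or.inl rfl⟩
        · exact ⟨u, hu, Or.inr rfl⟩
        · exact ⟨u, hu, Or.inr rfl⟩
    have h3 : J.image dj = J.biUnion (fun u => {dj u}) := by
      ext x
      simp only [mem_image, mem_biUnion, mem_singleton, eq_comm]
    rw [h3, ← h2]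
    exact h1

/-- the default pairs -/
private theorem ru_dflt (c : RuCfg ℓ JJ TA DT DG Z1 P A' D' π z1 h M) (E : Finset υ) (hE : E ⊆ DG) :
    MatchU E ℓ (E.image (π 0) ∪ E.image (π 1)) ∧
      ∀ σ < 2, E.image (π σ) ⊆ P σ ∧ (E.image (π σ)).card = E.card := by
  have hc0 := c.π_cls 0 (by norm_num)
  have hc1 := c.π_cls 1 (by norm_num)
  refine ⟨?_, fun σ hσ => ⟨?_, ?_⟩⟩
  · have h1 := matchU_pairs (ℓ := ℓ) E (π 0) (π 1) (fun d hd => c.π_blk d (hE hd))
      (fun u hu v hv huv => by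
      have h2 := hc0 u (hE hu)
      have h3 := hc1 u (hE hu)
      have h4 := hc0 v (hE hv)
      have h5 := hc1 v (hE hv)
      exact ⟨fun h6 => huv (c.π_inj 0 (by norm_num) (mem_coe.2 (hE hu)) (mem_coe.2 (hE hv)) h6),
        by omega, by omega,
        fun h6 => huv (c.π_inj 1 (by norm_num) (mem_coe.2 (hE hu)) (mem_coe.2 (hE hv)) h6)⟩)
    have h2 : E.biUnion (fun d => ({π 0 d, π 1 d} : Finset ℕ)) = E.image (π 0) ∪ E.image (π 1) := by
      ext x
      simp only [mem_biUnion, mem_insert, mem_singleton, mem_union, mem_image]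
      constructor
      · rintro ⟨d, hd, rfl | rfl⟩
        · exact Or.inl ⟨d, hd, rfl⟩
        · exact Or.inr ⟨d, hd, rfl⟩
      · rintro (⟨d, hd, rfl⟩ | ⟨d, hd, rfl⟩)
        · exact ⟨d, hd, Or.inl rfl⟩
        · exact ⟨d, hd, Or.inr rfl⟩
    rwa [h2] at h1
  · rw [c.P_eq σ hσ]
    exact image_subset_image hE
  · exact card_image_of_injOn fun x hx y hy hxy =>
      c.π_inj σ hσ (mem_coe.2 (hE (mem_coe.1 hx))) (mem_coe.2 (hE (mem_coe.1 hy))) hxy

/-- the rest for the robust absorbers -/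
private theorem ru_rest (c : RuCfg ℓ JJ TA DT DG Z1 P A' D' π z1 h M) {W Q : Finset ℕ} {σ : ℕ}
    (hσ : σ < 2) (hW : W ⊆ Z1 σ) (hQ : Q ⊆ P σ) (cW : W.card = h) (cQ : Q.card + 2 * h = DG.card) :
    ∃ V, MatchU (D' σ) ℓ (A' σ ∪ V) ∧ W ∪ Q ∪ V = Z1 σ ∪ P σ := by
  have h0 := c.M_eq
  refine ⟨(Z1 σ ∪ P σ) \ (W ∪ Q), c.D_m σ hσ _ sdiff_subset ?_,
    union_sdiff_of_subset (union_subset_union hW hQ)⟩
  have h1 := (ru_P c hσ).2.1
  rw [card_sdiff_of_subset (union_subset_union hW hQ), h1,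
    card_union_of_disjoint ((c.dZP σ hσ).mono hW hQ)]
  omega

/-- the union of all the sets of labels -/
private theorem ru_union {TA J W0 W1 Q0 Q1 A0 A1 V0 V1 X0 X1 : Finset ℕ} (h0 : W0 ∪ Q0 ∪ V0 = X0)
    (h1 : W1 ∪ Q1 ∪ V1 = X1) :
    TA ∪ (J ∪ (W0 ∪ W1)) ∪ (Q0 ∪ Q1) ∪ (A0 ∪ V0) ∪ (A1 ∪ V1) = TA ∪ X0 ∪ X1 ∪ A0 ∪ A1 ∪ J := by
  rw [← h0, ← h1]
  apply Subset.antisymm
  · refine union_subset (union_subset (union_subset (union_subset ?_ (union_subset ?_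
      (union_subset ?_ ?_))) (union_subset ?_ ?_)) (union_subset ?_ ?_)) (union_subset ?_ ?_)
    all_goals
      intro x hx
      simp only [mem_union, hx, true_or, or_true]
  · refine union_subset (union_subset (union_subset (union_subset (union_subset ?_
      (union_subset (union_subset ?_ ?_) ?_)) (union_subset (union_subset ?_ ?_) ?_)) ?_) ?_) ?_
    all_goals
      intro x hx
      simp only [mem_union, hx, true_or, or_true]

theorem ru_match (c : RuCfg ℓ JJ TA DT DG Z1 P A' D' π z1 h M) (J : Finset ℕ) (hJ : J ⊆ JJ)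
    (hJA : Disjoint J (ruA TA Z1 P A'))
    (hcard : J.card + (ruA TA Z1 P A').card = 2 * (ruD DT DG D').card)
    (hbal : (J.filter (fun x => x % 2 = 0)).card = (J.filter (fun x => x % 2 = 1)).card) :
    MatchU (ruD DT DG D') ℓ (ruA TA Z1 P A' ∪ J) := by
  have hJ2h : J.card = 2 * h := by
    have h1 := ru_2card c
    omega
  have hJf : ∀ σ < 2, (J.filter (fun x => x % 2 = σ)).card = h := by
    have h1 := card_filter_add_card_filter_not (s := J) (fun x => x % 2 = 0)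
    have h2 : J.filter (fun x => ¬ x % 2 = 0) = J.filter (fun x => x % 2 = 1) :=
      filter_congr fun x _ => by omega
    rw [h2, hJ2h] at h1
    intro σ hσ
    have h3 : σ = 0 ∨ σ = 1 := by omega
    rcases h3 with rfl | rfl <;> omega
  have hJZ : ∀ σ < 2, Disjoint J (Z1 σ) := by
    intro σ hσ
    have h3 : σ = 0 ∨ σ = 1 := by omega
    have hJA' := hJA
    unfold ruA at hJA'
    simp only [disjoint_union_right] at hJA'
    obtain ⟨⟨⟨⟨-, e0⟩, e1⟩, -⟩, -⟩ := hJA'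
    rcases h3 with rfl | rfl
    · exact e0.1
    · exact e1.1
  have hle := c.h_le
  have hjunk : ∃ (DJ : Finset υ) (W : ℕ → Finset ℕ), DJ ⊆ DG ∧ DJ.card = 2 * h ∧
      (∀ σ < 2, W σ ⊆ Z1 σ ∧ (W σ).card = h) ∧ MatchU DJ ℓ (J ∪ (W 0 ∪ W 1)) := by
    rcases J.eq_empty_or_nonempty with hJe | hne
    · rw [hJe, card_empty] at hJ2h
      have h0 : h = 0 := by omega
      refine ⟨∅, fun _ => ∅, empty_subset _, by rw [h0]; rfl,
        fun σ _ => ⟨empty_subset _, by rw [h0]; rfl⟩, ?_⟩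
      rw [hJe, union_empty, union_empty]
      exact matchU_empty ℓ
    · exact ru_junk c J hJ hJA hne hJZ hJ2h hJf
  obtain ⟨DJ, W, hDJ, cDJ, hW, mJ⟩ := hjunk
  obtain ⟨E, eE⟩ : ∃ E, E = DG \ DJ := ⟨_, rfl⟩
  have hE : E ⊆ DG := by
    rw [eE]
    exact sdiff_subset
  have cE : E.card = DG.card - 2 * h := by rw [eE, card_sdiff_of_subset hDJ, cDJ]
  have hDG : DJ ∪ E = DG := by
    rw [eE]
    exact union_sdiff_of_subset hDJ
  obtain ⟨mE, hQ⟩ := ru_dflt c E hE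
  obtain ⟨V0, mV0, hV0⟩ := ru_rest c (σ := 0) (by norm_num) (hW 0 (by norm_num)).1
    (hQ 0 (by norm_num)).1 (hW 0 (by norm_num)).2 (by
      rw [(hQ 0 (by norm_num)).2]
      omega)
  obtain ⟨V1, mV1, hV1⟩ := ru_rest c (σ := 1) (by norm_num) (hW 1 (by norm_num)).1
    (hQ 1 (by norm_num)).1 (hW 1 (by norm_num)).2 (by
      rw [(hQ 1 (by norm_num)).2]
      omega)
  have hWeq : TA ∪ (J ∪ (W 0 ∪ W 1)) ∪ (E.image (π 0) ∪ E.image (π 1)) ∪ (A' 0 ∪ V0) ∪
      (A' 1 ∪ V1) = ruA TA Z1 P A' ∪ J := ru_union hV0 hV1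
  have cAJ : (ruA TA Z1 P A' ∪ J).card = 2 * (ruD DT DG D').card := by
    rw [card_union_of_disjoint hJA.symm]
    omega
  rw [ru_cardD c] at cAJ
  have q0 := matchU_card c.TA_m
  have q1 := matchU_card mJ
  have q2 := matchU_card mE
  have q3 := matchU_card mV0
  have q4 := matchU_card mV1
  rw [cDJ] at q1
  rw [cE] at q2
  have u1 := card_union_le (TA ∪ (J ∪ (W 0 ∪ W 1)) ∪ (E.image (π 0) ∪ E.image (π 1)) ∪ (A' 0 ∪ V0))
    (A' 1 ∪ V1)
  have u2 := card_union_le (TA ∪ (J ∪ (W 0 ∪ W 1)) ∪ (E.image (π 0) ∪ E.image (π 1))) (A' 0 ∪ V0)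
  have u3 := card_union_le (TA ∪ (J ∪ (W 0 ∪ W 1))) (E.image (π 0) ∪ E.image (π 1))
  have u4 := card_union_le TA (J ∪ (W 0 ∪ W 1))
  rw [hWeq, cAJ] at u1
  have n1 := match2U c.TA_m mJ (disjoint_of_subset_right hDJ c.dD1.symm) (by
    rw [cDJ]
    omega)
  have d1 : Disjoint (DT ∪ DJ) E := by
    rw [disjoint_union_left]
    refine ⟨disjoint_of_subset_right hE c.dD1.symm, ?_⟩
    rw [eE]
    exact disjoint_sdiff
  have c1 : (DT ∪ DJ).card = DT.card + 2 * h := by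
    rw [card_union_of_disjoint (disjoint_of_subset_right hDJ c.dD1.symm), cDJ]
  have n2 := match2U n1 mE d1 (by
    rw [c1, cE]
    omega)
  rw [union_assoc DT, hDG] at n2
  have c2 : (DT ∪ DG).card = DT.card + DG.card := card_union_of_disjoint c.dD1.symm
  have n3 := match2U n2 mV0 c.dD2.symm (by
    rw [c2]
    omega)
  have c3 : (DT ∪ DG ∪ D' 0).card = DT.card + DG.card + (D' 0).card := by
    rw [card_union_of_disjoint c.dD2.symm, c2]
  have n4 := match2U n3 mV1 c.dD3.symm (by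
    rw [c3, hWeq, cAJ])
  rw [hWeq] at n4
  exact n4

end ru

end SSB
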