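import Pool.Agent.Lib.MP_8a819d_co.LH.RuT4

/-!
# MP_8a819d_co: absorbers with repeated units, 5. Hubs with private ports and chains of links

`Hub M Z m Lk pre`: there are `m` hubs; the hub `x` has the three ports `(x, 0), (x, 1), (x, 2)`. `Lk` is a set of ports; for
`i ∈ Lk` there is a link between `pre i` (a port or a label in `Z`) and the port `i`. For all `Z' ⊆ Z` with `M` elements one
can choose a port for every hub and an end for every link such that every port and every label in `Z'` is chosen exactly once.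
`template5`: there are such systems with `m ≤ C M`, every port is in at most two links, every label in `Z` is in at most two links.
`hub_match`: with real hubs and links we get a robust absorber.
-/

set_option autoImplicit false

namespace SSB

open Finset

/-- the ports covered: the hub `x` covers `(x, c x)`, the link `i` covers `pre i` if `i ∈ T`, and `i` otherwise -/
def cov {m : ℕ} (pre : Fin m × Fin 3 → (Fin m × Fin 3) ⊕ ℕ) (c : Fin m → Fin 3)
    (T : Finset (Fin m × Fin 3)) : Fin m ⊕ (Fin m × Fin 3) → (Fin m × Fin 3) ⊕ ℕ :=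
  Sum.elim (fun x => Sum.inl (x, c x)) (fun i => if i ∈ T then pre i else Sum.inl i)

/-- the system of hubs and links -/
structure Hub (M : ℕ) (Z : Finset ℕ) (m : ℕ) (Lk : Finset (Fin m × Fin 3))
    (pre : Fin m × Fin 3 → (Fin m × Fin 3) ⊕ ℕ) : Prop where
  card : Lk.card = 2 * m + M
  inr : ∀ i ∈ Lk, ∀ z, pre i = Sum.inr z → z ∈ Z
  inl : ∀ i ∈ Lk, ∀ j, pre i = Sum.inl j → j ≠ i
  deg1 : ∀ j, (Lk.filter (fun i => pre i = Sum.inl j)).card ≤ 1
  deg2 : ∀ z, (Lk.filter (fun i => pre i = Sum.inr z)).card ≤ 2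
  choice : ∀ Z' ⊆ Z, Z'.card = M → ∃ (c : Fin m → Fin 3) (T : Finset (Fin m × Fin 3)),
    Set.InjOn (cov pre c T) ((univ : Finset (Fin m)).disjSum Lk) ∧
      ∀ i ∈ Lk, i ∈ T → ∀ z, pre i = Sum.inr z → z ∈ Z'

/-- hubs and links -/
theorem template5 : ∃ C : ℕ, ∀ M : ℕ, 1 ≤ M → ∀ Z : Finset ℕ, M ≤ Z.card → Z.card ≤ 2 * M →
    ∃ (m : ℕ) (Lk : Finset (Fin m × Fin 3)) (pre : Fin m × Fin 3 → (Fin m × Fin 3) ⊕ ℕ),
      m ≤ C * M ∧ Hub M Z m Lk pre := by
  classical
  obtain ⟨C, hC⟩ := template3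
  refine ⟨C + 1, fun M hM Z hZ1 hZ2 => ?_⟩
  obtain ⟨y, nb, hy, hnb⟩ := hC M hM
  obtain ⟨wz, hwz, hwz2, hwz3⟩ := rh_enum hZ1 hZ2
  obtain ⟨key, hkey⟩ : ∃ key : Fin (y + M) × Fin 3 → ℕ, Function.Injective key := by
    refine ⟨fun q => 3 * (q.1 : ℕ) + (q.2 : ℕ), ?_⟩
    rintro ⟨a, b⟩ ⟨a', b'⟩ h
    have h1 : 3 * (a : ℕ) + (b : ℕ) = 3 * (a' : ℕ) + (b' : ℕ) := h
    have hb := b.2
    have hb' := b'.2
    have h2 : (a : ℕ) = (a' : ℕ) := by omega
    have h3 : (b : ℕ) = (b' : ℕ) := by omega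
    rw [Fin.ext h2, Fin.ext h3]
  obtain ⟨w, hw⟩ : ∃ w : Fin (y + M) × Fin 3 → Fin y ⊕ Fin (2 * M), ∀ i, w i = nb i.1 i.2 :=
    ⟨_, fun i => rfl⟩
  obtain ⟨pr, hpr⟩ := t4_pr w key
  obtain ⟨Lk, hLk⟩ : ∃ Lk : Finset (Fin (y + M) × Fin 3),
      ∀ i, i ∈ Lk ↔ (pr i ≠ none ∨ ∃ b, w i = Sum.inr b) :=
    ⟨univ.filter (fun i => pr i ≠ none ∨ ∃ b, w i = Sum.inr b), fun i => by simp⟩
  obtain ⟨pre, hpre⟩ : ∃ pre : Fin (y + M) × Fin 3 → (Fin (y + M) × Fin 3) ⊕ ℕ, ∀ i, pre i =
      (pr i).elim (Sum.elim (fun _ => Sum.inl i) (fun b => Sum.inr (wz b)) (w i))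
        (fun j => Sum.inl j) := ⟨_, fun i => rfl⟩
  have hs : ∀ i j, pr i = some j → pre i = Sum.inl j := fun i j h => by rw [hpre, h]; rfl
  have hz : ∀ i b, pr i = none → w i = Sum.inr b → pre i = Sum.inr (wz b) := fun i b h h' => by
    rw [hpre, h, h']
    rfl
  -- the elements of `Lk`
  have hcase : ∀ i ∈ Lk, (∃ j, pr i = some j ∧ pre i = Sum.inl j ∧ w j = w i ∧ key j < key i ∧
      ∀ j', w j' = w i → key j' < key i → key j' ≤ key j) ∨
      (∃ b, w i = Sum.inr b ∧ pre i = Sum.inr (wz b) ∧ ∀ j, w j = w i → key i ≤ key j) := by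
    intro i hi
    rcases hpr i with ⟨h1, h2⟩ | ⟨j, h1, h2, h3, h4⟩
    · right
      rcases (hLk i).1 hi with h3 | ⟨b, hb⟩
      · exact absurd h1 h3
      · exact ⟨b, hb, hz i b h1 hb, h2⟩
    · exact Or.inl ⟨j, h1, hs i j h1, h2, h3, h4⟩
  -- two elements with the same predecessor
  have hsame : ∀ i i' j, w j = w i → key j < key i → (∀ j', w j' = w i → key j' < key i → key j' ≤ key j) →
      w j = w i' → key j < key i' → (∀ j', w j' = w i' → key j' < key i' → key j' ≤ key j) →
      i = i' := by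
    intro i i' j h2 h3 h4 h2' h3' h4'
    have h6 : w i = w i' := h2.symm.trans h2'
    rcases Nat.lt_trichotomy (key i) (key i') with h7 | h7 | h7
    · have h8 := h4' i h6 h7
      omega
    · exact hkey h7
    · have h8 := h4 i' h6.symm h7
      omega
  have hfirst : ∀ i i', w i = w i' → (∀ j, w j = w i → key i ≤ key j) →
      (∀ j, w j = w i' → key i' ≤ key j) → i = i' := by
    intro i i' h h1 h2
    exact hkey (le_antisymm (h1 i' h.symm) (h2 i h))
  -- the choice
  have hchoice : ∀ Z' ⊆ Z, Z'.card = M → ∃ (c : Fin (y + M) → Fin 3) (T : Finset (Fin (y + M) × Fin 3)),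
      Set.InjOn (cov pre c T) ((univ : Finset (Fin (y + M))).disjSum Lk) ∧
        ∀ i ∈ Lk, i ∈ T → ∀ z, pre i = Sum.inr z → z ∈ Z' := by
    intro Z' hZ' hM'
    obtain ⟨Zf, hZf, hZf1, hZf2⟩ := hwz3 Z' hZ' hM'
    obtain ⟨c, hc, hcZ⟩ := hnb Zf hZf
    obtain ⟨T, hT⟩ : ∃ T : Finset (Fin (y + M) × Fin 3),
        ∀ i, i ∈ T ↔ ∃ x, nb x (c x) = w i ∧ key i ≤ key (x, c x) :=
      ⟨univ.filter (fun i => ∃ x, nb x (c x) = w i ∧ key i ≤ key (x, c x)), fun i => by simp⟩
    have hTm : ∀ x, (x, c x) ∈ T := fun x => (hT _).2 ⟨x, by rw [hw], le_refl _⟩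
    have hTb : ∀ i ∈ T, ∀ b, w i = Sum.inr b → b ∈ Zf := by
      intro i hi b hb
      obtain ⟨x, hx, -⟩ := (hT i).1 hi
      exact hcZ x b (hx.trans hb)
    -- the predecessor of `i ∈ T`
    have hpT : ∀ i ∈ Lk, i ∈ T → ∀ j, pre i = Sum.inl j → j ∈ T ∧ ∀ x, (x, c x) ≠ j := by
      intro i hi hiT j hj
      rcases hcase i hi with ⟨j', -, h1, h2, h3, -⟩ | ⟨b, -, h1, -⟩
      · rw [h1] at hj
        have h4 : j' = j := Sum.inl.inj hj
        rw [h4] at h2 h3
        obtain ⟨x, hx1, hx2⟩ := (hT i).1 hiT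
        refine ⟨(hT j).2 ⟨x, hx1.trans h2.symm, by omega⟩, fun x' hx' => ?_⟩
        have h5 : nb x' (c x') = w j := by rw [← hx', hw]
        have h6 : x' = x := hc (h5.trans (h2.trans hx1.symm))
        rw [h6] at hx'
        rw [hx'] at hx2
        omega
      · rw [h1] at hj
        exact absurd hj (by simp)
    refine ⟨c, T, ?_, ?_⟩
    · have e1 : ∀ x, cov pre c T (Sum.inl x) = Sum.inl (x, c x) := fun x => rfl
      have e2 : ∀ i, i ∈ T → cov pre c T (Sum.inr i) = pre i := fun i hi => if_pos hi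
      have e3 : ∀ i, i ∉ T → cov pre c T (Sum.inr i) = Sum.inl i := fun i hi => if_neg hi
      intro q hq q' hq' h
      rcases q with x | i <;> rcases q' with x' | i'
      · rw [e1, e1] at h
        have h1 : (x, c x) = (x', c x') := Sum.inl.inj h
        rw [(Prod.mk.inj h1).1]
      · have hi' : i' ∈ Lk := by simpa using hq'
        by_cases hi : i' ∈ T
        · rw [e1, e2 i' hi] at h
          exact absurd rfl ((hpT i' hi' hi _ h.symm).2 x)
        · rw [e1, e3 i' hi] at h
          have h1 : (x, c x) = i' := Sum.inl.inj h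
          exact absurd (h1 ▸ hTm x) hi
      · have hi' : i ∈ Lk := by simpa using hq
        by_cases hi : i ∈ T
        · rw [e1, e2 i hi] at h
          exact absurd rfl ((hpT i hi' hi _ h).2 x')
        · rw [e1, e3 i hi] at h
          have h1 : i = (x', c x') := Sum.inl.inj h
          exact absurd (h1.symm ▸ hTm x') hi
      · have hiL : i ∈ Lk := by simpa using hq
        have hiL' : i' ∈ Lk := by simpa using hq'
        by_cases hi : i ∈ T <;> by_cases hi' : i' ∈ T
        · rw [e2 i hi, e2 i' hi'] at h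
          rcases hcase i hiL with ⟨j, -, h1, h2, h3, h4⟩ | ⟨b, h1, h2, h3⟩ <;>
            rcases hcase i' hiL' with ⟨j', -, h1', h2', h3', h4'⟩ | ⟨b', h1', h2', h3'⟩
          · rw [h1, h1'] at h
            have h5 : j = j' := Sum.inl.inj h
            rw [← h5] at h2' h3' h4'
            rw [hsame i i' j h2 h3 h4 h2' h3' h4']
          · rw [h1, h2'] at h
            exact absurd h (by simp)
          · rw [h2, h1'] at h
            exact absurd h (by simp)
          · rw [h2, h2'] at h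
            have h5 : wz b = wz b' := Sum.inr.inj h
            have h6 := hZf2 b (hTb i hi b h1) b' (hTb i' hi' b' h1') h5
            rw [← h6] at h1'
            rw [hfirst i i' (h1.trans h1'.symm) h3 h3']
        · rw [e2 i hi, e3 i' hi'] at h
          exact absurd (hpT i hiL hi _ h).1 hi'
        · rw [e3 i hi, e2 i' hi'] at h
          exact absurd (hpT i' hiL' hi' _ h.symm).1 hi
        · rw [e3 i hi, e3 i' hi'] at h
          rw [Sum.inl.inj h]
    · intro i hi hiT z hz'
      rcases hcase i hi with ⟨j', -, h1, -⟩ | ⟨b, h1, h2, -⟩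
      · rw [h1] at hz'
        exact absurd hz' (by simp)
      · rw [h2] at hz'
        rw [← Sum.inr.inj hz']
        exact hZf1 b (hTb i hiT b h1)
  have cI : (univ : Finset (Fin (y + M) × Fin 3)).card = 3 * (y + M) := by
    rw [card_univ, Fintype.card_prod, Fintype.card_fin, Fintype.card_fin, mul_comm]
  refine ⟨y + M, Lk, pre, by rw [add_mul]; omega, ⟨?_, ?_, ?_, ?_, ?_, hchoice⟩⟩
  · -- the number of links
    obtain ⟨Z', hZ', hM'⟩ := exists_subset_card_eq hZ1
    obtain ⟨c, T, h1, h2⟩ := hchoice Z' hZ' hM'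
    have h3 : ((univ : Finset (Fin (y + M))).disjSum Lk).card ≤
        ((univ : Finset (Fin (y + M) × Fin 3)).disjSum Z').card := by
      refine card_le_card_of_injOn (cov pre c T) ?_ h1
      intro q hq
      rcases q with x | i
      · exact mem_coe.2 (inl_mem_disjSum.2 (mem_univ _))
      · have hi : i ∈ Lk := by simpa using hq
        change (if i ∈ T then pre i else Sum.inl i) ∈ _
        split_ifs with hiT
        · rcases h4 : pre i with j | z
          · exact mem_coe.2 (inl_mem_disjSum.2 (mem_univ _))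
          · exact mem_coe.2 (inr_mem_disjSum.2 (h2 i hi hiT z h4))
        · exact mem_coe.2 (inl_mem_disjSum.2 (mem_univ _))
    rw [card_disjSum, card_disjSum, cI, hM', card_univ, Fintype.card_fin] at h3
    have h4 : (univ \ Lk).card ≤ ((univ : Finset (Fin y)).image
        (Sum.inl : Fin y → Fin y ⊕ Fin (2 * M))).card := by
      refine card_le_card_of_injOn w ?_ ?_
      · intro i hi
        have hi' : i ∉ Lk := by simpa using hi
        rcases h5 : w i with a | b
        · exact mem_coe.2 (mem_image_of_mem _ (mem_univ a))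
        · exact absurd ((hLk i).2 (Or.inr ⟨b, h5⟩)) hi'
      · intro i hi i' hi' h
        have hi1 : i ∉ Lk := by simpa using hi
        have hi1' : i' ∉ Lk := by simpa using hi'
        rcases hpr i with ⟨-, h2⟩ | ⟨j, h1, -⟩
        · rcases hpr i' with ⟨-, h2'⟩ | ⟨j, h1', -⟩
          · exact hfirst i i' h h2 h2'
          · exact absurd ((hLk i').2 (Or.inl (by rw [h1']; simp))) hi1'
        · exact absurd ((hLk i).2 (Or.inl (by rw [h1]; simp))) hi1
    rw [card_image_of_injective _ Sum.inl_injective, card_sdiff_of_subset (subset_univ _), cI,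
      card_univ, Fintype.card_fin] at h4
    have h5 := card_le_card (subset_univ Lk)
    rw [cI] at h5
    omega
  · intro i hi z h
    rcases hcase i hi with ⟨j', -, h1, -⟩ | ⟨b, -, h2, -⟩
    · rw [h1] at h
      exact absurd h (by simp)
    · rw [h2] at h
      rw [← Sum.inr.inj h]
      exact hwz b
  · intro i hi j h
    rcases hcase i hi with ⟨j', -, h1, -, h3, -⟩ | ⟨b, -, h2, -⟩
    · rw [h1] at h
      rw [← Sum.inl.inj h]
      intro h4
      rw [h4] at h3
      omega
    · rw [h2] at h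
      exact absurd h (by simp)
  · intro j
    rw [card_le_one]
    intro i hi i' hi'
    obtain ⟨hiL, hij⟩ := mem_filter.1 hi
    obtain ⟨hiL', hij'⟩ := mem_filter.1 hi'
    rcases hcase i hiL with ⟨k, -, h1, h2, h3, h4⟩ | ⟨b, -, h2, -⟩
    · rcases hcase i' hiL' with ⟨k', -, h1', h2', h3', h4'⟩ | ⟨b, -, h2, -⟩
      · rw [h1] at hij
        rw [h1'] at hij'
        rw [Sum.inl.inj hij] at h2 h3 h4
        rw [Sum.inl.inj hij'] at h2' h3' h4'
        exact hsame i i' j h2 h3 h4 h2' h3' h4'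
      · rw [h2] at hij'
        exact absurd hij' (by simp)
    · rw [h2] at hij
      exact absurd hij (by simp)
  · intro z
    have h1 : (Lk.filter (fun i => pre i = Sum.inr z)).card ≤
        ((univ.filter (fun b => wz b = z)).image (Sum.inr : Fin (2 * M) → Fin y ⊕ Fin (2 * M))).card := by
      refine card_le_card_of_injOn w ?_ ?_
      · intro i hi
        obtain ⟨hiL, hiz⟩ := mem_filter.1 (mem_coe.1 hi)
        rcases hcase i hiL with ⟨k, -, h1, -⟩ | ⟨b, h1, h2, -⟩
        · rw [h1] at hiz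
          exact absurd hiz (by simp)
        · rw [h2] at hiz
          rw [h1]
          exact mem_coe.2 (mem_image_of_mem _ (mem_filter.2 ⟨mem_univ _, Sum.inr.inj hiz⟩))
      · intro i hi i' hi' h
        obtain ⟨hiL, hiz⟩ := mem_filter.1 (mem_coe.1 hi)
        obtain ⟨hiL', hiz'⟩ := mem_filter.1 (mem_coe.1 hi')
        rcases hcase i hiL with ⟨k, -, h1, -⟩ | ⟨b, -, -, h3⟩
        · rw [h1] at hiz
          exact absurd hiz (by simp)
        · rcases hcase i' hiL' with ⟨k, -, h1, -⟩ | ⟨b', -, -, h3'⟩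
          · rw [h1] at hiz'
            exact absurd hiz' (by simp)
          · exact hfirst i i' h h3 h3'
    exact h1.trans (card_image_le.trans (hwz2 z))

/-- real hubs and links: port labels `E`, cores `K` with the units `UK`, inner labels `L` and units `UL` of the links -/
structure HubC {υ : Type*} [DecidableEq υ] (ℓ : υ → ℕ) (Z : Finset ℕ) {m : ℕ}
    (Lk : Finset (Fin m × Fin 3)) (pre : Fin m × Fin 3 → (Fin m × Fin 3) ⊕ ℕ)
    (E : Fin m × Fin 3 → ℕ) (K : Fin m → Finset ℕ) (UK : Fin m → Finset υ)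
    (L : Fin m × Fin 3 → Finset ℕ) (UL : Fin m × Fin 3 → Finset υ) : Prop where
  core : ∀ x p, MatchU (UK x) ℓ (insert (E (x, p)) (K x))
  lk1 : ∀ i ∈ Lk, MatchU (UL i) ℓ (insert (E i) (L i))
  lk2 : ∀ i ∈ Lk, ∀ j, pre i = Sum.inl j → MatchU (UL i) ℓ (insert (E j) (L i))
  lk3 : ∀ i ∈ Lk, ∀ z, pre i = Sum.inr z → MatchU (UL i) ℓ (insert z (L i))
  uKK : ∀ x x', x ≠ x' → Disjoint (UK x) (UK x')
  uKL : ∀ x, ∀ i ∈ Lk, Disjoint (UK x) (UL i)
  uLL : ∀ i ∈ Lk, ∀ j ∈ Lk, i ≠ j → Disjoint (UL i) (UL j)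
  E_inj : Function.Injective E
  EZ : ∀ i, E i ∉ Z
  KE : ∀ x, Disjoint (K x) (univ.image E ∪ Z)
  LE : ∀ i ∈ Lk, Disjoint (L i) (univ.image E ∪ Z)
  KK : ∀ x x', x ≠ x' → Disjoint (K x) (K x')
  KL : ∀ x, ∀ i ∈ Lk, Disjoint (K x) (L i)
  LL : ∀ i ∈ Lk, ∀ j ∈ Lk, i ≠ j → Disjoint (L i) (L j)

/-- the labels of the hubs and links -/
def hubA {m : ℕ} (Lk : Finset (Fin m × Fin 3)) (E : Fin m × Fin 3 → ℕ) (K : Fin m → Finset ℕ)
    (L : Fin m × Fin 3 → Finset ℕ) : Finset ℕ :=
  univ.image E ∪ univ.biUnion K ∪ Lk.biUnion L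

/-- the units of the hubs and links -/
def hubD {υ : Type*} [DecidableEq υ] {m : ℕ} (Lk : Finset (Fin m × Fin 3)) (UK : Fin m → Finset υ)
    (UL : Fin m × Fin 3 → Finset υ) : Finset υ :=
  univ.biUnion UK ∪ Lk.biUnion UL

/-- a family of matchings with different units: the number of labels is at most twice the number of units -/
theorem matchU_biUnion_le {υ ι : Type*} [DecidableEq υ] [DecidableEq ι] {ℓ : υ → ℕ} (S : Finset ι)
    (U : ι → Finset υ) (W : ι → Finset ℕ) (h : ∀ i ∈ S, MatchU (U i) ℓ (W i))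
    (hD : ∀ i ∈ S, ∀ j ∈ S, i ≠ j → Disjoint (U i) (U j)) :
    (S.biUnion W).card ≤ 2 * (S.biUnion U).card := by
  rw [card_biUnion fun i hi j hj hij => hD i hi j hj hij, mul_sum]
  refine card_biUnion_le.trans (sum_le_sum fun i hi => ?_)
  rw [matchU_card (h i hi)]

/-- a family of matchings with different units: the labels are different if their number is right -/
theorem matchU_biUnion_card {υ ι : Type*} [DecidableEq υ] [DecidableEq ι] {ℓ : υ → ℕ} (S : Finset ι)
    (U : ι → Finset υ) (W : ι → Finset ℕ) (h : ∀ i ∈ S, MatchU (U i) ℓ (W i))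
    (hD : ∀ i ∈ S, ∀ j ∈ S, i ≠ j → Disjoint (U i) (U j))
    (hc : 2 * (S.biUnion U).card ≤ (S.biUnion W).card) :
    MatchU (S.biUnion U) ℓ (S.biUnion W) := by
  induction S using Finset.induction_on with
  | empty =>
    rw [biUnion_empty, biUnion_empty]
    exact matchU_empty ℓ
  | @insert a s ha ih =>
    have hne : ∀ j ∈ s, a ≠ j := fun j hj e => ha (e ▸ hj)
    have hd : Disjoint (U a) (s.biUnion U) := by
      rw [disjoint_biUnion_right]
      exact fun j hj => hD a (mem_insert_self a s) j (mem_insert_of_mem hj) (hne j hj)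
    rw [biUnion_insert, biUnion_insert] at hc ⊢
    rw [card_union_of_disjoint hd] at hc
    have h1 := matchU_card (h a (mem_insert_self a s))
    have h2 := card_union_le (W a) (s.biUnion W)
    have h3 := ih (fun i hi => h i (mem_insert_of_mem hi))
      (fun i hi j hj => hD i (mem_insert_of_mem hi) j (mem_insert_of_mem hj)) (by omega)
    exact match2U (h a (mem_insert_self a s)) h3 hd hc

section hub

variable {υ : Type*} [DecidableEq υ] {ℓ : υ → ℕ} {M m : ℕ} {Z : Finset ℕ} {Lk : Finset (Fin m × Fin 3)}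
  {pre : Fin m × Fin 3 → (Fin m × Fin 3) ⊕ ℕ} {E : Fin m × Fin 3 → ℕ} {K : Fin m → Finset ℕ}
  {UK : Fin m → Finset υ} {L : Fin m × Fin 3 → Finset ℕ} {UL : Fin m × Fin 3 → Finset υ}

theorem hub_disj (c : HubC ℓ Z Lk pre E K UK L UL) : Disjoint (hubA Lk E K L) Z := by
  unfold hubA
  rw [disjoint_union_left, disjoint_union_left, disjoint_biUnion_left, disjoint_biUnion_left]
  refine ⟨⟨?_, fun x _ => disjoint_of_subset_right subset_union_right (c.KE x)⟩,
    fun i hi => disjoint_of_subset_right subset_union_right (c.LE i hi)⟩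
  rw [disjoint_left]
  intro a ha
  obtain ⟨i, -, rfl⟩ := mem_image.1 ha
  exact c.EZ i

theorem hub_card (t : Hub M Z m Lk pre) (c : HubC ℓ Z Lk pre E K UK L UL) :
    2 * (hubD Lk UK UL).card = (hubA Lk E K L).card + M := by
  have h1 : Disjoint (univ.biUnion UK) (Lk.biUnion UL) := by
    rw [disjoint_biUnion_left]
    intro x _
    rw [disjoint_biUnion_right]
    exact fun i hi => c.uKL x i hi
  have h2 : Disjoint (univ.image E) (univ.biUnion K) := by
    rw [disjoint_biUnion_right]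
    exact fun x _ => (disjoint_of_subset_right subset_union_left (c.KE x)).symm
  have h3 : Disjoint (univ.image E ∪ univ.biUnion K) (Lk.biUnion L) := by
    rw [disjoint_union_left, disjoint_biUnion_right]
    refine ⟨fun i hi => (disjoint_of_subset_right subset_union_left (c.LE i hi)).symm, ?_⟩
    rw [disjoint_biUnion_left]
    intro x _
    rw [disjoint_biUnion_right]
    exact fun i hi => c.KL x i hi
  have h4 : ∀ x, 2 * (UK x).card = (K x).card + 1 := by
    intro x
    rw [← matchU_card (c.core x 0), card_insert_of_notMem]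
    intro h
    exact disjoint_left.1 (c.KE x) h (mem_union_left _ (mem_image_of_mem E (mem_univ _)))
  have h5 : ∀ i ∈ Lk, 2 * (UL i).card = (L i).card + 1 := by
    intro i hi
    rw [← matchU_card (c.lk1 i hi), card_insert_of_notMem]
    intro h
    exact disjoint_left.1 (c.LE i hi) h (mem_union_left _ (mem_image_of_mem E (mem_univ _)))
  unfold hubD hubA
  rw [card_union_of_disjoint h1, card_union_of_disjoint h3, card_union_of_disjoint h2,
    card_biUnion fun x _ x' _ h => c.uKK x x' h, card_biUnion fun x _ x' _ h => c.KK x x' h,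
    card_biUnion fun i hi j hj h => c.uLL i hi j hj h,
    card_biUnion fun i hi j hj h => c.LL i hi j hj h, mul_add, mul_sum, mul_sum,
    sum_congr rfl fun x _ => h4 x, sum_congr rfl h5, sum_add_distrib, sum_add_distrib,
    card_image_of_injective _ c.E_inj]
  simp only [sum_const, card_univ, Fintype.card_prod, Fintype.card_fin, smul_eq_mul, mul_one]
  have h6 := t.card
  omega

/-- the hubs and links with all the labels in `Z'` -/
theorem hub_match (t : Hub M Z m Lk pre) (c : HubC ℓ Z Lk pre E K UK L UL) (Z' : Finset ℕ)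
    (hZ' : Z' ⊆ Z) (hM : Z'.card = M) : MatchU (hubD Lk UK UL) ℓ (hubA Lk E K L ∪ Z') := by
  obtain ⟨ch, T, h1, h2⟩ := t.choice Z' hZ' hM
  obtain ⟨lab, hlab⟩ : ∃ lab : (Fin m × Fin 3) ⊕ ℕ → ℕ, lab = Sum.elim E id := ⟨_, rfl⟩
  -- the image of `cov`
  have h3 : ((univ : Finset (Fin m)).disjSum Lk).image (cov pre ch T) =
      (univ : Finset (Fin m × Fin 3)).disjSum Z' := by
    apply eq_of_subset_of_card_le
    · intro a ha
      obtain ⟨q, hq, rfl⟩ := mem_image.1 ha
      rcases q with x | i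
      · exact inl_mem_disjSum.2 (mem_univ _)
      · have hi : i ∈ Lk := by simpa using hq
        change (if i ∈ T then pre i else Sum.inl i) ∈ _
        split_ifs with hiT
        · rcases h4 : pre i with j | z
          · exact inl_mem_disjSum.2 (mem_univ _)
          · exact inr_mem_disjSum.2 (h2 i hi hiT z h4)
        · exact inl_mem_disjSum.2 (mem_univ _)
    · rw [card_image_of_injOn h1, card_disjSum, card_disjSum, hM, t.card, card_univ, card_univ,
        Fintype.card_prod, Fintype.card_fin, Fintype.card_fin]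
      omega
  have h4 : ((univ : Finset (Fin m × Fin 3)).disjSum Z').image lab = univ.image E ∪ Z' := by
    ext a
    rw [mem_image, mem_union, mem_image]
    constructor
    · rintro ⟨q, hq, rfl⟩
      rcases q with i | z
      · refine Or.inl ⟨i, mem_univ _, ?_⟩
        rw [hlab]
        rfl
      · refine Or.inr ?_
        rw [hlab]
        exact inr_mem_disjSum.1 hq
    · rintro (⟨i, -, rfl⟩ | ha)
      · refine ⟨Sum.inl i, inl_mem_disjSum.2 (mem_univ _), ?_⟩
        rw [hlab]
        rfl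
      · refine ⟨Sum.inr a, inr_mem_disjSum.2 ha, ?_⟩
        rw [hlab]
        rfl
  obtain ⟨W1, eW1⟩ : ∃ W1 : Fin m → Finset ℕ, ∀ x, W1 x = insert (lab (cov pre ch T (Sum.inl x))) (K x) :=
    ⟨_, fun x => rfl⟩
  obtain ⟨W2, eW2⟩ : ∃ W2 : Fin m × Fin 3 → Finset ℕ,
      ∀ i, W2 i = insert (lab (cov pre ch T (Sum.inr i))) (L i) := ⟨_, fun x => rfl⟩
  have hW : hubA Lk E K L ∪ Z' = univ.biUnion W1 ∪ Lk.biUnion W2 := by
    have h5 : univ.biUnion W1 ∪ Lk.biUnion W2 =
        (univ.image E ∪ Z') ∪ univ.biUnion K ∪ Lk.biUnion L := by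
      rw [← h4, ← h3]
      ext a
      simp only [mem_union, mem_biUnion, mem_image, eW1, eW2, mem_insert, mem_univ, true_and]
      constructor
      · rintro (⟨x, rfl | hx⟩ | ⟨i, hi, rfl | hx⟩)
        · exact Or.inl (Or.inl ⟨_, ⟨Sum.inl x, inl_mem_disjSum.2 (mem_univ _), rfl⟩, rfl⟩)
        · exact Or.inl (Or.inr ⟨x, hx⟩)
        · exact Or.inl (Or.inl ⟨_, ⟨Sum.inr i, inr_mem_disjSum.2 hi, rfl⟩, rfl⟩)
        · exact Or.inr ⟨i, hi, hx⟩
      · rintro ((⟨_, ⟨q, hq, rfl⟩, rfl⟩ | ⟨x, hx⟩) | ⟨i, hi, hx⟩)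
        · rcases q with x | i
          · exact Or.inl ⟨x, Or.inl rfl⟩
          · exact Or.inr ⟨i, inr_mem_disjSum.1 hq, Or.inl rfl⟩
        · exact Or.inl ⟨x, Or.inr hx⟩
        · exact Or.inr ⟨i, hi, Or.inr hx⟩
    rw [h5]
    unfold hubA
    ext a
    simp only [mem_union]
    tauto
  have m1 : ∀ x ∈ (univ : Finset (Fin m)), MatchU (UK x) ℓ (W1 x) := by
    intro x _
    rw [eW1, hlab]
    exact c.core x (ch x)
  have m2 : ∀ i ∈ Lk, MatchU (UL i) ℓ (W2 i) := by
    intro i hi
    rw [eW2, hlab]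
    change MatchU (UL i) ℓ (insert (Sum.elim E id (if i ∈ T then pre i else Sum.inl i)) (L i))
    split_ifs with hiT
    · rcases h5 : pre i with j | z
      · exact c.lk2 i hi j h5
      · exact c.lk3 i hi z h5
    · exact c.lk1 i hi
  have uKL : Disjoint (univ.biUnion UK) (Lk.biUnion UL) := by
    rw [disjoint_biUnion_left]
    intro x _
    rw [disjoint_biUnion_right]
    exact fun i hi => c.uKL x i hi
  have hc : (hubA Lk E K L ∪ Z').card = 2 * (hubD Lk UK UL).card := by
    rw [card_union_of_disjoint (disjoint_of_subset_right hZ' (hub_disj c)), hM, hub_card t c]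
  have hc1 := matchU_biUnion_le univ UK W1 m1 (fun x _ x' _ h => c.uKK x x' h)
  have hc2 := matchU_biUnion_le Lk UL W2 m2 (fun i hi j hj h => c.uLL i hi j hj h)
  have hc3 := card_union_le (univ.biUnion W1) (Lk.biUnion W2)
  have hc4 : (hubD Lk UK UL).card = (univ.biUnion UK).card + (Lk.biUnion UL).card := by
    unfold hubD
    rw [card_union_of_disjoint uKL]
  rw [hW] at hc
  have n1 := matchU_biUnion_card univ UK W1 m1 (fun x _ x' _ h => c.uKK x x' h) (by omega)
  have n2 := matchU_biUnion_card Lk UL W2 m2 (fun i hi j hj h => c.uLL i hi j hj h) (by omega)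
  rw [hW]
  unfold hubD
  exact match2U n1 n2 uKL (by omega)

end hub

end SSB
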