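import Pool.Agent.Lib.MP_8a819d_co.LH.RuW

/-!
# MP_8a819d_co: absorbers with repeated units, 7. Clean walks are links
-/

set_option autoImplicit false

namespace SSB

open Finset

section walk

variable {ι : Type*} [DecidableEq ι] {c : ι → ℕ}

/-- a block of integers -/
private theorem rk_blk {x y : ℤ} {e : ι} (hx : 1 ≤ x) (hy : 1 ≤ y) (hc : 1 ≤ c e)
    (h : y = x + c e ∨ y = x - c e) : IsBlock 1 (c e, c e) {x.toNat, y.toNat} := by
  rcases h with h | h
  · exact isBlock_add (by omega) (by omega) (by omega)
  · rw [pair_comm]
    exact isBlock_add (by omega) (by omega) (by omega)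

private theorem rk_sgn (b : Bool) : sgnU b = 1 ∨ sgnU b = -1 := by
  unfold sgnU
  cases b
  · exact Or.inr rfl
  · exact Or.inl rfl

private theorem rk_toNat {x y : ℤ} (hx : 1 ≤ x) (hy : 1 ≤ y) (h : x.toNat = y.toNat) : x = y := by
  omega

/-- the inner labels of a walk as natural numbers -/
def wlabN (c : ι → ℕ) (a : ℤ) (l : List (ι × Bool)) : Finset ℕ := (wlab c a l).toFinset.image Int.toNat

/-- the units of a walk -/
def wunits (l : List (ι × Bool)) : Finset ι := (l.map Prod.fst).toFinset

/-- the inner labels of a walk in `[1, N]` -/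
theorem wks_pos {N : ℕ} {U : Finset ι} {r : ℕ} {a b : ℤ} {l : List (ι × Bool)}
    (hl : l ∈ wks N U c r a b) (ha : 1 ≤ a) (haN : a ≤ N) :
    l.length = r ∧ (∀ t ∈ l, t.1 ∈ U) ∧ (∀ y ∈ wlab c a l, 1 ≤ y ∧ y ≤ N) ∧ 1 ≤ b ∧ b ≤ N := by
  induction r generalizing a l with
  | zero =>
    unfold wks at hl
    split_ifs at hl with h
    · rw [mem_singleton] at hl
      subst hl
      refine ⟨rfl, fun t ht => absurd ht List.not_mem_nil, fun y hy => ?_, by omega, by omega⟩
      unfold wlab at hy
      exact absurd hy List.not_mem_nil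
    · exact absurd hl (notMem_empty _)
  | succ r ih =>
    unfold wks at hl
    rw [mem_biUnion] at hl
    obtain ⟨t, ht, hl⟩ := hl
    split_ifs at hl with h
    · obtain ⟨l', hl', rfl⟩ := mem_image.1 hl
      obtain ⟨h1, h2, h3, h4, h5⟩ := ih hl' h.1 h.2
      have hmd : 1 ≤ md c a t ∧ md c a t ≤ N := by
        have h6 := h.1
        have h7 := h.2
        unfold mv at h6 h7
        unfold md
        rcases rk_sgn t.2 with h8 | h8 <;> rw [h8] at h6 h7 ⊢ <;> omega
      refine ⟨by rw [List.length_cons, h1], ?_, ?_, h4, h5⟩
      · intro s hs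
        rcases List.mem_cons.1 hs with rfl | hs
        · exact (mem_product.1 ht).1
        · exact h2 s hs
      · intro y hy
        unfold wlab at hy
        split_ifs at hy with h6
        · rw [List.mem_singleton] at hy
          rw [hy]
          exact hmd
        · rcases List.mem_cons.1 hy with rfl | hy
          · exact hmd
          · rcases List.mem_cons.1 hy with rfl | hy
            · exact h
            · exact h3 y hy
    · exact absurd hl (notMem_empty _)

/-- a walk absorbs one of its ends -/
theorem walk_match' {N : ℕ} {U : Finset ι} {r : ℕ} {a b : ℤ} {l : List (ι × Bool)}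
    (hl : l ∈ wks N U c r a b) (hr : 1 ≤ r) (hc : ∀ e ∈ U, 1 ≤ c e) (ha : 1 ≤ a) (haN : a ≤ N)
    (hu : (l.map Prod.fst).Nodup) (hn : (wlab c a l).Nodup) :
    (a ∉ wlab c a l → MatchU (wunits l) c (insert a.toNat (wlabN c a l))) ∧
      (b ∉ wlab c a l → MatchU (wunits l) c (insert b.toNat (wlabN c a l))) := by
  induction r generalizing a l with
  | zero => omega
  | succ r ih =>
    have hpos := wks_pos hl ha haN
    unfold wks at hl
    rw [mem_biUnion] at hl
    obtain ⟨t, ht, hl⟩ := hl
    split_ifs at hl with h
    · obtain ⟨l', hl', rfl⟩ := mem_image.1 hl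
      have htU : 1 ≤ c t.1 := hc t.1 (mem_product.1 ht).1
      have hpos' := wks_pos hl' h.1 h.2
      have hmd : 1 ≤ md c a t ∧ md c a t ≤ N := by
        have h6 := h.1
        have h7 := h.2
        unfold mv at h6 h7
        unfold md
        rcases rk_sgn t.2 with h8 | h8 <;> rw [h8] at h6 h7 ⊢ <;> omega
      have hb1 : IsBlock 1 (c t.1, c t.1) {a.toNat, (md c a t).toNat} := by
        refine rk_blk ha hmd.1 htU ?_
        unfold md
        rcases rk_sgn t.2 with h8 | h8 <;> rw [h8]
        · exact Or.inl (by ring)
        · exact Or.inr (by ring)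
      have hb2 : IsBlock 1 (c t.1, c t.1) {(md c a t).toNat, (mv c a t).toNat} := by
        refine rk_blk hmd.1 h.1 htU ?_
        unfold md mv
        rcases rk_sgn t.2 with h8 | h8 <;> rw [h8]
        · exact Or.inl (by ring)
        · exact Or.inr (by ring)
      by_cases hl0 : l' = []
      · -- one step
        subst hl0
        have hr0 : r = 0 := by
          have h9 := hpos'.1
          rw [List.length_nil] at h9
          exact h9.symm
        subst hr0
        have hbe : b = mv c a t := by
          unfold wks at hl'
          split_ifs at hl' with h9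
          · exact h9.symm
          · exact absurd hl' (notMem_empty _)
        have e1 : wlab c a [t] = [md c a t] := by
          unfold wlab
          rw [if_pos rfl]
        have e2 : wlabN c a [t] = {(md c a t).toNat} := by
          unfold wlabN
          rw [e1]
          rfl
        have e3 : wunits [t] = {t.1} := rfl
        rw [e2, e3]
        refine ⟨fun _ => matchU_single hb1, fun _ => ?_⟩
        rw [hbe, pair_comm]
        exact matchU_single hb2
      · have hr1 : 1 ≤ r := by
          by_contra h9
          have h10 : r = 0 := by omega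
          have h11 := hpos'.1
          rw [h10, List.length_eq_zero_iff] at h11
          exact hl0 h11
        have e1 : wlab c a (t :: l') = md c a t :: mv c a t :: wlab c (mv c a t) l' := by
          conv_lhs => unfold wlab
          rw [if_neg hl0]
        rw [e1] at hn
        obtain ⟨n1, n2⟩ := List.nodup_cons.1 hn
        obtain ⟨n3, n4⟩ := List.nodup_cons.1 n2
        rw [List.map_cons] at hu
        obtain ⟨u1, u2⟩ := List.nodup_cons.1 hu
        obtain ⟨i1, i2⟩ := ih hl' hr1 h.1 h.2 u2 n4
        have e2 : wlabN c a (t :: l') =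
            insert (md c a t).toNat (insert (mv c a t).toNat (wlabN c (mv c a t) l')) := by
          unfold wlabN
          rw [e1, List.toFinset_cons, List.toFinset_cons, image_insert, image_insert]
        have e3 : wunits (t :: l') = {t.1} ∪ wunits l' := by
          unfold wunits
          rw [List.map_cons, List.toFinset_cons, insert_eq]
        have hdu : Disjoint {t.1} (wunits l') := by
          rw [disjoint_singleton_left]
          unfold wunits
          rw [List.mem_toFinset]
          exact u1
        have hnotin : ∀ x : ℤ, 1 ≤ x → x ∉ wlab c (mv c a t) l' → x.toNat ∉ wlabN c (mv c a t) l' := by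
          intro x hx hxn hx2
          unfold wlabN at hx2
          obtain ⟨y, hy, hyx⟩ := mem_image.1 hx2
          have h9 := List.mem_toFinset.1 hy
          have h10 := hpos'.2.2.1 y h9
          exact hxn (rk_toNat h10.1 hx hyx ▸ h9)
        have hmd_mv : md c a t ≠ mv c a t := fun h9 => n1 (h9 ▸ List.mem_cons_self)
        have hmd_nm : md c a t ∉ wlab c (mv c a t) l' := fun h9 => n1 (List.mem_cons_of_mem _ h9)
        rw [e1, e2, e3]
        constructor
        · intro hane
          have e4 : insert a.toNat (insert (md c a t).toNat (insert (mv c a t).toNat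
              (wlabN c (mv c a t) l'))) = {a.toNat, (md c a t).toNat} ∪
              insert (mv c a t).toNat (wlabN c (mv c a t) l') := by
            ext z
            simp only [mem_insert, mem_union, mem_singleton]
            tauto
          rw [e4]
          have ha1 : a ≠ mv c a t := fun h9 => hane (List.mem_cons_of_mem _
            (List.mem_cons.2 (Or.inl h9)))
          have ha2 : a ∉ wlab c (mv c a t) l' := fun h9 =>
            hane (List.mem_cons_of_mem _ (List.mem_cons_of_mem _ h9))
          refine matchU_union (matchU_single hb1) (i1 n3) hdu ?_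
          simp only [disjoint_insert_left, disjoint_singleton_left, mem_insert, not_or]
          exact ⟨⟨fun h9 => ha1 (rk_toNat ha h.1 h9), hnotin a ha ha2⟩,
            fun h9 => hmd_mv (rk_toNat hmd.1 h.1 h9), hnotin _ hmd.1 hmd_nm⟩
        · intro hbne
          have e4 : insert b.toNat (insert (md c a t).toNat (insert (mv c a t).toNat
              (wlabN c (mv c a t) l'))) = {(md c a t).toNat, (mv c a t).toNat} ∪
              insert b.toNat (wlabN c (mv c a t) l') := by
            ext z
            simp only [mem_insert, mem_union, mem_singleton]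
            tauto
          rw [e4]
          have hb3 : b ≠ md c a t := fun h9 => hbne (by
            rw [h9]
            exact List.mem_cons_self)
          have hb4 : b ≠ mv c a t := fun h9 => hbne (by
            rw [h9]
            exact List.mem_cons_of_mem _ List.mem_cons_self)
          have hb5 : b ∉ wlab c (mv c a t) l' := fun h9 =>
            hbne (List.mem_cons_of_mem _ (List.mem_cons_of_mem _ h9))
          have hb0 := hpos'.2.2.2.1
          refine matchU_union (matchU_single hb2) (i2 hb5) hdu ?_
          simp only [disjoint_insert_left, disjoint_singleton_left, mem_insert, not_or]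
          exact ⟨⟨fun h9 => hb3 (rk_toNat hmd.1 hb0 h9).symm, hnotin _ hmd.1 hmd_nm⟩,
            fun h9 => hb4 (rk_toNat h.1 hb0 h9).symm, hnotin _ h.1 n3⟩
    · exact absurd hl (notMem_empty _)

/-- a clean walk absorbs one of its ends -/
theorem walk_match {N : ℕ} {U Ub : Finset ι} {F : Finset ℤ} {r : ℕ} {a b : ℤ} {l : List (ι × Bool)}
    (hl : l ∈ wks N U c r a b) (hr : 1 ≤ r) (hc : ∀ e ∈ U, 1 ≤ c e) (ha : 1 ≤ a) (haN : a ≤ N)
    (haF : a ∈ F) (hbF : b ∈ F) (hcl : Clean c F Ub a l) :
    MatchU (wunits l) c (insert a.toNat (wlabN c a l)) ∧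
      MatchU (wunits l) c (insert b.toNat (wlabN c a l)) := by
  obtain ⟨h1, h2, h3, h4⟩ := hcl
  obtain ⟨h5, h6⟩ := walk_match' hl hr hc ha haN h1 h3
  exact ⟨h5 fun h => h4 a h haF, h6 fun h => h4 b h hbF⟩

/-- the units of a clean walk -/
theorem walk_units {N : ℕ} {U Ub : Finset ι} {F : Finset ℤ} {r : ℕ} {a b : ℤ} {l : List (ι × Bool)}
    (hl : l ∈ wks N U c r a b) (ha : 1 ≤ a) (haN : a ≤ N) (hcl : Clean c F Ub a l) :
    wunits l ⊆ U ∧ Disjoint (wunits l) Ub ∧ (wunits l).card = r := by
  obtain ⟨h1, h2, h3, h4⟩ := hcl
  obtain ⟨h5, h6, h7, -⟩ := wks_pos hl ha haN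
  refine ⟨?_, ?_, ?_⟩
  · intro e he
    unfold wunits at he
    rw [List.mem_toFinset, List.mem_map] at he
    obtain ⟨t, ht, rfl⟩ := he
    exact h6 t ht
  · rw [disjoint_left]
    intro e he
    unfold wunits at he
    rw [List.mem_toFinset, List.mem_map] at he
    obtain ⟨t, ht, rfl⟩ := he
    exact h2 t ht
  · unfold wunits
    rw [List.toFinset_card_of_nodup h1, List.length_map, h5]

/-- the inner labels of a clean walk -/
theorem walk_labels {N : ℕ} {U Ub : Finset ι} {F : Finset ℤ} {r : ℕ} {a b : ℤ} {l : List (ι × Bool)}
    (hl : l ∈ wks N U c r a b) (ha : 1 ≤ a) (haN : a ≤ N) (hcl : Clean c F Ub a l) :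
    wlabN c a l ⊆ Icc 1 N ∧ ∀ x ∈ wlabN c a l, (x : ℤ) ∉ F := by
  obtain ⟨h1, h2, h3, h4⟩ := hcl
  obtain ⟨h5, h6, h7, -⟩ := wks_pos hl ha haN
  constructor
  · intro x hx
    unfold wlabN at hx
    obtain ⟨y, hy, rfl⟩ := mem_image.1 hx
    have h8 := h7 y (List.mem_toFinset.1 hy)
    rw [mem_Icc]
    omega
  · intro x hx
    unfold wlabN at hx
    obtain ⟨y, hy, rfl⟩ := mem_image.1 hx
    have h8 := h7 y (List.mem_toFinset.1 hy)
    rw [Int.toNat_of_nonneg (by omega)]
    exact h4 y (List.mem_toFinset.1 hy)

end walk

end SSB
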