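import Pool.Agent.Lib.MP_8a819d_co.LH.Sel

/-!
# The labels `Z ρ` and the default pairs `q e`, `q e + c e`
-/

set_option autoImplicit false

namespace SSB

open Finset

/-- the labels chosen for the elements of the templates -/
def lbA {ι : Type} [DecidableEq ι] (UG : Finset ι) (c : ι → ℕ) (Z : ℤ → Finset ℤ) (q : ι → ℤ) : Finset ℤ :=
  Z 0 ∪ Z 1 ∪ UG.image q ∪ UG.image (fun e => q e + c e)

open Classical in
theorem stageA {ι : Type} [DecidableEq ι] {N : ℕ} {U UG : Finset ι} {c : ι → ℕ} {η : ℝ} (hN : 1000 ≤ N)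
    (hU : U.Nonempty) (hUG : UG.Nonempty) (hη : 0 ≤ η) (hη2 : 12 * η * Real.log (6 * N) ≤ 1 / 100)
    (hodd : ∀ e ∈ U, c e % 2 = 1) (hle : ∀ e ∈ U, 8 * c e ≤ N)
    (hmult : ∀ d, ((U.filter (fun e => c e = d)).card : ℝ) ≤ η * U.card) (htr : Trn U UG c)
    (F₀ Xs : Finset ℤ) (hXs : ∀ x ∈ Xs, (1 ≤ x ∧ x ≤ N) ∧ Rgl U c (1 / 100) F₀ x)
    (hF₀ : 100 * F₀.card ≤ N) (hT : 10000 * (3 * UG.card) ≤ N) :
    ∃ (Z : ℤ → Finset ℤ) (q : ι → ℤ),
      (∀ ρ : ℤ, ρ = 0 ∨ ρ = 1 → (Z ρ).card = UG.card ∧ ∀ z ∈ Z ρ, z % 2 = ρ ∧ (1 ≤ z ∧ z ≤ N) ∧ z ∉ F₀) ∧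
      (∀ e ∈ UG, q e % 2 = 0 ∧ 1 ≤ q e ∧ q e + c e ≤ N ∧ q e ∉ F₀ ∧ q e + c e ∉ F₀ ∧ q e ∉ Z 0 ∧ q e + c e ∉ Z 1) ∧
      (∀ e ∈ UG, ∀ e' ∈ UG, e ≠ e' → q e ≠ q e' ∧ q e + c e ≠ q e' + c e') ∧
      (∀ x : ℤ, 1 ≤ x → x ≤ N → ∀ m : ℤ, (m = 1 ∨ m = -1 ∨ m = 2 ∨ m = -2) →
        ((U.filter (fun e => x + m * c e ∈ lbA UG c Z q)).card : ℝ) ≤
          (300 * UG.card / N + 12 * η * Real.log (6 * N)) * U.card) ∧
      ∀ x ∈ Xs, ((UG.card : ℝ) / (4 * N) - 12 * η * Real.log (6 * N)) * UG.card ≤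
        ((stps UG).filter (fun s => md c x s ∈ Z 0 ∪ Z 1)).card := by
  classical
  set G := UG.card with hG
  obtain ⟨e₀, he₀⟩ := hUG
  -- the enumeration
  obtain ⟨en, idx, hen, hidx, hidx'⟩ : ∃ (en : ℕ → ι) (idx : ι → ℕ),
      (∀ t, en t ∈ UG) ∧ (∀ e ∈ UG, idx e < G ∧ en (idx e) = e) ∧
      (∀ e ∈ UG, ∀ e' ∈ UG, idx e = idx e' → e = e') := by
    refine ⟨fun t => if h : t < G then (UG.equivFin.symm ⟨t, h⟩ : UG) else e₀,
      fun e => if h : e ∈ UG then (UG.equivFin ⟨e, h⟩ : ℕ) else 0, ?_, ?_, ?_⟩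
    · intro t
      by_cases h : t < G
      · simp only [h, dif_pos]
        exact (UG.equivFin.symm ⟨t, h⟩).2
      · simp only [h, dif_neg, not_false_eq_true]
        exact he₀
    · intro e he
      have h1 : (UG.equivFin ⟨e, he⟩ : ℕ) < G := (UG.equivFin ⟨e, he⟩).2
      simp only [he, dif_pos]
      refine ⟨h1, ?_⟩
      rw [dif_pos h1]
      simp
    · intro e he e' he' h
      simp only [he, he', dif_pos] at h
      have h1 := UG.equivFin.injective (Fin.ext h)
      exact congrArg Subtype.val h1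
  let O : ℕ → Finset ℤ := fun t => if t < 2 * G then {0} else {0, (c (en (t - 2 * G)) : ℤ)}
  let σ : ℕ → ℤ := fun t => if G ≤ t ∧ t < 2 * G then 1 else 0
  let A : ℤ → Finset ℕ := fun ρ => if ρ = 0 then range G else if ρ = 1 then Ico G (2 * G) else ∅
  have hUGU : ∀ e ∈ UG, e ∈ U := fun e he => htr.1 he
  have hO0 : ∀ t, t < 2 * G → O t = {0} := fun t ht => if_pos ht
  have hO1 : ∀ e ∈ UG, O (2 * G + idx e) = {0, (c e : ℤ)} := by
    intro e he
    have h1 : ¬ (2 * G + idx e < 2 * G) := by omega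
    simp only [O]
    rw [if_neg h1, Nat.add_sub_cancel_left, (hidx e he).2]
  have hA0 : A 0 = range G := if_pos rfl
  have hA1 : A 1 = Ico G (2 * G) := by
    simp [A]
  obtain ⟨p, hp1, hp2, hp3, hp4⟩ := sel hN hU ⟨e₀, he₀⟩ hη hη2 hodd hle hmult htr F₀ Xs hXs
    (3 * G) O σ (by
      intro t _
      by_cases h : t < 2 * G
      · rw [hO0 t h]
        refine ⟨mem_singleton_self _, by simp, fun o ho => ?_⟩
        rw [mem_singleton] at ho
        rw [ho]
        simp
      · have h1 : O t = {0, (c (en (t - 2 * G)) : ℤ)} := if_neg h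
        rw [h1]
        refine ⟨mem_insert_self _ _, (card_le_two).trans (by norm_num), fun o ho => ?_⟩
        rw [mem_insert, mem_singleton] at ho
        rcases ho with ho | ho
        · rw [ho]
          simp
        · have h2 := hle _ (hUGU _ (hen (t - 2 * G)))
          rw [ho, abs_of_nonneg (by positivity)]
          have h3 : (8 : ℤ) * (c (en (t - 2 * G)) : ℤ) ≤ N := by exact_mod_cast h2
          have h4 : (0 : ℤ) ≤ (c (en (t - 2 * G)) : ℤ) := by positivity
          linarith) (by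
      intro t _
      by_cases h : G ≤ t ∧ t < 2 * G
      · right
        exact if_pos h
      · left
        exact if_neg h) hF₀ hT A (by
      intro ρ t ht
      by_cases h0 : ρ = 0
      · subst h0
        rw [hA0, mem_range] at ht
        refine ⟨by omega, hO0 t (by omega), if_neg (by omega)⟩
      · by_cases h1 : ρ = 1
        · subst h1
          rw [hA1, mem_Ico] at ht
          refine ⟨by omega, hO0 t (by omega), if_pos ht⟩
        · simp only [A] at ht
          rw [if_neg h0, if_neg h1] at ht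
          exact absurd ht (notMem_empty t))
  have hinj : ∀ t < 2 * G, ∀ t' < 2 * G, p t = p t' → t = t' := by
    intro t ht t' ht' h
    by_contra hne
    apply hp2 t (by omega) t' (by omega) hne 0 (by rw [hO0 t ht]; exact mem_singleton_self _) 0
      (by rw [hO0 t' ht']; exact mem_singleton_self _)
    rw [h]
  have hAlt : ∀ ρ : ℤ, ∀ t ∈ A ρ, t < 2 * G ∧ σ t = ρ := by
    intro ρ t ht
    by_cases h0 : ρ = 0
    · subst h0
      rw [hA0, mem_range] at ht
      exact ⟨by omega, if_neg (by omega)⟩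
    · by_cases h1 : ρ = 1
      · subst h1
        rw [hA1, mem_Ico] at ht
        exact ⟨by omega, if_pos ht⟩
      · simp only [A] at ht
        rw [if_neg h0, if_neg h1] at ht
        exact absurd ht (notMem_empty t)
  have hAcard : ∀ ρ : ℤ, ρ = 0 ∨ ρ = 1 → (A ρ).card = G := by
    rintro ρ (rfl | rfl)
    · rw [hA0, card_range]
    · rw [hA1, Nat.card_Ico]
      omega
  let Z : ℤ → Finset ℤ := fun ρ => (A ρ).image p
  let q : ι → ℤ := fun e => p (2 * G + idx e)
  have hmem0 : ∀ e ∈ UG, (0 : ℤ) ∈ O (2 * G + idx e) := by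
    intro e he
    rw [hO1 e he]
    exact mem_insert_self _ _
  have hmemc : ∀ e ∈ UG, (c e : ℤ) ∈ O (2 * G + idx e) := by
    intro e he
    rw [hO1 e he]
    exact mem_insert_of_mem (mem_singleton_self _)
  refine ⟨Z, q, ?_, ?_, ?_, ?_, ?_⟩
  · intro ρ hρ
    refine ⟨?_, ?_⟩
    · rw [card_image_of_injOn, hAcard ρ hρ]
      intro t ht t' ht' h
      exact hinj t (hAlt ρ t ht).1 t' (hAlt ρ t' ht').1 h
    · intro z hz
      obtain ⟨t, ht, rfl⟩ := mem_image.1 hz
      have h1 := (hAlt ρ t ht).1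
      obtain ⟨h2, h3⟩ := hp1 t (by omega)
      have h4 := h3 0 (by rw [hO0 t h1]; exact mem_singleton_self _)
      rw [add_zero] at h4
      exact ⟨by rw [h2, (hAlt ρ t ht).2], h4.1, h4.2⟩
  · intro e he
    have h0 := (hidx e he).1
    obtain ⟨h2, h3⟩ := hp1 (2 * G + idx e) (by omega)
    have h4 := h3 0 (hmem0 e he)
    have h5 := h3 (c e) (hmemc e he)
    rw [add_zero] at h4
    have hσ : σ (2 * G + idx e) = 0 := if_neg (by omega)
    refine ⟨by rw [← hσ]; exact h2, h4.1.1, h5.1.2, h4.2, h5.2, ?_, ?_⟩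
    · intro hz
      obtain ⟨t, ht, h6⟩ := mem_image.1 hz
      have h7 := (hAlt 0 t ht).1
      apply hp2 t (by omega) (2 * G + idx e) (by omega) (by omega) 0
        (by rw [hO0 t h7]; exact mem_singleton_self _) 0 (hmem0 e he)
      rw [h6]
    · intro hz
      obtain ⟨t, ht, h6⟩ := mem_image.1 hz
      have h7 := (hAlt 1 t ht).1
      apply hp2 t (by omega) (2 * G + idx e) (by omega) (by omega) 0
        (by rw [hO0 t h7]; exact mem_singleton_self _) (c e) (hmemc e he)
      rw [h6, add_zero]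
  · intro e he e' he' hne
    have h0 := (hidx e he).1
    have h0' := (hidx e' he').1
    have h1 : 2 * G + idx e ≠ 2 * G + idx e' := by
      intro h
      exact hne (hidx' e he e' he' (by omega))
    refine ⟨?_, ?_⟩
    · intro h
      apply hp2 _ (by omega) _ (by omega) h1 0 (hmem0 e he) 0 (hmem0 e' he')
      rw [add_zero, add_zero]
      exact h
    · exact hp2 _ (by omega) _ (by omega) h1 (c e) (hmemc e he) (c e') (hmemc e' he')
  · intro x hx1 hx2 m hm
    have h1 := hp3 x hx1 hx2 m hm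
    have h2 : (100 : ℝ) * ((3 * G : ℕ) : ℝ) / N = 300 * G / N := by
      push_cast
      ring
    rw [h2] at h1
    refine le_trans ?_ h1
    exact_mod_cast card_le_card (by
      intro e he
      rw [mem_filter] at he ⊢
      refine ⟨he.1, ?_⟩
      have h3 := he.2
      simp only [lbA, mem_union, mem_image, Z, q] at h3
      rcases h3 with ((⟨t, ht, h4⟩ | ⟨t, ht, h4⟩) | ⟨e', he', h4⟩) | ⟨e', he', h4⟩
      · have h5 := (hAlt 0 t ht).1
        exact ⟨t, by omega, 0, by rw [hO0 t h5]; exact mem_singleton_self _, by rw [h4, add_zero]⟩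
      · have h5 := (hAlt 1 t ht).1
        exact ⟨t, by omega, 0, by rw [hO0 t h5]; exact mem_singleton_self _, by rw [h4, add_zero]⟩
      · have h5 := (hidx e' he').1
        exact ⟨_, by omega, 0, hmem0 e' he', by rw [h4, add_zero]⟩
      · have h5 := (hidx e' he').1
        exact ⟨_, by omega, c e', hmemc e' he', h4.symm⟩)
  · intro x hx
    have h1 := hp4 x hx
    have h2 : (x + 1) % 2 = 0 ∨ (x + 1) % 2 = 1 := Int.emod_two_eq_zero_or_one _
    rw [hAcard _ h2] at h1
    refine h1.trans ?_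
    exact_mod_cast card_le_card (by
      intro s hs
      rw [mem_filter] at hs ⊢
      refine ⟨hs.1, ?_⟩
      obtain ⟨t, ht, h3⟩ := hs.2
      rw [mem_union]
      rcases h2 with h2 | h2
      · left
        rw [h2] at ht
        exact mem_image.2 ⟨t, ht, h3.symm⟩
      · right
        rw [h2] at ht
        exact mem_image.2 ⟨t, ht, h3.symm⟩)

end SSB
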