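import Mathlib

/-!
# Sequential selection with a potential (derandomised Chernoff bounds)

JOB Drd (all of this file).

PROOF. Let `Λ = |Θ| + |Θ'|` and for `p : ℕ → Ω`, `n ≤ T`
`Φ n p = ∑ τ ∈ Θ, exp ((∑ i < n, φ τ i (p i) - 2 ∑ i < n, μ i)/b) + ∑ τ ∈ Θ', exp ((½ ∑ i < n, μ' τ i - ∑ i < n, ψ τ i (p i))/b)`. `Φ 0 p = Λ`.
CLAIM: for every `n ≤ T` there is `p` with `∀ t < n, p t ∈ Av t p` and `Φ m p ≤ Λ` for all `m ≤ n`. Step `n → n + 1`: as `Φ n p ≤ Λ`, every single term is `≤ Λ`, so (logarithm)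
`∑ i < n, φ τ i (p i) ≤ 2 ∑ i < n, μ i + b log Λ` for all `τ ∈ Θ`: this is the hypothesis needed for `h`. Put `A = Av n p` (nonempty). The mean over `x ∈ A` of `exp (φ τ n x/b)` is at most
`1 + 2 (mean of φ)/b ≤ 1 + 2 μ n/b ≤ exp (2 μ n/b)` (`exp s ≤ 1 + 2 s` for `0 ≤ s ≤ 1`), the mean of `exp (-ψ τ n x/b)` is at most `1 - (mean of ψ)/(2b) ≤ 1 - μ' τ n/(2b) ≤ exp (-μ' τ n/(2b))`
(`exp (-s) ≤ 1 - s/2` for `0 ≤ s ≤ 1`, `1 + s ≤ exp s`). So the mean over `x ∈ A` of `Φ (n + 1) (Function.update p n x)` is at most `Φ n p`, and some `x ∈ A` is at most the mean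
(`Finset.exists_le_of_sum_le`). Take `Function.update p n x`; `Av t` for `t ≤ n` does not change (`hAv`).
For `n = T` the two bounds follow from `Φ T p ≤ Λ` (each term is at most `Λ`; if `Θ` is empty there is nothing to prove).
-/

set_option autoImplicit false
set_option linter.unusedSectionVars false

namespace SSB

open Finset

private theorem drd_exp_up {s : ℝ} (h0 : 0 ≤ s) (h1 : s ≤ 1) : Real.exp s ≤ 1 + 2 * s := by
  have h := convexOn_exp.2 (Set.mem_univ (1 : ℝ)) (Set.mem_univ (0 : ℝ)) h0 (sub_nonneg.2 h1)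
    (by ring)
  simp only [smul_eq_mul, mul_one, mul_zero, add_zero, Real.exp_zero] at h
  nlinarith [Real.exp_one_lt_d9]

private theorem drd_exp_dn {s : ℝ} (h0 : 0 ≤ s) (h1 : s ≤ 1) : Real.exp (-s) ≤ 1 - s / 2 := by
  have h := convexOn_exp.2 (Set.mem_univ (-1 : ℝ)) (Set.mem_univ (0 : ℝ)) h0 (sub_nonneg.2 h1)
    (by ring)
  simp only [smul_eq_mul, mul_one, mul_zero, add_zero, Real.exp_zero, mul_neg] at h
  have h2 : Real.exp (-1) ≤ 1 / 2 := by
    rw [Real.exp_neg, ← one_div]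
    exact one_div_le_one_div_of_le (by norm_num) (by linarith [Real.exp_one_gt_d9])
  nlinarith

private theorem drd_up {Ω : Type} (A : Finset Ω) (f : Ω → ℝ) {b m : ℝ} (hb : 0 < b)
    (hf : ∀ x, 0 ≤ f x ∧ f x ≤ b) (h : ∑ x ∈ A, f x ≤ m * A.card) :
    ∑ x ∈ A, Real.exp ((f x - 2 * m) / b) ≤ A.card := by
  have h1 : ∀ x ∈ A, Real.exp ((f x - 2 * m) / b) ≤
      (1 + 2 * (f x / b)) * Real.exp (-(2 * m / b)) := by
    intro x _
    have h2 : (f x - 2 * m) / b = f x / b + -(2 * m / b) := by ring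
    rw [h2, Real.exp_add]
    refine mul_le_mul_of_nonneg_right ?_ (Real.exp_pos _).le
    exact drd_exp_up (div_nonneg (hf x).1 hb.le) ((div_le_one hb).2 (hf x).2)
  refine (sum_le_sum h1).trans ?_
  rw [← sum_mul]
  have h3 : ∑ x ∈ A, (1 + 2 * (f x / b)) = A.card + 2 * (∑ x ∈ A, f x) / b := by
    rw [sum_add_distrib, ← mul_sum, ← sum_div, sum_const, nsmul_eq_mul, mul_one]
    ring
  have h4 : ∑ x ∈ A, (1 + 2 * (f x / b)) ≤ A.card * Real.exp (2 * m / b) := by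
    rw [h3]
    have h5 : 2 * (∑ x ∈ A, f x) / b ≤ A.card * (2 * m / b) := by
      rw [div_le_iff₀ hb]
      have : (A.card : ℝ) * (2 * m / b) * b = 2 * (m * A.card) := by
        field_simp
      rw [this]
      linarith
    have h6 := Real.add_one_le_exp (2 * m / b)
    have h7 : (A.card : ℝ) * (2 * m / b + 1) ≤ A.card * Real.exp (2 * m / b) :=
      mul_le_mul_of_nonneg_left h6 (Nat.cast_nonneg _)
    linarith
  calc (∑ x ∈ A, (1 + 2 * (f x / b))) * Real.exp (-(2 * m / b))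
      ≤ A.card * Real.exp (2 * m / b) * Real.exp (-(2 * m / b)) :=
        mul_le_mul_of_nonneg_right h4 (Real.exp_pos _).le
    _ = A.card := by
      rw [mul_assoc, ← Real.exp_add, add_neg_cancel, Real.exp_zero, mul_one]

private theorem drd_dn {Ω : Type} (A : Finset Ω) (f : Ω → ℝ) {b m : ℝ} (hb : 0 < b)
    (hf : ∀ x, 0 ≤ f x ∧ f x ≤ b) (h : m * A.card ≤ ∑ x ∈ A, f x) :
    ∑ x ∈ A, Real.exp ((m / 2 - f x) / b) ≤ A.card := by
  have h1 : ∀ x ∈ A, Real.exp ((m / 2 - f x) / b) ≤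
      (1 - f x / b / 2) * Real.exp (m / (2 * b)) := by
    intro x _
    have h2 : (m / 2 - f x) / b = -(f x / b) + m / (2 * b) := by
      field_simp
      ring
    rw [h2, Real.exp_add]
    refine mul_le_mul_of_nonneg_right ?_ (Real.exp_pos _).le
    exact drd_exp_dn (div_nonneg (hf x).1 hb.le) ((div_le_one hb).2 (hf x).2)
  refine (sum_le_sum h1).trans ?_
  rw [← sum_mul]
  have h3 : ∑ x ∈ A, (1 - f x / b / 2) = A.card - (∑ x ∈ A, f x) / (2 * b) := by
    rw [sum_sub_distrib, sum_const, nsmul_eq_mul, mul_one, ← sum_div, ← sum_div]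
    congr 1
    field_simp
  have h4 : ∑ x ∈ A, (1 - f x / b / 2) ≤ A.card * Real.exp (-(m / (2 * b))) := by
    rw [h3]
    have h5 : (A.card : ℝ) * (m / (2 * b)) ≤ (∑ x ∈ A, f x) / (2 * b) := by
      rw [le_div_iff₀ (by linarith)]
      have : (A.card : ℝ) * (m / (2 * b)) * (2 * b) = m * A.card := by
        field_simp
      rw [this]
      exact h
    have h6 := Real.add_one_le_exp (-(m / (2 * b)))
    have h7 : (A.card : ℝ) * (-(m / (2 * b)) + 1) ≤ A.card * Real.exp (-(m / (2 * b))) :=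
      mul_le_mul_of_nonneg_left h6 (Nat.cast_nonneg _)
    linarith
  calc (∑ x ∈ A, (1 - f x / b / 2)) * Real.exp (m / (2 * b))
      ≤ A.card * Real.exp (-(m / (2 * b))) * Real.exp (m / (2 * b)) :=
        mul_le_mul_of_nonneg_right h4 (Real.exp_pos _).le
    _ = A.card := by
      rw [mul_assoc, ← Real.exp_add, neg_add_cancel, Real.exp_zero, mul_one]

theorem derand {Ω Θ Θ' : Type} [DecidableEq Ω] (TΘ : Finset Θ) (TΘ' : Finset Θ') (T : ℕ)
    (Av : ℕ → (ℕ → Ω) → Finset Ω) (hAv : ∀ t p q, (∀ i < t, p i = q i) → Av t p = Av t q)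
    (φ : Θ → ℕ → Ω → ℝ) (ψ : Θ' → ℕ → Ω → ℝ) (b : ℝ) (μ : ℕ → ℝ) (μ' : Θ' → ℕ → ℝ) (hb : 0 < b) (p₀ : ℕ → Ω)
    (hφ : ∀ τ ∈ TΘ, ∀ t < T, ∀ x, 0 ≤ φ τ t x ∧ φ τ t x ≤ b)
    (hψ : ∀ τ ∈ TΘ', ∀ t < T, ∀ x, 0 ≤ ψ τ t x ∧ ψ τ t x ≤ b)
    (h : ∀ t < T, ∀ p : ℕ → Ω, (∀ i < t, p i ∈ Av i p) →
      (∀ τ ∈ TΘ, ∑ i ∈ range t, φ τ i (p i) ≤ 2 * ∑ i ∈ range t, μ i + b * Real.log (TΘ.card + TΘ'.card)) →
      (Av t p).Nonempty ∧ (∀ τ ∈ TΘ, ∑ x ∈ Av t p, φ τ t x ≤ μ t * (Av t p).card) ∧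
        ∀ τ ∈ TΘ', μ' τ t * (Av t p).card ≤ ∑ x ∈ Av t p, ψ τ t x) :
    ∃ p : ℕ → Ω, (∀ t < T, p t ∈ Av t p) ∧
      (∀ τ ∈ TΘ, ∑ i ∈ range T, φ τ i (p i) ≤ 2 * ∑ i ∈ range T, μ i + b * Real.log (TΘ.card + TΘ'.card)) ∧
      ∀ τ ∈ TΘ', (∑ i ∈ range T, μ' τ i) / 2 - b * Real.log (TΘ.card + TΘ'.card) ≤ ∑ i ∈ range T, ψ τ i (p i) := by
  obtain ⟨Λ, hΛ⟩ : ∃ Λ : ℝ, Λ = TΘ.card + TΘ'.card := ⟨_, rfl⟩
  rw [← hΛ] at h ⊢
  obtain ⟨F1, hF1⟩ : ∃ F1 : ℕ → (ℕ → Ω) → Θ → ℝ, F1 = fun n p τ =>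
    Real.exp ((∑ i ∈ range n, φ τ i (p i) - 2 * ∑ i ∈ range n, μ i) / b) := ⟨_, rfl⟩
  obtain ⟨F2, hF2⟩ : ∃ F2 : ℕ → (ℕ → Ω) → Θ' → ℝ, F2 = fun n p τ =>
    Real.exp (((∑ i ∈ range n, μ' τ i) / 2 - ∑ i ∈ range n, ψ τ i (p i)) / b) := ⟨_, rfl⟩
  have F1pos : ∀ n p τ, 0 < F1 n p τ := fun n p τ => by rw [hF1]; exact Real.exp_pos _
  have F2pos : ∀ n p τ, 0 < F2 n p τ := fun n p τ => by rw [hF2]; exact Real.exp_pos _
  have single1 : ∀ n p, ∑ τ ∈ TΘ, F1 n p τ + ∑ τ ∈ TΘ', F2 n p τ ≤ Λ → ∀ τ ∈ TΘ,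
      ∑ i ∈ range n, φ τ i (p i) ≤ 2 * ∑ i ∈ range n, μ i + b * Real.log Λ := by
    intro n p hle τ hτ
    have h1 : F1 n p τ ≤ Λ := by
      have h2 := single_le_sum (f := F1 n p) (fun τ _ => (F1pos n p τ).le) hτ
      have h3 : 0 ≤ ∑ τ ∈ TΘ', F2 n p τ := sum_nonneg fun τ _ => (F2pos n p τ).le
      linarith
    have h4 : (∑ i ∈ range n, φ τ i (p i) - 2 * ∑ i ∈ range n, μ i) / b ≤ Real.log Λ := by
      rw [Real.le_log_iff_exp_le ((F1pos n p τ).trans_le h1)]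
      rw [hF1] at h1
      exact h1
    rw [div_le_iff₀ hb] at h4
    linarith
  have single2 : ∀ n p, ∑ τ ∈ TΘ, F1 n p τ + ∑ τ ∈ TΘ', F2 n p τ ≤ Λ → ∀ τ ∈ TΘ',
      (∑ i ∈ range n, μ' τ i) / 2 - b * Real.log Λ ≤ ∑ i ∈ range n, ψ τ i (p i) := by
    intro n p hle τ hτ
    have h1 : F2 n p τ ≤ Λ := by
      have h2 := single_le_sum (f := F2 n p) (fun τ _ => (F2pos n p τ).le) hτ
      have h3 : 0 ≤ ∑ τ ∈ TΘ, F1 n p τ := sum_nonneg fun τ _ => (F1pos n p τ).le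
      linarith
    have h4 : ((∑ i ∈ range n, μ' τ i) / 2 - ∑ i ∈ range n, ψ τ i (p i)) / b ≤ Real.log Λ := by
      rw [Real.le_log_iff_exp_le ((F2pos n p τ).trans_le h1)]
      rw [hF2] at h1
      exact h1
    rw [div_le_iff₀ hb] at h4
    linarith
  have claim : ∀ n ≤ T, ∃ p : ℕ → Ω, (∀ t < n, p t ∈ Av t p) ∧
      ∑ τ ∈ TΘ, F1 n p τ + ∑ τ ∈ TΘ', F2 n p τ ≤ Λ := by
    intro n
    induction n with
    | zero =>
      intro _
      refine ⟨p₀, fun t ht => absurd ht (Nat.not_lt_zero t), le_of_eq ?_⟩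
      rw [hF1, hF2, hΛ]
      simp
    | succ n ih =>
      intro hn
      obtain ⟨p, hp, hle⟩ := ih (by omega)
      have hnT : n < T := hn
      obtain ⟨hA, hm1, hm2⟩ := h n hnT p hp (single1 n p hle)
      have key : ∑ x ∈ Av n p, (∑ τ ∈ TΘ, F1 (n + 1) (Function.update p n x) τ +
          ∑ τ ∈ TΘ', F2 (n + 1) (Function.update p n x) τ) ≤
          ∑ _x ∈ Av n p, (∑ τ ∈ TΘ, F1 n p τ + ∑ τ ∈ TΘ', F2 n p τ) := by
        have e1 : ∀ x τ, F1 (n + 1) (Function.update p n x) τ =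
            F1 n p τ * Real.exp ((φ τ n x - 2 * μ n) / b) := by
          intro x τ
          rw [hF1]
          simp only
          rw [← Real.exp_add, sum_range_succ, sum_range_succ, Function.update_self]
          have h5 : ∑ i ∈ range n, φ τ i (Function.update p n x i) =
              ∑ i ∈ range n, φ τ i (p i) :=
            sum_congr rfl fun i hi => by
              rw [Function.update_of_ne (ne_of_lt (mem_range.1 hi))]
          rw [h5]
          congr 1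
          ring
        have e2 : ∀ x τ, F2 (n + 1) (Function.update p n x) τ =
            F2 n p τ * Real.exp ((μ' τ n / 2 - ψ τ n x) / b) := by
          intro x τ
          rw [hF2]
          simp only
          rw [← Real.exp_add, sum_range_succ, sum_range_succ, Function.update_self]
          have h5 : ∑ i ∈ range n, ψ τ i (Function.update p n x i) =
              ∑ i ∈ range n, ψ τ i (p i) :=
            sum_congr rfl fun i hi => by
              rw [Function.update_of_ne (ne_of_lt (mem_range.1 hi))]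
          rw [h5]
          congr 1
          ring
        rw [sum_add_distrib, sum_add_distrib, sum_comm, sum_comm (s := Av n p) (t := TΘ'),
          sum_const, sum_const, nsmul_eq_mul, nsmul_eq_mul, mul_sum, mul_sum]
        refine add_le_add (sum_le_sum fun τ hτ => ?_) (sum_le_sum fun τ hτ => ?_)
        · have h6 : ∑ x ∈ Av n p, F1 (n + 1) (Function.update p n x) τ =
              F1 n p τ * ∑ x ∈ Av n p, Real.exp ((φ τ n x - 2 * μ n) / b) := by
            rw [mul_sum]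
            exact sum_congr rfl fun x _ => e1 x τ
          rw [h6, mul_comm]
          exact mul_le_mul_of_nonneg_right (drd_up (Av n p) (φ τ n) hb (hφ τ hτ n hnT) (hm1 τ hτ))
            (F1pos n p τ).le
        · have h6 : ∑ x ∈ Av n p, F2 (n + 1) (Function.update p n x) τ =
              F2 n p τ * ∑ x ∈ Av n p, Real.exp ((μ' τ n / 2 - ψ τ n x) / b) := by
            rw [mul_sum]
            exact sum_congr rfl fun x _ => e2 x τ
          rw [h6, mul_comm]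
          exact mul_le_mul_of_nonneg_right (drd_dn (Av n p) (ψ τ n) hb (hψ τ hτ n hnT) (hm2 τ hτ))
            (F2pos n p τ).le
      obtain ⟨x, hx, hx2⟩ := exists_le_of_sum_le hA key
      refine ⟨Function.update p n x, ?_, hx2.trans hle⟩
      intro t ht
      have hAv' : Av t p = Av t (Function.update p n x) :=
        hAv t p _ fun i hi => by
          rw [Function.update_of_ne (by omega)]
      rw [← hAv']
      rcases Nat.lt_succ_iff_lt_or_eq.1 ht with h7 | h7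
      · rw [Function.update_of_ne (ne_of_lt h7)]
        exact hp t h7
      · rw [h7, Function.update_self]
        exact hx
  obtain ⟨p, hp, hle⟩ := claim T le_rfl
  exact ⟨p, hp, single1 T p hle, single2 T p hle⟩


end SSB
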