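import Pool.Agent.Lib.MP_8a819d_co.LH.Def
import Pool.Agent.Lib.MP_8a819d_co.LH.Drd

/-!
# Selection of groups of labels

`p t + o` (`o ∈ O t`) are the labels of the group `t < T`.
-/

set_option autoImplicit false

namespace SSB

open Finset

/-- every label is at most twice as frequent in `UG` as it should be -/
def Trn {ι : Type} [DecidableEq ι] (U UG : Finset ι) (c : ι → ℕ) : Prop :=
  UG ⊆ U ∧ ∀ d, (UG.filter (fun e => c e = d)).card * U.card ≤ 2 * ((U.filter (fun e => c e = d)).card * UG.card)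

theorem trn_sum {ι : Type} [DecidableEq ι] {U UG : Finset ι} {c : ι → ℕ} (h : Trn U UG c) (g : ℕ → ℝ) (hg : ∀ d, 0 ≤ g d) :
    (∑ e ∈ UG, g (c e)) * U.card ≤ 2 * ((∑ e ∈ U, g (c e)) * UG.card) := by
  have h1 : ∑ e ∈ U, g (c e) = ∑ d ∈ U.image c, ((U.filter (fun e => c e = d)).card : ℝ) * g d := by
    rw [sum_comp g c]
    exact sum_congr rfl fun d _ => nsmul_eq_mul _ _
  have h2 : ∑ e ∈ UG, g (c e) = ∑ d ∈ U.image c, ((UG.filter (fun e => c e = d)).card : ℝ) * g d := by
    rw [sum_comp g c]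
    have h3 : ∑ b ∈ UG.image c, (UG.filter (fun e => c e = b)).card • g b =
        ∑ b ∈ UG.image c, ((UG.filter (fun e => c e = b)).card : ℝ) * g b :=
      sum_congr rfl fun d _ => nsmul_eq_mul _ _
    rw [h3]
    refine sum_subset (image_subset_image h.1) fun d _ hd => ?_
    have h4 : UG.filter (fun e => c e = d) = ∅ := by
      rw [filter_eq_empty_iff]
      intro e he hed
      exact hd (hed ▸ mem_image_of_mem c he)
    rw [h4, card_empty, Nat.cast_zero, zero_mul]
  rw [h1, h2, sum_mul, sum_mul, mul_sum]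
  refine sum_le_sum fun d _ => ?_
  have h3 : ((UG.filter (fun e => c e = d)).card : ℝ) * U.card ≤
      2 * ((U.filter (fun e => c e = d)).card * UG.card) := by exact_mod_cast h.2 d
  have h4 := mul_le_mul_of_nonneg_right h3 (hg d)
  nlinarith

/-- the share in `UG` -/
theorem trn_share {ι : Type} [DecidableEq ι] {U UG : Finset ι} {c : ι → ℕ} (h : Trn U UG c) (hU : U.Nonempty)
    (P : ℕ → Prop) [DecidablePred P] {κ : ℝ} (hP : ((U.filter (fun e => P (c e))).card : ℝ) ≤ κ * U.card) :
    ((UG.filter (fun e => P (c e))).card : ℝ) ≤ 2 * κ * UG.card := by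
  have hU0 : (0 : ℝ) < U.card := by exact_mod_cast card_pos.2 hU
  have h1 := trn_sum h (fun d => if P d then (1 : ℝ) else 0) (fun d => by split_ifs <;> norm_num)
  have e1 : ∀ V : Finset ι, (∑ e ∈ V, if P (c e) then (1 : ℝ) else 0) =
      ((V.filter (fun e => P (c e))).card : ℝ) := fun V => by
    rw [sum_ite, sum_const_zero, add_zero, sum_const, nsmul_eq_mul, mul_one]
  rw [e1, e1] at h1
  have h2 : ((UG.filter (fun e => P (c e))).card : ℝ) * U.card ≤ (2 * κ * UG.card) * U.card := by
    refine h1.trans ?_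
    have h3 := mul_le_mul_of_nonneg_right hP (Nat.cast_nonneg (α := ℝ) UG.card)
    nlinarith
  exact le_of_mul_le_mul_right h2 hU0

/-- all the units with a given value -/
theorem sel_one {ι : Type} [DecidableEq ι] {V : Finset ι} {c : ι → ℕ} {B : ℝ} (hB : 0 ≤ B)
    (hmult : ∀ d, ((V.filter (fun e => c e = d)).card : ℝ) ≤ B) (x m y : ℤ) (hm : m ≠ 0) :
    ((V.filter (fun e => x + m * c e = y)).card : ℝ) ≤ B := by
  by_cases hne : (V.filter (fun e => x + m * c e = y)).Nonempty
  · obtain ⟨e0, he0⟩ := hne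
    have h0 := (mem_filter.1 he0).2
    refine le_trans ?_ (hmult (c e0))
    have h1 : V.filter (fun e => x + m * c e = y) ⊆ V.filter (fun e => c e = c e0) := by
      intro e he
      obtain ⟨h2, h3⟩ := mem_filter.1 he
      refine mem_filter.2 ⟨h2, ?_⟩
      have h4 : m * (c e : ℤ) = m * c e0 := by linarith
      have h5 := mul_left_cancel₀ hm h4
      exact_mod_cast h5
    exact_mod_cast card_le_card h1
  · rw [not_nonempty_iff_eq_empty.1 hne, card_empty, Nat.cast_zero]
    exact hB

/-- the candidates -/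
noncomputable def selAv (N : ℕ) (F₀ : Finset ℤ) (O : ℕ → Finset ℤ) (σ : ℕ → ℤ) (t : ℕ) (p : ℕ → ℤ) : Finset ℤ := by
  classical
  exact (Icc (1 : ℤ) N).filter (fun x => x % 2 = σ t ∧ ∀ o ∈ O t, (1 ≤ x + o ∧ x + o ≤ N) ∧ x + o ∉ F₀ ∧
    ∀ i < t, ∀ o' ∈ O i, x + o ≠ p i + o')

theorem mem_selAv {N : ℕ} {F₀ : Finset ℤ} {O : ℕ → Finset ℤ} {σ : ℕ → ℤ} {t : ℕ} {p : ℕ → ℤ} {x : ℤ} :
    x ∈ selAv N F₀ O σ t p ↔ (1 ≤ x ∧ x ≤ N) ∧ x % 2 = σ t ∧ ∀ o ∈ O t, (1 ≤ x + o ∧ x + o ≤ N) ∧ x + o ∉ F₀ ∧
      ∀ i < t, ∀ o' ∈ O i, x + o ≠ p i + o' := by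
  unfold selAv
  rw [mem_filter, mem_Icc]

theorem selAv_card {N : ℕ} {F₀ : Finset ℤ} {O : ℕ → Finset ℤ} {σ : ℕ → ℤ} {T : ℕ} (hN : 1000 ≤ N)
    (hO : ∀ t < T, 0 ∈ O t ∧ (O t).card ≤ 6 ∧ ∀ o ∈ O t, 4 * |o| ≤ N)
    (hσ : ∀ t < T, σ t = 0 ∨ σ t = 1) (hF₀ : 100 * F₀.card ≤ N) (hT : 10000 * T ≤ N) {t : ℕ} (ht : t < T)
    (p : ℕ → ℤ) : N ≤ 8 * (selAv N F₀ O σ t p).card := by
  classical
  -- the central numbers
  obtain ⟨I0, eI0⟩ : ∃ I0 : Finset ℤ, I0 = (Icc (1 : ℤ) N).filter (fun x => x % 2 = σ t ∧ (N : ℤ) < 4 * x ∧ 4 * x ≤ 3 * N) :=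
    ⟨_, rfl⟩
  obtain ⟨Bd, eBd⟩ : ∃ Bd : Finset ℤ, Bd = F₀ ∪ (range t).biUnion (fun i => (O i).image (fun o' => p i + o')) :=
    ⟨_, rfl⟩
  have hBc : Bd.card ≤ F₀.card + 6 * t := by
    rw [eBd]
    refine (card_union_le _ _).trans ?_
    have h1 : ((range t).biUnion (fun i => (O i).image (fun o' => p i + o'))).card ≤ t * 6 := by
      have h2 := card_biUnion_le_card_mul (range t) (fun i => (O i).image (fun o' => p i + o')) 6
        (fun i hi => card_image_le.trans (hO i (lt_trans (mem_range.1 hi) ht)).2.1)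
      rwa [card_range] at h2
    omega
  have hsub : I0 ⊆ selAv N F₀ O σ t p ∪ (O t).biUnion (fun o => Bd.image (fun y => y - o)) := by
    intro x hx
    rw [eI0, mem_filter, mem_Icc] at hx
    obtain ⟨hx1, hx2, hx3, hx4⟩ := hx
    by_cases hbad : ∃ o ∈ O t, x + o ∈ Bd
    · obtain ⟨o, ho, hb⟩ := hbad
      refine mem_union_right _ (mem_biUnion.2 ⟨o, ho, mem_image.2 ⟨x + o, hb, by ring⟩⟩)
    · push Not at hbad
      refine mem_union_left _ (mem_selAv.2 ⟨hx1, hx2, fun o ho => ?_⟩)
      have h1 := (hO t ht).2.2 o ho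
      have h2 := abs_le.1 (le_refl |o|)
      have h3 := hbad o ho
      rw [eBd, mem_union, not_or] at h3
      refine ⟨by omega, h3.1, fun i hi o' ho' he => h3.2 ?_⟩
      exact mem_biUnion.2 ⟨i, mem_range.2 hi, mem_image.2 ⟨o', ho', he.symm⟩⟩
  have hbad : ((O t).biUnion (fun o => Bd.image (fun y => y - o))).card ≤ 6 * Bd.card := by
    refine card_biUnion_le.trans ?_
    refine (sum_le_sum fun o _ => (card_image_le : (Bd.image (fun y => y - o)).card ≤ Bd.card)).trans ?_
    rw [sum_const, smul_eq_mul]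
    exact Nat.mul_le_mul_right _ (hO t ht).2.1
  -- number of the central numbers
  have hI0 : N ≤ 4 * I0.card + 8 := by
    have hinj : ((range ((N - 4) / 4)).image (fun k : ℕ => (2 * ((N / 4 + 1) / 2 : ℕ) + 2 + σ t + 2 * k : ℤ))) ⊆ I0 := by
      intro x hx
      obtain ⟨k, hk, rfl⟩ := mem_image.1 hx
      have hk' := mem_range.1 hk
      rw [eI0, mem_filter, mem_Icc]
      have h1 := hσ t ht
      rcases h1 with h1 | h1 <;> rw [h1] <;> omega
    have h2 := card_le_card hinj
    rw [card_image_of_injective _ (fun a b hab => by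
      have : (2 * ((N / 4 + 1) / 2 : ℕ) + 2 + σ t + 2 * (a : ℤ)) = (2 * ((N / 4 + 1) / 2 : ℕ) + 2 + σ t + 2 * (b : ℤ)) := hab
      omega), card_range] at h2
    omega
  have h5 := card_le_card hsub
  have h6 := card_union_le (selAv N F₀ O σ t p) ((O t).biUnion (fun o => Bd.image (fun y => y - o)))
  omega

/-- steps of both signs -/
theorem sel_stps {ι : Type} [DecidableEq ι] (UG : Finset ι) (Q : ι → Bool → Prop)
    [∀ e s, Decidable (Q e s)] :
    ((stps UG).filter (fun s => Q s.1 s.2)).card =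
      (UG.filter (fun e => Q e true)).card + (UG.filter (fun e => Q e false)).card := by
  have h1 : (stps UG).filter (fun s => Q s.1 s.2) =
      (UG.filter (fun e => Q e true)).image (fun e => (e, true)) ∪
        (UG.filter (fun e => Q e false)).image (fun e => (e, false)) := by
    ext ⟨e, s⟩
    unfold stps
    simp only [mem_filter, mem_product, mem_univ, and_true, mem_union, mem_image, Prod.mk.injEq]
    constructor
    · rintro ⟨he, hq⟩
      cases s
      · exact Or.inr ⟨e, ⟨he, hq⟩, rfl, rfl⟩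
      · exact Or.inl ⟨e, ⟨he, hq⟩, rfl, rfl⟩
    · rintro (⟨e', ⟨h2, h3⟩, rfl, rfl⟩ | ⟨e', ⟨h2, h3⟩, rfl, rfl⟩)
      · exact ⟨h2, h3⟩
      · exact ⟨h2, h3⟩
  rw [h1, card_union_of_disjoint, card_image_of_injective _ (fun a b h => (Prod.mk.inj h).1),
    card_image_of_injective _ (fun a b h => (Prod.mk.inj h).1)]
  rw [disjoint_left]
  rintro ⟨e, s⟩ h2 h3
  obtain ⟨_, -, h4⟩ := mem_image.1 h2
  obtain ⟨_, -, h5⟩ := mem_image.1 h3
  have h6 := (Prod.mk.inj h4).2
  have h7 := (Prod.mk.inj h5).2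
  rw [← h6] at h7
  exact absurd h7 (by decide)

/-- number of pairs (unit, offset) with `x + m c e = y + o` -/
noncomputable def selCnt {ι : Type} (U : Finset ι) (c : ι → ℕ) (O : Finset ℤ) (x m y : ℤ) : ℕ := by
  classical
  exact ∑ o ∈ O, (U.filter (fun e => x + m * c e = y + o)).card

/-- number of steps leading to `y` -/
noncomputable def selPsi {ι : Type} [DecidableEq ι] (UG : Finset ι) (c : ι → ℕ) (x y : ℤ) : ℕ := by
  classical
  exact ((stps UG).filter (fun s => x + sgnU s.2 * c s.1 = y)).card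

/-- double counting: a sum over `y` of the numbers of solutions of `φ e = y` -/
theorem sel_sum {α : Type} (V : Finset α) (φ : α → ℤ) (S : Finset ℤ) :
    ∑ y ∈ S, (V.filter (fun e => φ e = y)).card = (V.filter (fun e => φ e ∈ S)).card := by
  classical
  have h0 := card_eq_sum_card_fiberwise (f := φ) (s := V.filter (fun e => φ e ∈ S)) (t := S)
    (fun e he => (mem_filter.1 (mem_coe.1 he)).2)
  rw [h0]
  refine sum_congr rfl fun y hy => ?_
  rw [filter_filter]
  congr 1
  refine filter_congr fun e _ => ⟨fun h => ⟨h ▸ hy, h⟩, fun h => h.2⟩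

open Classical in
theorem sel {ι : Type} [DecidableEq ι] {N : ℕ} {U UG : Finset ι} {c : ι → ℕ} {η : ℝ} (hN : 1000 ≤ N)
    (hU : U.Nonempty) (hUG : UG.Nonempty) (hη : 0 ≤ η) (hη2 : 12 * η * Real.log (6 * N) ≤ 1 / 100)
    (hodd : ∀ e ∈ U, c e % 2 = 1) (hle : ∀ e ∈ U, 8 * c e ≤ N)
    (hmult : ∀ d, ((U.filter (fun e => c e = d)).card : ℝ) ≤ η * U.card) (htr : Trn U UG c)
    (F₀ Xs : Finset ℤ) (hXs : ∀ x ∈ Xs, (1 ≤ x ∧ x ≤ N) ∧ Rgl U c (1 / 100) F₀ x)
    (T : ℕ) (O : ℕ → Finset ℤ) (σ : ℕ → ℤ) (hO : ∀ t < T, 0 ∈ O t ∧ (O t).card ≤ 6 ∧ ∀ o ∈ O t, 4 * |o| ≤ N)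
    (hσ : ∀ t < T, σ t = 0 ∨ σ t = 1) (hF₀ : 100 * F₀.card ≤ N) (hT : 10000 * T ≤ N)
    (A : ℤ → Finset ℕ) (hA : ∀ ρ, ∀ t ∈ A ρ, t < T ∧ O t = {0} ∧ σ t = ρ) :
    ∃ p : ℕ → ℤ, (∀ t < T, p t % 2 = σ t ∧ ∀ o ∈ O t, (1 ≤ p t + o ∧ p t + o ≤ N) ∧ p t + o ∉ F₀) ∧
      (∀ t < T, ∀ t' < T, t ≠ t' → ∀ o ∈ O t, ∀ o' ∈ O t', p t + o ≠ p t' + o') ∧
      (∀ x : ℤ, 1 ≤ x → x ≤ N → ∀ m : ℤ, (m = 1 ∨ m = -1 ∨ m = 2 ∨ m = -2) →
        ((U.filter (fun e => ∃ t < T, ∃ o ∈ O t, x + m * c e = p t + o)).card : ℝ) ≤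
          (100 * T / N + 12 * η * Real.log (6 * N)) * U.card) ∧
      ∀ x ∈ Xs, (((A ((x + 1) % 2)).card : ℝ) / (4 * N) - 12 * η * Real.log (6 * N)) * UG.card ≤
        ((stps UG).filter (fun s => ∃ t ∈ A ((x + 1) % 2), x + sgnU s.2 * c s.1 = p t)).card := by
  have hN0 : (0 : ℝ) < N := by
    have : 0 < N := by omega
    exact_mod_cast this
  have hU0 : (0 : ℝ) < U.card := by exact_mod_cast card_pos.2 hU
  have hG0 : (0 : ℝ) < UG.card := by exact_mod_cast card_pos.2 hUG
  have hη0 : 0 < η := by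
    obtain ⟨e0, he0⟩ := hU
    by_contra hn
    have h1 : η = 0 := le_antisymm (not_lt.1 hn) hη
    have h2 := hmult (c e0)
    rw [h1, zero_mul] at h2
    have h3 : 0 < (U.filter (fun e => c e = c e0)).card := card_pos.2 ⟨e0, mem_filter.2 ⟨he0, rfl⟩⟩
    have h4 : (0 : ℝ) < (U.filter (fun e => c e = c e0)).card := by exact_mod_cast h3
    linarith
  have hL1 : 0 ≤ Real.log (6 * N) := Real.log_nonneg (by
    have : (1 : ℝ) ≤ N := by
      have : 1 ≤ N := by omega
      exact_mod_cast this
    linarith)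
  have hT' : 10000 * (T : ℝ) ≤ N := by exact_mod_cast hT
  have hδ : 100 * (T : ℝ) / N ≤ 1 / 100 := by
    rw [div_le_div_iff₀ hN0 (by norm_num)]
    linarith
  have hηU : 0 ≤ η * (U.card : ℝ) := mul_nonneg hη hU0.le
  have hmG : ∀ d, ((UG.filter (fun e => c e = d)).card : ℝ) ≤ 2 * η * UG.card := fun d =>
    trn_share htr hU (fun k => k = d) (hmult d)
  -- the tests
  obtain ⟨φ, eφ⟩ : ∃ φ : ℤ × ℤ → ℕ → ℤ → ℝ, ∀ τ t y, φ τ t y = (selCnt U c (O t) τ.1 τ.2 y : ℝ) / U.card :=
    ⟨_, fun τ t y => rfl⟩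
  obtain ⟨ψ, eψ⟩ : ∃ ψ : ℤ → ℕ → ℤ → ℝ, ∀ x t y, ψ x t y =
      if t ∈ A ((x + 1) % 2) then (selPsi UG c x y : ℝ) / UG.card else 0 := ⟨_, fun x t y => rfl⟩
  obtain ⟨μ', eμ'⟩ : ∃ μ' : ℤ → ℕ → ℝ, ∀ x t, μ' x t = if t ∈ A ((x + 1) % 2) then 1 / (N : ℝ) else 0 :=
    ⟨_, fun x t => rfl⟩
  obtain ⟨TΘ, eT⟩ : ∃ TΘ : Finset (ℤ × ℤ), TΘ = (Icc (1 : ℤ) N) ×ˢ ({1, -1, 2, -2} : Finset ℤ) := ⟨_, rfl⟩
  have hTc : TΘ.card ≤ 4 * N := by
    rw [eT, card_product, Int.card_Icc]
    have h1 : ({1, -1, 2, -2} : Finset ℤ).card ≤ 4 := card_le_four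
    have h2 : ((N : ℤ) + 1 - 1).toNat = N := by omega
    rw [h2, mul_comm]
    exact Nat.mul_le_mul_right _ h1
  have hXc : Xs.card ≤ N := by
    have h1 : Xs ⊆ Icc (1 : ℤ) N := fun x hx => mem_Icc.2 (hXs x hx).1
    have h2 := card_le_card h1
    rw [Int.card_Icc] at h2
    omega
  have hTpos : 0 < TΘ.card := by
    rw [card_pos, eT]
    exact ⟨(1, 1), mem_product.2 ⟨mem_Icc.2 ⟨le_refl _, by omega⟩, by simp⟩⟩
  have hlog : Real.log (TΘ.card + Xs.card) ≤ Real.log (6 * N) := by
    apply Real.log_le_log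
    · have : (0 : ℝ) < TΘ.card := by exact_mod_cast hTpos
      positivity
    · have h1 : (TΘ.card : ℝ) ≤ 4 * N := by exact_mod_cast hTc
      have h2 : (Xs.card : ℝ) ≤ N := by exact_mod_cast hXc
      linarith
  have hlog' : 6 * η * Real.log (TΘ.card + Xs.card) ≤ 6 * η * Real.log (6 * N) :=
    mul_le_mul_of_nonneg_left hlog (by positivity)
  have hmne : ∀ m : ℤ, m ∈ ({1, -1, 2, -2} : Finset ℤ) → m ≠ 0 := by
    intro m hm
    simp only [mem_insert, mem_singleton] at hm
    omega
  -- the used labels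
  have hused : ∀ (t : ℕ) (p : ℕ → ℤ) (x m : ℤ), t ≤ T →
      ((U.filter (fun e => ∃ i < t, ∃ o ∈ O i, x + m * c e = p i + o)).card : ℝ) ≤
        U.card * ∑ i ∈ range t, φ (x, m) i (p i) := by
    intro t p x m _
    have h1 : U.filter (fun e => ∃ i < t, ∃ o ∈ O i, x + m * c e = p i + o) ⊆
        (range t).biUnion (fun i => (O i).biUnion (fun o => U.filter (fun e => x + m * c e = p i + o))) := by
      intro e he
      obtain ⟨h2, i, hi, o, ho, h3⟩ := mem_filter.1 he
      exact mem_biUnion.2 ⟨i, mem_range.2 hi, mem_biUnion.2 ⟨o, ho, mem_filter.2 ⟨h2, h3⟩⟩⟩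
    have h2 : (U.filter (fun e => ∃ i < t, ∃ o ∈ O i, x + m * c e = p i + o)).card ≤
        ∑ i ∈ range t, selCnt U c (O i) x m (p i) := by
      refine (card_le_card h1).trans (card_biUnion_le.trans (sum_le_sum fun i _ => ?_))
      unfold selCnt
      exact card_biUnion_le
    have h3 : ((U.filter (fun e => ∃ i < t, ∃ o ∈ O i, x + m * c e = p i + o)).card : ℝ) ≤
        ∑ i ∈ range t, (selCnt U c (O i) x m (p i) : ℝ) := by exact_mod_cast h2
    refine h3.trans (le_of_eq ?_)
    rw [mul_sum]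
    refine sum_congr rfl fun i _ => ?_
    rw [eφ, mul_div_cancel₀ _ hU0.ne']
  obtain ⟨p, hp1, hp2, hp3⟩ := derand TΘ Xs T (selAv N F₀ O σ)
    (fun t p q hpq => by
      ext x
      rw [mem_selAv, mem_selAv]
      have h1 : (∀ o ∈ O t, (1 ≤ x + o ∧ x + o ≤ N) ∧ x + o ∉ F₀ ∧ ∀ i < t, ∀ o' ∈ O i, x + o ≠ p i + o') ↔
          ∀ o ∈ O t, (1 ≤ x + o ∧ x + o ≤ N) ∧ x + o ∉ F₀ ∧ ∀ i < t, ∀ o' ∈ O i, x + o ≠ q i + o' := by
        refine forall₂_congr fun o _ => and_congr_right fun _ => and_congr_right fun _ => ?_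
        refine forall₂_congr fun i hi => ?_
        rw [hpq i hi]
      rw [h1])
    φ ψ (6 * η) (fun _ => 48 / N) μ' (by positivity) (fun _ => 0)
    (fun τ hτ t ht y => by
      rw [eφ]
      have hm := hmne τ.2 (by
        rw [eT] at hτ
        exact (mem_product.1 hτ).2)
      refine ⟨by positivity, ?_⟩
      rw [div_le_iff₀ hU0]
      unfold selCnt
      push_cast
      have h1 : ∀ o ∈ O t, ((U.filter (fun e => τ.1 + τ.2 * c e = y + o)).card : ℝ) ≤ η * U.card :=
        fun o _ => sel_one hηU hmult τ.1 τ.2 (y + o) hm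
      refine (sum_le_sum h1).trans ?_
      rw [sum_const, nsmul_eq_mul]
      have h2 : ((O t).card : ℝ) ≤ 6 := by exact_mod_cast (hO t ht).2.1
      nlinarith)
    (fun x hx t _ y => by
      rw [eψ]
      split_ifs with hmem
      · refine ⟨by positivity, ?_⟩
        rw [div_le_iff₀ hG0]
        unfold selPsi
        have h0 := sel_stps UG (fun e s => x + sgnU s * c e = y)
        have h1 : ((UG.filter (fun e => x + sgnU true * c e = y)).card : ℝ) ≤ 2 * η * UG.card := by
          refine sel_one (by positivity) hmG x (sgnU true) y ?_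
          unfold sgnU
          norm_num
        have h2 : ((UG.filter (fun e => x + sgnU false * c e = y)).card : ℝ) ≤ 2 * η * UG.card := by
          refine sel_one (by positivity) hmG x (sgnU false) y ?_
          unfold sgnU
          norm_num
        have h3 : (((stps UG).filter (fun s => x + sgnU s.2 * c s.1 = y)).card : ℝ) =
            ((UG.filter (fun e => x + sgnU true * c e = y)).card : ℝ) +
              ((UG.filter (fun e => x + sgnU false * c e = y)).card : ℝ) := by exact_mod_cast h0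
        rw [h3]
        nlinarith
      · exact ⟨le_refl _, by positivity⟩)
    (fun t ht p hp hup => by
      have hAv := selAv_card hN hO hσ hF₀ hT ht p
      have hAv' : (N : ℝ) ≤ 8 * (selAv N F₀ O σ t p).card := by exact_mod_cast hAv
      refine ⟨card_pos.1 (by omega), ?_, ?_⟩
      · intro τ hτ
        have h1 : ∑ y ∈ selAv N F₀ O σ t p, (selCnt U c (O t) τ.1 τ.2 y : ℝ) ≤ 6 * U.card := by
          have h2 : ∑ y ∈ selAv N F₀ O σ t p, selCnt U c (O t) τ.1 τ.2 y ≤ 6 * U.card := by
            unfold selCnt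
            rw [sum_comm]
            have h3 : ∀ o ∈ O t, ∑ y ∈ selAv N F₀ O σ t p,
                (U.filter (fun e => τ.1 + τ.2 * (c e : ℤ) = y + o)).card ≤ U.card := by
              intro o _
              have h4 := sel_sum U (fun e => τ.1 + τ.2 * (c e : ℤ) - o) (selAv N F₀ O σ t p)
              have h5 : ∀ y ∈ selAv N F₀ O σ t p, (U.filter (fun e => τ.1 + τ.2 * (c e : ℤ) = y + o)).card =
                  (U.filter (fun e => τ.1 + τ.2 * (c e : ℤ) - o = y)).card := by
                intro y _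
                congr 1
                exact filter_congr fun e _ => by omega
              rw [sum_congr rfl h5, h4]
              exact card_filter_le _ _
            refine (sum_le_sum h3).trans ?_
            rw [sum_const, smul_eq_mul]
            exact Nat.mul_le_mul_right _ (hO t ht).2.1
          exact_mod_cast h2
        have h2 : ∑ y ∈ selAv N F₀ O σ t p, φ τ t y ≤ 6 := by
          have h3 : ∑ y ∈ selAv N F₀ O σ t p, φ τ t y =
              (∑ y ∈ selAv N F₀ O σ t p, (selCnt U c (O t) τ.1 τ.2 y : ℝ)) / U.card := by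
            rw [sum_div]
            exact sum_congr rfl fun y _ => eφ τ t y
          rw [h3, div_le_iff₀ hU0]
          exact h1
        refine h2.trans ?_
        have h3 : 48 / (N : ℝ) * (selAv N F₀ O σ t p).card = 6 * (8 * (selAv N F₀ O σ t p).card) / N := by
          ring
        rw [h3, le_div_iff₀ hN0]
        linarith
      · intro x hx
        rw [eμ']
        by_cases hmem : t ∈ A ((x + 1) % 2)
        · rw [if_pos hmem]
          obtain ⟨-, hO0, hσt⟩ := hA _ t hmem
          obtain ⟨hx1, hx2⟩ := hXs x hx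
          have hxT : ∀ m : ℤ, (m = 1 ∨ m = -1) → (x, m) ∈ TΘ := by
            intro m hm
            rw [eT, mem_product, mem_Icc]
            refine ⟨hx1, ?_⟩
            rcases hm with h | h <;> rw [h] <;> simp
          -- shares for one sign
          have hsh : ∀ m : ℤ, (m = 1 ∨ m = -1) →
              ((UG.filter (fun e => x + m * (c e : ℤ) ∈ F₀)).card : ℝ) ≤ 1 / 50 * UG.card ∧
              ((UG.filter (fun e => ∃ i < t, ∃ o ∈ O i, x + m * (c e : ℤ) = p i + o)).card : ℝ) ≤
                1 / 25 * UG.card := by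
            intro m hm
            constructor
            · have h1 := trn_share htr hU (fun d => x + m * (d : ℤ) ∈ F₀)
                (hx2 m (by rcases hm with h | h <;> simp [h]))
              linarith
            · have h1 : ((U.filter (fun e => ∃ i < t, ∃ o ∈ O i, x + m * (c e : ℤ) = p i + o)).card : ℝ) ≤
                  1 / 50 * U.card := by
                refine (hused t p x m ht.le).trans ?_
                have h2 := hup (x, m) (hxT m hm)
                rw [sum_const, card_range, nsmul_eq_mul] at h2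
                have h3 : ∑ i ∈ range t, φ (x, m) i (p i) ≤ 1 / 50 := by
                  have h4 : 2 * ((t : ℝ) * (48 / N)) ≤ 100 * (T : ℝ) / N := by
                    have h5 : (t : ℝ) ≤ T := by exact_mod_cast ht.le
                    have h6 : 2 * ((t : ℝ) * (48 / N)) = 96 * t / N := by ring
                    rw [h6]
                    apply div_le_div_of_nonneg_right _ hN0.le
                    have : (0 : ℝ) ≤ T := Nat.cast_nonneg _
                    linarith
                  have h7 : 6 * η * Real.log (6 * N) ≤ 1 / 100 := by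
                    have : 0 ≤ η * Real.log (6 * N) := mul_nonneg hη hL1
                    linarith
                  linarith
                have h5 := mul_le_mul_of_nonneg_left h3 hU0.le
                linarith
              have h2 := trn_share htr hU (fun d => ∃ i < t, ∃ o ∈ O i, x + m * (d : ℤ) = p i + o) h1
              linarith
          -- the good steps
          have hgood : (88 / 100 : ℝ) * UG.card ≤
              ((stps UG).filter (fun s => x + sgnU s.2 * (c s.1 : ℤ) ∈ selAv N F₀ O σ t p)).card := by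
            have hcov : UG.card ≤ ((stps UG).filter (fun s => x + sgnU s.2 * (c s.1 : ℤ) ∈
                selAv N F₀ O σ t p)).card +
                ((UG.filter (fun e => x + 1 * (c e : ℤ) ∈ F₀)).card +
                (UG.filter (fun e => x + (-1) * (c e : ℤ) ∈ F₀)).card +
                (UG.filter (fun e => ∃ i < t, ∃ o ∈ O i, x + 1 * (c e : ℤ) = p i + o)).card +
                (UG.filter (fun e => ∃ i < t, ∃ o ∈ O i, x + (-1) * (c e : ℤ) = p i + o)).card) := by
              rw [sel_stps UG (fun e s => x + sgnU s * (c e : ℤ) ∈ selAv N F₀ O σ t p)]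
              have hsub : UG ⊆ (UG.filter (fun e => x + sgnU true * (c e : ℤ) ∈ selAv N F₀ O σ t p) ∪
                  UG.filter (fun e => x + sgnU false * (c e : ℤ) ∈ selAv N F₀ O σ t p)) ∪
                  (((UG.filter (fun e => x + 1 * (c e : ℤ) ∈ F₀) ∪
                  UG.filter (fun e => x + (-1) * (c e : ℤ) ∈ F₀)) ∪
                  UG.filter (fun e => ∃ i < t, ∃ o ∈ O i, x + 1 * (c e : ℤ) = p i + o)) ∪
                  UG.filter (fun e => ∃ i < t, ∃ o ∈ O i, x + (-1) * (c e : ℤ) = p i + o)) := by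
                intro e he
                have ho := hodd e (htr.1 he)
                have h8 := hle e (htr.1 he)
                simp only [mem_union, mem_filter, he, true_and]
                by_contra hcon
                push Not at hcon
                obtain ⟨⟨h1, h2⟩, ⟨⟨h3, h4⟩, h5⟩, h6⟩ := hcon
                have st : sgnU true = 1 := rfl
                have sf : sgnU false = -1 := rfl
                rw [st, mem_selAv, hO0] at h1
                rw [sf, mem_selAv, hO0] at h2
                rcases le_or_gt (2 * x) N with h7 | h7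
                · apply h1
                  refine ⟨by omega, by rw [hσt]; omega, fun o ho0 => ?_⟩
                  rw [mem_singleton] at ho0
                  subst ho0
                  rw [add_zero]
                  exact ⟨by omega, h3, fun i hi o' ho' => h5 i hi o' ho'⟩
                · apply h2
                  refine ⟨by omega, by rw [hσt]; omega, fun o ho0 => ?_⟩
                  rw [mem_singleton] at ho0
                  subst ho0
                  rw [add_zero]
                  exact ⟨by omega, h4, fun i hi o' ho' => h6 i hi o' ho'⟩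
              refine (card_le_card hsub).trans ((card_union_le _ _).trans ?_)
              refine Nat.add_le_add (card_union_le _ _) ?_
              refine (card_union_le _ _).trans (Nat.add_le_add_right ?_ _)
              refine (card_union_le _ _).trans (Nat.add_le_add_right ?_ _)
              exact card_union_le _ _
            have hcov' : (UG.card : ℝ) ≤ (((stps UG).filter (fun s => x + sgnU s.2 * (c s.1 : ℤ) ∈
                selAv N F₀ O σ t p)).card : ℝ) +
                (((UG.filter (fun e => x + 1 * (c e : ℤ) ∈ F₀)).card : ℝ) +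
                ((UG.filter (fun e => x + (-1) * (c e : ℤ) ∈ F₀)).card : ℝ) +
                ((UG.filter (fun e => ∃ i < t, ∃ o ∈ O i, x + 1 * (c e : ℤ) = p i + o)).card : ℝ) +
                ((UG.filter (fun e => ∃ i < t, ∃ o ∈ O i, x + (-1) * (c e : ℤ) = p i + o)).card : ℝ)) := by
              exact_mod_cast hcov
            have g1 := hsh 1 (Or.inl rfl)
            have g2 := hsh (-1) (Or.inr rfl)
            linarith [g1.1, g1.2, g2.1, g2.2]
          have hsum : ∑ y ∈ selAv N F₀ O σ t p, ψ x t y =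
              (((stps UG).filter (fun s => x + sgnU s.2 * (c s.1 : ℤ) ∈ selAv N F₀ O σ t p)).card : ℝ) /
                UG.card := by
            have h1 : ∀ y ∈ selAv N F₀ O σ t p, ψ x t y = (selPsi UG c x y : ℝ) / UG.card := by
              intro y _
              rw [eψ, if_pos hmem]
            rw [sum_congr rfl h1, ← sum_div]
            congr 1
            have h2 := sel_sum (stps UG) (fun s => x + sgnU s.2 * (c s.1 : ℤ)) (selAv N F₀ O σ t p)
            unfold selPsi
            exact_mod_cast h2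
          rw [hsum, le_div_iff₀ hG0]
          have hup' : ((selAv N F₀ O σ t p).card : ℝ) ≤ (N + 1) / 2 := by
            have h1 : 2 * (selAv N F₀ O σ t p).card ≤ N + 1 := by
              have h2 : selAv N F₀ O σ t p ⊆ (range ((N + 1) / 2)).image
                  (fun k : ℕ => (2 * (k : ℤ) + (if σ t = 0 then 2 else 1))) := by
                intro y hy
                obtain ⟨h3, h4, -⟩ := mem_selAv.1 hy
                rw [mem_image]
                rcases hσ t ht with h5 | h5
                · rw [h5] at h4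
                  refine ⟨((y - 2) / 2).toNat, mem_range.2 (by omega), ?_⟩
                  rw [if_pos h5]
                  omega
                · rw [h5] at h4
                  refine ⟨((y - 1) / 2).toNat, mem_range.2 (by omega), ?_⟩
                  rw [if_neg (by rw [h5]; norm_num)]
                  omega
              have h3 := (card_le_card h2).trans card_image_le
              rw [card_range] at h3
              omega
            have h2 : 2 * ((selAv N F₀ O σ t p).card : ℝ) ≤ N + 1 := by exact_mod_cast h1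
            linarith
          have hN1 : (1000 : ℝ) ≤ N := by exact_mod_cast hN
          have h9 : 1 / (N : ℝ) * (selAv N F₀ O σ t p).card ≤ 88 / 100 := by
            rw [one_div, inv_mul_le_iff₀ hN0]
            linarith
          exact (mul_le_mul_of_nonneg_right h9 hG0.le).trans hgood
        · rw [if_neg hmem, zero_mul]
          refine sum_nonneg fun y _ => ?_
          rw [eψ, if_neg hmem])
  have hp1' : ∀ t < T, (1 ≤ p t ∧ p t ≤ N) ∧ p t % 2 = σ t ∧ ∀ o ∈ O t, (1 ≤ p t + o ∧ p t + o ≤ N) ∧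
      p t + o ∉ F₀ ∧ ∀ i < t, ∀ o' ∈ O i, p t + o ≠ p i + o' := fun t ht => mem_selAv.1 (hp1 t ht)
  refine ⟨p, ?_, ?_, ?_, ?_⟩
  · intro t ht
    obtain ⟨-, h1, h2⟩ := hp1' t ht
    exact ⟨h1, fun o ho => ⟨(h2 o ho).1, (h2 o ho).2.1⟩⟩
  · intro t ht t' ht' hne o ho o' ho' he
    rcases Nat.lt_or_gt_of_ne hne with h | h
    · exact ((hp1' t' ht').2.2 o' ho').2.2 t h o ho he.symm
    · exact ((hp1' t ht).2.2 o ho).2.2 t' h o' ho' he
  · intro x hx1 hx2 m hm
    have hτ : (x, m) ∈ TΘ := by
      rw [eT, mem_product, mem_Icc]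
      refine ⟨⟨hx1, hx2⟩, ?_⟩
      rcases hm with h | h | h | h <;> rw [h] <;> simp
    have h1 := hused T p x m (le_refl _)
    have h2 := hp2 (x, m) hτ
    rw [sum_const, card_range, nsmul_eq_mul] at h2
    refine h1.trans ?_
    rw [mul_comm]
    refine mul_le_mul_of_nonneg_right ?_ hU0.le
    have h6 : 2 * ((T : ℝ) * (48 / N)) = 96 * T / N := by ring
    have h7 : 96 * (T : ℝ) / N ≤ 100 * T / N := by
      apply div_le_div_of_nonneg_right _ hN0.le
      have : (0 : ℝ) ≤ T := Nat.cast_nonneg _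
      linarith
    have h8 : 0 ≤ η * Real.log (6 * N) := mul_nonneg hη hL1
    linarith
  · intro x hx
    obtain ⟨ρ, eρ⟩ : ∃ ρ, ρ = (x + 1) % 2 := ⟨_, rfl⟩
    rw [← eρ]
    have hAT : A ρ ⊆ range T := fun t ht => mem_range.2 (hA ρ t ht).1
    have h1 := hp3 x hx
    have e1 : ∑ i ∈ range T, μ' x i = (A ρ).card / (N : ℝ) := by
      have h2 : ∀ i ∈ range T, μ' x i = if i ∈ A ρ then 1 / (N : ℝ) else 0 := fun i _ => by
        rw [eμ', ← eρ]
      rw [sum_congr rfl h2, ← sum_filter, filter_mem_eq_inter, inter_eq_right.2 hAT, sum_const,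
        nsmul_eq_mul]
      ring
    have e2 : ∑ i ∈ range T, ψ x i (p i) = (∑ i ∈ A ρ, (selPsi UG c x (p i) : ℝ)) / UG.card := by
      have h2 : ∀ i ∈ range T, ψ x i (p i) =
          if i ∈ A ρ then (selPsi UG c x (p i) : ℝ) / UG.card else 0 := fun i _ => by
        rw [eψ, ← eρ]
      rw [sum_congr rfl h2, ← sum_filter, filter_mem_eq_inter, inter_eq_right.2 hAT, sum_div]
    have e3 : ∀ inst : DecidablePred (fun s : ι × Bool => ∃ t ∈ A ρ, x + sgnU s.2 * c s.1 = p t),
        (@filter _ (fun s : ι × Bool => ∃ t ∈ A ρ, x + sgnU s.2 * c s.1 = p t) inst (stps UG)).card =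
        ∑ i ∈ A ρ, selPsi UG c x (p i) := by
      intro inst
      have h2 : @filter _ (fun s : ι × Bool => ∃ t ∈ A ρ, x + sgnU s.2 * c s.1 = p t) inst (stps UG) =
          (A ρ).biUnion (fun t => (stps UG).filter (fun s => x + sgnU s.2 * c s.1 = p t)) := by
        ext s
        simp only [mem_filter, mem_biUnion]
        constructor
        · rintro ⟨h3, t, ht, h4⟩
          exact ⟨t, ht, h3, h4⟩
        · rintro ⟨t, ht, h3, h4⟩
          exact ⟨h3, t, ht, h4⟩
      rw [h2, card_biUnion]
      · rfl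
      · intro t ht t' ht' hne
        change Disjoint ((stps UG).filter (fun s => x + sgnU s.2 * c s.1 = p t))
          ((stps UG).filter (fun s => x + sgnU s.2 * c s.1 = p t'))
        rw [disjoint_left]
        intro s hs hs'
        have h3 := (mem_filter.1 hs).2
        have h4 := (mem_filter.1 hs').2
        have h5 : p t + 0 = p t' + 0 := by rw [add_zero, add_zero, ← h3, h4]
        have h6 := (hA ρ t ht)
        have h7 := (hA ρ t' ht')
        rcases Nat.lt_or_gt_of_ne hne with h | h
        · exact ((hp1' t' h7.1).2.2 0 (by rw [h7.2.1]; exact mem_singleton_self _)).2.2 t h 0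
            (by rw [h6.2.1]; exact mem_singleton_self _) h5.symm
        · exact ((hp1' t h6.1).2.2 0 (by rw [h6.2.1]; exact mem_singleton_self _)).2.2 t' h 0
            (by rw [h7.2.1]; exact mem_singleton_self _) h5
    rw [e3]
    rw [e1, e2] at h1
    push_cast
    rw [le_div_iff₀ hG0] at h1
    refine le_trans ?_ h1
    refine mul_le_mul_of_nonneg_right ?_ hG0.le
    have h8 : 0 ≤ η * Real.log (6 * N) := mul_nonneg hη hL1
    have h9 : ((A ρ).card : ℝ) / (4 * N) ≤ (A ρ).card / (N : ℝ) / 2 := by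
      rw [div_div]
      apply div_le_div_of_nonneg_left (Nat.cast_nonneg _) (by positivity)
      linarith
    linarith

end SSB
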