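import Pool.Agent.Lib.MP_8a819d_co.LH.Ext
import Pool.Agent.Lib.MP_8a819d_co.LH.Sel

/-!
# The units `unitsK` are regular

JOB Trk (all of this file): see `trn_floor` in the comment of `Ext.lean`.
-/

set_option autoImplicit false

namespace SSB

open Finset

private theorem trk_filter (S : Finset ℕ) (w f : ℕ → ℕ) (d : ℕ) :
    (unitsW S w).filter (fun e => cW f e = d) = unitsW (S.filter (fun u => f u = d)) w := by
  ext ⟨u, i⟩
  simp only [unitsW, cW, mem_filter, mem_sigma, mem_range]
  tauto

private theorem trk_card (S : Finset ℕ) (w : ℕ → ℕ) : (unitsW S w).card = ∑ u ∈ S, w u := by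
  simp [unitsW, card_sigma]

theorem trn_floor {S : Finset ℕ} {w f : ℕ → ℕ} {K : ℕ} (hK : 1 ≤ K) (hw : ∀ u ∈ S, K ≤ w u) (hf : Set.InjOn f S) :
    Trn (unitsW S w) (unitsK S w K) (cW f) := by
  refine ⟨?_, fun d => ?_⟩
  · rintro ⟨u, i⟩ h
    simp only [unitsK, unitsW, mem_sigma, mem_range] at h ⊢
    exact ⟨h.1, lt_of_lt_of_le h.2 (Nat.div_le_self _ _)⟩
  · have hc := (card_floor hK hw).1
    unfold unitsK at hc ⊢
    rw [trk_filter, trk_filter, trk_card (S.filter (fun u => f u = d)), trk_card (S.filter (fun u => f u = d))]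
    by_cases h : ∃ u ∈ S, f u = d
    · obtain ⟨u, hu, hud⟩ := h
      have hs : S.filter (fun u => f u = d) = {u} := by
        ext x
        simp only [mem_filter, mem_singleton]
        constructor
        · rintro ⟨hx, hxd⟩
          exact hf (mem_coe.2 hx) (mem_coe.2 hu) (hxd.trans hud.symm)
        · rintro rfl
          exact ⟨hu, hud⟩
      rw [hs, sum_singleton, sum_singleton]
      calc w u / K * (unitsW S w).card
          ≤ w u / K * (2 * K * (unitsW S fun u => w u / K).card) := Nat.mul_le_mul_left _ hc
        _ = 2 * ((w u / K * K) * (unitsW S fun u => w u / K).card) := by ring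
        _ ≤ 2 * (w u * (unitsW S fun u => w u / K).card) := by
            apply Nat.mul_le_mul_left
            apply Nat.mul_le_mul_right
            exact Nat.div_mul_le_self _ _
    · have hs : S.filter (fun u => f u = d) = ∅ := by
        rw [filter_eq_empty_iff]
        intro x hx hxd
        exact h ⟨x, hx, hxd⟩
      rw [hs]
      simp

end SSB
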