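import Pool.Agent.Lib.MP_8a819d_co.LH.Lk2
import Pool.Agent.Lib.MP_8a819d_co.LH.StA
import Pool.Agent.Lib.MP_8a819d_co.LH.Jnk
import Pool.Agent.Lib.MP_8a819d_co.LH.Trk
import Pool.Agent.Lib.MP_8a819d_co.LH.RuC
import Pool.Agent.Lib.MP_8a819d_co.LH.RuH
import Pool.Agent.Lib.MP_8a819d_co.LH.RuK

/-!
# MP_8a819d_co: assembly of the absorber with repeated units, 1. Stage A and the cores
-/

set_option autoImplicit false

namespace SSB

open Finset

variable {ι : Type} [DecidableEq ι]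

/-! ### stage A -/

/-- the output of `stageA` -/
structure StAO (N : ℕ) (UG : Finset ι) (c : ι → ℕ) (F₀ : Finset ℤ) (Z : ℤ → Finset ℤ) (q : ι → ℤ) :
    Prop where
  Zc : ∀ ρ : ℤ, ρ = 0 ∨ ρ = 1 → (Z ρ).card = UG.card
  Zm : ∀ ρ : ℤ, ρ = 0 ∨ ρ = 1 → ∀ z ∈ Z ρ, z % 2 = ρ ∧ (1 ≤ z ∧ z ≤ N) ∧ z ∉ F₀
  q0 : ∀ e ∈ UG, q e % 2 = 0 ∧ 1 ≤ q e ∧ q e + c e ≤ N ∧ q e ∉ F₀ ∧ q e + c e ∉ F₀
  qZ : ∀ e ∈ UG, q e ∉ Z 0 ∧ q e + c e ∉ Z 1
  qi : ∀ e ∈ UG, ∀ e' ∈ UG, q e = q e' → e = e'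
  qi' : ∀ e ∈ UG, ∀ e' ∈ UG, q e + c e = q e' + c e' → e = e'

/-- the labels `Z` as natural numbers -/
def zN (Z : ℤ → Finset ℤ) (σ : ℕ) : Finset ℕ := (Z σ).image Int.toNat

/-- the default labels as natural numbers -/
def piN (c : ι → ℕ) (q : ι → ℤ) (σ : ℕ) (e : ι) : ℕ :=
  (if σ = 0 then q e else q e + c e).toNat

variable {N : ℕ} {U UG : Finset ι} {c : ι → ℕ} {F₀ : Finset ℤ} {Z : ℤ → Finset ℤ} {q : ι → ℤ}

theorem zN_mem (h : StAO N UG c F₀ Z q) {σ : ℕ} (hσ : σ < 2) {x : ℕ} (hx : x ∈ zN Z σ) :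
    x % 2 = σ ∧ 1 ≤ x ∧ x ≤ N ∧ (x : ℤ) ∈ Z σ ∧ (x : ℤ) ∉ F₀ := by
  have hρ : (σ : ℤ) = 0 ∨ (σ : ℤ) = 1 := by omega
  obtain ⟨z, hz, rfl⟩ := mem_image.1 hx
  obtain ⟨h1, h2, h3⟩ := h.Zm σ hρ z hz
  rw [Int.toNat_of_nonneg (by omega)]
  exact ⟨by omega, by omega, by omega, hz, h3⟩

theorem zN_card (h : StAO N UG c F₀ Z q) {σ : ℕ} (hσ : σ < 2) : (zN Z σ).card = UG.card := by
  have hρ : (σ : ℤ) = 0 ∨ (σ : ℤ) = 1 := by omega
  rw [← h.Zc σ hρ]
  refine card_image_of_injOn fun x hx y hy hxy => ?_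
  have h1 := (h.Zm σ hρ x hx).2.1
  have h2 := (h.Zm σ hρ y hy).2.1
  have h3 : x.toNat = y.toNat := hxy
  omega

theorem mem_zN (h : StAO N UG c F₀ Z q) {σ : ℕ} (hσ : σ < 2) {z : ℤ} (hz : z ∈ Z σ) :
    z.toNat ∈ zN Z σ := mem_image_of_mem _ hz

theorem piN_mem (h : StAO N UG c F₀ Z q) (ho : ∀ e ∈ UG, c e % 2 = 1) {σ : ℕ} (hσ : σ < 2) {e : ι}
    (he : e ∈ UG) : piN c q σ e % 2 = σ ∧ 1 ≤ piN c q σ e ∧ piN c q σ e ≤ N ∧
      ((piN c q σ e : ℕ) : ℤ) = (if σ = 0 then q e else q e + c e) ∧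
      ((piN c q σ e : ℕ) : ℤ) ∉ F₀ := by
  obtain ⟨h1, h2, h3, h4, h5⟩ := h.q0 e he
  have h6 := ho e he
  unfold piN
  have h7 : σ = 0 ∨ σ = 1 := by omega
  rcases h7 with rfl | rfl
  · rw [if_pos rfl, Int.toNat_of_nonneg (by omega)]
    exact ⟨by omega, by omega, by omega, rfl, h4⟩
  · rw [if_neg (by norm_num), Int.toNat_of_nonneg (by omega)]
    exact ⟨by omega, by omega, by omega, rfl, h5⟩

theorem piN_inj (h : StAO N UG c F₀ Z q) (ho : ∀ e ∈ UG, c e % 2 = 1) {σ : ℕ} (hσ : σ < 2) :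
    Set.InjOn (piN c q σ) UG := by
  intro e he e' he' hee
  have h1 := (piN_mem h ho hσ he).2.2.2.1
  have h2 := (piN_mem h ho hσ he').2.2.2.1
  rw [hee] at h1
  have h3 := h1.symm.trans h2
  by_cases h0 : σ = 0
  · rw [if_pos h0, if_pos h0] at h3
    exact h.qi e he e' he' h3
  · rw [if_neg h0, if_neg h0] at h3
    exact h.qi' e he e' he' h3

theorem piN_dis (h : StAO N UG c F₀ Z q) (ho : ∀ e ∈ UG, c e % 2 = 1) {σ : ℕ} (hσ : σ < 2) :
    Disjoint (zN Z σ) (UG.image (piN c q σ)) := by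
  rw [disjoint_right]
  intro x hx hz
  obtain ⟨e, he, rfl⟩ := mem_image.1 hx
  have h1 := (piN_mem h ho hσ he).2.2.2.1
  have h2 := (zN_mem h hσ hz).2.2.2.1
  rw [h1] at h2
  have h3 := h.qZ e he
  have h7 : σ = 0 ∨ σ = 1 := by omega
  rcases h7 with rfl | rfl
  · rw [if_pos rfl] at h2
    exact h3.1 h2
  · rw [if_neg (by norm_num)] at h2
    exact h3.2 h2

/-- the labels of the templates -/
theorem zp_mem (h : StAO N UG c F₀ Z q) (ho : ∀ e ∈ UG, c e % 2 = 1) {σ : ℕ} (hσ : σ < 2) {x : ℕ}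
    (hx : x ∈ zN Z σ ∪ UG.image (piN c q σ)) :
    x % 2 = σ ∧ 1 ≤ x ∧ x ≤ N ∧ (x : ℤ) ∈ lbA UG c Z q ∧ (x : ℤ) ∉ F₀ := by
  have h7 : σ = 0 ∨ σ = 1 := by omega
  rcases mem_union.1 hx with hx | hx
  · obtain ⟨h1, h2, h3, h4, h5⟩ := zN_mem h hσ hx
    refine ⟨h1, h2, h3, ?_, h5⟩
    unfold lbA
    rcases h7 with rfl | rfl
    · exact mem_union_left _ (mem_union_left _ (mem_union_left _ h4))
    · exact mem_union_left _ (mem_union_left _ (mem_union_right _ h4))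
  · obtain ⟨e, he, rfl⟩ := mem_image.1 hx
    obtain ⟨h1, h2, h3, h4, h5⟩ := piN_mem h ho hσ he
    refine ⟨h1, h2, h3, ?_, h5⟩
    rw [h4]
    unfold lbA
    rcases h7 with rfl | rfl
    · rw [if_pos rfl]
      exact mem_union_left _ (mem_union_right _ (mem_image_of_mem q he))
    · rw [if_neg (by norm_num)]
      exact mem_union_right _ (mem_image_of_mem (fun e => q e + c e) he)

theorem zp_card (h : StAO N UG c F₀ Z q) (ho : ∀ e ∈ UG, c e % 2 = 1) {σ : ℕ} (hσ : σ < 2) :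
    (zN Z σ ∪ UG.image (piN c q σ)).card = 2 * UG.card := by
  rw [card_union_of_disjoint (piN_dis h ho hσ), zN_card h hσ,
    card_image_of_injOn (piN_inj h ho hσ)]
  ring

theorem piN_blk (h : StAO N UG c F₀ Z q) (ho : ∀ e ∈ UG, c e % 2 = 1) {e : ι} (he : e ∈ UG) :
    IsBlock 1 (c e, c e) {piN c q 0 e, piN c q 1 e} := by
  have h1 := (piN_mem h ho (σ := 0) (by norm_num) he)
  have h2 := (piN_mem h ho (σ := 1) (by norm_num) he)
  have h3 := h1.2.2.2.1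
  have h4 := h2.2.2.2.1
  rw [if_pos rfl] at h3
  rw [if_neg (by norm_num)] at h4
  have h5 := ho e he
  refine isBlock_add ?_ ?_ ?_ <;> omega

theorem lbA_card (h : StAO N UG c F₀ Z q) : (lbA UG c Z q).card ≤ 4 * UG.card := by
  unfold lbA
  have h1 := h.Zc 0 (Or.inl rfl)
  have h2 := h.Zc 1 (Or.inr rfl)
  have h3 := card_union_le (Z 0 ∪ Z 1 ∪ UG.image q) (UG.image (fun e => q e + c e))
  have h4 := card_union_le (Z 0 ∪ Z 1) (UG.image q)
  have h5 := card_union_le (Z 0) (Z 1)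
  have h6 : (UG.image q).card ≤ UG.card := card_image_le
  have h7 : (UG.image (fun e => q e + (c e : ℤ))).card ≤ UG.card := card_image_le
  omega

/-! ### cores -/

/-- the offsets of the labels of a core -/
def cO (c1 c2 : ℤ) : Finset ℤ := {0, c2, -c2, c2 + c1, c2 - c1, c1 - c2}

/-- the offsets of the ports -/
def pO (c1 c2 : ℤ) (i : Fin 3) : ℤ := if i = 0 then c2 + c1 else if i = 1 then c2 - c1 else c1 - c2

theorem pO_mem (c1 c2 : ℤ) (i : Fin 3) : pO c1 c2 i ∈ cO c1 c2 := by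
  unfold pO cO
  simp only [mem_insert, mem_singleton]
  split_ifs
  · exact Or.inr (Or.inr (Or.inr (Or.inl rfl)))
  · exact Or.inr (Or.inr (Or.inr (Or.inr (Or.inl rfl))))
  · exact Or.inr (Or.inr (Or.inr (Or.inr (Or.inr rfl))))

theorem pO_inj {c1 c2 : ℕ} (h1 : c1 % 2 = 1) (h2 : c2 % 2 = 1) (h : c1 ≠ c2) {i j : Fin 3}
    (hij : pO c1 c2 i = pO c1 c2 j) : i = j := by
  have hi : i = 0 ∨ i = 1 ∨ i = 2 := by omega
  have hj : j = 0 ∨ j = 1 ∨ j = 2 := by omega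
  have e0 : pO c1 c2 0 = (c2 : ℤ) + c1 := by
    unfold pO
    rw [if_pos rfl]
  have e1 : pO c1 c2 1 = (c2 : ℤ) - c1 := by
    unfold pO
    rw [if_neg (by decide), if_pos rfl]
  have e2 : pO c1 c2 2 = (c1 : ℤ) - c2 := by
    unfold pO
    rw [if_neg (by decide), if_neg (by decide)]
  rcases hi with rfl | rfl | rfl <;> rcases hj with rfl | rfl | rfl <;>
    simp only [e0, e1, e2] at hij <;> first | rfl | (exfalso; omega)

theorem pO_core {c1 c2 : ℕ} (h1 : c1 % 2 = 1) (h2 : c2 % 2 = 1) (h : c1 ≠ c2) (i : Fin 3) :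
    pO c1 c2 i ≠ 0 ∧ pO c1 c2 i ≠ c2 ∧ pO c1 c2 i ≠ -c2 := by
  have hi : i = 0 ∨ i = 1 ∨ i = 2 := by omega
  have e0 : pO c1 c2 0 = (c2 : ℤ) + c1 := by
    unfold pO
    rw [if_pos rfl]
  have e1 : pO c1 c2 1 = (c2 : ℤ) - c1 := by
    unfold pO
    rw [if_neg (by decide), if_pos rfl]
  have e2 : pO c1 c2 2 = (c1 : ℤ) - c2 := by
    unfold pO
    rw [if_neg (by decide), if_neg (by decide)]
  rcases hi with rfl | rfl | rfl
  · rw [e0]
    omega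
  · rw [e1]
    omega
  · rw [e2]
    omega

theorem pO_par {c1 c2 : ℕ} (h1 : c1 % 2 = 1) (h2 : c2 % 2 = 1) (i : Fin 3) :
    pO c1 c2 i % 2 = 0 := by
  have hi : i = 0 ∨ i = 1 ∨ i = 2 := by omega
  have e0 : pO c1 c2 0 = (c2 : ℤ) + c1 := by
    unfold pO
    rw [if_pos rfl]
  have e1 : pO c1 c2 1 = (c2 : ℤ) - c1 := by
    unfold pO
    rw [if_neg (by decide), if_pos rfl]
  have e2 : pO c1 c2 2 = (c1 : ℤ) - c2 := by
    unfold pO
    rw [if_neg (by decide), if_neg (by decide)]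
  rcases hi with rfl | rfl | rfl
  · rw [e0]
    omega
  · rw [e1]
    omega
  · rw [e2]
    omega

/-- the offsets of core `t` -/
def gO (c : ι → ℕ) (g : ℕ → Bool → ι) (t : ℕ) : Finset ℤ := cO (c (g t true)) (c (g t false))

/-- the ports -/
def prt (c : ι → ℕ) (g : ℕ → Bool → ι) (p : ℕ → ℤ) (t : ℕ) (i : Fin 3) : ℤ :=
  p t + pO (c (g t true)) (c (g t false)) i

/-- all the labels of the cores and ports -/
def corL (c : ι → ℕ) (g : ℕ → Bool → ι) (p : ℕ → ℤ) (n : ℕ) : Finset ℤ :=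
  (range n).biUnion (fun t => (gO c g t).image (fun o => p t + o))

/-- the cores -/
structure CorO (N n m0 : ℕ) (U UG : Finset ι) (c : ι → ℕ) (F₁ : Finset ℤ) (g : ℕ → Bool → ι)
    (p : ℕ → ℤ) : Prop where
  gU : ∀ i < n, ∀ s, g i s ∈ U ∧ g i s ∉ UG
  gi : ∀ i < n, ∀ j < n, ∀ s s', g i s = g j s' → i = j ∧ s = s'
  gc : ∀ i < n, c (g i true) ≠ c (g i false)
  ppar : ∀ t < n, p t % 2 = if t < m0 then 0 else 1
  pr : ∀ t < n, ∀ o ∈ gO c g t, (1 ≤ p t + o ∧ p t + o ≤ N) ∧ p t + o ∉ F₁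
  pd : ∀ t < n, ∀ t' < n, t ≠ t' → ∀ o ∈ gO c g t, ∀ o' ∈ gO c g t', p t + o ≠ p t' + o'

theorem mem_corL {g : ℕ → Bool → ι} {p : ℕ → ℤ} {n : ℕ} {x : ℤ} :
    x ∈ corL c g p n ↔ ∃ t < n, ∃ o ∈ gO c g t, x = p t + o := by
  unfold corL
  rw [mem_biUnion]
  constructor
  · rintro ⟨t, ht, hx⟩
    obtain ⟨o, ho, rfl⟩ := mem_image.1 hx
    exact ⟨t, mem_range.1 ht, o, ho, rfl⟩
  · rintro ⟨t, ht, o, ho, rfl⟩
    exact ⟨t, mem_range.2 ht, mem_image_of_mem (fun o => p t + o) ho⟩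

theorem prt_mem {g : ℕ → Bool → ι} {p : ℕ → ℤ} {n t : ℕ} (ht : t < n) (i : Fin 3) :
    prt c g p t i ∈ corL c g p n :=
  mem_corL.2 ⟨t, ht, _, pO_mem _ _ i, rfl⟩

section cor

variable {n m0 : ℕ} {F₁ : Finset ℤ} {g : ℕ → Bool → ι} {p : ℕ → ℤ}

theorem cor_mem (h : CorO N n m0 U UG c F₁ g p) {x : ℤ} (hx : x ∈ corL c g p n) :
    1 ≤ x ∧ x ≤ N ∧ x ∉ F₁ := by
  obtain ⟨t, ht, o, ho, rfl⟩ := mem_corL.1 hx
  obtain ⟨h1, h2⟩ := h.pr t ht o ho
  exact ⟨h1.1, h1.2, h2⟩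

theorem prt_inj (h : CorO N n m0 U UG c F₁ g p) (hodd : ∀ e ∈ U, c e % 2 = 1) {t t' : ℕ} (ht : t < n)
    (ht' : t' < n) {i i' : Fin 3} (he : prt c g p t i = prt c g p t' i') : t = t' ∧ i = i' := by
  by_cases htt : t = t'
  · subst htt
    refine ⟨rfl, ?_⟩
    unfold prt at he
    exact pO_inj (hodd _ (h.gU t ht true).1) (hodd _ (h.gU t ht false).1) (h.gc t ht)
      (add_left_cancel he)
  · exact absurd he (h.pd t ht t' ht' htt _ (pO_mem _ _ i) _ (pO_mem _ _ i'))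

theorem prt_par (h : CorO N n m0 U UG c F₁ g p) (hodd : ∀ e ∈ U, c e % 2 = 1) {t : ℕ} (ht : t < n)
    (i : Fin 3) : prt c g p t i % 2 = if t < m0 then 0 else 1 := by
  have h1 := pO_par (hodd _ (h.gU t ht true).1) (hodd _ (h.gU t ht false).1) i
  have h2 := h.ppar t ht
  unfold prt
  split_ifs at h2 ⊢ <;> omega

end cor

open Classical in
/-- existence of the cores -/
theorem cores_exist [Inhabited ι] {η κ : ℝ} (hN : 1000 ≤ N) (hq : QRU N U c η κ) (htr : Trn U UG c)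
    (hU : U.Nonempty) (hUG : UG.Nonempty) (hη : 0 ≤ η)
    (hη2 : 12 * η * Real.log (6 * N) ≤ 1 / 100) (F₁ : Finset ℤ) (hF₁ : 100 * F₁.card ≤ N) (n m0 : ℕ)
    (hn : 10000 * n ≤ N) (hn2 : (UG.card : ℝ) + 2 * n + η * U.card < U.card) :
    ∃ (g : ℕ → Bool → ι) (p : ℕ → ℤ), CorO N n m0 U UG c F₁ g p ∧
      ∀ x : ℤ, 1 ≤ x → x ≤ N → ∀ m : ℤ, (m = 1 ∨ m = -1 ∨ m = 2 ∨ m = -2) →
        ((U.filter (fun e => x + m * c e ∈ corL c g p n)).card : ℝ) ≤
          (100 * n / N + 12 * η * Real.log (6 * N)) * U.card := by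
  have hm : ∀ d, (U.filter (fun e => c e = d)).card ≤ ⌊η * U.card⌋₊ := by
    intro d
    exact Nat.le_floor (hq.mult d)
  have hn3 : UG.card + 2 * n + ⌊η * U.card⌋₊ < U.card := by
    have h1 := Nat.floor_le (mul_nonneg hη (Nat.cast_nonneg (α := ℝ) U.card))
    have h2 : ((UG.card + 2 * n + ⌊η * U.card⌋₊ : ℕ) : ℝ) < U.card := by
      push_cast
      linarith
    exact_mod_cast h2
  obtain ⟨g, hg1, hg2, hg3⟩ := unit_pairs (Ub := UG) hm n hn3
  have hc8 : ∀ e ∈ U, 8 * c e ≤ N := hq.le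
  obtain ⟨p, hp1, hp2, hp3, -⟩ := sel hN hU hUG hη hη2 hq.odd hq.le hq.mult htr F₁ ∅
    (fun x hx => absurd hx (notMem_empty x)) n (gO c g) (fun t => if t < m0 then 0 else 1)
    (fun t ht => by
      refine ⟨?_, ?_, ?_⟩
      · unfold gO cO
        exact mem_insert_self _ _
      · unfold gO cO
        exact card_le_six
      · intro o ho
        have h1 := hc8 _ (hg1 t ht true).1
        have h2 := hc8 _ (hg1 t ht false).1
        unfold gO cO at ho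
        simp only [mem_insert, mem_singleton] at ho
        rcases ho with rfl | rfl | rfl | rfl | rfl | rfl
        · rw [abs_zero]
          omega
        · rw [abs_of_nonneg (by omega)]
          omega
        · rw [abs_neg, abs_of_nonneg (by omega)]
          omega
        · rw [abs_of_nonneg (by omega)]
          omega
        · have h3 := abs_le.2 (⟨by omega, by omega⟩ : -((c (g t false) : ℤ) + c (g t true)) ≤
            (c (g t false) : ℤ) - c (g t true) ∧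
            (c (g t false) : ℤ) - c (g t true) ≤ (c (g t false) : ℤ) + c (g t true))
          omega
        · have h3 := abs_le.2 (⟨by omega, by omega⟩ : -((c (g t false) : ℤ) + c (g t true)) ≤
            (c (g t true) : ℤ) - c (g t false) ∧
            (c (g t true) : ℤ) - c (g t false) ≤ (c (g t false) : ℤ) + c (g t true))
          omega)
    (fun t _ => by
      by_cases h : t < m0
      · exact Or.inl (if_pos h)
      · exact Or.inr (if_neg h))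
    hF₁ hn (fun _ => ∅) (fun ρ t ht => absurd ht (notMem_empty t))
  refine ⟨g, p, ⟨hg1, hg3, hg2, fun t ht => (hp1 t ht).1, fun t ht => (hp1 t ht).2, hp2⟩, ?_⟩
  intro x hx1 hx2 m hm'
  refine le_trans (le_of_eq ?_) (hp3 x hx1 hx2 m hm')
  have e : U.filter (fun e => x + m * c e ∈ corL c g p n) =
      U.filter (fun e => ∃ t < n, ∃ o ∈ gO c g t, x + m * c e = p t + o) :=
    filter_congr fun e _ => mem_corL
  rw [e]

end SSB
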