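import Pool.Agent.Lib.MP_8a819d_co.LH.AbC1

/-!
# MP_8a819d_co: assembly of the absorber with repeated units, 2. The links
-/

set_option autoImplicit false

namespace SSB

open Finset

/-- double counting -/
theorem sum_mult {ι Λ : Type} [DecidableEq ι] [DecidableEq Λ] (J : Finset Λ) (a : Λ → ℤ) (U : Finset ι)
    (φ : ι → ℤ) (V : Finset ℤ) (k : ℕ) (hV : ∀ j ∈ J, a j ∈ V)
    (hk : ∀ v, (J.filter (fun j => a j = v)).card ≤ k) :
    ∑ j ∈ J, (U.filter (fun e => φ e = a j)).card ≤ k * (U.filter (fun e => φ e ∈ V)).card := by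
  have h1 : ∀ j ∈ J, (U.filter (fun e => φ e = a j)).card =
      ∑ e ∈ U.filter (fun e => φ e ∈ V), if φ e = a j then 1 else 0 := by
    intro j hj
    rw [← card_filter, filter_filter]
    congr 1
    refine filter_congr fun e _ => ⟨fun h => ⟨?_, h⟩, fun h => h.2⟩
    rw [h]
    exact hV j hj
  rw [sum_congr rfl h1, sum_comm]
  have h2 : ∀ e ∈ U.filter (fun e => φ e ∈ V), (∑ j ∈ J, if φ e = a j then 1 else 0) ≤ k := by
    intro e _
    rw [← card_filter]
    refine le_trans (le_of_eq ?_) (hk (φ e))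
    congr 1
    exact filter_congr fun j _ => eq_comm
  refine (sum_le_sum h2).trans ?_
  rw [sum_const, smul_eq_mul, mul_comm]

section lnk

variable {ι : Type} [DecidableEq ι] {N n : ℕ} {U UG : Finset ι} {c : ι → ℕ} {F₀ F₁ : Finset ℤ}
  {Z : ℤ → Finset ℤ} {q : ι → ℤ} {g : ℕ → Bool → ι} {p : ℕ → ℤ} {m : ℕ → ℕ}
  {Lk : ∀ σ, Finset (Fin (m σ) × Fin 3)} {pre : ∀ σ, Fin (m σ) × Fin 3 → (Fin (m σ) × Fin 3) ⊕ ℕ}

/-- the offset of the indices of the cores of parity `σ` -/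
def off (m : ℕ → ℕ) (σ : ℕ) : ℕ := if σ = 0 then 0 else m 0

/-- the new end of a link -/
def lkB (c : ι → ℕ) (g : ℕ → Bool → ι) (p : ℕ → ℤ) (m : ℕ → ℕ)
    (j : Σ σ : ℕ, Fin (m σ) × Fin 3) : ℤ :=
  prt c g p (off m j.1 + j.2.1) j.2.2

/-- the old end of a link -/
def lkA (c : ι → ℕ) (g : ℕ → Bool → ι) (p : ℕ → ℤ) (m : ℕ → ℕ)
    (pre : ∀ σ, Fin (m σ) × Fin 3 → (Fin (m σ) × Fin 3) ⊕ ℕ) (j : Σ σ : ℕ, Fin (m σ) × Fin 3) : ℤ :=
  Sum.elim (fun k : Fin (m j.1) × Fin 3 => lkB c g p m ⟨j.1, k⟩) (fun z : ℕ => (z : ℤ)) (pre j.1 j.2)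

theorem lkA_inl {j : Σ σ : ℕ, Fin (m σ) × Fin 3} {k : Fin (m j.1) × Fin 3}
    (h : pre j.1 j.2 = Sum.inl k) : lkA c g p m pre j = lkB c g p m ⟨j.1, k⟩ := by
  unfold lkA
  rw [h]
  rfl

theorem lkA_inr {j : Σ σ : ℕ, Fin (m σ) × Fin 3} {z : ℕ} (h : pre j.1 j.2 = Sum.inr z) :
    lkA c g p m pre j = (z : ℤ) := by
  unfold lkA
  rw [h]
  rfl

/-- the index of a core -/
theorem off_lt (hn : m 0 + m 1 = n) {σ : ℕ} (hσ : σ < 2) (x : Fin (m σ)) : off m σ + x < n ∧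
    (off m σ + x < m 0 ↔ σ = 0) := by
  have h1 := x.2
  unfold off
  have h2 : σ = 0 ∨ σ = 1 := by omega
  rcases h2 with rfl | rfl
  · rw [if_pos rfl]
    omega
  · rw [if_neg (by norm_num)]
    omega

theorem lkB_inj (hc : CorO N n (m 0) U UG c F₁ g p) (hodd : ∀ e ∈ U, c e % 2 = 1)
    (hn : m 0 + m 1 = n) {j j' : Σ σ : ℕ, Fin (m σ) × Fin 3} (hj : j.1 < 2) (hj' : j'.1 < 2)
    (h : lkB c g p m j = lkB c g p m j') : j = j' := by
  obtain ⟨σ, x, i⟩ := j
  obtain ⟨σ', x', i'⟩ := j'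
  have h1 := off_lt hn hj x
  have h2 := off_lt hn hj' x'
  obtain ⟨h3, h4⟩ := prt_inj hc hodd h1.1 h2.1 h
  have h4' : i = i' := h4
  have h3' : off m σ + (x : ℕ) = off m σ' + (x' : ℕ) := h3
  have h5 : σ = σ' := by
    have h6 : (σ = 0) ↔ (σ' = 0) := by rw [← h1.2, ← h2.2, h3]
    have hj1 : σ < 2 := hj
    have hj1' : σ' < 2 := hj'
    omega
  subst h5
  have h7 : x = x' := Fin.ext (by omega)
  rw [h7, h4']

theorem lkB_mem (hn : m 0 + m 1 = n) {j : Σ σ : ℕ, Fin (m σ) × Fin 3} (hj : j.1 < 2) :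
    lkB c g p m j ∈ corL c g p n := prt_mem (off_lt hn hj j.2.1).1 _

theorem lkB_par (hc : CorO N n (m 0) U UG c F₁ g p) (hodd : ∀ e ∈ U, c e % 2 = 1)
    (hn : m 0 + m 1 = n) {j : Σ σ : ℕ, Fin (m σ) × Fin 3} (hj : j.1 < 2) :
    lkB c g p m j % 2 = j.1 := by
  have h1 := off_lt hn hj j.2.1
  have h2 := prt_par hc hodd h1.1 j.2.2
  unfold lkB
  rw [h2]
  by_cases h3 : j.1 = 0
  · rw [if_pos (h1.2.2 h3), h3]
    rfl
  · rw [if_neg (fun h4 => h3 (h1.2.1 h4))]
    omega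

/-- everything about the labels of the links -/
structure LkH (N n : ℕ) (U UG : Finset ι) (c : ι → ℕ) (F₀ : Finset ℤ) (Z : ℤ → Finset ℤ) (q : ι → ℤ)
    (g : ℕ → Bool → ι) (p : ℕ → ℤ) (M : ℕ) (m : ℕ → ℕ) (Lk : ∀ σ, Finset (Fin (m σ) × Fin 3))
    (pre : ∀ σ, Fin (m σ) × Fin 3 → (Fin (m σ) × Fin 3) ⊕ ℕ) : Prop where
  sta : StAO N UG c F₀ Z q
  UGU : UG ⊆ U
  odd : ∀ e ∈ U, c e % 2 = 1
  cor : CorO N n (m 0) U UG c (F₀ ∪ lbA UG c Z q) g p
  mn : m 0 + m 1 = n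
  hub : ∀ σ < 2, Hub M (zN Z σ ∪ UG.image (piN c q σ)) (m σ) (Lk σ) (pre σ)

variable {M : ℕ}

theorem lkA_cases (H : LkH N n U UG c F₀ Z q g p M m Lk pre) {j : Σ σ : ℕ, Fin (m σ) × Fin 3}
    (hj : j ∈ (range 2).sigma Lk) :
    (∃ k : Fin (m j.1) × Fin 3, pre j.1 j.2 = Sum.inl k ∧ lkA c g p m pre j = lkB c g p m ⟨j.1, k⟩) ∨
      ∃ z : ℕ, pre j.1 j.2 = Sum.inr z ∧ lkA c g p m pre j = (z : ℤ) ∧
        z ∈ zN Z j.1 ∪ UG.image (piN c q j.1) := by
  obtain ⟨hj1, hj2⟩ := mem_sigma.1 hj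
  have hσ := mem_range.1 hj1
  rcases h : pre j.1 j.2 with k | z
  · exact Or.inl ⟨k, rfl, lkA_inl h⟩
  · exact Or.inr ⟨z, rfl, lkA_inr h, (H.hub j.1 hσ).inr j.2 hj2 z h⟩

theorem lkA_mem (H : LkH N n U UG c F₀ Z q g p M m Lk pre) {j : Σ σ : ℕ, Fin (m σ) × Fin 3}
    (hj : j ∈ (range 2).sigma Lk) :
    lkA c g p m pre j ∈ lbA UG c Z q ∪ corL c g p n ∧ lkA c g p m pre j ∉ F₀ ∧
      (1 ≤ lkA c g p m pre j ∧ lkA c g p m pre j ≤ N) ∧ lkA c g p m pre j % 2 = j.1 := by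
  have hσ := mem_range.1 (mem_sigma.1 hj).1
  rcases lkA_cases H hj with ⟨k, -, h2⟩ | ⟨z, -, h2, h3⟩
  · rw [h2]
    have h4 : lkB c g p m ⟨j.1, k⟩ ∈ corL c g p n := lkB_mem H.mn hσ
    obtain ⟨h5, h6, h7⟩ := cor_mem H.cor h4
    exact ⟨mem_union_right _ h4, fun h8 => h7 (mem_union_left _ h8), ⟨h5, h6⟩,
      lkB_par H.cor H.odd H.mn (j := ⟨j.1, k⟩) hσ⟩
  · rw [h2]
    obtain ⟨h4, h5, h6, h7, h8⟩ := zp_mem H.sta (fun e he => H.odd e (H.UGU he)) hσ h3
    exact ⟨mem_union_left _ h7, h8, ⟨by omega, by omega⟩, by omega⟩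

theorem lkB_count (H : LkH N n U UG c F₀ Z q g p M m Lk pre) (v : ℤ) :
    (((range 2).sigma Lk).filter (fun j => lkB c g p m j = v)).card ≤ 1 := by
  rw [card_le_one]
  intro j hj j' hj'
  obtain ⟨h1, h2⟩ := mem_filter.1 hj
  obtain ⟨h1', h2'⟩ := mem_filter.1 hj'
  exact lkB_inj H.cor H.odd H.mn (mem_range.1 (mem_sigma.1 h1).1) (mem_range.1 (mem_sigma.1 h1').1)
    (h2.trans h2'.symm)

theorem lkA_count (H : LkH N n U UG c F₀ Z q g p M m Lk pre) (v : ℤ) :
    (((range 2).sigma Lk).filter (fun j => lkA c g p m pre j = v)).card ≤ 2 := by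
  by_cases hne : (((range 2).sigma Lk).filter (fun j => lkA c g p m pre j = v)).Nonempty
  · obtain ⟨j0, hj0⟩ := hne
    obtain ⟨hj1, hj2⟩ := mem_filter.1 hj0
    have hσ0 := mem_range.1 (mem_sigma.1 hj1).1
    have hpar : ∀ j ∈ ((range 2).sigma Lk).filter (fun j => lkA c g p m pre j = v), j.1 = j0.1 := by
      intro j hj
      obtain ⟨h1, h2⟩ := mem_filter.1 hj
      have h3 := (lkA_mem H h1).2.2.2
      have h4 := (lkA_mem H hj1).2.2.2
      rw [h2] at h3
      rw [hj2] at h4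
      omega
    obtain ⟨σ0, i0⟩ := j0
    rcases lkA_cases H hj1 with ⟨k, h2, h3⟩ | ⟨z, h2, h3, h4⟩
    · have hsub : ((range 2).sigma Lk).filter (fun j => lkA c g p m pre j = v) ⊆
          ((Lk σ0).filter (fun i => pre σ0 i = Sum.inl k)).image (fun i => ⟨σ0, i⟩) := by
        intro j hj
        have hp := hpar j hj
        obtain ⟨h5, h6⟩ := mem_filter.1 hj
        obtain ⟨σ, i⟩ := j
        have hp' : σ = σ0 := hp
        subst hp'
        rw [mem_image]
        refine ⟨i, mem_filter.2 ⟨(mem_sigma.1 h5).2, ?_⟩, rfl⟩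
        rcases lkA_cases H h5 with ⟨k', h7, h8⟩ | ⟨z, h7, h8, h9⟩
        · have h10 : lkB c g p m ⟨σ, k'⟩ = lkB c g p m ⟨σ, k⟩ := by
            rw [← h3, ← h8, h6, hj2]
          have h11 := lkB_inj H.cor H.odd H.mn (j := ⟨σ, k'⟩) (j' := ⟨σ, k⟩) hσ0 hσ0 h10
          have h12 : k' = k := eq_of_heq (Sigma.mk.inj h11).2
          rw [h7, h12]
        · exfalso
          have h10 : lkB c g p m ⟨σ, k⟩ ∈ corL c g p n := lkB_mem H.mn hσ0
          have h11 := (cor_mem H.cor h10).2.2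
          have h12 := zp_mem H.sta (fun e he => H.odd e (H.UGU he)) hσ0 h9
          apply h11
          have h13 : lkB c g p m ⟨σ, k⟩ = (z : ℤ) := by
            rw [← h3, hj2, ← h6, h8]
          rw [h13]
          exact mem_union_right _ h12.2.2.2.1
      refine (card_le_card hsub).trans (card_image_le.trans ?_)
      have h5 := (H.hub σ0 hσ0).deg1 k
      omega
    · have hsub : ((range 2).sigma Lk).filter (fun j => lkA c g p m pre j = v) ⊆
          ((Lk σ0).filter (fun i => pre σ0 i = Sum.inr z)).image (fun i => ⟨σ0, i⟩) := by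
        intro j hj
        have hp := hpar j hj
        obtain ⟨h5, h6⟩ := mem_filter.1 hj
        obtain ⟨σ, i⟩ := j
        have hp' : σ = σ0 := hp
        subst hp'
        rw [mem_image]
        refine ⟨i, mem_filter.2 ⟨(mem_sigma.1 h5).2, ?_⟩, rfl⟩
        rcases lkA_cases H h5 with ⟨k', h7, h8⟩ | ⟨z', h7, h8, h9⟩
        · exfalso
          have h10 : lkB c g p m ⟨σ, k'⟩ ∈ corL c g p n := lkB_mem H.mn hσ0
          have h11 := (cor_mem H.cor h10).2.2
          have h12 := zp_mem H.sta (fun e he => H.odd e (H.UGU he)) hσ0 h4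
          apply h11
          have h13 : lkB c g p m ⟨σ, k'⟩ = (z : ℤ) := by
            rw [← h8, h6, ← hj2, h3]
          rw [h13]
          exact mem_union_right _ h12.2.2.2.1
        · have h10 : (z' : ℤ) = (z : ℤ) := by
            rw [← h8, h6, ← hj2, h3]
          have h11 : z' = z := by exact_mod_cast h10
          rw [h7, h11]
      refine (card_le_card hsub).trans (card_image_le.trans ?_)
      exact (H.hub σ0 hσ0).deg2 z
  · rw [not_nonempty_iff_eq_empty.1 hne, card_empty]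
    norm_num

/-- the chosen links -/
structure LnkO (N n : ℕ) (U UG : Finset ι) (c : ι → ℕ) (F₀ : Finset ℤ) (Z : ℤ → Finset ℤ) (q : ι → ℤ)
    (g : ℕ → Bool → ι) (p : ℕ → ℤ) (m : ℕ → ℕ) (Lk : ∀ σ, Finset (Fin (m σ) × Fin 3))
    (pre : ∀ σ, Fin (m σ) × Fin 3 → (Fin (m σ) × Fin 3) ⊕ ℕ)
    (l : (Σ σ : ℕ, Fin (m σ) × Fin 3) → List (ι × Bool)) : Prop where
  ok : ∀ j ∈ (range 2).sigma Lk, 1 ≤ (l j).length ∧
    l j ∈ wks N U c (l j).length (lkA c g p m pre j) (lkB c g p m j) ∧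
    Clean c (F₀ ∪ lbA UG c Z q ∪ corL c g p n)
      (UG ∪ (range n).biUnion (fun t => {g t true, g t false})) (lkA c g p m pre j) (l j)
  ds : ∀ i ∈ (range 2).sigma Lk, ∀ j ∈ (range 2).sigma Lk, i ≠ j →
    (∀ e, e ∈ (l i).map Prod.fst → e ∉ (l j).map Prod.fst) ∧
      ∀ y, y ∈ wlab c (lkA c g p m pre i) (l i) → y ∉ wlab c (lkA c g p m pre j) (l j)

theorem links_exist {κ : ℝ} (H : LkH N n U UG c F₀ Z q g p M m Lk pre)
    (hLk : LinksOK N U c κ) (hκ : 0 ≤ κ)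
    (hreg : ∀ x : ℤ, 1 ≤ x → x ≤ N → x ∉ F₀ → Rgl U c (κ / 4) F₀ x)
    (hA : ∀ x : ℤ, 1 ≤ x → x ≤ N → ∀ m : ℤ, (m = 1 ∨ m = -1 ∨ m = 2 ∨ m = -2) →
      ((U.filter (fun e => x + m * c e ∈ lbA UG c Z q)).card : ℝ) ≤ κ / 8 * U.card)
    (hC : ∀ x : ℤ, 1 ≤ x → x ≤ N → ∀ m : ℤ, (m = 1 ∨ m = -1 ∨ m = 2 ∨ m = -2) →
      ((U.filter (fun e => x + m * c e ∈ corL c g p n)).card : ℝ) ≤ κ / 8 * U.card)
    (hUb : (UG.card : ℝ) + 2 * n ≤ κ * U.card)
    (hJ1 : 2 * (n : ℝ) + 2 * M ≤ κ * U.card) (hJ2 : 2 * (n : ℝ) + 2 * M ≤ κ * N) :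
    ∃ l, LnkO N n U UG c F₀ Z q g p m Lk pre l := by
  have hJc : ((range 2).sigma Lk).card = 2 * n + 2 * M := by
    rw [card_sigma, sum_range_succ, sum_range_one, (H.hub 0 (by norm_num)).card,
      (H.hub 1 (by norm_num)).card]
    have h1 := H.mn
    omega
  have hJc' : (((range 2).sigma Lk).card : ℝ) = 2 * n + 2 * M := by
    rw [hJc]
    push_cast
    ring
  have hU0 : (0 : ℝ) ≤ U.card := Nat.cast_nonneg _
  have hbm : ∀ j ∈ (range 2).sigma Lk, lkB c g p m j ∈ corL c g p n := fun j hj =>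
    lkB_mem H.mn (mem_range.1 (mem_sigma.1 hj).1)
  have hAC : ∀ x : ℤ, 1 ≤ x → x ≤ N → ∀ m : ℤ, (m = 1 ∨ m = -1 ∨ m = 2 ∨ m = -2) →
      ((U.filter (fun e => x + m * c e ∈ lbA UG c Z q ∪ corL c g p n)).card : ℝ) ≤
        κ / 4 * U.card := by
    intro x h1 h2 m hm
    have h3 : (U.filter (fun e => x + m * c e ∈ lbA UG c Z q ∪ corL c g p n)).card ≤
        (U.filter (fun e => x + m * c e ∈ lbA UG c Z q)).card +
          (U.filter (fun e => x + m * c e ∈ corL c g p n)).card := by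
      refine le_trans (card_le_card ?_) (card_union_le _ _)
      intro e he
      obtain ⟨h4, h5⟩ := mem_filter.1 he
      rcases mem_union.1 h5 with h6 | h6
      · exact mem_union_left _ (mem_filter.2 ⟨h4, h6⟩)
      · exact mem_union_right _ (mem_filter.2 ⟨h4, h6⟩)
    have h3' : ((U.filter (fun e => x + m * c e ∈ lbA UG c Z q ∪ corL c g p n)).card : ℝ) ≤
        ((U.filter (fun e => x + m * c e ∈ lbA UG c Z q)).card : ℝ) +
          ((U.filter (fun e => x + m * c e ∈ corL c g p n)).card : ℝ) := by exact_mod_cast h3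
    have h4 := hA x h1 h2 m hm
    have h5 := hC x h1 h2 m hm
    linarith
  obtain ⟨l, hl1, hl2⟩ := hLk (Σ σ : ℕ, Fin (m σ) × Fin 3) ((range 2).sigma Lk) (lkA c g p m pre)
    (lkB c g p m) (F₀ ∪ lbA UG c Z q ∪ corL c g p n)
    (UG ∪ (range n).biUnion (fun t => {g t true, g t false}))
    (fun j hj => (lkA_mem H hj).2.2.1)
    (fun j hj => ⟨(cor_mem H.cor (hbm j hj)).1, (cor_mem H.cor (hbm j hj)).2.1⟩)
    (fun j hj => by
      have h1 := (lkA_mem H hj).2.2.2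
      have h2 := lkB_par H.cor H.odd H.mn (mem_range.1 (mem_sigma.1 hj).1)
      omega)
    (fun x hx hxF => by
      have hx0 : x ∉ F₀ := by
        rcases hxF with h1 | ⟨j, hj, h1 | h1⟩
        · exact fun h2 => h1 (mem_union_left _ (mem_union_left _ h2))
        · rw [h1]
          exact (lkA_mem H hj).2.1
        · rw [h1]
          exact fun h2 => (cor_mem H.cor (hbm j hj)).2.2 (mem_union_left _ h2)
      intro k hk
      have h1 := hreg x hx.1 hx.2 hx0 k hk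
      have h2 := hAC x hx.1 hx.2 k hk
      have h3 : (U.filter (fun e => x + k * c e ∈ F₀ ∪ lbA UG c Z q ∪ corL c g p n)).card ≤
          (U.filter (fun e => x + k * c e ∈ F₀)).card +
            (U.filter (fun e => x + k * c e ∈ lbA UG c Z q ∪ corL c g p n)).card := by
        refine le_trans (card_le_card ?_) (card_union_le _ _)
        intro e he
        obtain ⟨h4, h5⟩ := mem_filter.1 he
        rw [union_assoc] at h5
        rcases mem_union.1 h5 with h6 | h6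
        · exact mem_union_left _ (mem_filter.2 ⟨h4, h6⟩)
        · exact mem_union_right _ (mem_filter.2 ⟨h4, h6⟩)
      have h3' : ((U.filter (fun e => x + k * c e ∈ F₀ ∪ lbA UG c Z q ∪ corL c g p n)).card : ℝ) ≤
          ((U.filter (fun e => x + k * c e ∈ F₀)).card : ℝ) +
            ((U.filter (fun e => x + k * c e ∈ lbA UG c Z q ∪ corL c g p n)).card : ℝ) := by
        exact_mod_cast h3
      have h4 : 0 ≤ κ * (U.card : ℝ) := mul_nonneg hκ hU0
      linarith)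
    (by
      have h1 := card_union_le UG ((range n).biUnion (fun t => ({g t true, g t false} : Finset ι)))
      have h2 : ((range n).biUnion (fun t => ({g t true, g t false} : Finset ι))).card ≤ n * 2 := by
        have h3 : ∀ t ∈ range n, ({g t true, g t false} : Finset ι).card ≤ 2 := fun t _ =>
          card_le_two
        have h4 := card_biUnion_le_card_mul (range n) (fun t => ({g t true, g t false} : Finset ι)) 2 h3
        rwa [card_range] at h4
      have h3 : ((UG ∪ (range n).biUnion (fun t => ({g t true, g t false} : Finset ι))).card : ℝ) ≤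
          UG.card + 2 * n := by
        have h4 : (UG ∪ (range n).biUnion (fun t => ({g t true, g t false} : Finset ι))).card ≤
            UG.card + 2 * n := by omega
        exact_mod_cast h4
      linarith)
    (by rw [hJc']; exact hJ1) (by rw [hJc']; exact hJ2)
    (fun x hx1 hx2 k hk => by
      have h1 := sum_mult ((range 2).sigma Lk) (lkA c g p m pre) U (fun e => x + k * c e)
        (lbA UG c Z q ∪ corL c g p n) 2 (fun j hj => (lkA_mem H hj).1) (lkA_count H)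
      have h2 := hAC x hx1 hx2 k hk
      have h1' : (∑ j ∈ (range 2).sigma Lk, ((U.filter (fun e => x + k * c e = lkA c g p m pre j)).card : ℝ)) ≤
          2 * ((U.filter (fun e => x + k * c e ∈ lbA UG c Z q ∪ corL c g p n)).card : ℝ) := by
        exact_mod_cast h1
      have h4 : 0 ≤ κ * (U.card : ℝ) := mul_nonneg hκ hU0
      linarith)
    (fun x hx1 hx2 k hk => by
      have h1 := sum_mult ((range 2).sigma Lk) (lkB c g p m) U (fun e => x + k * c e)
        (corL c g p n) 1 hbm (lkB_count H)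
      have h2 := hC x hx1 hx2 k hk
      have h1' : (∑ j ∈ (range 2).sigma Lk, ((U.filter (fun e => x + k * c e = lkB c g p m j)).card : ℝ)) ≤
          1 * ((U.filter (fun e => x + k * c e ∈ corL c g p n)).card : ℝ) := by
        exact_mod_cast h1
      have h4 : 0 ≤ κ * (U.card : ℝ) := mul_nonneg hκ hU0
      linarith)
  exact ⟨l, ⟨hl1, hl2⟩⟩

end lnk

end SSB
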