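import Pool.Agent.Lib.MP_8a819d_co.LH.AbC2

/-!
# MP_8a819d_co: assembly of the absorber with repeated units, 3. The hubs
-/

set_option autoImplicit false

namespace SSB

open Finset

/-- the core with three ports -/
theorem core_three {υ : Type*} [DecidableEq υ] {ℓ : υ → ℕ} {p c1 c2 q : ℕ} {u v : υ} (huv : u ≠ v)
    (hu : ℓ u = c1) (hv : ℓ v = c2) (h1 : 1 ≤ c1) (h2 : 1 ≤ c2) (h3 : c1 ≠ c2) (h4 : c1 ≠ 2 * c2)
    (h5 : c2 < p) (h6 : c1 < p + c2)
    (hq : q = p + c2 + c1 ∨ q = p + c2 - c1 ∨ q = p - c2 + c1) :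
    MatchU {u, v} ℓ (insert q {p - c2, p, p + c2}) := by
  have hpu : ∀ a b, b = a + c1 → a ≠ 0 → IsBlock 1 (ℓ u, ℓ u) {a, b} := fun a b h ha => by
    rw [hu]
    exact isBlock_add h ha (by omega)
  have hpv : ∀ a b, b = a + c2 → a ≠ 0 → IsBlock 1 (ℓ v, ℓ v) {a, b} := fun a b h ha => by
    rw [hv]
    exact isBlock_add h ha (by omega)
  have key : ∀ A B : Finset ℕ, IsBlock 1 (ℓ u, ℓ u) A → IsBlock 1 (ℓ v, ℓ v) B → Disjoint A B →
      MatchU {u, v} ℓ (A ∪ B) := by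
    intro A B hA hB hAB
    have h7 := matchU_union (matchU_single hA) (matchU_single hB) (disjoint_singleton.2 huv) hAB
    rwa [← insert_eq] at h7
  rcases hq with rfl | rfl | rfl
  · have h := key _ _ (hpu (p + c2) (p + c2 + c1) rfl (by omega))
      (hpv (p - c2) p (by omega) (by omega)) (by
        simp only [disjoint_insert_left, disjoint_singleton_left, mem_insert, mem_singleton, not_or]
        omega)
    have e : ({p + c2, p + c2 + c1} : Finset ℕ) ∪ {p - c2, p} =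
        insert (p + c2 + c1) {p - c2, p, p + c2} := by
      ext t
      simp only [mem_insert, mem_union, mem_singleton]
      tauto
    rwa [e] at h
  · have h := key _ _ (hpu (p + c2 - c1) (p + c2) (by omega) (by omega))
      (hpv (p - c2) p (by omega) (by omega)) (by
        simp only [disjoint_insert_left, disjoint_singleton_left, mem_insert, mem_singleton, not_or]
        omega)
    have e : ({p + c2 - c1, p + c2} : Finset ℕ) ∪ {p - c2, p} =
        insert (p + c2 - c1) {p - c2, p, p + c2} := by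
      ext t
      simp only [mem_insert, mem_union, mem_singleton]
      tauto
    rwa [e] at h
  · have h := key _ _ (hpu (p - c2) (p - c2 + c1) rfl (by omega))
      (hpv p (p + c2) rfl (by omega)) (by
        simp only [disjoint_insert_left, disjoint_singleton_left, mem_insert, mem_singleton, not_or]
        omega)
    have e : ({p - c2, p - c2 + c1} : Finset ℕ) ∪ {p, p + c2} =
        insert (p - c2 + c1) {p - c2, p, p + c2} := by
      ext t
      simp only [mem_insert, mem_union, mem_singleton]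
      tauto
    rwa [e] at h

section hubs

variable {ι : Type} [DecidableEq ι] {N n M : ℕ} {U UG : Finset ι} {c : ι → ℕ} {F₀ F₁ : Finset ℤ}
  {Z : ℤ → Finset ℤ} {q : ι → ℤ} {g : ℕ → Bool → ι} {p : ℕ → ℤ} {m : ℕ → ℕ}
  {Lk : ∀ σ, Finset (Fin (m σ) × Fin 3)} {pre : ∀ σ, Fin (m σ) × Fin 3 → (Fin (m σ) × Fin 3) ⊕ ℕ}
  {l : (Σ σ : ℕ, Fin (m σ) × Fin 3) → List (ι × Bool)} {m0 : ℕ}

/-- the labels of the core `t` -/
def kN (c : ι → ℕ) (g : ℕ → Bool → ι) (p : ℕ → ℤ) (t : ℕ) : Finset ℕ :=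
  {(p t).toNat - c (g t false), (p t).toNat, (p t).toNat + c (g t false)}

/-- the ports of the core `t` -/
def eN (c : ι → ℕ) (g : ℕ → Bool → ι) (p : ℕ → ℤ) (t : ℕ) (i : Fin 3) : ℕ := (prt c g p t i).toNat

/-- the units of the core `t` -/
def uN (g : ℕ → Bool → ι) (t : ℕ) : Finset ι := {g t true, g t false}

theorem eN_cast (h : CorO N n m0 U UG c F₁ g p) {t : ℕ} (ht : t < n) (i : Fin 3) :
    ((eN c g p t i : ℕ) : ℤ) = prt c g p t i := by
  have h1 := (cor_mem h (prt_mem (c := c) (g := g) (p := p) ht i)).1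
  unfold eN
  rw [Int.toNat_of_nonneg (by omega)]

private theorem ab_off (h : CorO N n m0 U UG c F₁ g p) {t : ℕ} (ht : t < n) :
    1 ≤ p t ∧ 1 ≤ p t + c (g t false) ∧ 1 ≤ p t - c (g t false) ∧
      1 ≤ p t + c (g t false) - c (g t true) ∧ 1 ≤ p t + c (g t true) - c (g t false) := by
  have h0 : ∀ o ∈ gO c g t, 1 ≤ p t + o := fun o ho => (h.pr t ht o ho).1.1
  unfold gO cO at h0
  have a0 := h0 0 (by simp)
  have a1 := h0 (c (g t false)) (by simp)
  have a2 := h0 (-(c (g t false) : ℤ)) (by simp)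
  have a3 := h0 ((c (g t false) : ℤ) - c (g t true)) (by simp)
  have a4 := h0 ((c (g t true) : ℤ) - c (g t false)) (by simp)
  omega

theorem kN_mem (h : CorO N n m0 U UG c F₁ g p) {t : ℕ} (ht : t < n) {x : ℕ} (hx : x ∈ kN c g p t) :
    ∃ o ∈ gO c g t, (x : ℤ) = p t + o ∧ (o = 0 ∨ o = c (g t false) ∨ o = -c (g t false)) := by
  obtain ⟨b0, b1, b2, b3, b4⟩ := ab_off h ht
  unfold kN at hx
  rw [mem_insert, mem_insert, mem_singleton] at hx
  rcases hx with rfl | rfl | rfl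
  · refine ⟨-(c (g t false) : ℤ), ?_, ?_, Or.inr (Or.inr rfl)⟩
    · unfold gO cO
      simp
    · omega
  · refine ⟨0, ?_, ?_, Or.inl rfl⟩
    · unfold gO cO
      simp
    · omega
  · refine ⟨c (g t false), ?_, ?_, Or.inr (Or.inl rfl)⟩
    · unfold gO cO
      simp
    · omega

/-- labels of cores and ports -/
theorem kN_fact (h : CorO N n m0 U UG c F₁ g p) {t : ℕ} (ht : t < n) {x : ℕ} (hx : x ∈ kN c g p t) :
    (x : ℤ) ∈ corL c g p n ∧ 1 ≤ x ∧ x ≤ N ∧ (x : ℤ) ∉ F₁ := by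
  obtain ⟨o, ho, hx1, -⟩ := kN_mem h ht hx
  have h1 : (x : ℤ) ∈ corL c g p n := mem_corL.2 ⟨t, ht, o, ho, hx1⟩
  obtain ⟨h2, h3, h4⟩ := cor_mem h h1
  exact ⟨h1, by omega, by omega, h4⟩

theorem eN_fact (h : CorO N n m0 U UG c F₁ g p) {t : ℕ} (ht : t < n) (i : Fin 3) :
    ((eN c g p t i : ℕ) : ℤ) ∈ corL c g p n ∧ 1 ≤ eN c g p t i ∧ eN c g p t i ≤ N ∧
      ((eN c g p t i : ℕ) : ℤ) ∉ F₁ := by
  have h1 : ((eN c g p t i : ℕ) : ℤ) ∈ corL c g p n := by
    rw [eN_cast h ht i]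
    exact prt_mem ht i
  obtain ⟨h2, h3, h4⟩ := cor_mem h h1
  exact ⟨h1, by omega, by omega, h4⟩

theorem kN_dis (h : CorO N n m0 U UG c F₁ g p) {t t' : ℕ} (ht : t < n) (ht' : t' < n) {x : ℕ}
    (hx : x ∈ kN c g p t) (hx' : x ∈ kN c g p t') : t = t' := by
  by_contra hne
  obtain ⟨o, ho, hx1, -⟩ := kN_mem h ht hx
  obtain ⟨o', ho', hx1', -⟩ := kN_mem h ht' hx'
  exact h.pd t ht t' ht' hne o ho o' ho' (hx1.symm.trans hx1')

theorem eN_kN (h : CorO N n m0 U UG c F₁ g p) (hodd : ∀ e ∈ U, c e % 2 = 1) {t t' : ℕ} (ht : t < n)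
    (ht' : t' < n) (i : Fin 3) : eN c g p t i ∉ kN c g p t' := by
  intro hx
  obtain ⟨o, ho, hx1, hx2⟩ := kN_mem h ht' hx
  rw [eN_cast h ht i] at hx1
  by_cases hne : t = t'
  · subst hne
    unfold prt at hx1
    have h1 : pO (c (g t true)) (c (g t false)) i = o := add_left_cancel hx1
    have h2 := pO_core (hodd _ (h.gU t ht true).1) (hodd _ (h.gU t ht false).1) (h.gc t ht) i
    rw [h1] at h2
    rcases hx2 with h3 | h3 | h3
    · exact h2.1 h3
    · exact h2.2.1 h3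
    · exact h2.2.2 h3
  · exact h.pd t ht t' ht' hne _ (pO_mem _ _ i) o ho hx1

theorem eN_inj (h : CorO N n m0 U UG c F₁ g p) (hodd : ∀ e ∈ U, c e % 2 = 1) {t t' : ℕ} (ht : t < n)
    (ht' : t' < n) {i i' : Fin 3} (he : eN c g p t i = eN c g p t' i') : t = t' ∧ i = i' := by
  refine prt_inj h hodd ht ht' ?_
  rw [← eN_cast h ht i, ← eN_cast h ht' i', he]

theorem core_ok (h : CorO N n m0 U UG c F₁ g p) (hodd : ∀ e ∈ U, c e % 2 = 1) {t : ℕ} (ht : t < n)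
    (i : Fin 3) : MatchU (uN g t) c (insert (eN c g p t i) (kN c g p t)) := by
  obtain ⟨b0, b1, b2, b3, b4⟩ := ab_off h ht
  have o1 := hodd _ (h.gU t ht true).1
  have o2 := hodd _ (h.gU t ht false).1
  have hne := h.gc t ht
  have hgg : g t true ≠ g t false := fun h1 => by
    have h2 := (h.gi t ht t ht true false h1).2
    exact absurd h2 (by decide)
  have hx1 := eN_cast h ht i
  unfold uN kN
  refine core_three hgg rfl rfl (by omega) (by omega) hne (by omega) (by omega) (by omega) ?_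
  have hi : i = 0 ∨ i = 1 ∨ i = 2 := by omega
  unfold prt pO at hx1
  rcases hi with rfl | rfl | rfl
  · rw [if_pos rfl] at hx1
    exact Or.inl (by omega)
  · rw [if_neg (by decide), if_pos rfl] at hx1
    exact Or.inr (Or.inl (by omega))
  · rw [if_neg (by decide), if_neg (by decide)] at hx1
    exact Or.inr (Or.inr (by omega))

/-- the labels of the links -/
theorem lN_fact (H : LkH N n U UG c F₀ Z q g p M m Lk pre)
    (O : LnkO N n U UG c F₀ Z q g p m Lk pre l) {j : Σ σ : ℕ, Fin (m σ) × Fin 3}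
    (hj : j ∈ (range 2).sigma Lk) {x : ℕ} (hx : x ∈ wlabN c (lkA c g p m pre j) (l j)) :
    (1 ≤ x ∧ x ≤ N) ∧ (x : ℤ) ∉ F₀ ∪ lbA UG c Z q ∪ corL c g p n ∧
      (x : ℤ) ∈ wlab c (lkA c g p m pre j) (l j) := by
  obtain ⟨h1, h2, h3⟩ := O.ok j hj
  obtain ⟨-, -, ha, -⟩ := lkA_mem H hj
  obtain ⟨h4, h5⟩ := walk_labels h2 ha.1 ha.2 h3
  have h6 := mem_Icc.1 (h4 hx)
  refine ⟨h6, h5 x hx, ?_⟩
  have h7 := (wks_pos h2 ha.1 ha.2).2.2.1
  unfold wlabN at hx
  obtain ⟨y, hy, rfl⟩ := mem_image.1 hx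
  have h8 := h7 y (List.mem_toFinset.1 hy)
  rw [Int.toNat_of_nonneg (by omega)]
  exact List.mem_toFinset.1 hy

theorem lN_dis (H : LkH N n U UG c F₀ Z q g p M m Lk pre)
    (O : LnkO N n U UG c F₀ Z q g p m Lk pre l) {i j : Σ σ : ℕ, Fin (m σ) × Fin 3}
    (hi : i ∈ (range 2).sigma Lk) (hj : j ∈ (range 2).sigma Lk) (hij : i ≠ j) :
    Disjoint (wlabN c (lkA c g p m pre i) (l i)) (wlabN c (lkA c g p m pre j) (l j)) ∧
      Disjoint (wunits (l i)) (wunits (l j)) := by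
  obtain ⟨h1, h2⟩ := O.ds i hi j hj hij
  constructor
  · rw [disjoint_left]
    intro x hx hx'
    exact h2 x (lN_fact H O hi hx).2.2 (lN_fact H O hj hx').2.2
  · rw [disjoint_left]
    intro e he he'
    unfold wunits at he he'
    rw [List.mem_toFinset] at he he'
    exact h1 e he he'

theorem lU_fact (H : LkH N n U UG c F₀ Z q g p M m Lk pre)
    (O : LnkO N n U UG c F₀ Z q g p m Lk pre l) {j : Σ σ : ℕ, Fin (m σ) × Fin 3}
    (hj : j ∈ (range 2).sigma Lk) : wunits (l j) ⊆ U ∧ Disjoint (wunits (l j)) UG ∧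
      ∀ t < n, Disjoint (uN g t) (wunits (l j)) := by
  obtain ⟨h1, h2, h3⟩ := O.ok j hj
  obtain ⟨-, -, ha, -⟩ := lkA_mem H hj
  obtain ⟨h4, h5, -⟩ := walk_units h2 ha.1 ha.2 h3
  rw [disjoint_union_right, disjoint_biUnion_right] at h5
  exact ⟨h4, h5.1, fun t ht => (h5.2 t (mem_range.2 ht)).symm⟩

theorem uN_fact (h : CorO N n m0 U UG c F₁ g p) {t : ℕ} (ht : t < n) : uN g t ⊆ U ∧
    Disjoint (uN g t) UG := by
  constructor
  · intro e he
    unfold uN at he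
    rw [mem_insert, mem_singleton] at he
    rcases he with rfl | rfl
    · exact (h.gU t ht true).1
    · exact (h.gU t ht false).1
  · unfold uN
    rw [disjoint_insert_left, disjoint_singleton_left]
    exact ⟨(h.gU t ht true).2, (h.gU t ht false).2⟩

theorem uN_dis (h : CorO N n m0 U UG c F₁ g p) {t t' : ℕ} (ht : t < n) (ht' : t' < n)
    (hne : t ≠ t') : Disjoint (uN g t) (uN g t') := by
  have h1 : ∀ s s', g t s ≠ g t' s' := fun s s' h2 => hne (h.gi t ht t' ht' s s' h2).1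
  unfold uN
  simp only [disjoint_insert_left, disjoint_singleton_left, mem_insert, mem_singleton, not_or]
  exact ⟨⟨h1 _ _, h1 _ _⟩, h1 _ _, h1 _ _⟩

/-- the hubs and links are real -/
theorem hubC_mk (H : LkH N n U UG c F₀ Z q g p M m Lk pre)
    (O : LnkO N n U UG c F₀ Z q g p m Lk pre l) {σ : ℕ} (hσ : σ < 2) :
    HubC c (zN Z σ ∪ UG.image (piN c q σ)) (Lk σ) (pre σ)
      (fun k => eN c g p (off m σ + k.1) k.2) (fun x => kN c g p (off m σ + x))
      (fun x => uN g (off m σ + x)) (fun k => wlabN c (lkA c g p m pre ⟨σ, k⟩) (l ⟨σ, k⟩))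
      (fun k => wunits (l ⟨σ, k⟩)) := by
  have ho : ∀ x : Fin (m σ), off m σ + (x : ℕ) < n := fun x => (off_lt H.mn hσ x).1
  have hJ : ∀ k ∈ Lk σ, (⟨σ, k⟩ : Σ σ : ℕ, Fin (m σ) × Fin 3) ∈ (range 2).sigma Lk := fun k hk =>
    mem_sigma.2 ⟨mem_range.2 hσ, hk⟩
  have hUG : ∀ e ∈ UG, c e % 2 = 1 := fun e he => H.odd e (H.UGU he)
  have hpos : ∀ e ∈ U, 1 ≤ c e := fun e he => by
    have := H.odd e he
    omega
  have hbF : ∀ j : Σ σ : ℕ, Fin (m σ) × Fin 3, j.1 < 2 →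
      lkB c g p m j ∈ F₀ ∪ lbA UG c Z q ∪ corL c g p n := fun j hj =>
    mem_union_right _ (lkB_mem H.mn hj)
  have haF : ∀ j ∈ (range 2).sigma Lk,
      lkA c g p m pre j ∈ F₀ ∪ lbA UG c Z q ∪ corL c g p n := by
    intro j hj
    rcases mem_union.1 (lkA_mem H hj).1 with h1 | h1
    · exact mem_union_left _ (mem_union_right _ h1)
    · exact mem_union_right _ h1
  have hwm : ∀ k ∈ Lk σ, MatchU (wunits (l ⟨σ, k⟩)) c (insert (lkA c g p m pre ⟨σ, k⟩).toNat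
      (wlabN c (lkA c g p m pre ⟨σ, k⟩) (l ⟨σ, k⟩))) ∧
      MatchU (wunits (l ⟨σ, k⟩)) c (insert (lkB c g p m ⟨σ, k⟩).toNat
      (wlabN c (lkA c g p m pre ⟨σ, k⟩) (l ⟨σ, k⟩))) := by
    intro k hk
    obtain ⟨h1, h2, h3⟩ := O.ok _ (hJ k hk)
    obtain ⟨-, -, ha, -⟩ := lkA_mem H (hJ k hk)
    exact walk_match h2 h1 hpos ha.1 ha.2 (haF _ (hJ k hk)) (hbF ⟨σ, k⟩ hσ) h3
  have hE : ∀ k : Fin (m σ) × Fin 3, ((eN c g p (off m σ + k.1) k.2 : ℕ) : ℤ) ∈ corL c g p n ∧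
      ((eN c g p (off m σ + k.1) k.2 : ℕ) : ℤ) ∉ F₀ ∪ lbA UG c Z q := fun k =>
    ⟨(eN_fact H.cor (ho k.1) k.2).1, (eN_fact H.cor (ho k.1) k.2).2.2.2⟩
  refine ⟨fun x i => core_ok H.cor H.odd (ho x) i, fun k hk => (hwm k hk).2, ?_, ?_, ?_, ?_, ?_, ?_,
    ?_, ?_, ?_, ?_, ?_, ?_⟩
  · intro k hk j hkj
    have h1 := (hwm k hk).1
    rw [lkA_inl (j := ⟨σ, k⟩) hkj] at h1
    rw [lkA_inl (j := ⟨σ, k⟩) hkj]
    exact h1
  · intro k hk z hkz
    have h1 := (hwm k hk).1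
    have h2 : lkA c g p m pre ⟨σ, k⟩ = (z : ℤ) := lkA_inr (j := ⟨σ, k⟩) hkz
    have h3 : (lkA c g p m pre ⟨σ, k⟩).toNat = z := by
      rw [h2]
      exact Int.toNat_natCast z
    rwa [h3] at h1
  · intro x x' hne
    exact uN_dis H.cor (ho x) (ho x') fun h1 => hne (Fin.ext (by omega))
  · intro x k hk
    exact (lU_fact H O (hJ k hk)).2.2 _ (ho x)
  · intro k hk k' hk' hne
    exact (lN_dis H O (hJ k hk) (hJ k' hk') fun h1 => hne (eq_of_heq (Sigma.mk.inj h1).2)).2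
  · intro k k' hkk
    obtain ⟨h1, h2⟩ := eN_inj H.cor H.odd (ho k.1) (ho k'.1) hkk
    exact Prod.ext (Fin.ext (by omega)) h2
  · intro k hk
    have h1 := (zp_mem H.sta hUG hσ hk).2.2.2.1
    exact (hE k).2 (mem_union_right _ h1)
  · intro x
    rw [disjoint_left]
    intro y hy hy'
    obtain ⟨h1, -, -, h2⟩ := kN_fact H.cor (ho x) hy
    rcases mem_union.1 hy' with h3 | h3
    · obtain ⟨k, -, rfl⟩ := mem_image.1 h3
      exact eN_kN H.cor H.odd (ho k.1) (ho x) k.2 hy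
    · exact h2 (mem_union_right _ (zp_mem H.sta hUG hσ h3).2.2.2.1)
  · intro k hk
    rw [disjoint_left]
    intro y hy hy'
    obtain ⟨-, h1, -⟩ := lN_fact H O (hJ k hk) hy
    rcases mem_union.1 hy' with h3 | h3
    · obtain ⟨k', -, rfl⟩ := mem_image.1 h3
      exact h1 (mem_union_right _ (hE k').1)
    · exact h1 (mem_union_left _ (mem_union_right _ (zp_mem H.sta hUG hσ h3).2.2.2.1))
  · intro x x' hne
    rw [disjoint_left]
    intro y hy hy'
    exact hne (Fin.ext (by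
      have h1 := kN_dis H.cor (ho x) (ho x') hy hy'
      omega))
  · intro x k hk
    rw [disjoint_left]
    intro y hy hy'
    exact (lN_fact H O (hJ k hk) hy').2.1 (mem_union_right _ (kN_fact H.cor (ho x) hy).1)
  · intro k hk k' hk' hne
    exact (lN_dis H O (hJ k hk) (hJ k' hk') fun h1 => hne (eq_of_heq (Sigma.mk.inj h1).2)).1

/-- the labels of the robust absorber of parity `σ` -/
def abA (c : ι → ℕ) (g : ℕ → Bool → ι) (p : ℕ → ℤ) (m : ℕ → ℕ)
    (Lk : ∀ σ, Finset (Fin (m σ) × Fin 3))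
    (pre : ∀ σ, Fin (m σ) × Fin 3 → (Fin (m σ) × Fin 3) ⊕ ℕ)
    (l : (Σ σ : ℕ, Fin (m σ) × Fin 3) → List (ι × Bool)) (σ : ℕ) : Finset ℕ :=
  hubA (Lk σ) (fun k => eN c g p (off m σ + k.1) k.2) (fun x => kN c g p (off m σ + x))
    (fun k => wlabN c (lkA c g p m pre ⟨σ, k⟩) (l ⟨σ, k⟩))

/-- the units of the robust absorber of parity `σ` -/
def abD (g : ℕ → Bool → ι) (m : ℕ → ℕ) (Lk : ∀ σ, Finset (Fin (m σ) × Fin 3))
    (l : (Σ σ : ℕ, Fin (m σ) × Fin 3) → List (ι × Bool)) (σ : ℕ) : Finset ι :=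
  hubD (Lk σ) (fun x => uN g (off m σ + x)) (fun k => wunits (l ⟨σ, k⟩))

theorem mem_abA (hn : m 0 + m 1 = n) {σ : ℕ} (hσ : σ < 2) {x : ℕ}
    (hx : x ∈ abA c g p m Lk pre l σ) :
    (∃ t < n, (t < m 0 ↔ σ = 0) ∧ ((∃ i, x = eN c g p t i) ∨ x ∈ kN c g p t)) ∨
      ∃ j ∈ (range 2).sigma Lk, j.1 = σ ∧ x ∈ wlabN c (lkA c g p m pre j) (l j) := by
  unfold abA hubA at hx
  rcases mem_union.1 hx with hx | hx
  · rcases mem_union.1 hx with hx | hx
    · obtain ⟨k, -, rfl⟩ := mem_image.1 hx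
      exact Or.inl ⟨_, (off_lt hn hσ k.1).1, (off_lt hn hσ k.1).2, Or.inl ⟨k.2, rfl⟩⟩
    · obtain ⟨y, -, hy⟩ := mem_biUnion.1 hx
      exact Or.inl ⟨_, (off_lt hn hσ y).1, (off_lt hn hσ y).2, Or.inr hy⟩
  · obtain ⟨k, hk, hy⟩ := mem_biUnion.1 hx
    exact Or.inr ⟨⟨σ, k⟩, mem_sigma.2 ⟨mem_range.2 hσ, hk⟩, rfl, hy⟩

theorem mem_abD (hn : m 0 + m 1 = n) {σ : ℕ} (hσ : σ < 2) {e : ι} (he : e ∈ abD g m Lk l σ) :
    (∃ t < n, (t < m 0 ↔ σ = 0) ∧ e ∈ uN g t) ∨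
      ∃ j ∈ (range 2).sigma Lk, j.1 = σ ∧ e ∈ wunits (l j) := by
  unfold abD hubD at he
  rcases mem_union.1 he with hx | hx
  · obtain ⟨y, -, hy⟩ := mem_biUnion.1 hx
    exact Or.inl ⟨_, (off_lt hn hσ y).1, (off_lt hn hσ y).2, hy⟩
  · obtain ⟨k, hk, hy⟩ := mem_biUnion.1 hx
    exact Or.inr ⟨⟨σ, k⟩, mem_sigma.2 ⟨mem_range.2 hσ, hk⟩, rfl, hy⟩

theorem abA_fact (H : LkH N n U UG c F₀ Z q g p M m Lk pre)
    (O : LnkO N n U UG c F₀ Z q g p m Lk pre l) {σ : ℕ} (hσ : σ < 2) {x : ℕ}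
    (hx : x ∈ abA c g p m Lk pre l σ) : (1 ≤ x ∧ x ≤ N) ∧ (x : ℤ) ∉ F₀ ∧
      (x : ℤ) ∉ lbA UG c Z q := by
  rcases mem_abA H.mn hσ hx with ⟨t, ht, -, ⟨i, rfl⟩ | hk⟩ | ⟨j, hj, -, hy⟩
  · obtain ⟨-, h2, h3, h4⟩ := eN_fact H.cor ht i
    exact ⟨⟨h2, h3⟩, fun h => h4 (mem_union_left _ h), fun h => h4 (mem_union_right _ h)⟩
  · obtain ⟨-, h2, h3, h4⟩ := kN_fact H.cor ht hk
    exact ⟨⟨h2, h3⟩, fun h => h4 (mem_union_left _ h), fun h => h4 (mem_union_right _ h)⟩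
  · obtain ⟨h1, h2, -⟩ := lN_fact H O hj hy
    exact ⟨h1, fun h => h2 (mem_union_left _ (mem_union_left _ h)),
      fun h => h2 (mem_union_left _ (mem_union_right _ h))⟩

theorem abA_dis (H : LkH N n U UG c F₀ Z q g p M m Lk pre)
    (O : LnkO N n U UG c F₀ Z q g p m Lk pre l) :
    Disjoint (abA c g p m Lk pre l 1) (abA c g p m Lk pre l 0) := by
  rw [disjoint_left]
  intro x hx hx'
  rcases mem_abA H.mn (σ := 1) (by norm_num) hx with ⟨t, ht, hts, h1⟩ | ⟨j, hj, hjs, hy⟩ <;>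
    rcases mem_abA H.mn (σ := 0) (by norm_num) hx' with ⟨t', ht', hts', h1'⟩ | ⟨j', hj', hjs', hy'⟩
  · have hne : t ≠ t' := by
      rintro rfl
      have h2 := hts'.2 rfl
      exact absurd (hts.1 h2) (by norm_num)
    rcases h1 with ⟨i, rfl⟩ | h1 <;> rcases h1' with ⟨i', h1'⟩ | h1'
    · exact hne (eN_inj H.cor H.odd ht ht' h1').1
    · exact eN_kN H.cor H.odd ht ht' i h1'
    · rw [h1'] at h1
      exact eN_kN H.cor H.odd ht' ht i' h1
    · exact hne (kN_dis H.cor ht ht' h1 h1')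
  · have h2 := (lN_fact H O hj' hy').2.1
    rcases h1 with ⟨i, rfl⟩ | h1
    · exact h2 (mem_union_right _ (eN_fact H.cor ht i).1)
    · exact h2 (mem_union_right _ (kN_fact H.cor ht h1).1)
  · have h2 := (lN_fact H O hj hy).2.1
    rcases h1' with ⟨i, rfl⟩ | h1
    · exact h2 (mem_union_right _ (eN_fact H.cor ht' i).1)
    · exact h2 (mem_union_right _ (kN_fact H.cor ht' h1).1)
  · have hne : j ≠ j' := by
      rintro rfl
      rw [hjs] at hjs'
      exact absurd hjs' (by norm_num)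
    exact disjoint_left.1 (lN_dis H O hj hj' hne).1 hy hy'

theorem abD_fact (H : LkH N n U UG c F₀ Z q g p M m Lk pre)
    (O : LnkO N n U UG c F₀ Z q g p m Lk pre l) {σ : ℕ} (hσ : σ < 2) :
    abD g m Lk l σ ⊆ U ∧ Disjoint (abD g m Lk l σ) UG := by
  constructor
  · intro e he
    rcases mem_abD H.mn hσ he with ⟨t, ht, -, h1⟩ | ⟨j, hj, -, h1⟩
    · exact (uN_fact H.cor ht).1 h1
    · exact (lU_fact H O hj).1 h1
  · rw [disjoint_left]
    intro e he
    rcases mem_abD H.mn hσ he with ⟨t, ht, -, h1⟩ | ⟨j, hj, -, h1⟩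
    · exact disjoint_left.1 (uN_fact H.cor ht).2 h1
    · exact disjoint_left.1 (lU_fact H O hj).2.1 h1

theorem abD_dis (H : LkH N n U UG c F₀ Z q g p M m Lk pre)
    (O : LnkO N n U UG c F₀ Z q g p m Lk pre l) :
    Disjoint (abD g m Lk l 1) (abD g m Lk l 0) := by
  rw [disjoint_left]
  intro x hx hx'
  rcases mem_abD H.mn (σ := 1) (by norm_num) hx with ⟨t, ht, hts, h1⟩ | ⟨j, hj, hjs, hy⟩ <;>
    rcases mem_abD H.mn (σ := 0) (by norm_num) hx' with ⟨t', ht', hts', h1'⟩ | ⟨j', hj', hjs', hy'⟩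
  · have hne : t ≠ t' := by
      rintro rfl
      have h2 := hts'.2 rfl
      exact absurd (hts.1 h2) (by norm_num)
    exact disjoint_left.1 (uN_dis H.cor ht ht' hne) h1 h1'
  · exact disjoint_left.1 ((lU_fact H O hj').2.2 t ht) h1 hy'
  · exact disjoint_left.1 ((lU_fact H O hj).2.2 t' ht') h1' hy
  · have hne : j ≠ j' := by
      rintro rfl
      rw [hjs] at hjs'
      exact absurd hjs' (by norm_num)
    exact disjoint_left.1 (lN_dis H O hj hj' hne).2 hy hy'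

end hubs

end SSB
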