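import Pool.Agent.Lib.MP_8a819d_co.LH.QRT

/-!
# MP_8a819d_co, leaf-heavy trees: tests for the numbering of the hosts of the absorber

`W₀` is numbered by `f₀`, `X` is numbered in increasing order, the label of `v ∈ X` is chosen among `LS v f` = the elements `c` of a given set `O` of odd numbers which satisfy `okc` (forbidden: `F` and the values used before).
`Nw v f c` = the new values if `v` gets the label `c`. `xiC`: weight of the hosts `u` whose position `x + s f u` (`s ∈ {1, -1, 2, -2}`) becomes a value at the step `v` (no weight if `x` is a label of a vertex numbered before).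

JOB LH_QRSa: `LS_card`, `LS_loc`, `xiC_loc`. JOB LH_QRSt: `xiC_le`, `xiC_mean`. JOB LH_QRSu: `xiC_sum`.

PROOF of `LS_card`: at most `5 |Us| + 3` elements of `O` violate `okc` (`okc_card`, `bnb_two`; `f b ≥ 1` and `f b ≠ f b'` are values of the items `inl b`, `inl b'`), `|Us| ≤ |F| + 2 |W₀ ∪ X|` (`items_le`), `≤ 3 δ N`; and `N ≤ 32 |O|`: so `|O \ LS| ≤ 15 δ N + 3 ≤ 16 δ N ≤ 512 δ |O| ≤ κ |O|`.
`LS_loc`: `okc` at `v` and `vls par W₀ X v f` depend only on the labels of `Wt W₀ X v` (`val_items`; `bnb n par W v ⊆ W`).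

PROOF of `xiC_loc`: as `LS_loc` (the `u ∈ X`, `u < v` are in `Wt W₀ X v`).
PROOF of `xiC_le`: the first term is at most `ω`. `Nw v f c` has at most three elements (`bnb_two`), and each of them is `x + s f u` for at most one `u ∈ X`, `u < v` (`s ≠ 0`, `f` is injective on `Wt W₀ X v` because the items `inl u` have different values): at most `3 ω`.
PROOF of `xiC_mean`: we may assume `x ∉ (Wt W₀ X v).image f`. Number of the `c ∈ L` with `x + s c ∈ zset (vls par W₀ X v f)`: at most `2 |W₀ ∪ X|` (`c ↦ x + s c` is injective). `x + s c = c`: `s = 1, 2` impossible (`x ≥ 1`, `c ≥ 1`);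
`s = -1`: `x = 2 c`, `s = -2`: `x = 3 c`: at most one `c`. `x + s c = dd c a`, `a = f b ≥ 1`, `b ∈ bnb`: if `c ≥ a` then `(1 - s) c = x + a > 0`: at most one `c`; if `c < a` then `(s + 1) c = a - x`: at most one `c` if `s ≠ -1`; for `s = -1` it would mean `a = x`, but `x` is not in the image. So for at most
`1 + 2 * 2 = 5` values `c` we have `x + s c ∈ zset (Nw v f c)`. For `u ∈ X`, `u < v` and `y = x + s f u`: `y = c` or `y = dd c a`: `c ∈ {y, a + y, a - y}`: at most `1 + 2 * 2 = 5` values `c`. So the sum over `c ∈ L` is at most `a v (2 |W₀ ∪ X| + 5) + 5 ∑ u ∈ X, a u`.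
PROOF of `xiC_sum`: if `x ∉ (W₀ ∪ X).image f`, then `x ∉ (Wt W₀ X v).image f` for all `v`. Let `u ∈ X` with `x + s f u ∈ zset (vls par W₀ X n f)`. `vls par W₀ X (v + 1) f = vls par W₀ X v f ∪ Nw v f (f v)` for `v ∈ X`, and `= vls par W₀ X v f` for `v ∉ X` (`step_num` with `c = f v`,
`Function.update f v (f v) = f`; its `okc` hypothesis follows from the injectivity of `val par f` on `items par (W₀ ∪ X)`; or treat the items directly). If `x + s f u ∈ zset (vls par W₀ X u f ∪ Nw u f (f u))`, then `a u` is the first term of `xiC` at `v = u`. Otherwise let `v > u` be the first time with `x + s f u ∈ zset (vls par W₀ X (v + 1) f)`;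
then `v ∈ X` and `x + s f u ∈ zset (Nw v f (f v))`, and `a u` is a summand of the second term at `v`. All summands are nonnegative.
-/

set_option autoImplicit false

namespace SSB

open Finset

/-- the labels available for `v` -/
def LS (n : ℕ) (par : ℕ → ℕ) (W₀ X F O : Finset ℕ) (v : ℕ) (f : ℕ → ℕ) : Finset ℕ :=
  O.filter (fun c => okc n par (Wt W₀ X v) f (F ∪ vls par W₀ X v f) v c)

/-- hypotheses for the numbering of `X` -/
structure HypS (δ : ℝ) (n N : ℕ) (par : ℕ → ℕ) (W₀ X F O : Finset ℕ) (f₀ : ℕ → ℕ) : Prop where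
  isP : IsPar n par
  Wsub : W₀ ⊆ range n
  Xsub : X ⊆ range n
  WX : Disjoint W₀ X
  inj : Set.InjOn (val par f₀) (items par W₀)
  rng : ∀ x ∈ items par W₀, 1 ≤ val par f₀ x ∧ val par f₀ x ≤ N
  ch : ∀ v ∈ X, ((chs n par v).filter (· ∈ W₀)).card ≤ 1
  c1 : ((W₀ ∪ X).card : ℝ) ≤ δ * N
  c2 : (F.card : ℝ) ≤ δ * N
  Oodd : ∀ c ∈ O, c % 2 = 1 ∧ c ≤ N
  Ocard : N ≤ 32 * O.card

/-- the casts of a set of natural numbers -/
def zset (E : Finset ℕ) : Finset ℤ := E.image (fun y : ℕ => (y : ℤ))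

/-- the new values if `v` gets the label `c` -/
def Nw (n : ℕ) (par : ℕ → ℕ) (W₀ X : Finset ℕ) (v : ℕ) (f : ℕ → ℕ) (c : ℕ) : Finset ℕ :=
  insert c ((bnb n par (Wt W₀ X v) v).image (fun b => dd c (f b)))

noncomputable def xiC (n : ℕ) (par : ℕ → ℕ) (W₀ X : Finset ℕ) (a : ℕ → ℝ) (x : ℕ) (s : ℤ) (v : ℕ)
    (f : ℕ → ℕ) (c : ℕ) : ℝ :=
  if x ∈ (Wt W₀ X v).image f then 0 else
    (if (x : ℤ) + s * c ∈ zset (vls par W₀ X v f ∪ Nw n par W₀ X v f c) then a v else 0) +
    ∑ u ∈ X.filter (· < v), if (x : ℤ) + s * f u ∈ zset (Nw n par W₀ X v f c) then a u else 0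

theorem LS_card (κ : ℝ) (hκ : 0 < κ) : ∃ δ : ℝ, 0 < δ ∧ ∃ N₀ : ℕ, ∀ N : ℕ, N₀ ≤ N →
    ∀ (n : ℕ) (par : ℕ → ℕ) (W₀ X F O : Finset ℕ) (f₀ : ℕ → ℕ), HypS δ n N par W₀ X F O f₀ →
    ∀ v ∈ X, ∀ f : ℕ → ℕ, InvN N par W₀ X F f₀ (· ∈ O) v f →
    (1 - κ) * (O.card : ℝ) ≤ (LS n par W₀ X F O v f).card ∧
    ((O \ LS n par W₀ X F O v f).card : ℝ) ≤ κ * O.card := by
  refine ⟨κ / 512, by positivity, ⌈3 * 512 / κ⌉₊, ?_⟩
  intro N hN n par W₀ X F O f₀ hS v hv f hf
  have hNr : 3 * 512 / κ ≤ (N : ℝ) := (Nat.le_ceil _).trans (by exact_mod_cast hN)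
  have hN3 : 3 * 512 ≤ κ * (N : ℝ) := by
    rw [div_le_iff₀ hκ] at hNr
    linarith
  have hb : (bnb n par (Wt W₀ X v) v).card ≤ 2 := bnb_two hS.isP (hS.ch v hv)
  have hmem : ∀ b ∈ bnb n par (Wt W₀ X v) v, b ∈ Wt W₀ X v := fun b hb => (mem_bnb.1 hb).1
  have h1 : ∀ b ∈ bnb n par (Wt W₀ X v) v, 1 ≤ f b := by
    intro b hb
    have := (hf.rng (Sum.inl b) (mem_items_inl.2 (hmem b hb))).1
    simpa using this
  have h2 : ∀ b ∈ bnb n par (Wt W₀ X v) v, ∀ b' ∈ bnb n par (Wt W₀ X v) v, b ≠ b' → f b ≠ f b' := by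
    intro b hb b' hb' hne he
    apply hne
    have := hf.inj (mem_coe.2 (mem_items_inl.2 (hmem b hb))) (mem_coe.2 (mem_items_inl.2 (hmem b' hb')))
      (by simpa using he)
    simpa using this
  have hbad := okc_card (I := O) (Us := F ∪ vls par W₀ X v f) hb h1 h2
  have hsd : O \ LS n par W₀ X F O v f =
      O.filter (fun c => ¬ okc n par (Wt W₀ X v) f (F ∪ vls par W₀ X v f) v c) := by
    ext c
    simp only [LS, mem_sdiff, mem_filter]
    tauto
  have hUs : (F ∪ vls par W₀ X v f).card ≤ F.card + 2 * (W₀ ∪ X).card := by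
    have e1 : (vls par W₀ X v f).card ≤ 2 * (Wt W₀ X v).card :=
      card_image_le.trans (items_le par _)
    have e2 : (Wt W₀ X v).card ≤ (W₀ ∪ X).card := by
      apply card_le_card
      unfold Wt
      exact union_subset_union_right (filter_subset _ _)
    have e3 := card_union_le F (vls par W₀ X v f)
    omega
  have hsdc : ((O \ LS n par W₀ X F O v f).card : ℝ) ≤ κ * O.card := by
    have e1 : (O \ LS n par W₀ X F O v f).card ≤ 5 * (F.card + 2 * (W₀ ∪ X).card) + 3 := by
      rw [hsd]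
      omega
    have e2 : ((O \ LS n par W₀ X F O v f).card : ℝ) ≤ 5 * (F.card + 2 * (W₀ ∪ X).card) + 3 := by
      exact_mod_cast e1
    have e3 := hS.c1
    have e4 := hS.c2
    have e5 : (N : ℝ) ≤ 32 * O.card := by exact_mod_cast hS.Ocard
    have e6 : κ * (N : ℝ) ≤ κ * (32 * O.card) := mul_le_mul_of_nonneg_left e5 hκ.le
    have e7 : κ / 512 * (N : ℝ) = κ * N / 512 := by ring
    rw [e7] at e3 e4
    linarith
  refine ⟨?_, hsdc⟩
  have hsub : LS n par W₀ X F O v f ⊆ O := filter_subset _ _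
  have e8 : (O \ LS n par W₀ X F O v f).card + (LS n par W₀ X F O v f).card = O.card :=
    card_sdiff_add_card_eq_card hsub
  have e9 : ((O \ LS n par W₀ X F O v f).card : ℝ) + (LS n par W₀ X F O v f).card = O.card := by
    exact_mod_cast e8
  linarith

theorem LS_loc {n : ℕ} {par : ℕ → ℕ} {W₀ X F O : Finset ℕ} {v : ℕ} {f f' : ℕ → ℕ}
    (h : ∀ w ∈ Wt W₀ X v, f w = f' w) :
    vls par W₀ X v f = vls par W₀ X v f' ∧ LS n par W₀ X F O v f = LS n par W₀ X F O v f' := by
  have hv : vls par W₀ X v f = vls par W₀ X v f' := by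
    unfold vls
    apply image_congr
    intro x hx
    exact val_items (fun i hi => h i hi) (mem_coe.1 hx)
  refine ⟨hv, ?_⟩
  unfold LS
  rw [hv]
  apply filter_congr
  intro c _
  have hb : ∀ b ∈ bnb n par (Wt W₀ X v) v, f b = f' b := fun b hb => h b (mem_bnb.1 hb).1
  unfold okc
  constructor
  · rintro ⟨h1, h2, h3⟩
    refine ⟨h1, ?_, ?_⟩
    · intro b hb'
      rw [← hb b hb']
      exact h2 b hb'
    · intro b hb' b' hb'' hne
      rw [← hb b hb', ← hb b' hb'']
      exact h3 b hb' b' hb'' hne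
  · rintro ⟨h1, h2, h3⟩
    refine ⟨h1, ?_, ?_⟩
    · intro b hb'
      rw [hb b hb']
      exact h2 b hb'
    · intro b hb' b' hb'' hne
      rw [hb b hb', hb b' hb'']
      exact h3 b hb' b' hb'' hne

theorem xiC_loc {n : ℕ} {par : ℕ → ℕ} {W₀ X : Finset ℕ} {a : ℕ → ℝ} {x : ℕ} {s : ℤ} {v : ℕ}
    {f f' : ℕ → ℕ} (h : ∀ w ∈ Wt W₀ X v, f w = f' w) (c : ℕ) :
    xiC n par W₀ X a x s v f c = xiC n par W₀ X a x s v f' c := by
  have hv : vls par W₀ X v f = vls par W₀ X v f' := (LS_loc (n := n) (F := ∅) (O := ∅) h).1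
  have hN : Nw n par W₀ X v f c = Nw n par W₀ X v f' c := by
    unfold Nw
    have : (bnb n par (Wt W₀ X v) v).image (fun b => dd c (f b)) =
        (bnb n par (Wt W₀ X v) v).image (fun b => dd c (f' b)) := by
      apply image_congr
      intro b hb
      show dd c (f b) = dd c (f' b)
      rw [h b (mem_bnb.1 (mem_coe.1 hb)).1]
    rw [this]
  have hI : (Wt W₀ X v).image f = (Wt W₀ X v).image f' := by
    apply image_congr
    intro w hw
    exact h w (mem_coe.1 hw)
  have hs : (∑ u ∈ X.filter (· < v), if (x : ℤ) + s * f u ∈ zset (Nw n par W₀ X v f c) then a u else 0) =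
      ∑ u ∈ X.filter (· < v), if (x : ℤ) + s * f' u ∈ zset (Nw n par W₀ X v f' c) then a u else 0 := by
    apply sum_congr rfl
    intro u hu
    rw [hN, h u (by unfold Wt; exact mem_union_right _ hu)]
  unfold xiC
  rw [hs, hN, hI, hv]

private theorem qrst_Nw_card {n : ℕ} {par : ℕ → ℕ} (hpar : IsPar n par) {W₀ X : Finset ℕ} {v : ℕ}
    {f : ℕ → ℕ} (hch : ((chs n par v).filter (· ∈ W₀)).card ≤ 1) (c : ℕ) :
    (Nw n par W₀ X v f c).card ≤ 3 := by
  unfold Nw
  have h1 : (bnb n par (Wt W₀ X v) v).card ≤ 2 := bnb_two hpar hch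
  have h2 : ((bnb n par (Wt W₀ X v) v).image (fun b => dd c (f b))).card ≤
      (bnb n par (Wt W₀ X v) v).card := card_image_le
  have h3 := card_insert_le c ((bnb n par (Wt W₀ X v) v).image (fun b => dd c (f b)))
  omega

private theorem qrst_mem {n : ℕ} {par : ℕ → ℕ} {W₀ X : Finset ℕ} {v : ℕ} {f : ℕ → ℕ} {y : ℤ} {c : ℕ} :
    y ∈ zset (Nw n par W₀ X v f c) ↔ y = c ∨ ∃ b ∈ bnb n par (Wt W₀ X v) v, y = (dd c (f b) : ℕ) := by
  unfold zset Nw
  simp only [mem_image, mem_insert]
  constructor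
  · rintro ⟨z, rfl | ⟨b, hb, rfl⟩, rfl⟩
    · exact Or.inl rfl
    · exact Or.inr ⟨b, hb, rfl⟩
  · rintro (rfl | ⟨b, hb, rfl⟩)
    · exact ⟨c, Or.inl rfl, rfl⟩
    · exact ⟨_, Or.inr ⟨b, hb, rfl⟩, rfl⟩

/-- a filter which is covered by a singleton and, for each element of a set of at most two elements, two
sets with at most one element, has at most five elements -/
private theorem qrst_five {L : Finset ℕ} {B : Finset ℕ} (hB : B.card ≤ 2) (P P0 : ℕ → Prop)
    (P1 P2 : ℕ → ℕ → Prop) [DecidablePred P] (h : ∀ c ∈ L, P c → P0 c ∨ ∃ b ∈ B, P1 b c ∨ P2 b c)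
    (h0 : ∀ c ∈ L, ∀ c' ∈ L, P0 c → P0 c' → c = c')
    (h1 : ∀ b ∈ B, ∀ c ∈ L, ∀ c' ∈ L, P1 b c → P1 b c' → c = c')
    (h2 : ∀ b ∈ B, ∀ c ∈ L, ∀ c' ∈ L, P2 b c → P2 b c' → c = c') :
    (L.filter P).card ≤ 5 := by
  classical
  have hsub : L.filter P ⊆ L.filter P0 ∪ B.biUnion (fun b => L.filter (P1 b) ∪ L.filter (P2 b)) := by
    intro c hc
    rw [mem_filter] at hc
    rcases h c hc.1 hc.2 with h' | ⟨b, hb, h' | h'⟩
    · exact mem_union_left _ (mem_filter.2 ⟨hc.1, h'⟩)
    · exact mem_union_right _ (mem_biUnion.2 ⟨b, hb, mem_union_left _ (mem_filter.2 ⟨hc.1, h'⟩)⟩)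
    · exact mem_union_right _ (mem_biUnion.2 ⟨b, hb, mem_union_right _ (mem_filter.2 ⟨hc.1, h'⟩)⟩)
  have e0 : (L.filter P0).card ≤ 1 := by
    rw [card_le_one]
    intro c hc c' hc'
    rw [mem_filter] at hc hc'
    exact h0 c hc.1 c' hc'.1 hc.2 hc'.2
  have e1 : ∀ b ∈ B, (L.filter (P1 b) ∪ L.filter (P2 b)).card ≤ 2 := by
    intro b hb
    have f1 : (L.filter (P1 b)).card ≤ 1 := by
      rw [card_le_one]
      intro c hc c' hc'
      rw [mem_filter] at hc hc'
      exact h1 b hb c hc.1 c' hc'.1 hc.2 hc'.2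
    have f2 : (L.filter (P2 b)).card ≤ 1 := by
      rw [card_le_one]
      intro c hc c' hc'
      rw [mem_filter] at hc hc'
      exact h2 b hb c hc.1 c' hc'.1 hc.2 hc'.2
    have := card_union_le (L.filter (P1 b)) (L.filter (P2 b))
    omega
  have e2 : (B.biUnion (fun b => L.filter (P1 b) ∪ L.filter (P2 b))).card ≤ B.card * 2 :=
    card_biUnion_le_card_mul B _ 2 e1
  have e3 := (card_le_card hsub).trans (card_union_le _ _)
  omega

private theorem qrst_cnt1 {n : ℕ} {par : ℕ → ℕ} {W₀ X : Finset ℕ} {v x : ℕ} {f : ℕ → ℕ} {s : ℤ}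
    (hs : s = 1 ∨ s = -1 ∨ s = 2 ∨ s = -2) (hbn : (bnb n par (Wt W₀ X v) v).card ≤ 2)
    (hb1 : ∀ b ∈ bnb n par (Wt W₀ X v) v, 1 ≤ f b) (hbx : ∀ b ∈ bnb n par (Wt W₀ X v) v, f b ≠ x)
    (hx : 1 ≤ x) (L : Finset ℕ) (hL : ∀ c ∈ L, 1 ≤ c) :
    (L.filter (fun c : ℕ => (x : ℤ) + s * c ∈ zset (Nw n par W₀ X v f c))).card ≤ 5 := by
  apply qrst_five (B := bnb n par (Wt W₀ X v) v) hbn _ (fun c => (x : ℤ) + s * c = c)
    (fun b c => f b ≤ c ∧ (x : ℤ) + s * c = (c : ℤ) - f b)
    (fun b c => c < f b ∧ (x : ℤ) + s * c = (f b : ℤ) - c)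
  · intro c _ hc
    rw [qrst_mem] at hc
    rcases hc with hc | ⟨b, hb, hc⟩
    · exact Or.inl hc
    · refine Or.inr ⟨b, hb, ?_⟩
      rcases le_or_gt (f b) c with h | h
      · left
        refine ⟨h, ?_⟩
        rw [hc]
        unfold dd
        omega
      · right
        refine ⟨h, ?_⟩
        rw [hc]
        unfold dd
        omega
  · intro c hc c' hc' h h'
    have := hL c hc
    rcases hs with rfl | rfl | rfl | rfl <;> omega
  · rintro b hb c hc c' hc' ⟨h1, h2⟩ ⟨h3, h4⟩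
    have := hb1 b hb
    rcases hs with rfl | rfl | rfl | rfl <;> omega
  · rintro b hb c hc c' hc' ⟨h1, h2⟩ ⟨h3, h4⟩
    have := hb1 b hb
    have := hbx b hb
    rcases hs with rfl | rfl | rfl | rfl <;> omega

private theorem qrst_cnt2 {n : ℕ} {par : ℕ → ℕ} {W₀ X : Finset ℕ} {v : ℕ} {f : ℕ → ℕ}
    (hbn : (bnb n par (Wt W₀ X v) v).card ≤ 2) (y : ℤ) (L : Finset ℕ) :
    (L.filter (fun c : ℕ => y ∈ zset (Nw n par W₀ X v f c))).card ≤ 5 := by
  apply qrst_five (B := bnb n par (Wt W₀ X v) v) hbn _ (fun c => y = c)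
    (fun b c => y = (c : ℤ) - f b) (fun b c => y = (f b : ℤ) - c)
  · intro c _ hc
    rw [qrst_mem] at hc
    rcases hc with hc | ⟨b, hb, hc⟩
    · exact Or.inl hc
    · refine Or.inr ⟨b, hb, ?_⟩
      rcases le_or_gt (f b) c with h | h
      · left
        rw [hc]
        unfold dd
        omega
      · right
        rw [hc]
        unfold dd
        omega
  · intro c hc c' hc' h h'
    omega
  · intro b hb c hc c' hc' h h'
    omega
  · intro b hb c hc c' hc' h h'
    omega

theorem xiC_le {n N : ℕ} {par : ℕ → ℕ} (hpar : IsPar n par) {W₀ X F : Finset ℕ} {f₀ f : ℕ → ℕ}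
    {Ok : ℕ → Prop} {a : ℕ → ℝ} {x : ℕ} {s : ℤ} {v : ℕ} {ω : ℝ}
    (hch : ((chs n par v).filter (· ∈ W₀)).card ≤ 1) (hv : v ∈ X)
    (ha : ∀ u ∈ X, 0 ≤ a u ∧ a u ≤ ω) (hf : InvN N par W₀ X F f₀ Ok v f)
    (hs : s = 1 ∨ s = -1 ∨ s = 2 ∨ s = -2) (c : ℕ) :
    0 ≤ xiC n par W₀ X a x s v f c ∧ xiC n par W₀ X a x s v f c ≤ 4 * ω := by
  have hω : 0 ≤ ω := (ha v hv).1.trans (ha v hv).2
  have hs0 : s ≠ 0 := by
    rcases hs with rfl | rfl | rfl | rfl <;> norm_num
  have hNw : (Nw n par W₀ X v f c).card ≤ 3 := qrst_Nw_card hpar hch c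
  unfold xiC
  by_cases hx : x ∈ (Wt W₀ X v).image f
  · rw [if_pos hx]
    exact ⟨le_rfl, by linarith⟩
  rw [if_neg hx]
  have h1 : 0 ≤ (if (x : ℤ) + s * c ∈ zset (vls par W₀ X v f ∪ Nw n par W₀ X v f c) then a v else 0) ∧
      (if (x : ℤ) + s * c ∈ zset (vls par W₀ X v f ∪ Nw n par W₀ X v f c) then a v else 0) ≤ ω := by
    split_ifs
    · exact ha v hv
    · exact ⟨le_rfl, hω⟩
  have h2 : 0 ≤ ∑ u ∈ X.filter (· < v),
      if (x : ℤ) + s * f u ∈ zset (Nw n par W₀ X v f c) then a u else 0 := by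
    apply sum_nonneg
    intro u hu
    split_ifs
    · exact (ha u (mem_filter.1 hu).1).1
    · exact le_rfl
  have h3 : (∑ u ∈ X.filter (· < v),
      if (x : ℤ) + s * f u ∈ zset (Nw n par W₀ X v f c) then a u else 0) ≤ 3 * ω := by
    rw [← sum_filter]
    calc ∑ u ∈ (X.filter (· < v)).filter (fun u => (x : ℤ) + s * f u ∈ zset (Nw n par W₀ X v f c)), a u
        ≤ ∑ _u ∈ (X.filter (· < v)).filter (fun u => (x : ℤ) + s * f u ∈ zset (Nw n par W₀ X v f c)),
            ω := by
          apply sum_le_sum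
          intro u hu
          exact (ha u (mem_filter.1 (mem_filter.1 hu).1).1).2
      _ = (((X.filter (· < v)).filter
            (fun u => (x : ℤ) + s * f u ∈ zset (Nw n par W₀ X v f c))).card : ℝ) * ω := by
          rw [sum_const, nsmul_eq_mul]
      _ ≤ 3 * ω := by
          apply mul_le_mul_of_nonneg_right _ hω
          have hcard : ((X.filter (· < v)).filter
              (fun u => (x : ℤ) + s * f u ∈ zset (Nw n par W₀ X v f c))).card ≤
              (zset (Nw n par W₀ X v f c)).card := by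
            apply card_le_card_of_injOn (fun u => (x : ℤ) + s * f u)
            · intro u hu
              exact (mem_filter.1 (mem_coe.1 hu)).2
            · intro u hu u' hu' he
              have he' : (x : ℤ) + s * f u = (x : ℤ) + s * f u' := he
              have e1 : s * (f u : ℤ) = s * f u' := by linarith
              have e2 : (f u : ℤ) = f u' := mul_left_cancel₀ hs0 e1
              have e3 : f u = f u' := by exact_mod_cast e2
              have m1 : u ∈ Wt W₀ X v := by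
                unfold Wt
                exact mem_union_right _ (mem_filter.1 (mem_coe.1 hu)).1
              have m2 : u' ∈ Wt W₀ X v := by
                unfold Wt
                exact mem_union_right _ (mem_filter.1 (mem_coe.1 hu')).1
              have := hf.inj (mem_coe.2 (mem_items_inl.2 m1)) (mem_coe.2 (mem_items_inl.2 m2))
                (by simpa using e3)
              simpa using this
          have hz : (zset (Nw n par W₀ X v f c)).card ≤ (Nw n par W₀ X v f c).card := card_image_le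
          have : ((X.filter (· < v)).filter
              (fun u => (x : ℤ) + s * f u ∈ zset (Nw n par W₀ X v f c))).card ≤ 3 := by omega
          exact_mod_cast this
  constructor
  · linarith [h1.1]
  · linarith [h1.2]

theorem xiC_mean {n N : ℕ} {par : ℕ → ℕ} (hpar : IsPar n par) {W₀ X F : Finset ℕ} {f₀ f : ℕ → ℕ}
    {Ok : ℕ → Prop} {a : ℕ → ℝ} {x : ℕ} {s : ℤ} {v : ℕ}
    (hch : ((chs n par v).filter (· ∈ W₀)).card ≤ 1) (hv : v ∈ X) (hx : 1 ≤ x)
    (ha : ∀ u ∈ X, 0 ≤ a u) (hf : InvN N par W₀ X F f₀ Ok v f)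
    (hs : s = 1 ∨ s = -1 ∨ s = 2 ∨ s = -2) (L : Finset ℕ) (hL : ∀ c ∈ L, 1 ≤ c) :
    ∑ c ∈ L, xiC n par W₀ X a x s v f c ≤
      a v * (2 * (W₀ ∪ X).card + 5) + 5 * ∑ u ∈ X, a u := by
  have hav : 0 ≤ a v := ha v hv
  have hsa : 0 ≤ ∑ u ∈ X, a u := sum_nonneg ha
  have hbn : (bnb n par (Wt W₀ X v) v).card ≤ 2 := bnb_two hpar hch
  have hb1 : ∀ b ∈ bnb n par (Wt W₀ X v) v, 1 ≤ f b := by
    intro b hb
    have := (hf.rng (Sum.inl b) (mem_items_inl.2 (mem_bnb.1 hb).1)).1
    simpa using this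
  unfold xiC
  by_cases hxi : x ∈ (Wt W₀ X v).image f
  · simp only [if_pos hxi, sum_const_zero]
    positivity
  simp only [if_neg hxi]
  have hbx : ∀ b ∈ bnb n par (Wt W₀ X v) v, f b ≠ x := by
    intro b hb he
    exact hxi (mem_image.2 ⟨b, (mem_bnb.1 hb).1, he⟩)
  rw [sum_add_distrib]
  have hA : (∑ c ∈ L, if (x : ℤ) + s * c ∈ zset (vls par W₀ X v f ∪ Nw n par W₀ X v f c) then a v
      else 0) ≤ a v * (2 * (W₀ ∪ X).card + 5) := by
    rw [← sum_filter, sum_const, nsmul_eq_mul, mul_comm]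
    apply mul_le_mul_of_nonneg_left _ hav
    have hsub : L.filter (fun c : ℕ => (x : ℤ) + s * c ∈
          zset (vls par W₀ X v f ∪ Nw n par W₀ X v f c)) ⊆
        L.filter (fun c : ℕ => (x : ℤ) + s * c ∈ zset (vls par W₀ X v f)) ∪
        L.filter (fun c : ℕ => (x : ℤ) + s * c ∈ zset (Nw n par W₀ X v f c)) := by
      intro c hc
      rw [mem_filter] at hc
      obtain ⟨hcL, hc⟩ := hc
      unfold zset at hc
      rw [image_union, mem_union] at hc
      rcases hc with hc | hc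
      · exact mem_union_left _ (mem_filter.2 ⟨hcL, hc⟩)
      · exact mem_union_right _ (mem_filter.2 ⟨hcL, hc⟩)
    have hs0 : s ≠ 0 := by
      rcases hs with rfl | rfl | rfl | rfl <;> norm_num
    have c1 : (L.filter (fun c : ℕ => (x : ℤ) + s * c ∈ zset (vls par W₀ X v f))).card ≤
        2 * (W₀ ∪ X).card := by
      have d1 : (L.filter (fun c : ℕ => (x : ℤ) + s * c ∈ zset (vls par W₀ X v f))).card ≤
          (zset (vls par W₀ X v f)).card := by
        apply card_le_card_of_injOn (fun c : ℕ => (x : ℤ) + s * c)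
        · intro c hc
          exact (mem_filter.1 (mem_coe.1 hc)).2
        · intro c _ c' _ he
          have he' : (x : ℤ) + s * c = (x : ℤ) + s * c' := he
          have e1 : s * (c : ℤ) = s * c' := by linarith
          have e2 : (c : ℤ) = c' := mul_left_cancel₀ hs0 e1
          exact_mod_cast e2
      have d2 : (zset (vls par W₀ X v f)).card ≤ (vls par W₀ X v f).card := card_image_le
      have d3 : (vls par W₀ X v f).card ≤ 2 * (Wt W₀ X v).card :=
        card_image_le.trans (items_le par _)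
      have d4 : (Wt W₀ X v).card ≤ (W₀ ∪ X).card := by
        apply card_le_card
        unfold Wt
        exact union_subset_union_right (filter_subset _ _)
      omega
    have c2 : (L.filter (fun c : ℕ => (x : ℤ) + s * c ∈ zset (Nw n par W₀ X v f c))).card ≤ 5 :=
      qrst_cnt1 hs hbn hb1 hbx hx L hL
    have c3 := (card_le_card hsub).trans (card_union_le _ _)
    have c4 : (L.filter (fun c : ℕ => (x : ℤ) + s * c ∈
          zset (vls par W₀ X v f ∪ Nw n par W₀ X v f c))).card ≤ 2 * (W₀ ∪ X).card + 5 := by omega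
    exact_mod_cast c4
  have hB : (∑ c ∈ L, ∑ u ∈ X.filter (· < v),
      if (x : ℤ) + s * f u ∈ zset (Nw n par W₀ X v f c) then a u else 0) ≤ 5 * ∑ u ∈ X, a u := by
    rw [sum_comm, mul_sum]
    have e1 : ∀ u ∈ X.filter (· < v), (∑ c ∈ L,
        if (x : ℤ) + s * f u ∈ zset (Nw n par W₀ X v f c) then a u else 0) ≤ 5 * a u := by
      intro u hu
      rw [← sum_filter, sum_const, nsmul_eq_mul]
      apply mul_le_mul_of_nonneg_right _ (ha u (mem_filter.1 hu).1)
      have := qrst_cnt2 (f := f) (W₀ := W₀) (X := X) (v := v) (n := n) (par := par)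
        hbn ((x : ℤ) + s * f u) L
      exact_mod_cast this
    calc (∑ u ∈ X.filter (· < v), ∑ c ∈ L,
        if (x : ℤ) + s * f u ∈ zset (Nw n par W₀ X v f c) then a u else 0)
        ≤ ∑ u ∈ X.filter (· < v), 5 * a u := sum_le_sum e1
      _ ≤ ∑ u ∈ X, 5 * a u := by
          apply sum_le_sum_of_subset_of_nonneg (filter_subset _ _)
          intro u hu _
          have := ha u hu
          positivity
  linarith

private theorem qrsu_item {n : ℕ} {par : ℕ → ℕ} (hpar : IsPar n par) {W₀ X : Finset ℕ} {f : ℕ → ℕ}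
    (hX : X ⊆ range n) (hW : W₀ ⊆ range n) (u : ℕ) {y : ℕ ⊕ ℕ} (hy : y ∈ items par (Wt W₀ X n)) :
    val par f y ∈ vls par W₀ X u f ∨ ∃ v ∈ X, u ≤ v ∧ val par f y ∈ Nw n par W₀ X v f (f v) := by
  have hWt : ∀ t i : ℕ, i ∈ Wt W₀ X t ↔ i ∈ W₀ ∨ (i ∈ X ∧ i < t) := by
    intro t i
    unfold Wt
    rw [mem_union, mem_filter]
  rcases y with i | i
  · rw [mem_items_inl, hWt] at hy
    by_cases hi : i ∈ Wt W₀ X u
    · left
      unfold vls
      exact mem_image_of_mem _ (mem_items_inl.mpr hi)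
    · right
      rw [hWt] at hi
      have h1 : i ∈ X ∧ u ≤ i := by
        rcases hy with h | h
        · exact absurd (Or.inl h) hi
        · refine ⟨h.1, ?_⟩
          by_contra h2
          exact hi (Or.inr ⟨h.1, not_le.mp h2⟩)
      refine ⟨i, h1.1, h1.2, ?_⟩
      unfold Nw
      rw [val_inl]
      exact mem_insert_self _ _
  · rw [mem_items_inr] at hy
    obtain ⟨hi, hi1, hpi⟩ := hy
    have hin : i < n := by
      rw [hWt] at hi
      rcases hi with h | h
      · exact mem_range.mp (hW h)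
      · exact h.2
    have hlt : par i < i := hpar i hi1 hin
    by_cases hb : i ∈ Wt W₀ X u ∧ par i ∈ Wt W₀ X u
    · left
      unfold vls
      exact mem_image_of_mem _ (mem_items_inr.mpr ⟨hb.1, hi1, hb.2⟩)
    · right
      rw [hWt] at hi hpi
      by_cases hiX : i ∈ X ∧ u ≤ i ∧ i ∉ W₀
      · refine ⟨i, hiX.1, hiX.2.1, ?_⟩
        unfold Nw
        rw [val_inr]
        refine mem_insert_of_mem (mem_image.mpr ⟨par i, ?_, rfl⟩)
        unfold bnb
        rw [mem_filter, hWt]
        refine ⟨?_, Or.inl ⟨hi1, hin, rfl⟩⟩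
        rcases hpi with h | h
        · exact Or.inl h
        · exact Or.inr ⟨h.1, hlt⟩
      · have hiu : i ∈ W₀ ∨ (i ∈ X ∧ i < u) := by
          rcases hi with h | h
          · exact Or.inl h
          · by_cases h2 : i ∈ W₀
            · exact Or.inl h2
            · refine Or.inr ⟨h.1, ?_⟩
              by_contra h3
              exact hiX ⟨h.1, not_lt.mp h3, h2⟩
        have hpn : ¬ (par i ∈ W₀ ∨ (par i ∈ X ∧ par i < u)) := by
          intro h
          exact hb ⟨(hWt u i).mpr hiu, (hWt u (par i)).mpr h⟩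
        have hpX : par i ∈ X ∧ u ≤ par i := by
          rcases hpi with h | h
          · exact absurd (Or.inl h) hpn
          · refine ⟨h.1, ?_⟩
            by_contra h2
            exact hpn (Or.inr ⟨h.1, not_le.mp h2⟩)
        have hiW : i ∈ W₀ := by
          rcases hiu with h | h
          · exact h
          · exfalso
            have h1 := h.2
            have h2 := hpX.2
            omega
        refine ⟨par i, hpX.1, hpX.2, ?_⟩
        unfold Nw
        rw [val_inr, dd_comm]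
        refine mem_insert_of_mem (mem_image.mpr ⟨i, ?_, rfl⟩)
        unfold bnb
        rw [mem_filter, hWt]
        exact ⟨Or.inl hiW, Or.inr ⟨hi1, hin, rfl⟩⟩

theorem xiC_sum {n N : ℕ} {par : ℕ → ℕ} (hpar : IsPar n par) {W₀ X F : Finset ℕ} {f₀ f : ℕ → ℕ}
    {Ok : ℕ → Prop} {a : ℕ → ℝ} {x : ℕ} {s : ℤ} (hX : X ⊆ range n) (hd : Disjoint W₀ X)
    (hW : W₀ ⊆ range n)
    (ha : ∀ u ∈ X, 0 ≤ a u) (hf : InvN N par W₀ X F f₀ Ok n f)
    (hx : x ∉ (W₀ ∪ X).image f) :
    ∑ u ∈ X.filter (fun u => (x : ℤ) + s * f u ∈ zset (vls par W₀ X n f)), a u ≤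
      ∑ v ∈ X, xiC n par W₀ X a x s v f (f v) := by
  classical
  have hxv : ∀ v, x ∉ (Wt W₀ X v).image f := by
    intro v h
    refine hx (image_subset_image ?_ h)
    unfold Wt
    exact union_subset_union (subset_refl _) (filter_subset _ _)
  set g : ℕ → ℝ := fun v => if (x : ℤ) + s * (f v : ℕ) ∈ zset (vls par W₀ X v f ∪ Nw n par W₀ X v f (f v))
    then a v else 0 with hg
  set h : ℕ → ℕ → ℝ := fun v u => if (x : ℤ) + s * f u ∈ zset (Nw n par W₀ X v f (f v)) then a u else 0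
    with hh
  have hxi : ∀ v, xiC n par W₀ X a x s v f (f v) = g v + ∑ u ∈ X.filter (· < v), h v u := by
    intro v
    unfold xiC
    rw [if_neg (hxv v)]
  have hR : ∑ v ∈ X, xiC n par W₀ X a x s v f (f v) =
      ∑ u ∈ X, (g u + ∑ v ∈ X.filter (u < ·), h v u) := by
    rw [Finset.sum_congr rfl (fun v _ => hxi v), sum_add_distrib, sum_add_distrib]
    congr 1
    refine Finset.sum_comm' ?_
    intro v u
    simp only [mem_filter]
    tauto
  rw [hR, sum_filter]
  refine sum_le_sum fun u hu => ?_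
  have hg0 : 0 ≤ g u := by
    simp only [hg]
    split_ifs
    · exact ha u hu
    · exact le_rfl
  have hh0 : ∀ v, 0 ≤ h v u := by
    intro v
    simp only [hh]
    split_ifs
    · exact ha u hu
    · exact le_rfl
  have hs0 : 0 ≤ ∑ v ∈ X.filter (u < ·), h v u := Finset.sum_nonneg fun v _ => hh0 v
  split_ifs with hc
  · unfold zset at hc
    rw [mem_image] at hc
    obtain ⟨z, hz, hzx⟩ := hc
    unfold vls at hz
    rw [mem_image] at hz
    obtain ⟨y, hy, rfl⟩ := hz
    rcases qrsu_item hpar hX hW u hy (f := f) with h1 | ⟨v, hv, huv, h1⟩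
    · have h2 : g u = a u := by
        simp only [hg]
        rw [if_pos]
        rw [← hzx]
        unfold zset
        exact mem_image_of_mem _ (mem_union_left _ h1)
      rw [h2]
      linarith
    · rcases eq_or_lt_of_le huv with h3 | h3
      · subst h3
        have h2 : g u = a u := by
          simp only [hg]
          rw [if_pos]
          rw [← hzx]
          unfold zset
          exact mem_image_of_mem _ (mem_union_right _ h1)
        rw [h2]
        linarith
      · have h2 : h v u = a u := by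
          simp only [hh]
          rw [if_pos]
          rw [← hzx]
          unfold zset
          exact mem_image_of_mem _ h1
        have h4 : h v u ≤ ∑ v ∈ X.filter (u < ·), h v u :=
          Finset.single_le_sum (f := fun v => h v u) (fun w _ => hh0 w) (mem_filter.mpr ⟨hv, h3⟩)
        rw [h2] at h4
        linarith
  · linarith

end SSB
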