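import Pool.Agent.Lib.MP_8a819d_co.LH.Def
import Pool.Agent.Lib.MP_8a819d_co.LH.QRSt

/-!
# MP_8a819d_co, leaf-heavy trees: interface between the numbering of the hosts and the absorber

`W₀` = prescribed vertices (few leaves), `X` = the other hosts of the absorber, `w v` = number of leaves at `v`. The absorber chooses (depending on `N` and `R` only) the set `O` of labels allowed for `X` and bounded test functions `ψ i`,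
`i < N^5`, and (depending on `par`, `W₀`, `X`, `w`) weight vectors `a j`, `j < m`. `QRf` is the conclusion of `qrs` (QRS.lean).
-/

set_option autoImplicit false

namespace SSB

open Finset

/-- quasi-randomness of the labels of `X` -/
structure QRf (m N : ℕ) (κ : ℝ) (par : ℕ → ℕ) (W₀ X O : Finset ℕ) (a ψ : ℕ → ℕ → ℝ) (f : ℕ → ℕ) :
    Prop where
  dens : ∀ j < m, ∃ nb : ℕ → ℝ, (∀ d, 0 ≤ nb d) ∧ (∀ d, nb d * O.card ≤ 1 + κ) ∧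
    (∀ d, d ∉ O → nb d = 0) ∧ ∑ d ∈ O, nb d = 1 ∧
    ((O.filter (fun d => nb d * O.card < 1 - κ)).card : ℝ) ≤ κ * N ∧
    ∀ i < N ^ 5, |∑ u ∈ X, a j u * ψ i (f u) - ∑ d ∈ O, nb d * ψ i d| ≤ (N : ℝ) ^ (-(1 / 80) : ℝ)
  self : ∀ j < m, ∀ x ∈ Icc 1 N, x ∉ (W₀ ∪ X).image f →
    ∀ s : ℤ, s = 1 ∨ s = -1 ∨ s = 2 ∨ s = -2 →
      ∑ u ∈ X.filter (fun u => (x : ℤ) + s * f u ∈ zset ((items par (W₀ ∪ X)).image (val par f))),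
        a j u ≤ κ

/-- the numbers of leaves at the hosts of the absorber -/
structure AbsW (ε κ : ℝ) (N : ℕ) (W₀ X : Finset ℕ) (w : ℕ → ℕ) : Prop where
  disj : Disjoint W₀ X
  few : ((W₀ ∪ X).card : ℝ) ≤ κ * N
  w_le : ∀ v ∈ W₀ ∪ X, (w v : ℝ) ≤ (N : ℝ) ^ (24 / 25 : ℝ)
  wP : ((∑ v ∈ W₀, w v : ℕ) : ℝ) ≤ (N : ℝ) ^ (3 / 4 : ℝ)
  lo : ε * N ≤ ((∑ v ∈ W₀ ∪ X, w v : ℕ) : ℝ)
  hi : ((∑ v ∈ W₀ ∪ X, w v : ℕ) : ℝ) ≤ 2 * ε * N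

/-- the values of the items of the hosts -/
structure AbsV (N : ℕ) (par : ℕ → ℕ) (W₀ X O R : Finset ℕ) (f : ℕ → ℕ) : Prop where
  inj : Set.InjOn (val par f) (items par (W₀ ∪ X))
  rng : ∀ x ∈ items par (W₀ ∪ X), 1 ≤ val par f x ∧ val par f x ≤ N ∧ val par f x ∉ R
  W₀odd : ∀ v ∈ W₀, f v % 2 = 1 ∧ 8 * f v ≤ N
  XO : ∀ v ∈ X, f v ∈ O

/-- the absorber with repeated units -/
def AbsR : Prop :=
  ∃ ε₁ : ℝ, 0 < ε₁ ∧ ∀ ε : ℝ, 0 < ε → ε ≤ ε₁ → ∃ (m : ℕ) (κ β : ℝ), 0 < κ ∧ 0 < β ∧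
    ∃ N₀ : ℕ, ∀ N : ℕ, N₀ ≤ N → ∀ R : Finset ℕ, R ⊆ Icc 1 N → (R.card : ℝ) ≤ β * N →
    ∃ (O : Finset ℕ) (ψ : ℕ → ℕ → ℝ), (∀ c ∈ O, c % 2 = 1 ∧ c ≤ N) ∧ N ≤ 32 * O.card ∧
      (∀ i < N ^ 5, ∀ c, |ψ i c| ≤ 1) ∧
      ∀ (par : ℕ → ℕ) (W₀ X : Finset ℕ) (w : ℕ → ℕ), AbsW ε κ N W₀ X w →
      ∃ a : ℕ → ℕ → ℝ, (∀ j < m, (∀ u ∈ X, 0 ≤ a j u ∧ a j u ≤ (N : ℝ) ^ (-(1 / 30) : ℝ)) ∧
          ∑ u ∈ X, a j u = 1) ∧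
        ∀ f : ℕ → ℕ, AbsV N par W₀ X O R f → QRf m N κ par W₀ X O a ψ f →
        ∃ A : Finset ℕ, A ⊆ Icc 1 N ∧ Disjoint A R ∧
          Disjoint A ((items par (W₀ ∪ X)).image (val par f)) ∧ Bal A ∧
          (A.card : ℝ) + 2 * β * N ≤ 2 * ((∑ v ∈ W₀ ∪ X, w v : ℕ) : ℝ) ∧
          ∀ J : Finset ℕ, J ⊆ Icc 1 N → Disjoint J A →
            Disjoint J ((items par (W₀ ∪ X)).image (val par f)) → Bal J →
            J.card + A.card = 2 * ∑ v ∈ W₀ ∪ X, w v →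
            MatchU (unitsW (W₀ ∪ X) w) (cW f) (A ∪ J)

end SSB
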