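import Mathlib

/-!
# MP_8a819d_co, leaf-heavy trees: small Fourier coefficients give a small bilinear form

(helper26)

PROOF. Let `e t = exp (2 π i t / M)` (a function on `ℤ`, period `M`), `A k = ∑ x ∈ Icc 1 N, F x * e (k x)`, `B k = ∑ y ∈ Icc 1 N, G y * e (k y)`, `D k = ∑ c ∈ range (N + 1), d c * e (k c)`. For integers `x, y` in `[1, N]` and `c` with
`d c ≠ 0`: `x + s c` and `y` are in `[0, M)`, so `∑ k ∈ range M, e (k (x + s c - y))` is `M` if `y = x + s c` and `0` otherwise. Hence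
`M * ∑ c, d c * ∑ x, F x * G (x + s c) = ∑ k ∈ range M, A k * conj (B k) * D (s k)` (`G` is `0` outside `[1, N]`). `D (s k) = D ((s k) % M)` (period), and
`|D k| ≤ 2 η` for `k < M` (real part and imaginary part are at most `η` in absolute value). Cauchy-Schwarz: `|∑ k, A k conj (B k) D (s k)| ≤ 2 η √(∑ k, |A k|^2) √(∑ k, |B k|^2)`, and (Parseval)
`∑ k ∈ range M, |A k|^2 = M * ∑ x, F x^2` (the same orthogonality relation; `F x = 0` outside `[1, N]`, `N < M`), the same for `B`.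
-/

set_option autoImplicit false

namespace SSB

open Finset

/-- The additive character. -/
private noncomputable def mixE (M : ℕ) (t : ℤ) : ℂ := Complex.exp (2 * Real.pi * Complex.I * t / M)

private theorem mixE_add (M : ℕ) (a b : ℤ) : mixE M (a + b) = mixE M a * mixE M b := by
  unfold mixE
  rw [← Complex.exp_add]
  congr 1
  push_cast
  ring

private theorem mixE_conj (M : ℕ) (a : ℤ) : starRingEnd ℂ (mixE M a) = mixE M (-a) := by
  unfold mixE
  rw [← Complex.exp_conj]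
  congr 1
  simp only [map_div₀, map_mul, Complex.conj_ofReal, Complex.conj_I, map_intCast, map_natCast,
    map_ofNat]
  push_cast
  ring

private theorem mixE_zero (M : ℕ) : mixE M 0 = 1 := by
  unfold mixE
  simp

private theorem mixE_nat_mul (M : ℕ) (k : ℕ) (t : ℤ) : mixE M (k * t) = mixE M t ^ k := by
  unfold mixE
  rw [← Complex.exp_nat_mul]
  congr 1
  push_cast
  ring

private theorem mixE_M {M : ℕ} (hM : 1 ≤ M) (t : ℤ) : mixE M (M * t) = 1 := by
  unfold mixE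
  have hM0 : (M : ℂ) ≠ 0 := Nat.cast_ne_zero.2 (by omega)
  rw [Complex.exp_eq_one_iff]
  refine ⟨t, ?_⟩
  push_cast
  field_simp

private theorem mixE_eq_one {M : ℕ} (hM : 1 ≤ M) {t : ℤ} (h : mixE M t = 1) : (M : ℤ) ∣ t := by
  unfold mixE at h
  have hM0 : (M : ℂ) ≠ 0 := Nat.cast_ne_zero.2 (by omega)
  rw [Complex.exp_eq_one_iff] at h
  obtain ⟨n, hn⟩ := h
  refine ⟨n, ?_⟩
  have hpi : (2 * Real.pi * Complex.I : ℂ) ≠ 0 := Complex.two_pi_I_ne_zero
  have h1 : (2 * Real.pi * Complex.I : ℂ) * t = (2 * Real.pi * Complex.I) * (M * n) := by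
    field_simp at hn
    linear_combination (2 * Real.pi * Complex.I : ℂ) * hn
  have h2 := mul_left_cancel₀ hpi h1
  exact_mod_cast h2

private theorem mixE_sum {M : ℕ} (hM : 1 ≤ M) {t : ℤ} (h1 : -(M : ℤ) < t) (h2 : t < M) :
    ∑ k ∈ range M, mixE M (k * t) = if t = 0 then (M : ℂ) else 0 := by
  split_ifs with h
  · rw [h]
    simp [mixE_zero]
  · simp only [mixE_nat_mul]
    have h3 : mixE M t ≠ 1 := by
      intro h4
      obtain ⟨n, hn⟩ := mixE_eq_one hM h4
      rcases lt_trichotomy n 0 with h5 | h5 | h5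
      · nlinarith
      · rw [h5, mul_zero] at hn
        exact h hn
      · nlinarith
    rw [geom_sum_eq h3, ← mixE_nat_mul, mixE_M hM, sub_self, zero_div]

private noncomputable def mixA (N M : ℕ) (F : ℤ → ℝ) (k : ℤ) : ℂ :=
  ∑ x ∈ Icc (1 : ℤ) N, (F x : ℂ) * mixE M (k * x)

private noncomputable def mixD (N M : ℕ) (d : ℕ → ℝ) (k : ℤ) : ℂ :=
  ∑ c ∈ range (N + 1), (d c : ℂ) * mixE M (k * c)

private theorem mixD_per {N M : ℕ} (hM : 1 ≤ M) (d : ℕ → ℝ) (a b : ℤ) :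
    mixD N M d (a + M * b) = mixD N M d a := by
  unfold mixD
  refine sum_congr rfl fun c _ => ?_
  have h1 : (a + M * b) * (c : ℤ) = a * c + M * (b * c) := by ring
  rw [h1, mixE_add, mixE_M hM, mul_one]

private theorem mixD_le {N M : ℕ} (hM : 1 ≤ M) (d : ℕ → ℝ) (η : ℝ)
    (hcos : ∀ k < M, |∑ c ∈ range (N + 1), d c * Real.cos (2 * Real.pi * k * c / M)| ≤ η)
    (hsin : ∀ k < M, |∑ c ∈ range (N + 1), d c * Real.sin (2 * Real.pi * k * c / M)| ≤ η)
    (k : ℕ) : ‖mixD N M d k‖ ≤ 2 * η := by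
  have h0 : mixD N M d k = mixD N M d ((k % M : ℕ) : ℤ) := by
    have h1 : (k : ℤ) = ((k % M : ℕ) : ℤ) + M * ((k / M : ℕ) : ℤ) := by
      exact_mod_cast (Nat.mod_add_div k M).symm
    rw [h1, mixD_per hM]
  rw [h0]
  have hk : k % M < M := Nat.mod_lt _ (by omega)
  set m := k % M with hm
  have hE : ∀ c : ℕ, mixE M ((m : ℤ) * c) =
      (Real.cos (2 * Real.pi * m * c / M) : ℂ) + (Real.sin (2 * Real.pi * m * c / M) : ℂ) * Complex.I := by
    intro c
    unfold mixE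
    rw [Complex.ofReal_cos, Complex.ofReal_sin, ← Complex.exp_mul_I]
    congr 1
    push_cast
    ring
  have hD : mixD N M d (m : ℤ) =
      ((∑ c ∈ range (N + 1), d c * Real.cos (2 * Real.pi * m * c / M) : ℝ) : ℂ) +
      ((∑ c ∈ range (N + 1), d c * Real.sin (2 * Real.pi * m * c / M) : ℝ) : ℂ) * Complex.I := by
    unfold mixD
    rw [Complex.ofReal_sum, Complex.ofReal_sum, sum_mul, ← sum_add_distrib]
    refine sum_congr rfl fun c _ => ?_
    rw [hE]
    push_cast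
    ring
  rw [hD]
  refine (norm_add_le _ _).trans ?_
  rw [norm_mul, Complex.norm_I, mul_one, Complex.norm_real, Complex.norm_real, Real.norm_eq_abs,
    Real.norm_eq_abs]
  linarith [hcos m hk, hsin m hk]

private theorem mixA_parseval {N M : ℕ} (hM : 1 ≤ M) (hNM : N < M) (F : ℤ → ℝ) :
    ∑ k ∈ range M, ‖mixA N M F k‖ ^ 2 = M * ∑ x ∈ Icc (1 : ℤ) N, F x ^ 2 := by
  have h1 : ∀ k : ℕ, ((‖mixA N M F k‖ ^ 2 : ℝ) : ℂ) =
      ∑ x ∈ Icc (1 : ℤ) N, ∑ y ∈ Icc (1 : ℤ) N, (F x : ℂ) * F y * mixE M (k * (x - y)) := by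
    intro k
    rw [← Complex.normSq_eq_norm_sq, ← Complex.mul_conj, mixA, map_sum, sum_mul_sum]
    refine sum_congr rfl fun x _ => sum_congr rfl fun y _ => ?_
    rw [map_mul, Complex.conj_ofReal, mixE_conj, mul_sub, sub_eq_add_neg, mixE_add]
    ring
  have h2 : ((∑ k ∈ range M, ‖mixA N M F k‖ ^ 2 : ℝ) : ℂ) =
      ((M * ∑ x ∈ Icc (1 : ℤ) N, F x ^ 2 : ℝ) : ℂ) := by
    rw [Complex.ofReal_sum, sum_congr rfl fun k _ => h1 k, sum_comm]
    push_cast
    rw [mul_sum]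
    refine sum_congr rfl fun x hx => ?_
    rw [sum_comm]
    rw [sum_eq_single x]
    · rw [← mul_sum, mixE_sum hM (by omega) (by omega), if_pos (sub_self x)]
      ring
    · intro y hy hyx
      rw [mem_Icc] at hx hy
      rw [← mul_sum, mixE_sum hM (by omega) (by omega), if_neg (fun h => hyx (by omega)), mul_zero]
    · intro h
      exact absurd hx h
  exact_mod_cast h2

theorem mix_of_fourier {N M s : ℕ} (hM : 1 ≤ M) (hNM : N < M) (d : ℕ → ℝ) (η : ℝ)
    (hd : ∀ c, d c ≠ 0 → N + s * c < M)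
    (hcos : ∀ k < M, |∑ c ∈ range (N + 1), d c * Real.cos (2 * Real.pi * k * c / M)| ≤ η)
    (hsin : ∀ k < M, |∑ c ∈ range (N + 1), d c * Real.sin (2 * Real.pi * k * c / M)| ≤ η)
    (F G : ℤ → ℝ) (hF : ∀ x, F x ≠ 0 → 1 ≤ x ∧ x ≤ N) (hG : ∀ x, G x ≠ 0 → 1 ≤ x ∧ x ≤ N) :
    |∑ c ∈ range (N + 1), d c * ∑ x ∈ Icc (1 : ℤ) N, F x * G (x + s * c)| ≤
      2 * η * (√(∑ x ∈ Icc (1 : ℤ) N, F x ^ 2) * √(∑ x ∈ Icc (1 : ℤ) N, G x ^ 2)) := by
  have hη : 0 ≤ η := (abs_nonneg _).trans (hcos 0 (by omega))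
  set S : ℝ := ∑ c ∈ range (N + 1), d c * ∑ x ∈ Icc (1 : ℤ) N, F x * G (x + s * c) with hS
  have key : ((M * S : ℝ) : ℂ) = ∑ k ∈ range M,
      mixA N M F k * starRingEnd ℂ (mixA N M G k) * mixD N M d ((s * k : ℕ) : ℤ) := by
    have h1 : ∀ k : ℕ, mixA N M F k * starRingEnd ℂ (mixA N M G k) * mixD N M d ((s * k : ℕ) : ℤ) =
        ∑ c ∈ range (N + 1), ∑ x ∈ Icc (1 : ℤ) N, ∑ y ∈ Icc (1 : ℤ) N,
          (d c : ℂ) * F x * G y * mixE M (k * (x + s * c - y)) := by
      intro k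
      rw [mixA, mixA, mixD, map_sum, sum_mul_sum, mul_comm, sum_mul]
      refine sum_congr rfl fun c _ => ?_
      rw [mul_sum]
      refine sum_congr rfl fun x _ => ?_
      rw [mul_sum]
      refine sum_congr rfl fun y _ => ?_
      have h2 : (k : ℤ) * (x + s * c - y) = k * x + (((s * k : ℕ) : ℤ) * c + -(k * y)) := by
        push_cast
        ring
      rw [map_mul, Complex.conj_ofReal, mixE_conj, h2, mixE_add, mixE_add]
      ring
    rw [sum_congr rfl fun k _ => h1 k, sum_comm, hS]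
    push_cast
    rw [mul_sum]
    refine sum_congr rfl fun c _ => ?_
    rw [sum_comm, mul_left_comm, mul_sum, mul_sum]
    refine sum_congr rfl fun x hx => ?_
    by_cases hc : d c = 0
    · simp [hc]
    have hNc := hd c hc
    have hsc : (N : ℤ) + s * c < M := by exact_mod_cast hNc
    have hsc0 : (0 : ℤ) ≤ s * c := by positivity
    rw [mem_Icc] at hx
    rw [sum_comm]
    by_cases hG0 : G (x + s * c) = 0
    · rw [hG0]
      push_cast
      rw [mul_zero, mul_zero, mul_zero]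
      symm
      refine sum_eq_zero fun y hy => ?_
      rw [mem_Icc] at hy
      rw [← mul_sum, mixE_sum hM (by omega) (by omega)]
      split_ifs with h
      · have h3 : y = x + s * c := by omega
        rw [h3, hG0]
        push_cast
        ring
      · ring
    · have h4 := hG _ hG0
      rw [sum_eq_single (x + s * c)]
      · rw [← mul_sum, mixE_sum hM (by omega) (by omega), if_pos (by ring)]
        ring
      · intro y hy hyx
        rw [mem_Icc] at hy
        rw [← mul_sum, mixE_sum hM (by omega) (by omega), if_neg (fun h => hyx (by omega)), mul_zero]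
      · intro h
        exact absurd (mem_Icc.2 h4) h
  have hMp : (0 : ℝ) < M := by exact_mod_cast hM
  have h5 : |M * S| ≤ ∑ k ∈ range M, ‖mixA N M F k‖ * ‖mixA N M G k‖ * (2 * η) := by
    have h6 : |M * S| = ‖((M * S : ℝ) : ℂ)‖ := by rw [Complex.norm_real, Real.norm_eq_abs]
    rw [h6, key]
    refine (norm_sum_le _ _).trans (sum_le_sum fun k _ => ?_)
    rw [norm_mul, norm_mul, RCLike.norm_conj]
    exact mul_le_mul_of_nonneg_left (mixD_le hM d η hcos hsin (s * k)) (by positivity)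
  have h7 : ∑ k ∈ range M, ‖mixA N M F k‖ * ‖mixA N M G k‖ ≤
      √(∑ k ∈ range M, ‖mixA N M F k‖ ^ 2) * √(∑ k ∈ range M, ‖mixA N M G k‖ ^ 2) :=
    Real.sum_mul_le_sqrt_mul_sqrt _ _ _
  rw [mixA_parseval hM hNM, mixA_parseval hM hNM, Real.sqrt_mul hMp.le, Real.sqrt_mul hMp.le] at h7
  rw [← sum_mul] at h5
  have h8 : |M * S| = M * |S| := by rw [abs_mul, abs_of_pos hMp]
  rw [h8] at h5
  have h9 : √(M : ℝ) * √(M : ℝ) = M := Real.mul_self_sqrt hMp.le
  have h10 : M * |S| ≤ M * (2 * η * (√(∑ x ∈ Icc (1 : ℤ) N, F x ^ 2) *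
      √(∑ x ∈ Icc (1 : ℤ) N, G x ^ 2))) := by
    refine h5.trans ?_
    calc (∑ k ∈ range M, ‖mixA N M F k‖ * ‖mixA N M G k‖) * (2 * η)
        ≤ (√(M : ℝ) * √(∑ x ∈ Icc (1 : ℤ) N, F x ^ 2) *
          (√(M : ℝ) * √(∑ x ∈ Icc (1 : ℤ) N, G x ^ 2))) * (2 * η) :=
          mul_le_mul_of_nonneg_right h7 (by positivity)
      _ = (√(M : ℝ) * √(M : ℝ)) * (2 * η * (√(∑ x ∈ Icc (1 : ℤ) N, F x ^ 2) *
            √(∑ x ∈ Icc (1 : ℤ) N, G x ^ 2))) := by ring
      _ = _ := by rw [h9]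
  exact le_of_mul_le_mul_left h10 hMp

end SSB
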