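import Pool.Agent.Lib.MP_8a819d_co.LH.AbW
import Pool.Agent.Lib.MP_8a819d_co.LH.AbsI
import Pool.Agent.Lib.MP_8a819d_co.LH.MixF

/-!
# MP_8a819d_co, leaf-heavy trees: the absorber in the form needed by the core (`AbsR` of `AbsI.lean`)

PROOF. `c₂ = 1/100`, `L₀, ε₁` from `absW`. Given `ε ≤ ε₁` let `ε' = 2 ε/3`, `β', κ', N₁` from `absW`; `m = 1`, `κ = min (1/20) (min (κ'/4) (ε/(12 (L₀ + 1))))`, `β = min β' (κ'/400)`. `O` = odd `c` with `8 c ≤ N` (`N/16 - 1 ≤ |O| ≤ N/16 + 1`), `M = 2 N + 1`,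
TESTS: `ψ i c = cos (2 π i c/M)` for `i < M`, `sin (2 π (i - M) c/M)` for `M ≤ i < 2 M`, and for `i = 2 M + 4 x + j` (`x ≤ N`, `j < 4`): `1` if `x + s_j c ∈ zset R` (as integers), `0` otherwise, `s = 1, -1, 2, -2`; `0` for all other `i`. (`2 M + 4 N + 4 ≤ N^5`.)
WEIGHTS: `S = {u ∈ X : L₀ ≤ w u}`, `W = ∑ u ∈ S, w u ≥ ε N - N^(3/4) - L₀ |X| ≥ ε' N` (`AbsW.lo`, `wP`, `few`), `a 0 u = w u/W` for `u ∈ S`, `0` otherwise; `a 0 u ≤ N^(24/25)/(ε' N) ≤ N^(-1/30)`.
QRU for `unitsW S w`, `cW f`, `η = N^(-1/100)`, `κ'`: `odd`, `le` from `XO`; `mult`: `f` is injective on `W₀ ∪ X` (`AbsV.inj` for the items `inl u`), so at most `w u ≤ N^(24/25) ≤ η W` units have a given label; `dens`: `nb` of `QRf.dens 0`: `nb d ≤ 1.05/|O| ≤ 32/N`,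
`nb d < 7/N` implies `nb d |O| < 1 - κ`. BILINEAR FORM: sums over units are sums over hosts with the weight `w u` (`sum_sigma`); the difference is `W * ∑ c ∈ range (N + 1), D c * ∑ x, F x * G (x + c)` with `D c = (∑ u ∈ S with f u = c, a 0 u) - nb c`. `mix_of_fourier` with `s = 1`; `∑ c, D c cos (2 π k c/M) =
∑ u ∈ X, a 0 u ψ k (f u) - ∑ d ∈ O, nb d ψ k d`, at most `N^(-1/80)` in absolute value (the same for `sin`). So the bound is `2 N^(-1/80) W |F| |G| ≤ η W |F| |G|`.
`absW` with `ε'`, `S`, `S1 = W₀ ∪ X`, `FT = (items par (W₀ ∪ X)).image (val par f)`: `|FT| ≤ 2 |W₀ ∪ X| ≤ 2 κ N ≤ κ' N` (`items_le` of AT.CloE or a direct bound); `|R| ≤ β N`. REGULARITY: let `x` be in `[1, N]` and not in `FT`, so `x.toNat ∉ (W₀ ∪ X).image f` (`f u` is the value of the item `inl u`). `#{e : x + m c e ∈ zset (FT ∪ R)}/W ≤ ∑ u ∈ X with x + m f u ∈ zset FT, a 0 u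
+ ∑ u ∈ X, a 0 u ψ (2 M + 4 x + j) (f u)`. The first sum is at most `κ` (`QRf.self`), the second at most `∑ d ∈ O, nb d ψ d + N^(-1/80) ≤ (1.05/|O|) |R| + N^(-1/80) ≤ 20 β + κ'/8` (`d ↦ x + m d` is injective). The sum is at most `κ'`.
The conclusion of `absW` is the conclusion of `AbsR` (`|unitsW S1 w| = ∑ v ∈ S1, w v`, `2 β N ≤ 2 β' N`).
-/

set_option autoImplicit false

namespace SSB

open Finset

/-- A negative power is eventually small. -/
theorem abr_small (s : ℝ) (hs : 0 < s) (t : ℝ) (ht : 0 < t) :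
    ∃ N₀ : ℕ, ∀ N : ℕ, N₀ ≤ N → (N : ℝ) ^ (-s) ≤ t := by
  have h1 : Filter.Tendsto (fun N : ℕ => (N : ℝ) ^ (-s)) Filter.atTop (nhds 0) :=
    (tendsto_rpow_neg_atTop hs).comp tendsto_natCast_atTop_atTop
  have h2 := h1.eventually (ge_mem_nhds ht)
  exact Filter.eventually_atTop.1 h2

theorem abr_items_le (par : ℕ → ℕ) (W : Finset ℕ) : (items par W).card ≤ 2 * W.card := by
  rw [items]
  refine (card_union_le _ _).trans ?_
  have h1 : (W.image (Sum.inl : ℕ → ℕ ⊕ ℕ)).card ≤ W.card := card_image_le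
  have h2 : ((W.filter (fun i => 1 ≤ i ∧ par i ∈ W)).image (Sum.inr : ℕ → ℕ ⊕ ℕ)).card ≤ W.card :=
    card_image_le.trans (card_filter_le _ _)
  omega

/-- The odd numbers `c` with `8 c ≤ N`. -/
def abrO (N : ℕ) : Finset ℕ := (range ((N / 8 + 1) / 2)).image fun k => 2 * k + 1

theorem mem_abrO {N c : ℕ} : c ∈ abrO N ↔ c % 2 = 1 ∧ 8 * c ≤ N := by
  rw [abrO, mem_image]
  constructor
  · rintro ⟨k, hk, rfl⟩
    rw [mem_range] at hk
    omega
  · rintro ⟨h1, h2⟩
    exact ⟨c / 2, by rw [mem_range]; omega, by omega⟩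

theorem card_abrO (N : ℕ) : (abrO N).card = (N / 8 + 1) / 2 := by
  rw [abrO, card_image_of_injective, card_range]
  intro a b h
  simp only at h
  omega

theorem abrO_lo (N : ℕ) : (N : ℝ) ≤ 16 * (abrO N).card + 16 := by
  rw [card_abrO]
  exact_mod_cast (by omega : N ≤ 16 * ((N / 8 + 1) / 2) + 16)

theorem abrO_hi (N : ℕ) : (16 : ℝ) * (abrO N).card ≤ N + 16 := by
  rw [card_abrO]
  exact_mod_cast (by omega : 16 * ((N / 8 + 1) / 2) ≤ N + 16)

/-- The multiplier number `j`. -/
def abrS (j : ℕ) : ℤ := if j = 0 then 1 else if j = 1 then -1 else if j = 2 then 2 else -2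

/-- The test functions. -/
noncomputable def abrPsi (N : ℕ) (R : Finset ℕ) (i c : ℕ) : ℝ :=
  if i < 2 * N + 1 then Real.cos (2 * Real.pi * i * c / (2 * N + 1 : ℕ))
  else if i < 2 * (2 * N + 1) then
    Real.sin (2 * Real.pi * (i - (2 * N + 1) : ℕ) * c / (2 * N + 1 : ℕ))
  else if (((i - 2 * (2 * N + 1)) / 4 : ℕ) : ℤ) + abrS ((i - 2 * (2 * N + 1)) % 4) * c ∈ zset R
    then 1 else 0

theorem abrPsi_le (N : ℕ) (R : Finset ℕ) (i c : ℕ) : |abrPsi N R i c| ≤ 1 := by
  unfold abrPsi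
  split_ifs
  · exact Real.abs_cos_le_one _
  · exact Real.abs_sin_le_one _
  · simp
  · simp

theorem abrPsi_cos {N k : ℕ} (hk : k < 2 * N + 1) (R : Finset ℕ) (c : ℕ) :
    abrPsi N R k c = Real.cos (2 * Real.pi * k * c / (2 * N + 1 : ℕ)) := by
  rw [abrPsi, if_pos hk]

theorem abrPsi_sin {N k : ℕ} (hk : k < 2 * N + 1) (R : Finset ℕ) (c : ℕ) :
    abrPsi N R (2 * N + 1 + k) c = Real.sin (2 * Real.pi * k * c / (2 * N + 1 : ℕ)) := by
  rw [abrPsi, if_neg (by omega), if_pos (by omega)]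
  have h : 2 * N + 1 + k - (2 * N + 1) = k := by omega
  rw [h]

theorem abrPsi_set (N : ℕ) (R : Finset ℕ) (x j c : ℕ) (hj : j < 4) :
    abrPsi N R (2 * (2 * N + 1) + (4 * x + j)) c =
      if (x : ℤ) + abrS j * c ∈ zset R then 1 else 0 := by
  rw [abrPsi, if_neg (by omega), if_neg (by omega)]
  have h1 : (2 * (2 * N + 1) + (4 * x + j) - 2 * (2 * N + 1)) / 4 = x := by omega
  have h2 : (2 * (2 * N + 1) + (4 * x + j) - 2 * (2 * N + 1)) % 4 = j := by omega
  rw [h1, h2]

theorem abr_mul {m : ℤ} (hm : m = 1 ∨ m = -1 ∨ m = 2 ∨ m = -2) : ∃ j < 4, abrS j = m := by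
  rcases hm with rfl | rfl | rfl | rfl
  · exact ⟨0, by norm_num, rfl⟩
  · exact ⟨1, by norm_num, rfl⟩
  · exact ⟨2, by norm_num, rfl⟩
  · exact ⟨3, by norm_num, rfl⟩

theorem abr_card_units (S : Finset ℕ) (w : ℕ → ℕ) : (unitsW S w).card = ∑ u ∈ S, w u := by
  rw [unitsW, card_sigma]
  simp

/-- A sum over the units. -/
theorem abr_sum_units (S : Finset ℕ) (w f : ℕ → ℕ) (h : ℕ → ℝ) :
    ∑ e ∈ unitsW S w, h (cW f e) = ∑ u ∈ S, (w u : ℝ) * h (f u) := by
  rw [unitsW, sum_sigma]
  refine sum_congr rfl fun u _ => ?_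
  simp [cW]

theorem absR : AbsR := by
  classical
  obtain ⟨L₀, ε₁, hε₁, habs⟩ := absW (1 / 100) (by norm_num)
  refine ⟨ε₁, hε₁, fun ε hε hεε => ?_⟩
  set ε' : ℝ := 2 * ε / 3 with hε'
  have hε'0 : 0 < ε' := by positivity
  obtain ⟨β', κ', hβ', hκ', hβκ, N₁, hN₁⟩ := habs ε' hε'0 (by rw [hε']; linarith)
  set κ : ℝ := min (1 / 20) (min (κ' / 4) (ε / (12 * (L₀ + 1)))) with hκ
  have hκ0 : 0 < κ := by
    rw [hκ]
    refine lt_min (by norm_num) (lt_min (by linarith) (by positivity))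
  have hκ1 : κ ≤ 1 / 20 := min_le_left _ _
  have hκ2 : κ ≤ κ' / 4 := (min_le_right _ _).trans (min_le_left _ _)
  have hκ3 : κ ≤ ε / (12 * (L₀ + 1)) := (min_le_right _ _).trans (min_le_right _ _)
  set β : ℝ := min β' (κ' / 400) with hβ
  have hβ0 : 0 < β := lt_min hβ' (by linarith)
  have hβ1 : β ≤ β' := min_le_left _ _
  have hβ2 : β ≤ κ' / 400 := min_le_right _ _
  obtain ⟨n1, hn1⟩ := abr_small (1 / 4) (by norm_num) (ε / 12) (by positivity)
  obtain ⟨n2, hn2⟩ := abr_small (1 / 150) (by norm_num) ε' hε'0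
  obtain ⟨n3, hn3⟩ := abr_small (3 / 100) (by norm_num) ε' hε'0
  obtain ⟨n4, hn4⟩ := abr_small (1 / 400) (by norm_num) (1 / 2) (by norm_num)
  obtain ⟨n5, hn5⟩ := abr_small (1 / 80) (by norm_num) (κ' / 8) (by positivity)
  refine ⟨1, κ, β, hκ0, hβ0, N₁ + n1 + n2 + n3 + n4 + n5 + 1000, fun N hN R hR hRc => ?_⟩
  have hN1000 : 1000 ≤ N := by omega
  have hNr : (1000 : ℝ) ≤ N := by exact_mod_cast hN1000
  have hN0 : (0 : ℝ) < N := by linarith
  have e1 := hn1 N (by omega)
  have e2 := hn2 N (by omega)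
  have e3 := hn3 N (by omega)
  have e4 := hn4 N (by omega)
  have e5 := hn5 N (by omega)
  have hcardO := abrO_lo N
  have hcardO' := abrO_hi N
  have hOpos : (0 : ℝ) < (abrO N).card := by linarith
  refine ⟨abrO N, abrPsi N R, ?_, ?_, fun i _ c => abrPsi_le N R i c, ?_⟩
  · intro c hc
    rw [mem_abrO] at hc
    exact ⟨hc.1, by omega⟩
  · rw [card_abrO]
    omega
  intro par W₀ X w hW
  set S : Finset ℕ := X.filter fun u => L₀ ≤ w u with hS
  have hSX : S ⊆ X := filter_subset _ _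
  set W : ℝ := ((unitsW S w).card : ℝ) with hWdef
  have hWsum : W = ∑ u ∈ S, (w u : ℝ) := by
    rw [hWdef, abr_card_units]
    push_cast
    rfl
  -- the lower bound of the number of units
  have hWlo : ε' * N ≤ W := by
    have h1 : ((∑ v ∈ W₀ ∪ X, w v : ℕ) : ℝ) =
        ((∑ v ∈ W₀, w v : ℕ) : ℝ) + ∑ v ∈ X, (w v : ℝ) := by
      rw [sum_union hW.disj]
      push_cast
      rfl
    have h2 : ∑ v ∈ X, (w v : ℝ) = ∑ v ∈ S, (w v : ℝ) +
        ∑ v ∈ X.filter (fun u => ¬ L₀ ≤ w u), (w v : ℝ) :=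
      (sum_filter_add_sum_filter_not X (fun u => L₀ ≤ w u) fun v => (w v : ℝ)).symm
    have h3 : ∑ v ∈ X.filter (fun u => ¬ L₀ ≤ w u), (w v : ℝ) ≤ X.card * (L₀ : ℝ) := by
      have h4 : ∑ v ∈ X.filter (fun u => ¬ L₀ ≤ w u), (w v : ℝ) ≤
          ∑ _v ∈ X.filter (fun u => ¬ L₀ ≤ w u), (L₀ : ℝ) := by
        refine sum_le_sum fun v hv => ?_
        rw [mem_filter] at hv
        exact_mod_cast (by omega : w v ≤ L₀)
      rw [sum_const, nsmul_eq_mul] at h4
      refine h4.trans ?_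
      have h5 : ((X.filter (fun u => ¬ L₀ ≤ w u)).card : ℝ) ≤ X.card := by
        exact_mod_cast card_filter_le _ _
      exact mul_le_mul_of_nonneg_right h5 (Nat.cast_nonneg _)
    have h6 : (X.card : ℝ) ≤ κ * N := by
      have h7 : (X.card : ℝ) ≤ (W₀ ∪ X).card := by
        exact_mod_cast card_le_card subset_union_right
      exact h7.trans hW.few
    have h8 : (X.card : ℝ) * L₀ ≤ ε / 12 * N := by
      have h9 : (X.card : ℝ) ≤ ε / (12 * (L₀ + 1)) * N :=
        h6.trans (mul_le_mul_of_nonneg_right hκ3 hN0.le)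
      have h10 : (X.card : ℝ) * L₀ ≤ ε / (12 * (L₀ + 1)) * N * (L₀ + 1) := by
        refine mul_le_mul h9 (by linarith) (Nat.cast_nonneg _) (by positivity)
      refine h10.trans (le_of_eq ?_)
      field_simp
    have h11 : (N : ℝ) ^ (3 / 4 : ℝ) ≤ ε / 12 * N := by
      have h12 : (N : ℝ) ^ (3 / 4 : ℝ) = (N : ℝ) ^ (-(1 / 4) : ℝ) * N := by
        have h13 : (N : ℝ) ^ (-(1 / 4) : ℝ) * N = (N : ℝ) ^ (-(1 / 4) : ℝ) * (N : ℝ) ^ (1 : ℝ) := by
          rw [Real.rpow_one]
        rw [h13, ← Real.rpow_add hN0]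
        norm_num
      rw [h12]
      exact mul_le_mul_of_nonneg_right e1 hN0.le
    have h14 := hW.lo
    have h15 := hW.wP
    rw [h1, h2, ← hWsum] at h14
    have h16 : ε' * N = ε * N - ε / 12 * N - ε / 12 * N - ε / 6 * N := by
      rw [hε']
      ring
    have h17 : 0 ≤ ε / 6 * N := by positivity
    linarith
  have hWpos : 0 < W := lt_of_lt_of_le (by positivity) hWlo
  set a : ℕ → ℕ → ℝ := fun _ u => if u ∈ S then (w u : ℝ) / W else 0 with ha
  have ha0 : ∀ j u, 0 ≤ a j u := by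
    intro j u
    simp only [ha]
    split_ifs
    · positivity
    · exact le_rfl
  -- sums over the units
  have hunits : ∀ h : ℕ → ℝ, ∀ f : ℕ → ℕ, ∑ e ∈ unitsW S w, h (cW f e) =
      W * ∑ u ∈ X, a 0 u * h (f u) := by
    intro h f
    rw [abr_sum_units, mul_sum]
    have h1 : ∑ u ∈ X, W * (a 0 u * h (f u)) = ∑ u ∈ S, W * (a 0 u * h (f u)) := by
      refine (sum_subset hSX fun u _ hu => ?_).symm
      simp only [ha]
      rw [if_neg hu, zero_mul, mul_zero]
    rw [h1]
    refine sum_congr rfl fun u hu => ?_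
    simp only [ha]
    rw [if_pos hu]
    field_simp
  refine ⟨a, ?_, ?_⟩
  · intro j _
    refine ⟨fun u hu => ⟨ha0 j u, ?_⟩, ?_⟩
    · simp only [ha]
      split_ifs with hu1
      · rw [div_le_iff₀ hWpos]
        have h1 := hW.w_le u (mem_union_right _ hu)
        refine h1.trans ?_
        have h2 : (N : ℝ) ^ (24 / 25 : ℝ) =
            (N : ℝ) ^ (-(1 / 30) : ℝ) * ((N : ℝ) ^ (-(1 / 150) : ℝ) * (N : ℝ) ^ (1 : ℝ)) := by
          rw [← Real.rpow_add hN0, ← Real.rpow_add hN0]
          norm_num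
        rw [h2, Real.rpow_one]
        refine mul_le_mul_of_nonneg_left ?_ (Real.rpow_nonneg hN0.le _)
        exact (mul_le_mul_of_nonneg_right e2 hN0.le).trans hWlo
      · exact Real.rpow_nonneg hN0.le _
    · have h1 := hunits (fun _ => 1) id
      simp only [mul_one, sum_const, nsmul_eq_mul] at h1
      have h2 : W * 1 = W * ∑ u ∈ X, a 0 u := by
        rw [mul_one]
        exact h1
      exact (mul_left_cancel₀ hWpos.ne' h2).symm
  intro f hf hq
  -- properties of `f`
  have hfinj : Set.InjOn f (W₀ ∪ X : Finset ℕ) := by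
    intro u hu v hv huv
    have h1 := hf.inj (x₁ := Sum.inl u) (x₂ := Sum.inl v)
      (by rw [mem_coe, mem_items_inl]; exact hu) (by rw [mem_coe, mem_items_inl]; exact hv)
      (by rw [val_inl, val_inl]; exact huv)
    exact Sum.inl.inj h1
  have hfodd : ∀ u ∈ W₀ ∪ X, f u % 2 = 1 ∧ 8 * f u ≤ N := by
    intro u hu
    rcases mem_union.1 hu with h | h
    · exact hf.W₀odd u h
    · exact mem_abrO.1 (hf.XO u h)
  set FT : Finset ℕ := (items par (W₀ ∪ X)).image (val par f) with hFT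
  have hfFT : ∀ u ∈ W₀ ∪ X, f u ∈ FT := by
    intro u hu
    rw [hFT, mem_image]
    exact ⟨Sum.inl u, mem_items_inl.2 hu, rfl⟩
  have hfX : ∀ u ∈ X, f u ∈ abrO N := hf.XO
  obtain ⟨nb, hnb0, hnb1, hnb2, hnb3, hnb4, hnb5⟩ := hq.dens 0 one_pos
  have hnbhi : ∀ d, nb d ≤ 21 / 20 / (abrO N).card := by
    intro d
    rw [le_div_iff₀ hOpos]
    linarith [hnb1 d]
  have htest : ∀ i < N ^ 5, |∑ u ∈ X, a 0 u * abrPsi N R i (f u) -
      ∑ d ∈ abrO N, nb d * abrPsi N R i d| ≤ (N : ℝ) ^ (-(1 / 80) : ℝ) := hnb5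
  have hN5 : 8 * N + 8 ≤ N ^ 5 := by
    have h1 : 1000 * N ≤ N ^ 5 := by
      calc 1000 * N ≤ N ^ 4 * N := by
            refine Nat.mul_le_mul_right _ ?_
            calc 1000 ≤ N := hN1000
              _ = N ^ 1 := (pow_one N).symm
              _ ≤ N ^ 4 := Nat.pow_le_pow_right (by omega) (by norm_num)
        _ = N ^ 5 := by ring
    omega
  -- the sums with the differences of the densities
  set D : ℕ → ℝ := fun c => ∑ u ∈ X.filter (fun u => f u = c), a 0 u - nb c with hD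
  have hDsum : ∀ h : ℕ → ℝ, ∑ c ∈ range (N + 1), D c * h c =
      ∑ u ∈ X, a 0 u * h (f u) - ∑ d ∈ range (N + 1), nb d * h d := by
    intro h
    have h1 : ∀ c ∈ range (N + 1), D c * h c =
        (∑ u ∈ X.filter (fun u => f u = c), a 0 u * h (f u)) - nb c * h c := by
      intro c _
      simp only [hD]
      rw [sub_mul, sum_mul]
      congr 1
      refine sum_congr rfl fun u hu => ?_
      rw [mem_filter] at hu
      rw [hu.2]
    rw [sum_congr rfl h1, sum_sub_distrib]
    congr 1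
    refine sum_fiberwise_of_maps_to (g := f) (fun u hu => ?_) fun u => a 0 u * h (f u)
    have h2 := mem_abrO.1 (hfX u hu)
    rw [mem_range]
    omega
  have hOsub : abrO N ⊆ range (N + 1) := by
    intro c hc
    rw [mem_abrO] at hc
    rw [mem_range]
    omega
  have hnbsum : ∀ h : ℕ → ℝ, ∑ d ∈ range (N + 1), nb d * h d = ∑ d ∈ abrO N, nb d * h d := by
    intro h
    refine (sum_subset hOsub fun d _ hd => ?_).symm
    rw [hnb2 d hd, zero_mul]
  have hsqrt : ∀ F G : ℤ → ℝ, 0 ≤ √(∑ x ∈ Icc (1 : ℤ) N, F x ^ 2) * √(∑ x ∈ Icc (1 : ℤ) N, G x ^ 2) :=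
    fun F G => mul_nonneg (Real.sqrt_nonneg _) (Real.sqrt_nonneg _)
  have he80 : 2 * (N : ℝ) ^ (-(1 / 80) : ℝ) ≤ (N : ℝ) ^ (-(1 / 100) : ℝ) := by
    have h1 : (N : ℝ) ^ (-(1 / 80) : ℝ) = (N : ℝ) ^ (-(1 / 100) : ℝ) * (N : ℝ) ^ (-(1 / 400) : ℝ) := by
      rw [← Real.rpow_add hN0]
      norm_num
    rw [h1]
    have h2 : 0 ≤ (N : ℝ) ^ (-(1 / 100) : ℝ) := Real.rpow_nonneg hN0.le _
    nlinarith
  have hQRU : QRU N (unitsW S w) (cW f) ((N : ℝ) ^ (-(1 / 100) : ℝ)) κ' := by
    refine ⟨?_, ?_, ?_, nb, hnb0, ?_, ?_, ?_, ?_⟩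
    · intro e he
      rw [unitsW, mem_sigma] at he
      exact (hfodd e.1 (mem_union_right _ (hSX he.1))).1
    · intro e he
      rw [unitsW, mem_sigma] at he
      exact (hfodd e.1 (mem_union_right _ (hSX he.1))).2
    · intro d
      have h1 : (((unitsW S w).filter (fun e => cW f e = d)).card : ℝ) ≤ (N : ℝ) ^ (24 / 25 : ℝ) := by
        by_cases hd : ∃ u ∈ S, f u = d
        · obtain ⟨u, hu, rfl⟩ := hd
          have h2 : (unitsW S w).filter (fun e => cW f e = f u) ⊆ unitsW {u} w := by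
            intro e he
            rw [mem_filter, unitsW, mem_sigma] at he
            rw [unitsW, mem_sigma]
            refine ⟨?_, he.1.2⟩
            rw [mem_singleton]
            exact hfinj (by rw [mem_coe]; exact mem_union_right _ (hSX he.1.1))
              (by rw [mem_coe]; exact mem_union_right _ (hSX hu)) he.2
          have h3 := card_le_card h2
          rw [abr_card_units, sum_singleton] at h3
          have h4 := hW.w_le u (mem_union_right _ (hSX hu))
          refine le_trans ?_ h4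
          exact_mod_cast h3
        · have h2 : (unitsW S w).filter (fun e => cW f e = d) = ∅ := by
            rw [filter_eq_empty_iff]
            intro e he hed
            rw [unitsW, mem_sigma] at he
            exact hd ⟨e.1, he.1, hed⟩
          rw [h2, card_empty, Nat.cast_zero]
          exact Real.rpow_nonneg hN0.le _
      refine h1.trans ?_
      have h2 : (N : ℝ) ^ (24 / 25 : ℝ) =
          (N : ℝ) ^ (-(1 / 100) : ℝ) * ((N : ℝ) ^ (-(3 / 100) : ℝ) * (N : ℝ) ^ (1 : ℝ)) := by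
        rw [← Real.rpow_add hN0, ← Real.rpow_add hN0]
        norm_num
      rw [h2, Real.rpow_one]
      refine mul_le_mul_of_nonneg_left ?_ (Real.rpow_nonneg hN0.le _)
      exact (mul_le_mul_of_nonneg_right e3 hN0.le).trans hWlo
    · intro d
      refine (hnbhi d).trans ?_
      rw [div_le_div_iff₀ hOpos hN0]
      linarith
    · intro d hd
      by_contra hcon
      exact hd (hnb2 d fun h => hcon (mem_abrO.1 h))
    · have h1 : (range (N + 1)).filter (fun d => d % 2 = 1 ∧ 8 * d ≤ N ∧ nb d < 7 / N) ⊆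
          (abrO N).filter (fun d => nb d * (abrO N).card < 1 - κ) := by
        intro d hd
        rw [mem_filter] at hd ⊢
        refine ⟨mem_abrO.2 ⟨hd.2.1, hd.2.2.1⟩, ?_⟩
        have h2 := hd.2.2.2
        have h3 : nb d * (abrO N).card ≤ 7 / N * ((N + 16) / 16) := by
          refine mul_le_mul h2.le ?_ (Nat.cast_nonneg _) (by positivity)
          linarith
        have h4 : (7 : ℝ) / N * ((N + 16) / 16) = 7 / 16 + 7 / N := by
          field_simp
        have h5 : (7 : ℝ) / N ≤ 7 / 1000 := by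
          rw [div_le_div_iff₀ hN0 (by norm_num)]
          linarith
        rw [h4] at h3
        linarith
      have h6 : (((range (N + 1)).filter (fun d => d % 2 = 1 ∧ 8 * d ≤ N ∧ nb d < 7 / N)).card : ℝ) ≤
          ((abrO N).filter (fun d => nb d * (abrO N).card < 1 - κ)).card := by
        exact_mod_cast card_le_card h1
      refine h6.trans (hnb4.trans ?_)
      exact mul_le_mul_of_nonneg_right (by linarith) hN0.le
    · intro F G hF hG
      set hh : ℕ → ℝ := fun c => ∑ x ∈ Icc (1 : ℤ) N, F x * G (x + c) with hhh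
      have h1 : ∑ e ∈ unitsW S w, ∑ x ∈ Icc (1 : ℤ) N, F x * G (x + cW f e) -
          ((unitsW S w).card : ℝ) * ∑ d ∈ range (N + 1), nb d * ∑ x ∈ Icc (1 : ℤ) N, F x * G (x + d) =
          W * ∑ c ∈ range (N + 1), D c * hh c := by
        have h2 := hunits hh f
        have h3 := hDsum hh
        rw [h3, mul_sub, ← h2]
      rw [h1, abs_mul, abs_of_pos hWpos]
      have h4 := mix_of_fourier (N := N) (M := 2 * N + 1) (s := 1) (by omega) (by omega) D
        ((N : ℝ) ^ (-(1 / 80) : ℝ)) (by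
          intro c hc
          by_contra hcon
          apply hc
          have h5 : N < c := by omega
          have h6 : c ∉ abrO N := fun h => by
            rw [mem_abrO] at h
            omega
          simp only [hD]
          rw [hnb2 c h6, sub_zero]
          refine sum_eq_zero fun u hu => ?_
          rw [mem_filter] at hu
          exact absurd (hu.2 ▸ hfX u hu.1) h6) (by
          intro k hk
          have h5 := hDsum fun c => Real.cos (2 * Real.pi * k * c / (2 * N + 1 : ℕ))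
          rw [h5, hnbsum]
          have h6 := htest k (by omega)
          simp only [abrPsi_cos hk] at h6
          exact h6) (by
          intro k hk
          have h5 := hDsum fun c => Real.sin (2 * Real.pi * k * c / (2 * N + 1 : ℕ))
          rw [h5, hnbsum]
          have h6 := htest (2 * N + 1 + k) (by omega)
          simp only [abrPsi_sin hk] at h6
          exact h6) F G hF hG
      simp only [Nat.cast_one, one_mul] at h4
      have h5 : |∑ c ∈ range (N + 1), D c * hh c| ≤ (N : ℝ) ^ (-(1 / 100) : ℝ) *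
          (√(∑ x ∈ Icc (1 : ℤ) N, F x ^ 2) * √(∑ x ∈ Icc (1 : ℤ) N, G x ^ 2)) :=
        h4.trans (mul_le_mul_of_nonneg_right he80 (hsqrt F G))
      have h6 := mul_le_mul_of_nonneg_left h5 hWpos.le
      refine h6.trans (le_of_eq ?_)
      rw [hWdef]
      ring
  obtain ⟨A, hA1, hA2, hA3, hA4, hA5, hA6⟩ := hN₁ N (by omega) S (W₀ ∪ X) w f FT R
    (hSX.trans subset_union_right) hfinj hfodd hfFT (fun u hu => (mem_filter.1 hu).2) hQRU hWlo
    (by
      rw [abr_card_units]
      refine hW.hi.trans (le_of_eq ?_)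
      rw [hε']
      ring)
    (by
      have h1 : (FT.card : ℝ) ≤ 2 * (W₀ ∪ X).card := by
        have h2 : FT.card ≤ 2 * (W₀ ∪ X).card := card_image_le.trans (abr_items_le par _)
        exact_mod_cast h2
      have h3 := hW.few
      have h4 : κ * N ≤ κ' / 4 * N := mul_le_mul_of_nonneg_right hκ2 hN0.le
      have h5 : 0 ≤ κ' * N := by positivity
      linarith)
    (hRc.trans (mul_le_mul_of_nonneg_right hβ1 hN0.le))
    (by
      intro x hx1 hxN hxFT m hm
      obtain ⟨j, hj, hjm⟩ := abr_mul hm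
      obtain ⟨y, rfl⟩ : ∃ y : ℕ, x = y := ⟨x.toNat, by omega⟩
      have hyN : y ≤ N := by exact_mod_cast hxN
      have hy1 : 1 ≤ y := by exact_mod_cast hx1
      have hcard : (((unitsW S w).filter (fun e => (y : ℤ) + m * cW f e ∈
          (FT ∪ R).image (fun y : ℕ => (y : ℤ)))).card : ℝ) =
          W * ∑ u ∈ X, a 0 u * (if (y : ℤ) + m * f u ∈ (FT ∪ R).image (fun y : ℕ => (y : ℤ))
            then 1 else 0) := by
        have h1 := hunits (fun c => if (y : ℤ) + m * c ∈ (FT ∪ R).image (fun y : ℕ => (y : ℤ))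
          then 1 else 0) f
        rw [← h1, card_filter]
        push_cast
        rfl
      rw [hcard, mul_comm κ']
      refine mul_le_mul_of_nonneg_left ?_ hWpos.le
      have hself := hq.self 0 one_pos y (mem_Icc.2 ⟨hy1, hyN⟩) (by
        intro h
        rw [mem_image] at h
        obtain ⟨u, hu, huy⟩ := h
        exact hxFT (f u) (hfFT u hu) (by rw [huy])) m hm
      have htst := htest (2 * (2 * N + 1) + (4 * y + j)) (by omega)
      simp only [abrPsi_set N R y j _ hj, hjm] at htst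
      have h1 : ∑ u ∈ X, a 0 u * (if (y : ℤ) + m * f u ∈ (FT ∪ R).image (fun y : ℕ => (y : ℤ))
            then (1 : ℝ) else 0) ≤
          ∑ u ∈ X.filter (fun u => (y : ℤ) + m * f u ∈ zset FT), a 0 u +
            ∑ u ∈ X, a 0 u * (if (y : ℤ) + m * f u ∈ zset R then (1 : ℝ) else 0) := by
        rw [sum_filter, ← sum_add_distrib]
        refine sum_le_sum fun u _ => ?_
        have h2 := ha0 0 u
        have h3 : (y : ℤ) + m * f u ∈ (FT ∪ R).image (fun y : ℕ => (y : ℤ)) →
            (y : ℤ) + m * f u ∈ zset FT ∨ (y : ℤ) + m * f u ∈ zset R := by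
          intro h
          rw [image_union, mem_union] at h
          exact h
        split_ifs with h4 h5 h6 h6 h5 h6 h6
        · linarith
        · linarith
        · linarith
        · exact absurd (h3 h4) (by tauto)
        · linarith
        · linarith
        · linarith
        · linarith
      have h2 : ∑ d ∈ abrO N, nb d * (if (y : ℤ) + m * d ∈ zset R then (1 : ℝ) else 0) ≤
          21 / 20 / (abrO N).card * R.card := by
        have h3 : ∑ d ∈ abrO N, nb d * (if (y : ℤ) + m * d ∈ zset R then (1 : ℝ) else 0) ≤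
            ∑ _d ∈ (abrO N).filter (fun d : ℕ => (y : ℤ) + m * (d : ℤ) ∈ zset R), 21 / 20 / ((abrO N).card : ℝ) := by
          rw [sum_filter]
          refine sum_le_sum fun d _ => ?_
          split_ifs
          · rw [mul_one]
            exact hnbhi d
          · rw [mul_zero]
        refine h3.trans ?_
        rw [sum_const, nsmul_eq_mul, mul_comm]
        refine mul_le_mul_of_nonneg_left ?_ (by positivity)
        have h4 : ((abrO N).filter (fun d : ℕ => (y : ℤ) + m * (d : ℤ) ∈ zset R)).card ≤ R.card := by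
          have h5 : ((abrO N).filter (fun d : ℕ => (y : ℤ) + m * (d : ℤ) ∈ zset R)).card ≤ (zset R).card := by
            refine card_le_card_of_injOn (fun d : ℕ => (y : ℤ) + m * (d : ℤ)) ?_ ?_
            · intro d hd
              rw [mem_coe, mem_filter] at hd
              exact hd.2
            · intro d _ d' _ h
              simp only at h
              have hm0 : m ≠ 0 := by omega
              have h6 : m * (d : ℤ) = m * d' := by linarith
              exact_mod_cast mul_left_cancel₀ hm0 h6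
          exact h5.trans card_image_le
        exact_mod_cast h4
      have h3 : 21 / 20 / ((abrO N).card : ℝ) * R.card ≤ κ' / 16 := by
        rw [div_mul_eq_mul_div, div_le_iff₀ hOpos]
        have h4 : (R.card : ℝ) ≤ κ' / 400 * N := hRc.trans (mul_le_mul_of_nonneg_right hβ2 hN0.le)
        nlinarith
      have h4 := abs_le.1 htst
      have h5 := h4.2
      linarith)
  rw [abr_card_units] at hA5
  refine ⟨A, hA1, hA3, hA2, hA4, ?_, ?_⟩
  · have h1 : 2 * β * N ≤ 2 * β' * N := mul_le_mul_of_nonneg_right (by linarith) hN0.le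
    linarith
  · intro J hJ1 hJ2 hJ3 hJ4 hJ5
    refine hA6 J hJ1 hJ2 hJ3 hJ4 ?_
    rw [abr_card_units]
    exact hJ5

end SSB
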