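import Pool.Agent.Lib.MP_8a819d_co.LH.AbC

/-!
# The absorber theorem
-/

set_option autoImplicit false

namespace SSB

open Finset

theorem abw_log (c₂ : ℝ) (hc₂ : 0 < c₂) (δ : ℝ) (hδ : 0 < δ) : ∃ N₀ : ℕ, ∀ N : ℕ, N₀ ≤ N →
    (N : ℝ) ^ (-c₂) * Real.log (6 * N) ≤ δ := by
  have h1 := (isLittleO_log_rpow_atTop hc₂).def (c := δ / 6 ^ c₂) (by positivity)
  obtain ⟨y₀, hy₀⟩ := Filter.eventually_atTop.1 (h1.and (Filter.eventually_ge_atTop (1 : ℝ)))
  refine ⟨⌈y₀⌉₊ + 1, fun N hN => ?_⟩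
  have hN1 : (1 : ℝ) ≤ N := by exact_mod_cast (by omega : 1 ≤ N)
  have hNy : y₀ ≤ 6 * (N : ℝ) := by
    have h2 := Nat.le_ceil y₀
    have h3 : ((⌈y₀⌉₊ : ℕ) : ℝ) + 1 ≤ N := by exact_mod_cast hN
    linarith
  obtain ⟨h2, h3⟩ := hy₀ (6 * N) hNy
  have hlog : 0 ≤ Real.log (6 * (N : ℝ)) := Real.log_nonneg h3
  rw [Real.norm_of_nonneg hlog, Real.norm_of_nonneg (by positivity),
    Real.mul_rpow (by norm_num) (by positivity)] at h2
  have h6 : (0 : ℝ) < 6 ^ c₂ := by positivity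
  have hNc : (0 : ℝ) < (N : ℝ) ^ c₂ := by positivity
  rw [Real.rpow_neg (by positivity)]
  calc ((N : ℝ) ^ c₂)⁻¹ * Real.log (6 * N)
      ≤ ((N : ℝ) ^ c₂)⁻¹ * (δ / 6 ^ c₂ * (6 ^ c₂ * (N : ℝ) ^ c₂)) :=
        mul_le_mul_of_nonneg_left h2 (by positivity)
    _ = δ := by field_simp

theorem abw_mono {ι : Type*} [DecidableEq ι] {N : ℕ} {U : Finset ι} {c : ι → ℕ} {η κ κ' : ℝ}
    (h : QRU N U c η κ) (hκ : κ ≤ κ') : QRU N U c η κ' := by
  obtain ⟨h1, h2, h3, nb, h4, h5, h6, h7, h8⟩ := h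
  exact ⟨h1, h2, h3, nb, h4, h5, h6,
    h7.trans (mul_le_mul_of_nonneg_right hκ (Nat.cast_nonneg _)), h8⟩

theorem absW (c₂ : ℝ) (hc₂ : 0 < c₂) : ∃ (L₀ : ℕ) (ε₁ : ℝ), 0 < ε₁ ∧ ∀ ε : ℝ, 0 < ε → ε ≤ ε₁ →
    ∃ β κ : ℝ, 0 < β ∧ 0 < κ ∧ β ≤ κ / 1000 ∧ ∃ N₀ : ℕ, ∀ N : ℕ, N₀ ≤ N →
      ∀ (S S1 : Finset ℕ) (w f : ℕ → ℕ) (FT R : Finset ℕ),
        S ⊆ S1 → Set.InjOn f S1 → (∀ u ∈ S1, f u % 2 = 1 ∧ 8 * f u ≤ N) → (∀ u ∈ S1, f u ∈ FT) →
        (∀ u ∈ S, L₀ ≤ w u) → QRU N (unitsW S w) (cW f) ((N : ℝ) ^ (-c₂)) κ →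
        ε * N ≤ (unitsW S w).card → ((unitsW S1 w).card : ℝ) ≤ 3 * ε * N →
        (FT.card : ℝ) ≤ κ * N → (R.card : ℝ) ≤ β * N →
        (∀ x : ℤ, 1 ≤ x → x ≤ N → (∀ y ∈ FT, (y : ℤ) ≠ x) →
          Rgl (unitsW S w) (cW f) κ ((FT ∪ R).image (fun y : ℕ => (y : ℤ))) x) →
        ∃ A : Finset ℕ, A ⊆ Icc 1 N ∧ Disjoint A FT ∧ Disjoint A R ∧ Bal A ∧
          (A.card : ℝ) + 2 * β * N ≤ 2 * (unitsW S1 w).card ∧
          ∀ J : Finset ℕ, J ⊆ Icc 1 N → Disjoint J A → Disjoint J FT → Bal J →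
            J.card + A.card = 2 * (unitsW S1 w).card → MatchU (unitsW S1 w) (cW f) (A ∪ J) := by
  obtain ⟨C, hC⟩ := template5
  obtain ⟨κ', N₁, hκ'0, hκ'1, hlinks⟩ := links c₂ hc₂
  set K : ℕ := ⌈(8 * C + 4) / κ'⌉₊ + 1 with hKdef
  have hK1 : 1 ≤ K := by omega
  have hKκ : (8 * (C : ℝ) + 4) ≤ κ' * K := by
    have h1 := Nat.le_ceil ((8 * (C : ℝ) + 4) / κ')
    have h2 : (K : ℝ) = (⌈(8 * (C : ℝ) + 4) / κ'⌉₊ : ℝ) + 1 := by
      rw [hKdef]
      push_cast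
      rfl
    rw [div_le_iff₀ hκ'0] at h1
    rw [h2]
    nlinarith
  have hK0 : (0 : ℝ) < K := by exact_mod_cast (by omega : 0 < K)
  have hC0 : (0 : ℝ) ≤ C := Nat.cast_nonneg _
  have hK4 : (4000 : ℝ) ≤ K := by nlinarith
  have hK8 : 8000 * (C : ℝ) ≤ K := by nlinarith
  refine ⟨K, 1 / 10000, by norm_num, fun ε hε0 hε1 => ?_⟩
  set κ : ℝ := κ' / 4 with hκ
  set β : ℝ := min (κ / 1000) (min (ε / (2 ^ 19 * K)) (ε ^ 2 / (8192 * K ^ 2))) with hβ
  have hκ0 : 0 < κ := by positivity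
  have hβ0 : 0 < β := by positivity
  have hβ1 : β ≤ κ / 1000 := min_le_left _ _
  have hβ2 : β ≤ ε / (2 ^ 19 * K) := (min_le_right _ _).trans (min_le_left _ _)
  have hβ3 : β ≤ ε ^ 2 / (8192 * K ^ 2) := (min_le_right _ _).trans (min_le_right _ _)
  set γ : ℝ := ε / (16 * K) with hγ
  have hγ0 : 0 < γ := by positivity
  obtain ⟨N₂, hN₂⟩ := abw_log c₂ hc₂ (min (κ' / 192) (γ / 512)) (by positivity)
  refine ⟨β, κ, hβ0, hκ0, hβ1, max (max N₁ N₂) (max 1000 (⌈2 / β⌉₊ + 1)), fun N hN => ?_⟩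
  have hNN₁ : N₁ ≤ N := (le_max_left _ _).trans ((le_max_left _ _).trans hN)
  have hNN₂ : N₂ ≤ N := (le_max_right _ _).trans ((le_max_left _ _).trans hN)
  have hN1000 : 1000 ≤ N := (le_max_left _ _).trans ((le_max_right _ _).trans hN)
  have hNβ' : ⌈2 / β⌉₊ + 1 ≤ N := (le_max_right _ _).trans ((le_max_right _ _).trans hN)
  intro S S1 w f FT R hS hf hf1 hfFT hw hq hW1 hW2 hFT hR hreg
  have hNr : (1000 : ℝ) ≤ N := by exact_mod_cast hN1000
  have hN0 : (0 : ℝ) < N := by linarith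
  have hNβ : 2 ≤ β * N := by
    have h1 := Nat.le_ceil (2 / β)
    have h2 : ((⌈2 / β⌉₊ : ℕ) : ℝ) + 1 ≤ N := by exact_mod_cast hNβ'
    rw [div_le_iff₀ hβ0] at h1
    nlinarith
  set η : ℝ := (N : ℝ) ^ (-c₂) with hη
  set L : ℝ := Real.log (6 * N) with hL
  have hη0 : 0 ≤ η := by positivity
  have hL1 : 1 ≤ L := by
    rw [hL, Real.le_log_iff_exp_le (by positivity)]
    have h1 := Real.exp_one_lt_d9
    linarith
  have hηL := hN₂ N hNN₂
  have hηL1 : η * L ≤ κ' / 192 := hηL.trans (min_le_left _ _)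
  have hηL2 : η * L ≤ γ / 512 := hηL.trans (min_le_right _ _)
  have hηη : η ≤ η * L := le_mul_of_one_le_right hη0 hL1
  set G : ℕ := (unitsK S w K).card with hG
  set W : ℕ := (unitsW S w).card with hW
  set W1 : ℕ := (unitsW S1 w).card with hWW
  obtain ⟨hfl1, hfl2⟩ := card_floor (S := S) (w := w) hK1 hw
  rw [← hG, ← hW] at hfl1 hfl2
  have hfl1' : (W : ℝ) ≤ 2 * K * G := by exact_mod_cast hfl1
  have hfl2' : (K : ℝ) * G ≤ W := by exact_mod_cast hfl2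
  have hWW1 : W ≤ W1 := by
    apply card_le_card
    intro e he
    rw [unitsW, mem_sigma] at he ⊢
    exact ⟨hS he.1, he.2⟩
  have hWW1' : (W : ℝ) ≤ W1 := by exact_mod_cast hWW1
  have hWup : (W : ℝ) ≤ 3 * ε * N := hWW1'.trans hW2
  have hG0 : (0 : ℝ) ≤ G := Nat.cast_nonneg _
  have hKG : (K : ℝ) * G ≤ 3 * ε * N := hfl2'.trans hWup
  have hεN : 3 * ε * N ≤ 3 / 10000 * N := by nlinarith
  have hGlow : ε * N / (2 * K) ≤ G := by
    rw [div_le_iff₀ (by positivity)]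
    nlinarith
  have hκκ' : κ ≤ κ' := by
    rw [hκ]
    linarith
  have hU : (unitsW S w).Nonempty := by
    rw [← card_pos]
    have h1 : (0 : ℝ) < W := lt_of_lt_of_le (by positivity) hW1
    exact_mod_cast h1
  have hq' := abw_mono hq hκκ'
  have hFR : ((FT ∪ R).card : ℝ) ≤ κ * N + β * N := by
    have h1 : ((FT ∪ R).card : ℝ) ≤ FT.card + R.card := by exact_mod_cast card_union_le FT R
    linarith
  have hκβ : κ * N + β * N ≤ N / 3000 := by
    have h1 : κ ≤ 1 / 4000 := by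
      rw [hκ]
      linarith
    nlinarith
  set h : ℕ := ⌈β * N⌉₊ with hh
  have hh1 : β * N ≤ h := Nat.le_ceil _
  have hh2 : (h : ℝ) < β * N + 1 := Nat.ceil_lt_add_one (by positivity)
  have hh3 : 2 * (h : ℝ) ≤ 3 * (β * N) := by linarith
  have hhpos : 1 ≤ h := by
    have h1 : (0 : ℝ) < h := lt_of_lt_of_le (by positivity) hh1
    exact_mod_cast h1
  have e1 : 2 * (h : ℝ) ≤ γ * N / 8192 := by
    have h1 : 3 * β ≤ γ / 8192 := by
      have h2 : 3 * β ≤ 3 * (ε / (2 ^ 19 * K)) := by linarith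
      refine h2.trans ?_
      rw [hγ, div_div, ← mul_div_assoc, div_le_div_iff₀ (by positivity) (by positivity)]
      have : 0 < ε * K := by positivity
      nlinarith
    calc 2 * (h : ℝ) ≤ 3 * (β * N) := hh3
      _ = (3 * β) * N := by ring
      _ ≤ (γ / 8192) * N := mul_le_mul_of_nonneg_right h1 hN0.le
      _ = γ * N / 8192 := by ring
  have e2 : 2 * (h : ℝ) ≤ γ * G / 64 := by
    have h1 : 3 * β ≤ γ * (ε / (2 * K)) / 64 := by
      have h2 : 3 * β ≤ 3 * (ε ^ 2 / (8192 * K ^ 2)) := by linarith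
      refine h2.trans ?_
      have h3 : γ * (ε / (2 * K)) / 64 = 4 * (ε ^ 2 / (8192 * K ^ 2)) := by
        rw [hγ]
        field_simp
        norm_num
      rw [h3]
      have : 0 ≤ ε ^ 2 / (8192 * (K : ℝ) ^ 2) := by positivity
      linarith
    calc 2 * (h : ℝ) ≤ 3 * (β * N) := hh3
      _ = (3 * β) * N := by ring
      _ ≤ (γ * (ε / (2 * K)) / 64) * N := mul_le_mul_of_nonneg_right h1 hN0.le
      _ = γ * (ε * N / (2 * K)) / 64 := by ring
      _ ≤ γ * G / 64 := by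
        have := mul_le_mul_of_nonneg_left hGlow hγ0.le
        linarith
  have hγ1 : γ ≤ 1 := by
    rw [hγ, div_le_one (by positivity)]
    nlinarith
  have e3 : 2 * h ≤ G := by
    have h1 : 2 * (h : ℝ) ≤ G := by
      refine e2.trans ?_
      nlinarith
    exact_mod_cast h1
  have g3 : 30000 * (G : ℝ) ≤ N := by
    nlinarith
  have g4 : 40000 * (C : ℝ) * G ≤ N := by
    have h1 : 8000 * (C : ℝ) * G ≤ K * G := mul_le_mul_of_nonneg_right hK8 hG0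
    nlinarith
  obtain ⟨A, hA1, hA2, hA3, hA4, hA5, hA6⟩ := absCore (N := N) (K := K) (h := h) (C := C) (S := S)
    (S1 := S1) (w := w) (f := f) (FT := FT) (R := R) (κ := κ') (η := η) (γ := γ) hC hq'
    (hlinks N hNN₁ _ _ _ hq' hU) hS hf hf1 hK1 hw hreg hhpos e3 hN1000 hη0
    (by rw [mul_assoc]; linarith) (by nlinarith [hγ1]) hκ'1
    (by
      rw [div_le_iff₀ hN0]
      have h1 : (4 : ℝ) * G ≤ κ' * K * G := by
        have : (4 : ℝ) ≤ κ' * K := by linarith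
        exact mul_le_mul_of_nonneg_right this hG0
      have h2 : κ' * (K * G) ≤ κ' * (3 / 10000 * N) :=
        mul_le_mul_of_nonneg_left (hKG.trans hεN) hκ'0.le
      have h3 : 0 ≤ κ' * N := by positivity
      nlinarith)
    (by
      rw [div_le_iff₀ hN0]
      have h1 : (8 * (C : ℝ)) * G ≤ κ' * K * G := by
        have : (8 * (C : ℝ)) ≤ κ' * K := by linarith
        exact mul_le_mul_of_nonneg_right this hG0
      have h2 : κ' * (K * G) ≤ κ' * (3 / 10000 * N) :=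
        mul_le_mul_of_nonneg_left (hKG.trans hεN) hκ'0.le
      have h3 : 0 ≤ κ' * N := by positivity
      nlinarith)
    (by exact_mod_cast g3) (by exact_mod_cast g4)
    (by
      have h1 : (8 * (C : ℝ) + 4) * G ≤ κ' * K * G := mul_le_mul_of_nonneg_right hKκ hG0
      have h2 : κ' * (K * G) ≤ κ' * W := mul_le_mul_of_nonneg_left hfl2' hκ'0.le
      linarith)
    (by
      have h1 : (8 * (C : ℝ) + 4) * G ≤ κ' * K * G := mul_le_mul_of_nonneg_right hKκ hG0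
      have h2 : κ' * (K * G) ≤ κ' * (3 / 10000 * N) :=
        mul_le_mul_of_nonneg_left (hKG.trans hεN) hκ'0.le
      have h3 : 0 ≤ κ' * N := by positivity
      linarith)
    (by
      have h1 : 100 * (((FT ∪ R).card : ℝ) + 4 * G) ≤ N := by linarith
      exact_mod_cast h1)
    hγ0
    (by
      have h1 : 2 * γ ≤ G / (4 * N) := by
        rw [le_div_iff₀ (by positivity), hγ]
        have h2 : 2 * (ε / (16 * K)) * (4 * N) = ε * N / (2 * K) := by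
          field_simp
          ring
        rw [h2]
        exact hGlow
      have h3 : 12 * η * L ≤ γ := by
        rw [mul_assoc]
        linarith
      linarith)
    (by linarith)
    e1 e2
    (by
      have h1 : 2 * ((FT ∪ R).card : ℝ) + 4 * W1 + 1 ≤ N / 4 := by linarith
      have h2 : ((2 * (FT ∪ R).card + 4 * W1 + 1 : ℕ) : ℝ) ≤ N / 4 := by
        push_cast
        exact h1
      have h3 : 4 * (2 * (FT ∪ R).card + 4 * W1 + 1) ≤ N := by
        have h4 : (4 : ℝ) * ((2 * (FT ∪ R).card + 4 * W1 + 1 : ℕ) : ℝ) ≤ N := by linarith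
        exact_mod_cast h4
      omega)
  refine ⟨A, hA1, hA2, hA3, hA4, ?_, hA6⟩
  have h1 : (A.card : ℝ) + 2 * h = 2 * W1 := by exact_mod_cast hA5
  linarith

end SSB
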