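import Pool.Agent.Lib.MP_8a819d_co.LH.Red7
import Pool.Agent.Lib.MP_8a819d_co.AT.Tp2
import Pool.Agent.Lib.MP_8a819d_co.S6

/-!
# MP_8a819d_co: all large trees are simply sequential (from the two cores)
-/

set_option autoImplicit false

namespace SSB

open Finset

theorem all_large (hL : CoreLH) (hD : CoreDP) : ∃ n₀ : ℕ, ∀ (n : ℕ) (G : SimpleGraph (Fin n)), n₀ ≤ n →
    G.IsTree → SSq.Simply G := by
  classical
  obtain ⟨N₀, hred⟩ := red_par hL hD
  refine ⟨1025 * N₀ ^ 5 + 3, fun n G hn hG => ?_⟩
  set I : Finset (Fin n) := univ.filter (fun v => 2 ≤ (G.neighborSet v).ncard) with hI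
  have hIc : {v | 2 ≤ (G.neighborSet v).ncard}.ncard = I.card := by
    rw [← Set.ncard_coe_finset]
    congr 1
    ext v
    simp [hI]
  set J : Finset (Fin n) := univ.filter (fun v => (G.neighborSet v).ncard = 1) with hJ
  have hJc : {v | (G.neighborSet v).ncard = 1}.ncard = J.card := by
    rw [← Set.ncard_coe_finset]
    congr 1
    ext v
    simp [hJ]
  have hn1 : 1 < n := by omega
  have hdeg : ∀ v : Fin n, 1 ≤ (G.neighborSet v).ncard := by
    intro v
    have : Nontrivial (Fin n) := Fin.nontrivial_iff_two_le.2 hn1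
    obtain ⟨w, hw⟩ := hG.connected.preconnected.exists_adj_of_nontrivial v
    exact Nat.one_le_iff_ne_zero.2 (fun h => by
      rw [Set.ncard_eq_zero (Set.toFinite _)] at h
      have : w ∈ G.neighborSet v := hw
      rw [h] at this
      exact this)
  have hIJ : n ≤ I.card + J.card := by
    have h1 : (univ : Finset (Fin n)) ⊆ I ∪ J := by
      intro v _
      rw [mem_union, hI, hJ, mem_filter, mem_filter]
      have := hdeg v
      by_cases h : 2 ≤ (G.neighborSet v).ncard
      · exact Or.inl ⟨mem_univ _, h⟩
      · exact Or.inr ⟨mem_univ _, by omega⟩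
    calc n = (univ : Finset (Fin n)).card := by simp
      _ ≤ (I ∪ J).card := card_le_card h1
      _ ≤ _ := card_union_le _ _
  by_cases hmain : 1024 * I.card ^ 5 ≤ J.card
  · apply SSq.main_two hG
    rw [hIc, hJc]
    exact hmain
  · have hI1 : I.card ≠ 0 := by
      intro h
      rw [h] at hmain
      omega
    have hI5 : I.card ≤ I.card ^ 5 := Nat.le_self_pow (by norm_num) _
    have hnI : n ≤ 1025 * I.card ^ 5 := by omega
    have hNI : N₀ ≤ I.card := by
      by_contra h
      have h1 : I.card ^ 5 ≤ N₀ ^ 5 := Nat.pow_le_pow_left (by omega) 5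
      omega
    obtain ⟨r, hr⟩ := card_pos.1 (Nat.pos_of_ne_zero hI1)
    rw [hI, mem_filter] at hr
    obtain ⟨par, σ, hpar, h00, hσ, hpd, hS⟩ := tree_to_par2 hG r
    apply hS
    have hroot : 2 ≤ pdeg n par 0 := by
      rw [hpd ⟨0, by omega⟩, hσ ⟨0, by omega⟩ rfl]
      exact hr.2
    have hinn : (inn n par).card = I.card := by
      symm
      apply Finset.card_bij (fun (v : Fin n) _ => ((σ.symm v : Fin n) : ℕ))
      · intro v hv
        rw [hI, Finset.mem_filter] at hv
        rw [inn, Finset.mem_filter]
        refine ⟨Finset.mem_range.2 (σ.symm v).2, ?_⟩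
        have h1 : 2 ≤ pdeg n par (σ.symm v : Fin n) := by
          rw [hpd (σ.symm v), Equiv.apply_symm_apply]
          exact hv.2
        rw [← card_pos]
        unfold pdeg at h1
        split_ifs at h1 <;> omega
      · intro v _ w _ h
        exact σ.symm.injective (Fin.ext h)
      · intro i hi
        rw [inn, Finset.mem_filter, Finset.mem_range] at hi
        refine ⟨σ ⟨i, hi.1⟩, ?_, ?_⟩
        · rw [hI, Finset.mem_filter]
          refine ⟨Finset.mem_univ _, ?_⟩
          rw [← hpd ⟨i, hi.1⟩]
          by_cases h0 : i = 0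
          · subst h0
            exact hroot
          · have h1 := card_pos.2 hi.2
            show 2 ≤ pdeg n par i
            unfold pdeg
            rw [if_neg h0]
            omega
        · simp
    exact hred n par hpar h00 hroot (by rw [hinn]; exact hNI) (by rw [hinn]; exact hnI)

end SSB
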