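import Pool.Agent.Lib.MP_8a819d_co.LH.Wk1

/-!
# Walks with one restricted step

JOB Cl0 (all of this file). `n = 2 |U|`.

PROOF of `cnt_left`. Map a list `l = p ++ t :: (m ++ q)` of the set to `(p, q, t, m)` (the lengths determine the parts). `p` and `q` are lists of `i` resp. `j` elements of `stps U`: `n^i` and `n^j` possibilities (the lists of length `i` over a finite
set: e.g. by induction, or `List.Vector` / `Fintype.piFinset`; or avoid counting lists by an induction on `i` over the first step with `wks`). For given `p, q`: at most `β` steps `t`. For given `p, q, t`: `m` is a walk of length `s` from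
`x = a + dsp c (p ++ [t])` to `y = b - dsp c q`, and `x, y ∈ [1, N]` (positions of the walk `l`; `y = b` if `j = 0`) (`mem_wks`): at most `nw s x y ≤ B n^s` possibilities. Total `n^i n^j β B n^s = β B n^(r-1)`.
`cnt_right`: the same with `l = m ++ t :: q`: `q`: `n^(r-1-i)`, `t`: `β`, `m`: a walk of length `i ≥ h` from `a` to `b - dsp c (t :: q)`.
-/

set_option autoImplicit false

namespace SSB

open Finset

variable {ι : Type} [DecidableEq ι]

/-- lists of steps of length `k` -/
private def cl0_lst (U : Finset ι) : ℕ → Finset (List (ι × Bool))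
  | 0 => {[]}
  | k + 1 => (stps U).biUnion (fun t => (cl0_lst U k).image (List.cons t))

private theorem cl0_mem_lst (U : Finset ι) : ∀ (k : ℕ) (l : List (ι × Bool)), l.length = k →
    (∀ t ∈ l, t.1 ∈ U) → l ∈ cl0_lst U k := by
  intro k
  induction k with
  | zero =>
    intro l hl _
    rw [List.length_eq_zero_iff.1 hl]
    exact mem_singleton_self _
  | succ k ih =>
    intro l hl hU
    cases l with
    | nil => simp at hl
    | cons t l =>
      rw [cl0_lst, mem_biUnion]
      refine ⟨t, ?_, ?_⟩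
      · unfold stps
        rw [mem_product]
        exact ⟨hU t (List.mem_cons_self), mem_univ _⟩
      · refine mem_image_of_mem _ (ih l ?_ (fun t' ht' => hU t' (List.mem_cons_of_mem _ ht')))
        simpa using hl

private theorem cl0_card_lst (U : Finset ι) (k : ℕ) : (cl0_lst U k).card ≤ (2 * U.card) ^ k := by
  induction k with
  | zero => simp [cl0_lst]
  | succ k ih =>
    rw [cl0_lst]
    have h1 : ((stps U).biUnion (fun t => (cl0_lst U k).image (List.cons t))).card ≤
        (stps U).card * (2 * U.card) ^ k :=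
      card_biUnion_le_card_mul _ _ _ (fun t _ => card_image_le.trans ih)
    rw [card_stps] at h1
    rw [pow_succ, mul_comm ((2 * U.card) ^ k)]
    exact h1

omit [DecidableEq ι] in
private theorem cl0_dsp_append (c : ι → ℕ) (l l' : List (ι × Bool)) :
    dsp c (l ++ l') = dsp c l + dsp c l' := by
  simp [dsp]

/-- the walks of length `s` between two positions, empty if one of them is outside -/
private noncomputable def cl0_w (N : ℕ) (U : Finset ι) (c : ι → ℕ) (s : ℕ) (x y : ℤ) :
    Finset (List (ι × Bool)) :=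
  if (1 ≤ x ∧ x ≤ N) ∧ (1 ≤ y ∧ y ≤ N) then wks N U c s x y else ∅

private theorem cl0_card_w {N : ℕ} {U : Finset ι} {c : ι → ℕ} {B : ℝ} {h s : ℕ} (hB : 0 ≤ B)
    (hup : ∀ s, h ≤ s → ∀ x y : ℤ, (1 ≤ x ∧ x ≤ N) → (1 ≤ y ∧ y ≤ N) →
      (nw N U c s x y : ℝ) ≤ B * (2 * U.card) ^ s) (hs : h ≤ s) (x y : ℤ) :
    ((cl0_w N U c s x y).card : ℝ) ≤ B * (2 * U.card) ^ s := by
  unfold cl0_w
  by_cases hxy : (1 ≤ x ∧ x ≤ N) ∧ (1 ≤ y ∧ y ≤ N)
  · rw [if_pos hxy]
    exact hup s hs x y hxy.1 hxy.2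
  · rw [if_neg hxy, card_empty, Nat.cast_zero]
    positivity

private theorem cl0_card_bU {α γ : Type*} [DecidableEq γ] (T : Finset α) (g : α → Finset γ)
    (X : ℝ) (hg : ∀ x ∈ T, ((g x).card : ℝ) ≤ X) :
    ((T.biUnion g).card : ℝ) ≤ T.card * X := by
  have h1 : ((T.biUnion g).card : ℝ) ≤ ∑ x ∈ T, ((g x).card : ℝ) := by
    exact_mod_cast card_biUnion_le (s := T) (t := g)
  refine h1.trans ((sum_le_sum hg).trans ?_)
  rw [sum_const, nsmul_eq_mul]

open Classical in
theorem cnt_left {N : ℕ} {U : Finset ι} {c : ι → ℕ} {B β : ℝ} {h r i s j : ℕ} {a b : ℤ} (hB : 0 ≤ B) (hβ : 0 ≤ β)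
    (hup : ∀ s, h ≤ s → ∀ x y : ℤ, (1 ≤ x ∧ x ≤ N) → (1 ≤ y ∧ y ≤ N) → (nw N U c s x y : ℝ) ≤ B * (2 * U.card) ^ s)
    (ha : 1 ≤ a ∧ a ≤ N) (hb : 1 ≤ b ∧ b ≤ N) (hs : h ≤ s) (hr : r = i + 1 + s + j)
    (bad : List (ι × Bool) → List (ι × Bool) → Finset (ι × Bool)) (hbad : ∀ p q, ((bad p q).card : ℝ) ≤ β) :
    (((wks N U c r a b).filter (fun l => ∃ p t m q, l = p ++ t :: (m ++ q) ∧ p.length = i ∧ m.length = s ∧ q.length = j ∧
      t ∈ bad p q)).card : ℝ) ≤ β * B * (2 * U.card) ^ (r - 1) := by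
  set g : List (ι × Bool) → List (ι × Bool) → (ι × Bool) → Finset (List (ι × Bool)) :=
    fun p q t => (cl0_w N U c s (a + dsp c (p ++ [t])) (b - dsp c q)).image
      (fun m => p ++ t :: (m ++ q)) with hg
  have hsub : (wks N U c r a b).filter (fun l => ∃ p t m q, l = p ++ t :: (m ++ q) ∧
      p.length = i ∧ m.length = s ∧ q.length = j ∧ t ∈ bad p q) ⊆
      (cl0_lst U i).biUnion (fun p => (cl0_lst U j).biUnion (fun q =>
        (bad p q).biUnion (fun t => g p q t))) := by
    intro l hl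
    obtain ⟨hw, p, t, m, q, hlp, hp, hm, hq, ht⟩ := mem_filter.1 hl
    obtain ⟨hlen, hU, hbl, hpos⟩ := mem_wks.1 hw
    have hl2 : l = (p ++ [t]) ++ (m ++ q) := by
      rw [hlp]
      simp
    have hl3 : l = (p ++ [t] ++ m) ++ q := by
      rw [hlp]
      simp
    have hp1 : (p ++ [t]).length = i + 1 := by simp [hp]
    have hp2 : (p ++ [t] ++ m).length = i + 1 + s := by
      rw [List.length_append, hp1, hm]
    have hmp : ∀ t' ∈ p, t' ∈ l := by
      intro t' ht'
      rw [hlp]
      exact List.mem_append_left _ ht'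
    have hmm : ∀ t' ∈ m, t' ∈ l := by
      intro t' ht'
      rw [hl2]
      exact List.mem_append_right _ (List.mem_append_left _ ht')
    have hmq : ∀ t' ∈ q, t' ∈ l := by
      intro t' ht'
      rw [hl3]
      exact List.mem_append_right _ ht'
    have hx1 : l.take (i + 1) = p ++ [t] := by
      rw [hl2, ← hp1]
      exact List.take_left
    have hy1 : l.take (i + 1 + s) = p ++ [t] ++ m := by
      rw [hl3, ← hp2]
      exact List.take_left
    have hbq : b - dsp c q = a + dsp c (p ++ [t] ++ m) := by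
      rw [hbl, hl3, cl0_dsp_append c (p ++ [t] ++ m) q]
      ring
    simp only [mem_biUnion]
    refine ⟨p, cl0_mem_lst U i p hp (fun t' ht' => hU t' (hmp t' ht')), q,
      cl0_mem_lst U j q hq (fun t' ht' => hU t' (hmq t' ht')), t, ht, ?_⟩
    rw [hg, mem_image]
    refine ⟨m, ?_, hlp.symm⟩
    unfold cl0_w
    have hxr := hpos (i + 1) (by omega) (by omega)
    rw [hx1] at hxr
    have hyr := hpos (i + 1 + s) (by omega) (by omega)
    rw [hy1] at hyr
    rw [hbq, if_pos ⟨hxr, hyr⟩]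
    rw [mem_wks]
    refine ⟨hm, fun t' ht' => hU t' (hmm t' ht'), ?_, ?_⟩
    · rw [cl0_dsp_append c (p ++ [t]) m]
      ring
    · intro k hk1 hk2
      have h1 := hpos (i + 1 + k) (by omega) (by omega)
      have h2 : l.take (i + 1 + k) = (p ++ [t]) ++ m.take k := by
        rw [hl2, ← hp1, List.take_length_add_append]
        rw [List.take_append_of_le_length (by omega)]
      rw [h2, cl0_dsp_append c (p ++ [t])] at h1
      rw [add_assoc]
      exact h1
  have hg1 : ∀ p q t, ((g p q t).card : ℝ) ≤ B * (2 * U.card) ^ s := by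
    intro p q t
    have h1 : ((g p q t).card : ℝ) ≤
        ((cl0_w N U c s (a + dsp c (p ++ [t])) (b - dsp c q)).card : ℝ) := by
      exact_mod_cast card_image_le
    exact h1.trans (cl0_card_w hB hup hs _ _)
  have hBs : 0 ≤ B * (2 * (U.card : ℝ)) ^ s := by positivity
  have hg2 : ∀ p q, (((bad p q).biUnion (fun t => g p q t)).card : ℝ) ≤
      β * (B * (2 * U.card) ^ s) := by
    intro p q
    refine (cl0_card_bU _ _ _ (fun t _ => hg1 p q t)).trans ?_
    exact mul_le_mul_of_nonneg_right (hbad p q) hBs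
  have hcl : ∀ k, ((cl0_lst U k).card : ℝ) ≤ (2 * (U.card : ℝ)) ^ k := by
    intro k
    exact_mod_cast cl0_card_lst U k
  have hg3 : ∀ p, (((cl0_lst U j).biUnion (fun q =>
      (bad p q).biUnion (fun t => g p q t))).card : ℝ) ≤
      (2 * U.card) ^ j * (β * (B * (2 * U.card) ^ s)) := by
    intro p
    refine (cl0_card_bU _ _ _ (fun q _ => hg2 p q)).trans ?_
    exact mul_le_mul_of_nonneg_right (hcl j) (mul_nonneg hβ hBs)
  have hfin := cl0_card_bU (cl0_lst U i) _ _ (fun p _ => hg3 p)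
  have h0 : (((wks N U c r a b).filter (fun l => ∃ p t m q, l = p ++ t :: (m ++ q) ∧
      p.length = i ∧ m.length = s ∧ q.length = j ∧ t ∈ bad p q)).card : ℝ) ≤
      (((cl0_lst U i).biUnion (fun p => (cl0_lst U j).biUnion (fun q =>
        (bad p q).biUnion (fun t => g p q t)))).card : ℝ) := by
    exact_mod_cast card_le_card hsub
  refine h0.trans (hfin.trans ?_)
  have h4 : 0 ≤ (2 * (U.card : ℝ)) ^ j * (β * (B * (2 * U.card) ^ s)) := by positivity
  refine (mul_le_mul_of_nonneg_right (hcl i) h4).trans (le_of_eq ?_)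
  have h5 : r - 1 = i + j + s := by omega
  rw [h5, pow_add, pow_add]
  ring

open Classical in
theorem cnt_right {N : ℕ} {U : Finset ι} {c : ι → ℕ} {B β : ℝ} {h r i : ℕ} {a b : ℤ} (hB : 0 ≤ B) (hβ : 0 ≤ β)
    (hup : ∀ s, h ≤ s → ∀ x y : ℤ, (1 ≤ x ∧ x ≤ N) → (1 ≤ y ∧ y ≤ N) → (nw N U c s x y : ℝ) ≤ B * (2 * U.card) ^ s)
    (ha : 1 ≤ a ∧ a ≤ N) (hb : 1 ≤ b ∧ b ≤ N) (hi : h ≤ i) (hr : i < r)
    (bad : List (ι × Bool) → Finset (ι × Bool)) (hbad : ∀ q, ((bad q).card : ℝ) ≤ β) :
    (((wks N U c r a b).filter (fun l => ∃ m t q, l = m ++ t :: q ∧ m.length = i ∧ t ∈ bad q)).card : ℝ) ≤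
      β * B * (2 * U.card) ^ (r - 1) := by
  set g : List (ι × Bool) → (ι × Bool) → Finset (List (ι × Bool)) :=
    fun q t => (cl0_w N U c i a (b - dsp c (t :: q))).image (fun m => m ++ t :: q) with hg
  have hsub : (wks N U c r a b).filter (fun l => ∃ m t q, l = m ++ t :: q ∧ m.length = i ∧
      t ∈ bad q) ⊆
      (cl0_lst U (r - 1 - i)).biUnion (fun q => (bad q).biUnion (fun t => g q t)) := by
    intro l hl
    obtain ⟨hw, m, t, q, hlp, hm, ht⟩ := mem_filter.1 hl
    obtain ⟨hlen, hU, hbl, hpos⟩ := mem_wks.1 hw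
    have hq : q.length = r - 1 - i := by
      have h1 : l.length = i + (q.length + 1) := by
        rw [hlp]
        simp [hm]
      omega
    have hmm : ∀ t' ∈ m, t' ∈ l := by
      intro t' ht'
      rw [hlp]
      exact List.mem_append_left _ ht'
    have hmq : ∀ t' ∈ q, t' ∈ l := by
      intro t' ht'
      rw [hlp]
      exact List.mem_append_right _ (List.mem_cons_of_mem _ ht')
    have hbq : b - dsp c (t :: q) = a + dsp c m := by
      rw [hbl, hlp, cl0_dsp_append]
      ring
    simp only [mem_biUnion]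
    refine ⟨q, cl0_mem_lst U _ q hq (fun t' ht' => hU t' (hmq t' ht')), t, ht, ?_⟩
    rw [hg, mem_image]
    refine ⟨m, ?_, hlp.symm⟩
    unfold cl0_w
    have htk : ∀ k, k ≤ i → l.take k = m.take k := by
      intro k hk
      rw [hlp, List.take_append_of_le_length (by omega)]
    have hyr : 1 ≤ a + dsp c m ∧ a + dsp c m ≤ N := by
      rcases Nat.eq_zero_or_pos i with h0 | h0
      · have hm0 : m = [] := List.length_eq_zero_iff.1 (hm.trans h0)
        rw [hm0]
        simpa [dsp] using ha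
      · have h1 := hpos i h0 hr.le
        rw [htk i le_rfl, ← hm, List.take_length] at h1
        exact h1
    rw [hbq, if_pos ⟨ha, hyr⟩, mem_wks]
    refine ⟨hm, fun t' ht' => hU t' (hmm t' ht'), rfl, ?_⟩
    intro k hk1 hk2
    have h1 := hpos k hk1 (by omega)
    rw [htk k hk2] at h1
    exact h1
  have hg1 : ∀ q t, ((g q t).card : ℝ) ≤ B * (2 * U.card) ^ i := by
    intro q t
    have h1 : ((g q t).card : ℝ) ≤ ((cl0_w N U c i a (b - dsp c (t :: q))).card : ℝ) := by
      exact_mod_cast card_image_le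
    exact h1.trans (cl0_card_w hB hup hi _ _)
  have hBs : 0 ≤ B * (2 * (U.card : ℝ)) ^ i := by positivity
  have hg2 : ∀ q, (((bad q).biUnion (fun t => g q t)).card : ℝ) ≤
      β * (B * (2 * U.card) ^ i) := by
    intro q
    refine (cl0_card_bU _ _ _ (fun t _ => hg1 q t)).trans ?_
    exact mul_le_mul_of_nonneg_right (hbad q) hBs
  have hcl : ∀ k, ((cl0_lst U k).card : ℝ) ≤ (2 * (U.card : ℝ)) ^ k := by
    intro k
    exact_mod_cast cl0_card_lst U k
  have hfin := cl0_card_bU (cl0_lst U (r - 1 - i)) _ _ (fun q _ => hg2 q)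
  have h0 : (((wks N U c r a b).filter (fun l => ∃ m t q, l = m ++ t :: q ∧ m.length = i ∧
      t ∈ bad q)).card : ℝ) ≤
      (((cl0_lst U (r - 1 - i)).biUnion (fun q => (bad q).biUnion (fun t => g q t))).card : ℝ) := by
    exact_mod_cast card_le_card hsub
  refine h0.trans (hfin.trans ?_)
  have h4 : 0 ≤ β * (B * (2 * (U.card : ℝ)) ^ i) := by positivity
  refine (mul_le_mul_of_nonneg_right (hcl _) h4).trans (le_of_eq ?_)
  have h5 : r - 1 = (r - 1 - i) + i := by omega
  have h6 : (2 * (U.card : ℝ)) ^ (r - 1) = (2 * (U.card : ℝ)) ^ (r - 1 - i) * (2 * (U.card : ℝ)) ^ i := by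
    rw [← pow_add, ← h5]
  rw [h6]
  ring

end SSB
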