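import Pool.Agent.Lib.MP_8a819d_co.LH.Op1

/-!
# Lower bound for the density operator

JOB Op3 (all of this file).

PROOF. (a) For `F ≥ 0`, `x ∈ [1, N]`: `(Tb (Tb F)) x ≥ (3/10)/N * ∑ y, F y` over the `y ∈ [1, N]` with `(y - x) % 4 = 0`, `8 |y - x| ≤ N`. Indeed
`Tb (Tb F) x = ∑ z ∑ y, k x z k z y F y` with `k x z = nb (|z - x|/2)/2` (`z ≠ x`, `z - x` even; `z ∈ [1, N]`). For given `y` take the `z` with `(z - x) % 4 = 2` and
`max x y < z ≤ min x y + N/4` if `max x y ≤ 3N/4`, and `max x y - N/4 ≤ z < min x y` otherwise (then `min x y > N/2`). All these `z` are in `[1, N]`, there are at least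
`N/32 - 2` of them, `d = |z - x|/2` and `d' = |z - y|/2` are odd with `8 d, 8 d' ≤ N`; at most `2 κ N ≤ N/500` of them have `nb d < 7/N` or `nb d' < 7/N`. So at least `N/40` remain and
the coefficient of `F y` is at least `(1/4) (7/N)^2 (N/40) ≥ (3/10)/N`.
(b) Claim for `i ≥ 1`: `(Tb^(2i) F) x ≥ (c_i/N) ∑ y, F y` over `(y - x) % 4 = 0`, `16 |y - x| ≤ (i + 1) N`, with `c_1 = 3/10`, `c_{i+1} = c_i (3/10)/100`. Step: apply (a) to
`G = Tb^(2i) F ≥ 0`: `(Tb^(2i+2) F) x ≥ (3/10)/N ∑ z G z`, and by induction `G z ≥ (c_i/N) ∑ y F y`; so it is enough to have, for every `y` with `16 |y - x| ≤ (i + 2) N`, at least `N/100`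
points `z ∈ [1, N]` with `z = x` mod 4, `8 |z - x| ≤ N`, `16 |y - z| ≤ (i + 1) N`: if `8 |y - x| ≥ N` take the `z` between `x` and `y` with `N/16 ≤ |z - x| ≤ N/8`; if `8 |y - x| < N` take the `z` in
`[1, N]` with `8 |z - x| ≤ N`, `8 |z - y| ≤ N` (an interval of length at least `N/8 - 2`).
(c) `i = 15`: `16 |y - x| ≤ 16 N` always.
-/

set_option autoImplicit false

namespace SSB

open Finset

variable {ι : Type} [DecidableEq ι]

/-- half of the distance -/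
private def op3kd (x z : ℤ) : ℕ := (z - x).natAbs / 2

private theorem op3_nonneg {N : ℕ} {nb : ℕ → ℝ} (hnn : ∀ d, 0 ≤ nb d) {F : ℤ → ℝ}
    (hF : ∀ x, 0 ≤ F x) (x : ℤ) : 0 ≤ opB N nb F x := by
  unfold opB
  split_ifs
  · exact div_nonneg (Finset.sum_nonneg fun d _ => mul_nonneg (hnn d) (add_nonneg (hF _) (hF _)))
      (by norm_num)
  · exact le_refl _

private theorem op3_part {N : ℕ} {nb : ℕ → ℝ} (hnn : ∀ d, 0 ≤ nb d) {F : ℤ → ℝ}
    (hF : ∀ x, 0 ≤ F x) (x ε : ℤ) (Z : Finset ℤ)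
    (hZ : ∀ z ∈ Z, z = x + ε * (2 * (op3kd x z : ℤ)) ∧ op3kd x z ≤ N) :
    ∑ z ∈ Z, nb (op3kd x z) * F z ≤ ∑ d ∈ range (N + 1), nb d * F (x + ε * (2 * (d : ℤ))) := by
  have hinj : Set.InjOn (op3kd x) (Z : Set ℤ) := by
    intro z hz z' hz' h
    rw [(hZ z hz).1, (hZ z' hz').1, h]
  have h1 : ∑ z ∈ Z, nb (op3kd x z) * F z =
      ∑ d ∈ Z.image (op3kd x), nb d * F (x + ε * (2 * (d : ℤ))) := by
    rw [Finset.sum_image hinj]
    refine Finset.sum_congr rfl fun z hz => ?_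
    rw [← (hZ z hz).1]
  rw [h1]
  refine Finset.sum_le_sum_of_subset_of_nonneg ?_ fun d _ _ => mul_nonneg (hnn d) (hF _)
  intro d hd
  obtain ⟨z, hz, rfl⟩ := Finset.mem_image.1 hd
  have := (hZ z hz).2
  exact Finset.mem_range.2 (by omega)

private theorem op3_L1 {N : ℕ} {nb : ℕ → ℝ} (hnn : ∀ d, 0 ≤ nb d) {F : ℤ → ℝ}
    (hF : ∀ x, 0 ≤ F x) {x : ℤ} (hx1 : 1 ≤ x) (hxN : x ≤ N) (Z : Finset ℤ)
    (hZ : ∀ z ∈ Z, (z - x) % 2 = 0 ∧ 1 ≤ z ∧ z ≤ N) :
    ∑ z ∈ Z, nb (op3kd x z) / 2 * F z ≤ opB N nb F x := by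
  have h1 : ∑ z ∈ Z.filter (fun z => x ≤ z), nb (op3kd x z) * F z ≤
      ∑ d ∈ range (N + 1), nb d * F (x + 1 * (2 * (d : ℤ))) := by
    apply op3_part hnn hF
    intro z hz
    have h2 := hZ z (Finset.mem_filter.1 hz).1
    have h3 := (Finset.mem_filter.1 hz).2
    unfold op3kd
    constructor <;> omega
  have h2 : ∑ z ∈ Z.filter (fun z => ¬ x ≤ z), nb (op3kd x z) * F z ≤
      ∑ d ∈ range (N + 1), nb d * F (x + (-1) * (2 * (d : ℤ))) := by
    apply op3_part hnn hF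
    intro z hz
    have h2 := hZ z (Finset.mem_filter.1 hz).1
    have h3 := (Finset.mem_filter.1 hz).2
    unfold op3kd
    constructor <;> omega
  have h3 : ∑ z ∈ Z, nb (op3kd x z) / 2 * F z =
      (∑ z ∈ Z.filter (fun z => x ≤ z), nb (op3kd x z) * F z +
        ∑ z ∈ Z.filter (fun z => ¬ x ≤ z), nb (op3kd x z) * F z) / 2 := by
    rw [Finset.sum_filter_add_sum_filter_not, Finset.sum_div]
    exact Finset.sum_congr rfl fun z _ => by ring
  have h4 : opB N nb F x = (∑ d ∈ range (N + 1), nb d * F (x + 1 * (2 * (d : ℤ))) +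
      ∑ d ∈ range (N + 1), nb d * F (x + (-1) * (2 * (d : ℤ)))) / 2 := by
    unfold opB
    rw [if_pos ⟨hx1, hxN⟩, ← Finset.sum_add_distrib]
    congr 1
    refine Finset.sum_congr rfl fun d _ => ?_
    rw [one_mul, neg_one_mul, ← sub_eq_add_neg]
    ring
  rw [h3, h4]
  exact div_le_div_of_nonneg_right (add_le_add h1 h2) (by norm_num)

private theorem op3_cnt (a b r : ℤ) (m : ℕ) (h : a + 4 * m ≤ b + 1) :
    m ≤ ((Icc a b).filter (fun z => (z - r) % 4 = 0)).card := by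
  have h1 : m = ((range m).image (fun k : ℕ => a + (r - a) % 4 + 4 * (k : ℤ))).card := by
    rw [Finset.card_image_of_injective, Finset.card_range]
    intro k k' hk
    simp only at hk
    omega
  conv_lhs => rw [h1]
  apply Finset.card_le_card
  intro z hz
  obtain ⟨k, hk, rfl⟩ := Finset.mem_image.1 hz
  have hk' := Finset.mem_range.1 hk
  rw [Finset.mem_filter, Finset.mem_Icc]
  refine ⟨⟨?_, ?_⟩, ?_⟩
  · omega
  · omega
  · omega

omit [DecidableEq ι] in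
/-- the steps from `x` which are not good -/
private theorem op3_bad {N : ℕ} {U : Finset ι} {c : ι → ℕ} {η κ : ℝ} {nb : ℕ → ℝ}
    (h : Den N U c η κ nb) (x : ℤ) (Z : Finset ℤ)
    (hZ : (∀ z ∈ Z, (z - x) % 4 = 2 ∧ 4 * |z - x| ≤ N) )
    (hs : (∀ z ∈ Z, x < z) ∨ (∀ z ∈ Z, z < x)) :
    ((Z.filter (fun z => nb (op3kd x z) < 7 / N)).card : ℝ) ≤ κ * N := by
  refine le_trans ?_ h.exc
  have h0 : (Z.filter (fun z => nb (op3kd x z) < 7 / N)).card ≤
      ((range (N + 1)).filter (fun d => d % 2 = 1 ∧ 8 * d ≤ N ∧ nb d < 7 / N)).card := by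
    apply Finset.card_le_card_of_injOn (op3kd x)
    · intro z hz
      have hz' := Finset.mem_filter.1 (Finset.mem_coe.1 hz)
      obtain ⟨h1, h2⟩ := hZ z hz'.1
      have h3 : |z - x| = (z - x).natAbs := Int.abs_eq_natAbs _
      rw [h3] at h2
      rw [Finset.mem_coe, Finset.mem_filter, Finset.mem_range]
      refine ⟨?_, ?_, ?_, hz'.2⟩
      · unfold op3kd; omega
      · unfold op3kd; omega
      · unfold op3kd; omega
    · intro z hz z' hz' hzz
      have m1 := (Finset.mem_filter.1 (Finset.mem_coe.1 hz)).1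
      have m2 := (Finset.mem_filter.1 (Finset.mem_coe.1 hz')).1
      have h1 := (hZ z m1).1
      have h2 := (hZ z' m2).1
      unfold op3kd at hzz
      rcases hs with hs | hs
      · have h3 := hs z m1
        have h4 := hs z' m2
        omega
      · have h3 := hs z m1
        have h4 := hs z' m2
        omega
  exact_mod_cast h0

omit [DecidableEq ι] in
private theorem op3_good {N : ℕ} (hN : 1000 ≤ N) {U : Finset ι} {c : ι → ℕ} {η κ : ℝ} {nb : ℕ → ℝ}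
    (hκ : κ ≤ 1 / 1000) (h : Den N U c η κ nb) {x y : ℤ} (hx : 1 ≤ x ∧ x ≤ N) (hy : 1 ≤ y ∧ y ≤ N)
    (hxy : (y - x) % 4 = 0) (hd : 8 * |y - x| ≤ N) :
    (6 / 5 : ℝ) / N ≤ ∑ z ∈ (Icc (1 : ℤ) N).filter (fun z => (z - x) % 2 = 0),
      nb (op3kd x z) * nb (op3kd z y) := by
  have hNr : (1000 : ℝ) ≤ N := by exact_mod_cast hN
  have hN0 : (0 : ℝ) < N := by linarith
  have hab := abs_le.1 (le_of_eq (rfl : |y - x| = |y - x|))
  obtain ⟨a, b, hlen, hprop, hside⟩ : ∃ a b : ℤ, a + 4 * ((N / 32 - 1 : ℕ) : ℤ) ≤ b + 1 ∧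
      (∀ z, a ≤ z → z ≤ b → 1 ≤ z ∧ z ≤ N ∧ 4 * |z - x| ≤ N ∧ 4 * |z - y| ≤ N) ∧
      ((∀ z, a ≤ z → z ≤ b → x < z ∧ y < z) ∨ (∀ z, a ≤ z → z ≤ b → z < x ∧ z < y)) := by
    rcases le_total x y with hc | hc
    · have e1 : |y - x| = y - x := abs_of_nonneg (by linarith)
      rw [e1] at hd
      by_cases h4 : 4 * x ≤ 3 * N
      · refine ⟨y + 1, x + (N / 4 : ℕ), by omega, ?_, Or.inl ?_⟩
        · intro z hz1 hz2
          rw [abs_of_nonneg (by omega : 0 ≤ z - x), abs_of_nonneg (by omega : 0 ≤ z - y)]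
          omega
        · intro z hz1 hz2
          omega
      · refine ⟨y - (N / 4 : ℕ), x - 1, by omega, ?_, Or.inr ?_⟩
        · intro z hz1 hz2
          rw [abs_of_nonpos (by omega : z - x ≤ 0), abs_of_nonpos (by omega : z - y ≤ 0)]
          omega
        · intro z hz1 hz2
          omega
    · have e1 : |y - x| = x - y := by rw [abs_of_nonpos (by linarith)]; ring
      rw [e1] at hd
      by_cases h4 : 4 * y ≤ 3 * N
      · refine ⟨x + 1, y + (N / 4 : ℕ), by omega, ?_, Or.inl ?_⟩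
        · intro z hz1 hz2
          rw [abs_of_nonneg (by omega : 0 ≤ z - x), abs_of_nonneg (by omega : 0 ≤ z - y)]
          omega
        · intro z hz1 hz2
          omega
      · refine ⟨x - (N / 4 : ℕ), y - 1, by omega, ?_, Or.inr ?_⟩
        · intro z hz1 hz2
          rw [abs_of_nonpos (by omega : z - x ≤ 0), abs_of_nonpos (by omega : z - y ≤ 0)]
          omega
        · intro z hz1 hz2
          omega
  obtain ⟨Z, hZ⟩ : ∃ Z, Z = (Icc a b).filter (fun z => (z - (x + 2)) % 4 = 0) := ⟨_, rfl⟩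
  have hZc : N / 32 - 1 ≤ Z.card := by rw [hZ]; exact op3_cnt a b (x + 2) _ hlen
  have hZm : ∀ z ∈ Z, (1 ≤ z ∧ z ≤ N) ∧ ((z - x) % 4 = 2 ∧ 4 * |z - x| ≤ N) ∧
      ((z - y) % 4 = 2 ∧ 4 * |z - y| ≤ N) := by
    intro z hz
    rw [hZ, Finset.mem_filter, Finset.mem_Icc] at hz
    obtain ⟨⟨h1, h2⟩, h3⟩ := hz
    obtain ⟨h4, h5, h6, h7⟩ := hprop z h1 h2
    exact ⟨⟨h4, h5⟩, ⟨by omega, h6⟩, ⟨by omega, h7⟩⟩
  have hbx := op3_bad h x Z (fun z hz => (hZm z hz).2.1) (by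
    rcases hside with hs | hs
    · left
      intro z hz
      rw [hZ, Finset.mem_filter, Finset.mem_Icc] at hz
      exact (hs z hz.1.1 hz.1.2).1
    · right
      intro z hz
      rw [hZ, Finset.mem_filter, Finset.mem_Icc] at hz
      exact (hs z hz.1.1 hz.1.2).1)
  have hby := op3_bad h y Z (fun z hz => (hZm z hz).2.2) (by
    rcases hside with hs | hs
    · left
      intro z hz
      rw [hZ, Finset.mem_filter, Finset.mem_Icc] at hz
      exact (hs z hz.1.1 hz.1.2).2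
    · right
      intro z hz
      rw [hZ, Finset.mem_filter, Finset.mem_Icc] at hz
      exact (hs z hz.1.1 hz.1.2).2)
  obtain ⟨G, hG⟩ : ∃ G, G = Z.filter (fun z => ¬ nb (op3kd x z) < 7 / N ∧ ¬ nb (op3kd y z) < 7 / N) :=
    ⟨_, rfl⟩
  have hGc : (Z.card : ℝ) ≤ G.card + κ * N + κ * N := by
    have h1 : Z ⊆ G ∪ Z.filter (fun z => nb (op3kd x z) < 7 / N) ∪
        Z.filter (fun z => nb (op3kd y z) < 7 / N) := by
      intro z hz
      rw [hG, Finset.mem_union, Finset.mem_union, Finset.mem_filter, Finset.mem_filter,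
        Finset.mem_filter]
      by_cases c1 : nb (op3kd x z) < 7 / N
      · exact Or.inl (Or.inr ⟨hz, c1⟩)
      · by_cases c2 : nb (op3kd y z) < 7 / N
        · exact Or.inr ⟨hz, c2⟩
        · exact Or.inl (Or.inl ⟨hz, c1, c2⟩)
    have h2 := Finset.card_le_card h1
    have h3 := (h2.trans (Finset.card_union_le _ _)).trans
      (Nat.add_le_add_right (Finset.card_union_le _ _) _)
    have h4 : (Z.card : ℝ) ≤ G.card + (Z.filter (fun z => nb (op3kd x z) < 7 / N)).card +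
        (Z.filter (fun z => nb (op3kd y z) < 7 / N)).card := by exact_mod_cast h3
    linarith
  have hGn : (N : ℝ) / 40 ≤ G.card := by
    have h1 : (N : ℝ) ≤ 32 * (Z.card : ℝ) + 64 := by
      have h2 : N ≤ 32 * Z.card + 64 := by omega
      exact_mod_cast h2
    have h2 : κ * N ≤ 1 / 1000 * N := mul_le_mul_of_nonneg_right hκ hN0.le
    linarith
  have hsub : G ⊆ (Icc (1 : ℤ) N).filter (fun z => (z - x) % 2 = 0) := by
    intro z hz
    rw [hG, Finset.mem_filter] at hz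
    have h1 := hZm z hz.1
    rw [Finset.mem_filter, Finset.mem_Icc]
    refine ⟨h1.1, ?_⟩
    have h2 := h1.2.1.1
    omega
  have h7 : (0 : ℝ) ≤ 7 / N := by positivity
  calc (6 / 5 : ℝ) / N ≤ G.card * (7 / N * (7 / N)) := by
        have e1 : (6 / 5 : ℝ) / N = (N : ℝ) / 40 * ((48 / N) * (1 / N)) := by
          field_simp
          norm_num
        rw [e1]
        refine mul_le_mul hGn ?_ (by positivity) (Nat.cast_nonneg _)
        have e2 : (7 : ℝ) / N * (7 / N) = (49 / N) * (1 / N) := by ring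
        rw [e2]
        refine mul_le_mul_of_nonneg_right ?_ (by positivity)
        exact div_le_div_of_nonneg_right (by norm_num) hN0.le
    _ = ∑ z ∈ G, (7 : ℝ) / N * (7 / N) := by rw [Finset.sum_const, nsmul_eq_mul]
    _ ≤ ∑ z ∈ G, nb (op3kd x z) * nb (op3kd z y) := by
        refine Finset.sum_le_sum fun z hz => ?_
        rw [hG, Finset.mem_filter] at hz
        obtain ⟨_, h1, h2⟩ := hz
        have e : op3kd z y = op3kd y z := by
          unfold op3kd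
          omega
        rw [e]
        exact mul_le_mul (not_lt.1 h1) (not_lt.1 h2) h7 (h.nn _)
    _ ≤ _ := Finset.sum_le_sum_of_subset_of_nonneg hsub fun z _ _ => mul_nonneg (h.nn _) (h.nn _)

omit [DecidableEq ι] in
private theorem op3_a {N : ℕ} (hN : 1000 ≤ N) {U : Finset ι} {c : ι → ℕ} {η κ : ℝ} {nb : ℕ → ℝ}
    (hκ : κ ≤ 1 / 1000) (h : Den N U c η κ nb) {F : ℤ → ℝ} (hF : ∀ x, 0 ≤ F x)
    {x : ℤ} (hx1 : 1 ≤ x) (hxN : x ≤ N) :
    (3 / 10 : ℝ) / N * ∑ y ∈ (Icc (1 : ℤ) N).filter (fun y => (y - x) % 4 = 0 ∧ 8 * |y - x| ≤ N), F y ≤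
      opB N nb (opB N nb F) x := by
  obtain ⟨Y, hY⟩ : ∃ Y, Y = (Icc (1 : ℤ) N).filter
    (fun y => (y - x) % 4 = 0 ∧ 8 * |y - x| ≤ N) := ⟨_, rfl⟩
  obtain ⟨Z, hZ⟩ : ∃ Z, Z = (Icc (1 : ℤ) N).filter (fun z => (z - x) % 2 = 0) := ⟨_, rfl⟩
  have mY : ∀ y ∈ Y, (1 ≤ y ∧ y ≤ N) ∧ (y - x) % 4 = 0 ∧ 8 * |y - x| ≤ N := by
    intro y hy
    rw [hY, Finset.mem_filter, Finset.mem_Icc] at hy
    exact hy
  have mZ : ∀ z ∈ Z, (1 ≤ z ∧ z ≤ N) ∧ (z - x) % 2 = 0 := by
    intro z hz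
    rw [hZ, Finset.mem_filter, Finset.mem_Icc] at hz
    exact hz
  have h1 := op3_L1 h.nn (op3_nonneg h.nn hF (N := N)) hx1 hxN Z (fun z hz =>
    ⟨(mZ z hz).2, (mZ z hz).1⟩)
  refine le_trans ?_ h1
  have h2 : ∀ z ∈ Z, ∑ y ∈ Y, nb (op3kd z y) / 2 * F y ≤ opB N nb F z := by
    intro z hz
    have h3 := mZ z hz
    refine op3_L1 h.nn hF h3.1.1 h3.1.2 Y fun y hy => ?_
    have h4 := mY y hy
    refine ⟨?_, h4.1⟩
    have h5 := h4.2.1
    have h6 := h3.2
    omega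
  calc (3 / 10 : ℝ) / N * ∑ y ∈ (Icc (1 : ℤ) N).filter
        (fun y => (y - x) % 4 = 0 ∧ 8 * |y - x| ≤ N), F y
      = ∑ y ∈ Y, (3 / 10 : ℝ) / N * F y := by rw [← hY, Finset.mul_sum]
    _ ≤ ∑ y ∈ Y, (∑ z ∈ Z, nb (op3kd x z) * nb (op3kd z y)) / 4 * F y := by
        refine Finset.sum_le_sum fun y hy => mul_le_mul_of_nonneg_right ?_ (hF y)
        have h3 := mY y hy
        have h4 := op3_good hN hκ h ⟨hx1, hxN⟩ h3.1 h3.2.1 h3.2.2
        rw [← hZ] at h4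
        have h5 : (3 / 10 : ℝ) / N = (6 / 5 : ℝ) / N / 4 := by ring
        rw [h5]
        exact div_le_div_of_nonneg_right h4 (by norm_num)
    _ = ∑ z ∈ Z, nb (op3kd x z) / 2 * ∑ y ∈ Y, nb (op3kd z y) / 2 * F y := by
        simp only [Finset.sum_div, Finset.sum_mul, Finset.mul_sum]
        rw [Finset.sum_comm]
        refine Finset.sum_congr rfl fun z _ => Finset.sum_congr rfl fun y _ => ?_
        ring
    _ ≤ ∑ z ∈ Z, nb (op3kd x z) / 2 * opB N nb F z :=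
        Finset.sum_le_sum fun z hz => mul_le_mul_of_nonneg_left (h2 z hz)
          (div_nonneg (h.nn _) (by norm_num))

/-- many points on the way -/
private theorem op3_way {N : ℕ} (hN : 1000 ≤ N) (j : ℕ) {x y : ℤ} (hx : 1 ≤ x ∧ x ≤ N)
    (hy : 1 ≤ y ∧ y ≤ N) (hxy : (y - x) % 4 = 0) (hd : 16 * |y - x| ≤ (j + 3) * N) :
    (N : ℝ) / 100 ≤ ((Icc (1 : ℤ) N).filter (fun z => ((z - x) % 4 = 0 ∧ 8 * |z - x| ≤ N) ∧
      ((y - z) % 4 = 0 ∧ 16 * |y - z| ≤ (j + 2) * N))).card := by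
  obtain ⟨a, b, hlen, hprop⟩ : ∃ a b : ℤ, a + 4 * ((N / 64 - 1 : ℕ) : ℤ) ≤ b + 1 ∧
      (∀ z, a ≤ z → z ≤ b → (1 ≤ z ∧ z ≤ N) ∧ 8 * |z - x| ≤ N ∧
        16 * |y - z| ≤ ((j : ℤ) + 2) * N) := by
    have hjN : (0 : ℤ) ≤ (j : ℤ) * N := by positivity
    have e3 : ((j : ℤ) + 3) * N = (j : ℤ) * N + 3 * N := by ring
    have e2 : ((j : ℤ) + 2) * N = (j : ℤ) * N + 2 * N := by ring
    rw [e3] at hd
    rw [e2]
    generalize (j : ℤ) * N = P at *
    by_cases h8 : 8 * |y - x| < N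
    · rcases le_total x y with hc | hc
      · have e1 : |y - x| = y - x := abs_of_nonneg (by linarith)
        rw [e1] at hd h8
        by_cases h4 : 8 * x ≤ 7 * N
        · refine ⟨x, x + (N / 8 : ℕ), by omega, ?_⟩
          intro z hz1 hz2
          rw [abs_of_nonneg (by omega : 0 ≤ z - x)]
          have h5 : |y - z| ≤ (N / 8 : ℕ) := abs_le.2 ⟨by omega, by omega⟩
          omega
        · refine ⟨y - (N / 8 : ℕ), y, by omega, ?_⟩
          intro z hz1 hz2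
          rw [abs_of_nonneg (by omega : 0 ≤ y - z)]
          have h5 : |z - x| ≤ (N / 8 : ℕ) := abs_le.2 ⟨by omega, by omega⟩
          omega
      · have e1 : |y - x| = x - y := by rw [abs_of_nonpos (by linarith)]; ring
        rw [e1] at hd h8
        by_cases h4 : 8 * y ≤ 7 * N
        · refine ⟨y, y + (N / 8 : ℕ), by omega, ?_⟩
          intro z hz1 hz2
          rw [abs_of_nonpos (by omega : y - z ≤ 0)]
          have h5 : |z - x| ≤ (N / 8 : ℕ) := abs_le.2 ⟨by omega, by omega⟩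
          omega
        · refine ⟨x - (N / 8 : ℕ), x, by omega, ?_⟩
          intro z hz1 hz2
          rw [abs_of_nonpos (by omega : z - x ≤ 0)]
          have h5 : |y - z| ≤ (N / 8 : ℕ) := abs_le.2 ⟨by omega, by omega⟩
          omega
    · rcases le_total x y with hc | hc
      · have e1 : |y - x| = y - x := abs_of_nonneg (by linarith)
        rw [e1] at hd h8
        refine ⟨x + (N / 16 : ℕ) + 1, x + (N / 8 : ℕ), by omega, ?_⟩
        intro z hz1 hz2
        rw [abs_of_nonneg (by omega : 0 ≤ z - x), abs_of_nonneg (by omega : 0 ≤ y - z)]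
        omega
      · have e1 : |y - x| = x - y := by rw [abs_of_nonpos (by linarith)]; ring
        rw [e1] at hd h8
        refine ⟨x - (N / 8 : ℕ), x - (N / 16 : ℕ) - 1, by omega, ?_⟩
        intro z hz1 hz2
        rw [abs_of_nonpos (by omega : z - x ≤ 0), abs_of_nonpos (by omega : y - z ≤ 0)]
        omega
  have h1 := op3_cnt a b x _ hlen
  have h2 : ((Icc a b).filter (fun z => (z - x) % 4 = 0)).card ≤
      ((Icc (1 : ℤ) N).filter (fun z => ((z - x) % 4 = 0 ∧ 8 * |z - x| ≤ N) ∧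
      ((y - z) % 4 = 0 ∧ 16 * |y - z| ≤ (j + 2) * N))).card := by
    apply Finset.card_le_card
    intro z hz
    rw [Finset.mem_filter, Finset.mem_Icc] at hz
    obtain ⟨⟨h3, h4⟩, h5⟩ := hz
    obtain ⟨h6, h7, h8⟩ := hprop z h3 h4
    rw [Finset.mem_filter, Finset.mem_Icc]
    exact ⟨h6, ⟨h5, h7⟩, by omega, h8⟩
  have h3 := h1.trans h2
  generalize ((Icc (1 : ℤ) N).filter (fun z => ((z - x) % 4 = 0 ∧ 8 * |z - x| ≤ N) ∧
      ((y - z) % 4 = 0 ∧ 16 * |y - z| ≤ (j + 2) * N))).card = M at *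
  have h4 : N ≤ 64 * M + 128 := by omega
  have h5 : (N : ℝ) ≤ 64 * M + 128 := by exact_mod_cast h4
  have hNr : (1000 : ℝ) ≤ N := by exact_mod_cast hN
  linarith

private theorem op3_iter_nonneg {N : ℕ} {nb : ℕ → ℝ} (hnn : ∀ d, 0 ≤ nb d) {F : ℤ → ℝ}
    (hF : ∀ x, 0 ≤ F x) (k : ℕ) : ∀ x, 0 ≤ ((opB N nb)^[k] F) x := by
  induction k with
  | zero => exact hF
  | succ k ih =>
    intro x
    rw [Function.iterate_succ_apply']
    exact op3_nonneg hnn ih x

omit [DecidableEq ι] in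
private theorem op3_b {N : ℕ} (hN : 1000 ≤ N) {U : Finset ι} {c : ι → ℕ} {η κ : ℝ} {nb : ℕ → ℝ}
    (hκ : κ ≤ 1 / 1000) (h : Den N U c η κ nb) {F : ℤ → ℝ} (hF : ∀ x, 0 ≤ F x) (j : ℕ) :
    ∀ x : ℤ, 1 ≤ x → x ≤ N →
    (3 / 10 * (3 / 1000) ^ j : ℝ) / N * ∑ y ∈ (Icc (1 : ℤ) N).filter
      (fun y => (y - x) % 4 = 0 ∧ 16 * |y - x| ≤ (j + 2) * N), F y ≤
      ((opB N nb)^[2 * (j + 1)] F) x := by
  have hNr : (1000 : ℝ) ≤ N := by exact_mod_cast hN
  have hN0 : (0 : ℝ) < N := by linarith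
  induction j with
  | zero =>
    intro x hx1 hxN
    have h1 := op3_a hN hκ h hF hx1 hxN
    rw [pow_zero, mul_one]
    have h2 : (Icc (1 : ℤ) N).filter
        (fun y => (y - x) % 4 = 0 ∧ 16 * |y - x| ≤ (((0 : ℕ) : ℤ) + 2) * N) =
        (Icc (1 : ℤ) N).filter (fun y => (y - x) % 4 = 0 ∧ 8 * |y - x| ≤ N) := by
      apply Finset.filter_congr
      intro y _
      rw [Nat.cast_zero, zero_add]
      constructor
      · rintro ⟨h3, h4⟩
        exact ⟨h3, by omega⟩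
      · rintro ⟨h3, h4⟩
        exact ⟨h3, by omega⟩
    rw [h2]
    exact h1
  | succ j ih =>
    intro x hx1 hxN
    have h1 := op3_a hN hκ h (op3_iter_nonneg (N := N) h.nn hF (2 * (j + 1))) hx1 hxN
    have h2 : ((opB N nb)^[2 * (j + 1 + 1)] F) x =
        opB N nb (opB N nb ((opB N nb)^[2 * (j + 1)] F)) x := by
      have h3 : 2 * (j + 1 + 1) = 2 * (j + 1) + 1 + 1 := by ring
      rw [h3, Function.iterate_succ_apply', Function.iterate_succ_apply']
    rw [h2]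
    refine le_trans ?_ h1
    obtain ⟨Z, hZ⟩ : ∃ Z, Z = (Icc (1 : ℤ) N).filter
      (fun z => (z - x) % 4 = 0 ∧ 8 * |z - x| ≤ N) := ⟨_, rfl⟩
    obtain ⟨Y, hY⟩ : ∃ Y, Y = (Icc (1 : ℤ) N).filter
      (fun y => (y - x) % 4 = 0 ∧ 16 * |y - x| ≤ (((j + 1 : ℕ) : ℤ) + 2) * N) := ⟨_, rfl⟩
    rw [← hZ, ← hY]
    have hc : (0 : ℝ) ≤ (3 / 10 * (3 / 1000) ^ j : ℝ) / N := by positivity
    have h4 : ∀ z ∈ Z, (3 / 10 * (3 / 1000) ^ j : ℝ) / N *
        ∑ y ∈ Y.filter (fun y => (y - z) % 4 = 0 ∧ 16 * |y - z| ≤ ((j : ℤ) + 2) * N), F y ≤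
        ((opB N nb)^[2 * (j + 1)] F) z := by
      intro z hz
      rw [hZ, Finset.mem_filter, Finset.mem_Icc] at hz
      refine le_trans (mul_le_mul_of_nonneg_left ?_ hc) (ih z hz.1.1 hz.1.2)
      refine Finset.sum_le_sum_of_subset_of_nonneg ?_ fun y _ _ => hF y
      intro y hy
      rw [Finset.mem_filter, hY, Finset.mem_filter] at hy
      rw [Finset.mem_filter]
      exact ⟨hy.1.1, hy.2⟩
    have h5 : ∀ y ∈ Y, (N : ℝ) / 100 ≤
        ((Z.filter (fun z => (y - z) % 4 = 0 ∧ 16 * |y - z| ≤ ((j : ℤ) + 2) * N)).card : ℝ) := by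
      intro y hy
      rw [hY, Finset.mem_filter, Finset.mem_Icc] at hy
      have h6 := op3_way hN j ⟨hx1, hxN⟩ hy.1 hy.2.1 (by
        have h7 := hy.2.2
        push_cast at h7
        have h8 : ((j : ℤ) + 1 + 2) * N = ((j : ℤ) + 3) * N := by ring
        rw [h8] at h7
        exact h7)
      rw [hZ, Finset.filter_filter]
      exact h6
    calc (3 / 10 * (3 / 1000) ^ (j + 1) : ℝ) / N * ∑ y ∈ Y, F y
        = ∑ y ∈ Y, (3 / 10 : ℝ) / N * ((3 / 10 * (3 / 1000) ^ j : ℝ) / N) * ((N : ℝ) / 100) * F y := by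
          rw [Finset.mul_sum]
          refine Finset.sum_congr rfl fun y _ => ?_
          rw [pow_succ]
          field_simp
          ring
      _ ≤ ∑ y ∈ Y, (3 / 10 : ℝ) / N * ((3 / 10 * (3 / 1000) ^ j : ℝ) / N) *
            ((Z.filter (fun z => (y - z) % 4 = 0 ∧
              16 * |y - z| ≤ ((j : ℤ) + 2) * N)).card : ℝ) * F y := by
          refine Finset.sum_le_sum fun y hy => mul_le_mul_of_nonneg_right ?_ (hF y)
          exact mul_le_mul_of_nonneg_left (h5 y hy) (by positivity)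
      _ = (3 / 10 : ℝ) / N * ∑ z ∈ Z, (3 / 10 * (3 / 1000) ^ j : ℝ) / N *
            ∑ y ∈ Y.filter (fun y => (y - z) % 4 = 0 ∧ 16 * |y - z| ≤ ((j : ℤ) + 2) * N), F y := by
          have e1 : ∀ y ∈ Y, (3 / 10 : ℝ) / N * ((3 / 10 * (3 / 1000) ^ j : ℝ) / N) *
            ((Z.filter (fun z => (y - z) % 4 = 0 ∧
              16 * |y - z| ≤ ((j : ℤ) + 2) * N)).card : ℝ) * F y =
              ∑ z ∈ Z, (3 / 10 : ℝ) / N * ((3 / 10 * (3 / 1000) ^ j : ℝ) / N *
                (if (y - z) % 4 = 0 ∧ 16 * |y - z| ≤ ((j : ℤ) + 2) * N then F y else 0)) := by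
            intro y _
            rw [Finset.card_filter, Nat.cast_sum, Finset.mul_sum, Finset.sum_mul]
            refine Finset.sum_congr rfl fun z _ => ?_
            split_ifs
            · rw [Nat.cast_one]; ring
            · rw [Nat.cast_zero]; ring
          rw [Finset.sum_congr rfl e1, Finset.sum_comm, Finset.mul_sum]
          refine Finset.sum_congr rfl fun z _ => ?_
          rw [← Finset.mul_sum, ← Finset.mul_sum, Finset.sum_filter]
      _ ≤ (3 / 10 : ℝ) / N * ∑ z ∈ Z, ((opB N nb)^[2 * (j + 1)] F) z :=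
          mul_le_mul_of_nonneg_left (Finset.sum_le_sum h4) (by positivity)

theorem opB_lower : ∃ cT : ℝ, 0 < cT ∧ ∃ N₀ : ℕ, ∀ N : ℕ, N₀ ≤ N → ∀ (ι : Type) [DecidableEq ι] (U : Finset ι) (c : ι → ℕ)
    (η κ : ℝ) (nb : ℕ → ℝ), κ ≤ 1 / 1000 → Den N U c η κ nb → ∀ F : ℤ → ℝ, Sup N F → (∀ x, 0 ≤ F x) →
      ∀ x : ℤ, 1 ≤ x → x ≤ N →
        cT / N * ∑ y ∈ (Icc (1 : ℤ) N).filter (fun y => (y - x) % 4 = 0), F y ≤ ((opB N nb)^[30] F) x := by
  refine ⟨3 / 10 * (3 / 1000) ^ 14, by positivity, 1000, ?_⟩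
  intro N hN ι _ U c η κ nb hκ h F _ hF x hx1 hxN
  have h1 := op3_b hN hκ h hF 14 x hx1 hxN
  have h2 : (Icc (1 : ℤ) N).filter
      (fun y => (y - x) % 4 = 0 ∧ 16 * |y - x| ≤ (((14 : ℕ) : ℤ) + 2) * N) =
      (Icc (1 : ℤ) N).filter (fun y => (y - x) % 4 = 0) := by
    apply Finset.filter_congr
    intro y hy
    rw [Finset.mem_Icc] at hy
    constructor
    · exact fun h3 => h3.1
    · intro h3
      refine ⟨h3, ?_⟩
      have h4 : |y - x| ≤ N := abs_le.2 ⟨by omega, by omega⟩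
      push_cast
      omega
  rw [h2] at h1
  exact h1

end SSB
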