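import Pool.Agent.Lib.MP_8a819d_co.LH.Op2
import Pool.Agent.Lib.MP_8a819d_co.LH.Op3

/-!
# Lower bound for the number of walks

JOB Op4 (all of this file).

PROOF. `h, N₁` from `walk_upper c₂`, `cT, N₂` from `opB_lower`. Let `h' ≥ h` with `2 h' + 30 ≥ h₀`, `k = 2 h' + 30`, `c₁ = cT/(4 * 4^(h'+1))`.
Let `a, b ∈ [1, N]`, `a - b` even; `r = k` if `(a - b) % 4 = 0`, otherwise `r = k + 1`. Put `p = h'` resp. `h' + 1` (so `r = h' + 30 + p`), `g = T^(h') δ_a`, `q = T^p δ_b` (nonnegative, supported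
in `[1, N]`). `nrm g, nrm q ≤ √(1100/N)` (`(nrm g)² = nw (2h') a a/(2|U|)^(2h')` by `nw_add`, `nw_symm`; `walk_upper`). `∑ g ≥ 2^(-h')`, `∑ q ≥ 2^(-h'-1)` (`le_nw_sum`, `nw_symm`). `g` lives on the class
`a + 2h'` mod 4, `q` on `b + 2p`, which is the same class (`nw_class`). By `nw_add`: `nw r a b/(2|U|)^r = ∑ x, g x (T^30 q) x`.
`T^30 q - Tb^30 q = ∑ i < 30, Tb^i (T - Tb) T^(29-i) q`; `nrm (Tb F) ≤ nrm (T F) + η nrm F ≤ 2 nrm F` (`opT_l2`, `opT_sub_l2`, `η ≤ 1`), so its norm is at most `30 * 2^30 η nrm q`. Hence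
`∑ g T^30 q ≥ ∑ g Tb^30 q - 30 * 2^30 η * 1100/N ≥ (cT/N) (∑ g)(∑ q) - o(1)/N ≥ (cT 2^(-2h'-1) - o(1))/N ≥ c₁/N` for large `N` (`η = N^(-c₂) → 0`), by `opB_lower` (for `x` in the support of `g` the class of `x`
contains the support of `q`).
-/

set_option autoImplicit false

namespace SSB

open Finset

private theorem op4_nrm_sq (N : ℕ) (F : ℤ → ℝ) : nrm N F ^ 2 = ∑ x ∈ Icc (1 : ℤ) N, F x ^ 2 :=
  Real.sq_sqrt (sum_nonneg fun _ _ => sq_nonneg _)

private theorem op4_nrm_nonneg (N : ℕ) (F : ℤ → ℝ) : 0 ≤ nrm N F := Real.sqrt_nonneg _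

private theorem op4_nrm_neg (N : ℕ) (F : ℤ → ℝ) : nrm N (fun x => -F x) = nrm N F := by
  unfold nrm
  simp only [neg_sq]

private theorem op4_cs (N : ℕ) (F G : ℤ → ℝ) :
    -(nrm N F * nrm N G) ≤ ∑ x ∈ Icc (1 : ℤ) N, F x * G x := by
  have h := Real.sum_mul_le_sqrt_mul_sqrt (Icc (1 : ℤ) N) (fun x => -F x) G
  have e1 : ∑ x ∈ Icc (1 : ℤ) N, -F x * G x = -∑ x ∈ Icc (1 : ℤ) N, F x * G x := by
    rw [← sum_neg_distrib]
    apply sum_congr rfl
    intro x _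
    ring
  have e2 : √(∑ x ∈ Icc (1 : ℤ) N, (-F x) ^ 2) = nrm N F := op4_nrm_neg N F
  rw [e1, e2] at h
  have e3 : √(∑ x ∈ Icc (1 : ℤ) N, G x ^ 2) = nrm N G := rfl
  rw [e3] at h
  linarith

private theorem op4_opB_sub (N : ℕ) (nb : ℕ → ℝ) (F G : ℤ → ℝ) (x : ℤ) :
    opB N nb (fun y => F y - G y) x = opB N nb F x - opB N nb G x := by
  unfold opB
  by_cases h : 1 ≤ x ∧ x ≤ (N : ℤ)
  · rw [if_pos h, if_pos h, if_pos h, ← sub_div, ← sum_sub_distrib]
    congr 1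
    apply sum_congr rfl
    intro d _
    ring
  · rw [if_neg h, if_neg h, if_neg h, sub_zero]

private theorem op4_opB_norm {ι : Type} [DecidableEq ι] {N : ℕ} (hN : 4 ≤ N) {U : Finset ι} {c : ι → ℕ} {η κ : ℝ}
    {nb : ℕ → ℝ} (hη : 0 ≤ η) (hη1 : η ≤ 1) (h : Den N U c η κ nb) (hU : U.Nonempty) {F : ℤ → ℝ}
    (hF : Sup N F) : nrm N (opB N nb F) ≤ 2 * nrm N F := by
  have h1 := opT_l2 N U c hF
  have h2 := opT_sub_l2 hN hη h hU hF
  have h3 := nrm_add_le N (opT N U c F) (fun x => -(opT N U c F x - opB N nb F x))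
  rw [op4_nrm_neg] at h3
  have e : (fun x => opT N U c F x + -(opT N U c F x - opB N nb F x)) = opB N nb F := by
    funext x
    ring
  rw [e] at h3
  have h4 := mul_le_mul_of_nonneg_right hη1 (op4_nrm_nonneg N F)
  linarith

private theorem op4_iter_sup {N : ℕ} {A : (ℤ → ℝ) → ℤ → ℝ} (hA : ∀ F, Sup N (A F)) {F : ℤ → ℝ}
    (hF : Sup N F) (i : ℕ) : Sup N (A^[i] F) := by
  induction i with
  | zero => exact hF
  | succ i ih =>
    rw [Function.iterate_succ_apply']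
    exact hA _

private theorem op4_iter_norm {ι : Type} [DecidableEq ι] (N : ℕ) (U : Finset ι) (c : ι → ℕ) {F : ℤ → ℝ}
    (hF : Sup N F) (i : ℕ) : nrm N ((opT N U c)^[i] F) ≤ nrm N F := by
  induction i with
  | zero => exact le_refl _
  | succ i ih =>
    rw [Function.iterate_succ_apply']
    exact (opT_l2 N U c (op4_iter_sup (Sup_opT N U c) hF i)).trans ih

private theorem op4_diff {ι : Type} [DecidableEq ι] {N : ℕ} (hN : 4 ≤ N) {U : Finset ι} {c : ι → ℕ} {η κ : ℝ}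
    {nb : ℕ → ℝ} (hη : 0 ≤ η) (hη1 : η ≤ 1) (h : Den N U c η κ nb) (hU : U.Nonempty) {F : ℤ → ℝ}
    (hF : Sup N F) (i : ℕ) :
    nrm N (fun x => (opT N U c)^[i] F x - (opB N nb)^[i] F x) ≤ (2 ^ i - 1) * (η * nrm N F) := by
  induction i with
  | zero =>
    have e : (fun x => (opT N U c)^[0] F x - (opB N nb)^[0] F x) = fun _ => (0 : ℝ) := by
      funext x
      simp
    rw [e]
    unfold nrm
    simp
  | succ i ih =>
    have hS := op4_iter_sup (Sup_opT N U c) hF i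
    have hS' := op4_iter_sup (Sup_opB N nb) hF i
    have hD : Sup N (fun x => (opT N U c)^[i] F x - (opB N nb)^[i] F x) := by
      intro x hx
      by_contra hcon
      apply hx
      have h1 : (opT N U c)^[i] F x = 0 := by
        by_contra h2
        exact hcon (hS x h2)
      have h2 : (opB N nb)^[i] F x = 0 := by
        by_contra h2
        exact hcon (hS' x h2)
      show (opT N U c)^[i] F x - (opB N nb)^[i] F x = 0
      rw [h1, h2, sub_zero]
    have h1 := nrm_add_le N (fun x => opT N U c ((opT N U c)^[i] F) x - opB N nb ((opT N U c)^[i] F) x)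
      (opB N nb (fun x => (opT N U c)^[i] F x - (opB N nb)^[i] F x))
    have e : (fun x => (opT N U c ((opT N U c)^[i] F) x - opB N nb ((opT N U c)^[i] F) x) +
        opB N nb (fun x => (opT N U c)^[i] F x - (opB N nb)^[i] F x) x) =
        fun x => (opT N U c)^[i + 1] F x - (opB N nb)^[i + 1] F x := by
      funext x
      rw [op4_opB_sub, Function.iterate_succ_apply', Function.iterate_succ_apply']
      ring
    rw [e] at h1
    have h2 := opT_sub_l2 hN hη h hU hS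
    have h3 := op4_opB_norm hN hη hη1 h hU hD
    have h4 := mul_le_mul_of_nonneg_left (op4_iter_norm N U c hF i) hη
    have h5 : (2 : ℝ) ^ (i + 1) = 2 * 2 ^ i := by rw [pow_succ]; ring
    rw [h5]
    nlinarith [h1, h2, h3, h4, ih]

private theorem op4_iter_eq {ι : Type} [DecidableEq ι] {N : ℕ} {U : Finset ι} (hU : U.Nonempty) (c : ι → ℕ)
    (i p : ℕ) {x b : ℤ} (hx : 1 ≤ x ∧ x ≤ N) (hb : 1 ≤ b ∧ b ≤ N) :
    (opT N U c)^[i] ((opT N U c)^[p] (fun z => if z = b then 1 else 0)) x =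
      (nw N U c (i + p) x b : ℝ) / (2 * U.card) ^ (i + p) := by
  rw [← Function.iterate_add_apply]
  exact opT_iter U hU c (i + p) hx hb

/-- the norm of the distribution of a walk -/
private theorem op4_sq {ι : Type} [DecidableEq ι] {N : ℕ} {U : Finset ι} {c : ι → ℕ} {p : ℕ} {b : ℤ}
    (hb : 1 ≤ b ∧ b ≤ N) :
    ∑ x ∈ Icc (1 : ℤ) N, ((nw N U c p x b : ℝ) / (2 * U.card) ^ p) ^ 2 =
      (nw N U c (p + p) b b : ℝ) / (2 * U.card) ^ (p + p) := by
  rw [nw_add N U c p p hb b]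
  push_cast
  rw [sum_div]
  apply sum_congr rfl
  intro x hx
  rw [mem_Icc] at hx
  rw [nw_symm N U c p hb hx, pow_add, div_pow, ← pow_two, ← pow_two]

theorem walk_lower (c₂ : ℝ) (hc₂ : 0 < c₂) (h₀ : ℕ) : ∃ (k : ℕ) (c₁ : ℝ) (N₀ : ℕ), h₀ ≤ k ∧ 0 < c₁ ∧
    ∀ N : ℕ, N₀ ≤ N → ∀ (ι : Type) [DecidableEq ι] (U : Finset ι) (c : ι → ℕ) (κ : ℝ), κ ≤ 1 / 1000 →
      QRU N U c ((N : ℝ) ^ (-c₂)) κ → U.Nonempty →
      ∀ a b : ℤ, (1 ≤ a ∧ a ≤ N) → (1 ≤ b ∧ b ≤ N) → (a - b) % 2 = 0 →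
        ∃ r : ℕ, (r = k ∨ r = k + 1) ∧ c₁ / N * (2 * U.card) ^ r ≤ (nw N U c r a b : ℝ) := by
  obtain ⟨h, N₁, hh, hN₁⟩ := walk_upper c₂ hc₂
  obtain ⟨cT, hcT, N₂, hN₂⟩ := opB_lower
  obtain ⟨h', hh'⟩ : ∃ h' : ℕ, h' = max h h₀ := ⟨_, rfl⟩
  have hh1 : h ≤ h' := hh' ▸ le_max_left _ _
  have hh2 : h₀ ≤ h' := hh' ▸ le_max_right _ _
  have hpow : (0 : ℝ) < 4 ^ h' := by positivity
  -- `N` large
  have t1 : Filter.Tendsto (fun x : ℝ => x ^ (-c₂)) Filter.atTop (nhds 0) := tendsto_rpow_neg_atTop hc₂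
  have t2 := (tendsto_natCast_atTop_atTop (R := ℝ)).eventually (t1.eventually
    (gt_mem_nhds (show (0 : ℝ) < min 1 (cT / (4 * 4 ^ h') / (2 ^ 30 * 1100)) by positivity)))
  obtain ⟨N₃, hN₃⟩ := Filter.eventually_atTop.1 t2
  refine ⟨2 * h' + 30, cT / (4 * 4 ^ h'), max (max N₁ N₂) (max N₃ 4), by omega, by positivity, ?_⟩
  intro N hN ι _ U c κ hκ hQ hU a b ha hb hab
  have hNN₁ : N₁ ≤ N := (le_max_left _ _).trans ((le_max_left _ _).trans hN)
  have hNN₂ : N₂ ≤ N := (le_max_right _ _).trans ((le_max_left _ _).trans hN)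
  have hNN₃ : N₃ ≤ N := (le_max_left _ _).trans ((le_max_right _ _).trans hN)
  have hN4 : 4 ≤ N := (le_max_right _ _).trans ((le_max_right _ _).trans hN)
  have hNpos : (0 : ℝ) < N := by exact_mod_cast (by omega : 0 < N)
  obtain ⟨η, hη⟩ : ∃ η : ℝ, η = (N : ℝ) ^ (-c₂) := ⟨_, rfl⟩
  have hη0 : 0 ≤ η := hη ▸ Real.rpow_nonneg hNpos.le _
  have hη2 : η < min 1 (cT / (4 * 4 ^ h') / (2 ^ 30 * 1100)) := hη ▸ hN₃ N hNN₃
  have hη1 : η ≤ 1 := (hη2.trans_le (min_le_left _ _)).le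
  have hη3 : 2 ^ 30 * 1100 * η ≤ cT / (4 * 4 ^ h') := by
    have h1 := (hη2.trans_le (min_le_right _ _)).le
    rw [le_div_iff₀ (by positivity)] at h1
    linarith
  obtain ⟨nb, d1, d2, d3, d4, d5⟩ := hQ.dens
  have hD : Den N U c η κ nb := by
    rw [hη]
    exact ⟨d1, d2, d3, d4, d5⟩
  have hpos : ∀ e ∈ U, 1 ≤ c e := fun e he => by have := hQ.odd e he; omega
  have hu : (0 : ℝ) < 2 * (U.card : ℝ) := by
    have := hU.card_pos
    have : (0 : ℝ) < U.card := by exact_mod_cast this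
    linarith
  -- the exponent `p`
  obtain ⟨p, hp1, hp2, hp3⟩ : ∃ p : ℕ, h' ≤ p ∧ p ≤ h' + 1 ∧ (b - a - 2 * (p : ℤ) - 2 * (h' : ℤ)) % 4 = 0 := by
    by_cases h4 : (a - b) % 4 = 0
    · exact ⟨h', le_refl _, Nat.le_succ _, by omega⟩
    · exact ⟨h' + 1, Nat.le_succ _, le_refl _, by push_cast; omega⟩
  refine ⟨h' + (30 + p), by omega, ?_⟩
  obtain ⟨q, hq⟩ : ∃ q : ℤ → ℝ, q = (opT N U c)^[p] (fun z => if z = b then 1 else 0) := ⟨_, rfl⟩
  obtain ⟨g, hg⟩ : ∃ g : ℤ → ℝ, g = fun x => (nw N U c h' x a : ℝ) / (2 * U.card) ^ h' := ⟨_, rfl⟩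
  have hδ : Sup N (fun z => if z = b then (1 : ℝ) else 0) := by
    intro x hx
    by_cases h1 : x = b
    · rw [h1]; exact hb
    · exact absurd (if_neg h1) hx
  have hqS : Sup N q := by
    rw [hq]
    exact op4_iter_sup (Sup_opT N U c) hδ p
  have hqv : ∀ x : ℤ, 1 ≤ x ∧ x ≤ N → q x = (nw N U c p x b : ℝ) / (2 * U.card) ^ p := by
    intro x hx
    rw [hq]
    exact opT_iter U hU c p hx hb
  have hq0 : ∀ x, 0 ≤ q x := by
    intro x
    by_cases h1 : q x = 0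
    · rw [h1]
    · rw [hqv x (hqS x h1)]
      positivity
  have hg0 : ∀ x, 0 ≤ g x := by
    intro x
    rw [hg]
    positivity
  have hg2 : nrm N g ^ 2 ≤ 1100 / N := by
    have e1 : nrm N g ^ 2 = (nw N U c (h' + h') a a : ℝ) / (2 * U.card) ^ (h' + h') := by
      rw [op4_nrm_sq, hg]
      exact op4_sq ha
    rw [e1, div_le_iff₀ (by positivity)]
    exact hN₁ N hNN₁ ι U c κ hQ hU (h' + h') (by omega) a a ha ha
  have hq2 : nrm N q ^ 2 ≤ 1100 / N := by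
    have e1 : nrm N q ^ 2 = (nw N U c (p + p) b b : ℝ) / (2 * U.card) ^ (p + p) := by
      rw [op4_nrm_sq, ← op4_sq hb]
      apply sum_congr rfl
      intro x hx
      rw [hqv x (mem_Icc.1 hx)]
    rw [e1, div_le_iff₀ (by positivity)]
    exact hN₁ N hNN₁ ι U c κ hQ hU (p + p) (by omega) b b hb hb
  -- the sums
  have hsum : ∀ (r : ℕ) (y : ℤ), (1 ≤ y ∧ y ≤ N) →
      1 / 2 ^ r ≤ ∑ x ∈ Icc (1 : ℤ) N, (nw N U c r x y : ℝ) / (2 * U.card) ^ r := by
    intro r y hy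
    have h1 := le_nw_sum hQ.le hpos r hy
    have h2 : ∑ x ∈ Icc (1 : ℤ) N, (nw N U c r x y : ℝ) =
        ((∑ x ∈ Icc (1 : ℤ) N, nw N U c r y x : ℕ) : ℝ) := by
      push_cast
      apply sum_congr rfl
      intro x hx
      rw [nw_symm N U c r (mem_Icc.1 hx) hy]
    rw [← sum_div, h2, le_div_iff₀ (by positivity), mul_pow]
    have h3 : ((U.card : ℝ)) ^ r ≤ ((∑ x ∈ Icc (1 : ℤ) N, nw N U c r y x : ℕ) : ℝ) := by
      exact_mod_cast h1
    calc 1 / 2 ^ r * ((2 : ℝ) ^ r * (U.card : ℝ) ^ r) = (U.card : ℝ) ^ r := by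
          field_simp
      _ ≤ _ := h3
  have hsg : 1 / 2 ^ h' ≤ ∑ x ∈ Icc (1 : ℤ) N, g x := by
    rw [hg]
    exact hsum h' a ha
  have hsq : 1 / 2 ^ (h' + 1) ≤ ∑ x ∈ Icc (1 : ℤ) N, q x := by
    have h1 := hsum p b hb
    have h2 : (1 : ℝ) / 2 ^ (h' + 1) ≤ 1 / 2 ^ p := by
      apply one_div_le_one_div_of_le (by positivity)
      exact pow_le_pow_right₀ (by norm_num) hp2
    refine (h2.trans h1).trans (le_of_eq ?_)
    apply sum_congr rfl
    intro x hx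
    rw [hqv x (mem_Icc.1 hx)]
  -- the main term
  have hmain : cT / N * (1 / 2 ^ h' * (1 / 2 ^ (h' + 1))) ≤
      ∑ x ∈ Icc (1 : ℤ) N, g x * (opB N nb)^[30] q x := by
    have h1 : ∀ x ∈ Icc (1 : ℤ) N, g x * (cT / N * ∑ y ∈ Icc (1 : ℤ) N, q y) ≤
        g x * (opB N nb)^[30] q x := by
      intro x hx
      rw [mem_Icc] at hx
      by_cases hgx : g x = 0
      · rw [hgx, zero_mul, zero_mul]
      apply mul_le_mul_of_nonneg_left _ (hg0 x)
      have h2 := hN₂ N hNN₂ ι U c η κ nb hκ hD q hqS hq0 x hx.1 hx.2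
      refine le_trans (le_of_eq ?_) h2
      congr 1
      symm
      apply sum_subset (filter_subset _ _)
      intro y hy hy'
      by_contra hqy
      apply hy'
      rw [mem_filter]
      refine ⟨hy, ?_⟩
      have c1 : nw N U c h' x a ≠ 0 := by
        intro h3
        apply hgx
        rw [hg]
        simp [h3]
      have c2 : nw N U c p y b ≠ 0 := by
        intro h3
        apply hqy
        rw [hqv y (mem_Icc.1 hy)]
        simp [h3]
      have c3 := nw_class hQ.odd c1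
      have c4 := nw_class hQ.odd c2
      omega
    refine le_trans ?_ (sum_le_sum h1)
    rw [← sum_mul]
    have h2 : 1 / 2 ^ h' * (cT / N * (1 / 2 ^ (h' + 1))) ≤
        (∑ x ∈ Icc (1 : ℤ) N, g x) * (cT / N * ∑ y ∈ Icc (1 : ℤ) N, q y) := by
      apply mul_le_mul hsg _ (by positivity) (sum_nonneg fun x _ => hg0 x)
      exact mul_le_mul_of_nonneg_left hsq (by positivity)
    refine le_trans (le_of_eq ?_) h2
    ring
  -- the error
  have herr : -(2 ^ 30 * 1100 * η / N) ≤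
      ∑ x ∈ Icc (1 : ℤ) N, g x * ((opT N U c)^[30] q x - (opB N nb)^[30] q x) := by
    have h1 := op4_cs N g (fun x => (opT N U c)^[30] q x - (opB N nb)^[30] q x)
    have h2 := op4_diff hN4 hη0 hη1 hD hU hqS 30
    have h3 : nrm N g * nrm N q ≤ 1100 / N := by
      nlinarith [sq_nonneg (nrm N g - nrm N q)]
    have h4 : nrm N g * nrm N (fun x => (opT N U c)^[30] q x - (opB N nb)^[30] q x) ≤
        2 ^ 30 * 1100 * η / N := by
      calc nrm N g * nrm N (fun x => (opT N U c)^[30] q x - (opB N nb)^[30] q x)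
          ≤ nrm N g * ((2 ^ 30 - 1) * (η * nrm N q)) :=
            mul_le_mul_of_nonneg_left h2 (op4_nrm_nonneg _ _)
        _ = (2 ^ 30 - 1) * η * (nrm N g * nrm N q) := by ring
        _ ≤ (2 ^ 30 - 1) * η * (1100 / N) :=
            mul_le_mul_of_nonneg_left h3 (mul_nonneg (by norm_num) hη0)
        _ ≤ 2 ^ 30 * η * (1100 / N) := by
            apply mul_le_mul_of_nonneg_right _ (by positivity)
            apply mul_le_mul_of_nonneg_right _ hη0
            norm_num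
        _ = 2 ^ 30 * 1100 * η / N := by ring
    linarith
  have htot : ∑ x ∈ Icc (1 : ℤ) N, g x * (opT N U c)^[30] q x =
      (nw N U c (h' + (30 + p)) a b : ℝ) / (2 * U.card) ^ (h' + (30 + p)) := by
    rw [nw_add N U c h' (30 + p) ha b]
    push_cast
    rw [sum_div]
    apply sum_congr rfl
    intro x hx
    rw [mem_Icc] at hx
    rw [hq, op4_iter_eq hU c 30 p hx hb, hg, nw_symm N U c h' ha hx]
    simp only []
    rw [div_mul_div_comm, ← pow_add]
  have hsplit : ∑ x ∈ Icc (1 : ℤ) N, g x * (opT N U c)^[30] q x =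
      ∑ x ∈ Icc (1 : ℤ) N, g x * (opB N nb)^[30] q x +
      ∑ x ∈ Icc (1 : ℤ) N, g x * ((opT N U c)^[30] q x - (opB N nb)^[30] q x) := by
    rw [← sum_add_distrib]
    apply sum_congr rfl
    intro x _
    ring
  rw [← le_div_iff₀ (by positivity), ← htot, hsplit]
  have e1 : cT / N * (1 / 2 ^ h' * (1 / 2 ^ (h' + 1))) = 2 * (cT / (4 * 4 ^ h') / N) := by
    have e2 : (4 : ℝ) ^ h' = 2 ^ h' * 2 ^ h' := by
      rw [← mul_pow]; norm_num
    rw [e2, pow_succ]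
    field_simp
    ring
  have e3 : 2 ^ 30 * 1100 * η / N ≤ cT / (4 * 4 ^ h') / N :=
    div_le_div_of_nonneg_right hη3 hNpos.le
  rw [e1] at hmain
  linarith

end SSB
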