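import Pool.Agent.Lib.MP_8a819d_co.LH.Cln
import Pool.Agent.Lib.MP_8a819d_co.LH.Op4

/-!
# Many clean walks

JOB Cl2 (all of this file).

PROOF. `h, N₁` from `walk_upper c₂`, `H = 2 h`. `k, c, N₂` from `walk_lower c₂ (3 H + 2)`. `κ₀ = min (1/1000) (c/(4 * 1100 * 3 * (k+1) * 4))`, `c₁ = c/2`. `clean_count` with `κ = κ₀`, `η = N^(-c₂)`, `B = 1100/N`, `h = H`
(`1 ≤ η |U|`: the label of an element of `U` has multiplicity at least `1`): the number of walks which are not clean is at most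
`3 r (3 κ₀ + 8 r η) (1100/N) (2|U|)^r ≤ (c/2)/N (2|U|)^r` for large `N`.
-/

set_option autoImplicit false

namespace SSB

open Finset

open Classical in
theorem clean_lower (c₂ : ℝ) (hc₂ : 0 < c₂) : ∃ (h k : ℕ) (c₁ κ₀ : ℝ) (N₀ : ℕ), 1 ≤ h ∧ 3 * h + 2 ≤ k ∧ 0 < c₁ ∧ 0 < κ₀ ∧ κ₀ ≤ 1 / 1000 ∧
    ∀ N : ℕ, N₀ ≤ N → ∀ (ι : Type) [DecidableEq ι] (U : Finset ι) (c : ι → ℕ),
      QRU N U c ((N : ℝ) ^ (-c₂)) κ₀ → U.Nonempty →
      (∀ s, h ≤ s → ∀ x y : ℤ, (1 ≤ x ∧ x ≤ N) → (1 ≤ y ∧ y ≤ N) → (nw N U c s x y : ℝ) ≤ 1100 / N * (2 * U.card) ^ s) ∧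
      ∀ (a b : ℤ) (F : Finset ℤ) (Ub : Finset ι), (1 ≤ a ∧ a ≤ N) → (1 ≤ b ∧ b ≤ N) → (a - b) % 2 = 0 →
        (∀ x : ℤ, (1 ≤ x ∧ x ≤ N) → (x ∉ F ∨ x = a ∨ x = b) → Rgl U c κ₀ F x) → (Ub.card : ℝ) ≤ κ₀ * U.card →
        ∃ r : ℕ, (r = k ∨ r = k + 1) ∧
          c₁ / N * (2 * U.card) ^ r ≤ (((wks N U c r a b).filter (Clean c F Ub a)).card : ℝ) := by
  obtain ⟨h', N₁, hh', hup⟩ := walk_upper c₂ hc₂
  obtain ⟨k, c', N₂, hk, hc', hlow⟩ := walk_lower c₂ hc₂ (3 * (2 * h') + 2)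
  have hk0 : (0 : ℝ) < (k : ℝ) + 1 := by positivity
  obtain ⟨δ, hδ⟩ : ∃ δ : ℝ, δ = c' / (105600 * ((k : ℝ) + 1) ^ 2) := ⟨_, rfl⟩
  have hδ0 : 0 < δ := by
    rw [hδ]
    positivity
  obtain ⟨N₃, hN₃⟩ : ∃ N₃ : ℕ, ∀ N : ℕ, N₃ ≤ N → (N : ℝ) ^ (-c₂) < δ := by
    have ht : Filter.Tendsto (fun N : ℕ => (N : ℝ) ^ (-c₂)) Filter.atTop (nhds 0) :=
      (tendsto_rpow_neg_atTop hc₂).comp tendsto_natCast_atTop_atTop
    exact Filter.eventually_atTop.1 (ht.eventually (Iio_mem_nhds hδ0))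
  obtain ⟨κ₀, hκ₀⟩ : ∃ κ₀ : ℝ, κ₀ = min (1 / 1000) (c' / (39600 * ((k : ℝ) + 1))) := ⟨_, rfl⟩
  have hκ1 : κ₀ ≤ 1 / 1000 := by
    rw [hκ₀]
    exact min_le_left _ _
  have hκ2 : κ₀ ≤ c' / (39600 * ((k : ℝ) + 1)) := by
    rw [hκ₀]
    exact min_le_right _ _
  have hκ0 : 0 < κ₀ := by
    rw [hκ₀]
    exact lt_min (by norm_num) (by positivity)
  refine ⟨2 * h', k, c' / 2, κ₀, max N₁ (max N₂ (max N₃ 1)), by omega, hk, by positivity, hκ0, hκ1, ?_⟩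
  intro N hN ι _ U c hQ hUn
  have hNN₁ : N₁ ≤ N := (le_max_left _ _).trans hN
  have hNN₂ : N₂ ≤ N := ((le_max_left _ _).trans (le_max_right _ _)).trans hN
  have hNN₃ : N₃ ≤ N :=
    (((le_max_left _ _).trans (le_max_right _ _)).trans (le_max_right _ _)).trans hN
  have hNN1 : 1 ≤ N :=
    (((le_max_right _ _).trans (le_max_right _ _)).trans (le_max_right _ _)).trans hN
  have hNpos : (0 : ℝ) < N := by exact_mod_cast hNN1
  have hup' : ∀ s, 2 * h' ≤ s → ∀ x y : ℤ, (1 ≤ x ∧ x ≤ N) → (1 ≤ y ∧ y ≤ N) →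
      (nw N U c s x y : ℝ) ≤ 1100 / N * (2 * U.card) ^ s :=
    fun s hs x y hx hy => hup N hNN₁ ι U c κ₀ hQ hUn s hs x y hx hy
  refine ⟨hup', ?_⟩
  intro a b F Ub ha hb hab hreg hUb
  obtain ⟨r, hr, hrl⟩ := hlow N hNN₂ ι U c κ₀ hκ1 hQ hUn a b ha hb hab
  refine ⟨r, hr, ?_⟩
  obtain ⟨η, hη⟩ : ∃ η : ℝ, η = (N : ℝ) ^ (-c₂) := ⟨_, rfl⟩
  have hη0 : 0 ≤ η := by
    rw [hη]
    positivity
  have hη1 : η ≤ δ := by
    rw [hη]
    exact (hN₃ N hNN₃).le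
  have hη1U : 1 ≤ η * U.card := by
    obtain ⟨e, he⟩ := hUn
    have h1 := hQ.mult (c e)
    rw [← hη] at h1
    have h2 : 1 ≤ (U.filter (fun e' => c e' = c e)).card :=
      Finset.card_pos.2 ⟨e, Finset.mem_filter.2 ⟨he, rfl⟩⟩
    have h3 : (1 : ℝ) ≤ ((U.filter (fun e' => c e' = c e)).card : ℝ) := by exact_mod_cast h2
    exact h3.trans h1
  have hr1 : 3 * (2 * h') + 2 ≤ r := by omega
  have hcl := clean_count (N := N) (U := U) (c := c) (κ := κ₀) (η := η) (B := 1100 / N) (h := 2 * h')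
    (r := r) (a := a) (b := b) (F := F) (Ub := Ub) hκ0.le hη0 (by positivity) hQ.odd (by omega) hr1
    (by rw [hη]; exact hQ.mult) hη1U hup' ha hb hreg hUb
  have hrk : (r : ℝ) ≤ (k : ℝ) + 1 := by
    have h1 : r ≤ k + 1 := by omega
    exact_mod_cast h1
  have hr0 : (0 : ℝ) ≤ r := Nat.cast_nonneg r
  have hP : (0 : ℝ) ≤ (2 * U.card) ^ r := by positivity
  have hk1 : κ₀ * (39600 * ((k : ℝ) + 1)) ≤ c' := by
    rw [le_div_iff₀ (by positivity)] at hκ2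
    exact hκ2
  have hk2 : η * (105600 * ((k : ℝ) + 1) ^ 2) ≤ c' := by
    rw [hδ, le_div_iff₀ (by positivity)] at hη1
    exact hη1
  have hmain : 3 * (r : ℝ) * (3 * κ₀ + 8 * r * η) * 1100 ≤ c' / 2 := by
    have h1 : (r : ℝ) * κ₀ ≤ ((k : ℝ) + 1) * κ₀ := mul_le_mul_of_nonneg_right hrk hκ0.le
    have h2 : (r : ℝ) ^ 2 * η ≤ ((k : ℝ) + 1) ^ 2 * η :=
      mul_le_mul_of_nonneg_right (pow_le_pow_left₀ hr0 hrk 2) hη0
    have h3 : 3 * (r : ℝ) * (3 * κ₀ + 8 * r * η) * 1100 = 9900 * (r * κ₀) + 26400 * (r ^ 2 * η) := by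
      ring
    rw [h3]
    linarith
  have hbad : (((wks N U c r a b).filter (fun l => ¬ Clean c F Ub a l)).card : ℝ) ≤
      c' / 2 / N * (2 * U.card) ^ r := by
    refine hcl.trans ?_
    refine mul_le_mul_of_nonneg_right ?_ hP
    rw [← mul_div_assoc]
    exact div_le_div_of_nonneg_right hmain hNpos.le
  have htot : (((wks N U c r a b).filter (fun l => Clean c F Ub a l)).card : ℝ) +
      (((wks N U c r a b).filter (fun l => ¬ Clean c F Ub a l)).card : ℝ) = (nw N U c r a b : ℝ) := by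
    unfold nw
    exact_mod_cast Finset.card_filter_add_card_filter_not (s := wks N U c r a b)
      (fun l => Clean c F Ub a l)
  have hsplit : c' / N * (2 * (U.card : ℝ)) ^ r =
      c' / 2 / N * (2 * U.card) ^ r + c' / 2 / N * (2 * U.card) ^ r := by
    ring
  rw [hsplit] at hrl
  linarith

end SSB
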