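import Pool.Agent.Lib.MP_8a819d_co.LH.Cl0

/-!
# Most walks are clean

JOB Cln (all of this file).

PROOF of `clean_count`. Let `n = 2 |U|` be the number of steps, `θ = 3 κ + 8 r η`. For a list `p` of steps (first part, starting at `a`) and a list `q` (suffix, ending at `b`) all positions and labels are
determined. Label set of a first part: the middles and the ends of all its steps. Label set of a suffix: the middles and the starts of all its steps.
For a first part `p` with end `x` and a suffix `q` let `bad p q` be the set of steps `t` such that (`t.1 ∈ Ub`, or `t.1` is a unit of `p` or of `q`, or `md x t` or `mv x t` is in `F` or in the label set of `p` or of `q`) if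
no label of `p` is in `F`, and `∅` otherwise. If `p` has no label in `F` then `x = a` or `x ∉ F`, so `hreg` applies to `x`: `|bad p q| ≤ 2κ|U| + 2κ|U| + 2κ|U| + 2r + 8 r η |U| ≤ θ n` (for a given label `y` there are at most
`2 η |U|` steps with `md x t = y`, and the same for `mv`; the two lists have at most `r` units and `2r` labels; `2 r ≤ 2 r η |U|`).
Let `bad' q` (with start `y` of `q`; the step `t` ends at `y`, its start is `y - 2 sgnU c`, its middle `y - sgnU c`) be defined in the same way from the other side: unit in `Ub` or a unit of `q`, the middle or the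
start in `F` or in the label set of `q`; `∅` if a label of `q` is in `F`.
(In the formal definition of `bad p q` put also into the condition that all positions of `p` are in `[1, N]`, its units in `U`, and `p.length + q.length ≤ r`; for `bad' q` that the start of `q` is in `[1, N]` and `q.length ≤ r`; otherwise `∅`. So
the bounds hold for all lists.)
COUNTING with `cnt_left`, `cnt_right` (`β = θ n`). Let `l ∈ wks r a b`, `l_i` its step number `i` (`0 ≤ i < r`).
(G1) the `l` with `l_i ∈ bad (take i l) []` for a given `i ≤ r - 1 - h`: `cnt_left` with `j = 0`, `s = r - 1 - i ≥ h`: at most `θ B n^r`.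
(G2) the `l` with `l_i ∈ bad (take i l) (drop (r - h) l)` for a given `i < h`: `cnt_left` with `j = h`, `s = r - h - 1 - i ≥ h`: at most `θ B n^r`.
(G3) the `l` with `l_i ∈ bad' (drop (i+1) l)` for a given `i ≥ h`: `cnt_right`: at most `θ B n^r`.
The number of `l` with at least one of these properties is at most `3 r θ B n^r`.
If `l` has none of them then it is clean. Units in `Ub`: step `i < r - h`: (G1), otherwise `i ≥ h`: (G3). Labels in `F`: consider all the interior labels (the middles of the steps `0..r-1`, the positions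
`x_1, ..., x_{r-1}`). If some label belonging to a step `i ≤ r - 1 - h` (its middle, or its end `x_{i+1}`, `i + 1 ≤ r - 1`) is in `F`, take the first one: the first part before step `i` has no label in `F`, so (G1) is violated.
Otherwise a label in `F` is the middle or the start `x_i` of a step `i ≥ h`; take the last one: the suffix after step `i` has no label in `F` (its start `x_{i+1}` included, or `i + 1 = r`), so (G3) is violated
(`hreg` for `x_{i+1} ∉ F` or `= b`). Now no interior label is in `F`, all the `bad` sets are given by the first case. Equal units at steps `i < i'`: if `i' ≤ r - 1 - h`: (G1) for `i'`; if `i ≥ h`: (G3) for `i`; if `i < h` and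
`i' ≥ r - h`: (G2) for `i`. Equal labels: middles and positions have different parity (`c` odd), so two middles of steps `i < i'` (treat as before) or `x_j = x_{j'}`, `1 ≤ j < j' ≤ r - 1`: `x_j` is the end of step `j - 1` and
the start of step `j`: if `j' - 1 ≤ r - 1 - h`: (G1) for the step `j' - 1`; if `j ≥ h`: (G3) for the step `j`; otherwise `j - 1 < h`, `j' ≥ r - h`: (G2) for the step `j - 1` (`x_{j'}` is the start of the step `j'` of the suffix).
-/

set_option autoImplicit false
set_option linter.unusedSectionVars false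

namespace SSB

open Finset

variable {ι : Type} [DecidableEq ι]

/-! ### displacements and label lists -/

theorem cln_dsp_nil (c : ι → ℕ) : dsp c [] = 0 := rfl

theorem cln_dsp_cons (c : ι → ℕ) (t : ι × Bool) (l : List (ι × Bool)) :
    dsp c (t :: l) = 2 * sgnU t.2 * c t.1 + dsp c l := by
  simp [dsp]

theorem cln_dsp_append (c : ι → ℕ) (p q : List (ι × Bool)) : dsp c (p ++ q) = dsp c p + dsp c q := by
  simp [dsp]

/-- the labels of a first part: middles and ends -/
def clnP (c : ι → ℕ) : ℤ → List (ι × Bool) → List ℤ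
  | _, [] => []
  | x, t :: l => md c x t :: mv c x t :: clnP c (mv c x t) l

/-- the labels of a suffix: starts and middles -/
def clnS (c : ι → ℕ) : ℤ → List (ι × Bool) → List ℤ
  | _, [] => []
  | x, t :: l => x :: md c x t :: clnS c (mv c x t) l

theorem clnP_append (c : ι → ℕ) (x : ℤ) (p q : List (ι × Bool)) :
    clnP c x (p ++ q) = clnP c x p ++ clnP c (x + dsp c p) q := by
  induction p generalizing x with
  | nil => simp [clnP, cln_dsp_nil]
  | cons t p ih =>
    rw [List.cons_append, clnP, clnP, ih, cln_dsp_cons]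
    have h : mv c x t + dsp c p = x + (2 * sgnU t.2 * c t.1 + dsp c p) := by unfold mv; ring
    rw [h, List.cons_append, List.cons_append]

theorem clnS_append (c : ι → ℕ) (x : ℤ) (p q : List (ι × Bool)) :
    clnS c x (p ++ q) = clnS c x p ++ clnS c (x + dsp c p) q := by
  induction p generalizing x with
  | nil => simp [clnS, cln_dsp_nil]
  | cons t p ih =>
    rw [List.cons_append, clnS, clnS, ih, cln_dsp_cons]
    have h : mv c x t + dsp c p = x + (2 * sgnU t.2 * c t.1 + dsp c p) := by unfold mv; ring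
    rw [h, List.cons_append, List.cons_append]

theorem clnP_S (c : ι → ℕ) (x : ℤ) (q : List (ι × Bool)) :
    x :: clnP c x q = clnS c x q ++ [x + dsp c q] := by
  induction q generalizing x with
  | nil => simp [clnP, clnS, cln_dsp_nil]
  | cons t q ih =>
    rw [clnP, clnS, ih, cln_dsp_cons]
    have h : mv c x t + dsp c q = x + (2 * sgnU t.2 * c t.1 + dsp c q) := by unfold mv; ring
    rw [h, List.cons_append, List.cons_append]

theorem cln_wlab_cons (c : ι → ℕ) (x : ℤ) (t : ι × Bool) (q : List (ι × Bool)) :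
    wlab c x (t :: q) = md c x t :: clnS c (mv c x t) q := by
  induction q generalizing x t with
  | nil => simp [wlab, clnS]
  | cons t' q ih =>
    rw [wlab, if_neg (List.cons_ne_nil _ _), ih, clnS]

theorem cln_wlab_append (c : ι → ℕ) (x : ℤ) (p : List (ι × Bool)) (t : ι × Bool) (q : List (ι × Bool)) :
    wlab c x (p ++ t :: q) = clnP c x p ++ md c (x + dsp c p) t :: clnS c (mv c (x + dsp c p) t) q := by
  induction p generalizing x with
  | nil => rw [List.nil_append, cln_wlab_cons, cln_dsp_nil, clnP, List.nil_append, add_zero]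
  | cons t' p ih =>
    have h0 : p ++ t :: q ≠ [] := by simp
    rw [List.cons_append, wlab, if_neg h0, ih, clnP, cln_dsp_cons]
    have h : mv c x t' + dsp c p = x + (2 * sgnU t'.2 * c t'.1 + dsp c p) := by unfold mv; ring
    rw [h, List.cons_append, List.cons_append]

theorem clnP_length (c : ι → ℕ) (x : ℤ) (p : List (ι × Bool)) : (clnP c x p).length = 2 * p.length := by
  induction p generalizing x with
  | nil => rfl
  | cons t p ih => rw [clnP, List.length_cons, List.length_cons, ih, List.length_cons]; ring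

theorem clnS_length (c : ι → ℕ) (x : ℤ) (p : List (ι × Bool)) : (clnS c x p).length = 2 * p.length := by
  induction p generalizing x with
  | nil => rfl
  | cons t p ih => rw [clnS, List.length_cons, List.length_cons, ih, List.length_cons]; ring

theorem clnP_last (c : ι → ℕ) (x : ℤ) (p : List (ι × Bool)) (hp : p ≠ []) : x + dsp c p ∈ clnP c x p := by
  cases p with
  | nil => exact absurd rfl hp
  | cons t p =>
    have h := clnP_S c (mv c x t) p
    have h1 : mv c x t + dsp c p = x + dsp c (t :: p) := by rw [cln_dsp_cons]; unfold mv; ring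
    rw [clnP, h, h1]
    simp

theorem clnS_first (c : ι → ℕ) (x : ℤ) (p : List (ι × Bool)) (hp : p ≠ []) : x ∈ clnS c x p := by
  cases p with
  | nil => exact absurd rfl hp
  | cons t p => rw [clnS]; exact List.mem_cons_self

/-! ### the bad steps -/

open Classical in
/-- the bad steps from `x` (or, for `s = - 1`, to `x`) if the units in `W` and the labels in `Lb` are used -/
noncomputable def clnB (U : Finset ι) (c : ι → ℕ) (F : Finset ℤ) (Ub : Finset ι) (x s : ℤ) (W : List ι)
    (Lb : List ℤ) : Finset (ι × Bool) :=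
  (stps U).filter (fun t => (t.1 ∈ Ub ∨ t.1 ∈ W) ∨ (x + s * sgnU t.2 * c t.1 ∈ F ∨ x + 2 * (s * sgnU t.2) * c t.1 ∈ F) ∨
    (x + s * sgnU t.2 * c t.1 ∈ Lb ∨ x + 2 * (s * sgnU t.2) * c t.1 ∈ Lb))

open Classical in
theorem cln_split (U : Finset ι) (φ : ι × Bool → Prop) :
    ((stps U).filter φ).card ≤ (U.filter (fun e => φ (e, true))).card + (U.filter (fun e => φ (e, false))).card := by
  have h : (stps U).filter φ ⊆ (U.filter (fun e => φ (e, true))).image (fun e => (e, true)) ∪
      (U.filter (fun e => φ (e, false))).image (fun e => (e, false)) := by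
    rintro ⟨e, b⟩ ht
    obtain ⟨h1, h2⟩ := mem_filter.1 ht
    have h3 : e ∈ U := (mem_product.1 h1).1
    rw [mem_union]
    cases b with
    | true => exact Or.inl (mem_image.2 ⟨e, mem_filter.2 ⟨h3, h2⟩, rfl⟩)
    | false => exact Or.inr (mem_image.2 ⟨e, mem_filter.2 ⟨h3, h2⟩, rfl⟩)
  exact (card_le_card h).trans ((card_union_le _ _).trans (add_le_add card_image_le card_image_le))

open Classical in
theorem cln_half {U : Finset ι} {c : ι → ℕ} {κ η : ℝ} {F : Finset ℤ} {Ub : Finset ι} {x σ : ℤ} {W : List ι} {Lb : List ℤ} {r : ℕ}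
    (hη : 0 ≤ η) (hmult : ∀ d, ((U.filter (fun e => c e = d)).card : ℝ) ≤ η * U.card)
    (hUb : (Ub.card : ℝ) ≤ κ * U.card) (hreg : Rgl U c κ F x) (hσ : σ = 1 ∨ σ = -1) (hW : W.length ≤ r)
    (hL : Lb.length ≤ 2 * r) :
    ((U.filter (fun e => (e ∈ Ub ∨ e ∈ W) ∨ (x + σ * c e ∈ F ∨ x + 2 * σ * c e ∈ F) ∨
      (x + σ * c e ∈ Lb ∨ x + 2 * σ * c e ∈ Lb))).card : ℝ) ≤ 3 * κ * U.card + r + 4 * r * η * U.card := by
  have hu : (0 : ℝ) ≤ U.card := Nat.cast_nonneg _
  -- one value
  have hone : ∀ (m y : ℤ), m ≠ 0 → ((U.filter (fun e => x + m * c e = y)).card : ℝ) ≤ η * U.card := by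
    intro m y hm
    refine le_trans ?_ (hmult ((y - x) / m).toNat)
    have h1 : U.filter (fun e => x + m * c e = y) ⊆ U.filter (fun e => c e = ((y - x) / m).toNat) := by
      intro e he
      obtain ⟨h2, h3⟩ := mem_filter.1 he
      refine mem_filter.2 ⟨h2, ?_⟩
      have h4 : y - x = m * c e := by linarith
      rw [h4, Int.mul_ediv_cancel_left _ hm]
      simp
    exact_mod_cast card_le_card h1
  have hlab : ∀ m : ℤ, m ≠ 0 → ((U.filter (fun e => x + m * c e ∈ Lb)).card : ℝ) ≤ 2 * r * η * U.card := by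
    intro m hm
    have h1 : U.filter (fun e => x + m * c e ∈ Lb) ⊆
        Lb.toFinset.biUnion (fun y => U.filter (fun e => x + m * c e = y)) := by
      intro e he
      obtain ⟨h2, h3⟩ := mem_filter.1 he
      exact mem_biUnion.2 ⟨_, List.mem_toFinset.2 h3, mem_filter.2 ⟨h2, rfl⟩⟩
    have h2 : ((U.filter (fun e => x + m * c e ∈ Lb)).card : ℝ) ≤
        ∑ y ∈ Lb.toFinset, ((U.filter (fun e => x + m * c e = y)).card : ℝ) := by
      exact_mod_cast (card_le_card h1).trans card_biUnion_le
    have h3 : ∑ y ∈ Lb.toFinset, ((U.filter (fun e => x + m * c e = y)).card : ℝ) ≤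
        Lb.toFinset.card * (η * U.card) := by
      rw [← nsmul_eq_mul, ← sum_const]
      exact sum_le_sum fun y _ => hone m y hm
    have h4 : (Lb.toFinset.card : ℝ) ≤ 2 * r := by
      exact_mod_cast (List.toFinset_card_le Lb).trans hL
    have h5 : (Lb.toFinset.card : ℝ) * (η * U.card) ≤ 2 * r * (η * U.card) :=
      mul_le_mul_of_nonneg_right h4 (mul_nonneg hη hu)
    linarith
  have hF : ∀ m : ℤ, (m = 1 ∨ m = -1 ∨ m = 2 ∨ m = -2) →
      ((U.filter (fun e => x + m * c e ∈ F)).card : ℝ) ≤ κ * U.card := fun m hm => hreg m hm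
  have hb1 : ((U.filter (fun e => e ∈ Ub)).card : ℝ) ≤ κ * U.card := by
    refine le_trans ?_ hUb
    exact_mod_cast card_le_card fun e he => (mem_filter.1 he).2
  have hb2 : ((U.filter (fun e => e ∈ W)).card : ℝ) ≤ r := by
    have h1 : (U.filter (fun e => e ∈ W)).card ≤ r :=
      (card_le_card (fun e he => List.mem_toFinset.2 (mem_filter.1 he).2)).trans ((List.toFinset_card_le W).trans hW)
    exact_mod_cast h1
  have hσ0 : σ ≠ 0 := by rcases hσ with h | h <;> rw [h] <;> norm_num
  have h2σ : 2 * σ ≠ 0 := by rcases hσ with h | h <;> rw [h] <;> norm_num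
  have hc3 := hF σ (by rcases hσ with h | h <;> simp [h])
  have hc4 := hF (2 * σ) (by rcases hσ with h | h <;> simp [h])
  have hd3 := hlab σ hσ0
  have hd4 := hlab (2 * σ) h2σ
  have hsub : (U.filter (fun e => (e ∈ Ub ∨ e ∈ W) ∨ (x + σ * c e ∈ F ∨ x + 2 * σ * c e ∈ F) ∨
      (x + σ * c e ∈ Lb ∨ x + 2 * σ * c e ∈ Lb))) =
      ((U.filter (fun e => e ∈ Ub)) ∪ (U.filter (fun e => e ∈ W))) ∪
      (((U.filter (fun e => x + σ * c e ∈ F)) ∪ (U.filter (fun e => x + 2 * σ * c e ∈ F))) ∪
      ((U.filter (fun e => x + σ * c e ∈ Lb)) ∪ (U.filter (fun e => x + 2 * σ * c e ∈ Lb)))) := by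
    rw [filter_or, filter_or, filter_or, filter_or, filter_or]
  rw [hsub]
  have hcard : ((((U.filter (fun e => e ∈ Ub)) ∪ (U.filter (fun e => e ∈ W))) ∪
      (((U.filter (fun e => x + σ * c e ∈ F)) ∪ (U.filter (fun e => x + 2 * σ * c e ∈ F))) ∪
      ((U.filter (fun e => x + σ * c e ∈ Lb)) ∪ (U.filter (fun e => x + 2 * σ * c e ∈ Lb))))).card : ℝ) ≤
      (((U.filter (fun e => e ∈ Ub)).card : ℝ) + (U.filter (fun e => e ∈ W)).card) +
      ((((U.filter (fun e => x + σ * c e ∈ F)).card : ℝ) + (U.filter (fun e => x + 2 * σ * c e ∈ F)).card) +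
      (((U.filter (fun e => x + σ * c e ∈ Lb)).card : ℝ) + (U.filter (fun e => x + 2 * σ * c e ∈ Lb)).card)) := by
    have e1 : ∀ A B : Finset ι, ((A ∪ B).card : ℝ) ≤ (A.card : ℝ) + B.card := fun A B => by
      exact_mod_cast card_union_le A B
    refine (e1 _ _).trans (add_le_add (e1 _ _) ((e1 _ _).trans (add_le_add (e1 _ _) (e1 _ _))))
  linarith

theorem clnB_card {U : Finset ι} {c : ι → ℕ} {κ η : ℝ} {F : Finset ℤ} {Ub : Finset ι} {x s : ℤ} {W : List ι} {Lb : List ℤ} {r : ℕ}
    (hη : 0 ≤ η) (hmult : ∀ d, ((U.filter (fun e => c e = d)).card : ℝ) ≤ η * U.card) (hU : 1 ≤ η * U.card)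
    (hUb : (Ub.card : ℝ) ≤ κ * U.card) (hreg : Rgl U c κ F x) (hs : s = 1 ∨ s = -1) (hW : W.length ≤ r)
    (hL : Lb.length ≤ 2 * r) :
    ((clnB U c F Ub x s W Lb).card : ℝ) ≤ (3 * κ + 8 * r * η) * (2 * U.card) := by
  classical
  have hu : (0 : ℝ) ≤ U.card := Nat.cast_nonneg _
  have h1 := cln_split U (fun t => (t.1 ∈ Ub ∨ t.1 ∈ W) ∨ (x + s * sgnU t.2 * c t.1 ∈ F ∨ x + 2 * (s * sgnU t.2) * c t.1 ∈ F) ∨
    (x + s * sgnU t.2 * c t.1 ∈ Lb ∨ x + 2 * (s * sgnU t.2) * c t.1 ∈ Lb))
  have h2 := cln_half (x := x) (σ := s * sgnU true) (W := W) (Lb := Lb) (r := r) hη hmult hUb hreg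
    (by rcases hs with h | h <;> simp [h, sgnU]) hW hL
  have h3 := cln_half (x := x) (σ := s * sgnU false) (W := W) (Lb := Lb) (r := r) hη hmult hUb hreg
    (by rcases hs with h | h <;> simp [h, sgnU]) hW hL
  have h4 : ((clnB U c F Ub x s W Lb).card : ℝ) ≤
      ((U.filter (fun e => (e ∈ Ub ∨ e ∈ W) ∨ (x + s * sgnU true * c e ∈ F ∨ x + 2 * (s * sgnU true) * c e ∈ F) ∨
      (x + s * sgnU true * c e ∈ Lb ∨ x + 2 * (s * sgnU true) * c e ∈ Lb))).card : ℝ) +
      ((U.filter (fun e => (e ∈ Ub ∨ e ∈ W) ∨ (x + s * sgnU false * c e ∈ F ∨ x + 2 * (s * sgnU false) * c e ∈ F) ∨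
      (x + s * sgnU false * c e ∈ Lb ∨ x + 2 * (s * sgnU false) * c e ∈ Lb))).card : ℝ) := by
    unfold clnB
    exact_mod_cast h1
  have h5 : (r : ℝ) ≤ r * (η * U.card) := le_mul_of_one_le_right (Nat.cast_nonneg _) hU
  have h6 : 0 ≤ (r : ℝ) * (η * U.card) := mul_nonneg (Nat.cast_nonneg _) (mul_nonneg hη hu)
  nlinarith

theorem clnB_not {U : Finset ι} {c : ι → ℕ} {F : Finset ℤ} {Ub : Finset ι} {x s : ℤ} {W : List ι} {Lb : List ℤ} {t : ι × Bool}
    (ht : t.1 ∈ U) (h : t ∉ clnB U c F Ub x s W Lb) :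
    t.1 ∉ Ub ∧ t.1 ∉ W ∧ x + s * sgnU t.2 * c t.1 ∉ F ∧ x + 2 * (s * sgnU t.2) * c t.1 ∉ F ∧
      x + s * sgnU t.2 * c t.1 ∉ Lb ∧ x + 2 * (s * sgnU t.2) * c t.1 ∉ Lb := by
  classical
  have h1 : t ∈ stps U := mem_product.2 ⟨ht, mem_univ _⟩
  unfold clnB at h
  rw [mem_filter] at h
  have h2 : ¬ ((t.1 ∈ Ub ∨ t.1 ∈ W) ∨ (x + s * sgnU t.2 * c t.1 ∈ F ∨ x + 2 * (s * sgnU t.2) * c t.1 ∈ F) ∨
    (x + s * sgnU t.2 * c t.1 ∈ Lb ∨ x + 2 * (s * sgnU t.2) * c t.1 ∈ Lb)) := fun h3 => h ⟨h1, h3⟩
  tauto

open Classical in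
/-- the bad steps after the first part `p` if the suffix `q` is given -/
noncomputable def clnBP (N : ℕ) (U : Finset ι) (c : ι → ℕ) (F : Finset ℤ) (Ub : Finset ι) (r : ℕ) (a b : ℤ)
    (p q : List (ι × Bool)) : Finset (ι × Bool) :=
  if (1 ≤ a + dsp c p ∧ a + dsp c p ≤ N) ∧ (∀ y ∈ clnP c a p, y ∉ F) ∧ p.length + q.length ≤ r then
    clnB U c F Ub (a + dsp c p) 1 (p.map Prod.fst ++ q.map Prod.fst) (clnP c a p ++ clnS c (b - dsp c q) q)
  else ∅

open Classical in
/-- the bad steps before the suffix `q` -/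
noncomputable def clnBS (N : ℕ) (U : Finset ι) (c : ι → ℕ) (F : Finset ℤ) (Ub : Finset ι) (r : ℕ) (b : ℤ)
    (q : List (ι × Bool)) : Finset (ι × Bool) :=
  if (1 ≤ b - dsp c q ∧ b - dsp c q ≤ N) ∧ (∀ y ∈ clnS c (b - dsp c q) q, y ∉ F) ∧ q.length ≤ r then
    clnB U c F Ub (b - dsp c q) (-1) (q.map Prod.fst) (clnS c (b - dsp c q) q)
  else ∅

theorem clnBP_card {N : ℕ} {U : Finset ι} {c : ι → ℕ} {κ η : ℝ} {r : ℕ} {a b : ℤ} {F : Finset ℤ} {Ub : Finset ι}
    (hκ : 0 ≤ κ) (hη : 0 ≤ η) (hmult : ∀ d, ((U.filter (fun e => c e = d)).card : ℝ) ≤ η * U.card) (hU : 1 ≤ η * U.card)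
    (hreg : ∀ x : ℤ, (1 ≤ x ∧ x ≤ N) → (x ∉ F ∨ x = a ∨ x = b) → Rgl U c κ F x)
    (hUb : (Ub.card : ℝ) ≤ κ * U.card) (p q : List (ι × Bool)) :
    ((clnBP N U c F Ub r a b p q).card : ℝ) ≤ (3 * κ + 8 * r * η) * (2 * U.card) := by
  classical
  unfold clnBP
  split_ifs with h
  · obtain ⟨h1, h2, h3⟩ := h
    refine clnB_card hη hmult hU hUb (hreg _ h1 ?_) (Or.inl rfl) ?_ ?_
    · by_cases hp : p = []
      · right; left
        rw [hp, cln_dsp_nil, add_zero]
      · exact Or.inl (h2 _ (clnP_last c a p hp))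
    · rw [List.length_append, List.length_map, List.length_map]
      exact h3
    · rw [List.length_append, clnP_length, clnS_length]
      omega
  · rw [card_empty, Nat.cast_zero]
    positivity

theorem clnBS_card {N : ℕ} {U : Finset ι} {c : ι → ℕ} {κ η : ℝ} {r : ℕ} {a b : ℤ} {F : Finset ℤ} {Ub : Finset ι}
    (hκ : 0 ≤ κ) (hη : 0 ≤ η) (hmult : ∀ d, ((U.filter (fun e => c e = d)).card : ℝ) ≤ η * U.card) (hU : 1 ≤ η * U.card)
    (hreg : ∀ x : ℤ, (1 ≤ x ∧ x ≤ N) → (x ∉ F ∨ x = a ∨ x = b) → Rgl U c κ F x)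
    (hUb : (Ub.card : ℝ) ≤ κ * U.card) (q : List (ι × Bool)) :
    ((clnBS N U c F Ub r b q).card : ℝ) ≤ (3 * κ + 8 * r * η) * (2 * U.card) := by
  classical
  unfold clnBS
  split_ifs with h
  · obtain ⟨h1, h2, h3⟩ := h
    refine clnB_card hη hmult hU hUb (hreg _ h1 ?_) (Or.inr rfl) ?_ ?_
    · by_cases hp : q = []
      · right; right
        rw [hp, cln_dsp_nil, sub_zero]
      · exact Or.inl (h2 _ (clnS_first c _ q hp))
    · rw [List.length_map]
      exact h3
    · rw [clnS_length]
      omega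
  · rw [card_empty, Nat.cast_zero]
    positivity

/-! ### a walk without bad steps is clean -/

section det

variable {N : ℕ} {U : Finset ι} {c : ι → ℕ} {h r : ℕ} {a b : ℤ} {F : Finset ℤ} {Ub : Finset ι} {l : List (ι × Bool)}

/-- the walk has no bad steps -/
structure ClnH (N : ℕ) (U : Finset ι) (c : ι → ℕ) (h r : ℕ) (a b : ℤ) (F : Finset ℤ) (Ub : Finset ι)
    (l : List (ι × Bool)) : Prop where
  len : l.length = r
  mem : ∀ t ∈ l, t.1 ∈ U
  fin : b = a + dsp c l
  pos : ∀ p q, l = p ++ q → 1 ≤ a + dsp c p ∧ a + dsp c p ≤ N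
  odd : ∀ e ∈ U, c e % 2 = 1
  G1 : ∀ p t m, l = p ++ t :: m → p.length + 1 + h ≤ r → t ∉ clnBP N U c F Ub r a b p []
  G2 : ∀ p t m q, l = p ++ t :: (m ++ q) → p.length < h → q.length = h → t ∉ clnBP N U c F Ub r a b p q
  G3 : ∀ m t q, l = m ++ t :: q → h ≤ m.length → t ∉ clnBS N U c F Ub r b q

theorem ClnH.frst (H : ClnH N U c h r a b F Ub l) (p q : List (ι × Bool)) (hl : l = p ++ q) (hp : p.length + h ≤ r) :
    (∀ y ∈ clnP c a p, y ∉ F) ∧ (clnP c a p).Nodup ∧ (p.map Prod.fst).Nodup ∧ ∀ t ∈ p, t.1 ∉ Ub := by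
  induction p using List.reverseRecOn generalizing q with
  | nil => simp [clnP]
  | append_singleton p t ih =>
    rw [List.append_assoc, List.singleton_append] at hl
    rw [List.length_append, List.length_singleton] at hp
    obtain ⟨h1, h2, h3, h4⟩ := ih (t :: q) hl (by omega)
    have htl : t ∈ l := by rw [hl]; simp
    have htU := H.mem t htl
    have h5 := H.G1 p t q hl (by omega)
    have h6 := H.pos p (t :: q) hl
    unfold clnBP at h5
    rw [if_pos ⟨h6, h1, by simp; omega⟩] at h5
    obtain ⟨g1, g2, g3, g4, g5, g6⟩ := clnB_not htU h5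
    have e1 : a + dsp c p + 1 * sgnU t.2 * c t.1 = md c (a + dsp c p) t := by unfold md; ring
    have e2 : a + dsp c p + 2 * (1 * sgnU t.2) * c t.1 = mv c (a + dsp c p) t := by unfold mv; ring
    rw [e1] at g3 g5
    rw [e2] at g4 g6
    have hne : md c (a + dsp c p) t ≠ mv c (a + dsp c p) t := by
      have hc := H.odd _ htU
      unfold md mv
      rcases t with ⟨e, _ | _⟩ <;> simp only [sgnU] at * <;> simp <;> omega
    have e3 : clnP c a (p ++ [t]) = clnP c a p ++ [md c (a + dsp c p) t, mv c (a + dsp c p) t] := by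
      rw [clnP_append]; rfl
    have g5' : md c (a + dsp c p) t ∉ clnP c a p := fun hh => g5 (List.mem_append_left _ hh)
    have g6' : mv c (a + dsp c p) t ∉ clnP c a p := fun hh => g6 (List.mem_append_left _ hh)
    have g2' : t.1 ∉ p.map Prod.fst := fun hh => g2 (List.mem_append_left _ hh)
    refine ⟨?_, ?_, ?_, ?_⟩
    · intro y hy
      rw [e3, List.mem_append] at hy
      rcases hy with hy | hy
      · exact h1 y hy
      · rw [List.mem_cons, List.mem_singleton] at hy
        rcases hy with rfl | rfl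
        · exact g3
        · exact g4
    · rw [e3, List.nodup_append]
      refine ⟨h2, ?_, ?_⟩
      · simp [hne]
      · intro y hy y' hy'
        rw [List.mem_cons, List.mem_singleton] at hy'
        rintro rfl
        rcases hy' with rfl | rfl
        · exact g5' hy
        · exact g6' hy
    · rw [List.map_append, List.nodup_append]
      refine ⟨h3, by simp, ?_⟩
      intro y hy y' hy'
      rw [List.map_singleton, List.mem_singleton] at hy'
      rintro rfl
      rw [hy'] at hy
      exact g2' hy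
    · intro t' ht'
      rw [List.mem_append, List.mem_singleton] at ht'
      rcases ht' with ht' | rfl
      · exact h4 t' ht'
      · exact g1

theorem ClnH.suffix (H : ClnH N U c h r a b F Ub l) (p q : List (ι × Bool)) (hl : l = p ++ q) (hq : q.length + h ≤ r) :
    (∀ y ∈ clnS c (a + dsp c p) q, y ∉ F) ∧ (clnS c (a + dsp c p) q).Nodup ∧ (q.map Prod.fst).Nodup ∧
      ∀ t ∈ q, t.1 ∉ Ub := by
  induction q generalizing p with
  | nil => simp [clnS]
  | cons t q ih =>
    rw [List.length_cons] at hq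
    have hl' : l = (p ++ [t]) ++ q := by rw [hl]; simp
    obtain ⟨h1, h2, h3, h4⟩ := ih (p ++ [t]) hl' (by omega)
    have htl : t ∈ l := by rw [hl]; simp
    have htU := H.mem t htl
    have hlen := H.len
    rw [hl, List.length_append, List.length_cons] at hlen
    have h5 := H.G3 p t q hl (by omega)
    have h6 := H.pos (p ++ [t]) q hl'
    have e0 : a + dsp c (p ++ [t]) = b - dsp c q := by
      rw [H.fin, hl', cln_dsp_append c (p ++ [t]) q]; ring
    have e0' : b - dsp c q = mv c (a + dsp c p) t := by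
      rw [← e0, cln_dsp_append, cln_dsp_cons, cln_dsp_nil]; unfold mv; ring
    rw [e0] at h6 h1 h2
    unfold clnBS at h5
    rw [if_pos ⟨h6, h1, by omega⟩] at h5
    obtain ⟨g1, g2, g3, g4, g5, g6⟩ := clnB_not htU h5
    have e1 : b - dsp c q + -1 * sgnU t.2 * c t.1 = md c (a + dsp c p) t := by rw [e0']; unfold md mv; ring
    have e2 : b - dsp c q + 2 * (-1 * sgnU t.2) * c t.1 = a + dsp c p := by rw [e0']; unfold mv; ring
    rw [e1] at g3 g5
    rw [e2] at g4 g6
    have hne : a + dsp c p ≠ md c (a + dsp c p) t := by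
      have hc := H.odd _ htU
      unfold md
      rcases t with ⟨e, _ | _⟩ <;> simp only [sgnU] at * <;> simp <;> omega
    have e3 : clnS c (a + dsp c p) (t :: q) = (a + dsp c p) :: md c (a + dsp c p) t :: clnS c (b - dsp c q) q := by
      rw [clnS, e0']
    refine ⟨?_, ?_, ?_, ?_⟩
    · intro y hy
      rw [e3, List.mem_cons, List.mem_cons] at hy
      rcases hy with rfl | rfl | hy
      · exact g4
      · exact g3
      · exact h1 y hy
    · rw [e3, List.nodup_cons, List.nodup_cons]
      refine ⟨?_, g5, h2⟩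
      rw [List.mem_cons]
      rintro (hh | hh)
      · exact hne hh
      · exact g6 hh
    · rw [List.map_cons, List.nodup_cons]
      exact ⟨g2, h3⟩
    · intro t' ht'
      rw [List.mem_cons] at ht'
      rcases ht' with rfl | ht'
      · exact g1
      · exact h4 t' ht'

theorem ClnH.cross (H : ClnH N U c h r a b F Ub l) (hr : 3 * h + 2 ≤ r) (p m q : List (ι × Bool)) (hl : l = p ++ (m ++ q))
    (hp : p.length ≤ h) (hq : q.length = h) :
    (∀ y ∈ clnP c a p, y ∉ clnS c (b - dsp c q) q) ∧ ∀ e ∈ p.map Prod.fst, e ∉ q.map Prod.fst := by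
  induction p using List.reverseRecOn generalizing m with
  | nil => simp [clnP]
  | append_singleton p t ih =>
    rw [List.append_assoc, List.singleton_append] at hl
    rw [List.length_append, List.length_singleton] at hp
    obtain ⟨h1, h2⟩ := ih (t :: m) (by rw [hl]; simp) (by omega)
    have htl : t ∈ l := by rw [hl]; simp
    have htU := H.mem t htl
    have h5 := H.G2 p t m q hl (by omega) hq
    have h6 := H.pos p (t :: (m ++ q)) hl
    have h7 := (H.frst p (t :: (m ++ q)) hl (by omega)).1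
    unfold clnBP at h5
    rw [if_pos ⟨h6, h7, by omega⟩] at h5
    obtain ⟨g1, g2, g3, g4, g5, g6⟩ := clnB_not htU h5
    have e1 : a + dsp c p + 1 * sgnU t.2 * c t.1 = md c (a + dsp c p) t := by unfold md; ring
    have e2 : a + dsp c p + 2 * (1 * sgnU t.2) * c t.1 = mv c (a + dsp c p) t := by unfold mv; ring
    rw [e1] at g3 g5
    rw [e2] at g4 g6
    have e3 : clnP c a (p ++ [t]) = clnP c a p ++ [md c (a + dsp c p) t, mv c (a + dsp c p) t] := by
      rw [clnP_append]; rfl
    constructor
    · intro y hy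
      rw [e3, List.mem_append] at hy
      rcases hy with hy | hy
      · exact h1 y hy
      · rw [List.mem_cons, List.mem_singleton] at hy
        rcases hy with rfl | rfl
        · exact fun hh => g5 (List.mem_append_right _ hh)
        · exact fun hh => g6 (List.mem_append_right _ hh)
    · intro e he
      rw [List.map_append, List.mem_append] at he
      rcases he with he | he
      · exact h2 e he
      · rw [List.map_singleton, List.mem_singleton] at he
        rw [he]
        exact fun hh => g2 (List.mem_append_right _ hh)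

theorem ClnH.clean (H : ClnH N U c h r a b F Ub l) (hr : 3 * h + 2 ≤ r) : Clean c F Ub a l := by
  have hlen := H.len
  -- the decomposition
  obtain ⟨P, t, M, S, hl, hP, hS⟩ : ∃ (P : List (ι × Bool)) (t : ι × Bool) (M S : List (ι × Bool)),
      l = P ++ t :: (M ++ S) ∧ P.length = h ∧ S.length = h := by
    have h1 : (l.drop h).length = r - h := by rw [List.length_drop, hlen]
    cases hd : l.drop h with
    | nil =>
      rw [hd, List.length_nil] at h1
      omega
    | cons t R =>
      rw [hd, List.length_cons] at h1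
      refine ⟨l.take h, t, R.take (R.length - h), R.drop (R.length - h), ?_, ?_, ?_⟩
      · rw [List.take_append_drop, ← hd, List.take_append_drop]
      · rw [List.length_take, hlen]
        omega
      · rw [List.length_drop]
        omega
  have hlen2 : h + (1 + (M.length + h)) = r := by
    rw [hl, List.length_append, List.length_cons, List.length_append, hP, hS] at hlen
    omega
  obtain ⟨x, hx⟩ : ∃ x, x = a + dsp c P := ⟨_, rfl⟩
  obtain ⟨a1, a2, a3, a4⟩ := H.frst P (t :: (M ++ S)) hl (by omega)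
  have hl2 : l = (P ++ t :: M) ++ S := by rw [hl]; simp
  obtain ⟨b1, b2, b3, b4⟩ := H.frst (P ++ t :: M) S hl2 (by rw [List.length_append, List.length_cons]; omega)
  obtain ⟨c1, c2, c3, c4⟩ := H.suffix P (t :: (M ++ S)) hl
    (by rw [List.length_cons, List.length_append]; omega)
  have hl3 : l = P ++ ((t :: M) ++ S) := by rw [hl]; simp
  obtain ⟨d1, d2⟩ := H.cross hr P (t :: M) S hl3 (by omega) hS
  rw [← hx] at c1 c2
  have e1 : clnP c a (P ++ t :: M) = clnP c a P ++ md c x t :: (clnS c (mv c x t) M ++ [mv c x t + dsp c M]) := by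
    rw [clnP_append, clnP, clnP_S, hx]
  have e2 : clnS c x (t :: (M ++ S)) = x :: md c x t :: (clnS c (mv c x t) M ++ clnS c (b - dsp c S) S) := by
    rw [clnS, clnS_append]
    have e3 : mv c x t + dsp c M = b - dsp c S := by
      rw [H.fin, hl2, cln_dsp_append c (P ++ t :: M) S, cln_dsp_append, cln_dsp_cons, hx]
      unfold mv
      ring
    rw [e3]
  have e4 : wlab c a l = clnP c a P ++ md c x t :: (clnS c (mv c x t) M ++ clnS c (b - dsp c S) S) := by
    rw [hl, cln_wlab_append, ← hx]
    rw [clnS] at e2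
    have := List.cons_injective (List.cons_injective e2)
    rw [this]
  rw [e1, List.nodup_append] at b2
  obtain ⟨-, -, b2⟩ := b2
  rw [e2, List.nodup_cons] at c2
  rw [List.map_append, List.nodup_append] at b3
  obtain ⟨-, -, b3⟩ := b3
  refine ⟨?_, ?_, ?_, ?_⟩
  · rw [hl, List.map_append, List.nodup_append]
    refine ⟨a3, c3, ?_⟩
    intro e he e' he'
    rw [List.map_cons, List.map_append, List.mem_cons, List.mem_append] at he'
    rcases he' with he' | he' | he'
    · exact b3 e he e' (by rw [List.map_cons, List.mem_cons]; exact Or.inl he')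
    · exact b3 e he e' (by rw [List.map_cons, List.mem_cons]; exact Or.inr he')
    · rintro rfl
      exact d2 e he he'
  · intro t' ht'
    rw [hl, List.mem_append] at ht'
    rcases ht' with ht' | ht'
    · exact a4 t' ht'
    · exact c4 t' ht'
  · rw [e4, List.nodup_append]
    refine ⟨a2, c2.2, ?_⟩
    intro y hy y' hy'
    rw [List.mem_cons, List.mem_append] at hy'
    rcases hy' with hy' | hy' | hy'
    · exact b2 y hy y' (by rw [List.mem_cons]; exact Or.inl hy')
    · exact b2 y hy y' (by rw [List.mem_cons, List.mem_append]; exact Or.inr (Or.inl hy'))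
    · rintro rfl
      exact d1 y hy hy'
  · intro y hy
    rw [e4, List.mem_append] at hy
    rcases hy with hy | hy
    · exact a1 y hy
    · exact c1 y (by rw [e2]; exact List.mem_cons_of_mem _ hy)

end det

open Classical in
theorem clean_count {N : ℕ} {U : Finset ι} {c : ι → ℕ} {κ η B : ℝ} {h r : ℕ} {a b : ℤ} {F : Finset ℤ} {Ub : Finset ι}
    (hκ : 0 ≤ κ) (hη : 0 ≤ η) (hB : 0 ≤ B)
    (hodd : ∀ e ∈ U, c e % 2 = 1) (h1 : 1 ≤ h) (hr : 3 * h + 2 ≤ r)
    (hmult : ∀ d, ((U.filter (fun e => c e = d)).card : ℝ) ≤ η * U.card) (hU : 1 ≤ η * U.card)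
    (hup : ∀ s, h ≤ s → ∀ x y : ℤ, (1 ≤ x ∧ x ≤ N) → (1 ≤ y ∧ y ≤ N) → (nw N U c s x y : ℝ) ≤ B * (2 * U.card) ^ s)
    (ha : 1 ≤ a ∧ a ≤ N) (hb : 1 ≤ b ∧ b ≤ N)
    (hreg : ∀ x : ℤ, (1 ≤ x ∧ x ≤ N) → (x ∉ F ∨ x = a ∨ x = b) → Rgl U c κ F x)
    (hUb : (Ub.card : ℝ) ≤ κ * U.card) :
    (((wks N U c r a b).filter (fun l => ¬ Clean c F Ub a l)).card : ℝ) ≤
      3 * r * (3 * κ + 8 * r * η) * B * (2 * U.card) ^ r := by
  obtain ⟨θ, hθ⟩ : ∃ θ : ℝ, θ = 3 * κ + 8 * r * η := ⟨_, rfl⟩
  have hθ0 : 0 ≤ θ := by rw [hθ]; positivity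
  have hr1 : 1 ≤ r := by omega
  obtain ⟨bad, hbad⟩ : ∃ bad, bad = clnBP N U c F Ub r a b := ⟨_, rfl⟩
  obtain ⟨bad', hbad'⟩ : ∃ bad', bad' = clnBS N U c F Ub r b := ⟨_, rfl⟩
  have hc1 : ∀ p q, ((bad p q).card : ℝ) ≤ θ * (2 * U.card) := fun p q => by
    rw [hbad, hθ]; exact clnBP_card hκ hη hmult hU hreg hUb p q
  have hc2 : ∀ q, ((bad' q).card : ℝ) ≤ θ * (2 * U.card) := fun q => by
    rw [hbad', hθ]; exact clnBS_card hκ hη hmult hU hreg hUb q
  have hβ : 0 ≤ θ * (2 * (U.card : ℝ)) := by positivity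
  have hK : θ * (2 * (U.card : ℝ)) * B * (2 * U.card) ^ (r - 1) = θ * B * (2 * U.card) ^ r := by
    have h2 := pow_succ (2 * (U.card : ℝ)) (r - 1)
    rw [Nat.sub_add_cancel hr1] at h2
    rw [h2]
    ring
  have hK0 : 0 ≤ θ * B * (2 * (U.card : ℝ)) ^ r := by positivity
  obtain ⟨S1, hS1⟩ : ∃ S1 : ℕ → Finset (List (ι × Bool)), S1 = fun i => if i + 1 + h ≤ r then
      (wks N U c r a b).filter (fun l => ∃ p t m q, l = p ++ t :: (m ++ q) ∧ p.length = i ∧ m.length = r - 1 - i ∧
        q.length = 0 ∧ t ∈ bad p q) else ∅ := ⟨_, rfl⟩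
  obtain ⟨S2, hS2⟩ : ∃ S2 : ℕ → Finset (List (ι × Bool)), S2 = fun i => if i < h then
      (wks N U c r a b).filter (fun l => ∃ p t m q, l = p ++ t :: (m ++ q) ∧ p.length = i ∧
        m.length = r - h - 1 - i ∧ q.length = h ∧ t ∈ bad p q) else ∅ := ⟨_, rfl⟩
  obtain ⟨S3, hS3⟩ : ∃ S3 : ℕ → Finset (List (ι × Bool)), S3 = fun i => if h ≤ i ∧ i < r then
      (wks N U c r a b).filter (fun l => ∃ m t q, l = m ++ t :: q ∧ m.length = i ∧ t ∈ bad' q) else ∅ :=
    ⟨_, rfl⟩
  have hb1 : ∀ i, ((S1 i).card : ℝ) ≤ θ * B * (2 * U.card) ^ r := by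
    intro i
    simp only [hS1]
    split_ifs with hi
    · rw [← hK]
      exact cnt_left hB hβ hup ha hb (by omega) (by omega) bad hc1
    · rw [card_empty, Nat.cast_zero]
      exact hK0
  have hb2 : ∀ i, ((S2 i).card : ℝ) ≤ θ * B * (2 * U.card) ^ r := by
    intro i
    simp only [hS2]
    split_ifs with hi
    · rw [← hK]
      exact cnt_left hB hβ hup ha hb (by omega) (by omega) bad hc1
    · rw [card_empty, Nat.cast_zero]
      exact hK0
  have hb3 : ∀ i, ((S3 i).card : ℝ) ≤ θ * B * (2 * U.card) ^ r := by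
    intro i
    simp only [hS3]
    split_ifs with hi
    · rw [← hK]
      exact cnt_right hB hβ hup ha hb hi.1 hi.2 bad' hc2
    · rw [card_empty, Nat.cast_zero]
      exact hK0
  have hsub : (wks N U c r a b).filter (fun l => ¬ Clean c F Ub a l) ⊆
      (range r).biUnion (fun i => (S1 i ∪ S2 i) ∪ S3 i) := by
    intro l hl
    obtain ⟨hlw, hcl⟩ := mem_filter.1 hl
    by_contra hno
    have hno' : ∀ i, i < r → l ∉ S1 i ∧ l ∉ S2 i ∧ l ∉ S3 i := by
      intro i hi
      refine ⟨fun hh => hno ?_, fun hh => hno ?_, fun hh => hno ?_⟩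
      · exact mem_biUnion.2 ⟨i, mem_range.2 hi, mem_union_left _ (mem_union_left _ hh)⟩
      · exact mem_biUnion.2 ⟨i, mem_range.2 hi, mem_union_left _ (mem_union_right _ hh)⟩
      · exact mem_biUnion.2 ⟨i, mem_range.2 hi, mem_union_right _ hh⟩
    obtain ⟨w1, w2, w3, w4⟩ := mem_wks.1 hlw
    apply hcl
    refine ClnH.clean (N := N) (U := U) (h := h) (r := r) (b := b) ⟨w1, w2, w3, ?_, hodd, ?_, ?_, ?_⟩ hr
    · intro p q hpq
      by_cases hp : p = []
      · rw [hp, cln_dsp_nil, add_zero]
        exact ha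
      · have h2 : 1 ≤ p.length := List.length_pos_iff.2 hp
        have h3 : p.length ≤ r := by rw [← w1, hpq, List.length_append]; omega
        have h4 := w4 p.length h2 h3
        rwa [hpq, List.take_left] at h4
    · intro p t m hpq hp hbd
      rw [← hbad] at hbd
      have h2 : l.length = p.length + (m.length + 1) := by
        rw [hpq, List.length_append, List.length_cons]
      refine (hno' p.length (by omega)).1 ?_
      simp only [hS1]
      rw [if_pos hp]
      exact mem_filter.2 ⟨hlw, p, t, m, [], by rw [List.append_nil]; exact hpq, rfl, by omega, rfl, hbd⟩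
    · intro p t m q hpq hp hq hbd
      rw [← hbad] at hbd
      have h2 : l.length = p.length + (m.length + q.length + 1) := by
        rw [hpq, List.length_append, List.length_cons, List.length_append]
      refine (hno' p.length (by omega)).2.1 ?_
      simp only [hS2]
      rw [if_pos hp]
      exact mem_filter.2 ⟨hlw, p, t, m, q, hpq, rfl, by omega, hq, hbd⟩
    · intro m t q hpq hm hbd
      rw [← hbad'] at hbd
      have h2 : l.length = m.length + (q.length + 1) := by
        rw [hpq, List.length_append, List.length_cons]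
      refine (hno' m.length (by omega)).2.2 ?_
      simp only [hS3]
      rw [if_pos ⟨hm, by omega⟩]
      exact mem_filter.2 ⟨hlw, m, t, q, hpq, rfl, hbd⟩
  have hcard : (((wks N U c r a b).filter (fun l => ¬ Clean c F Ub a l)).card : ℝ) ≤
      ∑ i ∈ range r, (((S1 i).card : ℝ) + (S2 i).card + (S3 i).card) := by
    have h2 := (card_le_card hsub).trans card_biUnion_le
    have h3 : ∑ i ∈ range r, ((S1 i ∪ S2 i) ∪ S3 i).card ≤
        ∑ i ∈ range r, ((S1 i).card + (S2 i).card + (S3 i).card) :=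
      sum_le_sum fun i _ => (card_union_le _ _).trans (Nat.add_le_add_right (card_union_le _ _) _)
    exact_mod_cast h2.trans h3
  refine hcard.trans ?_
  have h4 : ∑ i ∈ range r, (((S1 i).card : ℝ) + (S2 i).card + (S3 i).card) ≤
      ∑ _i ∈ range r, 3 * (θ * B * (2 * (U.card : ℝ)) ^ r) :=
    sum_le_sum fun i _ => by linarith [hb1 i, hb2 i, hb3 i]
  refine h4.trans (le_of_eq ?_)
  rw [sum_const, card_range, nsmul_eq_mul, ← hθ]
  ring

/-- all the interior labels of a walk are in `[1, N]`, their number is `2 r - 1` -/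
theorem wlab_mem {N : ℕ} {U : Finset ι} {c : ι → ℕ} {r : ℕ} {a b : ℤ} (ha : 1 ≤ a ∧ a ≤ N) {l : List (ι × Bool)}
    (hl : l ∈ wks N U c r a b) : (∀ y ∈ wlab c a l, 1 ≤ y ∧ y ≤ N) ∧ (wlab c a l).length = 2 * r - 1 := by
  have key : ∀ (q : List (ι × Bool)) (x : ℤ), (∀ i, i ≤ q.length → 1 ≤ x + dsp c (q.take i) ∧ x + dsp c (q.take i) ≤ N) →
      ∀ y ∈ clnS c x q, 1 ≤ y ∧ y ≤ N := by
    intro q
    induction q with
    | nil =>
      intro x _ y hy
      simp [clnS] at hy
    | cons t q ih =>
      intro x hx y hy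
      have h0 := hx 0 (Nat.zero_le _)
      rw [List.take_zero, cln_dsp_nil, add_zero] at h0
      have h1 : ∀ i, i ≤ q.length → 1 ≤ mv c x t + dsp c (q.take i) ∧ mv c x t + dsp c (q.take i) ≤ N := by
        intro i hi
        have h2 := hx (i + 1) (by rw [List.length_cons]; omega)
        rw [List.take_succ_cons, cln_dsp_cons] at h2
        unfold mv
        omega
      have h3 := h1 0 (Nat.zero_le _)
      rw [List.take_zero, cln_dsp_nil, add_zero] at h3
      rw [clnS, List.mem_cons, List.mem_cons] at hy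
      rcases hy with rfl | rfl | hy
      · exact h0
      · unfold md
        unfold mv at h3
        rcases t with ⟨e, _ | _⟩ <;> simp only [sgnU] at * <;> simp at * <;> omega
      · exact ih _ h1 y hy
  obtain ⟨w1, w2, w3, w4⟩ := mem_wks.1 hl
  cases l with
  | nil =>
    rw [List.length_nil] at w1
    subst w1
    simp [wlab]
  | cons t q =>
    rw [List.length_cons] at w1
    have h1 : ∀ i, i ≤ q.length → 1 ≤ mv c a t + dsp c (q.take i) ∧ mv c a t + dsp c (q.take i) ≤ N := by
      intro i hi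
      have h2 := w4 (i + 1) (by omega) (by omega)
      rw [List.take_succ_cons, cln_dsp_cons] at h2
      unfold mv
      omega
    have h3 := h1 0 (Nat.zero_le _)
    rw [List.take_zero, cln_dsp_nil, add_zero] at h3
    rw [cln_wlab_cons]
    constructor
    · intro y hy
      rw [List.mem_cons] at hy
      rcases hy with rfl | hy
      · unfold md
        unfold mv at h3
        rcases t with ⟨e, _ | _⟩ <;> simp only [sgnU] at * <;> simp at * <;> omega
      · exact key q _ h1 y hy
    · rw [List.length_cons, clnS_length]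
      omega

end SSB
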