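import Pool.Agent.Lib.MP_8a819d_co.BD.Defs

/-!
# MP_8a819d_co, trees with many leaves: definitions for the absorber with repeated units

A unit is a leaf (not yet numbered) at a numbered vertex (its host); `c e` is the label of the host of the unit `e`. All labels of
hosts are odd, so every pair of labels `{z, z + c e}` taken by a unit has one even and one odd element.
-/

set_option autoImplicit false

namespace SSB

open Finset

/-- the units of the hosts in `S`: the host `u` has `w u` units -/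
def unitsW (S : Finset ℕ) (w : ℕ → ℕ) : Finset ((_ : ℕ) × ℕ) := S.sigma (fun u => range (w u))

/-- the label of the host of a unit -/
def cW (f : ℕ → ℕ) (e : (_ : ℕ) × ℕ) : ℕ := f e.1

/-- the labels in `X` can be distributed in pairs to the units in `U` -/
def MatchU {ι : Type*} [DecidableEq ι] (U : Finset ι) (c : ι → ℕ) (X : Finset ℕ) : Prop :=
  ∃ β : ι → Finset ℕ, (∀ e ∈ U, IsBlock 1 (c e, c e) (β e)) ∧
    (∀ e ∈ U, ∀ e' ∈ U, e ≠ e' → Disjoint (β e) (β e')) ∧ U.biUnion β = X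

/-- as many even as odd elements -/
def Bal (A : Finset ℕ) : Prop := (A.filter (fun x => x % 2 = 0)).card = (A.filter (fun x => x % 2 = 1)).card

/-- quasi-random labels: the bilinear form of the units is close to the one of a bounded density `nb` -/
structure QRU {ι : Type*} [DecidableEq ι] (N : ℕ) (U : Finset ι) (c : ι → ℕ) (η κ : ℝ) : Prop where
  odd : ∀ e ∈ U, c e % 2 = 1
  le : ∀ e ∈ U, 8 * c e ≤ N
  mult : ∀ d, ((U.filter (fun e => c e = d)).card : ℝ) ≤ η * U.card
  dens : ∃ nb : ℕ → ℝ, (∀ d, 0 ≤ nb d) ∧ (∀ d, nb d ≤ 32 / N) ∧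
    (∀ d, nb d ≠ 0 → d % 2 = 1 ∧ 8 * d ≤ N) ∧
    (((range (N + 1)).filter (fun d => d % 2 = 1 ∧ 8 * d ≤ N ∧ nb d < 7 / N)).card : ℝ) ≤ κ * N ∧
    ∀ F G : ℤ → ℝ, (∀ x, F x ≠ 0 → 1 ≤ x ∧ x ≤ N) → (∀ x, G x ≠ 0 → 1 ≤ x ∧ x ≤ N) →
      |∑ e ∈ U, ∑ x ∈ Icc (1 : ℤ) N, F x * G (x + c e) -
        U.card * ∑ d ∈ range (N + 1), nb d * ∑ x ∈ Icc (1 : ℤ) N, F x * G (x + d)| ≤
      η * U.card * (√(∑ x ∈ Icc (1 : ℤ) N, F x ^ 2) * √(∑ x ∈ Icc (1 : ℤ) N, G x ^ 2))

/-- at most the fraction `κ` of the units leads from `x` in one or two steps up or down into `E` -/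
def Rgl {ι : Type*} [DecidableEq ι] (U : Finset ι) (c : ι → ℕ) (κ : ℝ) (E : Finset ℤ) (x : ℤ) : Prop :=
  ∀ m : ℤ, m = 1 ∨ m = -1 ∨ m = 2 ∨ m = -2 →
    ((U.filter (fun e => x + m * c e ∈ E)).card : ℝ) ≤ κ * U.card

/-! ### walks with steps `± 2 c e` -/

/-- sign of a step -/
def sgnU (b : Bool) : ℤ := if b then 1 else -1

/-- the end of the step `t` from `x` -/
def mv {ι : Type*} (c : ι → ℕ) (x : ℤ) (t : ι × Bool) : ℤ := x + 2 * sgnU t.2 * c t.1

/-- the middle of the step `t` from `x` -/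
def md {ι : Type*} (c : ι → ℕ) (x : ℤ) (t : ι × Bool) : ℤ := x + sgnU t.2 * c t.1

/-- all steps -/
def stps {ι : Type*} [DecidableEq ι] (U : Finset ι) : Finset (ι × Bool) := U ×ˢ (Finset.univ : Finset Bool)

/-- walks of length `r` from `x` to `y` in `[1, N]` -/
def wks {ι : Type*} [DecidableEq ι] (N : ℕ) (U : Finset ι) (c : ι → ℕ) : ℕ → ℤ → ℤ → Finset (List (ι × Bool))
  | 0, x, y => if x = y then {[]} else ∅
  | r + 1, x, y => (stps U).biUnion (fun t =>
      if 1 ≤ mv c x t ∧ mv c x t ≤ N then (wks N U c r (mv c x t) y).image (List.cons t) else ∅)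

/-- the interior labels of a walk from `x` (middles of the steps and ends of all the steps except the last) -/
def wlab {ι : Type*} (c : ι → ℕ) : ℤ → List (ι × Bool) → List ℤ
  | _, [] => []
  | x, t :: l => if l = [] then [md c x t] else md c x t :: mv c x t :: wlab c (mv c x t) l

/-- a clean walk: different units not in `Ub`, different interior labels not in `F` -/
def Clean {ι : Type*} [DecidableEq ι] (c : ι → ℕ) (F : Finset ℤ) (Ub : Finset ι) (a : ℤ)
    (l : List (ι × Bool)) : Prop :=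
  (l.map Prod.fst).Nodup ∧ (∀ t ∈ l, t.1 ∉ Ub) ∧ (wlab c a l).Nodup ∧ ∀ y ∈ wlab c a l, y ∉ F

end SSB
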