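import Pool.Agent.Lib.MP_8a819d_co.BD.TMd
import Pool.Agent.Lib.MP_8a819d_co.LH.Def

/-!
# MP_8a819d_co: absorbers with repeated units, 1. Matchings with labelled units

The units are elements of any type `υ` with labels `ℓ : υ → ℕ` (different units may have the same label, e.g. `υ = ℕ × ℕ`, the unit
`(u, i)` being the `i`-th leaf at the host `u`).
-/

set_option autoImplicit false

namespace SSB

open Finset

variable {υ : Type*} [DecidableEq υ]

theorem matchU_empty (ℓ : υ → ℕ) : MatchU ∅ ℓ ∅ :=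
  ⟨fun _ => ∅, fun u hu => absurd hu (notMem_empty u), fun u hu => absurd hu (notMem_empty u),
    biUnion_empty⟩

theorem matchU_card {U : Finset υ} {ℓ : υ → ℕ} {W : Finset ℕ} (h : MatchU U ℓ W) :
    W.card = 2 * U.card := by
  obtain ⟨β, h1, h2, h3⟩ := h
  rw [← h3, card_biUnion h2, sum_congr rfl (fun u hu => ?_), sum_const, smul_eq_mul, mul_comm]
  obtain ⟨a, -, -, h⟩ := h1 u hu
  exact h

/-- pairs are blocks -/
theorem isBlock_pair {c x y : ℕ} (h : dd x c = y) (hxy : x ≠ y) (hx : x ≠ 0) (hy : y ≠ 0) :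
    IsBlock 1 (c, c) {x, y} := by
  refine ⟨x, ?_, ?_, card_pair hxy⟩
  · change ({x, y} : Finset ℕ) = {x, dd x c, dd x c}
    rw [h, pair_eq_singleton]
  · rw [mem_insert, mem_singleton]
    rintro (h2 | h2)
    · exact hx h2.symm
    · exact hy h2.symm

/-- a block -/
theorem matchU_single {ℓ : υ → ℕ} {u : υ} {s : Finset ℕ} (h : IsBlock 1 (ℓ u, ℓ u) s) :
    MatchU {u} ℓ s := by
  refine ⟨fun _ => s, fun v hv => ?_, fun v hv w hw hvw => ?_, singleton_biUnion⟩
  · rw [mem_singleton] at hv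
    rw [hv]
    exact h
  · rw [mem_singleton] at hv hw
    exact absurd (hv.trans hw.symm) hvw

/-- a pair -/
theorem matchU_pair {ℓ : υ → ℕ} {u : υ} {x y : ℕ} (h : dd x (ℓ u) = y) (hxy : x ≠ y) (hx : x ≠ 0)
    (hy : y ≠ 0) : MatchU {u} ℓ {x, y} := matchU_single (isBlock_pair h hxy hx hy)

theorem matchU_union {U V : Finset υ} {ℓ : υ → ℕ} {W W' : Finset ℕ} (h : MatchU U ℓ W)
    (h' : MatchU V ℓ W') (hD : Disjoint U V) (hW : Disjoint W W') :
    MatchU (U ∪ V) ℓ (W ∪ W') := by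
  obtain ⟨β, h1, h2, h3⟩ := h
  obtain ⟨β', h1', h2', h3'⟩ := h'
  have e1 : ∀ d ∈ U, (if d ∈ U then β d else β' d) = β d := fun d hd => if_pos hd
  have e2 : ∀ d ∈ V, (if d ∈ U then β d else β' d) = β' d :=
    fun d hd => if_neg (disjoint_right.1 hD hd)
  have s1 : ∀ d ∈ U, β d ⊆ W := fun d hd => by
    rw [← h3]
    exact subset_biUnion_of_mem β hd
  have s2 : ∀ d ∈ V, β' d ⊆ W' := fun d hd => by
    rw [← h3']
    exact subset_biUnion_of_mem β' hd
  refine ⟨fun d => if d ∈ U then β d else β' d, fun d hd => ?_, fun d hd d' hd' hne => ?_, ?_⟩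
  · rcases mem_union.1 hd with hd | hd
    · change IsBlock 1 (ℓ d, ℓ d) (if d ∈ U then β d else β' d)
      rw [e1 d hd]
      exact h1 d hd
    · change IsBlock 1 (ℓ d, ℓ d) (if d ∈ U then β d else β' d)
      rw [e2 d hd]
      exact h1' d hd
  · change Disjoint (if d ∈ U then β d else β' d) (if d' ∈ U then β d' else β' d')
    rcases mem_union.1 hd with hd | hd <;> rcases mem_union.1 hd' with hd' | hd'
    · rw [e1 d hd, e1 d' hd']
      exact h2 d hd d' hd' hne
    · rw [e1 d hd, e2 d' hd']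
      exact hW.mono (s1 d hd) (s2 d' hd')
    · rw [e2 d hd, e1 d' hd']
      exact (hW.mono (s1 d' hd') (s2 d hd)).symm
    · rw [e2 d hd, e2 d' hd']
      exact h2' d hd d' hd' hne
  · rw [union_biUnion, biUnion_congr rfl e1, biUnion_congr rfl e2, h3, h3']

theorem matchU_biUnion {ι : Type*} [DecidableEq ι] {ℓ : υ → ℕ} (S : Finset ι) (U : ι → Finset υ)
    (W : ι → Finset ℕ) (h : ∀ i ∈ S, MatchU (U i) ℓ (W i))
    (hD : ∀ i ∈ S, ∀ j ∈ S, i ≠ j → Disjoint (U i) (U j))
    (hW : ∀ i ∈ S, ∀ j ∈ S, i ≠ j → Disjoint (W i) (W j)) :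
    MatchU (S.biUnion U) ℓ (S.biUnion W) := by
  induction S using Finset.induction_on with
  | empty =>
    rw [biUnion_empty, biUnion_empty]
    exact matchU_empty ℓ
  | @insert a s ha ih =>
    rw [biUnion_insert, biUnion_insert]
    have hne : ∀ j ∈ s, a ≠ j := fun j hj e => ha (e ▸ hj)
    refine matchU_union (h a (mem_insert_self a s))
      (ih (fun i hi => h i (mem_insert_of_mem hi))
        (fun i hi j hj => hD i (mem_insert_of_mem hi) j (mem_insert_of_mem hj))
        (fun i hi j hj => hW i (mem_insert_of_mem hi) j (mem_insert_of_mem hj))) ?_ ?_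
    · rw [disjoint_biUnion_right]
      exact fun j hj => hD a (mem_insert_self a s) j (mem_insert_of_mem hj) (hne j hj)
    · rw [disjoint_biUnion_right]
      exact fun j hj => hW a (mem_insert_self a s) j (mem_insert_of_mem hj) (hne j hj)

/-- pairs of single units -/
theorem matchU_pairs {ℓ : υ → ℕ} (U : Finset υ) (a b : υ → ℕ)
    (h : ∀ u ∈ U, IsBlock 1 (ℓ u, ℓ u) {a u, b u})
    (hd : ∀ u ∈ U, ∀ v ∈ U, u ≠ v → a u ≠ a v ∧ a u ≠ b v ∧ b u ≠ a v ∧ b u ≠ b v) :
    MatchU U ℓ (U.biUnion (fun u => {a u, b u})) := by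
  have h1 := matchU_biUnion (ℓ := ℓ) U (fun u => {u}) (fun u => {a u, b u})
    (fun u hu => matchU_single (h u hu))
    (fun u _ v _ huv => disjoint_singleton.2 huv) (fun u hu v hv huv => by
      obtain ⟨e1, e2, e3, e4⟩ := hd u hu v hv huv
      simp only [disjoint_insert_left, disjoint_singleton_left, mem_insert, mem_singleton, not_or]
      exact ⟨⟨e1, e2⟩, e3, e4⟩)
  rwa [biUnion_singleton_eq_self] at h1

/-- two matchings are disjoint if the number of labels is right -/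
theorem match2U {ℓ : υ → ℕ} {U V : Finset υ} {W1 W2 : Finset ℕ} (h1 : MatchU U ℓ W1)
    (h2 : MatchU V ℓ W2) (hD : Disjoint U V) (hc : 2 * (U.card + V.card) ≤ (W1 ∪ W2).card) :
    MatchU (U ∪ V) ℓ (W1 ∪ W2) := by
  refine matchU_union h1 h2 hD ?_
  have c1 := matchU_card h1
  have c2 := matchU_card h2
  have c3 := card_union_le W1 W2
  rw [← card_union_eq_card_add_card]
  omega

/-- blocks of odd units contain an even and an odd label -/
theorem matchU_count {ℓ : υ → ℕ} {U : Finset υ} {W : Finset ℕ} (hD : ∀ u ∈ U, ℓ u % 2 = 1)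
    (h : MatchU U ℓ W) {σ : ℕ} (hσ : σ < 2) : (W.filter (fun x => x % 2 = σ)).card = U.card := by
  obtain ⟨β, h1, h2, h3⟩ := h
  have h4 : ∀ u ∈ U, ((β u).filter (fun x => x % 2 = σ)).card = 1 := by
    intro u hu
    obtain ⟨a, ha, -, hc⟩ := h1 u hu
    have hc1 := hD u hu
    change β u = {a, dd a (ℓ u), dd a (ℓ u)} at ha
    rw [pair_eq_singleton] at ha
    have hpar : dd a (ℓ u) % 2 ≠ a % 2 := by
      unfold dd
      omega
    rw [ha, card_eq_one]
    by_cases h5 : a % 2 = σ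
    · refine ⟨a, ?_⟩
      ext x
      simp only [mem_filter, mem_insert, mem_singleton]
      constructor
      · rintro ⟨rfl | rfl, h6⟩
        · rfl
        · omega
      · rintro rfl
        exact ⟨Or.inl rfl, h5⟩
    · refine ⟨dd a (ℓ u), ?_⟩
      ext x
      simp only [mem_filter, mem_insert, mem_singleton]
      constructor
      · rintro ⟨rfl | rfl, h6⟩
        · omega
        · rfl
      · rintro rfl
        exact ⟨Or.inr rfl, by omega⟩
  rw [← h3, filter_biUnion, card_biUnion fun d hd d' hd' hne =>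
    (h2 d hd d' hd' hne).mono (filter_subset _ _) (filter_subset _ _), sum_congr rfl h4,
    sum_const, smul_eq_mul, mul_one]

/-- transport to other units -/
theorem matchU_image {υ' : Type*} [DecidableEq υ'] {ℓ : υ → ℕ} {ℓ' : υ' → ℕ} {U : Finset υ}
    {W : Finset ℕ} (g : υ → υ') (hg : Set.InjOn g U) (hl : ∀ u ∈ U, ℓ' (g u) = ℓ u)
    (h : MatchU U ℓ W) : MatchU (U.image g) ℓ' W := by
  obtain ⟨β, h1, h2, h3⟩ := h
  classical
  obtain ⟨γ, hγ⟩ : ∃ γ : υ' → Finset ℕ, ∀ u ∈ U, γ (g u) = β u := by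
    refine ⟨fun v => if h : ∃ u ∈ U, g u = v then β h.choose else ∅, fun u hu => ?_⟩
    have h4 : ∃ u' ∈ U, g u' = g u := ⟨u, hu, rfl⟩
    simp only [h4, dif_pos]
    rw [hg (mem_coe.2 h4.choose_spec.1) (mem_coe.2 hu) h4.choose_spec.2]
  refine ⟨γ, fun v hv => ?_, fun v hv w hw hvw => ?_, ?_⟩
  · obtain ⟨u, hu, rfl⟩ := mem_image.1 hv
    rw [hγ u hu, hl u hu]
    exact h1 u hu
  · obtain ⟨u, hu, rfl⟩ := mem_image.1 hv
    obtain ⟨u', hu', rfl⟩ := mem_image.1 hw
    rw [hγ u hu, hγ u' hu']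
    exact h2 u hu u' hu' fun h4 => hvw (by rw [h4])
  · rw [image_biUnion, biUnion_congr rfl fun u hu => hγ u hu]
    exact h3

end SSB
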