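import Pool.Agent.Lib.MP_8a819d_co.LH.RDef
import Pool.Agent.Lib.MP_8a819d_co.LH.Def
import Pool.Agent.Lib.MP_8a819d_co.LH.RuM
import Pool.Agent.Lib.MP_8a819d_co.AT.Cnt

/-!
# MP_8a819d_co, leaf-heavy trees: inner vertices and leaves, the final absorption

JOB LHQ_FinRa: `inn_facts`, `lvs_sum_inn`, `sel_k`, `unitsW_leaves`. JOB LHQ_FinRb: `abs_finR`. JOB LHQ_FinRc: `balJ`.

PROOF of `inn_facts`: `n ≥ 2`: `par 1 = 0` (`par 1 < 1`), so `0 ∈ inn`. `v < n` not in `inn`: `v ≠ 0`, `v ∈ chs n par (par v)` (`par v < v < n`), so `par v ∈ inn`. `v ∈ inn`, `1 ≤ v`: the same argument gives `par v ∈ inn`.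
`lvs_sum_inn`: the sets `lvs n par v`, `v ∈ inn`, are disjoint with union `range n \ inn`. `sel_k`: let `F k = ∑ v ∈ P ∪ I.filter (· < k), w v`; `F 0 ≤ thr`, `F (k + 1) ≤ F k + M`, `F n ≥ thr` (`I ⊆ range n`): take the smallest `k` with `F k ≥ thr`.
`unitsW_leaves`: `matchU_image` (RuM.lean) with `g ⟨v, i⟩` = the `i`-th element of `lvs n par v` (`Finset.equivFin`, `Finset.orderEmbOfFin` or any bijection of `range (lvs v).card` onto `lvs v`), whose parent is `v`; the image of `unitsW S _` is `S.biUnion (lvs n par)`.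

PROOF of `abs_finR`. `MatchU` gives `β v` for `v ∈ Λ`, `IsBlock 1 (c, c) (β v)` with `c = f (par v)`: `β v = {a, dd a c}`, `a ≠ dd a c`, both `≥ 1`. Let `f' v = a` for `v ∈ Λ`, `f' = f` otherwise. For `v ∈ Λ` the value of `inl v` is `a`, the value of `inr v` is
`dd a (f (par v))` (`par v ∉ Λ`). No other item contains a vertex of `Λ` (`chs v = ∅`). The values of the items of `range n \ Λ` are unchanged and not in `A ∪ J`; the blocks `β v` are disjoint subsets of `A ∪ J ⊆ [1, 2 n - 1]`.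

PROOF of `balJ`. `T = range n \ Λ ⊇ inn`. Items of `T`: `inl v` (`v ∈ T`) and `inr v` (`v ∈ T`, `1 ≤ v`; then `par v ∈ inn ⊆ T`). `v ∈ inn`: `f v` odd, and if `v ≥ 1` then `dd (f v) (f (par v))` is even. `v ∈ T`, `v ∉ inn`: `f (par v)` is odd, so exactly one of `f v` and
`dd (f v) (f (par v))` is odd. So the values of the items of `T` (injective) contain exactly `|T|` odd and `|T| - 1` even numbers (`0 ∈ inn`), and the complement in `[1, 2 n - 1]` (`n` odd, `n - 1` even numbers) contains `n - |T| = |Λ|` odd and `|Λ|` even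
numbers. It is the disjoint union of `A` and `J`, and `A` is balanced.
-/

set_option autoImplicit false

namespace SSB

open Finset

private theorem lhq_finRa_chs {n : ℕ} {par : ℕ → ℕ} {i c : ℕ} :
    c ∈ chs n par i ↔ c < n ∧ 1 ≤ c ∧ par c = i := by
  simp [chs]

theorem inn_facts {n : ℕ} (hn : 2 ≤ n) {par : ℕ → ℕ} (hpar : IsPar n par) :
    0 ∈ inn n par ∧ (∀ v < n, v ∉ inn n par → 1 ≤ v ∧ par v ∈ inn n par ∧ chs n par v = ∅) ∧
    (∀ v ∈ inn n par, 1 ≤ v → par v ∈ inn n par) ∧ inn n par ⊆ range n := by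
  have h0 : 0 ∈ inn n par := by
    rw [inn, mem_filter]
    refine ⟨mem_range.2 (by omega), 1, ?_⟩
    rw [lhq_finRa_chs]
    have := hpar 1 le_rfl (by omega)
    exact ⟨by omega, le_rfl, by omega⟩
  have h1 : ∀ v < n, 1 ≤ v → par v ∈ inn n par := by
    intro v hv hv1
    rw [inn, mem_filter]
    have := hpar v hv1 hv
    refine ⟨mem_range.2 (by omega), v, ?_⟩
    rw [lhq_finRa_chs]
    exact ⟨hv, hv1, rfl⟩
  refine ⟨h0, ?_, ?_, filter_subset _ _⟩
  · intro v hv hvi
    have hv1 : 1 ≤ v := by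
      rcases Nat.eq_zero_or_pos v with h | h
      · rw [h] at hvi
        exact absurd h0 hvi
      · exact h
    refine ⟨hv1, h1 v hv hv1, ?_⟩
    by_contra hne
    apply hvi
    rw [inn, mem_filter]
    exact ⟨mem_range.2 hv, nonempty_iff_ne_empty.2 hne⟩
  · intro v hv hv1
    rw [inn, mem_filter] at hv
    exact h1 v (mem_range.1 hv.1) hv1

theorem lvs_sum_inn {n : ℕ} (hn : 2 ≤ n) {par : ℕ → ℕ} (hpar : IsPar n par) :
    ∑ v ∈ inn n par, (lvs n par v).card + (inn n par).card = n := by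
  obtain ⟨_, h2, _, h4⟩ := inn_facts hn hpar
  have hdis : ∀ v ∈ inn n par, ∀ w ∈ inn n par, v ≠ w → Disjoint (lvs n par v) (lvs n par w) := by
    intro v _ w _ hvw
    rw [disjoint_left]
    intro c hc hc'
    rw [lvs, mem_filter, lhq_finRa_chs] at hc hc'
    exact hvw (hc.1.2.2.symm.trans hc'.1.2.2)
  have hD : Disjoint ((inn n par).biUnion (lvs n par)) (inn n par) := by
    rw [disjoint_left]
    intro x hx' hx
    rw [mem_biUnion] at hx'
    obtain ⟨v, _, hx'⟩ := hx'
    rw [lvs, mem_filter] at hx'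
    rw [inn, mem_filter, hx'.2] at hx
    exact not_nonempty_empty hx.2
  have hU : (inn n par).biUnion (lvs n par) ∪ inn n par = range n := by
    ext x
    rw [mem_union, mem_biUnion]
    constructor
    · rintro (⟨v, _, hx⟩ | hx)
      · rw [lvs, mem_filter, lhq_finRa_chs] at hx
        exact mem_range.2 hx.1.1
      · exact h4 hx
    · intro hx
      by_cases hxi : x ∈ inn n par
      · exact Or.inr hxi
      · obtain ⟨h5, h6, h7⟩ := h2 x (mem_range.1 hx) hxi
        refine Or.inl ⟨par x, h6, ?_⟩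
        rw [lvs, mem_filter, lhq_finRa_chs]
        exact ⟨⟨mem_range.1 hx, h5, rfl⟩, h7⟩
  rw [← card_biUnion hdis, ← card_union_of_disjoint hD, hU, card_range]

theorem sel_k {n thr M : ℕ} {P I : Finset ℕ} {w : ℕ → ℕ} (hI : I ⊆ range n)
    (h0 : ∑ v ∈ P, w v ≤ thr) (h1 : thr ≤ ∑ v ∈ I, w v) (hM : ∀ v ∈ I, w v ≤ M) :
    ∃ k ≤ n, thr ≤ ∑ v ∈ P ∪ I.filter (· < k), w v ∧ ∑ v ∈ P ∪ I.filter (· < k), w v ≤ thr + M := by
  classical
  have hn : thr ≤ ∑ v ∈ P ∪ I.filter (· < n), w v := by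
    refine h1.trans (sum_le_sum_of_subset ?_)
    intro v hv
    exact mem_union_right _ (mem_filter.2 ⟨hv, mem_range.1 (hI hv)⟩)
  have hex : ∃ k, thr ≤ ∑ v ∈ P ∪ I.filter (· < k), w v := ⟨n, hn⟩
  refine ⟨Nat.find hex, Nat.find_min' hex hn, Nat.find_spec hex, ?_⟩
  rcases Nat.eq_zero_or_pos (Nat.find hex) with hk | hk
  · rw [hk]
    have h2 : I.filter (· < 0) = ∅ := by
      rw [filter_eq_empty_iff]
      intro v _
      omega
    rw [h2, union_empty]
    omega
  · obtain ⟨k, hk'⟩ : ∃ k, Nat.find hex = k + 1 := ⟨Nat.find hex - 1, by omega⟩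
    have hmin := Nat.find_min hex (m := k) (by omega)
    rw [hk']
    by_cases hkI : k ∈ I
    · have hsub : P ∪ I.filter (· < k + 1) ⊆ insert k (P ∪ I.filter (· < k)) := by
        intro v hv
        rw [mem_union, mem_filter] at hv
        rw [mem_insert, mem_union, mem_filter]
        rcases hv with hv | ⟨hv, hvk⟩
        · exact Or.inr (Or.inl hv)
        · rcases Nat.lt_succ_iff_lt_or_eq.1 hvk with h | h
          · exact Or.inr (Or.inr ⟨hv, h⟩)
          · exact Or.inl h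
      have h2 := sum_le_sum_of_subset (f := w) hsub
      have h3 : ∑ v ∈ insert k (P ∪ I.filter (· < k)), w v ≤ w k + ∑ v ∈ P ∪ I.filter (· < k), w v := by
        by_cases h4 : k ∈ P ∪ I.filter (· < k)
        · rw [insert_eq_of_mem h4]
          omega
        · rw [sum_insert h4]
      have h4 := hM k hkI
      omega
    · have hsub : P ∪ I.filter (· < k + 1) ⊆ P ∪ I.filter (· < k) := by
        intro v hv
        rw [mem_union, mem_filter] at hv
        rw [mem_union, mem_filter]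
        rcases hv with hv | ⟨hv, hvk⟩
        · exact Or.inl hv
        · rcases Nat.lt_succ_iff_lt_or_eq.1 hvk with h | h
          · exact Or.inr ⟨hv, h⟩
          · rw [h] at hv
            exact absurd hv hkI
      have h2 := sum_le_sum_of_subset (f := w) hsub
      omega

theorem unitsW_leaves {n : ℕ} {par : ℕ → ℕ} {S : Finset ℕ} {f : ℕ → ℕ} {X : Finset ℕ}
    (h : MatchU (unitsW S (fun v => (lvs n par v).card)) (cW f) X) :
    MatchU (S.biUnion (lvs n par)) (fun v => f (par v)) X := by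
  classical
  obtain ⟨g, hg⟩ : ∃ g : ((_ : ℕ) × ℕ) → ℕ, ∀ (u i : ℕ) (h : i < (lvs n par u).card),
      g ⟨u, i⟩ = ((lvs n par u).equivFin.symm ⟨i, h⟩ : ℕ) := by
    refine ⟨fun e => if h : e.2 < (lvs n par e.1).card then
      ((lvs n par e.1).equivFin.symm ⟨e.2, h⟩ : ℕ) else 0, ?_⟩
    intro u i h
    exact dif_pos h
  have hmem : ∀ (u i : ℕ), i < (lvs n par u).card → g ⟨u, i⟩ ∈ lvs n par u := by
    intro u i h
    rw [hg u i h]
    exact ((lvs n par u).equivFin.symm ⟨i, h⟩).2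
  have hpr : ∀ (u i : ℕ), i < (lvs n par u).card → par (g ⟨u, i⟩) = u := by
    intro u i h
    have h1 := hmem u i h
    rw [lvs, mem_filter, lhq_finRa_chs] at h1
    exact h1.1.2.2
  have hunit : ∀ (u i : ℕ), (⟨u, i⟩ : (_ : ℕ) × ℕ) ∈ unitsW S (fun v => (lvs n par v).card) ↔
      u ∈ S ∧ i < (lvs n par u).card := by
    intro u i
    rw [unitsW, mem_sigma, mem_range]
  have hinj : Set.InjOn g (unitsW S (fun v => (lvs n par v).card) : Finset ((_ : ℕ) × ℕ)) := by
    rintro ⟨u, i⟩ he ⟨u', i'⟩ he' hgg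
    rw [mem_coe, hunit] at he he'
    have h1 : u = u' := by
      rw [← hpr u i he.2, ← hpr u' i' he'.2, hgg]
    subst h1
    rw [hg u i he.2, hg u i' he'.2] at hgg
    have h2 := (lvs n par u).equivFin.symm.injective (Subtype.ext hgg)
    have h3 : i = i' := congrArg Fin.val h2
    rw [h3]
  have hl : ∀ e ∈ unitsW S (fun v => (lvs n par v).card), (fun v => f (par v)) (g e) = cW f e := by
    rintro ⟨u, i⟩ he
    rw [hunit] at he
    show f (par (g ⟨u, i⟩)) = f u
    rw [hpr u i he.2]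
  have himg : (unitsW S (fun v => (lvs n par v).card)).image g = S.biUnion (lvs n par) := by
    ext x
    rw [mem_image, mem_biUnion]
    constructor
    · rintro ⟨⟨u, i⟩, he, rfl⟩
      rw [hunit] at he
      exact ⟨u, he.1, hmem u i he.2⟩
    · rintro ⟨u, hu, hx⟩
      refine ⟨⟨u, ((lvs n par u).equivFin ⟨x, hx⟩ : ℕ)⟩, ?_, ?_⟩
      · rw [hunit]
        exact ⟨hu, ((lvs n par u).equivFin ⟨x, hx⟩).2⟩
      · rw [hg u _ ((lvs n par u).equivFin ⟨x, hx⟩).2]
        rw [Fin.eta, Equiv.symm_apply_apply]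
  have h1 := matchU_image (ℓ' := fun v => f (par v)) g hinj hl h
  rwa [himg] at h1

set_option linter.unusedSectionVars false

theorem abs_finR {n : ℕ} (hn : 1 ≤ n) {par : ℕ → ℕ} (hpar : IsPar n par) {A Λ : Finset ℕ}
    {f : ℕ → ℕ} (hA : A ⊆ Icc 1 (2 * n - 1)) (hΛ : Λ ⊆ range n)
    (hv : ∀ v ∈ Λ, 1 ≤ v ∧ par v ∉ Λ ∧ chs n par v = ∅)
    (hinj : Set.InjOn (val par f) (items par (range n \ Λ)))
    (hval : ∀ x ∈ items par (range n \ Λ),
      1 ≤ val par f x ∧ val par f x ≤ 2 * n - 1 ∧ val par f x ∉ A)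
    (hM : MatchU Λ (fun v => f (par v)) (A ∪ (Icc 1 (2 * n - 1) \
      (A ∪ (items par (range n \ Λ)).image (val par f))))) :
    ∃ f' : ℕ → ℕ, (∀ v, v ∉ Λ → f' v = f v) ∧
      Set.InjOn (val par f') (items par (range n)) ∧
      ∀ x ∈ items par (range n), 1 ≤ val par f' x ∧ val par f' x ≤ 2 * n - 1 := by
  obtain ⟨β, hβ1, hβ2, hβ3⟩ := hM
  have hβ1' : ∀ e ∈ Λ, ∃ a, β e = {a, dd a (f (par e)), dd a (f (par e))} ∧ 0 ∉ β e ∧
      (β e).card = 1 + 1 := fun e he => hβ1 e he
  choose! a ha using hβ1'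
  have hin1 : ∀ v ∈ Λ, a v ∈ β v := by
    intro v hv'
    rw [(ha v hv').1]
    exact mem_insert_self _ _
  have hin2 : ∀ v ∈ Λ, dd (a v) (f (par v)) ∈ β v := by
    intro v hv'
    rw [(ha v hv').1]
    exact mem_insert_of_mem (mem_insert_self _ _)
  have hne : ∀ v ∈ Λ, a v ≠ dd (a v) (f (par v)) := by
    intro v hv' he
    have h1 := (ha v hv').2.2
    rw [(ha v hv').1, ← he] at h1
    simp at h1
  obtain ⟨Us, hUs⟩ : ∃ Us, Us = (items par (range n \ Λ)).image (val par f) := ⟨_, rfl⟩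
  rw [← hUs] at hβ3
  have hX : ∀ v ∈ Λ, ∀ x ∈ β v, x ∈ A ∪ (Icc 1 (2 * n - 1) \ (A ∪ Us)) := by
    intro v hv' x hx
    rw [← hβ3]
    exact mem_biUnion.2 ⟨v, hv', hx⟩
  have hXI : ∀ x ∈ A ∪ (Icc 1 (2 * n - 1) \ (A ∪ Us)), 1 ≤ x ∧ x ≤ 2 * n - 1 := by
    intro x hx
    rcases mem_union.1 hx with h1 | h1
    · exact mem_Icc.1 (hA h1)
    · exact mem_Icc.1 (mem_sdiff.1 h1).1
  have hXU : ∀ x ∈ A ∪ (Icc 1 (2 * n - 1) \ (A ∪ Us)), x ∉ Us := by
    intro x hx hxU
    rcases mem_union.1 hx with h1 | h1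
    · rw [hUs] at hxU
      obtain ⟨y, hy, rfl⟩ := mem_image.1 hxU
      exact (hval y hy).2.2 h1
    · exact (mem_sdiff.1 h1).2 (mem_union_right _ hxU)
  obtain ⟨f', hf'⟩ : ∃ f' : ℕ → ℕ, f' = fun v => if v ∈ Λ then a v else f v := ⟨_, rfl⟩
  have hf1 : ∀ v, v ∈ Λ → f' v = a v := by
    intro v hv'
    rw [hf']
    exact if_pos hv'
  have hf2 : ∀ v, v ∉ Λ → f' v = f v := by
    intro v hv'
    rw [hf']
    exact if_neg hv'
  obtain ⟨idx, hidx⟩ : ∃ idx : ℕ ⊕ ℕ → ℕ, (∀ i, idx (Sum.inl i) = i) ∧ ∀ i, idx (Sum.inr i) = i :=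
    ⟨Sum.elim id id, fun _ => rfl, fun _ => rfl⟩
  have key : ∀ x ∈ items par (range n),
      (idx x ∉ Λ → x ∈ items par (range n \ Λ) ∧ val par f' x = val par f x) ∧
      (idx x ∈ Λ → val par f' x ∈ β (idx x) ∧
        (x = Sum.inl (idx x) ∧ val par f' x = a (idx x) ∨
          x = Sum.inr (idx x) ∧ val par f' x = dd (a (idx x)) (f (par (idx x))))) := by
    intro x hx
    unfold items at hx ⊢
    rcases mem_union.1 hx with h1 | h1
    · obtain ⟨i, hi, rfl⟩ := mem_image.1 h1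
      rw [hidx.1]
      refine ⟨fun h2 => ⟨mem_union_left _ (mem_image_of_mem _ (mem_sdiff.2 ⟨hi, h2⟩)), ?_⟩,
        fun h2 => ⟨?_, Or.inl ⟨rfl, ?_⟩⟩⟩
      · exact hf2 i h2
      · change f' i ∈ β i
        rw [hf1 i h2]
        exact hin1 i h2
      · exact hf1 i h2
    · obtain ⟨i, hi, rfl⟩ := mem_image.1 h1
      obtain ⟨hi1, hi2, hi3⟩ := mem_filter.1 hi
      rw [hidx.2]
      refine ⟨fun h2 => ?_, fun h2 => ?_⟩
      · have h3 : par i ∉ Λ := by
          intro h4
          have h5 := (hv (par i) h4).2.2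
          have h6 : i ∈ chs n par (par i) := mem_filter.2 ⟨hi1, hi2, rfl⟩
          rw [h5] at h6
          exact absurd h6 (notMem_empty i)
        refine ⟨mem_union_right _ (mem_image_of_mem _ (mem_filter.2 ⟨mem_sdiff.2 ⟨hi1, h2⟩, hi2,
          mem_sdiff.2 ⟨hi3, h3⟩⟩)), ?_⟩
        change dd (f' i) (f' (par i)) = dd (f i) (f (par i))
        rw [hf2 i h2, hf2 _ h3]
      · have h3 := (hv i h2).2.1
        have h4 : val par f' (Sum.inr i) = dd (a i) (f (par i)) := by
          change dd (f' i) (f' (par i)) = dd (a i) (f (par i))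
          rw [hf1 i h2, hf2 _ h3]
        rw [h4]
        exact ⟨hin2 i h2, Or.inr ⟨rfl, rfl⟩⟩
  have memU : ∀ x ∈ items par (range n), idx x ∉ Λ → val par f' x ∈ Us := by
    intro x hx h1
    rw [((key x hx).1 h1).2, hUs]
    exact mem_image_of_mem _ ((key x hx).1 h1).1
  refine ⟨f', hf2, ?_, ?_⟩
  · intro x hx y hy hxy
    have hx' : x ∈ items par (range n) := hx
    have hy' : y ∈ items par (range n) := hy
    by_cases h1 : idx x ∈ Λ
    · have m1 := (key x hx').2 h1
      by_cases h2 : idx y ∈ Λ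
      · have m2 := (key y hy').2 h2
        have h3 : idx x = idx y := by
          by_contra h4
          have h5 := hβ2 _ h1 _ h2 h4
          rw [disjoint_left] at h5
          exact h5 m1.1 (by rw [hxy]; exact m2.1)
        rcases m1.2 with ⟨e1, e2⟩ | ⟨e1, e2⟩ <;> rcases m2.2 with ⟨e3, e4⟩ | ⟨e3, e4⟩
        · rw [e1, e3, h3]
        · exfalso
          rw [e2, e4, ← h3] at hxy
          exact hne _ h1 hxy
        · exfalso
          rw [e2, e4, ← h3] at hxy
          exact hne _ h1 hxy.symm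
        · rw [e1, e3, h3]
      · exfalso
        have m2 := memU y hy' h2
        rw [← hxy] at m2
        exact hXU _ (hX _ h1 _ m1.1) m2
    · by_cases h2 : idx y ∈ Λ
      · exfalso
        have m1 := memU x hx' h1
        rw [hxy] at m1
        exact hXU _ (hX _ h2 _ ((key y hy').2 h2).1) m1
      · have k1 := (key x hx').1 h1
        have k2 := (key y hy').1 h2
        exact hinj k1.1 k2.1 (by rw [← k1.2, ← k2.2]; exact hxy)
  · intro x hx
    by_cases h1 : idx x ∈ Λ
    · exact hXI _ (hX _ h1 _ ((key x hx).2 h1).1)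
    · have k1 := (key x hx).1 h1
      rw [k1.2]
      exact ⟨(hval x k1.1).1, (hval x k1.1).2.1⟩

theorem balJ_items (par : ℕ → ℕ) (T : Finset ℕ) (g : ℕ ⊕ ℕ → ℕ) :
    ∑ x ∈ items par T, g x = ∑ v ∈ T, g (Sum.inl v) +
      ∑ v ∈ T.filter (fun i => 1 ≤ i ∧ par i ∈ T), g (Sum.inr v) := by
  unfold items
  rw [sum_union, sum_image (fun a _ b _ h => Sum.inl_injective h),
    sum_image (fun a _ b _ h => Sum.inr_injective h)]
  rw [disjoint_left]
  intro x hx hx'
  obtain ⟨a, _, rfl⟩ := mem_image.1 hx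
  obtain ⟨b, _, hb⟩ := mem_image.1 hx'
  exact Sum.inr_ne_inl hb

theorem balJ_odd (n : ℕ) : ((Icc 1 (2 * n - 1)).filter (fun x => x % 2 = 1)).card = n := by
  have h : (Icc 1 (2 * n - 1)).filter (fun x => x % 2 = 1) = (range n).image (fun k => 2 * k + 1) := by
    ext x
    rw [mem_filter, mem_Icc, mem_image]
    constructor
    · intro h
      exact ⟨x / 2, mem_range.2 (by omega), by omega⟩
    · rintro ⟨k, hk, rfl⟩
      rw [mem_range] at hk
      omega
  rw [h, card_image_of_injective, card_range]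
  intro a b h
  simp only at h
  omega

theorem balJ_split (S : Finset ℕ) :
    (S.filter (fun x => x % 2 = 1)).card + (S.filter (fun x => x % 2 = 0)).card = S.card := by
  have h := card_filter_add_card_filter_not (s := S) (fun x => x % 2 = 1)
  rw [← h]
  congr 2
  apply filter_congr
  intro x _
  omega

theorem balJ_parts {U A V : Finset ℕ} (hAV : Disjoint A V) (hA : A ⊆ U) (hV : V ⊆ U)
    (p : ℕ → Prop) [DecidablePred p] :
    ((U \ (A ∪ V)).filter p).card + (A.filter p).card + (V.filter p).card = (U.filter p).card := by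
  simp only [card_filter]
  rw [add_assoc, ← sum_union hAV]
  exact sum_sdiff (union_subset hA hV)

theorem balJ {n : ℕ} (hn : 2 ≤ n) {par : ℕ → ℕ} (hpar : IsPar n par) {A Λ J : Finset ℕ}
    {f : ℕ → ℕ} (hΛ : Λ ⊆ range n \ inn n par) (hodd : ∀ v ∈ inn n par, f v % 2 = 1)
    (hinj : Set.InjOn (val par f) (items par (range n \ Λ)))
    (hval : ∀ x ∈ items par (range n \ Λ),
      1 ≤ val par f x ∧ val par f x ≤ 2 * n - 1 ∧ val par f x ∉ A)
    (hA : A ⊆ Icc 1 (2 * n - 1)) (hb : Bal A)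
    (hJ : J = Icc 1 (2 * n - 1) \ (A ∪ (items par (range n \ Λ)).image (val par f))) :
    Bal J ∧ J.card + A.card = 2 * Λ.card := by
  obtain ⟨hz, hnin, hin, hsub⟩ := inn_facts hn hpar
  obtain ⟨T, hT⟩ : ∃ T : Finset ℕ, T = range n \ Λ := ⟨_, rfl⟩
  rw [← hT] at hinj hval hJ
  have hΛn : Λ ⊆ range n := hΛ.trans sdiff_subset
  have hTc : T.card + Λ.card = n := by
    rw [hT, card_sdiff_of_subset hΛn, card_range]
    have := card_le_card hΛn
    rw [card_range] at this
    omega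
  have hiT : inn n par ⊆ T := by
    intro v hv
    rw [hT, mem_sdiff]
    exact ⟨hsub hv, fun h => (mem_sdiff.1 (hΛ h)).2 hv⟩
  have h0T : 0 ∈ T := hiT hz
  have hpin : ∀ v ∈ T, 1 ≤ v → par v ∈ inn n par := by
    intro v hv h1
    by_cases hvi : v ∈ inn n par
    · exact hin v hvi h1
    · have hvn : v < n := mem_range.1 (mem_sdiff.1 (hT ▸ hv)).1
      exact (hnin v hvn hvi).2.1
  have hfil : T.filter (fun i => 1 ≤ i ∧ par i ∈ T) = T.erase 0 := by
    ext v
    rw [mem_filter, mem_erase]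
    constructor
    · rintro ⟨h1, h2, _⟩
      exact ⟨by omega, h1⟩
    · rintro ⟨h1, h2⟩
      exact ⟨h2, by omega, hiT (hpin v h2 (by omega))⟩
  obtain ⟨V, hV⟩ : ∃ V : Finset ℕ, V = (items par T).image (val par f) := ⟨_, rfl⟩
  rw [← hV] at hJ
  have hTpos : 1 ≤ T.card := card_pos.2 ⟨0, h0T⟩
  have hVc : V.card = 2 * T.card - 1 := by
    rw [hV, card_image_of_injOn hinj, card_eq_sum_ones, balJ_items, hfil, sum_const, sum_const,
      card_erase_of_mem h0T]
    simp only [smul_eq_mul, mul_one]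
    omega
  have hVo : (V.filter (fun x => x % 2 = 1)).card = T.card := by
    rw [hV, card_filter, sum_image hinj, balJ_items, hfil, ← add_sum_erase T _ h0T, add_assoc,
      ← sum_add_distrib]
    have h1 : ∀ v ∈ T.erase 0, (if val par f (Sum.inl v) % 2 = 1 then 1 else 0) +
        (if val par f (Sum.inr v) % 2 = 1 then 1 else 0) = 1 := by
      intro v hv
      rw [mem_erase] at hv
      have h2 := hodd _ (hpin v hv.2 (by omega))
      rw [val_inl, val_inr]
      unfold dd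
      split_ifs <;> omega
    rw [sum_congr rfl h1, val_inl, if_pos (hodd 0 hz), sum_const, card_erase_of_mem h0T,
      smul_eq_mul, mul_one]
    omega
  have hVs : V ⊆ Icc 1 (2 * n - 1) := by
    intro y hy
    rw [hV] at hy
    obtain ⟨x, hx, rfl⟩ := mem_image.1 hy
    have := hval x hx
    exact mem_Icc.2 ⟨this.1, this.2.1⟩
  have hAV : Disjoint A V := by
    rw [disjoint_left]
    intro y hyA hyV
    rw [hV] at hyV
    obtain ⟨x, hx, rfl⟩ := mem_image.1 hyV
    exact (hval x hx).2.2 hyA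
  have p1 := balJ_parts hAV hA hVs (fun x => x % 2 = 1)
  have p0 := balJ_parts hAV hA hVs (fun x => x % 2 = 0)
  rw [← hJ] at p1 p0
  have hu1 := balJ_odd n
  have su := balJ_split (Icc 1 (2 * n - 1))
  rw [Nat.card_Icc] at su
  have sV := balJ_split V
  have sA := balJ_split A
  have sJ := balJ_split J
  unfold Bal at hb ⊢
  constructor
  · omega
  · omega

end SSB
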