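import Pool.Agent.Lib.MP_8a819d_co.LH.QRM
import Pool.Agent.Lib.MP_8a819d_co.AT.Defs

/-!
# MP_8a819d_co, leaf-heavy trees: the laws of the leaves

JOB LH_LawC (all of this file).

`B` = all inner vertices (numbered by `f`), `Z` = leaves at hosts in `X ⊆ B`, `V` = the values of the items of `B`, `Q = [1, N] \ (F ∪ V)`. The law of the leaf `v` with host `h = par v`, `c = f h`, is
`mu v y = g h y * g h (y - c)/Zf h` if `c < y`, `y ∈ Q`, `y - c ∈ Q`, and `0` otherwise, with `Zf h = ∑ y` of these products.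

PROOF. `bnb n par B v = {par v}` for `v ∈ Z` (`v ≥ 1`, no child), so `usv n par B Z f v x y = {y, dd (f (par v)) y}` (`par v ∈ B`, so `par v ∉ Z`), and `dd c y = y - c` for `c < y`. `Zf h ≥ Zc N (g h) c - 8 |V|`: the missing terms are those
with `y ∈ V` or `y + c ∈ V` (each term is at most `4`); `|V| ≤ 2 |B| ≤ 2 δ N` (`items_le`); `Zc N (g h) c ≥ N/300` (`kapq_le`; `250 c ≤ 249 N`, `N - |Icc 1 N \ F| ≤ |F| ≤ N/4000`). So `Zf h ≥ (1 - 4800 δ) Zc N (g h) c` and `Zf h ≥ N/400`,
`mu v y ≤ 4/Zf ≤ 1600/N`. `kr = 0` (never used, since `par v ∉ Z` for all `v ∈ Z`). `loadv ... v z = ∑ y ∈ range (N + 1), [z = y or z = y - c] mu v y ≤ mu v z + mu v (z + c) ≤ kap N (g h) z c * (Zc/Zf) ≤ (1 + τ) kap N (g h) z c` for `z ∈ Q`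
(`z = dd c y` with `mu v y ≠ 0` means `y = z + c`; `mu v z ≤ [c < z] g z g (z - c)/Zf`, `mu v (z + c) ≤ g (z + c) g z/Zf`; note `1 ≤ c` as `c` is odd). Sum over `v ∈ Z` by hosts: `#{v ∈ Z : par v = h} = l h`.
-/

set_option autoImplicit false

namespace SSB

open Finset

/-- the numerator of the law of a leaf whose host has the label `c` -/
noncomputable def lawC_t (Q' : Finset ℕ) (g : ℕ → ℝ) (c y : ℕ) : ℝ :=
  if c < y ∧ y ∈ Q' ∧ y - c ∈ Q' then g y * g (y - c) else 0

/-- the normalising constant of the law -/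
noncomputable def lawC_Z (N : ℕ) (Q' : Finset ℕ) (g : ℕ → ℝ) (c : ℕ) : ℝ :=
  ∑ y ∈ range (N + 1), lawC_t Q' g c y

theorem lawC_items_le (par : ℕ → ℕ) (W : Finset ℕ) : (items par W).card ≤ 2 * W.card := by
  unfold items
  refine (card_union_le _ _).trans ?_
  have h1 : (W.image (Sum.inl : ℕ → ℕ ⊕ ℕ)).card ≤ W.card := card_image_le
  have h2 : ((W.filter (fun i => 1 ≤ i ∧ par i ∈ W)).image (Sum.inr : ℕ → ℕ ⊕ ℕ)).card ≤ W.card :=
    card_image_le.trans (card_filter_le _ _)
  omega

theorem lawC_t_nn {Q' : Finset ℕ} {g : ℕ → ℝ} (nn : ∀ z, 0 ≤ g z) (c y : ℕ) : 0 ≤ lawC_t Q' g c y := by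
  unfold lawC_t
  split_ifs
  · exact mul_nonneg (nn _) (nn _)
  · exact le_refl _

theorem lawC_t_le {Q' : Finset ℕ} {g : ℕ → ℝ} (nn : ∀ z, 0 ≤ g z) (hi : ∀ z, g z ≤ 2) (c y : ℕ) :
    lawC_t Q' g c y ≤ 4 := by
  unfold lawC_t
  split_ifs
  · nlinarith [nn y, nn (y - c), hi y, hi (y - c), mul_nonneg (nn y) (nn (y - c))]
  · norm_num

theorem lawC_Z_ge {N : ℕ} {Q V : Finset ℕ} (hQ : Q ⊆ Icc 1 N) {g : ℕ → ℝ} (nn : ∀ z, 0 ≤ g z)
    (hi : ∀ z, g z ≤ 2) (out : ∀ z, z ∉ Q → g z = 0) (c : ℕ) :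
    Zc N g c ≤ lawC_Z N (Q \ V) g c + 8 * V.card := by
  have h1 : ∀ y ∈ range (N + 1), g y * g (y + c) ≤ lawC_t (Q \ V) g c (y + c) +
      ((if y ∈ V then (4 : ℝ) else 0) + (if y + c ∈ V then (4 : ℝ) else 0)) := by
    intro y _
    have h4 : g y * g (y + c) ≤ 4 := by
      nlinarith [nn y, nn (y + c), hi y, hi (y + c), mul_nonneg (nn y) (nn (y + c))]
    have h5 : 0 ≤ lawC_t (Q \ V) g c (y + c) := lawC_t_nn nn _ _
    by_cases hy : y ∈ V
    · rw [if_pos hy]
      split_ifs <;> linarith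
    · by_cases hyc : y + c ∈ V
      · rw [if_neg hy, if_pos hyc]
        linarith
      · rw [if_neg hy, if_neg hyc]
        by_cases hq : y ∈ Q
        · by_cases hqc : y + c ∈ Q
          · have h6 := (mem_Icc.1 (hQ hq)).1
            have h7 : lawC_t (Q \ V) g c (y + c) = g (y + c) * g y := by
              unfold lawC_t
              rw [Nat.add_sub_cancel, if_pos ⟨by omega, mem_sdiff.2 ⟨hqc, hyc⟩, mem_sdiff.2 ⟨hq, hy⟩⟩]
            rw [h7]
            linarith [mul_comm (g y) (g (y + c))]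
          · rw [out _ hqc, mul_zero]
            linarith
        · rw [out _ hq, zero_mul]
          linarith
  have h2 : ∑ y ∈ range (N + 1), lawC_t (Q \ V) g c (y + c) ≤ lawC_Z N (Q \ V) g c := by
    have h3 : ∑ y ∈ range (N + 1), lawC_t (Q \ V) g c (y + c) =
        ∑ y ∈ ((range (N + 1)).filter (fun y => y + c ∈ Q)), lawC_t (Q \ V) g c (y + c) := by
      refine (sum_subset (filter_subset _ _) fun y hy hy' => ?_).symm
      have h8 : y + c ∉ Q := fun h => hy' (mem_filter.2 ⟨hy, h⟩)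
      unfold lawC_t
      rw [if_neg]
      rintro ⟨_, h9, _⟩
      exact h8 (mem_sdiff.1 h9).1
    have h4 : ∑ y ∈ ((range (N + 1)).filter (fun y => y + c ∈ Q)), lawC_t (Q \ V) g c (y + c) =
        ∑ y ∈ ((range (N + 1)).filter (fun y => y + c ∈ Q)).image (fun y => y + c),
          lawC_t (Q \ V) g c y := by
      rw [sum_image]
      intro a _ b _ hab
      exact Nat.add_right_cancel hab
    rw [h3, h4]
    unfold lawC_Z
    refine sum_le_sum_of_subset_of_nonneg ?_ fun y _ _ => lawC_t_nn nn _ _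
    intro y hy
    obtain ⟨x, hx, rfl⟩ := mem_image.1 hy
    have h5 := (mem_Icc.1 (hQ (mem_filter.1 hx).2)).2
    exact mem_range.2 (by omega)
  have h3 : ∑ y ∈ range (N + 1), (if y ∈ V then (4 : ℝ) else 0) ≤ 4 * V.card := by
    rw [← sum_filter, sum_const, nsmul_eq_mul]
    have h4 : ((range (N + 1)).filter (fun y => y ∈ V)).card ≤ V.card :=
      card_le_card fun y hy => (mem_filter.1 hy).2
    have h5 : (((range (N + 1)).filter (fun y => y ∈ V)).card : ℝ) ≤ V.card := by exact_mod_cast h4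
    linarith
  have h4 : ∑ y ∈ range (N + 1), (if y + c ∈ V then (4 : ℝ) else 0) ≤ 4 * V.card := by
    rw [← sum_filter, sum_const, nsmul_eq_mul]
    have h4 : ((range (N + 1)).filter (fun y => y + c ∈ V)).card ≤ V.card := by
      refine card_le_card_of_injOn (fun y => y + c) ?_ ?_
      · intro y hy
        exact (mem_filter.1 (mem_coe.1 hy)).2
      · intro a _ b _ hab
        exact Nat.add_right_cancel hab
    have h5 : (((range (N + 1)).filter (fun y => y + c ∈ V)).card : ℝ) ≤ V.card := by exact_mod_cast h4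
    linarith
  unfold Zc
  refine (sum_le_sum h1).trans ?_
  rw [sum_add_distrib, sum_add_distrib]
  linarith

/-- the load of one leaf -/
theorem lawC_load {N : ℕ} {Q' : Finset ℕ} {g : ℕ → ℝ} (nn : ∀ z, 0 ≤ g z) {c : ℕ} (Zf : ℝ) (hZ : 0 < Zf)
    (U : ℕ → Finset ℕ) (hU : ∀ y, c < y → ∀ z ∈ U y, z = y ∨ z + c = y) (z : ℕ) (hz : z ≤ N) :
    ∑ y ∈ range (N + 1), (if z ∈ U y then lawC_t Q' g c y / Zf else 0) ≤
      g z * (g (z + c) + if c < z then g (z - c) else 0) / Zf := by
  have h0 : ∀ y, 0 ≤ lawC_t Q' g c y / Zf := fun y => div_nonneg (lawC_t_nn nn _ _) hZ.le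
  have h1 : ∀ y ∈ range (N + 1), (if z ∈ U y then lawC_t Q' g c y / Zf else 0) ≤
      (if z = y then lawC_t Q' g c z / Zf else 0) +
        (if z + c = y then lawC_t Q' g c (z + c) / Zf else 0) := by
    intro y _
    have h2 : 0 ≤ (if z = y then lawC_t Q' g c z / Zf else 0) := by
      split_ifs
      · exact h0 _
      · exact le_refl _
    have h3 : 0 ≤ (if z + c = y then lawC_t Q' g c (z + c) / Zf else 0) := by
      split_ifs
      · exact h0 _
      · exact le_refl _
    by_cases hzy : z ∈ U y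
    · rw [if_pos hzy]
      by_cases hcy : c < y
      · rcases hU y hcy z hzy with h | h
        · subst h
          rw [if_pos rfl]
          linarith
        · subst h
          rw [if_pos (rfl : z + c = z + c)]
          linarith
      · have h4 : lawC_t Q' g c y = 0 := by
          unfold lawC_t
          rw [if_neg]
          rintro ⟨h, _⟩
          exact hcy h
        rw [h4, zero_div]
        linarith
    · rw [if_neg hzy]
      linarith
  refine (sum_le_sum h1).trans ?_
  rw [sum_add_distrib, sum_ite_eq, if_pos (mem_range.2 (by omega))]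
  have h5 : ∑ y ∈ range (N + 1), (if z + c = y then lawC_t Q' g c (z + c) / Zf else 0) ≤
      lawC_t Q' g c (z + c) / Zf := by
    rw [sum_ite_eq]
    split_ifs
    · exact le_refl _
    · exact h0 _
  have h6 : lawC_t Q' g c z ≤ g z * (if c < z then g (z - c) else 0) := by
    unfold lawC_t
    by_cases h : c < z
    · rw [if_pos h]
      split_ifs
      · exact le_refl _
      · exact mul_nonneg (nn _) (nn _)
    · rw [if_neg h, mul_zero, if_neg]
      rintro ⟨h7, _⟩
      exact h h7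
  have h7 : lawC_t Q' g c (z + c) ≤ g z * g (z + c) := by
    unfold lawC_t
    rw [Nat.add_sub_cancel]
    split_ifs
    · rw [mul_comm]
    · exact mul_nonneg (nn _) (nn _)
  refine (add_le_add_right h5 _).trans ?_
  rw [← add_div]
  refine div_le_div_of_nonneg_right ?_ hZ.le
  rw [mul_add]
  linarith

theorem lawC (τ : ℝ) (hτ : 0 < τ) : ∃ δ : ℝ, 0 < δ ∧ ∃ N₀ : ℕ, ∀ N : ℕ, N₀ ≤ N →
    ∀ (n : ℕ) (par : ℕ → ℕ) (B X Z F : Finset ℕ) (f l : ℕ → ℕ) (g : ℕ → ℕ → ℝ), IsPar n par →
    B ⊆ range n → X ⊆ B → Z ⊆ range n → Disjoint B Z →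
    (∀ v ∈ Z, 1 ≤ v ∧ par v ∈ X ∧ chs n par v = ∅) → F ⊆ Icc 1 N → 4000 * F.card ≤ N →
    (B.card : ℝ) ≤ δ * N → (∀ h ∈ X, OkM N (f h)) → (∀ h ∈ X, Wgt (Icc 1 N \ F) (g h)) →
    (∀ h ∈ X, l h = (Z.filter (fun v => par v = h)).card) →
    ∃ (mu : ℕ → ℕ → ℝ) (kr : ℕ → ℕ → ℕ → ℝ),
      LawV n N par B Z (Icc 1 N \ (F ∪ (items par B).image (val par f))) f 1600 mu kr ∧
      ∀ z ∈ Icc 1 N \ (F ∪ (items par B).image (val par f)),
        ∑ v ∈ Z, loadv n N par B Z f mu kr v z ≤
          (1 + τ) * ∑ h ∈ X, (l h : ℝ) * kap N (g h) z (f h) := by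
  have hτ1 : 0 < 1 + τ := by linarith
  have h4800 : 0 < 4800 * (1 + τ) := by positivity
  refine ⟨min (1 / 19200) (τ / (4800 * (1 + τ))), lt_min (by norm_num) (div_pos hτ h4800), 1, ?_⟩
  intro N hN n par B X Z F f l g hpar hB hXB hZn hBZ hZ hF hFc hBc hOk hW hl
  obtain ⟨δ, hδ⟩ : ∃ δ : ℝ, δ = min (1 / 19200) (τ / (4800 * (1 + τ))) := ⟨_, rfl⟩
  rw [← hδ] at hBc
  have hδ1 : δ ≤ 1 / 19200 := hδ ▸ min_le_left _ _
  have hδ2 : δ ≤ τ / (4800 * (1 + τ)) := hδ ▸ min_le_right _ _
  have hNr : (1 : ℝ) ≤ N := by exact_mod_cast hN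
  have hN0 : (0 : ℝ) < N := by linarith
  obtain ⟨V, hV⟩ : ∃ V, V = (items par B).image (val par f) := ⟨_, rfl⟩
  obtain ⟨Q, hQ⟩ : ∃ Q, Q = Icc 1 N \ F := ⟨_, rfl⟩
  have hQI : Q ⊆ Icc 1 N := hQ ▸ sdiff_subset
  have hQ' : Icc 1 N \ (F ∪ (items par B).image (val par f)) = Q \ V := by
    rw [hQ, hV, sdiff_sdiff_left, sup_eq_union]
  have hVc : (V.card : ℝ) ≤ 2 * (δ * N) := by
    have h1 : V.card ≤ 2 * B.card := hV ▸ card_image_le.trans (lawC_items_le par B)
    have h2 : (V.card : ℝ) ≤ 2 * B.card := by exact_mod_cast h1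
    linarith
  have hQc : N - Q.card = F.card := by
    have h1 : Q.card = N - F.card := by
      rw [hQ, card_sdiff_of_subset hF, Nat.card_Icc]
      omega
    have h2 : F.card ≤ N := by
      have := card_le_card hF
      rw [Nat.card_Icc] at this
      omega
    omega
  rw [hQ']
  -- the normalising constants
  have key : ∀ h ∈ X, (N : ℝ) / 400 ≤ lawC_Z N (Q \ V) (g h) (f h) ∧
      Zc N (g h) (f h) ≤ (1 + τ) * lawC_Z N (Q \ V) (g h) (f h) := by
    intro h hh
    have hw := hW h hh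
    rw [← hQ] at hw
    have h1 := lawC_Z_ge (V := V) hQI hw.nn hw.hi hw.out (f h)
    have h2 : (N : ℝ) / 300 ≤ Zc N (g h) (f h) := by
      refine (kapq_le hQI hw.nn hw.hi hw.lo 0 (f h) ?_ hN).2
      rw [hQc]
      have h3 : (4000 : ℝ) * F.card ≤ N := by exact_mod_cast hFc
      have h4 : (250 : ℝ) * f h ≤ 249 * N := by exact_mod_cast (hOk h hh).2
      linarith
    have h3 : (16 : ℝ) * (δ * N) ≤ N / 1200 := by nlinarith
    refine ⟨by linarith, ?_⟩
    have h4 : 4800 * (1 + τ) * δ ≤ τ := by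
      have := mul_le_mul_of_nonneg_left hδ2 h4800.le
      rwa [mul_div_cancel₀ _ h4800.ne'] at this
    -- `(1 + τ) (Zc - 16 δ N) ≥ Zc`
    have h5 : (1 + τ) * (16 * (δ * N)) ≤ τ * Zc N (g h) (f h) := by
      have h6 : (1 + τ) * (16 * (δ * N)) = (4800 * (1 + τ) * δ) * (N / 300) := by ring
      rw [h6]
      exact mul_le_mul h4 h2 (by positivity) hτ.le
    have h7 : Zc N (g h) (f h) - 16 * (δ * N) ≤ lawC_Z N (Q \ V) (g h) (f h) := by linarith
    have h8 := mul_le_mul_of_nonneg_left h7 hτ1.le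
    nlinarith
  have hpX : ∀ v ∈ Z, par v ∈ X := fun v hv => (hZ v hv).2.1
  have hpZ : ∀ v ∈ Z, par v ∉ Z := fun v hv h => disjoint_left.1 hBZ (hXB (hpX v hv)) h
  have hbnb : ∀ v ∈ Z, bnb n par B v = {par v} := by
    intro v hv
    obtain ⟨h1, h2, h3⟩ := hZ v hv
    ext b
    unfold bnb
    rw [mem_filter, mem_singleton]
    constructor
    · rintro ⟨_, (⟨_, _, h4⟩ | ⟨h4, h5, h6⟩)⟩
      · exact h4.symm
      · exfalso
        have h7 : b ∈ chs n par v := mem_chs.2 ⟨h5, h4, h6⟩
        rw [h3] at h7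
        exact notMem_empty _ h7
    · rintro rfl
      exact ⟨hXB h2, Or.inl ⟨h1, mem_range.1 (hZn hv), rfl⟩⟩
  have husv : ∀ v ∈ Z, ∀ y, usv n par B Z f v 0 y = {y, dd (f (par v)) y} := by
    intro v hv y
    unfold usv
    rw [hbnb v hv, if_neg (hpZ v hv), image_singleton, union_empty]
  refine ⟨fun v y => lawC_t (Q \ V) (g (par v)) (f (par v)) y / lawC_Z N (Q \ V) (g (par v)) (f (par v)),
    fun _ _ _ => 0, ?_, ?_⟩
  · constructor
    · intro v hv y
      have hw := hW _ (hpX v hv)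
      exact div_nonneg (lawC_t_nn hw.nn _ _) ((by positivity : (0 : ℝ) ≤ N / 400).trans (key _ (hpX v hv)).1)
    · intro v hv y
      have hw := hW _ (hpX v hv)
      have h1 := (key _ (hpX v hv)).1
      have h2 : 0 < lawC_Z N (Q \ V) (g (par v)) (f (par v)) :=
        lt_of_lt_of_le (by positivity) h1
      rw [div_le_div_iff₀ h2 hN0]
      have h3 := lawC_t_le (Q' := Q \ V) hw.nn hw.hi (f (par v)) y
      nlinarith
    · intro v hv
      have h1 := (key _ (hpX v hv)).1
      have h2 : 0 < lawC_Z N (Q \ V) (g (par v)) (f (par v)) :=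
        lt_of_lt_of_le (by positivity) h1
      rw [← sum_div]
      exact div_self h2.ne'
    · intro v hv h
      exact absurd h (hpZ v hv)
    · intro v hv h
      exact absurd h (hpZ v hv)
    · intro v hv h
      exact absurd h (hpZ v hv)
    · intro v hv h
      exact absurd h (hpZ v hv)
    · intro v hv _ y _ hy
      rw [husv v hv y]
      have h1 : lawC_t (Q \ V) (g (par v)) (f (par v)) y ≠ 0 := by
        intro h
        apply hy
        show lawC_t (Q \ V) (g (par v)) (f (par v)) y / _ = 0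
        rw [h, zero_div]
      have h2 : f (par v) < y ∧ y ∈ Q \ V ∧ y - f (par v) ∈ Q \ V := by
        by_contra h
        apply h1
        unfold lawC_t
        rw [if_neg h]
      intro z hz
      rcases mem_insert.1 hz with rfl | hz
      · exact h2.2.1
      · rw [mem_singleton] at hz
        have h3 : z = y - f (par v) := by
          rw [hz]
          unfold dd
          omega
        rw [h3]
        exact h2.2.2
    · intro v hv h
      exact absurd h (hpZ v hv)
  · intro z hz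
    have hzN : z ≤ N := (mem_Icc.1 (hQI (mem_sdiff.1 hz).1)).2
    have h1 : ∀ v ∈ Z, loadv n N par B Z f (fun v y => lawC_t (Q \ V) (g (par v)) (f (par v)) y /
        lawC_Z N (Q \ V) (g (par v)) (f (par v))) (fun _ _ _ => 0) v z ≤
        (1 + τ) * kap N (g (par v)) z (f (par v)) := by
      intro v hv
      have hw := hW _ (hpX v hv)
      have hk := key _ (hpX v hv)
      have h2 : 0 < lawC_Z N (Q \ V) (g (par v)) (f (par v)) :=
        lt_of_lt_of_le (by positivity) hk.1
      unfold loadv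
      rw [if_neg (hpZ v hv)]
      refine (lawC_load hw.nn _ h2 (fun y => usv n par B Z f v 0 y) ?_ z hzN).trans ?_
      · intro y hy z hz
        rw [husv v hv y] at hz
        rcases mem_insert.1 hz with rfl | hz
        · exact Or.inl rfl
        · rw [mem_singleton] at hz
          right
          rw [hz]
          unfold dd
          omega
      · unfold kap
        rw [← mul_div_assoc]
        have h3 : 0 ≤ g (par v) z * (g (par v) (z + f (par v)) +
            if f (par v) < z then g (par v) (z - f (par v)) else 0) := by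
          refine mul_nonneg (hw.nn _) (add_nonneg (hw.nn _) ?_)
          split_ifs
          · exact hw.nn _
          · exact le_refl _
        have h4 : 0 < Zc N (g (par v)) (f (par v)) := by
          have hw' := hw
          rw [← hQ] at hw'
          have h5 : (N : ℝ) / 300 ≤ Zc N (g (par v)) (f (par v)) := by
            refine (kapq_le hQI hw'.nn hw'.hi hw'.lo 0 (f (par v)) ?_ hN).2
            rw [hQc]
            have h3 : (4000 : ℝ) * F.card ≤ N := by exact_mod_cast hFc
            have h4 : (250 : ℝ) * f (par v) ≤ 249 * N := by exact_mod_cast (hOk _ (hpX v hv)).2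
            linarith
          exact lt_of_lt_of_le (by positivity) h5
        rw [div_le_div_iff₀ h2 h4]
        have h5 := mul_le_mul_of_nonneg_left hk.2 h3
        linarith
    refine (sum_le_sum h1).trans ?_
    rw [← mul_sum]
    refine mul_le_mul_of_nonneg_left ?_ hτ1.le
    rw [← sum_fiberwise_of_maps_to (g := par) (t := X) hpX]
    refine sum_le_sum fun h hh => ?_
    rw [hl h hh]
    have h2 : ∑ v ∈ Z.filter (fun v => par v = h), kap N (g (par v)) z (f (par v)) =
        ∑ v ∈ Z.filter (fun v => par v = h), kap N (g h) z (f h) :=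
      sum_congr rfl fun v hv => by rw [(mem_filter.1 hv).2]
    rw [h2, sum_const, nsmul_eq_mul]

end SSB
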