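import Pool.Agent.Lib.MP_8a819d_co.LH.QRSt

/-!
# MP_8a819d_co, leaf-heavy trees: quasi-random numbering of the hosts of the absorber

`W₀` is numbered by `f₀`, `X` is numbered in increasing order, the label of `v ∈ X` is chosen among `LS v f ⊆ O` (QRSt.lean) with the uniform law. `a j`, `j < m`: weight vectors on `X` (sum `1`, values at most `N^(-1/30)`). `ψ i`, `i < N^5`: arbitrary bounded test functions.

JOB LH_QRSb: `qrs_path`. JOB LH_QRSc: `qrs_nb`, `qrs`.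

PROOF of `qrs_path`. We may assume `κ ≤ 1`. `δ` and `N₀` at least as in `LS_card (1/2)`, so `|LS v f| ≥ |O|/2 ≥ N/64`. `qrT` with `Ok = (· ∈ O)`, `L = LS`, `p v f c = 1/|LS v f|`, and the following tests (`ω = N^(-1/30)`; every test for every `j < m`; take e.g. `ι = ℕ × ℕ × ℕ`: `j`, `i` or `x`, type):
(A) for `i < N^5` and both signs: `ξ v f c = ± a j v * (ψ i c - (∑ c' ∈ LS v f, ψ i c')/|LS v f|)`; `|ξ| ≤ 2 a j v ≤ 2 ω`, mean `0` (`e = 0`), second moment `≤ 4 ω a j v` (`= V`), the sum of the `V` is `4 ω`.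
(C) for `x ∈ [1, N]`, `s ∈ {1, -1, 2, -2}`: `ξ v f c = xiC n par W₀ X (a j) x s v f c`: `0 ≤ ξ ≤ 4 ω` (`xiC_le`), mean at most `(64/N) (a j v (2 |W₀ ∪ X| + 5) + 5) =: e v` (`xiC_mean`), `∑ v ∈ X, e v ≤ (64/N)(2 δ N + 5 + 5 |X|) ≤ (64/N)(7 δ N + 5) ≤ κ/2` for small `δ` and
large `N`; `V = 4 ω e`. Locality: `xiC_loc`, `LS_loc`.
`b = 4 ω`, `V₀ = 8 ω`, `τ = N^(3/200)/4`: `τ b = N^(3/200 - 1/30) ≤ 1`; the number of tests is at most `m (2 N^5 + 4 N) ≤ 6 m N^5`; `(log (6 m N^5) + τ² V₀)/τ = 4 log (6 m N^5) N^(-3/200) + 2 N^(3/200 - 1/30) ≤ min (N^(-1/80)) (κ/2)` for large `N` (as `3/200 > 1/80` and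
`1/30 - 3/200 = 11/600 > 1/80`; `isLittleO_log_rpow_atTop` or similar; for `m = 0` take any path, e.g. with the empty set of tests). At the end `xiC_sum` gives the last claim from (C) (`κ/2 + κ/2 = κ`).

PROOF of `qrs_nb`. `LS_card κ'` with `κ' = min (1/2) (κ^2/16)`-ish small, so that `1/(1 - κ') ≤ 1 + κ`. `nb d = ∑ v ∈ X, a v * [d ∈ LS v f]/|LS v f|`. `nb d ≤ 1/((1 - κ') |O|)`. If `nb d * |O| < 1 - κ` for a `d ∈ O`, then the weight of the `v` with `d ∉ LS v f` is at least `κ` (as `|LS v f| ≤ |O|`). The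
sum over the `d ∈ O` of the weight of `{v : d ∉ LS v f}` is `∑ v, a v |O \ LS v f| ≤ κ' |O|`, so there are at most `(κ'/κ) |O| ≤ κ N` such `d` (`|O| ≤ N`).
PROOF of `qrs`. `qrs_path`, `qrs_nb` (with the weights `a j`); `∑ d ∈ O, nb d * ψ i d = ∑ v ∈ X, a j v (∑ c ∈ LS v f, ψ i c)/|LS v f|`.
-/

set_option autoImplicit false

namespace SSB

open Finset

/-- the asymptotic estimate used in `qrs_path` -/
private theorem qrsb_asym (m : ℕ) (κ : ℝ) (hκ : 0 < κ) : ∃ N₁ : ℕ, 1 ≤ N₁ ∧ ∀ N : ℕ, N₁ ≤ N →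
    (Real.log (6 * (m + 1) * (N : ℝ) ^ 5) + ((N : ℝ) ^ (3 / 200 : ℝ) / 4) ^ 2 *
      (8 * (N : ℝ) ^ (-(1 / 30) : ℝ))) / ((N : ℝ) ^ (3 / 200 : ℝ) / 4) ≤ (N : ℝ) ^ (-(1 / 80) : ℝ) ∧
    (N : ℝ) ^ (-(1 / 80) : ℝ) ≤ κ / 2 := by
  have t1 : Filter.Tendsto (fun x : ℝ => Real.log x / x ^ (1 / 400 : ℝ)) Filter.atTop (nhds 0) :=
    (isLittleO_log_rpow_atTop (by norm_num)).tendsto_div_nhds_zero
  have t2 : Filter.Tendsto (fun x : ℝ => x ^ (-(1 / 400) : ℝ)) Filter.atTop (nhds 0) :=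
    tendsto_rpow_neg_atTop (by norm_num)
  have t3 : Filter.Tendsto (fun x : ℝ => x ^ (-(1 / 80) : ℝ)) Filter.atTop (nhds 0) :=
    tendsto_rpow_neg_atTop (by norm_num)
  have t5 : Filter.Tendsto (fun x : ℝ => x ^ (-(7 / 1200) : ℝ)) Filter.atTop (nhds 0) :=
    tendsto_rpow_neg_atTop (by norm_num)
  have t4 : Filter.Tendsto (fun x : ℝ => 4 * Real.log (6 * (m + 1)) * x ^ (-(1 / 400) : ℝ) +
      20 * (Real.log x / x ^ (1 / 400 : ℝ)) + 2 * x ^ (-(7 / 1200) : ℝ)) Filter.atTop (nhds 0) := by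
    have := ((t2.const_mul (4 * Real.log (6 * (m + 1)))).add (t1.const_mul 20)).add (t5.const_mul 2)
    simpa using this
  have e1 := (tendsto_natCast_atTop_atTop (R := ℝ)).eventually (t4.eventually (gt_mem_nhds one_pos))
  have e2 := (tendsto_natCast_atTop_atTop (R := ℝ)).eventually
    (t3.eventually (gt_mem_nhds (half_pos hκ)))
  obtain ⟨N₁, hN₁⟩ := Filter.eventually_atTop.1 (e1.and e2)
  refine ⟨max N₁ 1, le_max_right _ _, fun N hN => ?_⟩
  obtain ⟨h1, h2⟩ := hN₁ N ((le_max_left _ _).trans hN)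
  refine ⟨?_, h2.le⟩
  have hNpos : (0 : ℝ) < N := by
    have : 1 ≤ N := (le_max_right _ _).trans hN
    exact_mod_cast this
  set x : ℝ := (N : ℝ) with hx
  have hlog : Real.log (6 * (m + 1) * x ^ 5) = Real.log (6 * (m + 1)) + 5 * Real.log x := by
    rw [Real.log_mul (by positivity) (by positivity), Real.log_pow]
    norm_num
  have p1 : 0 < x ^ (3 / 200 : ℝ) := Real.rpow_pos_of_pos hNpos _
  have p2 : 0 < x ^ (1 / 80 : ℝ) := Real.rpow_pos_of_pos hNpos _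
  have p3 : 0 < x ^ (1 / 400 : ℝ) := Real.rpow_pos_of_pos hNpos _
  have q1 : x ^ (3 / 200 : ℝ) = x ^ (1 / 80 : ℝ) * x ^ (1 / 400 : ℝ) := by
    rw [← Real.rpow_add hNpos]; norm_num
  have q2 : x ^ (-(1 / 30) : ℝ) = (x ^ (3 / 200 : ℝ))⁻¹ * (x ^ (1 / 80 : ℝ))⁻¹ * (x ^ (7 / 1200 : ℝ))⁻¹ := by
    rw [← Real.rpow_neg hNpos.le, ← Real.rpow_neg hNpos.le, ← Real.rpow_neg hNpos.le, ← Real.rpow_add hNpos,
      ← Real.rpow_add hNpos]
    norm_num
  have q3 : x ^ (-(1 / 80) : ℝ) = (x ^ (1 / 80 : ℝ))⁻¹ := Real.rpow_neg hNpos.le _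
  have q5 : x ^ (-(7 / 1200) : ℝ) = (x ^ (7 / 1200 : ℝ))⁻¹ := Real.rpow_neg hNpos.le _
  have p5 : 0 < x ^ (7 / 1200 : ℝ) := Real.rpow_pos_of_pos hNpos _
  have q4 : x ^ (-(1 / 400) : ℝ) = (x ^ (1 / 400 : ℝ))⁻¹ := Real.rpow_neg hNpos.le _
  have key : (Real.log (6 * (m + 1) * x ^ 5) + (x ^ (3 / 200 : ℝ) / 4) ^ 2 *
      (8 * x ^ (-(1 / 30) : ℝ))) / (x ^ (3 / 200 : ℝ) / 4) =
      (4 * Real.log (6 * (m + 1)) * x ^ (-(1 / 400) : ℝ) +
      20 * (Real.log x / x ^ (1 / 400 : ℝ)) + 2 * x ^ (-(7 / 1200) : ℝ)) * x ^ (-(1 / 80) : ℝ) := by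
    rw [hlog, q2, q3, q4, q5, q1]
    generalize x ^ (1 / 80 : ℝ) = u at *
    generalize x ^ (1 / 400 : ℝ) = w at *
    generalize x ^ (7 / 1200 : ℝ) = z at *
    field_simp
    ring
  rw [key]
  have p4 : 0 < x ^ (-(1 / 80) : ℝ) := Real.rpow_pos_of_pos hNpos _
  calc _ ≤ 1 * x ^ (-(1 / 80) : ℝ) := mul_le_mul_of_nonneg_right h1.le p4.le
    _ = _ := one_mul _

private noncomputable def qrsbXi (n : ℕ) (par : ℕ → ℕ) (W₀ X F O : Finset ℕ) (a : ℕ → ℕ → ℝ)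
    (ψ : ℕ → ℕ → ℝ) : ((ℕ × ℕ × ℤ) ⊕ (ℕ × ℕ × ℤ)) → ℕ → (ℕ → ℕ) → ℕ → ℝ
  | Sum.inl i => fun v f c => (i.2.2 : ℝ) * (a i.1 v * (ψ i.2.1 c -
      (∑ c' ∈ LS n par W₀ X F O v f, ψ i.2.1 c') / (LS n par W₀ X F O v f).card))
  | Sum.inr i => fun v f c => xiC n par W₀ X (a i.1) i.2.1 i.2.2 v f c

private noncomputable def qrsbE (N : ℕ) (W₀ X : Finset ℕ) (a : ℕ → ℕ → ℝ) :
    ((ℕ × ℕ × ℤ) ⊕ (ℕ × ℕ × ℤ)) → ℕ → ℝ
  | Sum.inl _ => fun _ => 0
  | Sum.inr i => fun v => 64 / (N : ℝ) * (a i.1 v * (2 * (W₀ ∪ X).card + 5) + 5)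

private noncomputable def qrsbV (N : ℕ) (W₀ X : Finset ℕ) (a : ℕ → ℕ → ℝ) (ω : ℝ) :
    ((ℕ × ℕ × ℤ) ⊕ (ℕ × ℕ × ℤ)) → ℕ → ℝ
  | Sum.inl i => fun v => 4 * ω * a i.1 v
  | Sum.inr i => fun v => 4 * ω * (64 / (N : ℝ) * (a i.1 v * (2 * (W₀ ∪ X).card + 5) + 5))

theorem qrs_path (m : ℕ) (κ : ℝ) (hκ : 0 < κ) : ∃ δ : ℝ, 0 < δ ∧ ∃ N₀ : ℕ, ∀ N : ℕ, N₀ ≤ N →
    ∀ (n : ℕ) (par : ℕ → ℕ) (W₀ X F O : Finset ℕ) (f₀ : ℕ → ℕ), HypS δ n N par W₀ X F O f₀ →
    ∀ a : ℕ → ℕ → ℝ, (∀ j < m, (∀ u ∈ X, 0 ≤ a j u ∧ a j u ≤ (N : ℝ) ^ (-(1 / 30) : ℝ)) ∧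
      ∑ u ∈ X, a j u = 1) →
    ∀ ψ : ℕ → ℕ → ℝ, (∀ i < N ^ 5, ∀ c, |ψ i c| ≤ 1) →
    ∃ f : ℕ → ℕ, InvN N par W₀ X F f₀ (· ∈ O) n f ∧
      (∀ v ∈ X, InvN N par W₀ X F f₀ (· ∈ O) v f ∧ f v ∈ LS n par W₀ X F O v f) ∧
      ∀ j < m,
      (∀ i < N ^ 5, |∑ v ∈ X, a j v * (ψ i (f v) - (∑ c ∈ LS n par W₀ X F O v f, ψ i c) /
            (LS n par W₀ X F O v f).card)| ≤ (N : ℝ) ^ (-(1 / 80) : ℝ)) ∧
      (∀ x ∈ Icc 1 N, x ∉ (W₀ ∪ X).image f → ∀ s : ℤ, s = 1 ∨ s = -1 ∨ s = 2 ∨ s = -2 →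
        ∑ u ∈ X.filter (fun u => (x : ℤ) + s * f u ∈ zset (vls par W₀ X n f)), a j u ≤ κ) := by
  obtain ⟨δ₁, hδ₁, N₁, hLS⟩ := LS_card (1 / 2) (by norm_num)
  set κ₁ : ℝ := min κ 1 with hκ₁
  have hκ₁0 : 0 < κ₁ := lt_min hκ one_pos
  have hκ₁1 : κ₁ ≤ 1 := min_le_right _ _
  have hκ₁κ : κ₁ ≤ κ := min_le_left _ _
  obtain ⟨N₂, hN₂1, hN₂⟩ := qrsb_asym m κ₁ hκ₁0
  refine ⟨min δ₁ (κ₁ / 1792), lt_min hδ₁ (by positivity), max (max N₁ N₂) ⌈1280 / κ₁⌉₊, ?_⟩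
  intro N hN n par W₀ X F O f₀ H a ha ψ hψ
  have hNN₁ : N₁ ≤ N := (le_max_left _ _).trans ((le_max_left _ _).trans hN)
  have hNN₂ : N₂ ≤ N := (le_max_right _ _).trans ((le_max_left _ _).trans hN)
  have hN3 : 1280 / κ₁ ≤ (N : ℝ) := (Nat.le_ceil _).trans (by exact_mod_cast (le_max_right _ _).trans hN)
  have hN1 : 1 ≤ N := hN₂1.trans hNN₂
  have hNpos : (0 : ℝ) < N := by exact_mod_cast hN1
  set δ : ℝ := min δ₁ (κ₁ / 1792) with hδ
  have hδδ₁ : δ ≤ δ₁ := min_le_left _ _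
  have hδκ : δ ≤ κ₁ / 1792 := min_le_right _ _
  have H₁ : HypS δ₁ n N par W₀ X F O f₀ :=
    { isP := H.isP, Wsub := H.Wsub, Xsub := H.Xsub, WX := H.WX, inj := H.inj, rng := H.rng,
      ch := H.ch, c1 := H.c1.trans (mul_le_mul_of_nonneg_right hδδ₁ hNpos.le),
      c2 := H.c2.trans (mul_le_mul_of_nonneg_right hδδ₁ hNpos.le), Oodd := H.Oodd,
      Ocard := H.Ocard }
  -- the sizes of the lists
  have hLcard : ∀ v ∈ X, ∀ f : ℕ → ℕ, InvN N par W₀ X F f₀ (· ∈ O) v f →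
      (N : ℝ) / 64 ≤ ((LS n par W₀ X F O v f).card : ℝ) := by
    intro v hv f hf
    have h1 := (hLS N hNN₁ n par W₀ X F O f₀ H₁ v hv f hf).1
    have h2 : (N : ℝ) ≤ 32 * (O.card : ℝ) := by exact_mod_cast H.Ocard
    linarith
  set ω : ℝ := (N : ℝ) ^ (-(1 / 30) : ℝ) with hω
  have hω0 : 0 < ω := Real.rpow_pos_of_pos hNpos _
  set S4 : Finset ℤ := {1, -1, 2, -2} with hS4
  have hS4m : ∀ s : ℤ, s ∈ S4 ↔ s = 1 ∨ s = -1 ∨ s = 2 ∨ s = -2 := by
    intro s; simp [hS4]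
  set S2 : Finset ℤ := {1, -1} with hS2
  have hS2m : ∀ s : ℤ, s ∈ S2 ↔ s = 1 ∨ s = -1 := by
    intro s; simp [hS2]
  set I : Finset ((ℕ × ℕ × ℤ) ⊕ (ℕ × ℕ × ℤ)) :=
    (range m ×ˢ (range (N ^ 5) ×ˢ S2)).disjSum (range m ×ˢ (Icc 1 N ×ˢ S4)) with hI
  have hIcard : (I.card : ℝ) ≤ 6 * (m + 1) * (N : ℝ) ^ 5 := by
    have h1 : I.card = m * (N ^ 5 * 2) + m * (N * 4) := by
      rw [hI, card_disjSum, card_product, card_product, card_product, card_product]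
      simp [hS4, hS2]
    rw [h1]
    push_cast
    have h2 : (N : ℝ) ≤ (N : ℝ) ^ 5 := by
      have : (1 : ℝ) ≤ N := by exact_mod_cast hN1
      calc (N : ℝ) = (N : ℝ) ^ 1 := (pow_one _).symm
        _ ≤ (N : ℝ) ^ 5 := pow_le_pow_right₀ this (by norm_num)
    have h3 : (0 : ℝ) ≤ m := Nat.cast_nonneg _
    have h4 : (0 : ℝ) ≤ (N : ℝ) ^ 5 := by positivity
    nlinarith [mul_le_mul_of_nonneg_left h2 h3]
  have hlogI : Real.log I.card ≤ Real.log (6 * (m + 1) * (N : ℝ) ^ 5) := by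
    rcases Nat.eq_zero_or_pos I.card with h0 | h0
    · rw [h0]
      simp only [Nat.cast_zero, Real.log_zero]
      apply Real.log_nonneg
      have h1 : (1 : ℝ) ≤ (N : ℝ) ^ 5 := one_le_pow₀ (by exact_mod_cast hN1)
      have h3 : (0 : ℝ) ≤ m := Nat.cast_nonneg _
      nlinarith
    · exact Real.log_le_log (by exact_mod_cast h0) hIcard
  -- the means
  have hsumE : ∀ i : ℕ × ℕ × ℤ, i.1 < m →
      ∑ v ∈ X, (64 / (N : ℝ) * (a i.1 v * (2 * (W₀ ∪ X).card + 5) + 5)) ≤ κ₁ / 2 := by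
    intro i hi
    have h1 := (ha i.1 hi).2
    have h2 : ∑ v ∈ X, (64 / (N : ℝ) * (a i.1 v * (2 * (W₀ ∪ X).card + 5) + 5)) =
        64 / (N : ℝ) * ((2 * (W₀ ∪ X).card + 5) + 5 * X.card) := by
      rw [← mul_sum, sum_add_distrib, ← sum_mul, h1, one_mul, sum_const, nsmul_eq_mul]
      ring
    rw [h2]
    have h3 : ((W₀ ∪ X).card : ℝ) ≤ κ₁ / 1792 * N :=
      H.c1.trans (mul_le_mul_of_nonneg_right hδκ hNpos.le)
    have h4 : (X.card : ℝ) ≤ ((W₀ ∪ X).card : ℝ) := by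
      exact_mod_cast card_le_card subset_union_right
    have h5 : 64 / (N : ℝ) * ((2 * (W₀ ∪ X).card + 5) + 5 * X.card) ≤
        64 / (N : ℝ) * (7 * (κ₁ / 1792 * N) + 5) := by
      apply mul_le_mul_of_nonneg_left _ (by positivity)
      linarith
    refine h5.trans ?_
    have h6 : 64 / (N : ℝ) * (7 * (κ₁ / 1792 * N) + 5) = κ₁ / 4 + 320 / N := by
      field_simp
      ring
    rw [h6]
    have h7 : 320 / (N : ℝ) ≤ κ₁ / 4 := by
      rw [div_le_iff₀ hκ₁0] at hN3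
      rw [div_le_iff₀ hNpos]
      linarith
    linarith
  have hτ0 : 0 < (N : ℝ) ^ (3 / 200 : ℝ) / 4 := by positivity
  have hτb : (N : ℝ) ^ (3 / 200 : ℝ) / 4 * (4 * ω) ≤ 1 := by
    have e1 : (N : ℝ) ^ (3 / 200 : ℝ) / 4 * (4 * ω) = (N : ℝ) ^ (-(11 / 600) : ℝ) := by
      have : (N : ℝ) ^ (3 / 200 : ℝ) / 4 * (4 * ω) = (N : ℝ) ^ (3 / 200 : ℝ) * ω := by ring
      rw [this, hω, ← Real.rpow_add hNpos]
      norm_num
    rw [e1]
    exact Real.rpow_le_one_of_one_le_of_nonpos (by exact_mod_cast hN1) (by norm_num)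
  obtain ⟨f, hf1, hf2, hf3⟩ := qrT (N := N) (F := F) (f₀ := f₀) (Ok := (· ∈ O)) H.isP H.Wsub
    H.Xsub H.WX H.inj H.rng I (qrsbXi n par W₀ X F O a ψ)
    (by
      intro i _ v _ f f' hff c
      rcases i with i | i
      · simp only [qrsbXi]
        rw [(LS_loc hff).2]
      · simp only [qrsbXi]
        exact xiC_loc hff c)
    (qrsbE N W₀ X a) (qrsbV N W₀ X a ω) (4 * ω) ((N : ℝ) ^ (3 / 200 : ℝ) / 4) (8 * ω)
    (by positivity) hτ0 hτb
    (by
      intro i hi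
      rcases i with i | i
      · rw [hI, inl_mem_disjSum, mem_product, mem_range] at hi
        simp only [qrsbV]
        rw [← mul_sum, (ha i.1 hi.1).2]
        linarith
      · rw [hI, inr_mem_disjSum, mem_product, mem_range] at hi
        simp only [qrsbV]
        rw [← mul_sum]
        have := hsumE i hi.1
        nlinarith)
    (LS n par W₀ X F O) (fun v f _ => ((LS n par W₀ X F O v f).card : ℝ)⁻¹)
    (by
      intro v _ f f' hff
      exact (LS_loc hff).2)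
    (by
      intro v hv f hf
      have hLc := hLcard v hv f hf
      set L := LS n par W₀ X F O v f with hL
      have hLpos : (0 : ℝ) < L.card := lt_of_lt_of_le (by positivity) hLc
      have hLinv : (0 : ℝ) ≤ (L.card : ℝ)⁻¹ := by positivity
      have hLinv2 : (L.card : ℝ)⁻¹ ≤ 64 / N := by
        rw [inv_le_comm₀ hLpos (by positivity)]
        have : (64 / (N : ℝ))⁻¹ = N / 64 := by field_simp
        rw [this]
        exact hLc
      have hmemL : ∀ c ∈ L, c ∈ O ∧ okc n par (Wt W₀ X v) f (F ∪ vls par W₀ X v f) v c := by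
        intro c hc
        rw [hL] at hc
        unfold LS at hc
        exact mem_filter.1 hc
      have hone : ∀ c ∈ L, 1 ≤ c := by
        intro c hc
        have := (H.Oodd c (hmemL c hc).1).1
        omega
      -- test functions
      have hψabs : ∀ i < N ^ 5, ∀ c, |ψ i c - (∑ c' ∈ L, ψ i c') / L.card| ≤ 2 := by
        intro i hi c
        have h1 : |(∑ c' ∈ L, ψ i c') / L.card| ≤ 1 := by
          rw [abs_div, Nat.abs_cast, div_le_one hLpos]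
          calc |∑ c' ∈ L, ψ i c'| ≤ ∑ c' ∈ L, |ψ i c'| := abs_sum_le_sum_abs _ _
            _ ≤ ∑ c' ∈ L, (1 : ℝ) := sum_le_sum fun c' _ => hψ i hi c'
            _ = L.card := by rw [sum_const, nsmul_eq_mul, mul_one]
        have h2 := hψ i hi c
        calc |ψ i c - (∑ c' ∈ L, ψ i c') / L.card| ≤ |ψ i c| + |(∑ c' ∈ L, ψ i c') / L.card| :=
              abs_sub _ _
          _ ≤ 2 := by linarith
      have hxi : ∀ i : ℕ × ℕ × ℤ, i.1 < m → i.2.1 < N ^ 5 → i.2.2 = 1 ∨ i.2.2 = -1 → ∀ c,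
          |(i.2.2 : ℝ) * (a i.1 v * (ψ i.2.1 c - (∑ c' ∈ L, ψ i.2.1 c') / L.card))| ≤
            2 * a i.1 v := by
        intro i h1 h2 h3 c
        have h4 : |(i.2.2 : ℝ)| = 1 := by
          rcases h3 with h3 | h3 <;> rw [h3] <;> norm_num
        have h5 := (ha i.1 h1).1 v hv
        rw [abs_mul, h4, one_mul, abs_mul, abs_of_nonneg h5.1]
        have := mul_le_mul_of_nonneg_left (hψabs i.2.1 h2 c) h5.1
        linarith
      have hps : ∑ c ∈ L, (L.card : ℝ)⁻¹ = 1 := by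
        rw [sum_const, nsmul_eq_mul, mul_inv_cancel₀ hLpos.ne']
      have hC0 : ∀ i : ℕ × ℕ × ℤ, i.1 < m → 1 ≤ i.2.1 → (i.2.2 = 1 ∨ i.2.2 = -1 ∨ i.2.2 = 2 ∨
          i.2.2 = -2) → ∑ c ∈ L, (L.card : ℝ)⁻¹ * xiC n par W₀ X (a i.1) i.2.1 i.2.2 v f c ≤
            64 / (N : ℝ) * (a i.1 v * (2 * (W₀ ∪ X).card + 5) + 5) := by
        intro i h1 h2 h3
        rw [← mul_sum]
        have h4 := xiC_mean (a := a i.1) H.isP (H.ch v hv) hv h2
          (fun u hu => ((ha i.1 h1).1 u hu).1) hf h3 L hone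
        rw [(ha i.1 h1).2, mul_one] at h4
        have h5 := (ha i.1 h1).1 v hv
        have h6 : 0 ≤ a i.1 v * (2 * (W₀ ∪ X).card + 5) + 5 := by
          have := mul_nonneg h5.1 (by positivity : (0 : ℝ) ≤ 2 * (W₀ ∪ X).card + 5)
          linarith
        calc (L.card : ℝ)⁻¹ * ∑ c ∈ L, xiC n par W₀ X (a i.1) i.2.1 i.2.2 v f c
            ≤ (L.card : ℝ)⁻¹ * (a i.1 v * (2 * (W₀ ∪ X).card + 5) + 5) :=
              mul_le_mul_of_nonneg_left h4 hLinv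
          _ ≤ 64 / (N : ℝ) * (a i.1 v * (2 * (W₀ ∪ X).card + 5) + 5) :=
              mul_le_mul_of_nonneg_right hLinv2 h6
      refine ⟨?_, hps, ?_, ?_, ?_⟩
      · intro c hc
        have h1 := hmemL c hc
        exact ⟨hone c hc, (H.Oodd c h1.1).2, h1.1, h1.2, hLinv⟩
      · intro i hi c _
        rcases i with i | i
        · rw [hI, inl_mem_disjSum, mem_product, mem_product, mem_range, mem_range, hS2m] at hi
          simp only [qrsbXi]
          have h1 := hxi i hi.1 hi.2.1 hi.2.2 c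
          have h2 := ((ha i.1 hi.1).1 v hv).2
          have h3 := (le_abs_self _).trans h1
          rw [← hL]
          linarith
        · rw [hI, inr_mem_disjSum, mem_product, mem_product, mem_range, mem_Icc, hS4m] at hi
          simp only [qrsbXi]
          exact (xiC_le H.isP (H.ch v hv) hv (ha i.1 hi.1).1 hf hi.2.2 c).2
      · intro i hi
        rcases i with i | i
        · simp only [qrsbXi, qrsbE]
          rw [← hL]
          have h1 : ∑ c ∈ L, (L.card : ℝ)⁻¹ * ((i.2.2 : ℝ) * (a i.1 v * (ψ i.2.1 c -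
              (∑ c' ∈ L, ψ i.2.1 c') / L.card))) = (L.card : ℝ)⁻¹ * (i.2.2 : ℝ) * a i.1 v *
              ∑ c ∈ L, (ψ i.2.1 c - (∑ c' ∈ L, ψ i.2.1 c') / L.card) := by
            rw [mul_sum]
            apply sum_congr rfl
            intro c _
            ring
          rw [h1, sum_sub_distrib, sum_const, nsmul_eq_mul, mul_div_cancel₀ _ hLpos.ne', sub_self,
            mul_zero]
        · rw [hI, inr_mem_disjSum, mem_product, mem_product, mem_range, mem_Icc, hS4m] at hi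
          simp only [qrsbXi, qrsbE]
          exact hC0 i hi.1 hi.2.1.1 hi.2.2
      · intro i hi
        rcases i with i | i
        · rw [hI, inl_mem_disjSum, mem_product, mem_product, mem_range, mem_range, hS2m] at hi
          simp only [qrsbXi, qrsbV]
          rw [← hL]
          have h5 := (ha i.1 hi.1).1 v hv
          calc ∑ c ∈ L, (L.card : ℝ)⁻¹ * ((i.2.2 : ℝ) * (a i.1 v * (ψ i.2.1 c -
              (∑ c' ∈ L, ψ i.2.1 c') / L.card))) ^ 2 ≤ ∑ c ∈ L, (L.card : ℝ)⁻¹ *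
                (4 * ω * a i.1 v) := by
                apply sum_le_sum
                intro c _
                apply mul_le_mul_of_nonneg_left _ hLinv
                have h1 := hxi i hi.1 hi.2.1 hi.2.2 c
                rw [← sq_abs]
                have h2 := pow_le_pow_left₀ (abs_nonneg _) h1 2
                nlinarith [h5.1, h5.2]
            _ = 4 * ω * a i.1 v := by rw [← sum_mul, hps, one_mul]
        · rw [hI, inr_mem_disjSum, mem_product, mem_product, mem_range, mem_Icc, hS4m] at hi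
          simp only [qrsbXi, qrsbV]
          have h1 := hC0 i hi.1 hi.2.1.1 hi.2.2
          calc ∑ c ∈ L, (L.card : ℝ)⁻¹ * xiC n par W₀ X (a i.1) i.2.1 i.2.2 v f c ^ 2
              ≤ ∑ c ∈ L, 4 * ω * ((L.card : ℝ)⁻¹ * xiC n par W₀ X (a i.1) i.2.1 i.2.2 v f c) := by
                apply sum_le_sum
                intro c _
                obtain ⟨h2, h3⟩ := xiC_le H.isP (H.ch v hv) hv (ha i.1 hi.1).1 hf hi.2.2 c
                have h4 : xiC n par W₀ X (a i.1) i.2.1 i.2.2 v f c ^ 2 ≤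
                    4 * ω * xiC n par W₀ X (a i.1) i.2.1 i.2.2 v f c := by
                  rw [pow_two]
                  exact mul_le_mul_of_nonneg_right h3 h2
                calc (L.card : ℝ)⁻¹ * xiC n par W₀ X (a i.1) i.2.1 i.2.2 v f c ^ 2
                    ≤ (L.card : ℝ)⁻¹ * (4 * ω * xiC n par W₀ X (a i.1) i.2.1 i.2.2 v f c) :=
                      mul_le_mul_of_nonneg_left h4 hLinv
                  _ = _ := by ring
            _ = 4 * ω * ∑ c ∈ L, (L.card : ℝ)⁻¹ * xiC n par W₀ X (a i.1) i.2.1 i.2.2 v f c := by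
                rw [mul_sum]
            _ ≤ _ := mul_le_mul_of_nonneg_left h1 (by positivity))
  obtain ⟨hB1, hB2⟩ := hN₂ N hNN₂
  have hB : (Real.log I.card + ((N : ℝ) ^ (3 / 200 : ℝ) / 4) ^ 2 * (8 * ω)) /
      ((N : ℝ) ^ (3 / 200 : ℝ) / 4) ≤ (N : ℝ) ^ (-(1 / 80) : ℝ) := by
    refine le_trans ?_ hB1
    apply div_le_div_of_nonneg_right _ hτ0.le
    linarith
  refine ⟨f, hf1, hf2, fun j hj => ⟨?_, ?_⟩⟩
  · intro i hi
    have h1 := hf3 (Sum.inl (j, i, 1)) (by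
      rw [hI, inl_mem_disjSum, mem_product, mem_product, mem_range, mem_range, hS2m]
      exact ⟨hj, hi, Or.inl rfl⟩)
    have h2 := hf3 (Sum.inl (j, i, -1)) (by
      rw [hI, inl_mem_disjSum, mem_product, mem_product, mem_range, mem_range, hS2m]
      exact ⟨hj, hi, Or.inr rfl⟩)
    simp only [qrsbXi, qrsbE, sum_const_zero, zero_add, Int.cast_one, one_mul, Int.cast_neg] at h1 h2
    rw [abs_le]
    constructor
    · have h3 : ∑ v ∈ X, -1 * (a j v * (ψ i (f v) - (∑ c' ∈ LS n par W₀ X F O v f, ψ i c') /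
          (LS n par W₀ X F O v f).card)) = -∑ v ∈ X, a j v * (ψ i (f v) -
          (∑ c' ∈ LS n par W₀ X F O v f, ψ i c') / (LS n par W₀ X F O v f).card) := by
        rw [← mul_sum, neg_one_mul]
      rw [h3] at h2
      linarith
    · linarith
  · intro x hx hxW s hs
    have h1 := hf3 (Sum.inr (j, x, s)) (by
      rw [hI, inr_mem_disjSum, mem_product, mem_product, mem_range, hS4m]
      exact ⟨hj, hx, hs⟩)
    have h2 := hsumE (j, x, s) hj
    simp only [qrsbXi, qrsbE] at h1 h2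
    have h3 := xiC_sum (a := a j) (x := x) (s := s) H.isP H.Xsub H.WX H.Wsub
      (fun u hu => ((ha j hj).1 u hu).1) hf1 hxW
    linarith

private theorem qrsc_hyp_mono {δ δ' : ℝ} (hδ : δ ≤ δ') {n N : ℕ} {par : ℕ → ℕ} {W₀ X F O : Finset ℕ}
    {f₀ : ℕ → ℕ} (h : HypS δ n N par W₀ X F O f₀) : HypS δ' n N par W₀ X F O f₀ where
  isP := h.isP
  Wsub := h.Wsub
  Xsub := h.Xsub
  WX := h.WX
  inj := h.inj
  rng := h.rng
  ch := h.ch
  c1 := h.c1.trans (mul_le_mul_of_nonneg_right hδ (Nat.cast_nonneg _))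
  c2 := h.c2.trans (mul_le_mul_of_nonneg_right hδ (Nat.cast_nonneg _))
  Oodd := h.Oodd
  Ocard := h.Ocard

private theorem qrsc_ocard {δ : ℝ} {n N : ℕ} {par : ℕ → ℕ} {W₀ X F O : Finset ℕ}
    {f₀ : ℕ → ℕ} (h : HypS δ n N par W₀ X F O f₀) : O.card ≤ N := by
  have h1 : O ⊆ Icc 1 N := by
    intro c hc
    have h2 := h.Oodd c hc
    rw [mem_Icc]
    omega
  have h3 := card_le_card h1
  rwa [Nat.card_Icc, Nat.add_sub_cancel] at h3

private theorem qrsc_sub {n : ℕ} {par : ℕ → ℕ} {W₀ X F O : Finset ℕ} {v : ℕ} {f : ℕ → ℕ} :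
    LS n par W₀ X F O v f ⊆ O := filter_subset _ _

/-- sums against the averaged law -/
private theorem qrsc_avg {X O : Finset ℕ} (S : ℕ → Finset ℕ) (hS : ∀ v ∈ X, S v ⊆ O) (a ψ : ℕ → ℝ)
    (nb : ℕ → ℝ) (hnb : ∀ d, nb d = ∑ v ∈ X, a v * ((if d ∈ S v then 1 else 0) / ((S v).card : ℝ))) :
    ∑ d ∈ O, nb d * ψ d = ∑ v ∈ X, a v * ((∑ c ∈ S v, ψ c) / ((S v).card : ℝ)) := by
  have h1 : ∀ d ∈ O, nb d * ψ d =
      ∑ v ∈ X, a v * ((if d ∈ S v then ψ d else 0) / ((S v).card : ℝ)) := by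
    intro d _
    rw [hnb d, sum_mul]
    refine sum_congr rfl fun v _ => ?_
    by_cases hd : d ∈ S v
    · rw [if_pos hd, if_pos hd]; ring
    · rw [if_neg hd, if_neg hd]; ring
  rw [sum_congr rfl h1, sum_comm]
  refine sum_congr rfl fun v hv => ?_
  rw [← mul_sum, ← sum_div, ← sum_filter]
  have h2 : O.filter (fun d => d ∈ S v) = S v := by
    ext d
    rw [mem_filter]
    exact ⟨fun h => h.2, fun h => ⟨hS v hv h, h⟩⟩
  rw [h2]

theorem qrs_nb (κ : ℝ) (hκ : 0 < κ) : ∃ δ : ℝ, 0 < δ ∧ ∃ N₀ : ℕ, ∀ N : ℕ, N₀ ≤ N →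
    ∀ (n : ℕ) (par : ℕ → ℕ) (W₀ X F O : Finset ℕ) (f₀ f : ℕ → ℕ), HypS δ n N par W₀ X F O f₀ →
    (∀ v ∈ X, InvN N par W₀ X F f₀ (· ∈ O) v f) →
    ∀ a : ℕ → ℝ, (∀ u ∈ X, 0 ≤ a u) → ∑ u ∈ X, a u = 1 →
    ∃ nb : ℕ → ℝ, (∀ d, nb d = ∑ v ∈ X, a v *
        ((if d ∈ LS n par W₀ X F O v f then 1 else 0) / ((LS n par W₀ X F O v f).card : ℝ))) ∧
      (∀ d, 0 ≤ nb d) ∧ (∀ d, nb d * O.card ≤ 1 + κ) ∧ (∀ d, d ∉ O → nb d = 0) ∧
      ∑ d ∈ O, nb d = 1 ∧ ((O.filter (fun d => nb d * O.card < 1 - κ)).card : ℝ) ≤ κ * N := by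
  have hk1 : 0 < 1 + κ := by linarith
  obtain ⟨t, ht⟩ : ∃ t : ℝ, t = κ / (1 + κ) := ⟨_, rfl⟩
  have htk : t * (1 + κ) = κ := by rw [ht]; field_simp
  have ht0 : 0 < t := by rw [ht]; positivity
  have ht1 : t < 1 := by rw [ht, div_lt_one hk1]; linarith
  have htκ : t ≤ κ := by nlinarith
  obtain ⟨δ, hδ, N₀, hN₀⟩ := LS_card (t * t) (by positivity)
  refine ⟨δ, hδ, max N₀ 1, fun N hN n par W₀ X F O f₀ f hyp hinv a ha hsum => ?_⟩
  have hN0 : N₀ ≤ N := le_trans (le_max_left _ _) hN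
  have hN1 : 1 ≤ N := le_trans (le_max_right _ _) hN
  have hOc : 0 < O.card := by
    have := hyp.Ocard
    omega
  have hOc' : (0 : ℝ) < (O.card : ℝ) := by exact_mod_cast hOc
  have hON : (O.card : ℝ) ≤ N := by exact_mod_cast qrsc_ocard hyp
  have hq : ∀ v ∈ X, (1 - t * t) * (O.card : ℝ) ≤ (LS n par W₀ X F O v f).card ∧
      ((O \ LS n par W₀ X F O v f).card : ℝ) ≤ t * t * O.card :=
    fun v hv => hN₀ N hN0 n par W₀ X F O f₀ hyp v hv f (hinv v hv)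
  have htt : t * t < 1 := by nlinarith
  have hL0 : ∀ v ∈ X, (0 : ℝ) < ((LS n par W₀ X F O v f).card : ℝ) := by
    intro v hv
    have h1 := (hq v hv).1
    have h2 : 0 < (1 - t * t) * (O.card : ℝ) := mul_pos (by linarith) hOc'
    linarith
  have hL1 : ∀ v ∈ X, ((LS n par W₀ X F O v f).card : ℝ) ≤ O.card := by
    intro v hv
    exact_mod_cast card_le_card qrsc_sub
  obtain ⟨nb, hnb⟩ : ∃ nb : ℕ → ℝ, ∀ d, nb d = ∑ v ∈ X, a v *
        ((if d ∈ LS n par W₀ X F O v f then 1 else 0) / ((LS n par W₀ X F O v f).card : ℝ)) :=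
    ⟨fun d => _, fun d => rfl⟩
  have hcard : ∀ d, ∀ v ∈ X, a v *
        ((if d ∈ LS n par W₀ X F O v f then 1 else 0) / ((LS n par W₀ X F O v f).card : ℝ)) * O.card ≤
        a v * (1 + κ) := by
    intro d v hv
    rw [mul_assoc]
    refine mul_le_mul_of_nonneg_left ?_ (ha v hv)
    rw [div_mul_eq_mul_div, div_le_iff₀ (hL0 v hv)]
    have h1 := (hq v hv).1
    have h2 : (O.card : ℝ) ≤ (1 + κ) * ((1 - t * t) * (O.card : ℝ)) := by
      have h3 : 1 ≤ (1 + κ) * (1 - t * t) := by nlinarith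
      nlinarith
    have h4 : (if d ∈ LS n par W₀ X F O v f then (1 : ℝ) else 0) * (O.card : ℝ) ≤ O.card := by
      split_ifs
      · linarith
      · linarith
    have h5 : (1 + κ) * ((1 - t * t) * (O.card : ℝ)) ≤
        (1 + κ) * ((LS n par W₀ X F O v f).card : ℝ) := mul_le_mul_of_nonneg_left h1 hk1.le
    linarith
  refine ⟨nb, hnb, ?_, ?_, ?_, ?_, ?_⟩
  · intro d
    rw [hnb d]
    refine sum_nonneg fun v hv => mul_nonneg (ha v hv) (div_nonneg ?_ (Nat.cast_nonneg _))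
    split_ifs <;> norm_num
  · intro d
    rw [hnb d, sum_mul]
    calc _ ≤ ∑ v ∈ X, a v * (1 + κ) := sum_le_sum (hcard d)
      _ = 1 + κ := by rw [← sum_mul, hsum, one_mul]
  · intro d hd
    rw [hnb d]
    refine sum_eq_zero fun v hv => ?_
    rw [if_neg (fun h => hd (qrsc_sub h)), zero_div, mul_zero]
  · have h1 := qrsc_avg (fun v => LS n par W₀ X F O v f) (fun v _ => qrsc_sub) a (fun _ => 1) nb hnb
    simp only [mul_one] at h1
    rw [h1]
    refine Eq.trans (sum_congr rfl fun v hv => ?_) hsum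
    rw [sum_const, nsmul_eq_mul, mul_one, div_self (hL0 v hv).ne', mul_one]
  · have h1 : ∀ d ∈ O, 1 - ∑ v ∈ X, (if d ∈ LS n par W₀ X F O v f then 0 else a v) ≤ nb d * O.card := by
      intro d _
      have hs' : 1 - ∑ v ∈ X, (if d ∈ LS n par W₀ X F O v f then 0 else a v) =
          ∑ v ∈ X, (a v - (if d ∈ LS n par W₀ X F O v f then 0 else a v)) := by
        rw [sum_sub_distrib, hsum]
      rw [hs', hnb d, sum_mul]
      refine sum_le_sum fun v hv => ?_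
      by_cases hd : d ∈ LS n par W₀ X F O v f
      · rw [if_pos hd, if_pos hd, sub_zero, mul_assoc]
        have h2 : (1 : ℝ) ≤ 1 / ((LS n par W₀ X F O v f).card : ℝ) * O.card := by
          rw [div_mul_eq_mul_div, one_mul, le_div_iff₀ (hL0 v hv), one_mul]
          exact hL1 v hv
        nlinarith [ha v hv]
      · rw [if_neg hd, if_neg hd, sub_self, zero_div, mul_zero, zero_mul]
    have h2 : κ * ((O.filter (fun d => nb d * O.card < 1 - κ)).card : ℝ) ≤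
        ∑ d ∈ O, ∑ v ∈ X, (if d ∈ LS n par W₀ X F O v f then 0 else a v) := by
      calc κ * ((O.filter (fun d => nb d * O.card < 1 - κ)).card : ℝ)
          = ∑ d ∈ O.filter (fun d => nb d * O.card < 1 - κ), κ := by
            rw [sum_const, nsmul_eq_mul, mul_comm]
        _ ≤ ∑ d ∈ O.filter (fun d => nb d * O.card < 1 - κ),
            ∑ v ∈ X, (if d ∈ LS n par W₀ X F O v f then 0 else a v) := by
            refine sum_le_sum fun d hd => ?_
            rw [mem_filter] at hd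
            have := h1 d hd.1
            linarith [hd.2]
        _ ≤ _ := by
            refine sum_le_sum_of_subset_of_nonneg (filter_subset _ _) fun d _ _ => ?_
            refine sum_nonneg fun v hv => ?_
            split_ifs
            · exact le_refl _
            · exact ha v hv
    have h3 : ∑ d ∈ O, ∑ v ∈ X, (if d ∈ LS n par W₀ X F O v f then 0 else a v) ≤
        t * t * O.card := by
      rw [sum_comm]
      calc ∑ v ∈ X, ∑ d ∈ O, (if d ∈ LS n par W₀ X F O v f then 0 else a v)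
          ≤ ∑ v ∈ X, a v * (t * t * O.card) := by
            refine sum_le_sum fun v hv => ?_
            have e1 : ∑ d ∈ O, (if d ∈ LS n par W₀ X F O v f then 0 else a v) =
                a v * ((O \ LS n par W₀ X F O v f).card : ℝ) := by
              have e2 : O \ LS n par W₀ X F O v f =
                  O.filter (fun d => ¬ d ∈ LS n par W₀ X F O v f) := by
                ext d
                rw [mem_sdiff, mem_filter]
              rw [e2, mul_comm, ← nsmul_eq_mul, ← sum_const, sum_filter]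
              refine sum_congr rfl fun d _ => ?_
              by_cases hd : d ∈ LS n par W₀ X F O v f
              · rw [if_pos hd, if_neg (not_not.mpr hd)]
              · rw [if_neg hd, if_pos hd]
            rw [e1]
            exact mul_le_mul_of_nonneg_left (hq v hv).2 (ha v hv)
        _ = t * t * O.card := by rw [← sum_mul, hsum, one_mul]
    have h4 : κ * ((O.filter (fun d => nb d * O.card < 1 - κ)).card : ℝ) ≤ κ * (κ * N) := by
      have h5 : t * t * (O.card : ℝ) ≤ κ * κ * N := by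
        have h6 : t * t ≤ κ * κ := mul_le_mul htκ htκ ht0.le hκ.le
        calc t * t * (O.card : ℝ) ≤ κ * κ * O.card := mul_le_mul_of_nonneg_right h6 hOc'.le
          _ ≤ κ * κ * N := mul_le_mul_of_nonneg_left hON (by positivity)
      calc _ ≤ t * t * (O.card : ℝ) := h2.trans h3
        _ ≤ κ * κ * N := h5
        _ = κ * (κ * N) := by ring
    exact le_of_mul_le_mul_left h4 hκ

theorem qrs (m : ℕ) (κ : ℝ) (hκ : 0 < κ) : ∃ δ : ℝ, 0 < δ ∧ ∃ N₀ : ℕ, ∀ N : ℕ, N₀ ≤ N →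
    ∀ (n : ℕ) (par : ℕ → ℕ) (W₀ X F O : Finset ℕ) (f₀ : ℕ → ℕ), HypS δ n N par W₀ X F O f₀ →
    ∀ a : ℕ → ℕ → ℝ, (∀ j < m, (∀ u ∈ X, 0 ≤ a j u ∧ a j u ≤ (N : ℝ) ^ (-(1 / 30) : ℝ)) ∧
      ∑ u ∈ X, a j u = 1) →
    ∀ ψ : ℕ → ℕ → ℝ, (∀ i < N ^ 5, ∀ c, |ψ i c| ≤ 1) →
    ∃ f : ℕ → ℕ, InvN N par W₀ X F f₀ (· ∈ O) n f ∧ ∀ j < m,
      (∃ nb : ℕ → ℝ, (∀ d, 0 ≤ nb d) ∧ (∀ d, nb d * O.card ≤ 1 + κ) ∧ (∀ d, d ∉ O → nb d = 0) ∧
        ∑ d ∈ O, nb d = 1 ∧ ((O.filter (fun d => nb d * O.card < 1 - κ)).card : ℝ) ≤ κ * N ∧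
        ∀ i < N ^ 5, |∑ u ∈ X, a j u * ψ i (f u) - ∑ d ∈ O, nb d * ψ i d| ≤
          (N : ℝ) ^ (-(1 / 80) : ℝ)) ∧
      (∀ x ∈ Icc 1 N, x ∉ (W₀ ∪ X).image f → ∀ s : ℤ, s = 1 ∨ s = -1 ∨ s = 2 ∨ s = -2 →
        ∑ u ∈ X.filter (fun u => (x : ℤ) + s * f u ∈ zset (vls par W₀ X n f)), a j u ≤ κ) := by
  obtain ⟨δ₁, hδ₁, N₁, h₁⟩ := qrs_path m κ hκ
  obtain ⟨δ₂, hδ₂, N₂, h₂⟩ := qrs_nb κ hκ
  refine ⟨min δ₁ δ₂, lt_min hδ₁ hδ₂, max N₁ N₂, fun N hN n par W₀ X F O f₀ hyp a ha ψ hψ => ?_⟩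
  obtain ⟨f, hfn, hfv, hf⟩ := h₁ N (le_trans (le_max_left _ _) hN) n par W₀ X F O f₀
    (qrsc_hyp_mono (min_le_left _ _) hyp) a ha ψ hψ
  refine ⟨f, hfn, fun j hj => ⟨?_, (hf j hj).2⟩⟩
  obtain ⟨nb, hnb, c1, c2, c3, c4, c5⟩ := h₂ N (le_trans (le_max_right _ _) hN) n par W₀ X F O f₀ f
    (qrsc_hyp_mono (min_le_right _ _) hyp) (fun v hv => (hfv v hv).1) (a j)
    (fun u hu => ((ha j hj).1 u hu).1) (ha j hj).2
  refine ⟨nb, c1, c2, c3, c4, c5, fun i hi => ?_⟩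
  have h3 := qrsc_avg (fun v => LS n par W₀ X F O v f) (fun v _ => qrsc_sub) (a j) (ψ i) nb hnb
  have h4 := (hf j hj).1 i hi
  rw [h3, ← sum_sub_distrib]
  have h5 : ∑ v ∈ X, (a j v * ψ i (f v) - a j v * ((∑ c ∈ LS n par W₀ X F O v f, ψ i c) /
        ((LS n par W₀ X F O v f).card : ℝ))) =
      ∑ v ∈ X, a j v * (ψ i (f v) - (∑ c ∈ LS n par W₀ X F O v f, ψ i c) /
            (LS n par W₀ X F O v f).card) := by
    refine sum_congr rfl fun v _ => ?_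
    ring
  rw [h5]
  exact h4

end SSB
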