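import Pool.Agent.Lib.MP_8a819d_co.LH.AbsI
import Pool.Agent.Lib.MP_8a819d_co.LH.FinR
import Pool.Agent.Lib.MP_8a819d_co.LH.QRS
import Pool.Agent.Lib.MP_8a819d_co.LH.LawC
import Pool.Agent.Lib.MP_8a819d_co.AT.PackV
import Pool.Agent.Lib.MP_8a819d_co.AT.Late2

/-!
# MP_8a819d_co, leaf-heavy trees: the core

`CoreLH` (RDef.lean) from the absorber `AbsR` (AbsI.lean).
JOB LHQ_CC1a: `cc1a`. JOB LHQ_CC1b: `cc1b`. JOB LHQ_CC2: `cc2`. (`HypL` = hypotheses of `CoreLH`; `CfgS` = the hosts of the absorber are numbered and `A` is chosen; `CfgL` = the situation before the packing of the leaves.)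

PROOF of `cc1a`. Constants: `ε₁` from `AbsR`, `ε = min ε₁ (1/40000)`; `m, κ, β₀, N₁` from `AbsR`; `β = min β₀ 1`; `δ₁` from `qrs m κ`; `βR = min (β/8) (min δ₁ (1/100000))`; `δ₀ = (min of δ₁, κ, 1/100000)/2`; `n₀` large. `N = 2 n - 1`, `|inn| ≤ δ₀ n ≤ δ₀ N`. Let `w v = |lvs n par v|`.
`w v ≤ n^(24/25) ≤ N^(24/25)`; on `P`: `w v ≤ f₀ v ≤ n^(2/5)`, `|P| ≤ n^(3/10)`, so `∑ v ∈ P, w v ≤ n^(7/10) ≤ N^(3/4)`.
Let `thr = ⌈ε N⌉₊`; `∑ v ∈ inn, w v = n - |inn| ≥ thr` (`lvs_sum_inn`). `sel_k` (`I = inn`, `M = ⌊n^(24/25)⌋₊`) gives `k`; `S = P ∪ inn.filter (· < k)`, `X₁ = S \ P` (so `P ∪ X₁ = S`), `W = ∑ v ∈ S, w v ∈ [ε N, 2 ε N]`. So `AbsW ε κ N P X₁ w`.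
`R` given. `AbsR` gives `O, ψ`, and then `a`. `qrs` with `W₀ = P`, `X = X₁`, `F = R`: `HypS δ₁ n N par P X₁ R O f₀`: `ch`: for `v ∉ P` at most one neighbour is in `P` (`Clo`; the children of `v` in `P` are in `bnb n par P v`); `rng`: values of items of `P` are `≥ 1` (`Nmb`) and `≤ max` of the labels `≤ n^(2/5)`.
It gives `f₁` with `InvN N par P X₁ R f₀ (· ∈ O) n f₁`; `Wt P X₁ n = S`, `vls par P X₁ n f₁ = (items par S).image (val par f₁)`; so `QRf`. `AbsV`: the values of the items of `S` are not in `R` (new items: `InvN.new`; items of `P`: values `≤ n^(2/5) < N/32 <` the elements of `R`). `AbsR` gives `A`.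
`|S.biUnion lvs| = W` (the sets `lvs n par v` are disjoint). `mtch` by `AbsR` and `unitsW_leaves`.

PROOF of `cc1b`. `τ = β/40`; `δ₂` from `qrm τ`; `δ₃` from `lawC τ`; `δ₀ = (min of δ₂, δ₃, β/8, 1/100000)/2`. `FT = (items par S).image (val par f₁)`, `F = A ∪ R ∪ FT`, `W = |S.biUnion lvs| = ∑ v ∈ S, w v`, `|F| ≤ 2 W + N/100000 + 2 |S| ≤ N/10000 + 3/100000 N ≤ N/4000`. `qrm` with
`W₀ = S`, `X = inn \ S`, `l = w`: `HypM`: `ch`: `v ∈ inn \ S` has `k ≤ v`, so a child `c > v` of `v` in `S` is in `P`, and `c ∈ bnb n par P v` with `v ∉ P`: at most one. It gives `f, g` with `InvN N par S (inn \ S) F f₁ (OkM N) n f` and the load bound; `Wt S (inn \ S) n = inn`.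
`Λ = S.biUnion (lvs n par)`, `Z = (range n \ inn) \ Λ`. For `v ∈ Z`: `1 ≤ v`, `chs v = ∅`, `par v ∈ inn \ S` (`inn_facts`; if `par v ∈ S` then `v ∈ Λ`); for `h ∈ inn \ S` the `v ∈ Z` with `par v = h` are the elements of `lvs n par h`. `lawC` with `B = inn`, `X = inn \ S`: `mu, kr`, `LawV` for
`Q = Icc 1 N \ (F ∪ (items par inn).image (val par f)) = Icc 1 N \ (A ∪ R ∪ (items par inn).image (val par f))` (`FT` is contained in the last set as `f = f₁` on `S`).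
Load at `z ∈ Q`: at most `(1 + τ) ((1 + τ) L + τ N)/q` with `L = ∑ v ∈ inn \ S, w v = n - |inn| - W` and `q = |{y ∈ Icc 1 N \ F : y % 2 = z % 2}|`. `[1, N]` contains at least `n - 1` numbers of each parity; `A` contains `|A|/2 ≤ W - β N` of them (`Bal`), `R` at most `(β/8) N`, `FT` at most `|S|` (the values of the
`inl v` are odd, those of the `inr v` are even, `v ∈ S`): `q ≥ n - 1 - W + β N - (β/8) N - |S| ≥ L + (3/4) β N` for large `N` (`|S| ≤ |inn|`), and `(1 + τ) ((1 + τ) L + τ N) ≤ L + 5 τ N = L + β N/8` (`L ≤ N`, `τ ≤ 1`). So the load is at most `1`.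
`odd`: `S` by `CfgS`, the others by `OkM`. `rng`: values of items of `inn`: those of `S` (`CfgS.rng`), the new ones are not in `F ⊇ A ∪ R`. `mtch`: from `CfgS.mtch` (`f = f₁` on `S`, so the values of the items of `S` are values of items of `inn`; hosts of the leaves in `Λ` are in `S`).

PROOF of `cc2`. `late2` with `Δ = 1`, `ζ = 1/32` gives `l, R, N₁` for `βR`. `packV` with `K = 1`, `C = 1600`, `μ = l/2` gives `γ`. `B = inn n par`, `Z`, `Q` as in `CfgL`; `n ≤ N`; every `v ∈ Z` has the only neighbour `par v ∈ inn`; `comp n par (range n \ Z) r` has at most one element (`par v ∉ Z` for `v ∈ Z`, so `topv par _ v = v`: `topv_stop`);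
the vertices of `Z` with `b ∈ bnb n par B v` are in `lvs n par b`, at most `n^(24/25) ≤ γ N`. `packV` gives `Cv, f₁` on `B ∪ Cv`. `late2` with `T = range n \ Λ`, `W = B ∪ Cv`: `T \ W ⊆ Z \ Cv`, at most `(l/2) N` vertices of degree `1` (`pdeg n par v = |chs v| + 1 = 1`); the values of the items of `W` are not in `R` (`B`: `CfgL.rng`; the other
ones are in `Q`). It gives `f₂`. `T = B ∪ Z`. All the values of the items of `T` are in `[1, N]`, not in `A` (new ones in `Q` or in `R`, and `A` is disjoint from `R`). `J = Icc 1 N \ (A ∪ values)`: `balJ`: `Bal J`, `|J| + |A| = 2 |Λ|`; `J` is disjoint from `A` and from the values of the items of `inn` (`val_items`), so `CfgL.mtch` gives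
`MatchU Λ (fun v => f (par v)) (A ∪ J)`, `f = f₂` on `inn ∋ par v`. `abs_finR` gives the numbering; it agrees with `f₂` outside `Λ`, in particular on `P ⊆ inn`.
-/

set_option autoImplicit false

namespace SSB

open Finset

/-- the hypotheses of `CoreLH` -/
structure HypL (δ₀ : ℝ) (n : ℕ) (par : ℕ → ℕ) (P : Finset ℕ) (f₀ : ℕ → ℕ) : Prop where
  isP : IsPar n par
  par0 : par 0 = 0
  inn_le : ((inn n par).card : ℝ) ≤ δ₀ * n
  lvs_le : ∀ v < n, (lvs n par v).card ^ 25 ≤ n ^ 24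
  Psub : P ⊆ inn n par
  Pclo : Clo n par P
  Pcard : P.card ^ 10 ≤ n ^ 3
  num : Nmb par P f₀
  lab : ∀ v ∈ P, f₀ v % 2 = 1 ∧ f₀ v ^ 5 ≤ n ^ 2
  lvsP : ∀ v ∈ P, (lvs n par v).card ≤ f₀ v

/-- the situation before the packing: all inner vertices are numbered, the leaves at the hosts in `S` are the units of the absorber `A` -/
structure CfgL (n N : ℕ) (par : ℕ → ℕ) (P S R A : Finset ℕ) (f₀ f : ℕ → ℕ) (mu : ℕ → ℕ → ℝ)
    (kr : ℕ → ℕ → ℕ → ℝ) : Prop where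
  Ssub : S ⊆ inn n par
  agree : ∀ v ∈ P, f v = f₀ v
  inj : Set.InjOn (val par f) (items par (inn n par))
  rng : ∀ x ∈ items par (inn n par),
    1 ≤ val par f x ∧ val par f x ≤ N ∧ val par f x ∉ A ∧ val par f x ∉ R
  odd : ∀ v ∈ inn n par, f v % 2 = 1
  Asub : A ⊆ Icc 1 N
  AR : Disjoint A R
  bal : Bal A
  law : LawV n N par (inn n par) ((range n \ inn n par) \ S.biUnion (lvs n par))
    (Icc 1 N \ (A ∪ R ∪ (items par (inn n par)).image (val par f))) f 1600 mu kr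
  load : ∀ z ∈ Icc 1 N \ (A ∪ R ∪ (items par (inn n par)).image (val par f)),
    ∑ v ∈ (range n \ inn n par) \ S.biUnion (lvs n par),
      loadv n N par (inn n par) ((range n \ inn n par) \ S.biUnion (lvs n par)) f mu kr v z ≤ 1
  mtch : ∀ J : Finset ℕ, J ⊆ Icc 1 N → Disjoint J A →
    Disjoint J ((items par (inn n par)).image (val par f)) → Bal J →
    J.card + A.card = 2 * (S.biUnion (lvs n par)).card →
    MatchU (S.biUnion (lvs n par)) (fun v => f (par v)) (A ∪ J)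

/-- the hosts of the absorber are numbered, `A` is chosen -/
structure CfgS (β : ℝ) (n N : ℕ) (par : ℕ → ℕ) (P S R A : Finset ℕ) (f₀ f : ℕ → ℕ) : Prop where
  Sk : ∃ k, S = P ∪ (inn n par).filter (· < k)
  agree : ∀ v ∈ P, f v = f₀ v
  inj : Set.InjOn (val par f) (items par S)
  rng : ∀ x ∈ items par S,
    1 ≤ val par f x ∧ val par f x ≤ N ∧ val par f x ∉ A ∧ val par f x ∉ R
  odd : ∀ v ∈ S, f v % 2 = 1
  Asub : A ⊆ Icc 1 N
  AR : Disjoint A R
  bal : Bal A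
  gap : (A.card : ℝ) + 2 * β * N ≤ 2 * ((S.biUnion (lvs n par)).card : ℝ)
  Wle : 20000 * (S.biUnion (lvs n par)).card ≤ N
  mtch : ∀ J : Finset ℕ, J ⊆ Icc 1 N → Disjoint J A →
    Disjoint J ((items par S).image (val par f)) → Bal J →
    J.card + A.card = 2 * (S.biUnion (lvs n par)).card →
    MatchU (S.biUnion (lvs n par)) (fun v => f (par v)) (A ∪ J)

/-- the hypotheses on the reserve -/
def RsvL (βR : ℝ) (n : ℕ) (R : Finset ℕ) : Prop :=
  (∀ x ∈ R, ((2 * n - 1 : ℕ) : ℝ) / 32 < x ∧ x ≤ 2 * n - 1) ∧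
    (R.card : ℝ) ≤ βR * (2 * n - 1 : ℕ)

private theorem cc1a_pow {x y : ℝ} (hy : 0 ≤ y) {p q : ℕ} (hp : p ≠ 0) (h : x ^ p ≤ y ^ q) :
    x ≤ y ^ ((q : ℝ) / p) := by
  by_contra hcon
  push Not at hcon
  have h1 := pow_lt_pow_left₀ hcon (Real.rpow_nonneg hy _) hp
  have hp' : (p : ℝ) ≠ 0 := by exact_mod_cast hp
  rw [← Real.rpow_natCast, ← Real.rpow_mul hy, div_mul_cancel₀ _ hp', Real.rpow_natCast] at h1
  linarith

private theorem cc1a_large (ε : ℝ) (hε : 0 < ε) : ∃ N₀ : ℕ, ∀ N : ℕ, N₀ ≤ N →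
    1 + (N : ℝ) ^ (24 / 25 : ℝ) ≤ ε * N := by
  refine ⟨⌈(2 / ε) ^ 25⌉₊ + ⌈2 / ε⌉₊ + 1, fun N hN => ?_⟩
  have h1 : (2 / ε) ^ 25 ≤ (N : ℝ) := (Nat.le_ceil _).trans (by exact_mod_cast (by omega))
  have h2 : 2 / ε ≤ (N : ℝ) := (Nat.le_ceil _).trans (by exact_mod_cast (by omega))
  have hN0 : (0 : ℝ) < N := lt_of_lt_of_le (by positivity) h2
  have h3 : 2 ≤ ε * N := by
    rw [div_le_iff₀ hε] at h2
    linarith
  have h4 : 2 / ε ≤ (N : ℝ) ^ ((1 : ℝ) / 25) := by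
    have := cc1a_pow (x := 2 / ε) (y := (N : ℝ)) hN0.le (p := 25) (q := 1) (by norm_num)
      (by rw [pow_one]; exact h1)
    simpa using this
  have h5 : (N : ℝ) ^ (24 / 25 : ℝ) * (N : ℝ) ^ ((1 : ℝ) / 25) = N := by
    rw [← Real.rpow_add hN0]
    norm_num
  have h6 : (N : ℝ) ^ (24 / 25 : ℝ) * (2 / ε) ≤ N := by
    calc (N : ℝ) ^ (24 / 25 : ℝ) * (2 / ε) ≤ (N : ℝ) ^ (24 / 25 : ℝ) * (N : ℝ) ^ ((1 : ℝ) / 25) :=
          mul_le_mul_of_nonneg_left h4 (Real.rpow_nonneg hN0.le _)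
      _ = N := h5
  have h7 : (N : ℝ) ^ (24 / 25 : ℝ) * 2 ≤ ε * N := by
    have h8 := mul_le_mul_of_nonneg_left h6 hε.le
    have h9 : ε * ((N : ℝ) ^ (24 / 25 : ℝ) * (2 / ε)) = (N : ℝ) ^ (24 / 25 : ℝ) * 2 := by
      field_simp
    linarith
  linarith

/-- the labels of the prescribed vertices are small -/
private theorem cc1a_small {n : ℕ} (hn : 1000 ≤ n) {x : ℕ} (hx : x ^ 5 ≤ n ^ 2) :
    32 * x ≤ n := by
  by_contra hcon
  push Not at hcon
  have h1 : n ^ 5 < (32 * x) ^ 5 := Nat.pow_lt_pow_left hcon (by norm_num)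
  have h2 : (32 * x) ^ 5 ≤ 32 ^ 5 * n ^ 2 := by
    rw [mul_pow]
    exact Nat.mul_le_mul_left _ hx
  have h3 : n ^ 2 * n ^ 3 < n ^ 2 * 32 ^ 5 := by
    calc n ^ 2 * n ^ 3 = n ^ 5 := by ring
      _ < (32 * x) ^ 5 := h1
      _ ≤ 32 ^ 5 * n ^ 2 := h2
      _ = n ^ 2 * 32 ^ 5 := by ring
  have h4 : n ^ 3 < 32 ^ 5 := lt_of_mul_lt_mul_left h3 (Nat.zero_le _)
  have h5 : 1000 ^ 3 ≤ n ^ 3 := Nat.pow_le_pow_left hn 3
  omega

private theorem cc1a_biU {n : ℕ} {par : ℕ → ℕ} (S : Finset ℕ) :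
    (S.biUnion (lvs n par)).card = ∑ v ∈ S, (lvs n par v).card := by
  apply card_biUnion
  intro v _ v' _ hne
  show Disjoint (lvs n par v) (lvs n par v')
  rw [Finset.disjoint_left]
  intro c hc hc'
  apply hne
  have h1 := (mem_chs.1 (mem_filter.1 hc).1).2.2
  have h2 := (mem_chs.1 (mem_filter.1 hc').1).2.2
  exact h1.symm.trans h2

theorem cc1a (hA : AbsR) : ∃ β βR δ₀ : ℝ, 0 < β ∧ β ≤ 1 ∧ 0 < βR ∧ βR ≤ β / 8 ∧
    βR ≤ 1 / 100000 ∧ 0 < δ₀ ∧ ∃ n₀ : ℕ, ∀ n : ℕ, n₀ ≤ n →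
    ∀ (par : ℕ → ℕ) (P : Finset ℕ) (f₀ : ℕ → ℕ), HypL δ₀ n par P f₀ →
    ∀ R : Finset ℕ, RsvL βR n R →
    ∃ (S A : Finset ℕ) (f : ℕ → ℕ), CfgS β n (2 * n - 1) par P S R A f₀ f := by
  obtain ⟨ε₁, hε₁, hA⟩ := hA
  set ε : ℝ := min ε₁ (1 / 40000) with hεdef
  have hε : 0 < ε := lt_min hε₁ (by norm_num)
  have hε1 : ε ≤ 1 / 40000 := min_le_right _ _
  obtain ⟨m, κ, β₀, hκ, hβ₀, N₁, hA⟩ := hA ε hε (min_le_left _ _)
  obtain ⟨δ₁, hδ₁, N₂, hQ⟩ := qrs m κ hκ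
  obtain ⟨N₃, hL⟩ := cc1a_large ε hε
  set β : ℝ := min β₀ 1 with hβdef
  have hβ : 0 < β := lt_min hβ₀ one_pos
  set βR : ℝ := min (β / 8) (min δ₁ (1 / 100000)) with hβRdef
  set δ₀ : ℝ := min δ₁ (min κ (1 / 100000)) with hδ₀def
  have hδ₀ : 0 < δ₀ := lt_min hδ₁ (lt_min hκ (by norm_num))
  have hβR : 0 < βR := lt_min (by positivity) (lt_min hδ₁ (by norm_num))
  have hββ₀ : β ≤ β₀ := min_le_left _ _
  have hβRβ : βR ≤ β / 8 := min_le_left _ _
  have hβRδ : βR ≤ δ₁ := (min_le_right _ _).trans (min_le_left _ _)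
  have hδδ : δ₀ ≤ δ₁ := min_le_left _ _
  have hδκ : δ₀ ≤ κ := (min_le_right _ _).trans (min_le_left _ _)
  have hδ5 : δ₀ ≤ 1 / 100000 := (min_le_right _ _).trans (min_le_right _ _)
  refine ⟨β, βR, δ₀, hβ, min_le_right _ _, hβR, hβRβ,
    (min_le_right _ _).trans (min_le_right _ _), hδ₀, N₁ + N₂ + N₃ + 1000, ?_⟩
  intro n hn par P f₀ hH R hR
  obtain ⟨hR1, hR2⟩ := hR
  obtain ⟨N, hNdef⟩ : ∃ N : ℕ, N = 2 * n - 1 := ⟨_, rfl⟩
  rw [← hNdef] at hR1 hR2 ⊢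
  have hnN : n ≤ N := by omega
  have hN2 : N + 1 = 2 * n := by omega
  have hnNr : (n : ℝ) ≤ N := by exact_mod_cast hnN
  have hn0 : (1000 : ℝ) ≤ n := by
    have : 1000 ≤ n := by omega
    exact_mod_cast this
  have hN2r : (N : ℝ) + 1 = 2 * n := by exact_mod_cast hN2
  have hLN := hL N (by omega)
  obtain ⟨hI0, hI1, hI2, hI3⟩ := inn_facts (by omega : 2 ≤ n) hH.isP
  have hsum := lvs_sum_inn (by omega : 2 ≤ n) hH.isP
  have hinn : ((inn n par).card : ℝ) ≤ δ₀ * N := by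
    refine hH.inn_le.trans (mul_le_mul_of_nonneg_left hnNr hδ₀.le)
  -- the reserve
  have hRsub : R ⊆ Icc 1 N := by
    intro x hx
    obtain ⟨h1, h2⟩ := hR1 x hx
    have h3 : (0 : ℝ) < x := by
      have : (0 : ℝ) ≤ (N : ℝ) / 32 := by positivity
      linarith
    have h4 : 0 < x := by exact_mod_cast h3
    rw [mem_Icc]
    omega
  have hRc : (R.card : ℝ) ≤ β₀ * N := by
    refine hR2.trans (mul_le_mul_of_nonneg_right ?_ (Nat.cast_nonneg _))
    linarith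
  obtain ⟨O, ψ, hO, hO32, hψ, hA⟩ := hA N (by omega) R hRsub hRc
  -- the numbers of leaves
  obtain ⟨w, hw⟩ : ∃ w : ℕ → ℕ, w = fun v => (lvs n par v).card := ⟨_, rfl⟩
  have hwv : ∀ v, w v = (lvs n par v).card := fun v => by rw [hw]
  have hwle : ∀ v ∈ inn n par, (w v : ℝ) ≤ (N : ℝ) ^ (24 / 25 : ℝ) := by
    intro v hv
    have h1 := hH.lvs_le v (mem_range.1 (hI3 hv))
    rw [← hwv] at h1
    have h2 : ((w v : ℝ)) ^ 25 ≤ (N : ℝ) ^ 24 := by
      have h3 : w v ^ 25 ≤ N ^ 24 := h1.trans (Nat.pow_le_pow_left hnN 24)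
      exact_mod_cast h3
    have h4 := cc1a_pow (Nat.cast_nonneg N) (by norm_num) h2
    norm_num at h4
    exact h4
  have hf₀ : ∀ v ∈ P, 32 * f₀ v ≤ n := fun v hv => cc1a_small (by omega) (hH.lab v hv).2
  have hwP : ((∑ v ∈ P, w v : ℕ) : ℝ) ≤ (N : ℝ) ^ (3 / 4 : ℝ) := by
    have h1 : ∀ v ∈ P, (w v : ℝ) ≤ (n : ℝ) ^ (2 / 5 : ℝ) := by
      intro v hv
      have h2 : ((f₀ v : ℝ)) ^ 5 ≤ (n : ℝ) ^ 2 := by exact_mod_cast (hH.lab v hv).2
      have h3 := cc1a_pow (Nat.cast_nonneg n) (by norm_num) h2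
      have h4 : (w v : ℝ) ≤ f₀ v := by
        have := hH.lvsP v hv
        rw [← hwv] at this
        exact_mod_cast this
      norm_num at h3
      linarith
    have h2 : (P.card : ℝ) ≤ (n : ℝ) ^ (3 / 10 : ℝ) := by
      have h3 : ((P.card : ℝ)) ^ 10 ≤ (n : ℝ) ^ 3 := by exact_mod_cast hH.Pcard
      have h4 := cc1a_pow (Nat.cast_nonneg n) (by norm_num) h3
      norm_num at h4
      exact h4
    have hn1 : (1 : ℝ) ≤ n := by linarith
    have hnpos : (0 : ℝ) < n := by linarith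
    push_cast
    calc ∑ v ∈ P, (w v : ℝ) ≤ ∑ _v ∈ P, (n : ℝ) ^ (2 / 5 : ℝ) := sum_le_sum h1
      _ = P.card * (n : ℝ) ^ (2 / 5 : ℝ) := by rw [sum_const, nsmul_eq_mul]
      _ ≤ (n : ℝ) ^ (3 / 10 : ℝ) * (n : ℝ) ^ (2 / 5 : ℝ) :=
          mul_le_mul_of_nonneg_right h2 (Real.rpow_nonneg hnpos.le _)
      _ = (n : ℝ) ^ (7 / 10 : ℝ) := by
          rw [← Real.rpow_add hnpos]
          norm_num
      _ ≤ (n : ℝ) ^ (3 / 4 : ℝ) := Real.rpow_le_rpow_of_exponent_le hn1 (by norm_num)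
      _ ≤ (N : ℝ) ^ (3 / 4 : ℝ) := Real.rpow_le_rpow hnpos.le hnNr (by norm_num)
  have hN1 : (1 : ℝ) ≤ N := by linarith
  have h34 : (N : ℝ) ^ (3 / 4 : ℝ) ≤ (N : ℝ) ^ (24 / 25 : ℝ) :=
    Real.rpow_le_rpow_of_exponent_le hN1 (by norm_num)
  -- the selection of the hosts
  have hthr0 : ∑ v ∈ P, w v ≤ ⌈ε * N⌉₊ := by
    have h1 : ((∑ v ∈ P, w v : ℕ) : ℝ) ≤ (⌈ε * N⌉₊ : ℝ) := by
      refine le_trans ?_ (Nat.le_ceil _)
      linarith
    exact_mod_cast h1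
  have hceil : (⌈ε * N⌉₊ : ℝ) < ε * N + 1 := Nat.ceil_lt_add_one (by positivity)
  have hthr1 : ⌈ε * N⌉₊ ≤ ∑ v ∈ inn n par, w v := by
    have h1 : (⌈ε * N⌉₊ : ℝ) ≤ ((∑ v ∈ inn n par, w v : ℕ) : ℝ) := by
      have h2 : ((∑ v ∈ inn n par, w v : ℕ) : ℝ) + (inn n par).card = n := by
        have h3 : ∑ v ∈ inn n par, w v + (inn n par).card = n := by
          rw [hw]
          exact hsum
        exact_mod_cast h3
      have h4 : ε * N ≤ 1 / 40000 * N := mul_le_mul_of_nonneg_right hε1 (Nat.cast_nonneg _)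
      have h5 : ((inn n par).card : ℝ) ≤ 1 / 100000 * N :=
        hinn.trans (mul_le_mul_of_nonneg_right hδ5 (Nat.cast_nonneg _))
      linarith
    exact_mod_cast h1
  have hM : ∀ v ∈ inn n par, w v ≤ ⌊(N : ℝ) ^ (24 / 25 : ℝ)⌋₊ := fun v hv => Nat.le_floor (hwle v hv)
  obtain ⟨k, -, hk1, hk2⟩ := sel_k hI3 hthr0 hthr1 hM
  obtain ⟨S, hSdef⟩ : ∃ S : Finset ℕ, S = P ∪ (inn n par).filter (· < k) := ⟨_, rfl⟩
  rw [← hSdef] at hk1 hk2
  have hSinn : S ⊆ inn n par := by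
    rw [hSdef]
    exact union_subset hH.Psub (filter_subset _ _)
  have hPS : P ⊆ S := by
    rw [hSdef]
    exact subset_union_left
  obtain ⟨X, hXdef⟩ : ∃ X : Finset ℕ, X = S \ P := ⟨_, rfl⟩
  have hPX : P ∪ X = S := by
    rw [hXdef]
    exact union_sdiff_of_subset hPS
  have hXS : X ⊆ S := by
    rw [hXdef]
    exact sdiff_subset
  have hdisj : Disjoint P X := by
    rw [hXdef]
    exact disjoint_sdiff
  have hSc : (S.card : ℝ) ≤ δ₀ * N := by
    refine le_trans ?_ hinn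
    exact_mod_cast card_le_card hSinn
  have hlo : ε * N ≤ ((∑ v ∈ S, w v : ℕ) : ℝ) :=
    (Nat.le_ceil _).trans (by exact_mod_cast hk1)
  have hhi : ((∑ v ∈ S, w v : ℕ) : ℝ) ≤ 2 * ε * N := by
    have h1 : ((∑ v ∈ S, w v : ℕ) : ℝ) ≤ (⌈ε * N⌉₊ : ℝ) + (⌊(N : ℝ) ^ (24 / 25 : ℝ)⌋₊ : ℝ) := by
      exact_mod_cast hk2
    have h2 : (⌊(N : ℝ) ^ (24 / 25 : ℝ)⌋₊ : ℝ) ≤ (N : ℝ) ^ (24 / 25 : ℝ) :=
      Nat.floor_le (Real.rpow_nonneg (Nat.cast_nonneg _) _)
    linarith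
  have hAbsW : AbsW ε κ N P X w := by
    refine ⟨hdisj, ?_, ?_, hwP, ?_, ?_⟩
    · rw [hPX]
      exact hSc.trans (mul_le_mul_of_nonneg_right hδκ (Nat.cast_nonneg _))
    · intro v hv
      rw [hPX] at hv
      exact hwle v (hSinn hv)
    · rw [hPX]
      exact hlo
    · rw [hPX]
      exact hhi
  obtain ⟨a, ha, hA⟩ := hA par P X w hAbsW
  -- the values of the items of `P`
  have hvalP : ∀ x ∈ items par P, 32 * val par f₀ x ≤ n := by
    intro x hx
    cases x with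
    | inl i =>
      rw [mem_items_inl] at hx
      rw [val_inl]
      exact hf₀ i hx
    | inr i =>
      rw [mem_items_inr] at hx
      rw [val_inr]
      have h1 := hf₀ i hx.1
      have h2 := hf₀ (par i) hx.2.2
      unfold dd
      omega
  have hHS : HypS δ₁ n N par P X R O f₀ := by
    refine ⟨hH.isP, hH.Psub.trans hI3, (hXS.trans hSinn).trans hI3, hdisj, hH.num.1, ?_, ?_, ?_, ?_,
      hO, hO32⟩
    · intro x hx
      refine ⟨hH.num.2 x hx, ?_⟩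
      have := hvalP x hx
      omega
    · intro v hv
      have hvS := hXS hv
      have hvn : v < n := mem_range.1 (hI3 (hSinn hvS))
      have hvP : v ∉ P := by
        rw [hXdef, mem_sdiff] at hv
        exact hv.2
      refine le_trans (card_le_card ?_) (hH.Pclo v hvn hvP)
      intro c hc
      rw [mem_filter, mem_chs] at hc
      rw [mem_bnb]
      exact ⟨hc.2, Or.inr ⟨hc.1.2.1, hc.1.1, hc.1.2.2⟩⟩
    · rw [hPX]
      exact hSc.trans (mul_le_mul_of_nonneg_right hδδ (Nat.cast_nonneg _))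
    · exact hR2.trans (mul_le_mul_of_nonneg_right hβRδ (Nat.cast_nonneg _))
  obtain ⟨f, hf, hfj⟩ := hQ N (by omega) n par P X R O f₀ hHS a ha ψ hψ
  have hWt : Wt P X n = S := by
    unfold Wt
    have h1 : X.filter (· < n) = X := by
      rw [filter_eq_self]
      intro x hx
      exact mem_range.1 (hI3 (hSinn (hXS hx)))
    rw [h1, hPX]
  have hQRf : QRf m N κ par P X O a ψ f := by
    refine ⟨fun j hj => (hfj j hj).1, fun j hj => ?_⟩
    have h1 := (hfj j hj).2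
    unfold vls at h1
    rw [hWt, ← hPX] at h1
    exact h1
  have hrngS : ∀ x ∈ items par S, 1 ≤ val par f x ∧ val par f x ≤ N ∧ val par f x ∉ R := by
    intro x hx
    have hx' : x ∈ items par (Wt P X n) := by
      rw [hWt]
      exact hx
    refine ⟨(hf.rng x hx').1, (hf.rng x hx').2, ?_⟩
    by_cases hxP : x ∈ items par P
    · have h1 : val par f x = val par f₀ x := val_items (fun i hi => hf.agree i hi) hxP
      intro hmem
      have h2 := (hR1 _ hmem).1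
      have h3 := hvalP x hxP
      rw [h1] at h2
      have h4 : (32 : ℝ) * (val par f₀ x : ℝ) ≤ N := by
        have : 32 * val par f₀ x ≤ N := h3.trans hnN
        exact_mod_cast this
      linarith
    · exact hf.new x hx' hxP
  have hinjS : Set.InjOn (val par f) (items par S) := by
    have := hf.inj
    rw [hWt] at this
    exact this
  have hAbsV : AbsV N par P X O R f := by
    refine ⟨?_, ?_, ?_, ?_⟩
    · rw [hPX]
      exact hinjS
    · rw [hPX]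
      exact hrngS
    · intro v hv
      rw [hf.agree v hv]
      refine ⟨(hH.lab v hv).1, ?_⟩
      have := hf₀ v hv
      omega
    · intro v hv
      exact hf.ok v hv (mem_range.1 (hI3 (hSinn (hXS hv))))
  obtain ⟨A, hA1, hA2, hA3, hA4, hA5, hA6⟩ := hA f hAbsV hQRf
  rw [hPX] at hA3 hA5 hA6
  have hcard : (S.biUnion (lvs n par)).card = ∑ v ∈ S, w v := by
    rw [cc1a_biU, hw]
  refine ⟨S, A, f, ⟨⟨k, hSdef⟩, fun v hv => hf.agree v hv, hinjS, ?_, ?_, hA1, hA2, hA4, ?_, ?_, ?_⟩⟩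
  · intro x hx
    obtain ⟨h1, h2, h3⟩ := hrngS x hx
    refine ⟨h1, h2, ?_, h3⟩
    intro hmem
    exact (Finset.disjoint_left.1 hA3) hmem (mem_image_of_mem _ hx)
  · intro v hv
    rw [← hPX, mem_union] at hv
    rcases hv with hv | hv
    · rw [hf.agree v hv]
      exact (hH.lab v hv).1
    · exact (hO _ (hAbsV.XO v hv)).1
  · rw [hcard]
    have h1 : 2 * β * (N : ℝ) ≤ 2 * β₀ * N :=
      mul_le_mul_of_nonneg_right (by linarith) (Nat.cast_nonneg _)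
    linarith
  · rw [hcard]
    have h1 : (20000 : ℝ) * ((∑ v ∈ S, w v : ℕ) : ℝ) ≤ N := by
      have h2 : ε * N ≤ 1 / 40000 * N := mul_le_mul_of_nonneg_right hε1 (Nat.cast_nonneg _)
      linarith
    exact_mod_cast h1
  · intro J hJ1 hJ2 hJ3 hJ4 hJ5
    have h1 := hA6 J hJ1 hJ2 hJ3 hJ4 (by rw [← hcard]; exact hJ5)
    rw [hw] at h1
    exact unitsW_leaves h1

private theorem cc1b_par {n σ : ℕ} (hσ : σ < 2) :
    n - 1 ≤ ((Icc 1 (2 * n - 1)).filter (fun y => y % 2 = σ)).card := by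
  have h1 : ((range (n - 1)).image (fun i => 2 * i + 2 - σ)).card = n - 1 := by
    rw [card_image_of_injOn, card_range]
    intro a _ b _ hab
    simp only at hab
    omega
  refine h1.ge.trans (card_le_card ?_)
  intro x hx
  obtain ⟨i, hi, rfl⟩ := mem_image.1 hx
  rw [mem_range] at hi
  rw [mem_filter, mem_Icc]
  omega

private theorem cc1b_bal {A : Finset ℕ} (h : Bal A) {σ : ℕ} (hσ : σ < 2) :
    2 * (A.filter (fun y => y % 2 = σ)).card = A.card := by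
  have h1 : (A.filter (fun x => x % 2 = 0)).card + (A.filter (fun x => x % 2 = 1)).card = A.card := by
    rw [← card_union_of_disjoint]
    · congr 1
      ext x
      rw [mem_union, mem_filter, mem_filter]
      constructor
      · rintro (h | h)
        · exact h.1
        · exact h.1
      · intro hx
        rcases Nat.mod_two_eq_zero_or_one x with h2 | h2
        · exact Or.inl ⟨hx, h2⟩
        · exact Or.inr ⟨hx, h2⟩
    · rw [disjoint_left]
      intro x hx hx'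
      have h2 := (mem_filter.1 hx).2
      have h3 := (mem_filter.1 hx').2
      omega
  unfold Bal at h
  rcases Nat.lt_succ_iff_lt_or_eq.1 hσ with h2 | h2
  · obtain rfl : σ = 0 := by omega
    omega
  · subst h2
    omega

private theorem cc1b_lvs {n : ℕ} {par : ℕ → ℕ} {v c : ℕ} :
    c ∈ lvs n par v ↔ (c < n ∧ 1 ≤ c ∧ par c = v) ∧ chs n par c = ∅ := by
  rw [lvs, mem_filter, mem_chs]

private theorem cc1b_rpow {w n N : ℕ} (hn : n ≤ N) (h : w ^ 25 ≤ n ^ 24) :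
    ((w : ℕ) : ℝ) ≤ (N : ℝ) ^ (24 / 25 : ℝ) := by
  have h1 : (w : ℝ) ^ 25 ≤ (N : ℝ) ^ 24 := by
    exact_mod_cast h.trans (Nat.pow_le_pow_left hn 24)
  have h2 : (w : ℝ) = ((w : ℝ) ^ 25) ^ (1 / 25 : ℝ) := by
    rw [← Real.rpow_natCast, ← Real.rpow_mul (Nat.cast_nonneg _)]
    norm_num
  have h3 : (N : ℝ) ^ (24 / 25 : ℝ) = ((N : ℝ) ^ 24) ^ (1 / 25 : ℝ) := by
    rw [← Real.rpow_natCast, ← Real.rpow_mul (Nat.cast_nonneg _)]
    norm_num
  rw [h2, h3]
  exact Real.rpow_le_rpow (by positivity) h1 (by norm_num)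

theorem cc1b (β : ℝ) (hβ : 0 < β) (hβ1 : β ≤ 1) : ∃ δ₀ : ℝ, 0 < δ₀ ∧ ∃ n₀ : ℕ, ∀ n : ℕ, n₀ ≤ n →
    ∀ (par : ℕ → ℕ) (P : Finset ℕ) (f₀ : ℕ → ℕ), HypL δ₀ n par P f₀ →
    ∀ R : Finset ℕ, RsvL (β / 8) n R → RsvL (1 / 100000) n R →
    ∀ (S A : Finset ℕ) (f₁ : ℕ → ℕ), CfgS β n (2 * n - 1) par P S R A f₀ f₁ →
    ∃ (f : ℕ → ℕ) (mu : ℕ → ℕ → ℝ) (kr : ℕ → ℕ → ℕ → ℝ),
      CfgL n (2 * n - 1) par P S R A f₀ f mu kr := by
  classical
  obtain ⟨τ, hτdef⟩ : ∃ τ : ℝ, τ = β / 40 := ⟨_, rfl⟩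
  have hτ : 0 < τ := by rw [hτdef]; positivity
  have hτ1 : τ ≤ 1 := by rw [hτdef]; linarith
  obtain ⟨δ₂, hδ₂, N₂, hqrm⟩ := qrm τ hτ
  obtain ⟨δ₃, hδ₃, N₃, hlaw⟩ := lawC τ hτ
  obtain ⟨δ₀, hδ₀, d2, d3, d4, d5⟩ : ∃ δ₀ : ℝ, 0 < δ₀ ∧ δ₀ ≤ δ₂ ∧ δ₀ ≤ δ₃ ∧ δ₀ ≤ β / 16 ∧
      δ₀ ≤ 1 / 200000 :=
    ⟨min (min δ₂ δ₃) (min (β / 16) (1 / 200000)),
      lt_min (lt_min hδ₂ hδ₃) (lt_min (by positivity) (by norm_num)),
      (min_le_left _ _).trans (min_le_left _ _), (min_le_left _ _).trans (min_le_right _ _),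
      (min_le_right _ _).trans (min_le_left _ _), (min_le_right _ _).trans (min_le_right _ _)⟩
  refine ⟨δ₀, hδ₀, max (max 2 N₂) (max N₃ ⌈16 / β⌉₊), ?_⟩
  intro n hn par P f₀ hL R hR1 hR2 S A f₁ hS
  have n2 : 2 ≤ n := (le_max_left _ _).trans ((le_max_left _ _).trans hn)
  have nN2 : N₂ ≤ n := (le_max_right _ _).trans ((le_max_left _ _).trans hn)
  have nN3 : N₃ ≤ n := (le_max_left _ _).trans ((le_max_right _ _).trans hn)
  have nβ : ⌈16 / β⌉₊ ≤ n := (le_max_right _ _).trans ((le_max_right _ _).trans hn)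
  obtain ⟨i0, i1, i2, i3⟩ := inn_facts n2 hL.isP
  have hsum := lvs_sum_inn n2 hL.isP
  obtain ⟨hRx, hRc⟩ := hR1
  obtain ⟨-, hRc2⟩ := hR2
  have hpc : ∀ σ < 2, n - 1 ≤ ((Icc 1 (2 * n - 1)).filter (fun y => y % 2 = σ)).card :=
    fun σ hσ => cc1b_par hσ
  obtain ⟨N, hN⟩ : ∃ N : ℕ, N = 2 * n - 1 := ⟨_, rfl⟩
  rw [← hN] at hRx hRc hRc2 hS hpc
  rw [← hN]
  have nN : n ≤ N := by omega
  have nNr : (n : ℝ) ≤ N := by exact_mod_cast nN
  have Nβ : 16 ≤ β * N := by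
    have h1 : 16 / β ≤ (n : ℝ) := (Nat.le_ceil _).trans (by exact_mod_cast nβ)
    rw [div_le_iff₀ hβ] at h1
    nlinarith
  have hSinn : S ⊆ inn n par := by
    obtain ⟨k, hk⟩ := hS.Sk
    rw [hk]
    exact union_subset hL.Psub (filter_subset _ _)
  have hPS : P ⊆ S := by
    obtain ⟨k, hk⟩ := hS.Sk
    rw [hk]
    exact subset_union_left
  obtain ⟨X, hX⟩ : ∃ X : Finset ℕ, X = inn n par \ S := ⟨_, rfl⟩
  obtain ⟨FT, hFT⟩ : ∃ FT : Finset ℕ, FT = (items par S).image (val par f₁) := ⟨_, rfl⟩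
  obtain ⟨F, hF⟩ : ∃ F : Finset ℕ, F = A ∪ R ∪ FT := ⟨_, rfl⟩
  have hXinn : X ⊆ inn n par := by
    rw [hX]
    exact sdiff_subset
  have hSX : S ∪ X = inn n par := by
    rw [hX]
    exact union_sdiff_of_subset hSinn
  have hcardinn : ((inn n par).card : ℝ) ≤ δ₀ * N :=
    hL.inn_le.trans (mul_le_mul_of_nonneg_left nNr hδ₀.le)
  have hcardS : S.card ≤ (inn n par).card := card_le_card hSinn
  have hFTc : FT.card ≤ 2 * (inn n par).card := by
    have h1 : FT.card ≤ (items par S).card := by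
      rw [hFT]
      exact card_image_le
    have h2 := items_le par S
    omega
  have hFTr : (FT.card : ℝ) ≤ 2 * (inn n par).card := by exact_mod_cast hFTc
  have hAc := hS.gap
  have hW : (20000 : ℝ) * (S.biUnion (lvs n par)).card ≤ N := by exact_mod_cast hS.Wle
  have hN0 : (0 : ℝ) ≤ N := Nat.cast_nonneg _
  have hFc : 4000 * F.card ≤ N := by
    have h1 : F.card ≤ A.card + R.card + FT.card := by
      rw [hF]
      exact (card_union_le _ _).trans (Nat.add_le_add_right (card_union_le _ _) _)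
    have h2 : (F.card : ℝ) ≤ A.card + R.card + FT.card := by exact_mod_cast h1
    have h4 : δ₀ * N ≤ 1 / 200000 * N := mul_le_mul_of_nonneg_right d5 hN0
    have h5 : (0 : ℝ) ≤ β * N := by positivity
    have h6 : (4000 : ℝ) * F.card ≤ N := by linarith
    exact_mod_cast h6
  have hFTsub : FT ⊆ Icc 1 N := by
    intro y hy
    rw [hFT] at hy
    obtain ⟨x, hx, rfl⟩ := mem_image.1 hy
    exact mem_Icc.2 ⟨(hS.rng x hx).1, (hS.rng x hx).2.1⟩
  have hRsub : R ⊆ Icc 1 N := by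
    intro x hx
    obtain ⟨h1, h2⟩ := hRx x hx
    refine mem_Icc.2 ⟨?_, h2⟩
    rcases Nat.eq_zero_or_pos x with h | h
    · exfalso
      rw [h, Nat.cast_zero] at h1
      have : (0 : ℝ) ≤ (N : ℝ) / 32 := by positivity
      linarith
    · exact h
  have hFsub : F ⊆ Icc 1 N := by
    rw [hF]
    exact union_subset (union_subset hS.Asub hRsub) hFTsub
  have hsplit : ∑ v ∈ X, (lvs n par v).card + ∑ v ∈ S, (lvs n par v).card =
      ∑ v ∈ inn n par, (lvs n par v).card := by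
    rw [hX]
    exact sum_sdiff hSinn
  have hΛc : (S.biUnion (lvs n par)).card = ∑ v ∈ S, (lvs n par v).card := by
    refine card_biUnion ?_
    intro v _ w _ hvw
    show Disjoint (lvs n par v) (lvs n par w)
    rw [disjoint_left]
    intro c hc hc'
    exact hvw ((cc1b_lvs.1 hc).1.2.2.symm.trans (cc1b_lvs.1 hc').1.2.2)
  have hM : HypM δ₂ n N par S X F f₁ (fun v => (lvs n par v).card) := by
    refine ⟨hL.isP, hSinn.trans i3, hXinn.trans i3, ?_, hS.inj,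
      fun x hx => ⟨(hS.rng x hx).1, (hS.rng x hx).2.1⟩, ?_, ?_, hFsub, hFc, ?_, ?_⟩
    · rw [hX]
      exact disjoint_sdiff
    · intro v hv
      rw [hX] at hv
      obtain ⟨hv1, hv2⟩ := mem_sdiff.1 hv
      obtain ⟨k, hk⟩ := hS.Sk
      have hvn : v < n := mem_range.1 (i3 hv1)
      have hvP : v ∉ P := fun h => hv2 (hPS h)
      have hkv : k ≤ v := by
        by_contra h
        apply hv2
        rw [hk]
        exact mem_union_right _ (mem_filter.2 ⟨hv1, not_le.1 h⟩)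
      refine (card_le_card ?_).trans (hL.Pclo v hvn hvP)
      intro c hc
      obtain ⟨hc1, hc2⟩ := mem_filter.1 hc
      obtain ⟨h3, h4, h5⟩ := mem_chs.1 hc1
      have h6 := hL.isP c h4 h3
      rw [hk, mem_union, mem_filter] at hc2
      rcases hc2 with h7 | ⟨_, h7⟩
      · exact mem_bnb.2 ⟨h7, Or.inr ⟨h4, h3, h5⟩⟩
      · omega
    · rw [hSX]
      exact hcardinn.trans (mul_le_mul_of_nonneg_right d2 hN0)
    · intro v hv
      have h1 := hL.lvs_le v (mem_range.1 (i3 (hXinn hv)))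
      exact cc1b_rpow nN h1
    · have h1 : ∑ v ∈ X, (fun v => (lvs n par v).card) v = ∑ v ∈ X, (lvs n par v).card := rfl
      rw [h1]
      omega
  obtain ⟨f, g, hinv, hg, hload⟩ := hqrm N (nN2.trans nN) n par S X F f₁ _ hM
  have hWt : Wt S X n = inn n par := by
    unfold Wt
    rw [filter_true_of_mem (fun v hv => mem_range.1 (i3 (hXinn hv)))]
    exact hSX
  have hinj := hinv.inj
  have hrng := hinv.rng
  have hnew := hinv.new
  rw [hWt] at hinj hrng hnew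
  have hvalS : ∀ x ∈ items par S, val par f x = val par f₁ x := fun x hx =>
    val_items hinv.agree hx
  obtain ⟨V, hV⟩ : ∃ V : Finset ℕ, V = (items par (inn n par)).image (val par f) := ⟨_, rfl⟩
  have hFTV : FT ⊆ V := by
    intro y hy
    rw [hFT] at hy
    obtain ⟨x, hx, rfl⟩ := mem_image.1 hy
    rw [hV]
    exact mem_image.2 ⟨x, items_mono hSinn hx, hvalS x hx⟩
  have hFV : F ∪ V = A ∪ R ∪ V := by
    rw [hF, union_assoc (A ∪ R), union_eq_right.2 hFTV]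
  obtain ⟨Z, hZ⟩ : ∃ Z : Finset ℕ, Z = (range n \ inn n par) \ S.biUnion (lvs n par) := ⟨_, rfl⟩
  have hZv : ∀ v ∈ Z, 1 ≤ v ∧ par v ∈ X ∧ chs n par v = ∅ := by
    intro v hv
    rw [hZ] at hv
    obtain ⟨h1, h2⟩ := mem_sdiff.1 hv
    obtain ⟨h3, h4⟩ := mem_sdiff.1 h1
    obtain ⟨h5, h6, h7⟩ := i1 v (mem_range.1 h3) h4
    refine ⟨h5, ?_, h7⟩
    rw [hX]
    refine mem_sdiff.2 ⟨h6, fun h8 => h2 ?_⟩
    exact mem_biUnion.2 ⟨par v, h8, cc1b_lvs.2 ⟨⟨mem_range.1 h3, h5, rfl⟩, h7⟩⟩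
  have hZr : Z ⊆ range n := by
    rw [hZ]
    exact sdiff_subset.trans sdiff_subset
  have hBZ : Disjoint (inn n par) Z := by
    rw [hZ, disjoint_left]
    intro v hv hv'
    exact (mem_sdiff.1 (mem_sdiff.1 hv').1).2 hv
  have hl : ∀ h ∈ X, (lvs n par h).card = (Z.filter (fun v => par v = h)).card := by
    intro h hh
    congr 1
    ext v
    rw [cc1b_lvs, mem_filter]
    constructor
    · rintro ⟨⟨h1, h2, h3⟩, h4⟩
      refine ⟨?_, h3⟩
      rw [hZ]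
      refine mem_sdiff.2 ⟨mem_sdiff.2 ⟨mem_range.2 h1, ?_⟩, ?_⟩
      · intro h5
        rw [inn, mem_filter, h4] at h5
        exact not_nonempty_empty h5.2
      · intro h5
        obtain ⟨s, hs, h6⟩ := mem_biUnion.1 h5
        have h7 := (cc1b_lvs.1 h6).1.2.2
        rw [hX] at hh
        apply (mem_sdiff.1 hh).2
        rw [← h3, h7]
        exact hs
    · rintro ⟨h1, h2⟩
      obtain ⟨h3, _, h5⟩ := hZv v h1
      exact ⟨⟨mem_range.1 (hZr h1), h3, h2⟩, h5⟩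
  obtain ⟨mu, kr, hlawV, hld⟩ := hlaw N (nN3.trans nN) n par (inn n par) X Z F f
    (fun v => (lvs n par v).card) g hL.isP i3 hXinn hZr hBZ hZv hFsub hFc
    (hcardinn.trans (mul_le_mul_of_nonneg_right d3 hN0))
    (fun h hh => hinv.ok h hh (mem_range.1 (i3 (hXinn hh)))) hg hl
  rw [← hV] at hlawV hld
  refine ⟨f, mu, kr, hSinn, ?_, hinj, ?_, ?_, hS.Asub, hS.AR, hS.bal, ?_, ?_, ?_⟩
  · intro v hv
    rw [hinv.agree v (hPS hv), hS.agree v hv]
  · intro x hx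
    refine ⟨(hrng x hx).1, (hrng x hx).2, ?_⟩
    by_cases hxS : x ∈ items par S
    · rw [hvalS x hxS]
      exact (hS.rng x hxS).2.2
    · have h1 := hnew x hx hxS
      rw [hF, mem_union, mem_union, not_or, not_or] at h1
      exact h1.1
  · intro v hv
    by_cases hvS : v ∈ S
    · rw [hinv.agree v hvS]
      exact hS.odd v hvS
    · have hvX : v ∈ X := by
        rw [hX]
        exact mem_sdiff.2 ⟨hv, hvS⟩
      exact (hinv.ok v hvX (mem_range.1 (i3 hv))).1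
  · rw [← hV, ← hZ, ← hFV]
    exact hlawV
  · rw [← hV, ← hZ, ← hFV]
    intro z hz
    refine (hld z hz).trans ?_
    obtain ⟨hz1, hz2⟩ := mem_sdiff.1 hz
    have hz3 : z ∉ F := fun h => hz2 (mem_union_left _ h)
    have h1 := hload z (mem_sdiff.2 ⟨hz1, hz3⟩)
    have hσ : z % 2 < 2 := Nat.mod_lt _ (by norm_num)
    have h2 := hpc (z % 2) hσ
    have h3 := cc1b_bal hS.bal hσ
    have h4 : ((Icc 1 N).filter (fun y => y % 2 = z % 2)).card ≤
        ((Icc 1 N \ F).filter (fun y => y % 2 = z % 2)).card +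
          (A.filter (fun y => y % 2 = z % 2)).card + R.card + FT.card := by
      have h5 : (Icc 1 N).filter (fun y => y % 2 = z % 2) ⊆
          (((Icc 1 N \ F).filter (fun y => y % 2 = z % 2) ∪
            A.filter (fun y => y % 2 = z % 2)) ∪ R) ∪ FT := by
        intro y hy
        obtain ⟨hy1, hy2⟩ := mem_filter.1 hy
        by_cases hyF : y ∈ F
        · rw [hF, mem_union, mem_union] at hyF
          rcases hyF with (hyF | hyF) | hyF
          · exact mem_union_left _ (mem_union_left _ (mem_union_right _ (mem_filter.2 ⟨hyF, hy2⟩)))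
          · exact mem_union_left _ (mem_union_right _ hyF)
          · exact mem_union_right _ hyF
        · exact mem_union_left _ (mem_union_left _ (mem_union_left _
            (mem_filter.2 ⟨mem_sdiff.2 ⟨hy1, hyF⟩, hy2⟩)))
      refine (card_le_card h5).trans ((card_union_le _ _).trans (Nat.add_le_add_right
        ((card_union_le _ _).trans (Nat.add_le_add_right (card_union_le _ _) _)) _))
    generalize hK : (∑ v ∈ X, ((lvs n par v).card : ℝ) * kap N (g v) z (f v)) = Kk at h1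
    generalize ((Icc 1 N).filter (fun y => y % 2 = z % 2)).card = q1 at h2 h4
    generalize ((Icc 1 N \ F).filter (fun y => y % 2 = z % 2)).card = q at h1 h4
    generalize (A.filter (fun y => y % 2 = z % 2)).card = a at h3 h4
    generalize (∑ v ∈ X, (lvs n par v).card) = L at h1 hsplit
    rw [← hΛc] at hsplit
    generalize (S.biUnion (lvs n par)).card = W at hsplit hAc
    generalize (∑ v ∈ inn n par, (lvs n par v).card) = s at hsplit hsum
    have h6 : n ≤ q + a + R.card + FT.card + 1 := by omega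
    have h7 : L + W + (inn n par).card = n := by omega
    have h6r : (n : ℝ) ≤ q + a + R.card + FT.card + 1 := by exact_mod_cast h6
    have h7r : (L : ℝ) + W + (inn n par).card = n := by exact_mod_cast h7
    have h3r : (2 : ℝ) * a = A.card := by exact_mod_cast h3
    have h8 : δ₀ * N ≤ β / 16 * N := mul_le_mul_of_nonneg_right d4 hN0
    have hq : (L : ℝ) + 3 / 4 * (β * N) ≤ q := by linarith
    have hL0 : (0 : ℝ) ≤ L := Nat.cast_nonneg _
    have hLN : (L : ℝ) ≤ N := by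
      have h9 : (0 : ℝ) ≤ W := Nat.cast_nonneg _
      have h10 : (0 : ℝ) ≤ ((inn n par).card : ℝ) := Nat.cast_nonneg _
      linarith
    have h11 : (1 + τ) * ((1 + τ) * L + τ * N) ≤ L + 5 * τ * N := by
      have h12 : τ * τ ≤ τ := by nlinarith
      have h13 : τ * L ≤ τ * N := mul_le_mul_of_nonneg_left hLN hτ.le
      have h14 : τ * τ * L ≤ τ * N := (mul_le_mul_of_nonneg_right h12 hL0).trans h13
      have h15 : τ * τ * N ≤ τ * N := mul_le_mul_of_nonneg_right h12 hN0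
      nlinarith
    have hq0 : (0 : ℝ) < q := by linarith
    have h16 : (1 + τ) * Kk * q ≤ 1 * q := by
      have h17 : (1 + τ) * (Kk * q) ≤ (1 + τ) * ((1 + τ) * L + τ * N) :=
        mul_le_mul_of_nonneg_left h1 (by linarith)
      have h18 : 5 * τ * N = β * N / 8 := by rw [hτdef]; ring
      have h19 : (1 + τ) * Kk * q = (1 + τ) * (Kk * q) := by ring
      rw [h19, one_mul]
      linarith
    exact le_of_mul_le_mul_right h16 hq0
  · intro J hJ hJA hJV hJb hJc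
    have hJS : Disjoint J ((items par S).image (val par f₁)) := by
      rw [← hFT]
      rw [← hV] at hJV
      exact hJV.mono_right hFTV
    obtain ⟨b, h1, h2, h3⟩ := hS.mtch J hJ hJA hJS hJb hJc
    refine ⟨b, fun v hv => ?_, h2, h3⟩
    have h4 := h1 v hv
    obtain ⟨s, hs, h6⟩ := mem_biUnion.1 hv
    have h7 : par v = s := (cc1b_lvs.1 h6).1.2.2
    have h8 : f (par v) = f₁ (par v) := by
      rw [h7]
      exact hinv.agree s hs
    show IsBlock 1 (f (par v), f (par v)) (b v)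
    rw [h8]
    exact h4

theorem cc1 (hA : AbsR) : ∃ βR δ₀ : ℝ, 0 < βR ∧ 0 < δ₀ ∧ ∃ n₀ : ℕ, ∀ n : ℕ, n₀ ≤ n →
    ∀ (par : ℕ → ℕ) (P : Finset ℕ) (f₀ : ℕ → ℕ), HypL δ₀ n par P f₀ →
    ∀ R : Finset ℕ, RsvL βR n R →
    ∃ (S A : Finset ℕ) (f : ℕ → ℕ) (mu : ℕ → ℕ → ℝ) (kr : ℕ → ℕ → ℕ → ℝ),
      CfgL n (2 * n - 1) par P S R A f₀ f mu kr := by
  obtain ⟨β, βR, δ₁, hβ, hβ1, hR, hR1, hR2, hδ₁, n₁, h₁⟩ := cc1a hA
  obtain ⟨δ₂, hδ₂, n₂, h₂⟩ := cc1b β hβ hβ1
  refine ⟨βR, min δ₁ δ₂, hR, lt_min hδ₁ hδ₂, max n₁ n₂, fun n hn par P f₀ hL R hRs => ?_⟩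
  have hL' : ∀ δ, min δ₁ δ₂ ≤ δ → HypL δ n par P f₀ := fun δ hδ =>
    ⟨hL.isP, hL.par0, hL.inn_le.trans (mul_le_mul_of_nonneg_right hδ (Nat.cast_nonneg _)),
      hL.lvs_le, hL.Psub, hL.Pclo, hL.Pcard, hL.num, hL.lab, hL.lvsP⟩
  obtain ⟨S, A, f₁, hS⟩ := h₁ n (le_trans (le_max_left _ _) hn) par P f₀
    (hL' _ (min_le_left _ _)) R hRs
  obtain ⟨f, mu, kr, hC⟩ := h₂ n (le_trans (le_max_right _ _) hn) par P f₀
    (hL' _ (min_le_right _ _)) R
    ⟨hRs.1, hRs.2.trans (mul_le_mul_of_nonneg_right hR1 (Nat.cast_nonneg _))⟩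
    ⟨hRs.1, hRs.2.trans (mul_le_mul_of_nonneg_right hR2 (Nat.cast_nonneg _))⟩ S A f₁ hS
  exact ⟨S, A, f, mu, kr, hC⟩

theorem cc2 (βR : ℝ) (hβ : 0 < βR) : ∃ R : ℕ → Finset ℕ, ∃ n₀ : ℕ, ∀ n : ℕ, n₀ ≤ n →
    RsvL βR n (R (2 * n - 1)) ∧
    ∀ (δ₀ : ℝ) (par : ℕ → ℕ) (P : Finset ℕ) (f₀ : ℕ → ℕ), HypL δ₀ n par P f₀ →
    ∀ (S A : Finset ℕ) (f : ℕ → ℕ) (mu : ℕ → ℕ → ℝ) (kr : ℕ → ℕ → ℕ → ℝ),
      CfgL n (2 * n - 1) par P S (R (2 * n - 1)) A f₀ f mu kr → SSext n par P f₀ := by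
  obtain ⟨l, R, N₁, hl, hR⟩ := late2 1 (1 / 32) βR (by norm_num) (by norm_num) hβ
  obtain ⟨γ, hγ, N₂, hpk⟩ := packV 1 1600 (l / 2) (by norm_num) (by positivity)
  obtain ⟨N₃, hN₃⟩ := exists_nat_gt ((1 / γ) ^ 25)
  refine ⟨R, N₁ + N₂ + N₃ + 2, fun n hn => ?_⟩
  have hN : n ≤ 2 * n - 1 := by omega
  obtain ⟨hR1, hR2, hR3⟩ := hR (2 * n - 1) (by omega)
  refine ⟨⟨fun x hx => ⟨by have := (hR1 x hx).1; linarith, ?_⟩, hR2⟩, ?_⟩
  · have h1 := (hR1 x hx).2
    exact_mod_cast h1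
  intro δ₀ par P f₀ hL S A f mu kr c
  have hnpos : (0 : ℝ) < n := by
    have : 0 < n := by omega
    exact_mod_cast this
  obtain ⟨i0, i1, i2, i3⟩ := inn_facts (n := n) (by omega) hL.isP
  set N := 2 * n - 1 with hNdef
  set B := inn n par with hB
  set Λ := S.biUnion (lvs n par) with hΛ
  set Z := (range n \ B) \ Λ with hZ
  -- the leaves
  have hΛv : ∀ v ∈ Λ, v < n ∧ 1 ≤ v ∧ par v ∈ S ∧ chs n par v = ∅ := by
    intro v hv
    rw [hΛ, mem_biUnion] at hv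
    obtain ⟨s, hs, hv⟩ := hv
    unfold lvs at hv
    rw [mem_filter, mem_chs] at hv
    exact ⟨hv.1.1, hv.1.2.1, by rw [hv.1.2.2]; exact hs, hv.2⟩
  have hBΛ : ∀ v ∈ B, v ∉ Λ := by
    intro v hv hv'
    rw [hB] at hv
    unfold inn at hv
    rw [mem_filter, (hΛv v hv').2.2.2] at hv
    exact absurd hv.2 not_nonempty_empty
  have hZv : ∀ v ∈ Z, v < n ∧ v ∉ B ∧ v ∉ Λ ∧ 1 ≤ v ∧ par v ∈ B ∧ chs n par v = ∅ := by
    intro v hv
    rw [hZ, mem_sdiff, mem_sdiff, mem_range] at hv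
    obtain ⟨h1, h2, h3⟩ := i1 v hv.1.1 hv.1.2
    exact ⟨hv.1.1, hv.1.2, hv.2, h1, h2, h3⟩
  have hbnb : ∀ v ∈ Z, ∀ b ∈ bnb n par B v, b = par v := by
    intro v hv b hb
    unfold bnb at hb
    rw [mem_filter] at hb
    rcases hb.2 with h1 | h1
    · exact h1.2.2.symm
    · exfalso
      have h2 := i2 b hb.1 h1.1
      rw [h1.2.2] at h2
      exact (hZv v hv).2.1 h2
  -- the packing
  have hpack := hpk N (by omega) n par hL.isP hN B Z
    (Icc 1 N \ (A ∪ R N ∪ (items par B).image (val par f))) f i3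
    (fun v hv => mem_range.2 (hZv v hv).1)
    (disjoint_left.2 fun v hv hv' => (hZv v hv').2.1 hv)
    (fun h0 => (hZv 0 h0).2.1 i0) sdiff_subset
    (fun v hv => by
      refine card_le_one.2 fun a ha b hb => ?_
      rw [hbnb v hv a ha, hbnb v hv b hb]) c.inj
    (fun x hx => ⟨(c.rng x hx).1, fun h1 => (mem_sdiff.1 h1).2
      (mem_union_right _ (mem_image_of_mem _ hx))⟩)
    (fun b hb => by
      have h1 : (Z.filter (fun v => b ∈ bnb n par B v)) ⊆ lvs n par b := by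
        intro v hv
        rw [mem_filter] at hv
        have h2 := hZv v hv.1
        unfold lvs
        rw [mem_filter, mem_chs]
        exact ⟨⟨h2.1, h2.2.2.2.1, (hbnb v hv.1 b hv.2).symm⟩, h2.2.2.2.2.2⟩
      have h2 : ((Z.filter (fun v => b ∈ bnb n par B v)).card : ℝ) ≤ (lvs n par b).card := by
        exact_mod_cast card_le_card h1
      refine h2.trans ?_
      have h3 := hL.lvs_le b (mem_range.1 (i3 hb))
      by_contra hcon
      push Not at hcon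
      have h4 : γ * n < ((lvs n par b).card : ℝ) := by
        refine lt_of_le_of_lt ?_ hcon
        have h5 : (n : ℝ) ≤ N := by exact_mod_cast hN
        exact mul_le_mul_of_nonneg_left h5 hγ.le
      have h5 : (γ * n) ^ 25 < ((lvs n par b).card : ℝ) ^ 25 :=
        pow_lt_pow_left₀ h4 (by positivity) (by norm_num)
      have h6 : ((lvs n par b).card : ℝ) ^ 25 ≤ (n : ℝ) ^ 24 := by exact_mod_cast h3
      have h7 : (1 / γ) ^ 25 < n := by
        have h8 : (N₃ : ℝ) ≤ n := by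
          have : N₃ ≤ n := by omega
          exact_mod_cast this
        linarith
      have h8 : 1 < γ ^ 25 * n := by
        have h9 : (1 / γ) ^ 25 * γ ^ 25 = 1 := by
          rw [← mul_pow, one_div_mul_cancel hγ.ne', one_pow]
        have h10 : 0 < γ ^ 25 := by positivity
        nlinarith
      have h9 : (n : ℝ) ^ 24 < (γ * n) ^ 25 := by
        have h10 : (γ * n) ^ 25 = (γ ^ 25 * n) * n ^ 24 := by ring
        rw [h10]
        have h11 : (0 : ℝ) < n ^ 24 := by positivity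
        nlinarith
      linarith)
    (fun r => by
      refine card_le_one.2 fun a ha b hb => ?_
      have h1 : ∀ i ∈ comp n par (range n \ Z) r, i = r := by
        intro i hi
        unfold comp at hi
        rw [mem_filter, mem_range, mem_sdiff, mem_range, not_and, not_not] at hi
        have h2 := hi.2.1 hi.1
        have h3 : par i ∈ range n \ Z := by
          rw [mem_sdiff]
          exact ⟨i3 (hZv i h2).2.2.2.2.1, fun h4 => (hZv _ h4).2.1 (hZv i h2).2.2.2.2.1⟩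
        rw [topv_stop h3] at hi
        exact hi.2.2
      rw [h1 a ha, h1 b hb])
    mu kr c.law c.load
  obtain ⟨Cv, f₁, p1, -, p3, p4, p5, p6⟩ := hpack
  have v1 : ∀ x ∈ items par (B ∪ Cv), 1 ≤ val par f₁ x ∧ val par f₁ x ≤ N ∧ val par f₁ x ∉ A ∧
      val par f₁ x ∉ R N := by
    intro x hx
    by_cases hxB : x ∈ items par B
    · rw [val_items p3 hxB]
      exact c.rng x hxB
    · have h1 := p5 x hx hxB
      rw [mem_sdiff, mem_Icc, mem_union, mem_union, not_or, not_or] at h1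
      exact ⟨h1.1.1, h1.1.2, h1.2.1.1, h1.2.1.2⟩
  -- the late vertices
  have hT : (range n \ Λ) \ (B ∪ Cv) = Z \ Cv := by
    rw [hZ]
    ext v
    simp only [mem_sdiff, mem_union, not_or]
    tauto
  obtain ⟨⟨f₂, q1, q2, q3⟩, -⟩ := hR3 n par hL.isP (range n \ Λ) (B ∪ Cv) f₁
    (union_subset (fun v hv => mem_sdiff.2 ⟨i3 hv, hBΛ v hv⟩)
      (fun v hv => mem_sdiff.2 ⟨mem_range.2 (hZv v (p1 hv)).1, (hZv v (p1 hv)).2.2.1⟩))
    sdiff_subset
    (fun v hv => by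
      rw [hT, mem_sdiff] at hv
      have h1 := hZv v hv.1
      unfold pdeg
      rw [h1.2.2.2.2.2, card_empty]
      split_ifs <;> omega)
    p4 (fun x hx => ⟨(v1 x hx).1, (v1 x hx).2.1, (v1 x hx).2.2.2⟩)
    (by
      rw [hT]
      refine p6.trans ?_
      have : (0 : ℝ) ≤ N := Nat.cast_nonneg _
      nlinarith)
  have v2 : ∀ x ∈ items par (range n \ Λ), 1 ≤ val par f₂ x ∧ val par f₂ x ≤ N ∧
      val par f₂ x ∉ A := by
    intro x hx
    by_cases hxW : x ∈ items par (B ∪ Cv)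
    · rw [val_items q1 hxW]
      exact ⟨(v1 x hxW).1, (v1 x hxW).2.1, (v1 x hxW).2.2.1⟩
    · have h1 := q3 x hx hxW
      have h2 := hR1 _ h1
      refine ⟨?_, by exact_mod_cast h2.2, fun h3 => disjoint_left.1 c.AR h3 h1⟩
      have h3 : (0 : ℝ) < (val par f₂ x : ℕ) := by
        refine lt_of_le_of_lt ?_ h2.1
        positivity
      exact_mod_cast h3
  have hf2 : ∀ v ∈ B, f₂ v = f v := fun v hv => by
    rw [q1 v (mem_union_left _ hv), p3 v hv]
  have hBT : B ⊆ range n \ Λ := fun v hv => mem_sdiff.2 ⟨i3 hv, hBΛ v hv⟩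
  -- absorption
  obtain ⟨J, hJ⟩ : ∃ J, J = Icc 1 (2 * n - 1) \
      (A ∪ (items par (range n \ Λ)).image (val par f₂)) := ⟨_, rfl⟩
  obtain ⟨b1, b2⟩ := balJ (n := n) (by omega) hL.isP (A := A) (Λ := Λ) (J := J) (f := f₂)
    (fun v hv => mem_sdiff.2 ⟨mem_range.2 (hΛv v hv).1, fun h1 => hBΛ v h1 hv⟩)
    (fun v hv => by rw [hf2 v hv]; exact c.odd v hv) q2 v2 c.Asub c.bal hJ
  have hJA : Disjoint J A := by
    rw [hJ]
    exact disjoint_left.2 fun x hx hx' => (mem_sdiff.1 hx).2 (mem_union_left _ hx')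
  have hJB : Disjoint J ((items par B).image (val par f)) := by
    rw [hJ]
    refine disjoint_left.2 fun x hx hx' => (mem_sdiff.1 hx).2 (mem_union_right _ ?_)
    obtain ⟨y, hy, rfl⟩ := mem_image.1 hx'
    rw [mem_image]
    exact ⟨y, items_mono hBT hy, val_items hf2 hy⟩
  have hM := c.mtch J (by rw [hJ]; exact sdiff_subset) hJA hJB b1 b2
  have hM2 : MatchU Λ (fun v => f₂ (par v)) (A ∪ J) := by
    obtain ⟨β, m1, m2, m3⟩ := hM
    refine ⟨β, fun e he => ?_, m2, m3⟩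
    have h1 : IsBlock 1 (f (par e), f (par e)) (β e) := m1 e he
    rw [← hf2 _ (c.Ssub (hΛv e he).2.2.1)] at h1
    exact h1
  obtain ⟨f', r1, r2, r3⟩ := abs_finR (n := n) (by omega) hL.isP (A := A) (Λ := Λ) (f := f₂) c.Asub
    (fun v hv => mem_range.2 (hΛv v hv).1)
    (fun v hv => ⟨(hΛv v hv).2.1, fun h1 => hBΛ _ (c.Ssub (hΛv v hv).2.2.1) h1,
      (hΛv v hv).2.2.2⟩) q2 v2 (by rw [← hJ]; exact hM2)
  refine ⟨f', fun v hv => ?_, r2, r3⟩
  have hvB : v ∈ B := hL.Psub hv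
  rw [r1 v (hBΛ v hvB), hf2 v hvB, c.agree v hv]

theorem coreLH (hA : AbsR) : ∃ δ₀ : ℝ, 0 < δ₀ ∧ ∃ n₀ : ℕ, ∀ n : ℕ, n₀ ≤ n →
    ∀ (par : ℕ → ℕ) (P : Finset ℕ) (f₀ : ℕ → ℕ), HypL δ₀ n par P f₀ → SSext n par P f₀ := by
  obtain ⟨βR, δ₀, hβ, hδ, n₁, h₁⟩ := cc1 hA
  obtain ⟨R, n₂, h₂⟩ := cc2 βR hβ
  refine ⟨δ₀, hδ, max n₁ n₂, fun n hn par P f₀ hL => ?_⟩
  obtain ⟨hR, h3⟩ := h₂ n (le_trans (le_max_right _ _) hn)
  obtain ⟨S, A, f, mu, kr, hC⟩ := h₁ n (le_trans (le_max_left _ _) hn) par P f₀ hL _ hR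
  exact h3 δ₀ par P f₀ hL S A f mu kr hC

/-- the core statement of RDef.lean -/
theorem coreLH_of (hA : AbsR) : CoreLH := by
  obtain ⟨δ₀, hδ, n₀, h⟩ := coreLH hA
  refine ⟨δ₀, hδ, n₀, fun n hn par hpar h0 hinn hlvs P hP hclo hcard f₀ hnum hlab hw => ?_⟩
  exact h n hn par P f₀ ⟨hpar, h0, hinn, hlvs, hP, hclo, hcard, hnum, hlab, hw⟩

end SSB
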