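import Pool.Agent.Lib.MP_8a819d_co.LH.RuM

/-!
# Pairs of units, fixed pairs

JOB Ext (all of this file).

* `unit_pairs`: induction on `n`. Step: the units used so far are `2 n'` with `n' < n`; `h1` any unit of `U` outside `Ub` and the used ones; `h2` a unit outside `Ub`, the used ones, and the units with the label `c h1` (at most `m`, they
  include `h1`).
* `fix_pairs`: induction on `E`. Step: the labels used so far are `|F| + 2 |E'|`; among the `x` with `1 ≤ x ≤ N - c e` (at least `7 N/8`) there is one with `x`, `x + c e` both free, as every forbidden label excludes at most two `x`.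
  The pair `{x, x + c e}` is a block (`isBlock_pair` with `dd (x + c e) (c e) = x`).
* `trn_floor`: for the units `(u, i)` with `i < w u / K`. For `d` not a label of `S` both sides are `0`; for `d = f u` (`f` injective on `S`): `(w u/K) W ≤ 2 w u G` where `G = ∑ w u / K ≥ ∑ w u/(2K) = W/(2K)`
  (`w u ≥ K` implies `w u / K ≥ w u/(2 K)` as natural number division loses less than `1 ≤ w u / K`), i.e. `2 K G ≥ W` and `(w u/K) W ≤ (w u/K) 2 K G ≤ 2 w u G`.
* `card_floor`: `W ≤ 2 K G`, `K G ≤ W`.
-/

set_option autoImplicit false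

namespace SSB

open Finset

theorem unit_pairs {ι : Type} [DecidableEq ι] [Inhabited ι] {U Ub : Finset ι} {c : ι → ℕ} {m : ℕ}
    (hm : ∀ d, (U.filter (fun e => c e = d)).card ≤ m) (n : ℕ) (h : Ub.card + 2 * n + m < U.card) :
    ∃ g : ℕ → Bool → ι, (∀ i < n, ∀ s, g i s ∈ U ∧ g i s ∉ Ub) ∧ (∀ i < n, c (g i true) ≠ c (g i false)) ∧
      ∀ i < n, ∀ j < n, ∀ s s', g i s = g j s' → i = j ∧ s = s' := by
  induction n with
  | zero =>
    exact ⟨fun _ _ => default, fun i hi => absurd hi (by omega), fun i hi => absurd hi (by omega),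
      fun i hi => absurd hi (by omega)⟩
  | succ n ih =>
    obtain ⟨g, g1, g2, g3⟩ := ih (by omega)
    set used : Finset ι := (range n ×ˢ (Finset.univ : Finset Bool)).image (fun p => g p.1 p.2)
      with hused
    have hmem : ∀ i < n, ∀ s, g i s ∈ used := by
      intro i hi s
      rw [hused, mem_image]
      exact ⟨(i, s), mem_product.2 ⟨mem_range.2 hi, mem_univ _⟩, rfl⟩
    have hcard : used.card ≤ 2 * n := by
      refine card_image_le.trans ?_
      rw [card_product, card_range, card_univ, Fintype.card_bool, mul_comm]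
    obtain ⟨e1, he1, he1'⟩ : ∃ e ∈ U, e ∉ Ub ∪ used := by
      refine exists_mem_notMem_of_card_lt_card ?_
      have := card_union_le Ub used
      omega
    obtain ⟨e2, he2, he2'⟩ : ∃ e ∈ U, e ∉ Ub ∪ used ∪ U.filter (fun e => c e = c e1) := by
      refine exists_mem_notMem_of_card_lt_card ?_
      have h1 := card_union_le Ub used
      have h2 := card_union_le (Ub ∪ used) (U.filter (fun e => c e = c e1))
      have h3 := hm (c e1)
      omega
    rw [mem_union, not_or] at he1'
    rw [mem_union, mem_union, not_or, not_or, mem_filter] at he2'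
    have hc12 : c e1 ≠ c e2 := fun h4 => he2'.2 ⟨he2, h4.symm⟩
    have hne : e1 ≠ e2 := fun h4 => hc12 (by rw [h4])
    have v1 : ∀ i < n, ∀ s, (if i = n then (if s then e1 else e2) else g i s) = g i s :=
      fun i hi s => if_neg (by omega)
    refine ⟨fun i s => if i = n then (if s then e1 else e2) else g i s, ?_, ?_, ?_⟩
    · intro i hi s
      beta_reduce
      rcases Nat.lt_succ_iff_lt_or_eq.1 hi with hi | rfl
      · rw [v1 i hi s]
        exact g1 i hi s
      · rw [if_pos rfl]
        cases s
        · exact ⟨he2, he2'.1.1⟩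
        · exact ⟨he1, he1'.1⟩
    · intro i hi
      beta_reduce
      rcases Nat.lt_succ_iff_lt_or_eq.1 hi with hi | rfl
      · rw [v1 i hi, v1 i hi]
        exact g2 i hi
      · simpa using hc12
    · intro i hi j hj s s'
      beta_reduce
      rcases Nat.lt_succ_iff_lt_or_eq.1 hi with hi | rfl <;>
        rcases Nat.lt_succ_iff_lt_or_eq.1 hj with hj | rfl
      · rw [v1 i hi, v1 j hj]
        exact g3 i hi j hj s s'
      · rw [v1 i hi, if_pos rfl]
        intro h4
        exfalso
        have h5 := hmem i hi s
        rw [h4] at h5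
        cases s'
        · exact he2'.1.2 h5
        · exact he1'.2 h5
      · rw [v1 j hj, if_pos rfl]
        intro h4
        exfalso
        have h5 := hmem j hj s'
        rw [← h4] at h5
        cases s
        · exact he2'.1.2 h5
        · exact he1'.2 h5
      · rw [if_pos rfl, if_pos rfl]
        intro h4
        refine ⟨rfl, ?_⟩
        cases s <;> cases s'
        · rfl
        · exact absurd h4.symm hne
        · exact absurd h4 hne
        · rfl

theorem fix_pairs {ι : Type} [DecidableEq ι] {c : ι → ℕ} {N : ℕ} (E : Finset ι) (hc : ∀ e ∈ E, 1 ≤ c e ∧ 8 * c e ≤ N)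
    (F : Finset ℕ) (hF : 2 * F.card + 4 * E.card + 1 ≤ N / 2) :
    ∃ X : Finset ℕ, X ⊆ Icc 1 N ∧ Disjoint X F ∧ MatchU E c X := by
  induction E using Finset.induction_on with
  | empty => exact ⟨∅, empty_subset _, disjoint_empty_left _, matchU_empty c⟩
  | @insert e E he ih =>
    rw [card_insert_of_notMem he] at hF
    obtain ⟨X, hX1, hX2, hX3⟩ := ih (fun e' he' => hc e' (mem_insert_of_mem he')) (by omega)
    obtain ⟨hc1, hc2⟩ := hc e (mem_insert_self e E)
    have hXc := matchU_card hX3
    set G : Finset ℕ := F ∪ X with hG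
    have hGc : G.card ≤ F.card + 2 * E.card := by
      have h1 : G.card ≤ F.card + X.card := card_union_le F X
      omega
    obtain ⟨x, hx, hx'⟩ : ∃ x ∈ Icc 1 (N - c e), x ∉ G ∪ G.image (fun y => y - c e) := by
      refine exists_mem_notMem_of_card_lt_card ?_
      have h1 := card_union_le G (G.image (fun y => y - c e))
      have h2 : (G.image (fun y => y - c e)).card ≤ G.card := card_image_le
      rw [Nat.card_Icc]
      omega
    rw [mem_Icc] at hx
    rw [mem_union, not_or] at hx'
    have hx2 : x + c e ∉ G := by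
      intro h1
      apply hx'.2
      rw [mem_image]
      exact ⟨x + c e, h1, by omega⟩
    have hxF : x ∉ F := fun h1 => hx'.1 (mem_union_left _ h1)
    have hxX : x ∉ X := fun h1 => hx'.1 (mem_union_right _ h1)
    have hyF : x + c e ∉ F := fun h1 => hx2 (mem_union_left _ h1)
    have hyX : x + c e ∉ X := fun h1 => hx2 (mem_union_right _ h1)
    refine ⟨{x + c e, x} ∪ X, ?_, ?_, ?_⟩
    · intro z hz
      rw [mem_union, mem_insert, mem_singleton] at hz
      rcases hz with (rfl | rfl) | hz
      · rw [mem_Icc]
        omega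
      · rw [mem_Icc]
        omega
      · exact hX1 hz
    · rw [disjoint_union_left]
      refine ⟨?_, hX2⟩
      rw [disjoint_insert_left, disjoint_singleton_left]
      exact ⟨hyF, hxF⟩
    · have h1 : insert e E = {e} ∪ E := insert_eq e E
      rw [h1]
      refine matchU_union (matchU_pair ?_ ?_ ?_ ?_) hX3 (disjoint_singleton_left.2 he) ?_
      · unfold dd
        omega
      · omega
      · omega
      · omega
      · rw [disjoint_insert_left, disjoint_singleton_left]
        exact ⟨hyX, hxX⟩

/-- the units `(u, i)` with `i < w u / K` -/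
def unitsK (S : Finset ℕ) (w : ℕ → ℕ) (K : ℕ) : Finset ((_ : ℕ) × ℕ) := unitsW S (fun u => w u / K)

theorem card_floor {S : Finset ℕ} {w : ℕ → ℕ} {K : ℕ} (hK : 1 ≤ K) (hw : ∀ u ∈ S, K ≤ w u) :
    (unitsW S w).card ≤ 2 * K * (unitsK S w K).card ∧ K * (unitsK S w K).card ≤ (unitsW S w).card := by
  unfold unitsK unitsW
  rw [card_sigma, card_sigma]
  simp only [card_range]
  rw [mul_sum, mul_sum]
  refine ⟨sum_le_sum fun u hu => ?_, sum_le_sum fun u _ => Nat.mul_div_le _ _⟩
  have h1 := hw u hu
  have h2 : w u < K * (w u / K + 1) := Nat.lt_mul_div_succ _ (by omega)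
  have h3 : 1 ≤ w u / K := (Nat.one_le_div_iff (by omega)).2 h1
  nlinarith

end SSB
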