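import Pool.Agent.Lib.MP_8a819d_co.LH.Cln

/-!
# Walks through a given unit or a given label, summed over many links

JOB Lk1 (all of this file). `n = 2 |U|` is the number of steps.

For `lab_count` FIRST prove (private) for `a ∈ [1, N]` and any property `Q` of (start, step):
`#{l ∈ wks (i + 1 + s) a b : ∃ p t q, l = p ++ t :: q ∧ p.length = i ∧ Q (a + dsp c p) t} = ∑ x ∈ [1, N], nw i a x * ∑ t ∈ stps U with Q x t and mv c x t ∈ [1, N], nw s (mv c x t) b`
(or only `≤`), by induction on `i` generalising `a` (as `nw_add`). In the following `r = i + 1 + s` with `i = 0, ..., r - 1`; for every `i` one has `i ≥ h` or `s ≥ h` as `2 h + 1 ≤ r`.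

* `unit_count`: `cnt_left` (`j = 0`, if `s ≥ h`) or `cnt_right` (if `i ≥ h`) with `bad = {(e, true), (e, false)}`, `β = 2`. Sum over `i < r`.
* `lab_count`. A label `y` in `wlab c a l` is `md c x t` for a step `t` with start `x`, or it is `mv c x t` for a step `t` which is not the last one (`s ≥ 1`). So `Q x t := md c x t = y ∨ mv c x t = y`
  (`mv` only if `s ≥ 1`). Let `i < r` be fixed, `#_i (j)` the number of walks for the link `j ∈ J` with this property. Claim `∑ j ∈ J, #_i (j) ≤ (2 κ B + 2 |J| B²) n^r`.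
  (A) `i < h` (so `s ≥ h`): `#_i (j) ≤ ∑ x, nw i (a j) x * #{t : md c x t = y ∨ mv c x t = y} * B n^s`. If `i = 0` only `x = a j` counts, and `∑ j, #{t : md c (a j) t = y ∨ mv c (a j) t = y} ≤ 4 κ |U| = 2 κ n` by `hea` (`x = y`,
  `m = ∓1, ∓2`: `md c (a j) t = y` means `y - sgnU * c = a j`). If `i ≥ 1`: `∑ j, nw i (a j) x = ∑ j, nw i x (a j) = ∑ z, nw (i-1) x z * ∑ j, nw 1 z (a j) ≤ n^(i-1) * 2 κ |U| = κ n^i` (`nw_symm`, `nw_add`, `hea` for `z` and `m = ± 2`),
  and `∑ x, #{t : md c x t = y ∨ mv c x t = y} ≤ 2 n` (for given `t` there is one `x` with `md c x t = y` and one with `mv c x t = y`). In both cases `∑ j, #_i (j) ≤ 2 κ n^(i+1) * B n^s = 2 κ B n^r`.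
  (B) `i ≥ h`, `s ≥ h`: `#_i (j) ≤ ∑ x, B n^i * #{t : md c x t = y ∨ mv c x t = y} * B n^s ≤ 2 B² n^r`.
  (C) `i ≥ h`, `s < h`: `#_i (j) ≤ B n^i (∑ t, nw s (y + sgnU * c) (b j) + [s ≥ 1] * n * nw s y (b j))` (the first sum over the `t` with `y + sgnU * c ∈ [1, N]`). If `s = 0` the sum over `j` of the first sum is
  `∑ j, #{t : y + sgnU * c = b j} ≤ 2 κ |U|` (`heb`); if `s ≥ 1` then `∑ j, nw s z (b j) ≤ κ n^s` for all `z ∈ [1, N]` as in (A). So `∑ j, #_i (j) ≤ B n^i * 2 κ n^(s+1)`.
  Sum over `i < r`.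
-/

set_option autoImplicit false

namespace SSB

open Finset

variable {ι : Type} [DecidableEq ι]

/-! ### splitting the steps, positions of labels -/

omit [DecidableEq ι] in
private theorem lk1_dsp_cons (c : ι → ℕ) (t : ι × Bool) (l : List (ι × Bool)) (a : ℤ) :
    a + dsp c (t :: l) = mv c a t + dsp c l := by
  simp only [dsp, mv, List.map_cons, List.sum_cons]
  ring

private theorem lk1_card_stps (U : Finset ι) (P : ι × Bool → Prop) [DecidablePred P] :
    ((stps U).filter P).card = (U.filter (fun e => P (e, true))).card + (U.filter (fun e => P (e, false))).card := by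
  rw [Finset.card_filter, stps, Finset.sum_product, Finset.card_filter, Finset.card_filter, ← Finset.sum_add_distrib]
  refine Finset.sum_congr rfl fun e _ => ?_
  rw [Fintype.sum_bool]

private theorem lk1_cons_mem {N : ℕ} {U : Finset ι} {c : ι → ℕ} {r : ℕ} {x y : ℤ} {t : ι × Bool}
    {l : List (ι × Bool)} (h : t :: l ∈ wks N U c (r + 1) x y) :
    t ∈ stps U ∧ (1 ≤ mv c x t ∧ mv c x t ≤ N) ∧ l ∈ wks N U c r (mv c x t) y := by
  rw [wks, Finset.mem_biUnion] at h
  obtain ⟨u, hu, h⟩ := h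
  split_ifs at h with h1
  · rw [Finset.mem_image] at h
    obtain ⟨q, hq, he⟩ := h
    rw [List.cons.injEq] at he
    obtain ⟨rfl, rfl⟩ := he
    exact ⟨hu, h1, hq⟩
  · exact absurd h (Finset.notMem_empty _)

/-- walks with a property of the step number `i` -/
private theorem lk1_split {N : ℕ} {U : Finset ι} {c : ι → ℕ} (Q : ℤ → ι × Bool → Prop) (s : ℕ) (b : ℤ) :
    ∀ (i : ℕ) (a : ℤ), 1 ≤ a → a ≤ N → ∀ S : Finset (List (ι × Bool)),
      (∀ l ∈ S, l ∈ wks N U c (i + 1 + s) a b ∧ ∃ p t q, l = p ++ t :: q ∧ p.length = i ∧ Q (a + dsp c p) t) →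
      ∀ T : ℤ → Finset (ι × Bool), (∀ x t, t ∈ stps U → Q x t → 1 ≤ mv c x t → mv c x t ≤ N → t ∈ T x) →
      S.card ≤ ∑ x ∈ Icc (1 : ℤ) N, nw N U c i a x * ∑ t ∈ T x, nw N U c s (mv c x t) b := by
  intro i
  induction i with
  | zero =>
    intro a ha1 ha2 S hS T hT
    have h0 : ∑ x ∈ Icc (1 : ℤ) N, nw N U c 0 a x * ∑ t ∈ T x, nw N U c s (mv c x t) b =
        ∑ t ∈ T a, nw N U c s (mv c a t) b := by
      rw [Finset.sum_eq_single a]
      · rw [nw_zero, if_pos rfl, one_mul]
      · intro x _ hx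
        rw [nw_zero, if_neg (Ne.symm hx), zero_mul]
      · intro h
        exact absurd (Finset.mem_Icc.2 ⟨ha1, ha2⟩) h
    rw [h0]
    have h1 : S ⊆ (T a).biUnion (fun t => (wks N U c s (mv c a t) b).image (List.cons t)) := by
      intro l hl
      obtain ⟨h2, p, t, q, h3, h4, h5⟩ := hS l hl
      have h6 : p = [] := List.length_eq_zero_iff.1 h4
      subst h6
      rw [List.nil_append] at h3
      subst h3
      have h7 : 0 + 1 + s = s + 1 := by omega
      rw [h7] at h2
      obtain ⟨h8, h9, h10⟩ := lk1_cons_mem h2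
      have h11 : a + dsp c [] = a := by simp [dsp]
      rw [h11] at h5
      rw [Finset.mem_biUnion]
      exact ⟨t, hT a t h8 h5 h9.1 h9.2, Finset.mem_image_of_mem _ h10⟩
    refine (Finset.card_le_card h1).trans (Finset.card_biUnion_le.trans ?_)
    refine Finset.sum_le_sum fun t _ => ?_
    exact Finset.card_image_le
  | succ i ih =>
    intro a ha1 ha2 S hS T hT
    classical
    have h1 : S ⊆ (stps U).biUnion (fun u =>
        (if 1 ≤ mv c a u ∧ mv c a u ≤ N then (wks N U c (i + 1 + s) (mv c a u) b).filter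
          (fun l => ∃ p t q, l = p ++ t :: q ∧ p.length = i ∧ Q (mv c a u + dsp c p) t) else ∅).image (List.cons u)) := by
      intro l hl
      obtain ⟨h2, p, t, q, h3, h4, h5⟩ := hS l hl
      obtain ⟨u, p', rfl⟩ : ∃ u p', p = u :: p' := by
        cases p with
        | nil => simp at h4
        | cons u p' => exact ⟨u, p', rfl⟩
      rw [List.cons_append] at h3
      subst h3
      have h7 : i + 1 + 1 + s = (i + 1 + s) + 1 := by omega
      rw [h7] at h2
      obtain ⟨h8, h9, h10⟩ := lk1_cons_mem h2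
      rw [Finset.mem_biUnion]
      refine ⟨u, h8, Finset.mem_image_of_mem _ ?_⟩
      rw [if_pos h9, Finset.mem_filter]
      refine ⟨h10, p', t, q, rfl, ?_, ?_⟩
      · simpa using h4
      · rw [lk1_dsp_cons] at h5
        exact h5
    refine (Finset.card_le_card h1).trans (Finset.card_biUnion_le.trans ?_)
    have h2 : ∀ u ∈ stps U, ((if 1 ≤ mv c a u ∧ mv c a u ≤ N then (wks N U c (i + 1 + s) (mv c a u) b).filter
          (fun l => ∃ p t q, l = p ++ t :: q ∧ p.length = i ∧ Q (mv c a u + dsp c p) t) else ∅).image (List.cons u)).card ≤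
        ∑ x ∈ Icc (1 : ℤ) N, (if 1 ≤ mv c a u ∧ mv c a u ≤ N then nw N U c i (mv c a u) x else 0) *
          ∑ t ∈ T x, nw N U c s (mv c x t) b := by
      intro u _
      refine Finset.card_image_le.trans ?_
      split_ifs with h3
      · refine ih (mv c a u) h3.1 h3.2 _ ?_ T hT
        intro l hl
        exact Finset.mem_filter.1 hl
      · simp
    refine (Finset.sum_le_sum h2).trans (le_of_eq ?_)
    rw [Finset.sum_comm]
    refine Finset.sum_congr rfl fun x _ => ?_
    rw [nw_succ, ← Finset.sum_mul]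

omit [DecidableEq ι] in
private theorem lk1_wlab (c : ι → ℕ) (y : ℤ) : ∀ (l : List (ι × Bool)) (a : ℤ), y ∈ wlab c a l →
    ∃ p t q, l = p ++ t :: q ∧ (md c (a + dsp c p) t = y ∨ (q ≠ [] ∧ mv c (a + dsp c p) t = y)) := by
  intro l
  induction l with
  | nil =>
    intro a h
    simp [wlab] at h
  | cons t l ih =>
    intro a h
    have h0 : a + dsp c [] = a := by simp [dsp]
    rw [wlab] at h
    split_ifs at h with h1
    · rw [List.mem_singleton] at h
      exact ⟨[], t, l, rfl, Or.inl (by rw [h0, h])⟩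
    · rw [List.mem_cons, List.mem_cons] at h
      rcases h with h | h | h
      · exact ⟨[], t, l, rfl, Or.inl (by rw [h0, h])⟩
      · exact ⟨[], t, l, rfl, Or.inr ⟨h1, by rw [h0, h]⟩⟩
      · obtain ⟨p, t', q, h2, h3⟩ := ih (mv c a t) h
        refine ⟨t :: p, t', q, by rw [h2, List.cons_append], ?_⟩
        rw [lk1_dsp_cons]
        exact h3

open Classical in
theorem unit_count {N : ℕ} {U : Finset ι} {c : ι → ℕ} {B : ℝ} {h r : ℕ} {a b : ℤ} (hB : 0 ≤ B) (hr : 2 * h + 1 ≤ r)
    (hup : ∀ s, h ≤ s → ∀ x y : ℤ, (1 ≤ x ∧ x ≤ N) → (1 ≤ y ∧ y ≤ N) → (nw N U c s x y : ℝ) ≤ B * (2 * U.card) ^ s)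
    (ha : 1 ≤ a ∧ a ≤ N) (hb : 1 ≤ b ∧ b ≤ N) (e : ι) :
    (((wks N U c r a b).filter (fun l => e ∈ l.map Prod.fst)).card : ℝ) ≤ 2 * r * B * (2 * U.card) ^ (r - 1) := by
  -- the walks with the unit `e` in the step number `i`
  have hbd : ∀ i ∈ range r, ((((wks N U c r a b).filter
      (fun l => ∃ p t q, l = p ++ t :: q ∧ p.length = i ∧ t ∈ ({(e, true), (e, false)} : Finset (ι × Bool)))).card : ℕ) : ℝ) ≤
      2 * B * (2 * U.card) ^ (r - 1) := by
    intro i hi
    rw [Finset.mem_range] at hi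
    have hc2 : ((({(e, true), (e, false)} : Finset (ι × Bool)).card : ℕ) : ℝ) ≤ 2 := by
      exact_mod_cast Finset.card_le_two
    by_cases hih : h ≤ i
    · exact cnt_right (β := 2) hB (by norm_num) hup ha hb hih hi (fun _ => {(e, true), (e, false)}) (fun _ => hc2)
    · have hs : h ≤ r - 1 - i := by omega
      have hr' : r = i + 1 + (r - 1 - i) + 0 := by omega
      refine le_trans ?_ (cnt_left (β := 2) hB (by norm_num) hup ha hb hs hr' (fun _ _ => {(e, true), (e, false)})
        (fun _ _ => hc2))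
      norm_cast
      refine Finset.card_le_card fun l hl => ?_
      rw [Finset.mem_filter] at hl ⊢
      obtain ⟨h1, p, t, q, h2, h3, h4⟩ := hl
      refine ⟨h1, p, t, q, [], ?_, h3, ?_, rfl, h4⟩
      · rw [List.append_nil]
        exact h2
      · have h5 := (mem_wks.1 h1).1
        rw [h2, List.length_append, List.length_cons] at h5
        omega
  have hsub : (wks N U c r a b).filter (fun l => e ∈ l.map Prod.fst) ⊆ (range r).biUnion (fun i =>
      (wks N U c r a b).filter
      (fun l => ∃ p t q, l = p ++ t :: q ∧ p.length = i ∧ t ∈ ({(e, true), (e, false)} : Finset (ι × Bool)))) := by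
    intro l hl
    rw [Finset.mem_filter, List.mem_map] at hl
    obtain ⟨h1, t, h2, h3⟩ := hl
    obtain ⟨p, q, h4⟩ := List.append_of_mem h2
    rw [Finset.mem_biUnion]
    refine ⟨p.length, ?_, ?_⟩
    · have h5 := (mem_wks.1 h1).1
      rw [h4, List.length_append, List.length_cons] at h5
      rw [Finset.mem_range]
      omega
    · rw [Finset.mem_filter]
      refine ⟨h1, p, t, q, h4, rfl, ?_⟩
      obtain ⟨e', b'⟩ := t
      simp only at h3
      subst h3
      rw [Finset.mem_insert, Finset.mem_singleton]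
      cases b'
      · right
        rfl
      · left
        rfl
  calc (((wks N U c r a b).filter (fun l => e ∈ l.map Prod.fst)).card : ℝ)
      ≤ ∑ i ∈ range r, ((((wks N U c r a b).filter
      (fun l => ∃ p t q, l = p ++ t :: q ∧ p.length = i ∧ t ∈ ({(e, true), (e, false)} : Finset (ι × Bool)))).card : ℕ) : ℝ) := by
        exact_mod_cast (Finset.card_le_card hsub).trans Finset.card_biUnion_le
    _ ≤ ∑ _i ∈ range r, 2 * B * (2 * U.card) ^ (r - 1) := Finset.sum_le_sum hbd
    _ = 2 * r * B * (2 * U.card) ^ (r - 1) := by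
        rw [Finset.sum_const, Finset.card_range, nsmul_eq_mul]
        ring

private theorem lk1_cnt {U : Finset ι} {c : ι → ℕ} {κ : ℝ} {Λ : Type} (J : Finset Λ) (a : Λ → ℤ) (w : ℤ) (m : ℤ)
    (g : ι × Bool → ℤ) (hg : ∀ t, g t = w + m * sgnU t.2 * c t.1)
    (h1 : (∑ j ∈ J, (U.filter (fun e => w + m * c e = a j)).card : ℝ) ≤ κ * U.card)
    (h2 : (∑ j ∈ J, (U.filter (fun e => w + -m * c e = a j)).card : ℝ) ≤ κ * U.card) :
    (∑ j ∈ J, (((stps U).filter (fun t => g t = a j)).card : ℝ)) ≤ κ * (2 * U.card) := by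
  have h3 : ∀ j ∈ J, (((stps U).filter (fun t => g t = a j)).card : ℝ) =
      (U.filter (fun e => w + m * c e = a j)).card + (U.filter (fun e => w + -m * c e = a j)).card := by
    intro j _
    have h4 := lk1_card_stps U (fun t => g t = a j)
    have h5 : ∀ e, g (e, true) = w + m * c e := by
      intro e
      rw [hg]
      simp [sgnU]
    have h6 : ∀ e, g (e, false) = w + -m * c e := by
      intro e
      rw [hg]
      simp [sgnU]
    simp only [h5, h6] at h4
    have h7 : ((stps U).filter (fun t => g t = a j)).card =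
        (U.filter (fun e => w + m * c e = a j)).card + (U.filter (fun e => w + -m * c e = a j)).card := by
      rw [← h4]
    exact_mod_cast h7
  rw [Finset.sum_congr rfl h3, Finset.sum_add_distrib]
  linarith

/-- walks of length at least `1` to one of the ends of the links -/
private theorem lk1_link {N : ℕ} {U : Finset ι} {c : ι → ℕ} {κ : ℝ} (hκ : 0 ≤ κ) {Λ : Type} (J : Finset Λ) (a : Λ → ℤ)
    (hea : ∀ x : ℤ, 1 ≤ x → x ≤ N → ∀ m : ℤ, (m = 1 ∨ m = -1 ∨ m = 2 ∨ m = -2) →
      (∑ j ∈ J, (U.filter (fun e => x + m * c e = a j)).card : ℝ) ≤ κ * U.card)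
    (i : ℕ) (hi : 1 ≤ i) (x : ℤ) (hx : 1 ≤ x ∧ x ≤ N) :
    ∑ j ∈ J, (nw N U c i x (a j) : ℝ) ≤ κ * (2 * U.card) ^ i := by
  obtain ⟨i, rfl⟩ : ∃ k, i = k + 1 := ⟨i - 1, by omega⟩
  have h1 : ∀ z : ℤ, 1 ≤ z ∧ z ≤ N → ∑ j ∈ J, (nw N U c 1 z (a j) : ℝ) ≤ κ * (2 * U.card) := by
    intro z hz
    refine le_trans ?_ (lk1_cnt J a z 2 (fun t => mv c z t) (fun t => rfl) (hea z hz.1 hz.2 2 (by norm_num))
      (hea z hz.1 hz.2 (-2) (by norm_num)))
    refine Finset.sum_le_sum fun j _ => ?_
    have h2 : nw N U c 1 z (a j) ≤ ((stps U).filter (fun t => mv c z t = a j)).card := by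
      have h3 : nw N U c 1 z (a j) = nw N U c (0 + 1) z (a j) := rfl
      rw [h3, nw_succ, Finset.card_filter]
      refine Finset.sum_le_sum fun t _ => ?_
      rw [nw_zero]
      split_ifs <;> simp
    exact_mod_cast h2
  have h2 : ∀ j ∈ J, (nw N U c (i + 1) x (a j) : ℝ) = ∑ z ∈ Icc (1 : ℤ) N, (nw N U c i x z : ℝ) * nw N U c 1 z (a j) := by
    intro j _
    rw [nw_add N U c i 1 hx (a j)]
    push_cast
    rfl
  rw [Finset.sum_congr rfl h2, Finset.sum_comm]
  calc ∑ z ∈ Icc (1 : ℤ) N, ∑ j ∈ J, (nw N U c i x z : ℝ) * nw N U c 1 z (a j)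
      ≤ ∑ z ∈ Icc (1 : ℤ) N, (nw N U c i x z : ℝ) * (κ * (2 * U.card)) := by
        refine Finset.sum_le_sum fun z hz => ?_
        rw [← Finset.mul_sum]
        exact mul_le_mul_of_nonneg_left (h1 z (Finset.mem_Icc.1 hz)) (Nat.cast_nonneg _)
    _ = (∑ z ∈ Icc (1 : ℤ) N, (nw N U c i x z : ℝ)) * (κ * (2 * U.card)) := by rw [Finset.sum_mul]
    _ ≤ (2 * U.card) ^ i * (κ * (2 * U.card)) := by
        refine mul_le_mul_of_nonneg_right ?_ (by positivity)
        exact_mod_cast nw_sum_le N U c i x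
    _ = κ * (2 * U.card) ^ (i + 1) := by ring

open Classical in
private theorem lk1_T {N : ℕ} {U : Finset ι} {c : ι → ℕ} (y : ℤ) :
    (∑ x ∈ Icc (1 : ℤ) N, (((stps U).filter (fun t => md c x t = y ∨ mv c x t = y)).card : ℝ)) ≤ 2 * (2 * U.card) := by
  have h1 : ∑ x ∈ Icc (1 : ℤ) N, ((stps U).filter (fun t => md c x t = y ∨ mv c x t = y)).card ≤ (stps U).card * 2 := by
    simp only [Finset.card_filter]
    rw [Finset.sum_comm]
    have h2 : ∀ t ∈ stps U, ∑ x ∈ Icc (1 : ℤ) N, (if md c x t = y ∨ mv c x t = y then 1 else 0) ≤ 2 := by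
      intro t _
      rw [← Finset.card_filter]
      refine (Finset.card_le_card (t := {y - sgnU t.2 * c t.1, y - 2 * sgnU t.2 * c t.1}) ?_).trans Finset.card_le_two
      intro x hx
      rw [Finset.mem_filter] at hx
      rw [Finset.mem_insert, Finset.mem_singleton]
      rcases hx.2 with h | h
      · left
        rw [← h, md]
        ring
      · right
        rw [← h, mv]
        ring
    refine (Finset.sum_le_sum h2).trans ?_
    rw [Finset.sum_const, smul_eq_mul]
  have h2 : (stps U).card = 2 * U.card := card_stps U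
  rw [h2] at h1
  have h3 : ((∑ x ∈ Icc (1 : ℤ) N, ((stps U).filter (fun t => md c x t = y ∨ mv c x t = y)).card : ℕ) : ℝ) ≤
      ((2 * U.card * 2 : ℕ) : ℝ) := by exact_mod_cast h1
  push_cast at h3
  linarith

private theorem lk1_C0 {N : ℕ} {U : Finset ι} {c : ι → ℕ} (y w : ℤ) (T : ℤ → Finset (ι × Bool))
    (hT : ∀ x t, t ∈ T x → t ∈ stps U ∧ md c x t = y) :
    ∑ x ∈ Icc (1 : ℤ) N, ∑ t ∈ T x, nw N U c 0 (mv c x t) w ≤
      ((stps U).filter (fun t => y + 1 * sgnU t.2 * c t.1 = w)).card := by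
  have h1 : ∑ x ∈ Icc (1 : ℤ) N, ∑ t ∈ T x, nw N U c 0 (mv c x t) w ≤
      ((Icc (1 : ℤ) N ×ˢ stps U).filter (fun z => md c z.1 z.2 = y ∧ mv c z.1 z.2 = w)).card := by
    rw [Finset.card_filter, Finset.sum_product]
    refine Finset.sum_le_sum fun x _ => ?_
    have h2 : ∑ t ∈ T x, nw N U c 0 (mv c x t) w ≤
        ∑ t ∈ T x, (if md c x t = y ∧ mv c x t = w then 1 else 0) := by
      refine Finset.sum_le_sum fun t ht => ?_
      rw [nw_zero]
      have h3 := (hT x t ht).2
      by_cases h4 : mv c x t = w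
      · rw [if_pos h4, if_pos ⟨h3, h4⟩]
      · rw [if_neg h4]
        exact Nat.zero_le _
    refine h2.trans ?_
    refine Finset.sum_le_sum_of_subset ?_
    intro t ht
    exact (hT x t ht).1
  refine h1.trans (Finset.card_le_card_of_injOn (fun z => z.2) ?_ ?_)
  · intro z hz
    rw [Finset.mem_coe, Finset.mem_filter, Finset.mem_product] at hz
    rw [Finset.mem_coe, Finset.mem_filter]
    refine ⟨hz.1.2, ?_⟩
    have h2 := hz.2.1
    have h3 := hz.2.2
    rw [md] at h2
    rw [mv] at h3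
    linarith
  · intro z hz z' hz' h
    rw [Finset.mem_coe, Finset.mem_filter] at hz hz'
    have h2 := hz.2.1
    have h3 := hz'.2.1
    simp only at h
    rw [md] at h2 h3
    rw [← h] at h3
    refine Prod.ext ?_ h
    linarith

open Classical in
theorem lab_count {N : ℕ} {U : Finset ι} {c : ι → ℕ} {B κ : ℝ} {h r : ℕ} (hB : 0 ≤ B) (hκ : 0 ≤ κ) (hr : 2 * h + 1 ≤ r)
    (hup : ∀ s, h ≤ s → ∀ x y : ℤ, (1 ≤ x ∧ x ≤ N) → (1 ≤ y ∧ y ≤ N) → (nw N U c s x y : ℝ) ≤ B * (2 * U.card) ^ s)
    {Λ : Type} [DecidableEq Λ] (J : Finset Λ) (a b : Λ → ℤ)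
    (ha : ∀ j ∈ J, 1 ≤ a j ∧ a j ≤ N) (hb : ∀ j ∈ J, 1 ≤ b j ∧ b j ≤ N)
    (hea : ∀ x : ℤ, 1 ≤ x → x ≤ N → ∀ m : ℤ, (m = 1 ∨ m = -1 ∨ m = 2 ∨ m = -2) →
      (∑ j ∈ J, (U.filter (fun e => x + m * c e = a j)).card : ℝ) ≤ κ * U.card)
    (heb : ∀ x : ℤ, 1 ≤ x → x ≤ N → ∀ m : ℤ, (m = 1 ∨ m = -1 ∨ m = 2 ∨ m = -2) →
      (∑ j ∈ J, (U.filter (fun e => x + m * c e = b j)).card : ℝ) ≤ κ * U.card)
    {y : ℤ} (hy : 1 ≤ y ∧ y ≤ N) :
    (∑ j ∈ J, ((wks N U c r (a j) (b j)).filter (fun l => y ∈ wlab c (a j) l)).card : ℝ) ≤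
      r * (2 * κ * B + 2 * J.card * B ^ 2) * (2 * U.card) ^ r := by
  obtain ⟨n, hn⟩ : ∃ n : ℝ, n = 2 * U.card := ⟨_, rfl⟩
  have hn0 : 0 ≤ n := by rw [hn]; positivity
  rw [← hn]
  rw [← hn] at hup
  -- the walks with a step number `i` with the label `y`
  have hE : ∀ i ∈ range r, (∑ j ∈ J, (((wks N U c r (a j) (b j)).filter
      (fun l => ∃ p t q, l = p ++ t :: q ∧ p.length = i ∧
        (md c (a j + dsp c p) t = y ∨ (q ≠ [] ∧ mv c (a j + dsp c p) t = y)))).card : ℝ)) ≤
      (2 * κ * B + 2 * J.card * B ^ 2) * n ^ r := by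
    intro i hi
    rw [Finset.mem_range] at hi
    obtain ⟨s, hs⟩ : ∃ s, r = i + 1 + s := ⟨r - 1 - i, by omega⟩
    obtain ⟨T, hT⟩ : ∃ T : ℤ → Finset (ι × Bool), T = fun x => (stps U).filter
      (fun t => (md c x t = y ∨ (1 ≤ s ∧ mv c x t = y)) ∧ 1 ≤ mv c x t ∧ mv c x t ≤ N) := ⟨_, rfl⟩
    obtain ⟨τ, hτ⟩ : ∃ τ : ℤ → ℝ, τ = fun x => (((stps U).filter (fun t => md c x t = y ∨ mv c x t = y)).card : ℝ) :=
      ⟨_, rfl⟩
    have hτ0 : ∀ x, 0 ≤ τ x := fun x => by rw [hτ]; positivity
    have hτs : ∑ x ∈ Icc (1 : ℤ) N, τ x ≤ 2 * n := by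
      rw [hτ, hn]
      exact lk1_T y
    have hTτ : ∀ x, ((T x).card : ℝ) ≤ τ x := by
      intro x
      rw [hτ, hT]
      simp only
      norm_cast
      refine Finset.card_le_card fun t ht => ?_
      rw [Finset.mem_filter] at ht ⊢
      refine ⟨ht.1, ?_⟩
      rcases ht.2.1 with h | h
      · exact Or.inl h
      · exact Or.inr h.2
    have hTmv : ∀ x, ∀ t ∈ T x, 1 ≤ mv c x t ∧ mv c x t ≤ N := by
      intro x t ht
      rw [hT, Finset.mem_filter] at ht
      exact ht.2.2
    -- the bound by steps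
    have hS : ∀ j ∈ J, (((wks N U c r (a j) (b j)).filter
      (fun l => ∃ p t q, l = p ++ t :: q ∧ p.length = i ∧
        (md c (a j + dsp c p) t = y ∨ (q ≠ [] ∧ mv c (a j + dsp c p) t = y)))).card : ℝ) ≤
        ∑ x ∈ Icc (1 : ℤ) N, (nw N U c i (a j) x : ℝ) * ∑ t ∈ T x, (nw N U c s (mv c x t) (b j) : ℝ) := by
      intro j hj
      have h1 := lk1_split (N := N) (U := U) (c := c) (fun x t => md c x t = y ∨ (1 ≤ s ∧ mv c x t = y)) s (b j) i (a j)
        (ha j hj).1 (ha j hj).2 ((wks N U c r (a j) (b j)).filter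
      (fun l => ∃ p t q, l = p ++ t :: q ∧ p.length = i ∧
        (md c (a j + dsp c p) t = y ∨ (q ≠ [] ∧ mv c (a j + dsp c p) t = y)))) (by
          intro l hl
          rw [Finset.mem_filter] at hl
          obtain ⟨h2, p, t, q, h3, h4, h5⟩ := hl
          rw [← hs]
          refine ⟨h2, p, t, q, h3, h4, ?_⟩
          rcases h5 with h5 | h5
          · exact Or.inl h5
          · right
            refine ⟨?_, h5.2⟩
            have h6 := (mem_wks.1 h2).1
            rw [h3, List.length_append, List.length_cons] at h6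
            have h7 : 0 < q.length := List.length_pos_iff.2 h5.1
            omega) T (by
          intro x t h2 h3 h4 h5
          rw [hT, Finset.mem_filter]
          exact ⟨h2, h3, h4, h5⟩)
      exact_mod_cast h1
    refine (Finset.sum_le_sum hS).trans ?_
    have hpos1 : 0 ≤ 2 * κ * B * n ^ r := by positivity
    have hpos2 : 0 ≤ 2 * (J.card : ℝ) * B ^ 2 * n ^ r := by positivity
    -- right part long
    have hright : h ≤ s → ∀ j ∈ J, ∀ x, ∑ t ∈ T x, (nw N U c s (mv c x t) (b j) : ℝ) ≤ τ x * (B * n ^ s) := by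
      intro hhs j hj x
      have h1 : ∑ t ∈ T x, (nw N U c s (mv c x t) (b j) : ℝ) ≤ ∑ t ∈ T x, B * n ^ s :=
        Finset.sum_le_sum fun t ht => hup s hhs _ _ (hTmv x t ht) (hb j hj)
      rw [Finset.sum_const, nsmul_eq_mul] at h1
      exact h1.trans (mul_le_mul_of_nonneg_right (hTτ x) (by positivity))
    by_cases hih : h ≤ i
    · -- left part long
      have hleft : ∀ j ∈ J, ∀ x ∈ Icc (1 : ℤ) N, (nw N U c i (a j) x : ℝ) ≤ B * n ^ i := fun j hj x hx =>
        hup i hih _ _ (ha j hj) (Finset.mem_Icc.1 hx)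
      by_cases hhs : h ≤ s
      · -- (B)
        have h1 : ∀ j ∈ J, ∑ x ∈ Icc (1 : ℤ) N, (nw N U c i (a j) x : ℝ) *
            ∑ t ∈ T x, (nw N U c s (mv c x t) (b j) : ℝ) ≤ 2 * B ^ 2 * n ^ r := by
          intro j hj
          calc ∑ x ∈ Icc (1 : ℤ) N, (nw N U c i (a j) x : ℝ) * ∑ t ∈ T x, (nw N U c s (mv c x t) (b j) : ℝ)
              ≤ ∑ x ∈ Icc (1 : ℤ) N, (B * n ^ i) * (τ x * (B * n ^ s)) := by
                refine Finset.sum_le_sum fun x hx => ?_
                exact mul_le_mul (hleft j hj x hx) (hright hhs j hj x)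
                  (Finset.sum_nonneg fun t _ => Nat.cast_nonneg _) (by positivity)
            _ = (∑ x ∈ Icc (1 : ℤ) N, τ x) * (B ^ 2 * n ^ (i + s)) := by
                rw [Finset.sum_mul]
                refine Finset.sum_congr rfl fun x _ => ?_
                rw [pow_add]
                ring
            _ ≤ (2 * n) * (B ^ 2 * n ^ (i + s)) := mul_le_mul_of_nonneg_right hτs (by positivity)
            _ = 2 * B ^ 2 * n ^ r := by
                rw [hs]
                ring
        refine (Finset.sum_le_sum h1).trans ?_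
        rw [Finset.sum_const, nsmul_eq_mul]
        nlinarith [hpos1]
      · -- (C)
        have h1 : ∑ j ∈ J, ∑ x ∈ Icc (1 : ℤ) N, (nw N U c i (a j) x : ℝ) *
            ∑ t ∈ T x, (nw N U c s (mv c x t) (b j) : ℝ) ≤
            (B * n ^ i) * ∑ j ∈ J, ∑ x ∈ Icc (1 : ℤ) N, ∑ t ∈ T x, (nw N U c s (mv c x t) (b j) : ℝ) := by
          rw [Finset.mul_sum]
          refine Finset.sum_le_sum fun j hj => ?_
          rw [Finset.mul_sum]
          refine Finset.sum_le_sum fun x hx => ?_
          exact mul_le_mul_of_nonneg_right (hleft j hj x hx) (Finset.sum_nonneg fun t _ => Nat.cast_nonneg _)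
        have h2 : ∑ j ∈ J, ∑ x ∈ Icc (1 : ℤ) N, ∑ t ∈ T x, (nw N U c s (mv c x t) (b j) : ℝ) ≤ 2 * κ * n ^ (s + 1) := by
          rcases Nat.eq_zero_or_pos s with hs0 | hs0
          · subst hs0
            have h3 : ∀ j ∈ J, ∑ x ∈ Icc (1 : ℤ) N, ∑ t ∈ T x, (nw N U c 0 (mv c x t) (b j) : ℝ) ≤
                (((stps U).filter (fun t => y + 1 * sgnU t.2 * c t.1 = b j)).card : ℝ) := by
              intro j _
              have h4 := lk1_C0 (N := N) (U := U) (c := c) y (b j) T (by
                intro x t ht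
                rw [hT, Finset.mem_filter] at ht
                refine ⟨ht.1, ?_⟩
                rcases ht.2.1 with h | h
                · exact h
                · exact absurd h.1 (by norm_num))
              exact_mod_cast h4
            refine (Finset.sum_le_sum h3).trans ?_
            have h4 := lk1_cnt J b y 1 (fun t => y + 1 * sgnU t.2 * c t.1) (fun t => rfl) (heb y hy.1 hy.2 1 (by norm_num))
              (heb y hy.1 hy.2 (-1) (by norm_num))
            rw [← hn] at h4
            have h5 : 0 ≤ κ * n := by positivity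
            simp only [zero_add, pow_one]
            linarith
          · have h3 : ∑ j ∈ J, ∑ x ∈ Icc (1 : ℤ) N, ∑ t ∈ T x, (nw N U c s (mv c x t) (b j) : ℝ) =
                ∑ x ∈ Icc (1 : ℤ) N, ∑ t ∈ T x, ∑ j ∈ J, (nw N U c s (mv c x t) (b j) : ℝ) := by
              rw [Finset.sum_comm]
              refine Finset.sum_congr rfl fun x _ => ?_
              rw [Finset.sum_comm]
            rw [h3]
            calc ∑ x ∈ Icc (1 : ℤ) N, ∑ t ∈ T x, ∑ j ∈ J, (nw N U c s (mv c x t) (b j) : ℝ)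
                ≤ ∑ x ∈ Icc (1 : ℤ) N, τ x * (κ * n ^ s) := by
                  refine Finset.sum_le_sum fun x _ => ?_
                  have h4 : ∑ t ∈ T x, ∑ j ∈ J, (nw N U c s (mv c x t) (b j) : ℝ) ≤ ∑ t ∈ T x, κ * n ^ s := by
                    refine Finset.sum_le_sum fun t ht => ?_
                    have h5 := lk1_link hκ J b heb s hs0 (mv c x t) (hTmv x t ht)
                    rw [← hn] at h5
                    exact h5
                  rw [Finset.sum_const, nsmul_eq_mul] at h4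
                  exact h4.trans (mul_le_mul_of_nonneg_right (hTτ x) (by positivity))
              _ = (∑ x ∈ Icc (1 : ℤ) N, τ x) * (κ * n ^ s) := by rw [Finset.sum_mul]
              _ ≤ (2 * n) * (κ * n ^ s) := mul_le_mul_of_nonneg_right hτs (by positivity)
              _ = 2 * κ * n ^ (s + 1) := by ring
        refine h1.trans ((mul_le_mul_of_nonneg_left h2 (by positivity)).trans ?_)
        have h3 : B * n ^ i * (2 * κ * n ^ (s + 1)) = 2 * κ * B * n ^ r := by
          rw [hs]
          ring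
        rw [h3]
        nlinarith [hpos2]
    · -- (A)
      have hhs : h ≤ s := by omega
      have h1 : ∑ j ∈ J, ∑ x ∈ Icc (1 : ℤ) N, (nw N U c i (a j) x : ℝ) *
          ∑ t ∈ T x, (nw N U c s (mv c x t) (b j) : ℝ) ≤
          (∑ j ∈ J, ∑ x ∈ Icc (1 : ℤ) N, (nw N U c i (a j) x : ℝ) * τ x) * (B * n ^ s) := by
        rw [Finset.sum_mul]
        refine Finset.sum_le_sum fun j hj => ?_
        rw [Finset.sum_mul]
        refine Finset.sum_le_sum fun x _ => ?_
        rw [mul_assoc]
        exact mul_le_mul_of_nonneg_left (hright hhs j hj x) (Nat.cast_nonneg _)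
      have h2 : ∑ j ∈ J, ∑ x ∈ Icc (1 : ℤ) N, (nw N U c i (a j) x : ℝ) * τ x ≤ 2 * κ * n ^ (i + 1) := by
        rcases Nat.eq_zero_or_pos i with hi0 | hi0
        · subst hi0
          have h3 : ∀ j ∈ J, ∑ x ∈ Icc (1 : ℤ) N, (nw N U c 0 (a j) x : ℝ) * τ x ≤
              (((stps U).filter (fun t => y + -1 * sgnU t.2 * c t.1 = a j)).card : ℝ) +
              (((stps U).filter (fun t => y + -2 * sgnU t.2 * c t.1 = a j)).card : ℝ) := by
            intro j hj
            have h4 : ∑ x ∈ Icc (1 : ℤ) N, (nw N U c 0 (a j) x : ℝ) * τ x = τ (a j) := by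
              rw [Finset.sum_eq_single (a j)]
              · rw [nw_zero, if_pos rfl, Nat.cast_one, one_mul]
              · intro x _ hx
                rw [nw_zero, if_neg (Ne.symm hx), Nat.cast_zero, zero_mul]
              · intro h
                exact absurd (Finset.mem_Icc.2 (ha j hj)) h
            rw [h4, hτ, ← Nat.cast_add]
            refine Nat.cast_le.2 (le_trans ?_ (Finset.card_union_le _ _))
            refine Finset.card_le_card fun t ht => ?_
            rw [Finset.mem_filter] at ht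
            rw [Finset.mem_union, Finset.mem_filter, Finset.mem_filter]
            rcases ht.2 with h | h
            · left
              refine ⟨ht.1, ?_⟩
              rw [← h, md]
              ring
            · right
              refine ⟨ht.1, ?_⟩
              rw [← h, mv]
              ring
          refine (Finset.sum_le_sum h3).trans ?_
          rw [Finset.sum_add_distrib]
          have h4 := lk1_cnt J a y (-1) (fun t => y + -1 * sgnU t.2 * c t.1) (fun t => rfl)
            (hea y hy.1 hy.2 (-1) (by norm_num)) (by simpa using hea y hy.1 hy.2 1 (by norm_num))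
          have h5 := lk1_cnt J a y (-2) (fun t => y + -2 * sgnU t.2 * c t.1) (fun t => rfl)
            (hea y hy.1 hy.2 (-2) (by norm_num)) (by simpa using hea y hy.1 hy.2 2 (by norm_num))
          rw [← hn] at h4 h5
          simp only [zero_add, pow_one]
          linarith
        · rw [Finset.sum_comm]
          calc ∑ x ∈ Icc (1 : ℤ) N, ∑ j ∈ J, (nw N U c i (a j) x : ℝ) * τ x
              ≤ ∑ x ∈ Icc (1 : ℤ) N, (κ * n ^ i) * τ x := by
                refine Finset.sum_le_sum fun x hx => ?_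
                rw [← Finset.sum_mul]
                refine mul_le_mul_of_nonneg_right ?_ (hτ0 x)
                have h5 := lk1_link hκ J a hea i hi0 x (Finset.mem_Icc.1 hx)
                rw [← hn] at h5
                refine le_trans (le_of_eq ?_) h5
                refine Finset.sum_congr rfl fun j hj => ?_
                rw [nw_symm N U c i (ha j hj) (Finset.mem_Icc.1 hx)]
            _ = (κ * n ^ i) * ∑ x ∈ Icc (1 : ℤ) N, τ x := by rw [Finset.mul_sum]
            _ ≤ (κ * n ^ i) * (2 * n) := mul_le_mul_of_nonneg_left hτs (by positivity)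
            _ = 2 * κ * n ^ (i + 1) := by ring
      refine h1.trans ((mul_le_mul_of_nonneg_right h2 (by positivity)).trans ?_)
      have h3 : 2 * κ * n ^ (i + 1) * (B * n ^ s) = 2 * κ * B * n ^ r := by
        rw [hs, pow_add n (i + 1) s]
        ring
      rw [h3]
      nlinarith [hpos2]
  -- all walks through `y`
  have hsub : ∀ j ∈ J, (((wks N U c r (a j) (b j)).filter (fun l => y ∈ wlab c (a j) l)).card : ℝ) ≤
      ∑ i ∈ range r, (((wks N U c r (a j) (b j)).filter
      (fun l => ∃ p t q, l = p ++ t :: q ∧ p.length = i ∧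
        (md c (a j + dsp c p) t = y ∨ (q ≠ [] ∧ mv c (a j + dsp c p) t = y)))).card : ℝ) := by
    intro j _
    have h1 : (wks N U c r (a j) (b j)).filter (fun l => y ∈ wlab c (a j) l) ⊆ (range r).biUnion (fun i =>
        (wks N U c r (a j) (b j)).filter (fun l => ∃ p t q, l = p ++ t :: q ∧ p.length = i ∧
        (md c (a j + dsp c p) t = y ∨ (q ≠ [] ∧ mv c (a j + dsp c p) t = y)))) := by
      intro l hl
      rw [Finset.mem_filter] at hl
      obtain ⟨h2, h3⟩ := hl
      obtain ⟨p, t, q, h4, h5⟩ := lk1_wlab c y l (a j) h3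
      rw [Finset.mem_biUnion]
      refine ⟨p.length, ?_, ?_⟩
      · have h6 := (mem_wks.1 h2).1
        rw [h4, List.length_append, List.length_cons] at h6
        rw [Finset.mem_range]
        omega
      · rw [Finset.mem_filter]
        exact ⟨h2, p, t, q, h4, rfl, h5⟩
    exact_mod_cast (Finset.card_le_card h1).trans Finset.card_biUnion_le
  refine (Finset.sum_le_sum hsub).trans ?_
  rw [Finset.sum_comm]
  refine (Finset.sum_le_sum hE).trans ?_
  rw [Finset.sum_const, Finset.card_range, nsmul_eq_mul]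
  exact le_of_eq (by ring)

end SSB
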