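import Pool.Agent.Lib.MP_8a819d_co.LH.Lk1
import Pool.Agent.Lib.MP_8a819d_co.LH.Cl2
import Pool.Agent.Lib.MP_8a819d_co.LH.Trv

/-!
# All the links at the same time

JOB Lk2 (all of this file).

PROOF. `h, k, c₁, κ₀, N₁` from `clean_lower c₂`. `κ = min κ₀ (c₁/(8 * 10^7 (k+1)^2))`. For `i ∈ J` let `V i` be the set of the clean walks from `a i` to `b i` of the length `r i ∈ {k, k + 1}` given by `clean_lower`
(`QRU` is monotone in `κ`; `Rgl` and the bound for `Ub` too): `|V i| ≥ c₁/N (2|U|)^(r i) > 0`. Conflict: a common unit or a common label of `wlab`. Apply `transversal` (symmetry is clear).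
CONDITION: let `l ∈ V i`, `T j ⊆ V j` in conflict with `l`. With `v j = c₁/N (2|U|)^(r j) ≤ |V j|`:
`∑ j, |T j|/|V j| ≤ ∑ e (unit of l) ∑ j, #{l' ∈ wks (r j) : e unit of l'}/v j + ∑ y ∈ wlab l ∑ j, #{l' ∈ wks (r j) : y ∈ wlab l'}/v j`. `B = 1100/N`.
The first sum: `r i ≤ k + 1` units, `|J| ≤ κ |U|` links, `unit_count`: at most `(k+1) |J| * 2 (k+1) B (2|U|)^(r-1)/v ≤ (k+1)² 1100 κ/c₁`.
The second sum: at most `2 (k+1)` labels `y ∈ [1, N]` (`wlab_mem`); for each of the two lengths `r` apply `lab_count` to `{j ∈ J : r j = r}` (`hea`, `heb` are inherited by subsets): at most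
`(k+1) (2 κ B + 2 |J| B²) N/c₁ ≤ (k+1) (2200 κ + 2 * 1100² κ)/c₁` (`|J| ≤ κ N`); together `≤ 2 (k+1) * 2 (k+1) * 2.5 * 10^6 κ/c₁ ≤ 10^7 (k+1)² κ/c₁`. The total is at most `2 * 10^7 (k+1)² κ/c₁ ≤ 1/4`.
CONCLUSION: `wlab_mem` for the labels in `[1, N]` and the number of labels; distinct links have disjoint units and labels since there is no conflict.
-/

set_option autoImplicit false

namespace SSB

open Finset

/-- all families of links with regular ends can be chosen with disjoint units and labels -/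
def LinksOK (N : ℕ) {ι : Type} [DecidableEq ι] (U : Finset ι) (c : ι → ℕ) (κ : ℝ) : Prop :=
  ∀ (Λ : Type) [DecidableEq Λ] (J : Finset Λ) (a b : Λ → ℤ) (F : Finset ℤ) (Ub : Finset ι),
    (∀ j ∈ J, 1 ≤ a j ∧ a j ≤ N) → (∀ j ∈ J, 1 ≤ b j ∧ b j ≤ N) → (∀ j ∈ J, (a j - b j) % 2 = 0) →
    (∀ x : ℤ, (1 ≤ x ∧ x ≤ N) → (x ∉ F ∨ ∃ j ∈ J, x = a j ∨ x = b j) → Rgl U c κ F x) →
    (Ub.card : ℝ) ≤ κ * U.card → (J.card : ℝ) ≤ κ * U.card → (J.card : ℝ) ≤ κ * N →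
    (∀ x : ℤ, 1 ≤ x → x ≤ N → ∀ m : ℤ, (m = 1 ∨ m = -1 ∨ m = 2 ∨ m = -2) →
      (∑ j ∈ J, (U.filter (fun e => x + m * c e = a j)).card : ℝ) ≤ κ * U.card) →
    (∀ x : ℤ, 1 ≤ x → x ≤ N → ∀ m : ℤ, (m = 1 ∨ m = -1 ∨ m = 2 ∨ m = -2) →
      (∑ j ∈ J, (U.filter (fun e => x + m * c e = b j)).card : ℝ) ≤ κ * U.card) →
    ∃ (l : Λ → List (ι × Bool)),
      (∀ j ∈ J, 1 ≤ (l j).length ∧ l j ∈ wks N U c (l j).length (a j) (b j) ∧ Clean c F Ub (a j) (l j)) ∧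
      ∀ i ∈ J, ∀ j ∈ J, i ≠ j → (∀ e, e ∈ (l i).map Prod.fst → e ∉ (l j).map Prod.fst) ∧
        ∀ y, y ∈ wlab c (a i) (l i) → y ∉ wlab c (a j) (l j)

section lk2aux

variable {ι : Type} [DecidableEq ι]

/-- monotonicity of `QRU` in `κ` -/
private theorem lk2_QRU_mono {N : ℕ} {U : Finset ι} {c : ι → ℕ} {η κ κ' : ℝ} (h : κ ≤ κ')
    (hq : QRU N U c η κ) : QRU N U c η κ' := by
  refine ⟨hq.odd, hq.le, hq.mult, ?_⟩
  obtain ⟨nb, h1, h2, h3, h4, h5⟩ := hq.dens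
  exact ⟨nb, h1, h2, h3, h4.trans (mul_le_mul_of_nonneg_right h (Nat.cast_nonneg N)), h5⟩

/-- monotonicity of `Rgl` in `κ` -/
private theorem lk2_Rgl_mono {U : Finset ι} {c : ι → ℕ} {κ κ' : ℝ} {E : Finset ℤ} {x : ℤ} (h : κ ≤ κ')
    (hq : Rgl U c κ E x) : Rgl U c κ' E x := by
  intro m hm
  exact (hq m hm).trans (mul_le_mul_of_nonneg_right h (Nat.cast_nonneg _))

open Classical in
/-- walks in conflict with given units and labels -/
private theorem lk2_conf {N : ℕ} {U : Finset ι} {c : ι → ℕ} {r : ℕ} {a b : ℤ} (T : Finset (List (ι × Bool)))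
    (hT : T ⊆ wks N U c r a b) (E : Finset ι) (Y : Finset ℤ)
    (hK : ∀ l ∈ T, (∃ e ∈ E, e ∈ l.map Prod.fst) ∨ (∃ y ∈ Y, y ∈ wlab c a l)) :
    (T.card : ℝ) ≤ ∑ e ∈ E, (((wks N U c r a b).filter (fun l => e ∈ l.map Prod.fst)).card : ℝ)
      + ∑ y ∈ Y, (((wks N U c r a b).filter (fun l => y ∈ wlab c a l)).card : ℝ) := by
  have h1 : T ⊆ (E.biUnion fun e => (wks N U c r a b).filter (fun l => e ∈ l.map Prod.fst)) ∪
      (Y.biUnion fun y => (wks N U c r a b).filter (fun l => y ∈ wlab c a l)) := by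
    intro l hl
    rw [mem_union, mem_biUnion, mem_biUnion]
    rcases hK l hl with ⟨e, he, hel⟩ | ⟨y, hy, hyl⟩
    · exact Or.inl ⟨e, he, mem_filter.2 ⟨hT hl, hel⟩⟩
    · exact Or.inr ⟨y, hy, mem_filter.2 ⟨hT hl, hyl⟩⟩
  have h2 := (card_le_card h1).trans (card_union_le _ _)
  have h3 := h2.trans (add_le_add card_biUnion_le card_biUnion_le)
  exact_mod_cast h3

open Classical in
/-- walks through a unit, divided by the number of clean walks -/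
private theorem lk2_unit {N : ℕ} {U : Finset ι} {c : ι → ℕ} {c₁ : ℝ} {h k r : ℕ} {a b : ℤ} (hN : 1 ≤ N)
    (hU : 0 < U.card) (hc₁ : 0 < c₁) (hr : 2 * h + 1 ≤ r) (hrk : r ≤ k + 1)
    (hup : ∀ s, h ≤ s → ∀ x y : ℤ, (1 ≤ x ∧ x ≤ N) → (1 ≤ y ∧ y ≤ N) →
      (nw N U c s x y : ℝ) ≤ 1100 / N * (2 * U.card) ^ s)
    (ha : 1 ≤ a ∧ a ≤ N) (hb : 1 ≤ b ∧ b ≤ N) (e : ι) :
    (((wks N U c r a b).filter (fun l => e ∈ l.map Prod.fst)).card : ℝ) / (c₁ / N * (2 * U.card) ^ r) ≤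
      1100 * (k + 1) / (c₁ * U.card) := by
  have hNR : (0 : ℝ) < N := by exact_mod_cast hN
  have hUR : (0 : ℝ) < U.card := by exact_mod_cast hU
  have hB : (0 : ℝ) ≤ 1100 / N := by positivity
  have h1 := unit_count hB hr hup ha hb e
  have hv : 0 < c₁ / N * (2 * (U.card : ℝ)) ^ r := by positivity
  rw [div_le_iff₀ hv]
  refine h1.trans ?_
  have hpow : (2 * (U.card : ℝ)) ^ r = (2 * (U.card : ℝ)) ^ (r - 1) * (2 * U.card) := by
    rw [← pow_succ, Nat.sub_add_cancel (by omega : 1 ≤ r)]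
  rw [hpow]
  have hrR : (r : ℝ) ≤ k + 1 := by exact_mod_cast hrk
  have hp : (0 : ℝ) < (2 * (U.card : ℝ)) ^ (r - 1) := by positivity
  have h2 : 1100 * ((k : ℝ) + 1) / (c₁ * U.card) * (c₁ / N * ((2 * (U.card : ℝ)) ^ (r - 1) * (2 * U.card))) =
      2 * (k + 1) * (1100 / N) * (2 * (U.card : ℝ)) ^ (r - 1) := by
    field_simp
  rw [h2]
  have h3 : 2 * (r : ℝ) ≤ 2 * (k + 1) := by linarith
  exact mul_le_mul_of_nonneg_right (mul_le_mul_of_nonneg_right h3 hB) hp.le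

open Classical in
/-- walks through a label, for the links of one length, divided by the number of clean walks -/
private theorem lk2_lab {N : ℕ} {U : Finset ι} {c : ι → ℕ} {c₁ κ : ℝ} {h k r : ℕ} (hN : 1 ≤ N)
    (hU : 0 < U.card) (hκ : 0 ≤ κ) (hc₁ : 0 < c₁) (hr : 2 * h + 1 ≤ r) (hrk : r ≤ k + 1)
    (hup : ∀ s, h ≤ s → ∀ x y : ℤ, (1 ≤ x ∧ x ≤ N) → (1 ≤ y ∧ y ≤ N) →
      (nw N U c s x y : ℝ) ≤ 1100 / N * (2 * U.card) ^ s)
    {Λ : Type} [DecidableEq Λ] (J : Finset Λ) (a b : Λ → ℤ)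
    (ha : ∀ j ∈ J, 1 ≤ a j ∧ a j ≤ N) (hb : ∀ j ∈ J, 1 ≤ b j ∧ b j ≤ N)
    (hea : ∀ x : ℤ, 1 ≤ x → x ≤ N → ∀ m : ℤ, (m = 1 ∨ m = -1 ∨ m = 2 ∨ m = -2) →
      (∑ j ∈ J, (U.filter (fun e => x + m * c e = a j)).card : ℝ) ≤ κ * U.card)
    (heb : ∀ x : ℤ, 1 ≤ x → x ≤ N → ∀ m : ℤ, (m = 1 ∨ m = -1 ∨ m = 2 ∨ m = -2) →
      (∑ j ∈ J, (U.filter (fun e => x + m * c e = b j)).card : ℝ) ≤ κ * U.card)
    (hJN : (J.card : ℝ) ≤ κ * N) {y : ℤ} (hy : 1 ≤ y ∧ y ≤ N) :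
    ∑ j ∈ J, (((wks N U c r (a j) (b j)).filter (fun l => y ∈ wlab c (a j) l)).card : ℝ) /
      (c₁ / N * (2 * U.card) ^ r) ≤ (k + 1) * 2422200 * κ / c₁ := by
  have hNR : (0 : ℝ) < N := by exact_mod_cast hN
  have hUR : (0 : ℝ) < U.card := by exact_mod_cast hU
  have hB : (0 : ℝ) ≤ 1100 / N := by positivity
  have h1 := lab_count hB hκ hr hup J a b ha hb hea heb hy
  have hv : 0 < c₁ / N * (2 * (U.card : ℝ)) ^ r := by positivity
  rw [← Finset.sum_div, div_le_iff₀ hv]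
  refine h1.trans ?_
  have hrR : (r : ℝ) ≤ k + 1 := by exact_mod_cast hrk
  have hp : (0 : ℝ) < (2 * (U.card : ℝ)) ^ r := by positivity
  have h2 : ((k : ℝ) + 1) * 2422200 * κ / c₁ * (c₁ / N * (2 * (U.card : ℝ)) ^ r) =
      (k + 1) * (2422200 * κ / N) * (2 * (U.card : ℝ)) ^ r := by
    field_simp
  rw [h2]
  apply mul_le_mul_of_nonneg_right _ hp.le
  have h3 : 2 * κ * (1100 / (N : ℝ)) + 2 * J.card * (1100 / (N : ℝ)) ^ 2 ≤ 2422200 * κ / N := by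
    have h4 : 2 * (J.card : ℝ) * (1100 / (N : ℝ)) ^ 2 ≤ 2 * (κ * N) * (1100 / (N : ℝ)) ^ 2 := by
      apply mul_le_mul_of_nonneg_right _ (by positivity)
      linarith
    have h5 : 2 * κ * (1100 / (N : ℝ)) + 2 * (κ * N) * (1100 / (N : ℝ)) ^ 2 = 2422200 * κ / N := by
      field_simp
      ring
    linarith
  have h6 : 0 ≤ 2 * κ * (1100 / (N : ℝ)) + 2 * J.card * (1100 / (N : ℝ)) ^ 2 := by positivity
  calc (r : ℝ) * (2 * κ * (1100 / (N : ℝ)) + 2 * J.card * (1100 / (N : ℝ)) ^ 2)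
      ≤ (k + 1) * (2 * κ * (1100 / (N : ℝ)) + 2 * J.card * (1100 / (N : ℝ)) ^ 2) :=
        mul_le_mul_of_nonneg_right hrR h6
    _ ≤ (k + 1) * (2422200 * κ / N) := mul_le_mul_of_nonneg_left h3 (by positivity)

open Classical in
/-- the condition of `transversal` -/
private theorem lk2_sum {N : ℕ} {U : Finset ι} {c : ι → ℕ} {c₁ κ : ℝ} {h k : ℕ} (hN : 1 ≤ N)
    (hU : 0 < U.card) (hκ : 0 ≤ κ) (hc₁ : 0 < c₁) (hk : 2 * h + 1 ≤ k)
    (hup : ∀ s, h ≤ s → ∀ x y : ℤ, (1 ≤ x ∧ x ≤ N) → (1 ≤ y ∧ y ≤ N) →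
      (nw N U c s x y : ℝ) ≤ 1100 / N * (2 * U.card) ^ s)
    {Λ : Type} [DecidableEq Λ] (J : Finset Λ) (a b : Λ → ℤ) (r : Λ → ℕ) (hr : ∀ j ∈ J, r j = k ∨ r j = k + 1)
    (ha : ∀ j ∈ J, 1 ≤ a j ∧ a j ≤ N) (hb : ∀ j ∈ J, 1 ≤ b j ∧ b j ≤ N)
    (hea : ∀ x : ℤ, 1 ≤ x → x ≤ N → ∀ m : ℤ, (m = 1 ∨ m = -1 ∨ m = 2 ∨ m = -2) →
      (∑ j ∈ J, (U.filter (fun e => x + m * c e = a j)).card : ℝ) ≤ κ * U.card)
    (heb : ∀ x : ℤ, 1 ≤ x → x ≤ N → ∀ m : ℤ, (m = 1 ∨ m = -1 ∨ m = 2 ∨ m = -2) →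
      (∑ j ∈ J, (U.filter (fun e => x + m * c e = b j)).card : ℝ) ≤ κ * U.card)
    (hJU : (J.card : ℝ) ≤ κ * U.card) (hJN : (J.card : ℝ) ≤ κ * N)
    (E : Finset ι) (Y : Finset ℤ) (hE : E.card ≤ k + 1) (hY : Y.card ≤ 2 * (k + 1))
    (hYN : ∀ y ∈ Y, 1 ≤ y ∧ y ≤ (N : ℤ))
    (T : Λ → Finset (List (ι × Bool))) (hT : ∀ j ∈ J, T j ⊆ wks N U c (r j) (a j) (b j))
    (hK : ∀ j ∈ J, ∀ l ∈ T j, (∃ e ∈ E, e ∈ l.map Prod.fst) ∨ (∃ y ∈ Y, y ∈ wlab c (a j) l)) :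
    ∑ j ∈ J, ((T j).card : ℝ) / (c₁ / N * (2 * U.card) ^ (r j)) ≤ 2 * 10 ^ 7 * (k + 1) ^ 2 * κ / c₁ := by
  have hNR : (0 : ℝ) < N := by exact_mod_cast hN
  have hUR : (0 : ℝ) < U.card := by exact_mod_cast hU
  have hv : ∀ j, 0 < c₁ / N * (2 * (U.card : ℝ)) ^ (r j) := fun j => by positivity
  have hrlo : ∀ j ∈ J, 2 * h + 1 ≤ r j := by
    intro j hj
    rcases hr j hj with h1 | h1 <;> omega
  have hrhi : ∀ j ∈ J, r j ≤ k + 1 := by
    intro j hj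
    rcases hr j hj with h1 | h1 <;> omega
  -- the terms
  have hterm : ∀ j ∈ J, ((T j).card : ℝ) / (c₁ / N * (2 * U.card) ^ (r j)) ≤
      ∑ e ∈ E, (((wks N U c (r j) (a j) (b j)).filter (fun l => e ∈ l.map Prod.fst)).card : ℝ) /
        (c₁ / N * (2 * U.card) ^ (r j)) +
      ∑ y ∈ Y, (((wks N U c (r j) (a j) (b j)).filter (fun l => y ∈ wlab c (a j) l)).card : ℝ) /
        (c₁ / N * (2 * U.card) ^ (r j)) := by
    intro j hj
    rw [← Finset.sum_div, ← Finset.sum_div, ← add_div]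
    exact div_le_div_of_nonneg_right (lk2_conf (T j) (hT j hj) E Y (hK j hj)) (hv j).le
  refine (Finset.sum_le_sum hterm).trans ?_
  rw [Finset.sum_add_distrib]
  -- units
  have hkR : (0 : ℝ) < (k : ℝ) + 1 := by positivity
  have hS1 : ∑ j ∈ J, ∑ e ∈ E, (((wks N U c (r j) (a j) (b j)).filter (fun l => e ∈ l.map Prod.fst)).card : ℝ) /
        (c₁ / N * (2 * U.card) ^ (r j)) ≤ 1100 * (k + 1) ^ 2 * κ / c₁ := by
    have h1 : ∀ j ∈ J, ∑ e ∈ E, (((wks N U c (r j) (a j) (b j)).filter (fun l => e ∈ l.map Prod.fst)).card : ℝ) /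
        (c₁ / N * (2 * U.card) ^ (r j)) ≤ (k + 1) * (1100 * (k + 1) / (c₁ * U.card)) := by
      intro j hj
      have h2 : ∀ e ∈ E, (((wks N U c (r j) (a j) (b j)).filter (fun l => e ∈ l.map Prod.fst)).card : ℝ) /
          (c₁ / N * (2 * U.card) ^ (r j)) ≤ 1100 * (k + 1) / (c₁ * U.card) := fun e _ =>
        lk2_unit hN hU hc₁ (hrlo j hj) (hrhi j hj) hup (ha j hj) (hb j hj) e
      have h3 := Finset.sum_le_card_nsmul E _ _ h2
      rw [nsmul_eq_mul] at h3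
      refine h3.trans (mul_le_mul_of_nonneg_right ?_ (by positivity))
      exact_mod_cast hE
    have h4 := Finset.sum_le_card_nsmul J _ _ h1
    rw [nsmul_eq_mul] at h4
    refine h4.trans ((mul_le_mul_of_nonneg_right hJU (by positivity)).trans (le_of_eq ?_))
    field_simp
  -- labels
  have hS2 : ∑ j ∈ J, ∑ y ∈ Y, (((wks N U c (r j) (a j) (b j)).filter (fun l => y ∈ wlab c (a j) l)).card : ℝ) /
        (c₁ / N * (2 * U.card) ^ (r j)) ≤ 2 * (k + 1) * (2 * ((k + 1) * 2422200 * κ / c₁)) := by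
    rw [Finset.sum_comm]
    have h1 : ∀ y ∈ Y, ∑ j ∈ J, (((wks N U c (r j) (a j) (b j)).filter (fun l => y ∈ wlab c (a j) l)).card : ℝ) /
        (c₁ / N * (2 * U.card) ^ (r j)) ≤ 2 * ((k + 1) * 2422200 * κ / c₁) := by
      intro y hy
      rw [← Finset.sum_filter_add_sum_filter_not J (fun j => r j = k)]
      have hsub : ∀ (J' : Finset Λ) (q : ℕ), J' ⊆ J → (∀ j ∈ J', r j = q) → 2 * h + 1 ≤ q → q ≤ k + 1 →
          ∑ j ∈ J', (((wks N U c (r j) (a j) (b j)).filter (fun l => y ∈ wlab c (a j) l)).card : ℝ) /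
            (c₁ / N * (2 * U.card) ^ (r j)) ≤ (k + 1) * 2422200 * κ / c₁ := by
        intro J' q hJ' hq hq1 hq2
        have h2 : ∑ j ∈ J', (((wks N U c (r j) (a j) (b j)).filter (fun l => y ∈ wlab c (a j) l)).card : ℝ) /
            (c₁ / N * (2 * U.card) ^ (r j)) =
            ∑ j ∈ J', (((wks N U c q (a j) (b j)).filter (fun l => y ∈ wlab c (a j) l)).card : ℝ) /
            (c₁ / N * (2 * U.card) ^ q) := by
          apply Finset.sum_congr rfl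
          intro j hj
          rw [hq j hj]
        rw [h2]
        refine lk2_lab hN hU hκ hc₁ hq1 hq2 hup J' a b (fun j hj => ha j (hJ' hj)) (fun j hj => hb j (hJ' hj))
          ?_ ?_ ?_ (hYN y hy)
        · intro x hx1 hx2 m hm
          exact (Finset.sum_le_sum_of_subset_of_nonneg hJ' (fun _ _ _ => Nat.cast_nonneg _)).trans
            (hea x hx1 hx2 m hm)
        · intro x hx1 hx2 m hm
          exact (Finset.sum_le_sum_of_subset_of_nonneg hJ' (fun _ _ _ => Nat.cast_nonneg _)).trans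
            (heb x hx1 hx2 m hm)
        · refine le_trans ?_ hJN
          exact_mod_cast Finset.card_le_card hJ'
      have hA := hsub (J.filter (fun j => r j = k)) k (Finset.filter_subset _ _)
        (fun j hj => (Finset.mem_filter.1 hj).2) hk (by omega)
      have hC := hsub (J.filter (fun j => ¬ r j = k)) (k + 1) (Finset.filter_subset _ _)
        (fun j hj => by
          have h3 := Finset.mem_filter.1 hj
          rcases hr j h3.1 with h4 | h4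
          · exact absurd h4 h3.2
          · exact h4) (by omega) le_rfl
      linarith
    have h5 := Finset.sum_le_card_nsmul Y _ _ h1
    rw [nsmul_eq_mul] at h5
    refine h5.trans (mul_le_mul_of_nonneg_right ?_ (by positivity))
    exact_mod_cast hY
  refine (add_le_add hS1 hS2).trans ?_
  have h7 : 2 * ((k : ℝ) + 1) * (2 * ((k + 1) * 2422200 * κ / c₁)) = 9688800 * ((k + 1) ^ 2 * κ / c₁) := by ring
  have h8 : 1100 * ((k : ℝ) + 1) ^ 2 * κ / c₁ = 1100 * ((k + 1) ^ 2 * κ / c₁) := by ring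
  have h9 : 2 * 10 ^ 7 * ((k : ℝ) + 1) ^ 2 * κ / c₁ = 2 * 10 ^ 7 * ((k + 1) ^ 2 * κ / c₁) := by ring
  have h10 : 0 ≤ ((k : ℝ) + 1) ^ 2 * κ / c₁ := by positivity
  rw [h7, h8, h9]
  linarith

end lk2aux

theorem links (c₂ : ℝ) (hc₂ : 0 < c₂) : ∃ (κ : ℝ) (N₀ : ℕ), 0 < κ ∧ κ ≤ 1 / 1000 ∧
    ∀ N : ℕ, N₀ ≤ N → ∀ (ι : Type) [DecidableEq ι] (U : Finset ι) (c : ι → ℕ),
      QRU N U c ((N : ℝ) ^ (-c₂)) κ → U.Nonempty → LinksOK N U c κ := by
  classical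
  obtain ⟨h, k, c₁, κ₀, N₁, h1, hk, hc₁, hκ₀, hκ₀', hcl⟩ := clean_lower c₂ hc₂
  have hkR : (0 : ℝ) < (k : ℝ) + 1 := by positivity
  have hq0 : 0 < c₁ / (8 * 10 ^ 7 * ((k : ℝ) + 1) ^ 2) := by positivity
  refine ⟨min κ₀ (c₁ / (8 * 10 ^ 7 * ((k : ℝ) + 1) ^ 2)), max N₁ 1, lt_min hκ₀ hq0,
    (min_le_left _ _).trans hκ₀', ?_⟩
  intro N hN ι _ U c hQ hUne Λ _ J a b F Ub ha hb hab hreg hUb hJU hJN hea heb
  generalize hκdef : min κ₀ (c₁ / (8 * 10 ^ 7 * ((k : ℝ) + 1) ^ 2)) = κ at *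
  have hκ1 : κ ≤ κ₀ := by rw [← hκdef]; exact min_le_left _ _
  have hκ2 : κ ≤ c₁ / (8 * 10 ^ 7 * ((k : ℝ) + 1) ^ 2) := by rw [← hκdef]; exact min_le_right _ _
  have hκ : 0 < κ := by rw [← hκdef]; exact lt_min hκ₀ hq0
  have hN1 : N₁ ≤ N := (le_max_left _ _).trans hN
  have hN2 : 1 ≤ N := (le_max_right _ _).trans hN
  have hNR : (0 : ℝ) < N := by exact_mod_cast hN2
  have hUc : 0 < U.card := hUne.card_pos
  have hUR : (0 : ℝ) < U.card := by exact_mod_cast hUc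
  obtain ⟨hup, hclean⟩ := hcl N hN1 ι U c (lk2_QRU_mono hκ1 hQ) hUne
  have hex : ∀ j, ∃ r : ℕ, j ∈ J → (r = k ∨ r = k + 1) ∧
      c₁ / N * (2 * U.card) ^ r ≤ (((wks N U c r (a j) (b j)).filter (Clean c F Ub (a j))).card : ℝ) := by
    intro j
    by_cases hj : j ∈ J
    · obtain ⟨r, hr1, hr2⟩ := hclean (a j) (b j) F Ub (ha j hj) (hb j hj) (hab j hj)
        (fun x hx hxF => lk2_Rgl_mono hκ1 (hreg x hx (by
          rcases hxF with h2 | h2 | h2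
          · exact Or.inl h2
          · exact Or.inr ⟨j, hj, Or.inl h2⟩
          · exact Or.inr ⟨j, hj, Or.inr h2⟩)))
        (hUb.trans (mul_le_mul_of_nonneg_right hκ1 hUR.le))
      exact ⟨r, fun _ => ⟨hr1, hr2⟩⟩
    · exact ⟨0, fun h => absurd h hj⟩
  choose r hr using hex
  have hr1 : ∀ j ∈ J, r j = k ∨ r j = k + 1 := fun j hj => (hr j hj).1
  have hr2 := fun j (hj : j ∈ J) => (hr j hj).2
  have hv : ∀ j, 0 < c₁ / N * (2 * (U.card : ℝ)) ^ (r j) := fun j => by positivity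
  obtain ⟨V, hV⟩ : ∃ V : Λ → Finset (List (ι × Bool)),
      ∀ j, V j = (wks N U c (r j) (a j) (b j)).filter (Clean c F Ub (a j)) := ⟨_, fun _ => rfl⟩
  have hVc : ∀ j ∈ J, c₁ / N * (2 * (U.card : ℝ)) ^ (r j) ≤ ((V j).card : ℝ) := by
    intro j hj
    rw [hV j]
    exact hr2 j hj
  have hVm : ∀ j, ∀ l ∈ V j, l ∈ wks N U c (r j) (a j) (b j) ∧ Clean c F Ub (a j) l := by
    intro j l hl
    rw [hV j] at hl
    exact Finset.mem_filter.1 hl
  obtain ⟨g, hg1, hg2⟩ := transversal J V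
    (fun i x j y => (∃ e, e ∈ x.map Prod.fst ∧ e ∈ y.map Prod.fst) ∨
      (∃ z, z ∈ wlab c (a i) x ∧ z ∈ wlab c (a j) y))
    (by
      rintro i x j y (⟨e, h2, h3⟩ | ⟨z, h2, h3⟩)
      · exact Or.inl ⟨e, h3, h2⟩
      · exact Or.inr ⟨z, h3, h2⟩)
    (by
      intro i hi
      have h2 := (hv i).trans_le (hVc i hi)
      have h3 : 0 < (V i).card := by exact_mod_cast h2
      exact Finset.card_pos.1 h3)
    (by
      intro i hi l hl T hTV hTK
      have hlw := (hVm i l hl).1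
      have hlen : l.length = r i := (mem_wks.1 hlw).1
      have hwl := wlab_mem (ha i hi) hlw
      have hri : r i ≤ k + 1 := by rcases hr1 i hi with h2 | h2 <;> omega
      have hE : (l.map Prod.fst).toFinset.card ≤ k + 1 := by
        refine (List.toFinset_card_le _).trans ?_
        rw [List.length_map, hlen]
        exact hri
      have hY : (wlab c (a i) l).toFinset.card ≤ 2 * (k + 1) := by
        refine (List.toFinset_card_le _).trans ?_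
        rw [hwl.2]
        omega
      have hsum := lk2_sum (c := c) hN2 hUc hκ.le hc₁ (by omega : 2 * h + 1 ≤ k) hup J a b r hr1 ha hb hea heb
        hJU hJN (l.map Prod.fst).toFinset (wlab c (a i) l).toFinset hE hY
        (fun y hy => hwl.1 y (List.mem_toFinset.1 hy)) T
        (fun j _ t ht => (hVm j t (hTV j ht)).1)
        (by
          intro j _ t ht
          rcases hTK j t ht with ⟨e, h2, h3⟩ | ⟨z, h2, h3⟩
          · exact Or.inl ⟨e, List.mem_toFinset.2 h2, h3⟩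
          · exact Or.inr ⟨z, List.mem_toFinset.2 h2, h3⟩)
      have hle : ∑ j ∈ J.erase i, ((T j).card : ℝ) / (V j).card ≤
          ∑ j ∈ J, ((T j).card : ℝ) / (c₁ / N * (2 * U.card) ^ (r j)) := by
        refine le_trans (Finset.sum_le_sum (fun j hj => ?_)) (Finset.sum_le_sum_of_subset_of_nonneg
          (Finset.erase_subset i J) (fun j _ _ => div_nonneg (Nat.cast_nonneg _) (hv j).le))
        exact div_le_div_of_nonneg_left (Nat.cast_nonneg _) (hv j) (hVc j (Finset.mem_of_mem_erase hj))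
      refine hle.trans (hsum.trans ?_)
      have h2 : 2 * 10 ^ 7 * ((k : ℝ) + 1) ^ 2 * κ ≤
          2 * 10 ^ 7 * ((k : ℝ) + 1) ^ 2 * (c₁ / (8 * 10 ^ 7 * ((k : ℝ) + 1) ^ 2)) :=
        mul_le_mul_of_nonneg_left hκ2 (by positivity)
      have h3 : 2 * 10 ^ 7 * ((k : ℝ) + 1) ^ 2 * (c₁ / (8 * 10 ^ 7 * ((k : ℝ) + 1) ^ 2)) = 1 / 4 * c₁ := by
        field_simp
        norm_num
      rw [div_le_iff₀ hc₁]
      linarith)
  refine ⟨g, ?_, ?_⟩
  · intro j hj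
    have h2 := hVm j (g j) (hg1 j hj)
    have h3 : (g j).length = r j := (mem_wks.1 h2.1).1
    have h4 : 1 ≤ r j := by rcases hr1 j hj with h5 | h5 <;> omega
    exact ⟨by omega, by rw [h3]; exact h2.1, h2.2⟩
  · intro i hi j hj hij
    have h2 := hg2 i hi j hj hij
    refine ⟨fun e he he' => h2 (Or.inl ⟨e, he, he'⟩), fun y hy hy' => h2 (Or.inr ⟨y, hy, hy'⟩)⟩

end SSB
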