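import Pool.Agent.Lib.MP_8a819d_co.LH.Sel

/-!
# Expander mixing for the units `UG`

JOB MixU (all of this file). `pe UG c P Q` = number of `(step, x)` with `x ∈ P`, `x ± c e ∈ Q`.

PROOF. Sign `+`: with the indicator functions `F = 1_P`, `G = 1_Q` (supported in `[1, N]`) `QRU.dens` gives
`#{(e, x) ∈ U × P : x + c e ∈ Q} ≤ |U| ∑ d, nb d * #{x ∈ P : x + d ∈ Q} + η |U| √|P| √|Q| ≤ |U| (32/N) |P| |Q| + η |U| √(|P| |Q|)` (`∑ d, #{x ∈ P : x + d ∈ Q} ≤ |P| |Q|`).
By `trn_sum` with `g d = #{x ∈ P : x + d ∈ Q}`: `#{(e, x) ∈ UG × P : x + c e ∈ Q} ≤ 64 |P| |Q| |UG|/N + 2 η |UG| √(|P| |Q|)`. Sign `-`: `x - c e ∈ Q` with `x ∈ P`: put `x' = x - c e ∈ Q`, `x' + c e ∈ P`: the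
same bound with `P`, `Q` exchanged.
-/

set_option autoImplicit false

namespace SSB

open Finset

variable {ι : Type} [DecidableEq ι]

/-- pairs (step, start in `P`) with `x ± c e ∈ Q` -/
def pe (UG : Finset ι) (c : ι → ℕ) (P Q : Finset ℤ) : Finset ((ι × Bool) × ℤ) :=
  (stps UG ×ˢ P).filter (fun s => md c s.2 s.1 ∈ Q)

/-- number of starts in `P` with the step `d` into `Q` -/
private noncomputable def MixU_g (P Q : Finset ℤ) (d : ℕ) : ℝ := ((P.filter (fun x => x + (d : ℤ) ∈ Q)).card : ℝ)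

private theorem MixU_sum {N : ℕ} {P Q : Finset ℤ} : ∑ d ∈ range (N + 1), MixU_g P Q d ≤ P.card * Q.card := by
  have h1 : ∑ d ∈ range (N + 1), (P.filter (fun x => x + (d : ℤ) ∈ Q)).card ≤ P.card * Q.card := by
    calc ∑ d ∈ range (N + 1), (P.filter (fun x => x + (d : ℤ) ∈ Q)).card
        = ∑ d ∈ range (N + 1), ∑ x ∈ P, (if x + (d : ℤ) ∈ Q then 1 else 0) := by
          refine Finset.sum_congr rfl fun d _ => ?_
          rw [Finset.card_filter]
      _ = ∑ x ∈ P, ∑ d ∈ range (N + 1), (if x + (d : ℤ) ∈ Q then 1 else 0) := Finset.sum_comm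
      _ = ∑ x ∈ P, ((range (N + 1)).filter (fun d : ℕ => x + (d : ℤ) ∈ Q)).card := by
          refine Finset.sum_congr rfl fun x _ => ?_
          rw [Finset.card_filter]
      _ ≤ ∑ x ∈ P, Q.card := by
          refine Finset.sum_le_sum fun x _ => ?_
          refine Finset.card_le_card_of_injOn (fun d : ℕ => x + (d : ℤ)) ?_ ?_
          · intro d hd
            exact (Finset.mem_filter.mp (Finset.mem_coe.mp hd)).2
          · intro d _ d' _ h
            have h' : x + (d : ℤ) = x + (d' : ℤ) := h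
            omega
      _ = P.card * Q.card := by rw [Finset.sum_const, smul_eq_mul]
  unfold MixU_g
  exact_mod_cast h1

private theorem MixU_plus {N : ℕ} {U UG : Finset ι} {c : ι → ℕ} {η κ : ℝ} (hq : QRU N U c η κ) (htr : Trn U UG c)
    (hU : U.Nonempty) (hN : 1 ≤ N) {P Q : Finset ℤ} (hP : P ⊆ Icc 1 (N : ℤ)) (hQ : Q ⊆ Icc 1 (N : ℤ)) :
    ∑ e ∈ UG, MixU_g P Q (c e) ≤ 64 * P.card * Q.card * UG.card / N + 2 * η * UG.card * √(P.card * Q.card) := by
  obtain ⟨nb, hnb0, hnb1, _, _, hFG⟩ := hq.dens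
  have hN0 : (0 : ℝ) < N := by exact_mod_cast hN
  have hUp : (0 : ℝ) < U.card := by exact_mod_cast Finset.card_pos.mpr hU
  have hg0 : ∀ d, 0 ≤ MixU_g P Q d := fun d => Nat.cast_nonneg _
  have hind : ∀ d : ℕ, ∑ x ∈ Icc (1 : ℤ) N, (if x ∈ P then (1 : ℝ) else 0) * (if x + (d : ℤ) ∈ Q then (1 : ℝ) else 0) =
      MixU_g P Q d := by
    intro d
    have h1 : ∀ x : ℤ, (if x ∈ P then (1 : ℝ) else 0) * (if x + (d : ℤ) ∈ Q then (1 : ℝ) else 0) =
        if (x ∈ P ∧ x + (d : ℤ) ∈ Q) then (1 : ℝ) else 0 := by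
      intro x
      by_cases h1 : x ∈ P <;> by_cases h2 : x + (d : ℤ) ∈ Q <;> simp [h1, h2]
    rw [Finset.sum_congr rfl fun x _ => h1 x, Finset.sum_boole]
    unfold MixU_g
    congr 2
    ext x
    simp only [Finset.mem_filter]
    constructor
    · rintro ⟨_, h2, h3⟩
      exact ⟨h2, h3⟩
    · rintro ⟨h2, h3⟩
      exact ⟨hP h2, h2, h3⟩
  have hsq : ∀ R : Finset ℤ, R ⊆ Icc 1 (N : ℤ) →
      ∑ x ∈ Icc (1 : ℤ) N, (if x ∈ R then (1 : ℝ) else 0) ^ 2 = R.card := by
    intro R hR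
    have h1 : ∀ x : ℤ, (if x ∈ R then (1 : ℝ) else 0) ^ 2 = if x ∈ R then (1 : ℝ) else 0 := by
      intro x
      by_cases h : x ∈ R <;> simp [h]
    rw [Finset.sum_congr rfl fun x _ => h1 x, Finset.sum_boole]
    congr 2
    ext x
    simp only [Finset.mem_filter]
    exact ⟨fun h => h.2, fun h => ⟨hR h, h⟩⟩
  have hmem : ∀ R : Finset ℤ, R ⊆ Icc 1 (N : ℤ) → ∀ x, (if x ∈ R then (1 : ℝ) else 0) ≠ 0 → 1 ≤ x ∧ x ≤ N := by
    intro R hR x hx
    have : x ∈ R := by
      by_contra h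
      simp [h] at hx
    exact Finset.mem_Icc.mp (hR this)
  have hmain := hFG (fun x => if x ∈ P then (1 : ℝ) else 0) (fun x => if x ∈ Q then (1 : ℝ) else 0)
    (hmem P hP) (hmem Q hQ)
  simp only [hind] at hmain
  rw [hsq P hP, hsq Q hQ, ← Real.sqrt_mul (Nat.cast_nonneg _)] at hmain
  have hA : ∑ d ∈ range (N + 1), nb d * MixU_g P Q d ≤ 32 / N * (P.card * Q.card) := by
    calc ∑ d ∈ range (N + 1), nb d * MixU_g P Q d ≤ ∑ d ∈ range (N + 1), 32 / N * MixU_g P Q d :=
          Finset.sum_le_sum fun d _ => mul_le_mul_of_nonneg_right (hnb1 d) (hg0 d)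
      _ = 32 / N * ∑ d ∈ range (N + 1), MixU_g P Q d := by rw [← Finset.mul_sum]
      _ ≤ 32 / N * (P.card * Q.card) := mul_le_mul_of_nonneg_left MixU_sum (by positivity)
  have hB : ∑ e ∈ U, MixU_g P Q (c e) ≤ U.card * (32 / N * (P.card * Q.card) + η * √(P.card * Q.card)) := by
    have h1 := (abs_le.mp hmain).2
    have h2 := mul_le_mul_of_nonneg_left hA hUp.le
    linarith
  have hC := trn_sum htr (MixU_g P Q) hg0
  have hD : (∑ e ∈ UG, MixU_g P Q (c e)) * U.card ≤
      (64 * P.card * Q.card * UG.card / N + 2 * η * UG.card * √(P.card * Q.card)) * U.card := by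
    refine hC.trans ?_
    have h3 : (0 : ℝ) ≤ UG.card := Nat.cast_nonneg _
    have h4 := mul_le_mul_of_nonneg_right hB h3
    refine (mul_le_mul_of_nonneg_left h4 (by norm_num : (0 : ℝ) ≤ 2)).trans (le_of_eq ?_)
    field_simp
    ring
  exact le_of_mul_le_mul_right hD hUp

theorem mix {N : ℕ} {U UG : Finset ι} {c : ι → ℕ} {η κ : ℝ} (hq : QRU N U c η κ) (htr : Trn U UG c) (hU : U.Nonempty)
    (hη : 0 ≤ η) (hN : 1 ≤ N) {P Q : Finset ℤ} (hP : P ⊆ Icc 1 (N : ℤ)) (hQ : Q ⊆ Icc 1 (N : ℤ)) :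
    ((pe UG c P Q).card : ℝ) ≤ 128 * P.card * Q.card * UG.card / N + 4 * η * UG.card * √(P.card * Q.card) := by
  have h1 : ((pe UG c P Q).card : ℝ) = ∑ e ∈ UG, MixU_g P Q (c e) + ∑ e ∈ UG, MixU_g Q P (c e) := by
    have h2 : (pe UG c P Q).card = ∑ e ∈ UG, ((P.filter (fun x => x + (c e : ℤ) ∈ Q)).card +
        (Q.filter (fun x => x + (c e : ℤ) ∈ P)).card) := by
      unfold pe
      rw [Finset.card_filter, Finset.sum_product]
      unfold stps
      rw [Finset.sum_product]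
      refine Finset.sum_congr rfl fun e _ => ?_
      rw [Fintype.sum_bool]
      have h3 : ∑ x ∈ P, (if md c x (e, true) ∈ Q then 1 else 0) = (P.filter (fun x => x + (c e : ℤ) ∈ Q)).card := by
        rw [Finset.card_filter]
        refine Finset.sum_congr rfl fun x _ => ?_
        have : md c x (e, true) = x + (c e : ℤ) := by simp [md, sgnU]
        rw [this]
      have h4 : ∑ x ∈ P, (if md c x (e, false) ∈ Q then 1 else 0) = (Q.filter (fun x => x + (c e : ℤ) ∈ P)).card := by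
        have h5 : ∑ x ∈ P, (if md c x (e, false) ∈ Q then 1 else 0) = (P.filter (fun x => x - (c e : ℤ) ∈ Q)).card := by
          rw [Finset.card_filter]
          refine Finset.sum_congr rfl fun x _ => ?_
          have : md c x (e, false) = x - (c e : ℤ) := by simp [md, sgnU]; ring
          rw [this]
        rw [h5]
        refine Finset.card_bij (fun x _ => x - (c e : ℤ)) ?_ ?_ ?_
        · intro x hx
          rw [Finset.mem_filter] at hx ⊢
          exact ⟨hx.2, by rw [sub_add_cancel]; exact hx.1⟩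
        · intro x _ y _ hxy
          have h6 : x - (c e : ℤ) = y - (c e : ℤ) := hxy
          omega
        · intro y hy
          rw [Finset.mem_filter] at hy
          refine ⟨y + (c e : ℤ), ?_, ?_⟩
          · rw [Finset.mem_filter]
            exact ⟨hy.2, by rw [add_sub_cancel_right]; exact hy.1⟩
          · exact add_sub_cancel_right _ _
      rw [h3, h4]
    rw [h2]
    unfold MixU_g
    push_cast
    rw [Finset.sum_add_distrib]
  have hp1 := MixU_plus hq htr hU hN hP hQ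
  have hp2 := MixU_plus hq htr hU hN hQ hP
  have hs : √((Q.card : ℝ) * P.card) = √((P.card : ℝ) * Q.card) := by rw [mul_comm]
  rw [hs] at hp2
  rw [h1]
  have e1 : 64 * (Q.card : ℝ) * P.card * UG.card / N = 64 * (P.card : ℝ) * Q.card * UG.card / N := by
    ring
  have e2 : 128 * (P.card : ℝ) * Q.card * UG.card / N = 64 * (P.card : ℝ) * Q.card * UG.card / N +
      64 * (P.card : ℝ) * Q.card * UG.card / N := by
    ring
  rw [e1] at hp2
  rw [e2]
  linarith

end SSB
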