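import Pool.Agent.Lib.MP_8a819d_co.LH.Def

/-!
# The operators `T` (units) and `Tb` (density)

JOB Op1 (all of this file). All functions are `ℤ → ℝ`; `Sup N F`: `F` vanishes outside `[1, N]`; `nrm N F` is the `ℓ²` norm on `[1, N]`.

* `opT_l2`: Cauchy-Schwarz for the mean over the `2 |U|` steps (`inner_mul_le_norm_mul_norm`, `Finset.inner_mul_le_norm_mul_norm` or
  `sq_sum_le_card_mul_sum_sq`): `(T F x)² ≤ (1/(2|U|)) ∑ t, F (mv x t)²`; for every `t` the map `x ↦ mv x t` is injective, so `∑ x F (mv x t)² ≤ (nrm F)²`.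
* `opT_sub_opB`: `2|U| ⟨G, T F⟩ = ∑ e ∑ x G x F (x + 2 c e) + ∑ e ∑ x G x F (x - 2 c e)`. In the second sum put `x = x' + 2 c e`: it is `∑ e ∑ x' F x' G (x' + 2 c e)` (`F`,
  `G` vanish outside `[1, N]`). The same for `Tb` with `nb`. To use `QRU.dens` for the shifts `2 c e`, split by the parity of `x`: for `ρ = 0, 1` put `F_ρ z = F (2 z + ρ - 2)`,
  `G_ρ z = G (2 z + ρ - 2)` (supported in `1 ≤ z ≤ N/2 + 1 ≤ N`): `∑ x G x F (x + 2 c) = ∑ ρ ∑ z G_ρ z F_ρ (z + c)`, and `∑ ρ, nrm F_ρ nrm G_ρ ≤ nrm F nrm G`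
  (Cauchy-Schwarz). So each of the two sums is approximated up to `η |U| nrm F nrm G`; total `2 η |U| nrm F nrm G`; divide by `2 |U|`.
* `opT_sub_l2`: apply `opT_sub_opB` with `G = T F - Tb F` (supported in `[1, N]`).
* `opB_sup`: `nb d ≤ 32/N` and the points `x + 2 d` (`d ≥ 0`) and `x - 2 d` (`d ≥ 1`; `nb 0 = 0` as `0` is even) are all different.
-/

set_option autoImplicit false
set_option linter.unusedSectionVars false
set_option linter.unusedVariables false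

namespace SSB

open Finset

variable {ι : Type} [DecidableEq ι]

def Sup (N : ℕ) (F : ℤ → ℝ) : Prop := ∀ x, F x ≠ 0 → 1 ≤ x ∧ x ≤ N

noncomputable def nrm (N : ℕ) (F : ℤ → ℝ) : ℝ := √(∑ x ∈ Icc (1 : ℤ) N, F x ^ 2)

noncomputable def opT (N : ℕ) (U : Finset ι) (c : ι → ℕ) (F : ℤ → ℝ) (x : ℤ) : ℝ :=
  if 1 ≤ x ∧ x ≤ N then (∑ t ∈ stps U, F (mv c x t)) / (2 * U.card) else 0

noncomputable def opB (N : ℕ) (nb : ℕ → ℝ) (F : ℤ → ℝ) (x : ℤ) : ℝ :=
  if 1 ≤ x ∧ x ≤ N then (∑ d ∈ range (N + 1), nb d * (F (x + 2 * d) + F (x - 2 * d))) / 2 else 0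

/-- the density of `QRU`, with its properties -/
structure Den (N : ℕ) (U : Finset ι) (c : ι → ℕ) (η κ : ℝ) (nb : ℕ → ℝ) : Prop where
  nn : ∀ d, 0 ≤ nb d
  le : ∀ d, nb d ≤ 32 / N
  supp : ∀ d, nb d ≠ 0 → d % 2 = 1 ∧ 8 * d ≤ N
  exc : (((range (N + 1)).filter (fun d => d % 2 = 1 ∧ 8 * d ≤ N ∧ nb d < 7 / N)).card : ℝ) ≤ κ * N
  bil : ∀ F G : ℤ → ℝ, (∀ x, F x ≠ 0 → 1 ≤ x ∧ x ≤ N) → (∀ x, G x ≠ 0 → 1 ≤ x ∧ x ≤ N) →
      |∑ e ∈ U, ∑ x ∈ Icc (1 : ℤ) N, F x * G (x + c e) -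
        U.card * ∑ d ∈ range (N + 1), nb d * ∑ x ∈ Icc (1 : ℤ) N, F x * G (x + d)| ≤
      η * U.card * (√(∑ x ∈ Icc (1 : ℤ) N, F x ^ 2) * √(∑ x ∈ Icc (1 : ℤ) N, G x ^ 2))

private theorem op1_sub {N : ℕ} {g : ℤ → ℝ} (hg : ∀ x, 0 ≤ g x) (hs : Sup N g) (A : Finset ℤ) :
    ∑ x ∈ A, g x ≤ ∑ x ∈ Icc (1 : ℤ) N, g x := by
  have h1 : ∑ x ∈ A, g x = ∑ x ∈ A.filter (fun x => x ∈ Icc (1 : ℤ) N), g x := by
    rw [sum_filter]
    refine sum_congr rfl fun x _ => ?_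
    split_ifs with h
    · rfl
    · by_contra h2
      exact h (mem_Icc.2 (hs x h2))
  rw [h1]
  refine sum_le_sum_of_subset_of_nonneg (fun x hx => (mem_filter.1 hx).2) fun x _ _ => hg x

private theorem op1_eq {N : ℕ} {g : ℤ → ℝ} (hs : Sup N g) {A : Finset ℤ} (hA : Icc (1 : ℤ) N ⊆ A) :
    ∑ x ∈ A, g x = ∑ x ∈ Icc (1 : ℤ) N, g x := by
  refine (sum_subset hA fun x _ hx => ?_).symm
  by_contra h
  exact hx (mem_Icc.2 (hs x h))

private theorem op1_sq {N : ℕ} {F : ℤ → ℝ} (hF : Sup N F) : Sup N (fun x => F x ^ 2) := fun x hx =>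
  hF x fun h => hx (by simp only [h]; norm_num)

private theorem op1_mul {N : ℕ} {F G : ℤ → ℝ} (hF : Sup N F) : Sup N (fun x => F x * G x) :=
  fun x hx => hF x fun h => hx (by simp only [h, zero_mul])

private theorem op1_shift {N : ℕ} {g : ℤ → ℝ} (hg : ∀ x, 0 ≤ g x) (hs : Sup N g) (A : Finset ℤ)
    (k : ℤ) : ∑ x ∈ A, g (x + k) ≤ ∑ x ∈ Icc (1 : ℤ) N, g x := by
  have h1 : ∑ x ∈ A, g (x + k) = ∑ x ∈ A.image (fun x => x + k), g x := by
    rw [sum_image fun x _ y _ h => add_right_cancel h]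
  rw [h1]
  exact op1_sub hg hs _

private theorem op1_nrm_sq (N : ℕ) (F : ℤ → ℝ) : nrm N F ^ 2 = ∑ x ∈ Icc (1 : ℤ) N, F x ^ 2 := by
  unfold nrm
  rw [Real.sq_sqrt]
  exact sum_nonneg fun x _ => sq_nonneg _

private theorem op1_nrm_nn (N : ℕ) (F : ℤ → ℝ) : 0 ≤ nrm N F := Real.sqrt_nonneg _

private theorem op1_cs (N : ℕ) (F G : ℤ → ℝ) :
    ∑ x ∈ Icc (1 : ℤ) N, F x * G x ≤ nrm N F * nrm N G :=
  Real.sum_mul_le_sqrt_mul_sqrt _ _ _

/-- the sum over the even and the odd numbers -/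
private theorem op1_par {N : ℕ} (hN : 1 ≤ N) {h : ℤ → ℝ} (hh : Sup N h) :
    ∑ x ∈ Icc (1 : ℤ) N, h x =
      ∑ z ∈ Icc (1 : ℤ) N, h (2 * z - 2) + ∑ z ∈ Icc (1 : ℤ) N, h (2 * z - 1) := by
  have h0 : ∑ z ∈ Icc (1 : ℤ) N, h (2 * z - 2) =
      ∑ x ∈ (Icc (1 : ℤ) N).image (fun z => 2 * z - 2), h x := by
    rw [sum_image fun x _ y _ h => by omega]
  have h1 : ∑ z ∈ Icc (1 : ℤ) N, h (2 * z - 1) =
      ∑ x ∈ (Icc (1 : ℤ) N).image (fun z => 2 * z - 1), h x := by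
    rw [sum_image fun x _ y _ h => by omega]
  rw [h0, h1, ← sum_union]
  · refine (op1_eq hh fun x hx => ?_).symm
    rw [mem_Icc] at hx
    rw [mem_union, mem_image, mem_image]
    rcases Int.emod_two_eq_zero_or_one x with h2 | h2
    · exact Or.inl ⟨(x + 2) / 2, mem_Icc.2 (by omega), by omega⟩
    · exact Or.inr ⟨(x + 1) / 2, mem_Icc.2 (by omega), by omega⟩
  · rw [disjoint_left]
    intro x hx hx'
    rw [mem_image] at hx hx'
    obtain ⟨a, -, ha⟩ := hx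
    obtain ⟨b, -, hb⟩ := hx'
    omega

private noncomputable def op1S (N : ℕ) (G F : ℤ → ℝ) (k : ℤ) : ℝ := ∑ x ∈ Icc (1 : ℤ) N, G x * F (x + k)

/-- the shift in the second function -/
private theorem op1_swap {N : ℕ} {F G : ℤ → ℝ} (hF : Sup N F) (hG : Sup N G) (k : ℤ) :
    ∑ x ∈ Icc (1 : ℤ) N, G x * F (x - k) = op1S N F G k := by
  obtain ⟨A, hA⟩ : ∃ A : Finset ℤ, A = Icc (1 : ℤ) N ∪ (Icc (1 : ℤ) N).image (fun x => x + k) := ⟨_, rfl⟩
  have h1 : ∑ x ∈ A, G x * F (x - k) = ∑ x ∈ Icc (1 : ℤ) N, G x * F (x - k) :=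
    op1_eq (op1_mul hG) (by rw [hA]; exact subset_union_left)
  have h2 : op1S N F G k = ∑ x ∈ (Icc (1 : ℤ) N).image (fun x => x + k), G x * F (x - k) := by
    rw [sum_image fun x _ y _ h => add_right_cancel h]
    refine sum_congr rfl fun x _ => ?_
    rw [add_sub_cancel_right, mul_comm]
  rw [← h1, h2, hA]
  refine (sum_subset subset_union_right fun x _ hx => ?_).symm
  have h3 : F (x - k) = 0 := by
    by_contra h4
    apply hx
    rw [mem_image]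
    exact ⟨x - k, mem_Icc.2 (hF _ h4), sub_add_cancel _ _⟩
  rw [h3, mul_zero]

private theorem op1_two {N : ℕ} (hN : 4 ≤ N) {F G : ℤ → ℝ} (hG : Sup N G) (k : ℤ) :
    op1S N G F (2 * k) = op1S N (fun z => G (2 * z - 2)) (fun z => F (2 * z - 2)) k +
      op1S N (fun z => G (2 * z - 1)) (fun z => F (2 * z - 1)) k := by
  unfold op1S
  rw [op1_par (by omega) (op1_mul (G := fun x => F (x + 2 * k)) hG)]
  congr 1
  · refine sum_congr rfl fun z _ => ?_
    have e : 2 * z - 2 + 2 * k = 2 * (z + k) - 2 := by ring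
    simp only [e]
  · refine sum_congr rfl fun z _ => ?_
    have e : 2 * z - 1 + 2 * k = 2 * (z + k) - 1 := by ring
    simp only [e]

private theorem op1_sup0 {N : ℕ} (hN : 4 ≤ N) {F : ℤ → ℝ} (hF : Sup N F) :
    Sup N (fun z => F (2 * z - 2)) := by
  intro z hz
  have := hF _ hz
  omega

private theorem op1_sup1 {N : ℕ} (hN : 4 ≤ N) {F : ℤ → ℝ} (hF : Sup N F) :
    Sup N (fun z => F (2 * z - 1)) := by
  intro z hz
  have := hF _ hz
  omega

private theorem op1_par_nrm {N : ℕ} (hN : 4 ≤ N) {F : ℤ → ℝ} (hF : Sup N F) :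
    nrm N F ^ 2 = nrm N (fun z => F (2 * z - 2)) ^ 2 + nrm N (fun z => F (2 * z - 1)) ^ 2 := by
  rw [op1_nrm_sq, op1_nrm_sq, op1_nrm_sq]
  exact op1_par (by omega) (op1_sq hF)

private theorem op1_ab {a b c d x y : ℝ} (hx : 0 ≤ x) (hy : 0 ≤ y)
    (h1 : x ^ 2 = a ^ 2 + b ^ 2) (h2 : y ^ 2 = c ^ 2 + d ^ 2) : a * c + b * d ≤ x * y := by
  refine le_of_sq_le_sq ?_ (mul_nonneg hx hy)
  have e : (x * y) ^ 2 = (a * c + b * d) ^ 2 + (a * d - b * c) ^ 2 := by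
    rw [mul_pow, h1, h2]
    ring
  rw [e]
  nlinarith [sq_nonneg (a * d - b * c)]

/-- the difference of the two bilinear forms -/
private noncomputable def op1A (N : ℕ) (U : Finset ι) (c : ι → ℕ) (nb : ℕ → ℝ) (m : ℤ) (G F : ℤ → ℝ) : ℝ :=
  ∑ e ∈ U, op1S N G F (m * c e) - U.card * ∑ d ∈ range (N + 1), nb d * op1S N G F (m * d)

private theorem op1_A1 {N : ℕ} {U : Finset ι} {c : ι → ℕ} {η κ : ℝ} {nb : ℕ → ℝ}
    (h : Den N U c η κ nb) {F G : ℤ → ℝ} (hF : Sup N F) (hG : Sup N G) :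
    |op1A N U c nb 1 G F| ≤ η * U.card * (nrm N G * nrm N F) := by
  have h1 := h.bil G F hG hF
  unfold op1A op1S
  simp only [one_mul]
  exact h1

private theorem op1_A2 {N : ℕ} (hN : 4 ≤ N) {U : Finset ι} {c : ι → ℕ} {η κ : ℝ} {nb : ℕ → ℝ}
    (hη : 0 ≤ η) (h : Den N U c η κ nb) {F G : ℤ → ℝ} (hF : Sup N F) (hG : Sup N G) :
    |op1A N U c nb 2 G F| ≤ η * U.card * (nrm N G * nrm N F) := by
  have e : op1A N U c nb 2 G F =
      op1A N U c nb 1 (fun z => G (2 * z - 2)) (fun z => F (2 * z - 2)) +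
        op1A N U c nb 1 (fun z => G (2 * z - 1)) (fun z => F (2 * z - 1)) := by
    unfold op1A
    simp only [one_mul, op1_two hN hG, sum_add_distrib, mul_add]
    ring
  rw [e]
  have h1 := op1_A1 h (op1_sup0 hN hF) (op1_sup0 hN hG)
  have h2 := op1_A1 h (op1_sup1 hN hF) (op1_sup1 hN hG)
  have h3 := op1_ab (op1_nrm_nn N G) (op1_nrm_nn N F) (op1_par_nrm hN hG) (op1_par_nrm hN hF)
  have h4 : 0 ≤ η * U.card := mul_nonneg hη (Nat.cast_nonneg _)
  calc _ ≤ _ := abs_add_le _ _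
    _ ≤ _ := add_le_add h1 h2
    _ = η * U.card * (nrm N (fun z => G (2 * z - 2)) * nrm N (fun z => F (2 * z - 2)) +
        nrm N (fun z => G (2 * z - 1)) * nrm N (fun z => F (2 * z - 1))) := by ring
    _ ≤ _ := mul_le_mul_of_nonneg_left h3 h4

theorem Sup_opT (N : ℕ) (U : Finset ι) (c : ι → ℕ) (F : ℤ → ℝ) : Sup N (opT N U c F) := by
  intro x hx
  by_contra h
  exact hx (if_neg h)

theorem Sup_opB (N : ℕ) (nb : ℕ → ℝ) (F : ℤ → ℝ) : Sup N (opB N nb F) := by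
  intro x hx
  by_contra h
  exact hx (if_neg h)

theorem nrm_add_le (N : ℕ) (F G : ℤ → ℝ) : nrm N (fun x => F x + G x) ≤ nrm N F + nrm N G := by
  refine le_of_sq_le_sq ?_ (add_nonneg (op1_nrm_nn N F) (op1_nrm_nn N G))
  have h1 := op1_cs N F G
  have e : nrm N (fun x => F x + G x) ^ 2 = nrm N F ^ 2 + 2 * (∑ x ∈ Icc (1 : ℤ) N, F x * G x) +
      nrm N G ^ 2 := by
    rw [op1_nrm_sq, op1_nrm_sq, op1_nrm_sq, mul_sum, ← sum_add_distrib, ← sum_add_distrib]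
    exact sum_congr rfl fun x _ => by ring
  rw [e]
  nlinarith

theorem opT_l2 (N : ℕ) (U : Finset ι) (c : ι → ℕ) {F : ℤ → ℝ} (hF : Sup N F) :
    nrm N (opT N U c F) ≤ nrm N F := by
  refine le_of_sq_le_sq ?_ (op1_nrm_nn N F)
  rw [op1_nrm_sq, op1_nrm_sq]
  have hc : ((stps U).card : ℝ) = 2 * U.card := by
    unfold stps
    rw [card_product, card_univ, Fintype.card_bool]
    push_cast
    ring
  rcases U.eq_empty_or_nonempty with rfl | hU
  · have h1 : ∀ x ∈ Icc (1 : ℤ) N, opT N (∅ : Finset ι) c F x ^ 2 = 0 := by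
      intro x _
      unfold opT
      split_ifs
      · rw [card_empty, Nat.cast_zero, mul_zero, div_zero]
        norm_num
      · norm_num
    rw [sum_congr rfl h1, sum_const_zero]
    exact sum_nonneg fun x _ => sq_nonneg _
  have hp : (0 : ℝ) < 2 * U.card := by
    have : (0 : ℝ) < U.card := by exact_mod_cast hU.card_pos
    linarith
  have h1 : ∀ x ∈ Icc (1 : ℤ) N, opT N U c F x ^ 2 ≤
      (2 * U.card : ℝ)⁻¹ * ∑ t ∈ stps U, F (mv c x t) ^ 2 := by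
    intro x hx
    unfold opT
    rw [if_pos (mem_Icc.1 hx), div_pow]
    have h2 := sq_sum_le_card_mul_sum_sq (s := stps U) (f := fun t => F (mv c x t))
    rw [hc] at h2
    rw [div_le_iff₀ (pow_pos hp 2)]
    calc _ ≤ _ := h2
      _ = _ := by field_simp
  refine (sum_le_sum h1).trans ?_
  rw [← mul_sum, sum_comm]
  have h3 : ∀ t ∈ stps U, ∑ x ∈ Icc (1 : ℤ) N, F (mv c x t) ^ 2 ≤ ∑ x ∈ Icc (1 : ℤ) N, F x ^ 2 := by
    intro t _
    have h4 := op1_shift (g := fun x => F x ^ 2) (fun x => sq_nonneg _) (op1_sq hF) (Icc (1 : ℤ) N)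
      (2 * sgnU t.2 * c t.1)
    exact h4
  have h5 := sum_le_sum h3
  rw [sum_const, nsmul_eq_mul, hc] at h5
  rw [inv_mul_le_iff₀ hp]
  exact h5

theorem opT_sub_opB {N : ℕ} (hN : 4 ≤ N) {U : Finset ι} {c : ι → ℕ} {η κ : ℝ} {nb : ℕ → ℝ} (hη : 0 ≤ η)
    (h : Den N U c η κ nb) (hU : U.Nonempty) {F G : ℤ → ℝ} (hF : Sup N F) (hG : Sup N G) :
    |∑ x ∈ Icc (1 : ℤ) N, G x * (opT N U c F x - opB N nb F x)| ≤ η * (nrm N F * nrm N G) := by
  have hp : (0 : ℝ) < U.card := by exact_mod_cast hU.card_pos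
  have hT : ∑ x ∈ Icc (1 : ℤ) N, G x * opT N U c F x =
      (∑ e ∈ U, (op1S N G F (2 * c e) + op1S N F G (2 * c e))) / (2 * U.card) := by
    have h1 : ∀ e ∈ U, op1S N G F (2 * c e) + op1S N F G (2 * c e) =
        ∑ x ∈ Icc (1 : ℤ) N, G x * (F (x + 2 * c e) + F (x - 2 * c e)) := by
      intro e _
      rw [← op1_swap hF hG, op1S, ← sum_add_distrib]
      exact sum_congr rfl fun x _ => by ring
    rw [sum_congr rfl h1, sum_comm, sum_div]
    refine sum_congr rfl fun x hx => ?_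
    unfold opT
    rw [if_pos (mem_Icc.1 hx), stps, sum_product, ← mul_div_assoc, ← mul_sum]
    congr 2
    refine sum_congr rfl fun e _ => ?_
    rw [Fintype.sum_bool]
    have e1 : mv c x (e, true) = x + 2 * c e := by
      unfold mv sgnU
      simp
    have e2 : mv c x (e, false) = x - 2 * c e := by
      unfold mv sgnU
      simp
      ring
    rw [e1, e2]
  have hB : ∑ x ∈ Icc (1 : ℤ) N, G x * opB N nb F x =
      (∑ d ∈ range (N + 1), nb d * (op1S N G F (2 * d) + op1S N F G (2 * d))) / 2 := by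
    have h1 : ∀ d ∈ range (N + 1), nb d * (op1S N G F (2 * d) + op1S N F G (2 * d)) =
        ∑ x ∈ Icc (1 : ℤ) N, G x * (nb d * (F (x + 2 * d) + F (x - 2 * d))) := by
      intro d _
      rw [← op1_swap hF hG, op1S, ← sum_add_distrib, mul_sum]
      exact sum_congr rfl fun x _ => by ring
    rw [sum_congr rfl h1, sum_comm, sum_div]
    refine sum_congr rfl fun x hx => ?_
    unfold opB
    rw [if_pos (mem_Icc.1 hx), ← mul_div_assoc, ← mul_sum]
  have e : ∑ x ∈ Icc (1 : ℤ) N, G x * (opT N U c F x - opB N nb F x) =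
      (op1A N U c nb 2 G F + op1A N U c nb 2 F G) / (2 * U.card) := by
    have e1 : ∑ x ∈ Icc (1 : ℤ) N, G x * (opT N U c F x - opB N nb F x) =
        ∑ x ∈ Icc (1 : ℤ) N, G x * opT N U c F x - ∑ x ∈ Icc (1 : ℤ) N, G x * opB N nb F x := by
      rw [← sum_sub_distrib]
      exact sum_congr rfl fun x _ => by ring
    rw [e1, hT, hB]
    unfold op1A
    simp only [sum_add_distrib, mul_add]
    field_simp
    ring
  rw [e, abs_div, abs_of_pos (by linarith : (0 : ℝ) < 2 * U.card), div_le_iff₀ (by linarith)]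
  have h1 := op1_A2 hN hη h hF hG
  have h2 := op1_A2 hN hη h hG hF
  calc _ ≤ _ := abs_add_le _ _
    _ ≤ _ := add_le_add h1 h2
    _ = _ := by ring

theorem opT_sub_l2 {N : ℕ} (hN : 4 ≤ N) {U : Finset ι} {c : ι → ℕ} {η κ : ℝ} {nb : ℕ → ℝ} (hη : 0 ≤ η)
    (h : Den N U c η κ nb) (hU : U.Nonempty) {F : ℤ → ℝ} (hF : Sup N F) :
    nrm N (fun x => opT N U c F x - opB N nb F x) ≤ η * nrm N F := by
  obtain ⟨H, hH⟩ : ∃ H : ℤ → ℝ, H = fun x => opT N U c F x - opB N nb F x := ⟨_, rfl⟩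
  have hs : Sup N H := by
    intro x hx
    by_contra h1
    apply hx
    rw [hH]
    have h2 : opT N U c F x = 0 := by
      by_contra h3
      exact h1 (Sup_opT N U c F x h3)
    have h3 : opB N nb F x = 0 := by
      by_contra h4
      exact h1 (Sup_opB N nb F x h4)
    simp only [h2, h3, sub_zero]
  have h1 := opT_sub_opB hN hη h hU hF hs
  rw [← hH]
  have h2 : nrm N H ^ 2 ≤ η * (nrm N F * nrm N H) := by
    rw [op1_nrm_sq]
    refine le_trans (le_of_eq ?_) ((le_abs_self _).trans h1)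
    refine sum_congr rfl fun x _ => ?_
    rw [pow_two]
    congr 1
    rw [hH]
  rcases (op1_nrm_nn N H).eq_or_lt with h3 | h3
  · rw [← h3]
    exact mul_nonneg hη (op1_nrm_nn N F)
  · have h4 : nrm N H * nrm N H ≤ (η * nrm N F) * nrm N H := by
      calc nrm N H * nrm N H = nrm N H ^ 2 := by ring
        _ ≤ _ := h2
        _ = _ := by ring
    exact le_of_mul_le_mul_right h4 h3

theorem opB_sup {N : ℕ} {U : Finset ι} {c : ι → ℕ} {η κ : ℝ} {nb : ℕ → ℝ}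
    (h : Den N U c η κ nb) {F : ℤ → ℝ} (hF : Sup N F) (x : ℤ) :
    |opB N nb F x| ≤ 16 / N * ∑ y ∈ Icc (1 : ℤ) N, |F y| := by
  have hR : 0 ≤ 16 / (N : ℝ) * ∑ y ∈ Icc (1 : ℤ) N, |F y| :=
    mul_nonneg (by positivity) (sum_nonneg fun y _ => abs_nonneg _)
  unfold opB
  split_ifs with hx
  swap
  · rw [abs_zero]
    exact hR
  obtain ⟨D, hD⟩ : ∃ D : Finset ℕ, D = (range (N + 1)).filter (fun d => nb d ≠ 0) := ⟨_, rfl⟩
  have h1 : ∑ d ∈ range (N + 1), nb d * (F (x + 2 * d) + F (x - 2 * d)) =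
      ∑ d ∈ D, nb d * (F (x + 2 * d) + F (x - 2 * d)) := by
    rw [hD, sum_filter]
    refine sum_congr rfl fun d _ => ?_
    split_ifs with h2
    · rfl
    · push Not at h2
      rw [h2, zero_mul]
  have hd : ∀ d ∈ D, 1 ≤ d := by
    intro d hd
    rw [hD, mem_filter] at hd
    have := (h.supp d hd.2).1
    omega
  have hs : Sup N (fun y => |F y|) := fun y hy => hF y fun h0 => hy (by simp only [h0, abs_zero])
  have h2 : ∑ d ∈ D, (|F (x + 2 * d)| + |F (x - 2 * d)|) ≤ ∑ y ∈ Icc (1 : ℤ) N, |F y| := by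
    have e1 : ∑ d ∈ D, |F (x + 2 * d)| = ∑ y ∈ D.image (fun d : ℕ => x + 2 * (d : ℤ)), |F y| := by
      rw [sum_image fun a _ b _ hab => by omega]
    have e2 : ∑ d ∈ D, |F (x - 2 * d)| = ∑ y ∈ D.image (fun d : ℕ => x - 2 * (d : ℤ)), |F y| := by
      rw [sum_image fun a _ b _ hab => by omega]
    rw [sum_add_distrib, e1, e2, ← sum_union]
    · exact op1_sub (g := fun y => |F y|) (fun y => abs_nonneg _) hs _
    · rw [disjoint_left]
      intro y hy hy'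
      rw [mem_image] at hy hy'
      obtain ⟨a, ha, ha'⟩ := hy
      obtain ⟨b, hb, hb'⟩ := hy'
      have := hd a ha
      have := hd b hb
      omega
  rw [h1, abs_div, abs_two, div_le_iff₀ (by norm_num)]
  calc |∑ d ∈ D, nb d * (F (x + 2 * d) + F (x - 2 * d))|
      ≤ ∑ d ∈ D, |nb d * (F (x + 2 * d) + F (x - 2 * d))| := abs_sum_le_sum_abs _ _
    _ ≤ ∑ d ∈ D, 32 / N * (|F (x + 2 * d)| + |F (x - 2 * d)|) := by
        refine sum_le_sum fun d _ => ?_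
        rw [abs_mul, abs_of_nonneg (h.nn d)]
        exact mul_le_mul (h.le d) (abs_add_le _ _) (abs_nonneg _) (by positivity)
    _ = 32 / N * ∑ d ∈ D, (|F (x + 2 * d)| + |F (x - 2 * d)|) := by rw [mul_sum]
    _ ≤ 32 / N * ∑ y ∈ Icc (1 : ℤ) N, |F y| := mul_le_mul_of_nonneg_left h2 (by positivity)
    _ = 16 / N * (∑ y ∈ Icc (1 : ℤ) N, |F y|) * 2 := by ring

end SSB
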