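import Pool.Agent.Lib.MP_8a819d_co.LH.Def

/-!
# Walks: counting

`nw N U c r x y` = number of walks of length `r` from `x` to `y` in `[1, N]`.

* `mem_wks`: induction on `r` (generalising `x`), `dsp` = displacement of a list of steps.
* `nw_succ`: the images in the definition are disjoint for different `t` (`List.cons` is injective).
* `nw_add`: induction on `r` with `nw_succ` (`∑ z` and `∑ t` commute); for `r = 0` only `z = x` counts.
* `nw_one`: number of `t` with `mv c x t = y`. `nw_symm`: induction with `nw_add` (`r + 1 = 1 + r = r + 1`), the map `(e, s) ↦ (e, !s)` for `r = 1`.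
* `nw_sum_le`: induction, every step has at most `2 |U|` continuations.
* `le_nw_sum`: for `x ∈ [1, N]` and every `e ∈ U` at least one of `x + 2 c e`, `x - 2 c e` is in `[1, N]` (as `8 c e ≤ N`).
* `nw_sum_right_le`: `∑ x, nw r x y ≤ (2 |U|)^r` from `nw_symm`, `nw_sum_le`.
-/

set_option autoImplicit false

namespace SSB

open Finset

variable {ι : Type} [DecidableEq ι]

/-- displacement of a list of steps -/
def dsp (c : ι → ℕ) (l : List (ι × Bool)) : ℤ := (l.map (fun t => 2 * sgnU t.2 * (c t.1 : ℤ))).sum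

/-- number of walks -/
def nw (N : ℕ) (U : Finset ι) (c : ι → ℕ) (r : ℕ) (x y : ℤ) : ℕ := (wks N U c r x y).card

omit [DecidableEq ι] in
theorem wk1_dsp_cons (c : ι → ℕ) (x : ℤ) (t : ι × Bool) (l : List (ι × Bool)) :
    x + dsp c (t :: l) = mv c x t + dsp c l := by
  simp only [dsp, List.map_cons, List.sum_cons, mv]
  ring

omit [DecidableEq ι] in
theorem wk1_dsp_nil (c : ι → ℕ) : dsp c [] = 0 := by
  simp [dsp]

theorem wk1_mem_stps {U : Finset ι} {t : ι × Bool} : t ∈ stps U ↔ t.1 ∈ U := by
  simp [stps]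

theorem mem_wks {N : ℕ} {U : Finset ι} {c : ι → ℕ} {r : ℕ} {x y : ℤ} {l : List (ι × Bool)} :
    l ∈ wks N U c r x y ↔ l.length = r ∧ (∀ t ∈ l, t.1 ∈ U) ∧ y = x + dsp c l ∧
      ∀ i, 1 ≤ i → i ≤ r → 1 ≤ x + dsp c (l.take i) ∧ x + dsp c (l.take i) ≤ N := by
  induction r generalizing x l with
  | zero =>
    rw [wks]
    constructor
    · intro h
      by_cases hxy : x = y
      · rw [if_pos hxy, mem_singleton] at h
        subst h
        refine ⟨rfl, by simp, by rw [wk1_dsp_nil, hxy, add_zero], fun i h1 h2 => by omega⟩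
      · rw [if_neg hxy] at h
        exact absurd h (notMem_empty _)
    · rintro ⟨h1, -, h3, -⟩
      have h4 : l = [] := List.length_eq_zero_iff.1 h1
      subst h4
      rw [wk1_dsp_nil, add_zero] at h3
      rw [if_pos h3.symm, mem_singleton]
  | succ r ih =>
    rw [wks, mem_biUnion]
    constructor
    · rintro ⟨t, ht, h⟩
      by_cases hc : 1 ≤ mv c x t ∧ mv c x t ≤ N
      · rw [if_pos hc, mem_image] at h
        obtain ⟨l', hl', rfl⟩ := h
        obtain ⟨h1, h2, h3, h4⟩ := ih.1 hl'
        refine ⟨by rw [List.length_cons, h1], ?_, by rw [wk1_dsp_cons, h3], ?_⟩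
        · intro t' ht'
          rcases List.mem_cons.1 ht' with rfl | h5
          · exact wk1_mem_stps.1 ht
          · exact h2 t' h5
        · intro i hi1 hi2
          obtain ⟨j, rfl⟩ : ∃ j, i = j + 1 := ⟨i - 1, by omega⟩
          rw [List.take_succ_cons, wk1_dsp_cons]
          by_cases hj : j = 0
          · subst hj
            rw [List.take_zero, wk1_dsp_nil, add_zero]
            exact hc
          · exact h4 j (by omega) (by omega)
      · rw [if_neg hc] at h
        exact absurd h (notMem_empty _)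
    · rintro ⟨h1, h2, h3, h4⟩
      obtain ⟨t, l', rfl⟩ : ∃ t l', l = t :: l' := by
        cases l with
        | nil => simp at h1
        | cons t l' => exact ⟨t, l', rfl⟩
      refine ⟨t, wk1_mem_stps.2 (h2 t (List.mem_cons_self ..)), ?_⟩
      have hc : 1 ≤ mv c x t ∧ mv c x t ≤ N := by
        have h5 := h4 1 le_rfl (by omega)
        rw [List.take_succ_cons, List.take_zero, wk1_dsp_cons, wk1_dsp_nil, add_zero] at h5
        exact h5
      rw [if_pos hc, mem_image]
      refine ⟨l', ih.2 ⟨?_, fun t' ht' => h2 t' (List.mem_cons_of_mem _ ht'), ?_, ?_⟩, rfl⟩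
      · rw [List.length_cons] at h1
        omega
      · rw [h3, wk1_dsp_cons]
      · intro i hi1 hi2
        have h5 := h4 (i + 1) (by omega) (by omega)
        rwa [List.take_succ_cons, wk1_dsp_cons] at h5

theorem card_stps (U : Finset ι) : (stps U).card = 2 * U.card := by
  rw [stps, card_product, card_univ, Fintype.card_bool, mul_comm]

theorem nw_zero (N : ℕ) (U : Finset ι) (c : ι → ℕ) (x y : ℤ) : nw N U c 0 x y = if x = y then 1 else 0 := by
  rw [nw, wks]
  split_ifs
  · simp
  · simp

theorem nw_succ (N : ℕ) (U : Finset ι) (c : ι → ℕ) (r : ℕ) (x y : ℤ) :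
    nw N U c (r + 1) x y = ∑ t ∈ stps U, if 1 ≤ mv c x t ∧ mv c x t ≤ N then nw N U c r (mv c x t) y else 0 := by
  rw [nw, wks, card_biUnion]
  · refine sum_congr rfl fun t _ => ?_
    split_ifs with h
    · rw [nw, card_image_of_injective]
      intro a b hab
      exact (List.cons.inj hab).2
    · simp
  · intro t _ t' _ htt'
    rw [Function.onFun, disjoint_left]
    intro l h1 h2
    split_ifs at h1 with h3
    · rw [mem_image] at h1
      obtain ⟨l1, -, rfl⟩ := h1
      split_ifs at h2 with h4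
      · rw [mem_image] at h2
        obtain ⟨l2, -, h5⟩ := h2
        exact htt' (List.cons.inj h5).1.symm
      · exact absurd h2 (notMem_empty _)
    · exact absurd h1 (notMem_empty _)

theorem nw_add (N : ℕ) (U : Finset ι) (c : ι → ℕ) (r s : ℕ) {x : ℤ} (hx : 1 ≤ x ∧ x ≤ N) (y : ℤ) :
    nw N U c (r + s) x y = ∑ z ∈ Icc (1 : ℤ) N, nw N U c r x z * nw N U c s z y := by
  induction r generalizing x with
  | zero =>
    rw [zero_add, sum_eq_single x]
    · rw [nw_zero, if_pos rfl, one_mul]
    · intro z _ hz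
      rw [nw_zero, if_neg (Ne.symm hz), zero_mul]
    · intro h
      exact absurd (mem_Icc.2 hx) h
  | succ r ih =>
    have e : r + 1 + s = (r + s) + 1 := by omega
    rw [e, nw_succ]
    have h1 : ∀ z ∈ Icc (1 : ℤ) N, nw N U c (r + 1) x z * nw N U c s z y =
        ∑ t ∈ stps U, (if 1 ≤ mv c x t ∧ mv c x t ≤ N then nw N U c r (mv c x t) z else 0) *
          nw N U c s z y := by
      intro z _
      rw [nw_succ, sum_mul]
    rw [sum_congr rfl h1, sum_comm]
    refine sum_congr rfl fun t _ => ?_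
    split_ifs with h
    · exact ih h
    · simp

theorem wk1_nw_one (N : ℕ) (U : Finset ι) (c : ι → ℕ) {x y : ℤ} (hy : 1 ≤ y ∧ y ≤ N) :
    nw N U c 1 x y = ((stps U).filter fun t => mv c x t = y).card := by
  have e : (1 : ℕ) = 0 + 1 := rfl
  rw [e, nw_succ, card_filter]
  refine sum_congr rfl fun t _ => ?_
  rw [nw_zero]
  by_cases h : mv c x t = y
  · rw [h, if_pos hy]
  · simp [h]

theorem wk1_symm_one (N : ℕ) (U : Finset ι) (c : ι → ℕ) {x y : ℤ} (hx : 1 ≤ x ∧ x ≤ N)
    (hy : 1 ≤ y ∧ y ≤ N) : nw N U c 1 x y = nw N U c 1 y x := by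
  have hsgn : ∀ b : Bool, sgnU (!b) = - sgnU b := by
    intro b
    cases b <;> simp [sgnU]
  rw [wk1_nw_one N U c hy, wk1_nw_one N U c hx]
  have key : ∀ (x y : ℤ), ((stps U).filter fun t => mv c x t = y).card ≤
      ((stps U).filter fun t => mv c y t = x).card := by
    intro x y
    refine card_le_card_of_injOn (fun t => (t.1, !t.2)) ?_ ?_
    · intro t ht
      rw [mem_coe, mem_filter] at ht
      rw [mem_coe, mem_filter]
      have h1 : t.1 ∈ U := wk1_mem_stps.1 ht.1
      refine ⟨wk1_mem_stps.2 h1, ?_⟩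
      rw [← ht.2]
      simp only [mv]
      rw [hsgn]
      ring
    · rintro ⟨a, b⟩ _ ⟨a', b'⟩ _ h
      simp only [Prod.mk.injEq] at h
      rw [Prod.mk.injEq]
      refine ⟨h.1, ?_⟩
      have := h.2
      cases b <;> cases b' <;> simp_all
  exact le_antisymm (key x y) (key y x)

theorem nw_symm (N : ℕ) (U : Finset ι) (c : ι → ℕ) (r : ℕ) {x y : ℤ} (hx : 1 ≤ x ∧ x ≤ N) (hy : 1 ≤ y ∧ y ≤ N) :
    nw N U c r x y = nw N U c r y x := by
  induction r generalizing x y with
  | zero =>
    rw [nw_zero, nw_zero]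
    by_cases h : x = y
    · rw [if_pos h, if_pos h.symm]
    · rw [if_neg h, if_neg (Ne.symm h)]
  | succ r ih =>
    rw [nw_add N U c r 1 hx]
    have e : r + 1 = 1 + r := by omega
    rw [e, nw_add N U c 1 r hy]
    refine sum_congr rfl fun z hz => ?_
    rw [mem_Icc] at hz
    rw [ih hx hz, wk1_symm_one N U c hz hy, mul_comm]

theorem nw_sum_le (N : ℕ) (U : Finset ι) (c : ι → ℕ) (r : ℕ) (x : ℤ) :
    ∑ y ∈ Icc (1 : ℤ) N, nw N U c r x y ≤ (2 * U.card) ^ r := by
  induction r generalizing x with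
  | zero =>
    rw [pow_zero, sum_congr rfl fun y _ => nw_zero N U c x y, sum_ite_eq]
    split_ifs <;> simp
  | succ r ih =>
    rw [sum_congr rfl fun y _ => nw_succ N U c r x y, sum_comm]
    have h1 : ∀ t ∈ stps U, ∑ y ∈ Icc (1 : ℤ) N,
        (if 1 ≤ mv c x t ∧ mv c x t ≤ N then nw N U c r (mv c x t) y else 0) ≤ (2 * U.card) ^ r := by
      intro t _
      split_ifs with h
      · exact ih _
      · simp
    refine (sum_le_sum h1).trans ?_
    rw [sum_const, smul_eq_mul, card_stps, pow_succ, mul_comm]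

theorem nw_sum_right_le (N : ℕ) (U : Finset ι) (c : ι → ℕ) (r : ℕ) {y : ℤ} (hy : 1 ≤ y ∧ y ≤ N) :
    ∑ x ∈ Icc (1 : ℤ) N, nw N U c r x y ≤ (2 * U.card) ^ r := by
  refine le_trans (le_of_eq (sum_congr rfl fun x hx => ?_)) (nw_sum_le N U c r y)
  rw [mem_Icc] at hx
  exact nw_symm N U c r hx hy

theorem le_nw_sum {N : ℕ} {U : Finset ι} {c : ι → ℕ} (hc : ∀ e ∈ U, 8 * c e ≤ N) (hpos : ∀ e ∈ U, 1 ≤ c e) (r : ℕ)
    {x : ℤ} (hx : 1 ≤ x ∧ x ≤ N) : U.card ^ r ≤ ∑ y ∈ Icc (1 : ℤ) N, nw N U c r x y := by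
  induction r generalizing x with
  | zero =>
    rw [pow_zero, sum_congr rfl fun y _ => nw_zero N U c x y, sum_ite_eq, if_pos (mem_Icc.2 hx)]
  | succ r ih =>
    rw [sum_congr rfl fun y _ => nw_succ N U c r x y, sum_comm]
    -- the good steps
    have hgood : ∀ e ∈ U, ∃ b : Bool, 1 ≤ mv c x (e, b) ∧ mv c x (e, b) ≤ N := by
      intro e he
      have h1 := hc e he
      have h2 := hpos e he
      by_cases h : x + 2 * c e ≤ N
      · refine ⟨true, ?_, ?_⟩
        · simp only [mv, sgnU]
          simp only [if_true]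
          omega
        · simp only [mv, sgnU]
          simp only [if_true]
          omega
      · refine ⟨false, ?_, ?_⟩
        · simp only [mv, sgnU]
          simp
          omega
        · simp only [mv, sgnU]
          simp
          omega
    have hex : ∀ e : ι, ∃ b : Bool, e ∈ U → 1 ≤ mv c x (e, b) ∧ mv c x (e, b) ≤ N := by
      intro e
      by_cases he : e ∈ U
      · obtain ⟨b, hb⟩ := hgood e he
        exact ⟨b, fun _ => hb⟩
      · exact ⟨true, fun h => absurd h he⟩
    choose b hb using hex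
    have hsub : U.image (fun e => (e, b e)) ⊆ stps U := by
      intro t ht
      rw [mem_image] at ht
      obtain ⟨e, he, rfl⟩ := ht
      exact wk1_mem_stps.2 he
    have hinj : Function.Injective fun e : ι => (e, b e) := by
      intro e e' h
      exact (Prod.mk.inj h).1
    calc U.card ^ (r + 1) = ∑ _t ∈ U.image (fun e => (e, b e)), U.card ^ r := by
          rw [sum_const, card_image_of_injective _ hinj, smul_eq_mul, pow_succ, mul_comm]
      _ ≤ ∑ t ∈ U.image (fun e => (e, b e)), ∑ y ∈ Icc (1 : ℤ) N,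
            (if 1 ≤ mv c x t ∧ mv c x t ≤ N then nw N U c r (mv c x t) y else 0) := by
          refine sum_le_sum fun t ht => ?_
          rw [mem_image] at ht
          obtain ⟨e, he, rfl⟩ := ht
          have h1 := hb e he
          refine (ih h1).trans (le_of_eq (sum_congr rfl fun y _ => ?_))
          rw [if_pos h1]
      _ ≤ _ := sum_le_sum_of_subset hsub

/-- parity classes mod 4 if all labels are odd -/
theorem nw_class {N : ℕ} {U : Finset ι} {c : ι → ℕ} (hc : ∀ e ∈ U, c e % 2 = 1) {r : ℕ} {x y : ℤ}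
    (h : nw N U c r x y ≠ 0) : (y - x - 2 * r) % 4 = 0 := by
  rw [nw, Ne, card_eq_zero, ← Ne, ← nonempty_iff_ne_empty] at h
  obtain ⟨l, hl⟩ := h
  obtain ⟨h1, h2, h3, -⟩ := mem_wks.1 hl
  have key : ∀ l : List (ι × Bool), (∀ t ∈ l, t.1 ∈ U) →
      (dsp c l - 2 * (l.length : ℤ)) % 4 = 0 := by
    intro l
    induction l with
    | nil => intro _; simp [dsp]
    | cons t l ih =>
      intro hl
      have h4 := ih fun t' ht' => hl t' (List.mem_cons_of_mem _ ht')
      have h5 := wk1_dsp_cons c 0 t l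
      rw [zero_add] at h5
      rw [h5, List.length_cons]
      have h6 := hc t.1 (hl t (List.mem_cons_self ..))
      simp only [mv, sgnU]
      push_cast
      split_ifs <;> omega
  have h4 := key l h2
  rw [h1] at h4
  have h5 : y - x - 2 * r = dsp c l - 2 * (r : ℤ) := by
    rw [h3]
    ring
  rw [h5]
  exact h4

end SSB
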