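import Pool.Agent.Lib.MP_8a819d_co.LH.Op1
import Pool.Agent.Lib.MP_8a819d_co.LH.Wk1

/-!
# Upper bound for the number of walks

JOB Op2 (all of this file).

* `opT_iter`: `(T^r δ_y)(x) = nw r x y / (2|U|)^r` for `x ∈ [1, N]` (`nw_succ`; all iterates vanish outside `[1, N]`). `δ_y z = if z = y then 1 else 0`.
* `walk_upper`. Put `a_j = nrm (T^j δ_y)`, `a_0 = 1`. `T^(j+1) δ = (T - Tb)(T^j δ) + Tb (T^j δ)`; by `opT_sub_l2` the first part has norm `≤ η a_j`, by `opB_sup` and `nw_sum_right_le`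
  (`∑ x, (T^j δ_y)(x) ≤ 1`) the second part is at most `16/N` everywhere, so its norm is `≤ √N * 16/N = 16/√N`. So `a_{j+1} ≤ η a_j + 16/√N`; if `η ≤ 1/2` then
  `a_j ≤ η^j + 32/√N`. Take `h = ⌈1/(2 c₂)⌉ + 1`: `η^h = N^(-c₂ h) ≤ N^(-1/2)`, `a_h ≤ 33/√N`. By `nw_add`, `nw_symm` and Cauchy-Schwarz
  `nw (2h) x y/(2|U|)^(2h) = ∑ z, (T^h δ_x)(z) (T^h δ_y)(z) ≤ 33²/N ≤ 1100/N`. For `r ≥ 2h`: `nw r x y = ∑ z, nw (r - 2h) x z * nw (2h) z y` and `nw_sum_le`.
-/

set_option autoImplicit false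

namespace SSB

open Finset

private theorem op2_gen {ι : Type} [DecidableEq ι] {N : ℕ} (U : Finset ι) (c : ι → ℕ) {y : ℤ}
    (hy : 1 ≤ y ∧ y ≤ N) (r : ℕ) : ∀ z : ℤ,
    ((opT N U c)^[r] (fun z => if z = y then 1 else 0)) z =
      if 1 ≤ z ∧ z ≤ N then (nw N U c r z y : ℝ) / (2 * U.card) ^ r else 0 := by
  induction r with
  | zero =>
    intro z
    simp only [Function.iterate_zero, id_eq, pow_zero, div_one, nw_zero]
    by_cases h : z = y
    · rw [if_pos h, if_pos h, if_pos (h ▸ hy)]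
      simp
    · rw [if_neg h, if_neg h]
      simp
  | succ r ih =>
    intro z
    rw [Function.iterate_succ_apply']
    unfold opT
    by_cases hz : 1 ≤ z ∧ z ≤ N
    · rw [if_pos hz, if_pos hz, nw_succ]
      have h1 : ∀ t ∈ stps U, ((opT N U c)^[r] (fun z => if z = y then 1 else 0)) (mv c z t) =
          ((if 1 ≤ mv c z t ∧ mv c z t ≤ N then nw N U c r (mv c z t) y else 0 : ℕ) : ℝ) /
            (2 * U.card) ^ r := by
        intro t _
        rw [ih]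
        by_cases h : 1 ≤ mv c z t ∧ mv c z t ≤ N
        · rw [if_pos h, if_pos h]
        · rw [if_neg h, if_neg h]
          simp
      have h2 : (∑ t ∈ stps U, ((opT N U c)^[r] (fun z => if z = y then 1 else 0)) (mv c z t)) =
          (∑ t ∈ stps U, ((if 1 ≤ mv c z t ∧ mv c z t ≤ N then nw N U c r (mv c z t) y else 0 :
            ℕ) : ℝ)) / (2 * U.card) ^ r := by
        rw [Finset.sum_div]
        exact Finset.sum_congr rfl h1
      change (∑ t ∈ stps U, ((opT N U c)^[r] (fun z => if z = y then 1 else 0)) (mv c z t)) /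
        (2 * U.card) = _
      rw [h2, div_div, ← pow_succ, Nat.cast_sum]
    · rw [if_neg hz, if_neg hz]

theorem opT_iter {ι : Type} [DecidableEq ι] {N : ℕ} (U : Finset ι) (hU : U.Nonempty) (c : ι → ℕ) (r : ℕ) {x y : ℤ}
    (hx : 1 ≤ x ∧ x ≤ N) (hy : 1 ≤ y ∧ y ≤ N) :
    ((opT N U c)^[r] (fun z => if z = y then 1 else 0)) x = (nw N U c r x y : ℝ) / (2 * U.card) ^ r := by
  rw [op2_gen U c hy r x, if_pos hx]

private theorem op2_sup {ι : Type} [DecidableEq ι] {N : ℕ} (U : Finset ι) (c : ι → ℕ) {y : ℤ}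
    (hy : 1 ≤ y ∧ y ≤ N) (r : ℕ) :
    Sup N ((opT N U c)^[r] (fun z => if z = y then 1 else 0)) := by
  intro x hx
  rw [op2_gen U c hy r x] at hx
  by_contra h
  rw [if_neg h] at hx
  exact hx rfl

private theorem op2_sum {ι : Type} [DecidableEq ι] {N : ℕ} (U : Finset ι) (hU : U.Nonempty)
    (c : ι → ℕ) {y : ℤ} (hy : 1 ≤ y ∧ y ≤ N) (r : ℕ) :
    ∑ x ∈ Icc (1 : ℤ) N, |((opT N U c)^[r] (fun z => if z = y then 1 else 0)) x| ≤ 1 := by
  have hc : (0 : ℝ) < (2 * U.card : ℝ) ^ r := by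
    have : (0 : ℝ) < U.card := by exact_mod_cast hU.card_pos
    positivity
  have h1 : ∀ x ∈ Icc (1 : ℤ) N, |((opT N U c)^[r] (fun z => if z = y then 1 else 0)) x| =
      (nw N U c r x y : ℝ) / (2 * U.card) ^ r := by
    intro x hx
    rw [opT_iter U hU c r (Finset.mem_Icc.1 hx) hy, abs_of_nonneg (by positivity)]
  rw [Finset.sum_congr rfl h1, ← Finset.sum_div, div_le_one hc]
  exact_mod_cast nw_sum_right_le N U c r hy

private theorem op2_step {ι : Type} [DecidableEq ι] {N : ℕ} (hN : 4 ≤ N) (U : Finset ι)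
    (hU : U.Nonempty) (c : ι → ℕ) {η κ : ℝ} {nb : ℕ → ℝ} (hη : 0 ≤ η) (h : Den N U c η κ nb)
    {y : ℤ} (hy : 1 ≤ y ∧ y ≤ N) (r : ℕ) :
    nrm N ((opT N U c)^[r + 1] (fun z => if z = y then 1 else 0)) ≤
      η * nrm N ((opT N U c)^[r] (fun z => if z = y then 1 else 0)) + 16 / √N := by
  set F := (opT N U c)^[r] (fun z => if z = y then 1 else 0) with hF
  have hS : Sup N F := op2_sup U c hy r
  have hN0 : (0 : ℝ) < N := by
    have : (4 : ℝ) ≤ N := by exact_mod_cast hN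
    linarith
  have e1 : (opT N U c)^[r + 1] (fun z => if z = y then 1 else 0) =
      fun x => (opT N U c F x - opB N nb F x) + opB N nb F x := by
    rw [Function.iterate_succ_apply']
    funext x
    ring
  rw [e1]
  refine (nrm_add_le N _ _).trans (add_le_add (opT_sub_l2 hN hη h hU hS) ?_)
  have h2 : ∀ x ∈ Icc (1 : ℤ) N, (opB N nb F x) ^ 2 ≤ (16 / (N : ℝ)) ^ 2 := by
    intro x _
    have h3 : |opB N nb F x| ≤ 16 / N := by
      refine (opB_sup h hS x).trans ?_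
      have h4 := op2_sum U hU c hy r
      calc 16 / (N : ℝ) * ∑ y ∈ Icc (1 : ℤ) N, |F y| ≤ 16 / (N : ℝ) * 1 :=
            mul_le_mul_of_nonneg_left h4 (by positivity)
        _ = 16 / N := mul_one _
    exact sq_le_sq' (by linarith [neg_abs_le (opB N nb F x)]) (by linarith [le_abs_self (opB N nb F x)])
  have h3 : ∑ x ∈ Icc (1 : ℤ) N, (opB N nb F x) ^ 2 ≤ 256 / N := by
    refine (Finset.sum_le_card_nsmul _ _ _ h2).trans ?_
    rw [Int.card_Icc, nsmul_eq_mul]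
    have : ((((N : ℤ) + 1 - 1).toNat : ℕ) : ℝ) = N := by simp
    rw [this]
    have : (N : ℝ) * (16 / N) ^ 2 = 256 / N := by
      field_simp
      norm_num
    rw [this]
  unfold nrm
  refine (Real.sqrt_le_sqrt h3).trans ?_
  rw [Real.sqrt_div (by norm_num)]
  have : √(256 : ℝ) = 16 := by
    rw [show (256 : ℝ) = 16 ^ 2 by norm_num]
    exact Real.sqrt_sq (by norm_num)
  rw [this]

private theorem op2_zero {N : ℕ} {y : ℤ} (hy : 1 ≤ y ∧ y ≤ N) :
    nrm N (fun z : ℤ => if z = y then (1 : ℝ) else 0) = 1 := by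
  unfold nrm
  have h : ∑ x ∈ Icc (1 : ℤ) N, (if x = y then (1 : ℝ) else 0) ^ 2 = 1 := by
    rw [Finset.sum_eq_single y]
    · simp
    · intro b _ hb
      simp [hb]
    · intro h
      exact absurd (Finset.mem_Icc.2 hy) h
  rw [h, Real.sqrt_one]

private theorem op2_bound {ι : Type} [DecidableEq ι] {N : ℕ} (hN : 4 ≤ N) (U : Finset ι)
    (hU : U.Nonempty) (c : ι → ℕ) {η κ : ℝ} {nb : ℕ → ℝ} (hη : 0 ≤ η) (hη' : η ≤ 1 / 2)
    (h : Den N U c η κ nb) {y : ℤ} (hy : 1 ≤ y ∧ y ≤ N) (r : ℕ) :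
    nrm N ((opT N U c)^[r] (fun z => if z = y then 1 else 0)) ≤ η ^ r + 32 / √N := by
  have hs : 0 ≤ 32 / √(N : ℝ) := by positivity
  induction r with
  | zero =>
    rw [Function.iterate_zero, id_eq, op2_zero hy, pow_zero]
    linarith
  | succ r ih =>
    refine (op2_step hN U hU c hη h hy r).trans ?_
    have h1 : η * nrm N ((opT N U c)^[r] (fun z => if z = y then 1 else 0)) ≤
        η * (η ^ r + 32 / √N) := mul_le_mul_of_nonneg_left ih hη
    have h2 : η * (32 / √(N : ℝ)) ≤ 1 / 2 * (32 / √N) := mul_le_mul_of_nonneg_right hη' hs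
    have h3 : (1 : ℝ) / 2 * (32 / √N) = 16 / √N := by ring
    have h4 : (32 : ℝ) / √N = 16 / √N + 16 / √N := by ring
    have h5 : η * (η ^ r + 32 / √N) = η ^ (r + 1) + η * (32 / √N) := by ring
    linarith

private theorem op2_cs (N : ℕ) (F G : ℤ → ℝ) :
    ∑ z ∈ Icc (1 : ℤ) N, F z * G z ≤ nrm N F * nrm N G := by
  unfold nrm
  rw [← Real.sqrt_mul (Finset.sum_nonneg fun _ _ => sq_nonneg _)]
  exact Real.le_sqrt_of_sq_le (Finset.sum_mul_sq_le_sq_mul_sq _ _ _)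

theorem walk_upper (c₂ : ℝ) (hc₂ : 0 < c₂) : ∃ h N₀ : ℕ, 1 ≤ h ∧ ∀ N : ℕ, N₀ ≤ N →
    ∀ (ι : Type) [DecidableEq ι] (U : Finset ι) (c : ι → ℕ) (κ : ℝ), QRU N U c ((N : ℝ) ^ (-c₂)) κ → U.Nonempty →
      ∀ r : ℕ, 2 * h ≤ r → ∀ x y : ℤ, (1 ≤ x ∧ x ≤ N) → (1 ≤ y ∧ y ≤ N) →
        (nw N U c r x y : ℝ) ≤ 1100 / N * (2 * U.card) ^ r := by
  have hev : ∀ᶠ N : ℕ in Filter.atTop, ((N : ℝ) ^ (-c₂)) ≤ 1 / 2 := by
    have h1 : Filter.Tendsto (fun N : ℕ => (N : ℝ) ^ (-c₂)) Filter.atTop (nhds 0) :=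
      (tendsto_rpow_neg_atTop hc₂).comp tendsto_natCast_atTop_atTop
    exact h1.eventually_le_const (by norm_num)
  obtain ⟨N₁, hN₁⟩ := Filter.eventually_atTop.1 hev
  refine ⟨⌈1 / (2 * c₂)⌉₊ + 1, max N₁ 4, by omega, ?_⟩
  intro N hN ι _ U c κ hq hU r hr x y hx hy
  set h := ⌈1 / (2 * c₂)⌉₊ + 1 with hh
  have hN4 : 4 ≤ N := (le_max_right _ _).trans hN
  have hη' : (N : ℝ) ^ (-c₂) ≤ 1 / 2 := hN₁ N ((le_max_left _ _).trans hN)
  have hN0 : (0 : ℝ) < N := by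
    have : (4 : ℝ) ≤ N := by exact_mod_cast hN4
    linarith
  have hN1 : (1 : ℝ) ≤ N := by
    have : (4 : ℝ) ≤ N := by exact_mod_cast hN4
    linarith
  have hη : 0 ≤ (N : ℝ) ^ (-c₂) := by positivity
  obtain ⟨nb, b1, b2, b3, b4, b5⟩ := hq.dens
  have hD : Den N U c ((N : ℝ) ^ (-c₂)) κ nb := ⟨b1, b2, b3, b4, b5⟩
  have hU0 : (0 : ℝ) < 2 * U.card := by
    have : (0 : ℝ) < U.card := by exact_mod_cast hU.card_pos
    positivity
  have hpow : ((N : ℝ) ^ (-c₂)) ^ h ≤ 1 / √N := by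
    rw [← Real.rpow_natCast, ← Real.rpow_mul hN0.le, Real.sqrt_eq_rpow, one_div,
      ← Real.rpow_neg hN0.le]
    apply Real.rpow_le_rpow_of_exponent_le hN1
    have h1 : 1 / (2 * c₂) ≤ (h : ℝ) := by
      refine (Nat.le_ceil _).trans ?_
      rw [hh]
      push_cast
      linarith
    have h2 : 1 / 2 ≤ c₂ * h := by
      have h3 := mul_le_mul_of_nonneg_left h1 hc₂.le
      have h4 : c₂ * (1 / (2 * c₂)) = 1 / 2 := by
        field_simp
      linarith
    have h5 : -c₂ * (h : ℝ) = -(c₂ * h) := by ring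
    rw [h5]
    linarith
  have key : ∀ z : ℤ, (1 ≤ z ∧ z ≤ N) →
      nrm N ((opT N U c)^[h] (fun w => if w = z then 1 else 0)) ≤ 33 / √N := by
    intro z hz
    refine (op2_bound hN4 U hU c hη hη' hD hz h).trans ?_
    have : (33 : ℝ) / √N = 1 / √N + 32 / √N := by ring
    linarith
  have two : ∀ a b : ℤ, (1 ≤ a ∧ a ≤ N) → (1 ≤ b ∧ b ≤ N) →
      (nw N U c (h + h) a b : ℝ) ≤ 1100 / N * (2 * U.card) ^ (h + h) := by
    intro a b ha hb
    have e1 : (nw N U c (h + h) a b : ℝ) = (2 * U.card : ℝ) ^ (h + h) *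
        ∑ z ∈ Icc (1 : ℤ) N, ((opT N U c)^[h] (fun w => if w = a then 1 else 0)) z *
          ((opT N U c)^[h] (fun w => if w = b then 1 else 0)) z := by
      rw [nw_add N U c h h ha b, Nat.cast_sum, Finset.mul_sum]
      refine Finset.sum_congr rfl fun z hz => ?_
      have hz' := Finset.mem_Icc.1 hz
      rw [opT_iter U hU c h hz' ha, opT_iter U hU c h hz' hb, Nat.cast_mul,
        nw_symm N U c h ha hz', pow_add]
      field_simp
    rw [e1, mul_comm]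
    refine mul_le_mul_of_nonneg_right ?_ (by positivity)
    refine (op2_cs N _ _).trans ?_
    refine (mul_le_mul (key a ha) (key b hb) (Real.sqrt_nonneg _) (by positivity)).trans ?_
    rw [div_mul_div_comm, Real.mul_self_sqrt hN0.le]
    exact div_le_div_of_nonneg_right (by norm_num) hN0.le
  obtain ⟨s, rfl⟩ : ∃ s, r = s + (h + h) := ⟨r - (h + h), by omega⟩
  rw [nw_add N U c s (h + h) hx y, Nat.cast_sum]
  have h1 : ∀ z ∈ Icc (1 : ℤ) N, ((nw N U c s x z * nw N U c (h + h) z y : ℕ) : ℝ) ≤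
      (nw N U c s x z : ℝ) * (1100 / N * (2 * U.card) ^ (h + h)) := by
    intro z hz
    rw [Nat.cast_mul]
    exact mul_le_mul_of_nonneg_left (two z y (Finset.mem_Icc.1 hz) hy) (Nat.cast_nonneg _)
  refine (Finset.sum_le_sum h1).trans ?_
  rw [← Finset.sum_mul]
  have h2 : (∑ z ∈ Icc (1 : ℤ) N, (nw N U c s x z : ℝ)) ≤ (2 * U.card : ℝ) ^ s := by
    exact_mod_cast nw_sum_le N U c s x
  refine (mul_le_mul_of_nonneg_right h2 (by positivity)).trans (le_of_eq ?_)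
  rw [pow_add]
  ring

end SSB
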