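import Mathlib

/-!
# MP_8a819d_co, leaf-heavy trees: derandomised choice (abstract lemma)

`qr0`: a process of `T` steps; in the state `s` at the time `t` one can choose `c ∈ L` with probabilities `p c`. Each test `Φ i` has
increments at most `b`, of mean at most `e i t` and of second moment at most `V i t`. Then there is a run of the process such that at the end
every test is at most `Φ i 0 s₀ + ∑ e i t + (log |I| + τ² V₀) / τ`.
-/

set_option autoImplicit false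

namespace SSB

open Finset

theorem exp_le_sq {y : ℝ} (hy : y ≤ 1) : Real.exp y ≤ 1 + y + y ^ 2 := by
  rcases le_or_gt (-1) y with h | h
  · have h1 := Real.abs_exp_sub_one_sub_id_le (x := y) (abs_le.2 ⟨h, hy⟩)
    have h2 := (abs_le.1 h1).2
    linarith
  · have h1 : Real.exp y ≤ 1 := by
      rw [Real.exp_le_one_iff]; linarith
    nlinarith

theorem qr0_step {ι : Type*} {I : Finset ι} {L : Finset ℕ} {p : ℕ → ℝ} {X : ι → ℕ → ℝ} {a e V : ι → ℝ}
    {b τ : ℝ} (hτ : 0 < τ) (hb : τ * b ≤ 1) (ha : ∀ i ∈ I, 0 ≤ a i)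
    (hp : ∀ c ∈ L, 0 ≤ p c) (hs : ∑ c ∈ L, p c = 1)
    (hX : ∀ i ∈ I, ∀ c ∈ L, X i c ≤ b) (he : ∀ i ∈ I, ∑ c ∈ L, p c * X i c ≤ e i)
    (hV : ∀ i ∈ I, ∑ c ∈ L, p c * X i c ^ 2 ≤ V i) :
    ∃ c ∈ L, ∑ i ∈ I, a i * Real.exp (τ * (X i c - e i) - τ ^ 2 * V i) ≤ ∑ i ∈ I, a i := by
  by_contra hcon
  push Not at hcon
  have hne : L.Nonempty := by
    by_contra h
    rw [not_nonempty_iff_eq_empty] at h
    rw [h, sum_empty] at hs
    exact zero_ne_one hs
  -- the average over `c`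
  have h1 : ∑ c ∈ L, p c * ∑ i ∈ I, a i * Real.exp (τ * (X i c - e i) - τ ^ 2 * V i) ≤ ∑ i ∈ I, a i := by
    have h2 : ∑ c ∈ L, p c * ∑ i ∈ I, a i * Real.exp (τ * (X i c - e i) - τ ^ 2 * V i) =
        ∑ i ∈ I, a i * (Real.exp (-(τ * e i) - τ ^ 2 * V i) * ∑ c ∈ L, p c * Real.exp (τ * X i c)) := by
      simp only [mul_sum]
      rw [sum_comm]
      apply sum_congr rfl
      intro i _
      apply sum_congr rfl
      intro c _
      have : Real.exp (τ * (X i c - e i) - τ ^ 2 * V i) =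
          Real.exp (-(τ * e i) - τ ^ 2 * V i) * Real.exp (τ * X i c) := by
        rw [← Real.exp_add]
        congr 1
        ring
      rw [this]
      ring
    rw [h2]
    apply sum_le_sum
    intro i hi
    have h3 : ∑ c ∈ L, p c * Real.exp (τ * X i c) ≤ 1 + τ * e i + τ ^ 2 * V i := by
      calc ∑ c ∈ L, p c * Real.exp (τ * X i c)
          ≤ ∑ c ∈ L, p c * (1 + τ * X i c + (τ * X i c) ^ 2) := by
            apply sum_le_sum
            intro c hc
            apply mul_le_mul_of_nonneg_left _ (hp c hc)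
            apply exp_le_sq
            calc τ * X i c ≤ τ * b := mul_le_mul_of_nonneg_left (hX i hi c hc) hτ.le
              _ ≤ 1 := hb
        _ = ∑ c ∈ L, p c + τ * ∑ c ∈ L, p c * X i c + τ ^ 2 * ∑ c ∈ L, p c * X i c ^ 2 := by
            rw [mul_sum, mul_sum, ← sum_add_distrib, ← sum_add_distrib]
            apply sum_congr rfl
            intro c _
            ring
        _ ≤ 1 + τ * e i + τ ^ 2 * V i := by
            have h4 := mul_le_mul_of_nonneg_left (he i hi) hτ.le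
            have h5 := mul_le_mul_of_nonneg_left (hV i hi) (sq_nonneg τ)
            rw [hs]
            linarith
    have h6 : 1 + τ * e i + τ ^ 2 * V i ≤ Real.exp (τ * e i + τ ^ 2 * V i) := by
      have := Real.add_one_le_exp (τ * e i + τ ^ 2 * V i)
      linarith
    have h7 : Real.exp (-(τ * e i) - τ ^ 2 * V i) * ∑ c ∈ L, p c * Real.exp (τ * X i c) ≤ 1 := by
      calc Real.exp (-(τ * e i) - τ ^ 2 * V i) * ∑ c ∈ L, p c * Real.exp (τ * X i c)
          ≤ Real.exp (-(τ * e i) - τ ^ 2 * V i) * Real.exp (τ * e i + τ ^ 2 * V i) :=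
            mul_le_mul_of_nonneg_left (h3.trans h6) (Real.exp_pos _).le
        _ = 1 := by
            rw [← Real.exp_add]
            have : -(τ * e i) - τ ^ 2 * V i + (τ * e i + τ ^ 2 * V i) = 0 := by ring
            rw [this, Real.exp_zero]
    calc a i * (Real.exp (-(τ * e i) - τ ^ 2 * V i) * ∑ c ∈ L, p c * Real.exp (τ * X i c))
        ≤ a i * 1 := mul_le_mul_of_nonneg_left h7 (ha i hi)
      _ = a i := mul_one _
  -- some `c` has positive probability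
  have h8 : ∑ c ∈ L, p c * ∑ i ∈ I, a i < ∑ c ∈ L, p c * ∑ i ∈ I, a i *
      Real.exp (τ * (X i c - e i) - τ ^ 2 * V i) := by
    have hpos : ∃ c ∈ L, 0 < p c := by
      by_contra h
      push Not at h
      have : ∑ c ∈ L, p c ≤ 0 := sum_nonpos h
      rw [hs] at this
      linarith
    obtain ⟨c₀, hc₀, hpc₀⟩ := hpos
    apply sum_lt_sum
    · intro c hc
      exact mul_le_mul_of_nonneg_left (hcon c hc).le (hp c hc)
    · exact ⟨c₀, hc₀, mul_lt_mul_of_pos_left (hcon c₀ hc₀) hpc₀⟩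
  rw [← sum_mul, hs, one_mul] at h8
  linarith

theorem qr0 {σ ι : Type*} (T : ℕ) (I : Finset ι) (Inv : ℕ → σ → Prop) (Φ : ι → ℕ → σ → ℝ)
    (e V : ι → ℕ → ℝ) (b τ V₀ : ℝ) (hτ : 0 < τ) (hb : τ * b ≤ 1)
    (hV₀ : ∀ i ∈ I, ∑ t ∈ range T, V i t ≤ V₀)
    (step : ∀ t < T, ∀ s, Inv t s → ∃ (L : Finset ℕ) (p : ℕ → ℝ) (nx : ℕ → σ),
      (∀ c ∈ L, 0 ≤ p c) ∧ ∑ c ∈ L, p c = 1 ∧ (∀ c ∈ L, Inv (t + 1) (nx c)) ∧
      (∀ i ∈ I, ∀ c ∈ L, Φ i (t + 1) (nx c) - Φ i t s ≤ b) ∧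
      (∀ i ∈ I, ∑ c ∈ L, p c * (Φ i (t + 1) (nx c) - Φ i t s) ≤ e i t) ∧
      (∀ i ∈ I, ∑ c ∈ L, p c * (Φ i (t + 1) (nx c) - Φ i t s) ^ 2 ≤ V i t))
    (s₀ : σ) (h₀ : Inv 0 s₀) :
    ∃ s, Inv T s ∧ ∀ i ∈ I, Φ i T s ≤ Φ i 0 s₀ + ∑ t ∈ range T, e i t +
      (Real.log I.card + τ ^ 2 * V₀) / τ := by
  have key : ∀ t ≤ T, ∃ s, Inv t s ∧
      ∑ i ∈ I, Real.exp (τ * (Φ i t s - Φ i 0 s₀ - ∑ r ∈ range t, e i r) -
        τ ^ 2 * ∑ r ∈ range t, V i r) ≤ I.card := by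
    intro t
    induction t with
    | zero =>
      intro _
      refine ⟨s₀, h₀, ?_⟩
      simp
    | succ t ih =>
      intro ht
      obtain ⟨s, hs, hsum⟩ := ih (by omega)
      obtain ⟨L, p, nx, hp, hp1, hI, hX, he, hV⟩ := step t (by omega) s hs
      obtain ⟨c, hc, hle⟩ := qr0_step (I := I) (L := L) (p := p)
        (X := fun i c => Φ i (t + 1) (nx c) - Φ i t s)
        (a := fun i => Real.exp (τ * (Φ i t s - Φ i 0 s₀ - ∑ r ∈ range t, e i r) -
          τ ^ 2 * ∑ r ∈ range t, V i r)) (e := fun i => e i t) (V := fun i => V i t)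
        hτ hb (fun i _ => (Real.exp_pos _).le) hp hp1 hX he hV
      refine ⟨nx c, hI c hc, le_trans (le_of_eq ?_) (hle.trans hsum)⟩
      apply sum_congr rfl
      intro i _
      rw [← Real.exp_add, sum_range_succ, sum_range_succ]
      congr 1
      ring
  obtain ⟨s, hs, hsum⟩ := key T le_rfl
  refine ⟨s, hs, fun i hi => ?_⟩
  have h1 : Real.exp (τ * (Φ i T s - Φ i 0 s₀ - ∑ r ∈ range T, e i r) -
      τ ^ 2 * ∑ r ∈ range T, V i r) ≤ I.card := by
    refine le_trans ?_ hsum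
    exact single_le_sum (f := fun i => Real.exp (τ * (Φ i T s - Φ i 0 s₀ - ∑ r ∈ range T, e i r) -
      τ ^ 2 * ∑ r ∈ range T, V i r)) (fun i _ => (Real.exp_pos _).le) hi
  have hc : (0 : ℝ) < I.card := by
    have : 0 < I.card := card_pos.2 ⟨i, hi⟩
    exact_mod_cast this
  have h2 := (Real.le_log_iff_exp_le hc).2 h1
  have h3 : τ ^ 2 * ∑ r ∈ range T, V i r ≤ τ ^ 2 * V₀ :=
    mul_le_mul_of_nonneg_left (hV₀ i hi) (sq_nonneg τ)
  have h4 : Φ i T s - Φ i 0 s₀ - ∑ r ∈ range T, e i r ≤ (Real.log I.card + τ ^ 2 * V₀) / τ := by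
    rw [le_div_iff₀ hτ]
    nlinarith
  linarith

end SSB
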