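import Pool.Agent.Lib.MP_8a819d_co.LH.Sk
import Pool.Agent.Lib.MP_8a819d_co.BD.Defs

/-!
# MP_8a819d_co, leaf-heavy trees: weights on the positions

JOB LH_SkQ (all of this file).

`Q`: the labels available for the leaves. `E`: forbidden labels of a host (all even numbers are forbidden). `g`: weights on `Q`. The label `c ∉ E` of a host is chosen with probability
proportional to `Zc N g c = ∑ y, g y * g (y + c)`, and then a leaf at the host gets the label `y + c` (and its edge the label `y`) with probability `g y * g (y + c)/Zc N g c`.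
So a given `z ∈ Q` is used with probability `(∑ c ∉ E, g z * (g (z + c) + g (z - c)))/(∑ c ∉ E, Zc N g c)`; the field `bal` says that this is almost constant.

PROOF of `skQ`. `U = Q.filter (· % 2 = 0)`, `V = Q.filter (· % 2 = 1)`, `r u v = (dd u v ∉ E)`. `[1, N]` contains at least `(N - 1)/2` numbers of each parity, at most `N/200` of them are not in `Q`, so
`|U|, |V| ≥ (N - 1)/2 - N/200 ≥ 0.49 N`. For `u ∈ U` the `v ∈ V` with `dd u v ∈ E` have `dd u v` odd, in `[1, N]`, so `dd u v` is one of at most `N/200` numbers, and `v ∈ {u + dd u v, u - dd u v}`: at most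
`N/100 ≤ |V|/32` elements (as `0.49/32 > 0.015`). Likewise for `v ∈ V`. `sinkhorn` gives `g₁, h₁`; `g z = g₁ z` for `z ∈ U`, `h₁ z` for `z ∈ V` and `0` otherwise.
`∑ c ∈ Icc 1 N \ E, Zc N g c = ∑ over the pairs (y, y') ∈ Q × Q with y < y', y' - y ∉ E, of g y g y' = ∑ u ∈ U, g u * ∑ v ∈ V, r u v, g v` (pairs with `dd ∉ E` have different parity; the
unordered pairs correspond to the pairs `(u, v)`, `u` even, `v` odd). For `z ∈ Q`: `∑ c ∈ Icc 1 N \ E, (g (z + c) + [c < z] g (z - c)) = ∑ y ∈ Q, dd z y ∉ E, g y` (`y = z + c` or `y = z - c`; `g = 0` outside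
`Q ⊆ [1, N]`).
PROOF of `Zc_ge`. `Zc N g c ≥ #{y ∈ Q : y + c ∈ Q} ≥ #{y ∈ [1, N - c]} - #{y ∈ [1, N - c] : y ∉ Q} - #{y : y + c ∈ [1, N] \ Q}`. `Zc_le`: `N + 1` terms, each `≤ 4` (and the term `y = 0` is `0`).
`kapq_le`: `kap N g z c ≤ 2 * (2 + 2)/Zc`. `sumZ_ge`: `∑ c ∉ E, Zc N g c ≥ #{(u, v) : r u v} ≥ |U| |V| (31/32) ≥ (0.49)^2 (31/32) N^2 ≥ N^2/8`.
`kapq_mean`: `Zc N g c * kap N g z c = g z * (g (z + c) + ...)` for `Zc N g c ≠ 0` (and if `Zc N g c = 0`, both sides are `0` or the right side is nonnegative), then `bal`.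
-/

set_option autoImplicit false

namespace SSB

open Finset

/-- the weight of the pairs with difference `c` -/
noncomputable def Zc (N : ℕ) (g : ℕ → ℝ) (c : ℕ) : ℝ := ∑ y ∈ range (N + 1), g y * g (y + c)

/-- the probability that the label `z` is used by a leaf (or its edge) at a host with the label `c` -/
noncomputable def kap (N : ℕ) (g : ℕ → ℝ) (z c : ℕ) : ℝ :=
  g z * (g (z + c) + if c < z then g (z - c) else 0) / Zc N g c

structure SkG (N : ℕ) (Q E : Finset ℕ) (τ : ℝ) (g : ℕ → ℝ) : Prop where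
  nn : ∀ z, 0 ≤ g z
  hi : ∀ z, g z ≤ 2
  lo : ∀ z ∈ Q, 1 ≤ g z
  out : ∀ z, z ∉ Q → g z = 0
  bal : ∀ z ∈ Q, (∑ c ∈ Icc 1 N \ E, g z * (g (z + c) + if c < z then g (z - c) else 0)) *
    ((Q.filter (fun y => y % 2 = z % 2)).card : ℝ) ≤ (1 + τ) * ∑ c ∈ Icc 1 N \ E, Zc N g c

private theorem skqa_plus {Q C : Finset ℕ} {g : ℕ → ℝ} (out : ∀ z, z ∉ Q → g z = 0)
    (hC : ∀ c ∈ C, 1 ≤ c) (z : ℕ) :
    ∑ c ∈ C, g (z + c) = ∑ y ∈ Q, (if z < y ∧ y - z ∈ C then (1 : ℝ) else 0) * g y := by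
  have h1 : ∀ c ∈ C, g (z + c) = ∑ y ∈ Q, if y = z + c then g y else 0 := by
    intro c _
    rw [Finset.sum_ite_eq']
    by_cases h : z + c ∈ Q
    · rw [if_pos h]
    · rw [if_neg h, out _ h]
  rw [Finset.sum_congr rfl h1, Finset.sum_comm]
  refine Finset.sum_congr rfl (fun y _ => ?_)
  by_cases h : z < y ∧ y - z ∈ C
  · rw [if_pos h, one_mul, Finset.sum_eq_single_of_mem (y - z) h.2]
    · rw [if_pos (by omega)]
    · intro c _ hc
      rw [if_neg (by omega)]
  · rw [if_neg h, zero_mul]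
    apply Finset.sum_eq_zero
    intro c hc
    rw [if_neg]
    intro hy
    apply h
    have h2 := hC c hc
    refine ⟨by omega, ?_⟩
    have h3 : y - z = c := by omega
    rw [h3]
    exact hc

private theorem skqa_minus {Q C : Finset ℕ} {g : ℕ → ℝ} (out : ∀ z, z ∉ Q → g z = 0)
    (hQ1 : ∀ y ∈ Q, 1 ≤ y) (hC : ∀ c ∈ C, 1 ≤ c) (z : ℕ) :
    ∑ c ∈ C, (if c < z then g (z - c) else 0)
      = ∑ y ∈ Q, (if y < z ∧ z - y ∈ C then (1 : ℝ) else 0) * g y := by
  have h1 : ∀ c ∈ C, (if c < z then g (z - c) else 0) = ∑ y ∈ Q, if z = y + c then g y else 0 := by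
    intro c _
    by_cases hc : c < z
    · rw [if_pos hc]
      by_cases h : z - c ∈ Q
      · rw [Finset.sum_eq_single_of_mem (z - c) h]
        · rw [if_pos (by omega)]
        · intro y _ hy
          rw [if_neg (by omega)]
      · rw [out _ h]
        symm
        apply Finset.sum_eq_zero
        intro y hy
        rw [if_neg]
        intro hz
        apply h
        have h2 : z - c = y := by omega
        rw [h2]
        exact hy
    · rw [if_neg hc]
      symm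
      apply Finset.sum_eq_zero
      intro y hy
      have h2 := hQ1 y hy
      rw [if_neg (by omega)]
  rw [Finset.sum_congr rfl h1, Finset.sum_comm]
  refine Finset.sum_congr rfl (fun y _ => ?_)
  by_cases h : y < z ∧ z - y ∈ C
  · rw [if_pos h, one_mul, Finset.sum_eq_single_of_mem (z - y) h.2]
    · rw [if_pos (by omega)]
    · intro c _ hc
      rw [if_neg (by omega)]
  · rw [if_neg h, zero_mul]
    apply Finset.sum_eq_zero
    intro c hc
    rw [if_neg]
    intro hy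
    apply h
    have h2 := hC c hc
    refine ⟨by omega, ?_⟩
    have h3 : z - y = c := by omega
    rw [h3]
    exact hc

private theorem skqa_split (Q : Finset ℕ) (f : ℕ → ℝ) :
    ∑ y ∈ Q, f y = ∑ y ∈ Q.filter (fun y => y % 2 = 0), f y
      + ∑ y ∈ Q.filter (fun y => y % 2 = 1), f y := by
  rw [← Finset.sum_filter_add_sum_filter_not Q (fun y => y % 2 = 0)]
  congr 1
  refine Finset.sum_congr ?_ (fun _ _ => rfl)
  refine Finset.filter_congr (fun y _ => ?_)
  omega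

/-- pairs of the same parity do not contribute -/
private theorem skqa_same {N : ℕ} {E : Finset ℕ} (hE : ∀ c ∈ Icc 1 N \ E, c % 2 = 1) {y y' : ℕ}
    (h : y % 2 = y' % 2) : ¬ (y < y' ∧ y' - y ∈ Icc 1 N \ E) := by
  rintro ⟨h1, h2⟩
  have h3 := hE _ h2
  omega

/-- pairs of different parity -/
private theorem skqa_diff {N : ℕ} {E : Finset ℕ} {y y' : ℕ} (hy : y ∈ Icc 1 N) (hy' : y' ∈ Icc 1 N)
    (h : y % 2 ≠ y' % 2) :
    ((if y < y' ∧ y' - y ∈ Icc 1 N \ E then (1 : ℝ) else 0)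
      + if y' < y ∧ y - y' ∈ Icc 1 N \ E then (1 : ℝ) else 0)
      = if dd y y' ∉ E then 1 else 0 := by
  rw [mem_Icc] at hy hy'
  rcases lt_trichotomy y y' with hlt | heq | hgt
  · have h1 : ¬ (y' < y ∧ y - y' ∈ Icc 1 N \ E) := fun h => by omega
    have h2 : dd y y' = y' - y := by unfold dd; omega
    rw [if_neg h1, add_zero, h2]
    have h3 : y' - y ∈ Icc 1 N := by rw [mem_Icc]; omega
    by_cases h4 : y' - y ∈ E
    · rw [if_neg (fun h => (mem_sdiff.mp h.2).2 h4), if_neg (fun h => h h4)]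
    · rw [if_pos ⟨hlt, mem_sdiff.mpr ⟨h3, h4⟩⟩, if_pos h4]
  · exfalso
    apply h
    rw [heq]
  · have h1 : ¬ (y < y' ∧ y' - y ∈ Icc 1 N \ E) := fun h => by omega
    have h2 : dd y y' = y - y' := by unfold dd; omega
    rw [if_neg h1, zero_add, h2]
    have h3 : y - y' ∈ Icc 1 N := by rw [mem_Icc]; omega
    by_cases h4 : y - y' ∈ E
    · rw [if_neg (fun h => (mem_sdiff.mp h.2).2 h4), if_neg (fun h => h h4)]
    · rw [if_pos ⟨hgt, mem_sdiff.mpr ⟨h3, h4⟩⟩, if_pos h4]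

/-- the sum over the neighbours of `z` -/
private theorem skqa_nb {N : ℕ} {Q E : Finset ℕ} {g : ℕ → ℝ} (hQ : Q ⊆ Icc 1 N)
    (hE : ∀ c ∈ Icc 1 N \ E, c % 2 = 1) (out : ∀ z, z ∉ Q → g z = 0) {z : ℕ} (hz : z ∈ Q) {p : ℕ}
    (hp : p < 2) (hzp : z % 2 ≠ p) :
    ∑ c ∈ Icc 1 N \ E, (g (z + c) + if c < z then g (z - c) else 0)
      = ∑ y ∈ (Q.filter (fun y => y % 2 = p)).filter (fun y => dd z y ∉ E), g y := by
  have hC : ∀ c ∈ Icc 1 N \ E, 1 ≤ c := fun c hc => (mem_Icc.mp (mem_sdiff.mp hc).1).1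
  have hQ1 : ∀ y ∈ Q, 1 ≤ y := fun y hy => (mem_Icc.mp (hQ hy)).1
  rw [Finset.sum_add_distrib, skqa_plus out hC z, skqa_minus out hQ1 hC z,
    ← Finset.sum_add_distrib, Finset.filter_filter, Finset.sum_filter]
  refine Finset.sum_congr rfl (fun y hy => ?_)
  rw [← add_mul]
  by_cases h : y % 2 = p
  · rw [skqa_diff (hQ hz) (hQ hy) (by omega)]
    by_cases h2 : dd z y ∉ E
    · rw [if_pos h2, one_mul, if_pos ⟨h, h2⟩]
    · rw [if_neg h2, zero_mul, if_neg (fun h3 => h2 h3.2)]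
  · rw [if_neg (skqa_same hE (by omega)), if_neg (skqa_same hE (by omega)),
      if_neg (fun h3 => h h3.1), add_zero, zero_mul]

/-- the sum of all `Zc` -/
private theorem skqa_sumZ {N : ℕ} {Q E : Finset ℕ} {g : ℕ → ℝ} (hQ : Q ⊆ Icc 1 N)
    (hE : ∀ c ∈ Icc 1 N \ E, c % 2 = 1) (out : ∀ z, z ∉ Q → g z = 0) :
    ∑ c ∈ Icc 1 N \ E, Zc N g c
      = ∑ u ∈ Q.filter (fun y => y % 2 = 0), g u *
          ∑ v ∈ (Q.filter (fun y => y % 2 = 1)).filter (fun v => dd u v ∉ E), g v := by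
  have hC : ∀ c ∈ Icc 1 N \ E, 1 ≤ c := fun c hc => (mem_Icc.mp (mem_sdiff.mp hc).1).1
  have h1 : ∀ c ∈ Icc 1 N \ E, Zc N g c = ∑ y ∈ Q, g y * g (y + c) := by
    intro c _
    unfold Zc
    symm
    apply Finset.sum_subset
    · intro y hy
      have := mem_Icc.mp (hQ hy)
      rw [mem_range]
      omega
    · intro y _ hy
      rw [out y hy, zero_mul]
  rw [Finset.sum_congr rfl h1, Finset.sum_comm]
  have h2 : ∀ y ∈ Q, ∑ c ∈ Icc 1 N \ E, g y * g (y + c)
      = ∑ y' ∈ Q, (if y < y' ∧ y' - y ∈ Icc 1 N \ E then (1 : ℝ) else 0) * (g y * g y') := by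
    intro y _
    rw [← Finset.mul_sum, skqa_plus out hC y, Finset.mul_sum]
    refine Finset.sum_congr rfl (fun y' _ => ?_)
    ring
  rw [Finset.sum_congr rfl h2, skqa_split Q]
  have h3 : ∀ p : ℕ, ∀ y ∈ Q.filter (fun y => y % 2 = p),
      ∑ y' ∈ Q.filter (fun y => y % 2 = p),
        (if y < y' ∧ y' - y ∈ Icc 1 N \ E then (1 : ℝ) else 0) * (g y * g y') = 0 := by
    intro p y hy
    apply Finset.sum_eq_zero
    intro y' hy'
    rw [mem_filter] at hy hy'
    rw [if_neg (skqa_same hE (by omega)), zero_mul]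
  have h4 : ∀ y ∈ Q.filter (fun y => y % 2 = 0),
      ∑ y' ∈ Q, (if y < y' ∧ y' - y ∈ Icc 1 N \ E then (1 : ℝ) else 0) * (g y * g y')
      = ∑ y' ∈ Q.filter (fun y => y % 2 = 1),
        (if y < y' ∧ y' - y ∈ Icc 1 N \ E then (1 : ℝ) else 0) * (g y * g y') := by
    intro y hy
    rw [skqa_split Q, h3 0 y hy, zero_add]
  have h5 : ∀ y ∈ Q.filter (fun y => y % 2 = 1),
      ∑ y' ∈ Q, (if y < y' ∧ y' - y ∈ Icc 1 N \ E then (1 : ℝ) else 0) * (g y * g y')
      = ∑ y' ∈ Q.filter (fun y => y % 2 = 0),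
        (if y < y' ∧ y' - y ∈ Icc 1 N \ E then (1 : ℝ) else 0) * (g y * g y') := by
    intro y hy
    rw [skqa_split Q, h3 1 y hy, add_zero]
  rw [Finset.sum_congr rfl h4, Finset.sum_congr rfl h5,
    Finset.sum_comm (s := Q.filter (fun y => y % 2 = 1)), ← Finset.sum_add_distrib]
  refine Finset.sum_congr rfl (fun u hu => ?_)
  rw [← Finset.sum_add_distrib, Finset.mul_sum, Finset.sum_filter (fun v => dd u v ∉ E)]
  refine Finset.sum_congr rfl (fun v hv => ?_)
  rw [mem_filter] at hu hv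
  have h6 := skqa_diff (E := E) (hQ hu.1) (hQ hv.1) (by omega)
  have h7 : ((if u < v ∧ v - u ∈ Icc 1 N \ E then (1 : ℝ) else 0) * (g u * g v)
      + (if v < u ∧ u - v ∈ Icc 1 N \ E then (1 : ℝ) else 0) * (g v * g u))
      = ((if u < v ∧ v - u ∈ Icc 1 N \ E then (1 : ℝ) else 0)
      + (if v < u ∧ u - v ∈ Icc 1 N \ E then (1 : ℝ) else 0)) * (g u * g v) := by ring
  rw [h7, h6]
  by_cases h8 : dd u v ∉ E
  · rw [if_pos h8, if_pos h8, one_mul]
  · rw [if_neg h8, if_neg h8, zero_mul]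

private theorem skqa_half {N : ℕ} {Q : Finset ℕ} (hQ : Q ⊆ Icc 1 N) {p : ℕ} (hp : p < 2) :
    N / 2 ≤ (Q.filter (fun y => y % 2 = p)).card + (N - Q.card) := by
  have h1 : N / 2 ≤ ((Icc 1 N).filter (fun y => y % 2 = p)).card := by
    have h2 : (Icc 1 (N / 2)).card ≤ ((Icc 1 N).filter (fun y => y % 2 = p)).card := by
      apply Finset.card_le_card_of_injOn (fun k => 2 * k - p)
      · intro k hk
        rw [Finset.mem_coe, mem_Icc] at hk
        rw [Finset.mem_coe, mem_filter, mem_Icc]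
        refine ⟨⟨?_, ?_⟩, ?_⟩ <;> simp only <;> omega
      · intro a ha b hb hab
        rw [Finset.mem_coe, mem_Icc] at ha hb
        simp only at hab
        omega
    rw [Nat.card_Icc, Nat.add_sub_cancel] at h2
    exact h2
  have h3 : ((Icc 1 N).filter (fun y => y % 2 = p)) ⊆ Q.filter (fun y => y % 2 = p) ∪ (Icc 1 N \ Q) := by
    intro y hy
    rw [mem_filter] at hy
    rw [mem_union, mem_filter, mem_sdiff]
    by_cases h : y ∈ Q
    · exact Or.inl ⟨h, hy.2⟩
    · exact Or.inr ⟨hy.1, h⟩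
  have h4 := Finset.card_le_card h3
  have h5 := Finset.card_union_le (Q.filter (fun y => y % 2 = p)) (Icc 1 N \ Q)
  have h6 : (Icc 1 N \ Q).card = N - Q.card := by
    rw [Finset.card_sdiff_of_subset hQ, Nat.card_Icc, Nat.add_sub_cancel]
  omega

private theorem skqa_miss {N : ℕ} {Q E : Finset ℕ} (hQ : Q ⊆ Icc 1 N) {u p : ℕ} (hu : u ∈ Icc 1 N)
    (hp : u % 2 ≠ p) (hp2 : p < 2) :
    ((Q.filter (fun y => y % 2 = p)).filter (fun v => dd u v ∈ E)).card
      ≤ 2 * ((E ∩ Icc 1 N).filter (fun c => c % 2 = 1)).card := by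
  set F := (E ∩ Icc 1 N).filter (fun c => c % 2 = 1) with hF
  have h1 : (Q.filter (fun y => y % 2 = p)).filter (fun v => dd u v ∈ E)
      ⊆ F.image (fun c => u + c) ∪ F.image (fun c => u - c) := by
    intro v hv
    rw [mem_filter, mem_filter] at hv
    obtain ⟨⟨hvQ, hvp⟩, hvE⟩ := hv
    have h2 := mem_Icc.mp (hQ hvQ)
    rw [mem_Icc] at hu
    have h3 : dd u v ∈ F := by
      rw [hF, mem_filter, mem_inter, mem_Icc]
      refine ⟨⟨hvE, ?_, ?_⟩, ?_⟩ <;> unfold dd <;> omega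
    rw [mem_union, mem_image, mem_image]
    rcases le_total u v with h | h
    · left
      exact ⟨dd u v, h3, by unfold dd; omega⟩
    · right
      exact ⟨dd u v, h3, by unfold dd; omega⟩
  have h2 := Finset.card_le_card h1
  have h3 := Finset.card_union_le (F.image (fun c => u + c)) (F.image (fun c => u - c))
  have h4 : (F.image (fun c => u + c)).card ≤ F.card := Finset.card_image_le
  have h5 : (F.image (fun c => u - c)).card ≤ F.card := Finset.card_image_le
  omega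

theorem skQ {τ : ℝ} (hτ : 0 < τ) {N : ℕ} (hN : 10000 ≤ N) {Q E : Finset ℕ} (hQ : Q ⊆ Icc 1 N)
    (hE : ∀ c ∈ Icc 1 N \ E, c % 2 = 1) (hQc : 200 * (N - Q.card) ≤ N)
    (hEc : 200 * ((E ∩ Icc 1 N).filter (fun c => c % 2 = 1)).card ≤ N) :
    ∃ g : ℕ → ℝ, SkG N Q E τ g := by
  have hU0 := skqa_half hQ (p := 0) (by norm_num)
  have hV0 := skqa_half hQ (p := 1) (by norm_num)
  have hmU : ∀ u ∈ Q.filter (fun y => y % 2 = 0),
      32 * ((Q.filter (fun y => y % 2 = 1)).filter (fun v => ¬ (dd u v ∉ E))).card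
        ≤ (Q.filter (fun y => y % 2 = 1)).card := by
    intro u hu
    rw [mem_filter] at hu
    have h1 := skqa_miss (E := E) hQ (p := 1) (hQ hu.1) (by omega) (by norm_num)
    simp only [not_not]
    omega
  have hmV : ∀ v ∈ Q.filter (fun y => y % 2 = 1),
      32 * ((Q.filter (fun y => y % 2 = 0)).filter (fun u => ¬ (dd u v ∉ E))).card
        ≤ (Q.filter (fun y => y % 2 = 0)).card := by
    intro v hv
    rw [mem_filter] at hv
    have h1 := skqa_miss (E := E) hQ (p := 0) (hQ hv.1) (by omega) (by norm_num)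
    simp only [not_not]
    simp only [dd_comm v] at h1
    omega
  have hUne : (Q.filter (fun y => y % 2 = 0)).Nonempty := by
    rw [← Finset.card_pos]
    omega
  have hVne : (Q.filter (fun y => y % 2 = 1)).Nonempty := by
    rw [← Finset.card_pos]
    omega
  obtain ⟨g₁, h₁, hg₁, hh₁, hbU, hbV⟩ := sinkhorn (Q.filter (fun y => y % 2 = 0))
    (Q.filter (fun y => y % 2 = 1)) (fun u v => dd u v ∉ E) τ hτ hUne hVne hmU hmV
  set g : ℕ → ℝ := fun z => if z ∈ Q then (if z % 2 = 0 then g₁ z else h₁ z) else 0 with hg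
  have hgU : ∀ u ∈ Q.filter (fun y => y % 2 = 0), g u = g₁ u := by
    intro u hu
    rw [mem_filter] at hu
    rw [hg]
    simp only
    rw [if_pos hu.1, if_pos hu.2]
  have hgV : ∀ v ∈ Q.filter (fun y => y % 2 = 1), g v = h₁ v := by
    intro v hv
    rw [mem_filter] at hv
    rw [hg]
    simp only
    rw [if_pos hv.1, if_neg (by omega)]
  have hout : ∀ z, z ∉ Q → g z = 0 := by
    intro z hz
    rw [hg]
    simp only
    rw [if_neg hz]
  have hin : ∀ z ∈ Q, 1 ≤ g z ∧ g z ≤ 2 := by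
    intro z hz
    by_cases h : z % 2 = 0
    · have h1 : z ∈ Q.filter (fun y => y % 2 = 0) := mem_filter.mpr ⟨hz, h⟩
      rw [hgU z h1]
      exact hg₁ z h1
    · have h1 : z ∈ Q.filter (fun y => y % 2 = 1) := mem_filter.mpr ⟨hz, by omega⟩
      rw [hgV z h1]
      exact hh₁ z h1
  -- the total
  have htot : ∑ c ∈ Icc 1 N \ E, Zc N g c = ∑ u ∈ Q.filter (fun y => y % 2 = 0), g₁ u *
      ∑ v ∈ (Q.filter (fun y => y % 2 = 1)).filter (fun v => dd u v ∉ E), h₁ v := by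
    rw [skqa_sumZ hQ hE hout]
    refine Finset.sum_congr rfl (fun u hu => ?_)
    rw [hgU u hu]
    congr 1
    refine Finset.sum_congr rfl (fun v hv => ?_)
    exact hgV v (mem_filter.mp hv).1
  refine ⟨g, ⟨?_, ?_, fun z hz => (hin z hz).1, hout, ?_⟩⟩
  · intro z
    by_cases hz : z ∈ Q
    · linarith [(hin z hz).1]
    · rw [hout z hz]
  · intro z
    by_cases hz : z ∈ Q
    · exact (hin z hz).2
    · rw [hout z hz]
      norm_num
  · intro z hz
    rw [← Finset.mul_sum, htot]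
    by_cases h : z % 2 = 0
    · have h1 : z ∈ Q.filter (fun y => y % 2 = 0) := mem_filter.mpr ⟨hz, h⟩
      rw [skqa_nb hQ hE hout hz (p := 1) (by norm_num) (by omega), h, hgU z h1]
      have h2 : ∑ y ∈ (Q.filter (fun y => y % 2 = 1)).filter (fun y => dd z y ∉ E), g y
          = ∑ y ∈ (Q.filter (fun y => y % 2 = 1)).filter (fun y => dd z y ∉ E), h₁ y :=
        Finset.sum_congr rfl (fun v hv => hgV v (mem_filter.mp hv).1)
      rw [h2]
      exact hbU z h1
    · have h0 : z % 2 = 1 := by omega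
      have h1 : z ∈ Q.filter (fun y => y % 2 = 1) := mem_filter.mpr ⟨hz, h0⟩
      rw [skqa_nb hQ hE hout hz (p := 0) (by norm_num) (by omega), h0, hgV z h1]
      have h2 : ∑ y ∈ (Q.filter (fun y => y % 2 = 0)).filter (fun y => dd z y ∉ E), g y
          = ∑ y ∈ (Q.filter (fun y => y % 2 = 0)).filter (fun y => dd y z ∉ E), g₁ y := by
        have h3 : (Q.filter (fun y => y % 2 = 0)).filter (fun y => dd z y ∉ E)
            = (Q.filter (fun y => y % 2 = 0)).filter (fun y => dd y z ∉ E) := by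
          refine Finset.filter_congr (fun y _ => ?_)
          rw [dd_comm]
        rw [h3]
        exact Finset.sum_congr rfl (fun v hv => hgU v (mem_filter.mp hv).1)
      rw [h2]
      exact hbV z h1

private theorem skqb_Zc_nn {N : ℕ} {g : ℕ → ℝ} (nn : ∀ z, 0 ≤ g z) (c : ℕ) : 0 ≤ Zc N g c :=
  Finset.sum_nonneg (fun y _ => mul_nonneg (nn y) (nn (y + c)))

theorem Zc_ge {N : ℕ} {Q : Finset ℕ} (hQ : Q ⊆ Icc 1 N) {g : ℕ → ℝ} (nn : ∀ z, 0 ≤ g z)
    (lo : ∀ z ∈ Q, 1 ≤ g z) (c : ℕ) :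
    (N : ℝ) - c - 2 * ((N - Q.card : ℕ) : ℝ) ≤ Zc N g c := by
  classical
  have h1 : (((range (N + 1)).filter (fun y => y ∈ Q ∧ y + c ∈ Q)).card : ℝ) ≤ Zc N g c := by
    unfold Zc
    rw [Finset.card_filter, Nat.cast_sum]
    refine Finset.sum_le_sum (fun y _ => ?_)
    by_cases h : y ∈ Q ∧ y + c ∈ Q
    · rw [if_pos h]
      have h2 := mul_le_mul (lo y h.1) (lo (y + c) h.2) zero_le_one (nn y)
      simpa using h2
    · rw [if_neg h]
      simpa using mul_nonneg (nn y) (nn (y + c))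
  have hcard : (Icc 1 N \ Q).card = N - Q.card := by
    rw [Finset.card_sdiff_of_subset hQ]
    simp
  have h3 : N - c ≤ ((range (N + 1)).filter (fun y => y ∈ Q ∧ y + c ∈ Q)).card + 2 * (N - Q.card) := by
    have hsub : Icc 1 (N - c) ⊆ ((range (N + 1)).filter (fun y => y ∈ Q ∧ y + c ∈ Q)) ∪
        ((Icc 1 N \ Q) ∪ ((Icc 1 N \ Q).image (fun y => y - c))) := by
      intro y hy
      rw [Finset.mem_Icc] at hy
      simp only [Finset.mem_union, Finset.mem_filter, Finset.mem_range, Finset.mem_sdiff, Finset.mem_Icc,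
        Finset.mem_image]
      by_cases h4 : y ∈ Q
      · by_cases h5 : y + c ∈ Q
        · left
          exact ⟨by omega, h4, h5⟩
        · right; right
          exact ⟨y + c, ⟨⟨by omega, by omega⟩, h5⟩, by omega⟩
      · right; left
        exact ⟨⟨by omega, by omega⟩, h4⟩
    have h4 := Finset.card_le_card hsub
    have h5 := Finset.card_union_le ((range (N + 1)).filter (fun y => y ∈ Q ∧ y + c ∈ Q))
      ((Icc 1 N \ Q) ∪ ((Icc 1 N \ Q).image (fun y => y - c)))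
    have h6 := Finset.card_union_le (Icc 1 N \ Q) ((Icc 1 N \ Q).image (fun y => y - c))
    have h7 := Finset.card_image_le (s := Icc 1 N \ Q) (f := fun y => y - c)
    rw [Nat.card_Icc] at h4
    omega
  have h8 : (((N - c : ℕ)) : ℝ) ≤ (((range (N + 1)).filter (fun y => y ∈ Q ∧ y + c ∈ Q)).card : ℝ) +
      2 * ((N - Q.card : ℕ) : ℝ) := by
    exact_mod_cast h3
  have h9 : (N : ℝ) - c ≤ ((N - c : ℕ) : ℝ) := by
    have : (N : ℝ) ≤ ((N - c : ℕ) : ℝ) + (c : ℝ) := by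
      exact_mod_cast (by omega : N ≤ (N - c) + c)
    linarith
  linarith

theorem Zc_le {N : ℕ} {g : ℕ → ℝ} (nn : ∀ z, 0 ≤ g z) (hi : ∀ z, g z ≤ 2) (h0 : g 0 = 0) (c : ℕ) :
    Zc N g c ≤ 4 * N := by
  unfold Zc
  rw [Finset.sum_range_succ', h0, zero_mul, add_zero]
  have h1 : ∀ y ∈ range N, g (y + 1) * g (y + 1 + c) ≤ 4 := by
    intro y _
    have := mul_le_mul (hi (y + 1)) (hi (y + 1 + c)) (nn _) (by norm_num : (0 : ℝ) ≤ 2)
    linarith
  refine (Finset.sum_le_card_nsmul _ _ _ h1).trans ?_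
  rw [Finset.card_range, nsmul_eq_mul]
  exact le_of_eq (mul_comm _ _)

theorem sumZ_ge {τ : ℝ} {N : ℕ} (hN : 10000 ≤ N) {Q E : Finset ℕ} (hQ : Q ⊆ Icc 1 N)
    (hE : ∀ c ∈ Icc 1 N \ E, c % 2 = 1) (hQc : 200 * (N - Q.card) ≤ N)
    (hEc : 200 * ((E ∩ Icc 1 N).filter (fun c => c % 2 = 1)).card ≤ N) {g : ℕ → ℝ}
    (hg : SkG N Q E τ g) : (N : ℝ) ^ 2 / 8 ≤ ∑ c ∈ Icc 1 N \ E, Zc N g c := by
  have hU0 := skqa_half hQ (p := 0) (by norm_num)
  have hV0 := skqa_half hQ (p := 1) (by norm_num)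
  set U := Q.filter (fun y => y % 2 = 0) with hU
  set V := Q.filter (fun y => y % 2 = 1) with hV
  have hUc : 49 * N ≤ 100 * U.card := by omega
  have hVc : 49 * N ≤ 100 * V.card := by omega
  rw [skqa_sumZ hQ hE hg.out]
  have h1 : ∀ u ∈ U, (N : ℝ) * (47 / 100) ≤ g u * ∑ v ∈ V.filter (fun v => dd u v ∉ E), g v := by
    intro u hu
    have huQ : u ∈ Q := (mem_filter.mp hu).1
    have hu2 : u % 2 = 0 := (mem_filter.mp hu).2
    have h2 := skqa_miss (E := E) hQ (p := 1) (hQ huQ) (by omega) (by norm_num)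
    rw [← hV] at h2
    have h3 := Finset.card_filter_add_card_filter_not (s := V) (fun v => dd u v ∈ E)
    have h4 : 47 * N ≤ 100 * (V.filter (fun v => dd u v ∉ E)).card := by omega
    have h5 : ((V.filter (fun v => dd u v ∉ E)).card : ℝ)
        ≤ ∑ v ∈ V.filter (fun v => dd u v ∉ E), g v := by
      rw [← nsmul_one, ← Finset.sum_const]
      refine Finset.sum_le_sum (fun v hv => ?_)
      exact hg.lo v (mem_filter.mp (mem_filter.mp hv).1).1
    have h6 : (47 : ℝ) * N ≤ 100 * ((V.filter (fun v => dd u v ∉ E)).card : ℝ) := by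
      exact_mod_cast h4
    have h7 := hg.lo u huQ
    nlinarith [Nat.cast_nonneg (α := ℝ) N]
  have h8 : ∑ u ∈ U, (N : ℝ) * (47 / 100)
      ≤ ∑ u ∈ U, g u * ∑ v ∈ V.filter (fun v => dd u v ∉ E), g v := Finset.sum_le_sum h1
  rw [Finset.sum_const, nsmul_eq_mul] at h8
  refine le_trans ?_ h8
  have h9 : (49 : ℝ) * N ≤ 100 * (U.card : ℝ) := by exact_mod_cast hUc
  nlinarith [Nat.cast_nonneg (α := ℝ) N]

private theorem skqb_num_nn {g : ℕ → ℝ} (nn : ∀ z, 0 ≤ g z) (z c : ℕ) :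
    0 ≤ g z * (g (z + c) + if c < z then g (z - c) else 0) := by
  refine mul_nonneg (nn z) (add_nonneg (nn _) ?_)
  split_ifs
  · exact nn _
  · exact le_rfl

theorem kapq_nn {N : ℕ} {g : ℕ → ℝ} (nn : ∀ z, 0 ≤ g z) (z c : ℕ) : 0 ≤ kap N g z c :=
  div_nonneg (skqb_num_nn nn z c) (skqb_Zc_nn nn c)

theorem kapq_le {N : ℕ} {Q : Finset ℕ} (hQ : Q ⊆ Icc 1 N) {g : ℕ → ℝ} (nn : ∀ z, 0 ≤ g z)
    (hi : ∀ z, g z ≤ 2) (lo : ∀ z ∈ Q, 1 ≤ g z) (z c : ℕ)
    (hc : (N : ℝ) / 300 + 2 * ((N - Q.card : ℕ) : ℝ) + c ≤ N) (hN : 1 ≤ N) :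
    kap N g z c ≤ 2400 / N ∧ (N : ℝ) / 300 ≤ Zc N g c := by
  have hN0 : (0 : ℝ) < N := by exact_mod_cast hN
  have hZ : (N : ℝ) / 300 ≤ Zc N g c := by
    have := Zc_ge hQ nn lo c
    linarith
  refine ⟨?_, hZ⟩
  have hZ0 : 0 < Zc N g c := lt_of_lt_of_le (by positivity) hZ
  have hnum : g z * (g (z + c) + if c < z then g (z - c) else 0) ≤ 8 := by
    have h1 : g (z + c) + (if c < z then g (z - c) else 0) ≤ 4 := by
      split_ifs
      · linarith [hi (z + c), hi (z - c)]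
      · linarith [hi (z + c)]
    have h2 : 0 ≤ g (z + c) + (if c < z then g (z - c) else 0) := by
      refine add_nonneg (nn _) ?_
      split_ifs
      · exact nn _
      · exact le_rfl
    have := mul_le_mul (hi z) h1 h2 (by norm_num : (0 : ℝ) ≤ 2)
    linarith
  unfold kap
  calc g z * (g (z + c) + if c < z then g (z - c) else 0) / Zc N g c ≤ 8 / Zc N g c :=
        div_le_div_of_nonneg_right hnum hZ0.le
    _ ≤ 8 / ((N : ℝ) / 300) := div_le_div_of_nonneg_left (by norm_num) (by positivity) hZ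
    _ = 2400 / N := by
        field_simp
        norm_num

/-- the mean of `kap` if the label `c ∉ E` is chosen with probability `Zc N g c / ∑ Zc` -/
theorem kapq_mean {τ : ℝ} {N : ℕ} {Q E : Finset ℕ} {g : ℕ → ℝ} (hg : SkG N Q E τ g)
    {z : ℕ} (hz : z ∈ Q) :
    (∑ c ∈ Icc 1 N \ E, Zc N g c * kap N g z c) * ((Q.filter (fun y => y % 2 = z % 2)).card : ℝ) ≤
      (1 + τ) * ∑ c ∈ Icc 1 N \ E, Zc N g c := by
  have h1 : ∑ c ∈ Icc 1 N \ E, Zc N g c * kap N g z c ≤
      ∑ c ∈ Icc 1 N \ E, g z * (g (z + c) + if c < z then g (z - c) else 0) := by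
    refine Finset.sum_le_sum (fun c _ => ?_)
    by_cases h : Zc N g c = 0
    · rw [h, zero_mul]
      exact skqb_num_nn hg.nn z c
    · unfold kap
      rw [mul_div_cancel₀ _ h]
  exact (mul_le_mul_of_nonneg_right h1 (Nat.cast_nonneg _)).trans (hg.bal z hz)

end SSB
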