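import Pool.Agent.Lib.MP_8a819d_co.LH.QRT
import Pool.Agent.Lib.MP_8a819d_co.LH.SkQ

/-!
# MP_8a819d_co, leaf-heavy trees: numbering of the main inner vertices

JOB LH_QRM (all of this file).

`W₀` is numbered, `X` has to be numbered, `F` = all the labels which are not available for the leaves (absorber, reserve, labels of `W₀`), `Q = [1, N] \ F`; `l v` = number of leaves at `v ∈ X`. Every `v ∈ X` gets an
odd label `f v ≤ (249/250) N` and weights `g v` on `Q` such that the expected number of uses of every `z ∈ Q` by the leaves at `X` is almost the average.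

PROOF. For a set `Nb` of at most two labels let `Ex Nb = {c ≤ N : c even, or 249 N < 250 c, or c ∈ F, or dd c a ∈ F for some a ∈ Nb}`. The number of odd elements of `Ex Nb` in `[1, N]` is at most `(N/500 + 1) + N/4000 + 2 * 2 * N/4000 ≤ N/200`, so `skQ` (with
`τ/8`) gives `gg Nb` with `SkG N Q (Ex Nb) (τ/8) (gg Nb)` (choice). For `v ∈ X` and a numbering `f` let `Nb v f = (bnb n par (Wt W₀ X v) v).image f` (at most two elements, `bnb_two`), `E = Ex (Nb v f)`, `g = gg (Nb v f)`.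
`L v f = {c ∈ Icc 1 N \ E : okc n par (Wt W₀ X v) f (F ∪ vls par W₀ X v f) v c}`, `p v f c = Zc N g c/∑ c' ∈ L v f, Zc N g c'`. For `c ∈ Icc 1 N \ E` which is not in `L v f`, `okc` fails for `Us = vls par W₀ X v f` (`c ∉ F`, `dd c (f b) ∉ F`), so there are at most
`5 (2 |W₀ ∪ X|) + 3 ≤ 10 δ N + 3 ≤ 11 δ N` such `c` (`okc_card`), and `∑ c ∈ L v f, Zc ≥ ∑ c ∈ Icc 1 N \ E, Zc - 44 δ N^2 ≥ (1 - 352 δ) ∑ c ∈ Icc 1 N \ E, Zc` (`Zc_le`, `sumZ_ge`). Tests `z ∈ Q`: `ξ z v f c = l v * kap N g z c`; `0 ≤ ξ ≤ l v * 2400/N ≤ 2400 N^(-1/25) =: b` (`kapq_le`, as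
`c ≤ (249/250) N`, `N - |Q| = |F| ≤ N/4000`). Mean at most `l v * (∑ c ∈ Icc 1 N \ E, Zc * kap)/((1 - 352 δ) ∑ Zc) ≤ l v (1 + τ/8)/((1 - 352 δ) |Q_z|) =: e z v`, where `Q_z = Q.filter (· % 2 = z % 2)`, `|Q_z| ≥ 0.49 N` (`kapq_mean`). Second moment `≤ b e z v =: V z v`; `∑ v, e z v ≤
(1 + τ/4) (∑ l v)/|Q_z|` (small `δ`), `V₀ = 10 b` (`∑ l v ≤ N`; we may assume `τ ≤ 1`). `qrT` with `τ' = N^(3/200)/2400` (`τ' b ≤ 1`): the last term is `(log N + τ'² V₀)/τ' → 0`, so at most `τ/2` for large `N`; `|Q_z| ≤ N`. `hloc`: `Nb v f`, `vls` depend only on the labels of `Wt W₀ X v` (`bnb n par W v ⊆ W`,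
`val_items`). Finally `g v = gg (Nb v f)`; `f v ∈ L v f` gives `Ok (f v)` with `Ok c = (c % 2 = 1 ∧ 250 c ≤ 249 N)`.
-/

set_option autoImplicit false

namespace SSB

open Finset

/-- hypotheses for the numbering of the main inner vertices -/
structure HypM (δ : ℝ) (n N : ℕ) (par : ℕ → ℕ) (W₀ X F : Finset ℕ) (f₀ l : ℕ → ℕ) : Prop where
  isP : IsPar n par
  Wsub : W₀ ⊆ range n
  Xsub : X ⊆ range n
  WX : Disjoint W₀ X
  inj : Set.InjOn (val par f₀) (items par W₀)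
  rng : ∀ x ∈ items par W₀, 1 ≤ val par f₀ x ∧ val par f₀ x ≤ N
  ch : ∀ v ∈ X, ((chs n par v).filter (· ∈ W₀)).card ≤ 1
  c1 : ((W₀ ∪ X).card : ℝ) ≤ δ * N
  Fsub : F ⊆ Icc 1 N
  Fcard : 4000 * F.card ≤ N
  l_le : ∀ v ∈ X, (l v : ℝ) ≤ (N : ℝ) ^ (24 / 25 : ℝ)
  l_sum : ∑ v ∈ X, l v ≤ N

def OkM (N c : ℕ) : Prop := c % 2 = 1 ∧ 250 * c ≤ 249 * N

/-- weights on the positions `Q` -/
structure Wgt (Q : Finset ℕ) (g : ℕ → ℝ) : Prop where
  nn : ∀ z, 0 ≤ g z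
  hi : ∀ z, g z ≤ 2
  lo : ∀ z ∈ Q, 1 ≤ g z
  out : ∀ z, z ∉ Q → g z = 0

/-- the labels which a host with numbered neighbours with the labels `Nb` cannot get -/
def qrmEx (N : ℕ) (F Nb : Finset ℕ) : Finset ℕ :=
  (Icc 1 N).filter (fun c => c % 2 = 0 ∨ 249 * N < 250 * c ∨ c ∈ F ∨ ∃ a ∈ Nb, dd c a ∈ F)

theorem qrm_par (N r : ℕ) (hr : r < 2) :
    N / 2 ≤ ((Icc 1 N).filter (fun y => y % 2 = r)).card := by
  have h1 : ((range (N / 2)).image (fun k => if r = 0 then 2 * k + 2 else 2 * k + 1)) ⊆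
      (Icc 1 N).filter (fun y => y % 2 = r) := by
    intro y hy
    obtain ⟨k, hk, rfl⟩ := mem_image.1 hy
    rw [mem_range] at hk
    rw [mem_filter, mem_Icc]
    split_ifs with h <;> omega
  have h2 : ((range (N / 2)).image (fun k => if r = 0 then 2 * k + 2 else 2 * k + 1)).card = N / 2 := by
    rw [card_image_of_injOn, card_range]
    intro a _ b _ h
    simp only at h
    split_ifs at h <;> omega
  rw [← h2]
  exact card_le_card h1

theorem qrm_dd (F I : Finset ℕ) (a : ℕ) : (I.filter (fun c => dd c a ∈ F)).card ≤ 2 * F.card := by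
  have h1 : I.filter (fun c => dd c a ∈ F) ⊆ F.image (fun y => a + y) ∪ F.image (fun y => a - y) := by
    intro c hc
    rw [mem_filter] at hc
    rw [mem_union, mem_image, mem_image]
    rcases le_total a c with h | h
    · exact Or.inl ⟨dd c a, hc.2, by unfold dd; omega⟩
    · exact Or.inr ⟨dd c a, hc.2, by unfold dd; omega⟩
  calc _ ≤ _ := card_le_card h1
    _ ≤ (F.image (fun y => a + y)).card + (F.image (fun y => a - y)).card := card_union_le _ _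
    _ ≤ F.card + F.card := add_le_add card_image_le card_image_le
    _ = 2 * F.card := by ring

theorem qrm_hi (N : ℕ) :
    500 * ((Icc 1 N).filter (fun c => c % 2 = 1 ∧ 249 * N < 250 * c)).card ≤ N + 1250 := by
  have h1 : ((Icc 1 N).filter (fun c => c % 2 = 1 ∧ 249 * N < 250 * c)).card ≤
      (Icc ((249 * N - 250) / 500) (N / 2)).card := by
    apply card_le_card_of_injOn (fun c => c / 2)
    · intro c hc
      have hc' := mem_filter.1 (mem_coe.1 hc)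
      have hc2 := mem_Icc.1 hc'.1
      have := hc'.2
      have h2 : (249 * N - 250) / 500 ≤ c / 2 ∧ c / 2 ≤ N / 2 := by omega
      exact mem_coe.2 (mem_Icc.2 h2)
    · intro c hc c' hc' h
      have h1 := (mem_filter.1 (mem_coe.1 hc)).2.1
      have h2 := (mem_filter.1 (mem_coe.1 hc')).2.1
      simp only at h
      omega
  rw [Nat.card_Icc] at h1
  omega

theorem qrm_Ex {N : ℕ} (hN : 10000 ≤ N) {F Nb : Finset ℕ} (hF : 4000 * F.card ≤ N)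
    (hNb : Nb.card ≤ 2) :
    200 * ((qrmEx N F Nb ∩ Icc 1 N).filter (fun c => c % 2 = 1)).card ≤ N := by
  have h1 : (qrmEx N F Nb ∩ Icc 1 N).filter (fun c => c % 2 = 1) ⊆
      (Icc 1 N).filter (fun c => c % 2 = 1 ∧ 249 * N < 250 * c) ∪
        (F ∪ Nb.biUnion (fun a => (Icc 1 N).filter (fun c => dd c a ∈ F))) := by
    intro c hc
    simp only [qrmEx, mem_filter, mem_inter] at hc
    simp only [mem_union, mem_filter, mem_biUnion]
    obtain ⟨⟨⟨h2, h3⟩, _⟩, h4⟩ := hc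
    rcases h3 with h3 | h3 | h3 | ⟨a, ha, h3⟩
    · omega
    · exact Or.inl ⟨h2, h4, h3⟩
    · exact Or.inr (Or.inl h3)
    · exact Or.inr (Or.inr ⟨a, ha, h2, h3⟩)
  have h2 := card_le_card h1
  have h3 := card_union_le ((Icc 1 N).filter (fun c => c % 2 = 1 ∧ 249 * N < 250 * c))
    (F ∪ Nb.biUnion (fun a => (Icc 1 N).filter (fun c => dd c a ∈ F)))
  have h4 := card_union_le F (Nb.biUnion (fun a => (Icc 1 N).filter (fun c => dd c a ∈ F)))
  have h5 : (Nb.biUnion (fun a => (Icc 1 N).filter (fun c => dd c a ∈ F))).card ≤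
      Nb.card * (2 * F.card) := card_biUnion_le_card_mul _ _ _ (fun a _ => qrm_dd F _ a)
  have h6 := qrm_hi N
  have h7 : Nb.card * (2 * F.card) ≤ 2 * (2 * F.card) := Nat.mul_le_mul_right _ hNb
  omega

theorem qrm_mem {N : ℕ} {F Nb : Finset ℕ} {c : ℕ} (hc : c ∈ Icc 1 N \ qrmEx N F Nb) :
    (1 ≤ c ∧ c ≤ N) ∧ c % 2 = 1 ∧ 250 * c ≤ 249 * N ∧ c ∉ F ∧ ∀ a ∈ Nb, dd c a ∉ F := by
  rw [mem_sdiff, qrmEx, mem_filter] at hc
  obtain ⟨h1, h2⟩ := hc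
  have h3 : ¬ (c % 2 = 0 ∨ 249 * N < 250 * c ∨ c ∈ F ∨ ∃ a ∈ Nb, dd c a ∈ F) := fun h => h2 ⟨h1, h⟩
  push Not at h3
  refine ⟨mem_Icc.1 h1, by omega, h3.2.1, h3.2.2.1, h3.2.2.2⟩

theorem qrm_Zc_nn {N : ℕ} {g : ℕ → ℝ} (nn : ∀ z, 0 ≤ g z) (c : ℕ) : 0 ≤ Zc N g c :=
  sum_nonneg (fun y _ => mul_nonneg (nn y) (nn (y + c)))

theorem qrm_sumL {τ δ : ℝ} (hδ : 0 ≤ δ) {N : ℕ} (hN : 10000 ≤ N) {Q E L : Finset ℕ}
    (hQ : Q ⊆ Icc 1 N)
    (hE : ∀ c ∈ Icc 1 N \ E, c % 2 = 1) (hQc : 200 * (N - Q.card) ≤ N)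
    (hEc : 200 * ((E ∩ Icc 1 N).filter (fun c => c % 2 = 1)).card ≤ N) {g : ℕ → ℝ}
    (hg : SkG N Q E τ g) (hL : L ⊆ Icc 1 N \ E)
    (hLc : (((Icc 1 N \ E) \ L).card : ℝ) ≤ 11 * δ * N) :
    (1 - 352 * δ) * ∑ c ∈ Icc 1 N \ E, Zc N g c ≤ ∑ c ∈ L, Zc N g c := by
  have h0 : g 0 = 0 := hg.out 0 (fun h => by have := mem_Icc.1 (hQ h); omega)
  have h1 : ∑ c ∈ (Icc 1 N \ E) \ L, Zc N g c + ∑ c ∈ L, Zc N g c = ∑ c ∈ Icc 1 N \ E, Zc N g c :=
    sum_sdiff hL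
  have h2 : ∑ c ∈ (Icc 1 N \ E) \ L, Zc N g c ≤ (((Icc 1 N \ E) \ L).card : ℝ) * (4 * N) := by
    have := sum_le_card_nsmul ((Icc 1 N \ E) \ L) (fun c => Zc N g c) (4 * N)
      (fun c _ => Zc_le hg.nn hg.hi h0 c)
    rwa [nsmul_eq_mul] at this
  have h3 := sumZ_ge hN hQ hE hQc hEc hg
  have hN0 : (0 : ℝ) ≤ N := Nat.cast_nonneg N
  have h4 : (((Icc 1 N \ E) \ L).card : ℝ) * (4 * N) ≤ 11 * δ * N * (4 * N) :=
    mul_le_mul_of_nonneg_right hLc (by positivity)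
  have h5 : 352 * δ * ((N : ℝ) ^ 2 / 8) ≤ 352 * δ * ∑ c ∈ Icc 1 N \ E, Zc N g c :=
    mul_le_mul_of_nonneg_left h3 (by positivity)
  nlinarith

theorem qrm_mean {τ δ : ℝ} (hτ : 0 ≤ τ) (hδ : 352 * δ < 1) {N : ℕ} {Q E L : Finset ℕ} {g : ℕ → ℝ}
    (hg : SkG N Q E τ g) (hL : L ⊆ Icc 1 N \ E)
    (hS : (1 - 352 * δ) * ∑ c ∈ Icc 1 N \ E, Zc N g c ≤ ∑ c ∈ L, Zc N g c)
    (hpos : 0 < ∑ c ∈ L, Zc N g c) {z : ℕ} (hz : z ∈ Q) {lv : ℝ} (hl : 0 ≤ lv) :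
    ∑ c ∈ L, Zc N g c / (∑ c' ∈ L, Zc N g c') * (lv * kap N g z c) ≤
      lv * ((1 + τ) / ((1 - 352 * δ) * ((Q.filter (fun y => y % 2 = z % 2)).card : ℝ))) := by
  have hq : (0 : ℝ) < ((Q.filter (fun y => y % 2 = z % 2)).card : ℝ) := by
    have : 0 < (Q.filter (fun y => y % 2 = z % 2)).card := card_pos.2 ⟨z, mem_filter.2 ⟨hz, rfl⟩⟩
    exact_mod_cast this
  have hδ' : 0 < 1 - 352 * δ := by linarith
  have h1 : ∑ c ∈ L, Zc N g c / (∑ c' ∈ L, Zc N g c') * (lv * kap N g z c) =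
      lv * ((∑ c ∈ L, Zc N g c * kap N g z c) / ∑ c' ∈ L, Zc N g c') := by
    rw [sum_div, mul_sum]
    apply sum_congr rfl
    intro c _
    ring
  rw [h1]
  apply mul_le_mul_of_nonneg_left _ hl
  rw [div_le_div_iff₀ hpos (mul_pos hδ' hq)]
  have h2 : ∑ c ∈ L, Zc N g c * kap N g z c ≤ ∑ c ∈ Icc 1 N \ E, Zc N g c * kap N g z c :=
    sum_le_sum_of_subset_of_nonneg hL
      (fun c _ _ => mul_nonneg (qrm_Zc_nn hg.nn c) (kapq_nn hg.nn z c))
  have h3 := kapq_mean hg hz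
  calc (∑ c ∈ L, Zc N g c * kap N g z c) *
        ((1 - 352 * δ) * ((Q.filter (fun y => y % 2 = z % 2)).card : ℝ))
      ≤ (∑ c ∈ Icc 1 N \ E, Zc N g c * kap N g z c) *
        ((1 - 352 * δ) * ((Q.filter (fun y => y % 2 = z % 2)).card : ℝ)) :=
        mul_le_mul_of_nonneg_right h2 (mul_pos hδ' hq).le
    _ = (1 - 352 * δ) * ((∑ c ∈ Icc 1 N \ E, Zc N g c * kap N g z c) *
        ((Q.filter (fun y => y % 2 = z % 2)).card : ℝ)) := by ring
    _ ≤ (1 - 352 * δ) * ((1 + τ) * ∑ c ∈ Icc 1 N \ E, Zc N g c) :=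
        mul_le_mul_of_nonneg_left h3 hδ'.le
    _ = (1 + τ) * ((1 - 352 * δ) * ∑ c ∈ Icc 1 N \ E, Zc N g c) := by ring
    _ ≤ (1 + τ) * ∑ c' ∈ L, Zc N g c' := mul_le_mul_of_nonneg_left hS (by linarith)

theorem qrm_large (τ δ : ℝ) (hτ : 0 < τ) (hδ : 0 < δ) : ∃ N₀ : ℕ, ∀ N : ℕ, N₀ ≤ N →
    10000 ≤ N ∧ 3 ≤ δ * N ∧ 2400 ≤ (N : ℝ) ^ (1 / 50 : ℝ) ∧
    Real.log N ≤ τ / 2 * (N : ℝ) ^ (1 / 50 : ℝ) ∧ 48000 / τ ≤ (N : ℝ) ^ (1 / 50 : ℝ) := by
  have hc := tendsto_natCast_atTop_atTop (R := ℝ)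
  have h1 : ∀ᶠ N : ℕ in Filter.atTop, 10000 ≤ N := Filter.eventually_ge_atTop 10000
  have h2 : ∀ᶠ N : ℕ in Filter.atTop, 3 / δ ≤ (N : ℝ) := hc.eventually_ge_atTop (3 / δ)
  have hr := (tendsto_rpow_atTop (by norm_num : (0 : ℝ) < 1 / 50)).comp hc
  have h3 : ∀ᶠ N : ℕ in Filter.atTop, 2400 ≤ (N : ℝ) ^ (1 / 50 : ℝ) := hr.eventually_ge_atTop 2400
  have h4 : ∀ᶠ N : ℕ in Filter.atTop, 48000 / τ ≤ (N : ℝ) ^ (1 / 50 : ℝ) :=
    hr.eventually_ge_atTop (48000 / τ)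
  have h5 : ∀ᶠ N : ℕ in Filter.atTop, Real.log N ≤ τ / 2 * (N : ℝ) ^ (1 / 50 : ℝ) := by
    have h6 := (isLittleO_log_rpow_atTop (by norm_num : (0 : ℝ) < 1 / 50)).bound
      (by positivity : (0 : ℝ) < τ / 2)
    have h7 := hc.eventually h6
    filter_upwards [h7] with N hN
    have h8 : ‖((N : ℝ)) ^ (1 / 50 : ℝ)‖ = (N : ℝ) ^ (1 / 50 : ℝ) := by
      rw [Real.norm_eq_abs, abs_of_nonneg (by positivity)]
    rw [h8] at hN
    exact (le_abs_self _).trans hN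
  have h9 := (((h1.and h2).and h3).and h4).and h5
  obtain ⟨N₀, hN₀⟩ := Filter.eventually_atTop.1 h9
  refine ⟨N₀, fun N hN => ?_⟩
  obtain ⟨⟨⟨⟨a1, a2⟩, a3⟩, a4⟩, a5⟩ := hN₀ N hN
  refine ⟨a1, ?_, a3, a5, a4⟩
  rw [div_le_iff₀ hδ] at a2
  linarith

theorem qrm_okc {n : ℕ} {par : ℕ → ℕ} {W : Finset ℕ} {f f' : ℕ → ℕ} {Us : Finset ℕ} {v c : ℕ}
    (h : ∀ w ∈ W, f w = f' w) (hc : okc n par W f Us v c) : okc n par W f' Us v c := by
  have hb : ∀ b ∈ bnb n par W v, f b = f' b := fun b hb => h b (mem_filter.1 hb).1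
  obtain ⟨h1, h2, h3⟩ := hc
  refine ⟨h1, fun b hb1 => ?_, fun b hb1 b' hb2 hne => ?_⟩
  · rw [← hb b hb1]
    exact h2 b hb1
  · rw [← hb b hb1, ← hb b' hb2]
    exact h3 b hb1 b' hb2 hne

theorem qrm_vls {par : ℕ → ℕ} {W₀ X : Finset ℕ} {v : ℕ} {f f' : ℕ → ℕ}
    (h : ∀ w ∈ Wt W₀ X v, f w = f' w) : vls par W₀ X v f = vls par W₀ X v f' := by
  unfold vls
  apply image_congr
  intro x hx
  exact (val_items (fun i hi => (h i hi).symm) (mem_coe.1 hx)).symm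

theorem qrm_vls_card {par : ℕ → ℕ} {W₀ X : Finset ℕ} {v : ℕ} {f : ℕ → ℕ} :
    (vls par W₀ X v f).card ≤ 2 * (W₀ ∪ X).card := by
  calc (vls par W₀ X v f).card ≤ (items par (Wt W₀ X v)).card := card_image_le
    _ ≤ 2 * (Wt W₀ X v).card := items_le _ _
    _ ≤ 2 * (W₀ ∪ X).card :=
      Nat.mul_le_mul_left 2 (card_le_card (union_subset_union_right (filter_subset _ _)))

/-- few labels of `Icc 1 N \ Ex` are not allowed -/
theorem qrm_bad {δ : ℝ} {n N : ℕ} {par : ℕ → ℕ} {W₀ X F : Finset ℕ} {f₀ l : ℕ → ℕ}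
    (H : HypM δ n N par W₀ X F f₀ l) (hδN : 3 ≤ δ * N) {v : ℕ} (hv : v ∈ X) {f : ℕ → ℕ}
    {Ok : ℕ → Prop} (hI : InvN N par W₀ X F f₀ Ok v f) :
    ((((Icc 1 N \ qrmEx N F ((bnb n par (Wt W₀ X v) v).image f)) \
      (Icc 1 N \ qrmEx N F ((bnb n par (Wt W₀ X v) v).image f)).filter
        (fun c => okc n par (Wt W₀ X v) f (F ∪ vls par W₀ X v f) v c)).card : ℕ) : ℝ) ≤
      11 * δ * N := by
  set G := Icc 1 N \ qrmEx N F ((bnb n par (Wt W₀ X v) v).image f) with hG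
  have h1 : G \ G.filter (fun c => okc n par (Wt W₀ X v) f (F ∪ vls par W₀ X v f) v c) ⊆
      G.filter (fun c => ¬ okc n par (Wt W₀ X v) f (vls par W₀ X v f) v c) := by
    intro c hc
    rw [mem_sdiff, mem_filter] at hc
    rw [mem_filter]
    refine ⟨hc.1, fun h => hc.2 ⟨hc.1, ?_⟩⟩
    have h2 := qrm_mem hc.1
    obtain ⟨a1, a2, a3⟩ := h
    refine ⟨?_, fun b hb => ⟨?_, (a2 b hb).2⟩, a3⟩
    · rw [mem_union]
      rintro (h | h)
      · exact h2.2.2.2.1 h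
      · exact a1 h
    · rw [mem_union]
      rintro (h | h)
      · exact h2.2.2.2.2 (f b) (mem_image_of_mem f hb) h
      · exact (a2 b hb).1 h
  have hbW : ∀ b ∈ bnb n par (Wt W₀ X v) v, b ∈ Wt W₀ X v := fun b hb => (mem_filter.1 hb).1
  have h2 := okc_card (n := n) (par := par) (W := Wt W₀ X v) (v := v) (f := f)
    (Us := vls par W₀ X v f) (I := G) (bnb_two H.isP (H.ch v hv))
    (fun b hb => (hI.rng (Sum.inl b) (mem_items_inl.2 (hbW b hb))).1)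
    (fun b hb b' hb' hne heq => hne (Sum.inl_injective
      (hI.inj (mem_coe.2 (mem_items_inl.2 (hbW b hb))) (mem_coe.2 (mem_items_inl.2 (hbW b' hb')))
        heq)))
  have h3 := (card_le_card h1).trans h2
  have h4 := qrm_vls_card (par := par) (W₀ := W₀) (X := X) (v := v) (f := f)
  have h5 : (G \ G.filter (fun c => okc n par (Wt W₀ X v) f (F ∪ vls par W₀ X v f) v c)).card ≤
      10 * (W₀ ∪ X).card + 3 := by omega
  have h6 : (((G \ G.filter (fun c => okc n par (Wt W₀ X v) f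
      (F ∪ vls par W₀ X v f) v c)).card : ℕ) : ℝ) ≤ 10 * ((W₀ ∪ X).card : ℝ) + 3 := by
    exact_mod_cast h5
  have h7 := H.c1
  linarith

theorem qrm (τ : ℝ) (hτ : 0 < τ) : ∃ δ : ℝ, 0 < δ ∧ ∃ N₀ : ℕ, ∀ N : ℕ, N₀ ≤ N →
    ∀ (n : ℕ) (par : ℕ → ℕ) (W₀ X F : Finset ℕ) (f₀ l : ℕ → ℕ), HypM δ n N par W₀ X F f₀ l →
    ∃ (f : ℕ → ℕ) (g : ℕ → ℕ → ℝ), InvN N par W₀ X F f₀ (OkM N) n f ∧
      (∀ v ∈ X, Wgt (Icc 1 N \ F) (g v)) ∧
      ∀ z ∈ Icc 1 N \ F, (∑ v ∈ X, (l v : ℝ) * kap N (g v) z (f v)) *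
        (((Icc 1 N \ F).filter (fun y => y % 2 = z % 2)).card : ℝ) ≤
          (1 + τ) * ((∑ v ∈ X, l v : ℕ) : ℝ) + τ * N := by
  obtain ⟨τ₁, ht0, ht1, htt⟩ : ∃ τ₁ : ℝ, 0 < τ₁ ∧ τ₁ ≤ 1 ∧ τ₁ ≤ τ :=
    ⟨min τ 1, lt_min hτ one_pos, min_le_right _ _, min_le_left _ _⟩
  obtain ⟨δ, hδ⟩ : ∃ δ : ℝ, δ = τ₁ / 5000 := ⟨_, rfl⟩
  have hδ0 : 0 < δ := by rw [hδ]; positivity
  obtain ⟨N₀, hN₀⟩ := qrm_large τ δ hτ hδ0
  refine ⟨δ, hδ0, N₀, ?_⟩
  intro N hNN n par W₀ X F f₀ l H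
  obtain ⟨hN, hδN, hy1, hlog, hy2⟩ := hN₀ N hNN
  obtain ⟨y, hy⟩ : ∃ y : ℝ, y = (N : ℝ) ^ (1 / 50 : ℝ) := ⟨_, rfl⟩
  rw [← hy] at hy1 hlog hy2
  have hNR : (10000 : ℝ) ≤ N := by exact_mod_cast hN
  have hNpos : (0 : ℝ) < N := by linarith
  have hy0 : 0 < y := by linarith
  have hyN : (N : ℝ) ^ (24 / 25 : ℝ) * y ^ 2 = N := by
    rw [hy, ← Real.rpow_natCast, ← Real.rpow_mul hNpos.le, ← Real.rpow_add hNpos]
    norm_num
  obtain ⟨b, hb⟩ : ∃ b : ℝ, b = 2400 / y ^ 2 := ⟨_, rfl⟩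
  have hb0 : 0 ≤ b := by rw [hb]; positivity
  have hyb : y * b ≤ 1 := by
    rw [hb, mul_div_assoc', div_le_one (by positivity)]
    nlinarith
  -- the positions
  obtain ⟨Q, hQdef⟩ : ∃ Q : Finset ℕ, Q = Icc 1 N \ F := ⟨_, rfl⟩
  rw [← hQdef]
  have hQ : Q ⊆ Icc 1 N := by rw [hQdef]; exact sdiff_subset
  have hQcard : Q.card = N - F.card := by
    rw [hQdef, card_sdiff_of_subset H.Fsub, Nat.card_Icc]
    omega
  have hFc := H.Fcard
  have hQF : N - Q.card = F.card := by omega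
  have hQc : 200 * (N - Q.card) ≤ N := by omega
  have hgex : ∀ Nb : Finset ℕ, ∃ g : ℕ → ℝ, Nb.card ≤ 2 → SkG N Q (qrmEx N F Nb) (τ₁ / 8) g := by
    intro Nb
    by_cases hNb : Nb.card ≤ 2
    · obtain ⟨g, hg⟩ := skQ (τ := τ₁ / 8) (by positivity) hN hQ (E := qrmEx N F Nb)
        (fun c hc => (qrm_mem hc).2.1) hQc (qrm_Ex hN hFc hNb)
      exact ⟨g, fun _ => hg⟩
    · exact ⟨0, fun h => absurd h hNb⟩
  choose gg hgg using hgex
  obtain ⟨Nb, hNbd⟩ : ∃ Nb : ℕ → (ℕ → ℕ) → Finset ℕ, ∀ v f, Nb v f =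
      (bnb n par (Wt W₀ X v) v).image f := ⟨fun v f => (bnb n par (Wt W₀ X v) v).image f, fun _ _ => rfl⟩
  have hNb2 : ∀ v ∈ X, ∀ f, (Nb v f).card ≤ 2 := by
    intro v hv f
    rw [hNbd]
    exact card_image_le.trans (bnb_two H.isP (H.ch v hv))
  have hNbloc : ∀ v, ∀ f f' : ℕ → ℕ, (∀ w ∈ Wt W₀ X v, f w = f' w) → Nb v f = Nb v f' := by
    intro v f f' h
    rw [hNbd, hNbd]
    apply image_congr
    intro b hb
    exact h b (mem_filter.1 (mem_coe.1 hb)).1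
  -- the number of positions of one parity
  obtain ⟨q, hq⟩ : ∃ q : ℕ → ℝ, ∀ z, q z = ((Q.filter (fun y => y % 2 = z % 2)).card : ℝ) :=
    ⟨fun z => ((Q.filter (fun y => y % 2 = z % 2)).card : ℝ), fun _ => rfl⟩
  have hqlo : ∀ z, (N : ℝ) / 4 ≤ q z := by
    intro z
    rw [hq]
    have h1 := qrm_par N (z % 2) (Nat.mod_lt _ (by norm_num))
    have h2 : (Icc 1 N).filter (fun y => y % 2 = z % 2) ⊆
        Q.filter (fun y => y % 2 = z % 2) ∪ F := by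
      intro y hy
      rw [mem_filter] at hy
      rw [mem_union, mem_filter, hQdef, mem_sdiff]
      by_cases hyF : y ∈ F
      · exact Or.inr hyF
      · exact Or.inl ⟨⟨hy.1, hyF⟩, hy.2⟩
    have h3 := (card_le_card h2).trans (card_union_le _ _)
    have h4 : N ≤ 4 * (Q.filter (fun y => y % 2 = z % 2)).card := by omega
    have h5 : (N : ℝ) ≤ 4 * ((Q.filter (fun y => y % 2 = z % 2)).card : ℝ) := by exact_mod_cast h4
    linarith
  have hqhi : ∀ z, q z ≤ N := by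
    intro z
    rw [hq]
    have h1 : (Q.filter (fun y => y % 2 = z % 2)).card ≤ N := by
      have := card_le_card (filter_subset (fun y => y % 2 = z % 2) Q)
      omega
    exact_mod_cast h1
  have hq0 : ∀ z, 0 < q z := fun z => by have := hqlo z; linarith
  have hδ1 : 352 * δ < 1 := by rw [hδ]; linarith
  have hδ' : 0 < 1 - 352 * δ := by linarith
  obtain ⟨A, hA⟩ : ∃ A : ℝ, A = (1 + τ₁ / 8) / (1 - 352 * δ) := ⟨_, rfl⟩
  have hA0 : 0 < A := by rw [hA]; positivity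
  have hA1 : A ≤ 1 + τ₁ := by
    rw [hA, div_le_iff₀ hδ', hδ]
    nlinarith
  obtain ⟨K, hK⟩ : ∃ K : ℕ → ℝ, ∀ z, K z = A / q z := ⟨fun z => A / q z, fun _ => rfl⟩
  have hK' : ∀ z, (1 + τ₁ / 8) / ((1 - 352 * δ) * q z) = K z := by
    intro z
    rw [hK, hA, div_div]
  have hK0 : ∀ z, 0 ≤ K z := by
    intro z
    rw [hK]
    exact div_nonneg hA0.le (hq0 z).le
  have hsl : ((∑ v ∈ X, l v : ℕ) : ℝ) ≤ N := by exact_mod_cast H.l_sum
  have hsum : ∀ z, ∑ v ∈ X, (l v : ℝ) * K z = ((∑ v ∈ X, l v : ℕ) : ℝ) * K z := by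
    intro z
    rw [← sum_mul]
    push_cast
    rfl
  have hsumle : ∀ z, ∑ v ∈ X, (l v : ℝ) * K z ≤ 10 := by
    intro z
    rw [hsum, hK, mul_div_assoc', div_le_iff₀ (hq0 z)]
    have h1 : ((∑ v ∈ X, l v : ℕ) : ℝ) * A ≤ N * 2 :=
      mul_le_mul hsl (by linarith) hA0.le hNpos.le
    have h2 := hqlo z
    linarith
  obtain ⟨L, hL⟩ : ∃ L : ℕ → (ℕ → ℕ) → Finset ℕ, ∀ v f, L v f = (Icc 1 N \ qrmEx N F (Nb v f)).filter
      (fun c => okc n par (Wt W₀ X v) f (F ∪ vls par W₀ X v f) v c) :=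
    ⟨fun v f => (Icc 1 N \ qrmEx N F (Nb v f)).filter
      (fun c => okc n par (Wt W₀ X v) f (F ∪ vls par W₀ X v f) v c), fun _ _ => rfl⟩
  obtain ⟨f, hf1, hf2, hf3⟩ := qrT (N := N) (F := F) (Ok := OkM N) H.isP H.Wsub H.Xsub H.WX
    H.inj H.rng Q (fun z v f c => (l v : ℝ) * kap N (gg (Nb v f)) z c)
    (by
      intro z _ v _ f f' h c
      simp only [hNbloc v f f' h])
    (fun z v => (l v : ℝ) * K z) (fun z v => b * ((l v : ℝ) * K z)) b y (10 * b) hb0 hy0 hyb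
    (by
      intro z _
      rw [← mul_sum]
      have := mul_le_mul_of_nonneg_left (hsumle z) hb0
      linarith)
    L (fun v f c => Zc N (gg (Nb v f)) c / ∑ c' ∈ L v f, Zc N (gg (Nb v f)) c')
    (by
      intro v _ f f' h
      rw [hL, hL, hNbloc v f f' h, qrm_vls h]
      apply filter_congr
      intro c _
      exact ⟨qrm_okc h, qrm_okc (fun w hw => (h w hw).symm)⟩)
    (by
      intro v hv f hInv
      have hg := hgg (Nb v f) (hNb2 v hv f)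
      have hLs : L v f ⊆ Icc 1 N \ qrmEx N F (Nb v f) := by rw [hL]; exact filter_subset _ _
      have hLc : (((Icc 1 N \ qrmEx N F (Nb v f)) \ L v f).card : ℝ) ≤ 11 * δ * N := by
        rw [hL, hNbd]
        exact qrm_bad H hδN hv hInv
      have hEo : ∀ c ∈ Icc 1 N \ qrmEx N F (Nb v f), c % 2 = 1 := fun c hc => (qrm_mem hc).2.1
      have hEc := qrm_Ex hN hFc (hNb2 v hv f)
      have hS := qrm_sumL hδ0.le hN hQ hEo hQc hEc hg hLs hLc
      have hSE := sumZ_ge hN hQ hEo hQc hEc hg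
      have hpos : 0 < ∑ c ∈ L v f, Zc N (gg (Nb v f)) c := by
        refine lt_of_lt_of_le ?_ hS
        apply mul_pos hδ'
        refine lt_of_lt_of_le ?_ hSE
        positivity
      have hp0 : ∀ c, 0 ≤ Zc N (gg (Nb v f)) c / ∑ c' ∈ L v f, Zc N (gg (Nb v f)) c' :=
        fun c => div_nonneg (qrm_Zc_nn hg.nn c) hpos.le
      have hl0 : (0 : ℝ) ≤ l v := Nat.cast_nonneg _
      have hξ0 : ∀ z c, 0 ≤ (l v : ℝ) * kap N (gg (Nb v f)) z c :=
        fun z c => mul_nonneg hl0 (kapq_nn hg.nn z c)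
      have hξb : ∀ z, ∀ c ∈ L v f, (l v : ℝ) * kap N (gg (Nb v f)) z c ≤ b := by
        intro z c hc
        have hcm := qrm_mem (hLs hc)
        have hc1 : 250 * (c : ℝ) ≤ 249 * N := by exact_mod_cast hcm.2.2.1
        have hF1 : 4000 * (F.card : ℝ) ≤ N := by exact_mod_cast hFc
        have hk := (kapq_le hQ hg.nn hg.hi hg.lo z c (by
          rw [hQF]
          linarith) (by omega)).1
        calc (l v : ℝ) * kap N (gg (Nb v f)) z c ≤ (N : ℝ) ^ (24 / 25 : ℝ) * (2400 / N) :=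
              mul_le_mul (H.l_le v hv) hk (kapq_nn hg.nn z c) (by positivity)
          _ = b := by
            rw [hb, mul_div_assoc', div_eq_div_iff hNpos.ne' (by positivity)]
            have h3 : (N : ℝ) ^ (24 / 25 : ℝ) * 2400 * y ^ 2 =
                2400 * ((N : ℝ) ^ (24 / 25 : ℝ) * y ^ 2) := by ring
            rw [h3, hyN]
      have hmean : ∀ z ∈ Q, ∑ c ∈ L v f, Zc N (gg (Nb v f)) c /
          (∑ c' ∈ L v f, Zc N (gg (Nb v f)) c') * ((l v : ℝ) * kap N (gg (Nb v f)) z c) ≤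
            (l v : ℝ) * K z := by
        intro z hz
        have h1 := qrm_mean (τ := τ₁ / 8) (by positivity) hδ1 hg hLs hS hpos hz hl0
        rwa [← hq, hK'] at h1
      refine ⟨fun c hc => ?_, ?_, fun z _ c hc => hξb z c hc, hmean, ?_⟩
      · have hcm := qrm_mem (hLs hc)
        refine ⟨hcm.1.1, hcm.1.2, ⟨hcm.2.1, hcm.2.2.1⟩, ?_, hp0 c⟩
        rw [hL] at hc
        exact (mem_filter.1 hc).2
      · rw [← sum_div]
        exact div_self hpos.ne'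
      · intro z hz
        calc ∑ c ∈ L v f, Zc N (gg (Nb v f)) c / (∑ c' ∈ L v f, Zc N (gg (Nb v f)) c') *
              ((l v : ℝ) * kap N (gg (Nb v f)) z c) ^ 2
            ≤ ∑ c ∈ L v f, b * (Zc N (gg (Nb v f)) c / (∑ c' ∈ L v f, Zc N (gg (Nb v f)) c') *
              ((l v : ℝ) * kap N (gg (Nb v f)) z c)) := by
              apply sum_le_sum
              intro c hc
              have h1 := mul_le_mul_of_nonneg_right (hξb z c hc) (hξ0 z c)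
              have h2 := mul_le_mul_of_nonneg_left h1 (hp0 c)
              calc _ = Zc N (gg (Nb v f)) c / (∑ c' ∈ L v f, Zc N (gg (Nb v f)) c') *
                    ((l v : ℝ) * kap N (gg (Nb v f)) z c * ((l v : ℝ) * kap N (gg (Nb v f)) z c)) := by
                    ring
                _ ≤ _ := h2
                _ = _ := by ring
          _ = b * ∑ c ∈ L v f, Zc N (gg (Nb v f)) c / (∑ c' ∈ L v f, Zc N (gg (Nb v f)) c') *
              ((l v : ℝ) * kap N (gg (Nb v f)) z c) := by rw [mul_sum]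
          _ ≤ b * ((l v : ℝ) * K z) := mul_le_mul_of_nonneg_left (hmean z hz) hb0)
  refine ⟨f, fun v => gg (Nb v f), hf1, fun v hv => ?_, fun z hz => ?_⟩
  · have hg := hgg (Nb v f) (hNb2 v hv f)
    exact ⟨hg.nn, hg.hi, hg.lo, hg.out⟩
  · have h1 := hf3 z hz
    rw [← hq]
    have h2 : Real.log Q.card ≤ Real.log N := by
      apply Real.log_le_log
      · have : 0 < Q.card := card_pos.2 ⟨z, hz⟩
        exact_mod_cast this
      · have : Q.card ≤ N := by omega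
        exact_mod_cast this
    have h3 : (Real.log Q.card + y ^ 2 * (10 * b)) / y ≤ τ := by
      rw [div_le_iff₀ hy0]
      have h4 : y ^ 2 * (10 * b) = 24000 := by
        rw [hb]
        field_simp
        norm_num
      have h5 : 48000 ≤ y * τ := by
        rwa [div_le_iff₀ hτ] at hy2
      rw [h4]
      linarith
    have h6 := h1.trans (add_le_add_right h3 _)
    rw [hsum] at h6
    have h7 := mul_le_mul_of_nonneg_right h6 (hq0 z).le
    refine h7.trans ?_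
    have h8 : ((∑ v ∈ X, l v : ℕ) : ℝ) * K z * q z = ((∑ v ∈ X, l v : ℕ) : ℝ) * A := by
      rw [hK, mul_assoc, div_mul_cancel₀ _ (hq0 z).ne']
    have h9 : ((∑ v ∈ X, l v : ℕ) : ℝ) * A ≤ ((∑ v ∈ X, l v : ℕ) : ℝ) * (1 + τ) :=
      mul_le_mul_of_nonneg_left (by linarith) (Nat.cast_nonneg _)
    have h10 : τ * q z ≤ τ * N := mul_le_mul_of_nonneg_left (hqhi z) hτ.le
    calc _ = ((∑ v ∈ X, l v : ℕ) : ℝ) * K z * q z + τ * q z := by ring
      _ ≤ _ := by rw [h8]; linarith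

end SSB
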