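import Pool.Agent.Lib.MP_8a819d_co.AT.CloE
import Pool.Agent.Lib.MP_8a819d_co.AT.Cnt

/-!
# MP_8a819d_co, leaf-heavy trees: numbering one more vertex

JOB LH_StepN (all of this file).

`okc n par W f Us v c`: the label `c` can be given to the vertex `v ∉ W` (`W` is numbered by `f`, `Us` = forbidden labels): `c ∉ Us`, and the labels `dd c (f b)` of the edges to the
numbered neighbours `b ∈ bnb n par W v` are not in `Us`, different from `c` and different from each other.

PROOF of `step_num`. `items par (insert v W) = items par W ∪ {inl v} ∪ {inr v if v ≥ 1, par v ∈ W} ∪ {inr w : w ∈ W, 1 ≤ w, par w = v}` (`par v ≠ v` for `v ≥ 1`; for `v = 0`, `par 0` may be `0`, but `inr 0` is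
never an item). On `items par W` the values do not change (`v ∉ W`, `val_items` of AT/Cnt.lean). The new edges correspond bijectively to the neighbours `b ∈ bnb n par W v` (`b = par v` gives `inr v`, a child `b ∈ W` gives
`inr b`; `par v < v < b`, so there is no coincidence), with the value `dd c (f b)` (`dd_comm`).
PROOF of `okc_card`. `c ∈ Us`: `|Us|` values. For `b ∈ bnb` (at most two) with `a = f b ≥ 1`: `dd c a ∈ Us`: `c = a + y` or `c = a - y`, `y ∈ Us`: at most `2 |Us|` values; `dd c a = c`: `a = 2 c`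
(`a ≥ 1`): at most one value. `b ≠ b'`: `f b ≠ f b'` and `dd c (f b) = dd c (f b')` imply `2 c = f b + f b'`: at most one value. Together at most `5 |Us| + 3`.
PROOF of `bnb_two`. `bnb n par (P ∪ X.filter (· < v)) v`: `par v` (at most one element), and the `b` with `par b = v`, `1 ≤ b`: then `b > v`, so `b ∉ X.filter (· < v)` and
`b ∈ (chs n par v).filter (· ∈ P)`, which has at most one element.
-/

set_option autoImplicit false

namespace SSB

open Finset

def okc (n : ℕ) (par : ℕ → ℕ) (W : Finset ℕ) (f : ℕ → ℕ) (Us : Finset ℕ) (v c : ℕ) : Prop :=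
  c ∉ Us ∧ (∀ b ∈ bnb n par W v, dd c (f b) ∉ Us ∧ dd c (f b) ≠ c) ∧
    ∀ b ∈ bnb n par W v, ∀ b' ∈ bnb n par W v, b ≠ b' → dd c (f b) ≠ dd c (f b')

instance (n : ℕ) (par : ℕ → ℕ) (W : Finset ℕ) (f : ℕ → ℕ) (Us : Finset ℕ) (v c : ℕ) :
    Decidable (okc n par W f Us v c) := by
  unfold okc
  infer_instance

private def stepna_e (par : ℕ → ℕ) (v b : ℕ) : ℕ ⊕ ℕ := if 1 ≤ v ∧ par v = b then Sum.inr v else Sum.inr b

private theorem stepna_mem {n : ℕ} {par : ℕ → ℕ} (hpar : IsPar n par) {W : Finset ℕ} {v : ℕ} (hW : W ⊆ range n)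
    (hv : v < n) (hvW : v ∉ W) (x : ℕ ⊕ ℕ) :
    x ∈ items par (insert v W) ↔ x ∈ items par W ∨ x = Sum.inl v ∨ ∃ b ∈ bnb n par W v, x = stepna_e par v b := by
  constructor
  · intro hx
    rcases x with i | i
    · rw [mem_items_inl, mem_insert] at hx
      rcases hx with rfl | hx
      · exact Or.inr (Or.inl rfl)
      · exact Or.inl (mem_items_inl.2 hx)
    · rw [mem_items_inr, mem_insert, mem_insert] at hx
      obtain ⟨h1, h2, h3⟩ := hx
      rcases h1 with h1 | h1
      · subst h1
        have h4 := hpar i h2 hv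
        rcases h3 with h3 | h3
        · omega
        · refine Or.inr (Or.inr ⟨par i, mem_bnb.2 ⟨h3, Or.inl ⟨h2, hv, rfl⟩⟩, ?_⟩)
          unfold stepna_e
          rw [if_pos ⟨h2, rfl⟩]
      · have h5 : i < n := mem_range.1 (hW h1)
        have h4 := hpar i h2 h5
        rcases h3 with h3 | h3
        · refine Or.inr (Or.inr ⟨i, mem_bnb.2 ⟨h1, Or.inr ⟨h2, h5, h3⟩⟩, ?_⟩)
          unfold stepna_e
          rw [if_neg]
          rintro ⟨h6, h7⟩
          have h8 := hpar v h6 hv
          omega
        · exact Or.inl (mem_items_inr.2 ⟨h1, h2, h3⟩)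
  · rintro (hx | hx | ⟨b, hb, hx⟩)
    · rcases x with i | i
      · rw [mem_items_inl] at hx ⊢
        exact mem_insert_of_mem hx
      · rw [mem_items_inr] at hx ⊢
        exact ⟨mem_insert_of_mem hx.1, hx.2.1, mem_insert_of_mem hx.2.2⟩
    · subst hx
      rw [mem_items_inl]
      exact mem_insert_self _ _
    · subst hx
      obtain ⟨h1, h2⟩ := mem_bnb.1 hb
      unfold stepna_e
      by_cases h3 : 1 ≤ v ∧ par v = b
      · rw [if_pos h3, mem_items_inr]
        exact ⟨mem_insert_self _ _, h3.1, mem_insert_of_mem (h3.2 ▸ h1)⟩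
      · rw [if_neg h3, mem_items_inr]
        rcases h2 with h2 | h2
        · exact absurd ⟨h2.1, h2.2.2⟩ h3
        · exact ⟨mem_insert_of_mem h1, h2.1, by rw [h2.2.2]; exact mem_insert_self _ _⟩

private theorem stepna_old {par f : ℕ → ℕ} {W : Finset ℕ} {v c : ℕ} (hvW : v ∉ W) {x : ℕ ⊕ ℕ} (hx : x ∈ items par W) :
    val par (Function.update f v c) x = val par f x := by
  have h1 : ∀ i ∈ W, Function.update f v c i = f i := by
    intro i hi
    refine Function.update_of_ne ?_ _ _
    rintro rfl
    exact hvW hi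
  rcases x with i | i
  · rw [mem_items_inl] at hx
    rw [val_inl, val_inl, h1 i hx]
  · rw [mem_items_inr] at hx
    rw [val_inr, val_inr, h1 i hx.1, h1 _ hx.2.2]

private theorem stepna_new {n : ℕ} {par f : ℕ → ℕ} (hpar : IsPar n par) {W : Finset ℕ} {v c : ℕ}
    (hv : v < n) (hvW : v ∉ W) {b : ℕ} (hb : b ∈ bnb n par W v) :
    val par (Function.update f v c) (stepna_e par v b) = dd c (f b) := by
  obtain ⟨h1, h2⟩ := mem_bnb.1 hb
  have hbv : b ≠ v := by
    rintro rfl
    exact hvW h1
  unfold stepna_e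
  by_cases h3 : 1 ≤ v ∧ par v = b
  · rw [if_pos h3, val_inr, Function.update_self, h3.2, Function.update_of_ne hbv]
  · rw [if_neg h3]
    rcases h2 with h2 | h2
    · exact absurd ⟨h2.1, h2.2.2⟩ h3
    · rw [val_inr, h2.2.2, Function.update_self, Function.update_of_ne hbv, dd_comm]

theorem step_num {n : ℕ} {par : ℕ → ℕ} (hpar : IsPar n par) {W : Finset ℕ} {v c : ℕ} {f : ℕ → ℕ}
    (hW : W ⊆ range n) (hv : v < n) (hvW : v ∉ W) (hinj : Set.InjOn (val par f) (items par W))
    (hc : okc n par W f ((items par W).image (val par f)) v c) :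
    Set.InjOn (val par (Function.update f v c)) (items par (insert v W)) ∧
    (items par (insert v W)).image (val par (Function.update f v c)) =
      (items par W).image (val par f) ∪ insert c ((bnb n par W v).image (fun b => dd c (f b))) := by
  obtain ⟨hc1, hc2, hc3⟩ := hc
  have hin : ∀ x ∈ items par W, val par f x ∈ (items par W).image (val par f) := fun x hx => mem_image_of_mem _ hx
  have hvv : val par (Function.update f v c) (Sum.inl v) = c := by
    rw [val_inl, Function.update_self]
  constructor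
  · intro x hx y hy hxy
    rw [Finset.mem_coe] at hx hy
    rcases (stepna_mem hpar hW hv hvW x).1 hx with hx1 | hx1 | ⟨b, hb, hx1⟩ <;>
      rcases (stepna_mem hpar hW hv hvW y).1 hy with hy1 | hy1 | ⟨b', hb', hy1⟩
    · rw [stepna_old hvW hx1, stepna_old hvW hy1] at hxy
      exact hinj (Finset.mem_coe.2 hx1) (Finset.mem_coe.2 hy1) hxy
    · rw [stepna_old hvW hx1, hy1, hvv] at hxy
      exact absurd (hxy ▸ hin x hx1) hc1
    · rw [stepna_old hvW hx1, hy1, stepna_new hpar hv hvW hb'] at hxy
      exact absurd (hxy ▸ hin x hx1) (hc2 b' hb').1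
    · rw [stepna_old hvW hy1, hx1, hvv] at hxy
      exact absurd (hxy ▸ hin y hy1) hc1
    · rw [hx1, hy1]
    · rw [hx1, hvv, hy1, stepna_new hpar hv hvW hb'] at hxy
      exact absurd hxy.symm (hc2 b' hb').2
    · rw [stepna_old hvW hy1, hx1, stepna_new hpar hv hvW hb] at hxy
      exact absurd (hxy ▸ hin y hy1) (hc2 b hb).1
    · rw [hy1, hvv, hx1, stepna_new hpar hv hvW hb] at hxy
      exact absurd hxy (hc2 b hb).2
    · by_cases hbb : b = b'
      · rw [hx1, hy1, hbb]
      · rw [hx1, hy1, stepna_new hpar hv hvW hb, stepna_new hpar hv hvW hb'] at hxy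
        exact absurd hxy (hc3 b hb b' hb' hbb)
  · ext z
    rw [mem_image, mem_union, mem_image, mem_insert, mem_image]
    constructor
    · rintro ⟨x, hx, hz⟩
      rcases (stepna_mem hpar hW hv hvW x).1 hx with hx1 | hx1 | ⟨b, hb, hx1⟩
      · rw [stepna_old hvW hx1] at hz
        exact Or.inl ⟨x, hx1, hz⟩
      · rw [hx1, hvv] at hz
        exact Or.inr (Or.inl hz.symm)
      · rw [hx1, stepna_new hpar hv hvW hb] at hz
        exact Or.inr (Or.inr ⟨b, hb, hz⟩)
    · rintro (⟨x, hx, hz⟩ | hz | ⟨b, hb, hz⟩)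
      · exact ⟨x, (stepna_mem hpar hW hv hvW x).2 (Or.inl hx), by rw [stepna_old hvW hx]; exact hz⟩
      · exact ⟨Sum.inl v, (stepna_mem hpar hW hv hvW _).2 (Or.inr (Or.inl rfl)), by rw [hvv]; exact hz.symm⟩
      · exact ⟨stepna_e par v b, (stepna_mem hpar hW hv hvW _).2 (Or.inr (Or.inr ⟨b, hb, rfl⟩)), by
          rw [stepna_new hpar hv hvW hb]; exact hz⟩

theorem okc_card {n : ℕ} {par : ℕ → ℕ} {W : Finset ℕ} {v : ℕ} {f : ℕ → ℕ} {Us I : Finset ℕ}
    (hb : (bnb n par W v).card ≤ 2) (h1 : ∀ b ∈ bnb n par W v, 1 ≤ f b)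
    (h2 : ∀ b ∈ bnb n par W v, ∀ b' ∈ bnb n par W v, b ≠ b' → f b ≠ f b') :
    (I.filter (fun c => ¬ okc n par W f Us v c)).card ≤ 5 * Us.card + 3 := by
  classical
  set B : Finset ℕ := bnb n par W v with hB
  set T : ℕ → Finset ℕ := fun b =>
    (Us.image (fun y => f b + y) ∪ Us.image (fun y => f b - y)) ∪ {f b / 2} with hT
  have hTc : ∀ b, (T b).card ≤ 2 * Us.card + 1 := by
    intro b
    have e1 := card_union_le (Us.image (fun y => f b + y) ∪ Us.image (fun y => f b - y))
      {f b / 2}
    have e2 := card_union_le (Us.image (fun y => f b + y)) (Us.image (fun y => f b - y))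
    have e3 : (Us.image (fun y => f b + y)).card ≤ Us.card := card_image_le
    have e4 : (Us.image (fun y => f b - y)).card ≤ Us.card := card_image_le
    have e5 : ({f b / 2} : Finset ℕ).card = 1 := card_singleton _
    simp only [hT]
    omega
  have hsub : I.filter (fun c => ¬ okc n par W f Us v c) ⊆
      (Us ∪ B.biUnion T) ∪ {(∑ b ∈ B, f b) / 2} := by
    intro c hc
    rw [mem_filter] at hc
    by_contra hcon
    apply hc.2
    simp only [mem_union, mem_biUnion, mem_singleton, not_or, not_exists, not_and] at hcon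
    obtain ⟨⟨hu, hbi⟩, hs⟩ := hcon
    refine ⟨hu, ?_, ?_⟩
    · intro b hb'
      have h1b := h1 b hb'
      have hTb := hbi b hb'
      simp only [hT, mem_union, mem_image, mem_singleton, not_or, not_exists, not_and] at hTb
      obtain ⟨⟨t1, t2⟩, t3⟩ := hTb
      constructor
      · intro hy
        unfold dd at hy
        by_cases hle : f b ≤ c
        · apply t1 _ hy
          omega
        · apply t2 _ hy
          omega
      · unfold dd
        intro hy
        apply t3
        omega
    · intro b hb1 b' hb2 hne heq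
      have hne' := h2 b hb1 b' hb2 hne
      apply hs
      have hpair : ({b, b'} : Finset ℕ) = B := by
        apply eq_of_subset_of_card_le
        · intro x hx
          rw [mem_insert, mem_singleton] at hx
          rcases hx with rfl | rfl
          · exact hb1
          · exact hb2
        · rw [card_pair hne]
          exact hb
      rw [← hpair, sum_pair hne]
      unfold dd at heq
      omega
  have e0 := card_le_card hsub
  have e1 := card_union_le (Us ∪ B.biUnion T) {(∑ b ∈ B, f b) / 2}
  have e2 := card_union_le Us (B.biUnion T)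
  have e3 : (B.biUnion T).card ≤ B.card * (2 * Us.card + 1) :=
    card_biUnion_le_card_mul _ _ _ (fun b _ => hTc b)
  have e4 : B.card * (2 * Us.card + 1) ≤ 2 * (2 * Us.card + 1) := Nat.mul_le_mul_right _ hb
  have e5 : ({(∑ b ∈ B, f b) / 2} : Finset ℕ).card = 1 := card_singleton _
  omega

theorem bnb_two {n : ℕ} {par : ℕ → ℕ} (hpar : IsPar n par) {P X : Finset ℕ} {v : ℕ}
    (hch : ((chs n par v).filter (· ∈ P)).card ≤ 1) :
    (bnb n par (P ∪ X.filter (· < v)) v).card ≤ 2 := by
  classical
  have hsub : bnb n par (P ∪ X.filter (· < v)) v ⊆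
      {par v} ∪ (chs n par v).filter (· ∈ P) := by
    intro b hb
    unfold bnb at hb
    rw [mem_filter, mem_union, mem_filter] at hb
    rw [mem_union, mem_singleton, mem_filter, mem_chs]
    obtain ⟨hb1, hb2⟩ := hb
    rcases hb2 with ⟨_, _, h⟩ | ⟨h3, h4, h5⟩
    · left
      exact h.symm
    · right
      have hlt := hpar b h3 h4
      rw [h5] at hlt
      rcases hb1 with h6 | ⟨_, h7⟩
      · exact ⟨⟨h4, h3, h5⟩, h6⟩
      · omega
  have e0 := card_le_card hsub
  have e1 := card_union_le {par v} ((chs n par v).filter (· ∈ P))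
  have e2 : ({par v} : Finset ℕ).card = 1 := card_singleton _
  omega

end SSB
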