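import Pool.Agent.Lib.MP_8a819d_co.LH.QR0
import Pool.Agent.Lib.MP_8a819d_co.LH.StepN

/-!
# MP_8a819d_co, leaf-heavy trees: derandomised numbering of a set of vertices

JOB LH_QRT (all of this file).

`W₀` is numbered (by `f₀`), the vertices of `X` are numbered in increasing order. `Wt W₀ X t` = the vertices numbered before the time `t`; at the time `t ∈ X` the vertex `t` gets a label `c ∈ L t f` with
probability `p t f c`. `F` = fixed forbidden labels, `Ok` = a condition on the labels of the vertices of `X`. Each test `i` is a sum `∑ v ∈ X, ξ i v f (f v)` where `ξ i v f c` depends only on the labels of `Wt W₀ X v`.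

PROOF. `qr0` with `T = n`, `σ = ℕ → ℕ`, `Inv t f = InvN ... t f ∧ ∀ v ∈ X, v < t → f v ∈ L v f`, `Φ i t f = ∑ v ∈ X.filter (· < t), ξ i v f (f v)`, `e' i t = if t ∈ X then e i t else 0`, `V' i t = if t ∈ X then V i t else 0`, `s₀ = f₀`.
Step at the time `t < n`, state `f`: if `t ∉ X`, then `L = {0}`, `p = 1`, `nx = fun _ => f`: `Wt W₀ X (t + 1) = Wt W₀ X t`, all increments are `0` (`0 ≤ b` is a hypothesis). If `t ∈ X`: `L = L t f`, `p = p t f`,
`nx c = Function.update f t c`. `Wt W₀ X (t + 1) = insert t (Wt W₀ X t)`, `t ∉ Wt W₀ X t` (disjointness). `InvN (t + 1) (nx c)`: `agree` as `t ∉ W₀`; `inj` from `step_num` (`okc` for `Us = F ∪ values` implies `okc` for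
`Us = values`); `new`: an item of `insert t (Wt t)` which is not an item of `W₀`: if it is an item of `Wt t`, its value is unchanged; otherwise its value is in `insert c ((bnb ..).image (fun b => dd c (f b)))` (it is not in the
values of `items par (Wt t)` by injectivity; easier: an item `inl t`, `inr t` or `inr w` with `par w = t`, treat the three cases directly); `c ∈ [1, N]`, `c ∉ F`; `dd c (f b) ∉ F` by `okc`, `dd c (f b) ≥ 1` as
`f b` is a value (of `inl b`), so `c ≠ f b`; `dd c (f b) ≤ max c (f b) ≤ N`. `ok`: clear. Increment: `Φ i (t+1) (nx c) - Φ i t f = ξ i t (nx c) c + ∑ v ∈ X, v < t, (ξ i v (nx c) (nx c v) - ξ i v f (f v)) = ξ i t f c` by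
`hloc` (`nx c` and `f` agree on `Wt v` for `v ≤ t`, `v < t` gives `nx c v = f v`).
The second part of `Inv` is preserved by `hLloc`. `InvN ... n f` implies `InvN ... v f` for `v ≤ n` (`Wt` is monotone). At the end `X.filter (· < n) = X`, `Wt W₀ X n = W₀ ∪ X`; `∑ t ∈ range n, e' i t = ∑ v ∈ X, e i v`.
-/

set_option autoImplicit false

namespace SSB

open Finset

/-- the vertices numbered before the time `t` -/
def Wt (W₀ X : Finset ℕ) (t : ℕ) : Finset ℕ := W₀ ∪ X.filter (· < t)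

/-- the values of the items numbered before the time `t` -/
def vls (par : ℕ → ℕ) (W₀ X : Finset ℕ) (t : ℕ) (f : ℕ → ℕ) : Finset ℕ :=
  (items par (Wt W₀ X t)).image (val par f)

structure InvN (N : ℕ) (par : ℕ → ℕ) (W₀ X F : Finset ℕ) (f₀ : ℕ → ℕ) (Ok : ℕ → Prop) (t : ℕ)
    (f : ℕ → ℕ) : Prop where
  agree : ∀ i ∈ W₀, f i = f₀ i
  inj : Set.InjOn (val par f) (items par (Wt W₀ X t))
  rng : ∀ x ∈ items par (Wt W₀ X t), 1 ≤ val par f x ∧ val par f x ≤ N
  new : ∀ x ∈ items par (Wt W₀ X t), x ∉ items par W₀ → val par f x ∉ F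
  ok : ∀ v ∈ X, v < t → Ok (f v)

private theorem qrt_Wt_mono {W₀ X : Finset ℕ} {s t : ℕ} (h : s ≤ t) : Wt W₀ X s ⊆ Wt W₀ X t := by
  unfold Wt
  apply union_subset_union_right
  intro v hv
  rw [mem_filter] at hv ⊢
  exact ⟨hv.1, lt_of_lt_of_le hv.2 h⟩

private theorem qrt_Wt_succ {W₀ X : Finset ℕ} {t : ℕ} (ht : t ∈ X) :
    Wt W₀ X (t + 1) = insert t (Wt W₀ X t) := by
  unfold Wt
  ext v
  simp only [mem_union, mem_filter, mem_insert]
  constructor
  · rintro (h | ⟨h1, h2⟩)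
    · exact Or.inr (Or.inl h)
    · rcases Nat.lt_succ_iff_lt_or_eq.1 h2 with h3 | h3
      · exact Or.inr (Or.inr ⟨h1, h3⟩)
      · exact Or.inl h3
  · rintro (h | h | ⟨h1, h2⟩)
    · subst h
      exact Or.inr ⟨ht, Nat.lt_succ_self _⟩
    · exact Or.inl h
    · exact Or.inr ⟨h1, Nat.lt_succ_of_lt h2⟩

private theorem qrt_fil_succ {X : Finset ℕ} {t : ℕ} (ht : t ∈ X) :
    X.filter (· < t + 1) = insert t (X.filter (· < t)) := by
  ext v
  simp only [mem_filter, mem_insert]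
  constructor
  · rintro ⟨h1, h2⟩
    rcases Nat.lt_succ_iff_lt_or_eq.1 h2 with h3 | h3
    · exact Or.inr ⟨h1, h3⟩
    · exact Or.inl h3
  · rintro (h | ⟨h1, h2⟩)
    · subst h
      exact ⟨ht, Nat.lt_succ_self _⟩
    · exact ⟨h1, Nat.lt_succ_of_lt h2⟩

private theorem qrt_fil_not {X : Finset ℕ} {t : ℕ} (ht : t ∉ X) :
    X.filter (· < t + 1) = X.filter (· < t) := by
  ext v
  simp only [mem_filter]
  constructor
  · rintro ⟨h1, h2⟩
    rcases Nat.lt_succ_iff_lt_or_eq.1 h2 with h3 | h3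
    · exact ⟨h1, h3⟩
    · subst h3
      exact absurd h1 ht
  · rintro ⟨h1, h2⟩
    exact ⟨h1, Nat.lt_succ_of_lt h2⟩

private theorem qrt_mono {N : ℕ} {par : ℕ → ℕ} {W₀ X F : Finset ℕ} {f₀ f : ℕ → ℕ} {Ok : ℕ → Prop} {s t : ℕ}
    (h : InvN N par W₀ X F f₀ Ok t f) (hst : s ≤ t) : InvN N par W₀ X F f₀ Ok s f where
  agree := h.agree
  inj := h.inj.mono (by
    have := items_mono (par := par) (qrt_Wt_mono (W₀ := W₀) (X := X) hst)
    exact_mod_cast this)
  rng := fun x hx => h.rng x (items_mono (qrt_Wt_mono hst) hx)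
  new := fun x hx => h.new x (items_mono (qrt_Wt_mono hst) hx)
  ok := fun v hv hvs => h.ok v hv (lt_of_lt_of_le hvs hst)

private theorem qrt_cases {n : ℕ} {par : ℕ → ℕ} (hpar : IsPar n par) {W : Finset ℕ} {t c : ℕ} {f : ℕ → ℕ}
    (hW : W ⊆ range n) (ht : t < n) (htW : t ∉ W) {x : ℕ ⊕ ℕ} (hx : x ∈ items par (insert t W)) :
    (x ∈ items par W ∧ val par (Function.update f t c) x = val par f x) ∨
    (val par (Function.update f t c) x = c ∧ x ∉ items par W) ∨
    ∃ b ∈ bnb n par W t, val par (Function.update f t c) x = dd c (f b) := by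
  have hne : ∀ w ∈ W, w ≠ t := fun w hw h => htW (h ▸ hw)
  have hup : ∀ w ∈ W, Function.update f t c w = f w := fun w hw => Function.update_of_ne (hne w hw) _ _
  rcases x with i | i
  · rw [mem_items_inl, mem_insert] at hx
    rcases hx with rfl | hi
    · right; left
      refine ⟨by rw [val_inl, Function.update_self], ?_⟩
      rw [mem_items_inl]
      exact htW
    · left
      exact ⟨mem_items_inl.2 hi, by rw [val_inl, val_inl, hup i hi]⟩
  · rw [mem_items_inr, mem_insert, mem_insert] at hx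
    obtain ⟨h1, h2, h3⟩ := hx
    rcases h1 with rfl | hi
    · right; right
      have hlt := hpar i h2 ht
      have hp : par i ∈ W := by
        rcases h3 with h | h
        · omega
        · exact h
      refine ⟨par i, ?_, ?_⟩
      · unfold bnb
        rw [mem_filter]
        exact ⟨hp, Or.inl ⟨h2, ht, rfl⟩⟩
      · rw [val_inr, Function.update_self, hup _ hp]
    · rcases h3 with h | hp
      · right; right
        refine ⟨i, ?_, ?_⟩
        · unfold bnb
          rw [mem_filter]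
          exact ⟨hi, Or.inr ⟨h2, mem_range.1 (hW hi), h⟩⟩
        · rw [val_inr, h, Function.update_self, hup i hi, dd_comm]
      · left
        exact ⟨mem_items_inr.2 ⟨hi, h2, hp⟩, by rw [val_inr, val_inr, hup i hi, hup _ hp]⟩

private theorem qrt_step {n N : ℕ} {par : ℕ → ℕ} (hpar : IsPar n par) {W₀ X F : Finset ℕ}
    {f₀ f : ℕ → ℕ} {Ok : ℕ → Prop} (hW : W₀ ⊆ range n) (hX : X ⊆ range n) (hd : Disjoint W₀ X) {t c : ℕ}
    (ht : t ∈ X) (h : InvN N par W₀ X F f₀ Ok t f) (h1 : 1 ≤ c) (h2 : c ≤ N) (h3 : Ok c)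
    (h4 : okc n par (Wt W₀ X t) f (F ∪ vls par W₀ X t f) t c) :
    InvN N par W₀ X F f₀ Ok (t + 1) (Function.update f t c) := by
  have htn : t < n := mem_range.1 (hX ht)
  have ht0 : t ∉ W₀ := fun h' => (Finset.disjoint_left.1 hd) h' ht
  have htW : t ∉ Wt W₀ X t := by
    unfold Wt
    rw [mem_union, mem_filter]
    rintro (h' | h')
    · exact ht0 h'
    · exact absurd h'.2 (lt_irrefl t)
  have hWn : Wt W₀ X t ⊆ range n := by
    unfold Wt
    exact union_subset hW ((filter_subset _ _).trans hX)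
  have h5 : okc n par (Wt W₀ X t) f ((items par (Wt W₀ X t)).image (val par f)) t c := by
    refine ⟨fun h' => h4.1 (mem_union_right _ h'), fun b hb => ⟨fun h' => (h4.2.1 b hb).1 (mem_union_right _ h'), (h4.2.1 b hb).2⟩, h4.2.2⟩
  have h6 := step_num hpar hWn htn htW h.inj h5
  have hval : ∀ b ∈ bnb n par (Wt W₀ X t) t, f b ∈ vls par W₀ X t f ∧ 1 ≤ f b ∧ f b ≤ N := by
    intro b hb
    have hb' : b ∈ Wt W₀ X t := (mem_filter.1 hb).1
    have hi : Sum.inl b ∈ items par (Wt W₀ X t) := mem_items_inl.2 hb'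
    exact ⟨mem_image.2 ⟨_, hi, rfl⟩, h.rng _ hi⟩
  have hdd : ∀ b ∈ bnb n par (Wt W₀ X t) t, 1 ≤ dd c (f b) ∧ dd c (f b) ≤ N := by
    intro b hb
    obtain ⟨k1, k2, k3⟩ := hval b hb
    have hne : c ≠ f b := by
      rintro rfl
      exact h4.1 (mem_union_right _ k1)
    unfold dd
    omega
  refine ⟨?_, ?_, ?_, ?_, ?_⟩
  · intro i hi
    have hne : i ≠ t := fun h' => ht0 (h' ▸ hi)
    rw [Function.update_of_ne hne]
    exact h.agree i hi
  · rw [qrt_Wt_succ ht]
    exact h6.1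
  · intro x hx
    rw [qrt_Wt_succ ht] at hx
    rcases qrt_cases hpar hWn htn htW hx with ⟨k1, k2⟩ | ⟨k1, k2⟩ | ⟨b, hb, k⟩
    · rw [k2]
      exact h.rng x k1
    · rw [k1]
      exact ⟨h1, h2⟩
    · rw [k]
      exact hdd b hb
  · intro x hx hx0
    rw [qrt_Wt_succ ht] at hx
    rcases qrt_cases hpar hWn htn htW hx with ⟨k1, k2⟩ | ⟨k1, k2⟩ | ⟨b, hb, k⟩
    · rw [k2]
      exact h.new x k1 hx0
    · rw [k1]
      exact fun h' => h4.1 (mem_union_left _ h')
    · rw [k]
      exact fun h' => (h4.2.1 b hb).1 (mem_union_left _ h')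
  · intro v hv hvt
    by_cases hvt' : v = t
    · subst hvt'
      rw [Function.update_self]
      exact h3
    · rw [Function.update_of_ne hvt']
      exact h.ok v hv (by omega)

theorem qrT {ι : Type*} {n N : ℕ} {par : ℕ → ℕ} (hpar : IsPar n par) {W₀ X F : Finset ℕ}
    {f₀ : ℕ → ℕ} {Ok : ℕ → Prop} (hW : W₀ ⊆ range n) (hX : X ⊆ range n) (hd : Disjoint W₀ X)
    (h₀ : Set.InjOn (val par f₀) (items par W₀))
    (h₁ : ∀ x ∈ items par W₀, 1 ≤ val par f₀ x ∧ val par f₀ x ≤ N)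
    (I : Finset ι) (ξ : ι → ℕ → (ℕ → ℕ) → ℕ → ℝ)
    (hloc : ∀ i ∈ I, ∀ v ∈ X, ∀ f f' : ℕ → ℕ, (∀ w ∈ Wt W₀ X v, f w = f' w) →
      ∀ c, ξ i v f c = ξ i v f' c)
    (e V : ι → ℕ → ℝ) (b τ V₀ : ℝ) (hb0 : 0 ≤ b) (hτ : 0 < τ) (hb : τ * b ≤ 1)
    (hV₀ : ∀ i ∈ I, ∑ v ∈ X, V i v ≤ V₀)
    (L : ℕ → (ℕ → ℕ) → Finset ℕ) (p : ℕ → (ℕ → ℕ) → ℕ → ℝ)
    (hLloc : ∀ v ∈ X, ∀ f f' : ℕ → ℕ, (∀ w ∈ Wt W₀ X v, f w = f' w) → L v f = L v f')
    (hstep : ∀ v ∈ X, ∀ f, InvN N par W₀ X F f₀ Ok v f →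
      (∀ c ∈ L v f, 1 ≤ c ∧ c ≤ N ∧ Ok c ∧ okc n par (Wt W₀ X v) f (F ∪ vls par W₀ X v f) v c ∧
        0 ≤ p v f c) ∧ ∑ c ∈ L v f, p v f c = 1 ∧
      (∀ i ∈ I, ∀ c ∈ L v f, ξ i v f c ≤ b) ∧ (∀ i ∈ I, ∑ c ∈ L v f, p v f c * ξ i v f c ≤ e i v) ∧
      (∀ i ∈ I, ∑ c ∈ L v f, p v f c * ξ i v f c ^ 2 ≤ V i v)) :
    ∃ f : ℕ → ℕ, InvN N par W₀ X F f₀ Ok n f ∧
      (∀ v ∈ X, InvN N par W₀ X F f₀ Ok v f ∧ f v ∈ L v f) ∧ ∀ i ∈ I,
      ∑ v ∈ X, ξ i v f (f v) ≤ ∑ v ∈ X, e i v + (Real.log I.card + τ ^ 2 * V₀) / τ := by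
  classical
  -- the invariant
  set Inv : ℕ → (ℕ → ℕ) → Prop := fun t f => InvN N par W₀ X F f₀ Ok t f ∧ ∀ v ∈ X, v < t → f v ∈ L v f with hInv
  set Φ : ι → ℕ → (ℕ → ℕ) → ℝ := fun i t f => ∑ v ∈ X.filter (· < t), ξ i v f (f v) with hΦ
  set e' : ι → ℕ → ℝ := fun i t => if t ∈ X then e i t else 0 with he'
  set V' : ι → ℕ → ℝ := fun i t => if t ∈ X then V i t else 0 with hV'
  have hsum : ∀ g : ℕ → ℝ, ∑ t ∈ range n, (if t ∈ X then g t else 0) = ∑ v ∈ X, g v := by
    intro g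
    rw [← sum_filter]
    apply sum_congr _ fun _ _ => rfl
    ext v
    rw [mem_filter]
    exact ⟨fun h => h.2, fun h => ⟨hX h, h⟩⟩
  have hV₀' : ∀ i ∈ I, ∑ t ∈ range n, V' i t ≤ V₀ := by
    intro i hi
    rw [hsum]
    exact hV₀ i hi
  have hinit : Inv 0 f₀ := by
    have hW0 : Wt W₀ X 0 = W₀ := by
      unfold Wt
      rw [filter_false_of_mem (fun v _ => Nat.not_lt_zero v), union_empty]
    refine ⟨⟨fun _ _ => rfl, ?_, ?_, ?_, fun v _ hv => absurd hv (Nat.not_lt_zero v)⟩,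
      fun v _ hv => absurd hv (Nat.not_lt_zero v)⟩
    · rw [hW0]
      exact h₀
    · rw [hW0]
      exact h₁
    · intro x hx hx0
      rw [hW0] at hx
      exact absurd hx hx0
  have hst : ∀ t < n, ∀ f, Inv t f → ∃ (L' : Finset ℕ) (p' : ℕ → ℝ) (nx : ℕ → (ℕ → ℕ)),
      (∀ c ∈ L', 0 ≤ p' c) ∧ ∑ c ∈ L', p' c = 1 ∧ (∀ c ∈ L', Inv (t + 1) (nx c)) ∧
      (∀ i ∈ I, ∀ c ∈ L', Φ i (t + 1) (nx c) - Φ i t f ≤ b) ∧
      (∀ i ∈ I, ∑ c ∈ L', p' c * (Φ i (t + 1) (nx c) - Φ i t f) ≤ e' i t) ∧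
      (∀ i ∈ I, ∑ c ∈ L', p' c * (Φ i (t + 1) (nx c) - Φ i t f) ^ 2 ≤ V' i t) := by
    intro t htn f hf
    by_cases ht : t ∈ X
    · obtain ⟨k1, k2, k3, k4, k5⟩ := hstep t ht f hf.1
      have ht0 : t ∉ W₀ := fun h' => (Finset.disjoint_left.1 hd) h' ht
      have htW : ∀ v ≤ t, t ∉ Wt W₀ X v := by
        intro v hv
        unfold Wt
        rw [mem_union, mem_filter]
        rintro (h' | h')
        · exact ht0 h'
        · exact absurd h'.2 (not_lt.2 hv)
      have hagr : ∀ c, ∀ v ≤ t, ∀ w ∈ Wt W₀ X v, Function.update f t c w = f w := by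
        intro c v hv w hw
        have hne : w ≠ t := fun h' => htW v hv (h' ▸ hw)
        exact Function.update_of_ne hne _ _
      have hinc : ∀ i ∈ I, ∀ c, Φ i (t + 1) (Function.update f t c) - Φ i t f = ξ i t f c := by
        intro i hi c
        simp only [hΦ]
        rw [qrt_fil_succ ht, sum_insert (by simp)]
        have q1 : ξ i t (Function.update f t c) (Function.update f t c t) = ξ i t f c := by
          rw [Function.update_self]
          exact hloc i hi t ht _ _ (hagr c t le_rfl) c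
        have q2 : ∑ v ∈ X.filter (· < t), ξ i v (Function.update f t c) (Function.update f t c v) =
            ∑ v ∈ X.filter (· < t), ξ i v f (f v) := by
          apply sum_congr rfl
          intro v hv
          rw [mem_filter] at hv
          rw [Function.update_of_ne (Nat.ne_of_lt hv.2)]
          exact hloc i hi v hv.1 _ _ (hagr c v hv.2.le) (f v)
        rw [q1, q2]
        ring
      refine ⟨L t f, p t f, fun c => Function.update f t c, fun c hc => (k1 c hc).2.2.2.2, k2, ?_, ?_, ?_, ?_⟩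
      · intro c hc
        obtain ⟨m1, m2, m3, m4, m5⟩ := k1 c hc
        refine ⟨qrt_step hpar hW hX hd ht hf.1 m1 m2 m3 m4, ?_⟩
        intro v hv hvt
        change Function.update f t c v ∈ L v (Function.update f t c)
        by_cases hvt' : v = t
        · subst hvt'
          rw [Function.update_self, hLloc v hv _ _ (hagr c v le_rfl)]
          exact hc
        · have hlt : v < t := by omega
          rw [Function.update_of_ne hvt', hLloc v hv _ _ (hagr c v hlt.le)]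
          exact hf.2 v hv hlt
      · intro i hi c hc
        rw [hinc i hi c]
        exact k3 i hi c hc
      · intro i hi
        simp only [hinc i hi]
        have : e' i t = e i t := if_pos ht
        rw [this]
        exact k4 i hi
      · intro i hi
        simp only [hinc i hi]
        have : V' i t = V i t := if_pos ht
        rw [this]
        exact k5 i hi
    · have hfil : X.filter (· < t + 1) = X.filter (· < t) := qrt_fil_not ht
      have hWt : Wt W₀ X (t + 1) = Wt W₀ X t := by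
        unfold Wt
        rw [hfil]
      have hz : ∀ i, Φ i (t + 1) f - Φ i t f = 0 := by
        intro i
        simp only [hΦ]
        rw [hfil, sub_self]
      have hlt : ∀ v ∈ X, v < t + 1 → v < t := by
        intro v hv hvt
        have : v ≠ t := fun h => ht (h ▸ hv)
        omega
      refine ⟨{0}, fun _ => 1, fun _ => f, fun _ _ => zero_le_one, by simp, ?_, ?_, ?_, ?_⟩
      · intro c _
        refine ⟨⟨hf.1.agree, ?_, ?_, ?_, fun v hv hvt => hf.1.ok v hv (hlt v hv hvt)⟩,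
          fun v hv hvt => hf.2 v hv (hlt v hv hvt)⟩
        · rw [hWt]
          exact hf.1.inj
        · rw [hWt]
          exact hf.1.rng
        · rw [hWt]
          exact hf.1.new
      · intro i _ c _
        rw [hz]
        exact hb0
      · intro i _
        have : e' i t = 0 := if_neg ht
        rw [this]
        simp only [hz, mul_zero, sum_const_zero]
        exact le_rfl
      · intro i _
        have : V' i t = 0 := if_neg ht
        rw [this]
        simp only [hz]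
        simp
  obtain ⟨f, hf, hfI⟩ := qr0 n I Inv Φ e' V' b τ V₀ hτ hb hV₀' hst f₀ hinit
  refine ⟨f, hf.1, fun v hv => ⟨qrt_mono hf.1 (mem_range.1 (hX hv)).le, hf.2 v hv (mem_range.1 (hX hv))⟩, ?_⟩
  intro i hi
  have h := hfI i hi
  have e0 : Φ i 0 f₀ = 0 := by
    simp only [hΦ]
    rw [filter_false_of_mem (fun v _ => Nat.not_lt_zero v), sum_empty]
  have e1 : Φ i n f = ∑ v ∈ X, ξ i v f (f v) := by
    simp only [hΦ]
    rw [filter_true_of_mem (fun v hv => mem_range.1 (hX hv))]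
  have e2 : ∑ t ∈ range n, e' i t = ∑ v ∈ X, e i v := hsum _
  rw [e0, e1, e2, zero_add] at h
  exact h

end SSB
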