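import Pool.Agent.Lib.MP_8a819d_co.AT.Defs

/-!
# MP_8a819d_co, all large trees: the two core statements

`inn n par`: the inner vertices (vertices with children); `lvs n par v`: the childless children of `v`.

`CoreLH` (helper10): few inner vertices, no vertex with too many leaves, a closed set `P` of prescribed labels, at most `f₀ v` leaves at `v ∈ P`.
`CoreDP` (stream AT with a prescribed set): many inner vertices, a closed set `P` of prescribed labels. `G ⊆ P` is a bounded closed set which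
contains all the vertices of linear degree.
-/

set_option autoImplicit false

namespace SSB

open Finset

/-- inner vertices -/
def inn (n : ℕ) (par : ℕ → ℕ) : Finset ℕ := (range n).filter (fun v => (chs n par v).Nonempty)

/-- the childless children of `v` -/
def lvs (n : ℕ) (par : ℕ → ℕ) (v : ℕ) : Finset ℕ := (chs n par v).filter (fun c => chs n par c = ∅)

/-- `f` is an injective numbering of the items of `W` by positive labels -/
def Nmb (par : ℕ → ℕ) (W : Finset ℕ) (f : ℕ → ℕ) : Prop :=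
  Set.InjOn (val par f) (items par W) ∧ ∀ x ∈ items par W, 1 ≤ val par f x

/-- there is a simply sequential numbering which extends `f₀` on `P` -/
def SSext (n : ℕ) (par : ℕ → ℕ) (P : Finset ℕ) (f₀ : ℕ → ℕ) : Prop :=
  ∃ f : ℕ → ℕ, (∀ v ∈ P, f v = f₀ v) ∧ Set.InjOn (val par f) (items par (range n)) ∧
    ∀ x ∈ items par (range n), 1 ≤ val par f x ∧ val par f x ≤ 2 * n - 1

/-- few inner vertices -/
def CoreLH : Prop :=
  ∃ δ₀ : ℝ, 0 < δ₀ ∧ ∃ n₀ : ℕ, ∀ n : ℕ, n₀ ≤ n → ∀ par : ℕ → ℕ, IsPar n par → par 0 = 0 →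
    ((inn n par).card : ℝ) ≤ δ₀ * n →
    (∀ v < n, (lvs n par v).card ^ 25 ≤ n ^ 24) →
    ∀ P : Finset ℕ, P ⊆ inn n par → Clo n par P → P.card ^ 10 ≤ n ^ 3 →
    ∀ f₀ : ℕ → ℕ, Nmb par P f₀ → (∀ v ∈ P, f₀ v % 2 = 1 ∧ f₀ v ^ 5 ≤ n ^ 2) →
      (∀ v ∈ P, (lvs n par v).card ≤ f₀ v) → SSext n par P f₀

/-- many inner vertices -/
def CoreDP : Prop :=
  ∀ δ : ℝ, 0 < δ → ∃ γ : ℝ, 0 < γ ∧ ∀ g₀ c₁ : ℕ, ∃ b : ℕ, 1 ≤ b ∧ ∃ n₀ : ℕ, ∀ n : ℕ, n₀ ≤ n →
    ∀ par : ℕ → ℕ, IsPar n par → par 0 = 0 → 2 ≤ pdeg n par 0 →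
    δ * n ≤ ((inn n par).card : ℝ) →
    ∀ G P : Finset ℕ, G ⊆ P → P ⊆ inn n par → Clo n par G → Clo n par P → G.card ≤ g₀ →
    P.card ^ 10 ≤ n ^ 3 → (∀ v < n, v ∉ G → (pdeg n par v : ℝ) ≤ γ * n) →
    ∀ f₀ : ℕ → ℕ, Nmb par P f₀ → (∀ v ∈ P, f₀ v % 2 = 1 ∧ f₀ v ^ 5 ≤ n ^ 2) →
      (∀ v ∈ G, f₀ v ≤ c₁) → (∀ v ∈ P \ G, f₀ v % (4 * b) = 1 ∧ b ≤ f₀ v) →
      SSext n par P f₀

end SSB
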