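import Pool.Agent.Lib.MP_8a819d_co.LH.RDef

/-!
# MP_8a819d_co, all large trees: stripping

`SSW par W f`: `f` numbers the items of `W` injectively by labels in `[1, 2|W| - 1]`.

`strip1`: `W` contains `0` and all the parents, `R` is a set of `f v` further vertices with parent `v ∈ W`. The numbering `f` of `W` is extended to `W ∪ R`.
PROOF. `K = 2|W| - 1`. Let `g : R → [1, |R|]` be a bijection; `f' c = K + f v + g c` for `c ∈ R`, `f' = f` elsewhere. The items of `W ∪ R` are those of `W`, `inl c` and `inr c`
(`c ∈ R`; `c ≥ 1` as `0 ∈ W`; the parent of every vertex `≥ 1` is in `W`, so not in `R`). Values: of `inl c` in `(K + f v, K + 2 f v]`, of `inr c`: `dd (f' c) (f v) = K + g c` in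
`(K, K + f v]`, `|W ∪ R| = |W| + f v`. For `i ∈ W` the values are the old ones.

`strip`: all the vertices outside `W` have their parent in `W`, and for every `v ∈ W` their number is divisible by `f v`.
PROOF. Strong induction on `|range n \ W|`. If `range n \ W` is empty: `W = range n`. Otherwise let `c` be an element, `v = par c`, `Rv = {c ∈ range n \ W : par c = v}`, nonempty, `f v ∣ |Rv|`, so
`f v ≤ |Rv|`; `R ⊆ Rv` with `f v` elements (`f v ≥ 1`: value of the item `inl v`). `strip1` gives `f'` on `W ∪ R`; the divisibility holds for `W ∪ R`: for `u ∈ W`: `u = v`: `|Rv| - f v`, `u ≠ v`: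
unchanged; for `u ∈ R`: no vertex has the parent `u` (its parent is in `W`): `0`.
-/

set_option autoImplicit false

namespace SSB

open Finset

/-- `f` numbers the items of `W` by `1, ..., 2 |W| - 1` -/
def SSW (par : ℕ → ℕ) (W : Finset ℕ) (f : ℕ → ℕ) : Prop :=
  Set.InjOn (val par f) (items par W) ∧ ∀ x ∈ items par W, 1 ≤ val par f x ∧ val par f x ≤ 2 * W.card - 1

private theorem red1a_num (R : Finset ℕ) :
    ∃ g : ℕ → ℕ, (∀ c ∈ R, 1 ≤ g c ∧ g c ≤ R.card) ∧ ∀ c ∈ R, ∀ c' ∈ R, g c = g c' → c = c' := by
  classical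
  refine ⟨fun c => if h : c ∈ R then (R.equivFin ⟨c, h⟩).val + 1 else 0, ?_, ?_⟩
  · intro c hc
    have h1 := (R.equivFin ⟨c, hc⟩).isLt
    simp only [dif_pos hc]
    omega
  · intro c hc c' hc' h
    simp only [dif_pos hc, dif_pos hc'] at h
    have h1 : R.equivFin ⟨c, hc⟩ = R.equivFin ⟨c', hc'⟩ := Fin.ext (by omega)
    have h2 := R.equivFin.injective h1
    exact congrArg Subtype.val h2

theorem strip1 {n : ℕ} {par : ℕ → ℕ} {W R : Finset ℕ} {f : ℕ → ℕ} {v : ℕ} (hW : W ⊆ range n) (h0 : 0 ∈ W)
    (hcl : ∀ u < n, 1 ≤ u → par u ∈ W) (hf : SSW par W f) (hv : v ∈ W) (hR : R ⊆ range n \ W)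
    (hRv : ∀ c ∈ R, par c = v) (hRc : R.card = f v) :
    ∃ f' : ℕ → ℕ, (∀ i ∈ W, f' i = f i) ∧ SSW par (W ∪ R) f' := by
  classical
  obtain ⟨g, hg1, hg2⟩ := red1a_num R
  have hRW : ∀ c ∈ R, c < n ∧ c ∉ W := by
    intro c hc
    have h1 := hR hc
    rw [mem_sdiff, mem_range] at h1
    exact h1
  have hWR : ∀ i ∈ W, i ∉ R := fun i hi h => (hRW i h).2 hi
  have hWc : 1 ≤ W.card := card_pos.2 ⟨0, h0⟩
  have hdisj : Disjoint W R := disjoint_left.2 hWR
  have hcard : (W ∪ R).card = W.card + R.card := card_union_of_disjoint hdisj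
  set K : ℕ := 2 * W.card - 1 with hK
  set f' : ℕ → ℕ := fun c => if c ∈ R then K + f v + g c else f c with hf'
  have hfW : ∀ i ∈ W, f' i = f i := fun i hi => by
    simp only [hf', if_neg (hWR i hi)]
  have hfR : ∀ i ∈ R, f' i = K + f v + g i := fun i hi => by
    simp only [hf', if_pos hi]
  have hcls : ∀ x ∈ items par (W ∪ R),
      (x ∈ items par W ∧ val par f' x = val par f x ∧ 1 ≤ val par f x ∧ val par f x ≤ K) ∨
      (∃ c ∈ R, x = Sum.inr c ∧ val par f' x = K + g c) ∨
      (∃ c ∈ R, x = Sum.inl c ∧ val par f' x = K + f v + g c) := by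
    rintro (i | i) hx
    · rw [mem_items_inl, mem_union] at hx
      rcases hx with hi | hi
      · left
        have h1 : Sum.inl i ∈ items par W := mem_items_inl.2 hi
        exact ⟨h1, by rw [val_inl, val_inl, hfW i hi], hf.2 _ h1⟩
      · right; right
        exact ⟨i, hi, rfl, by rw [val_inl, hfR i hi]⟩
    · rw [mem_items_inr] at hx
      obtain ⟨hi, hi1, -⟩ := hx
      rw [mem_union] at hi
      have hin : i < n := by
        rcases hi with hi | hi
        · exact mem_range.1 (hW hi)
        · exact (hRW i hi).1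
      have hp := hcl i hin hi1
      rcases hi with hi | hi
      · left
        have h1 : Sum.inr i ∈ items par W := mem_items_inr.2 ⟨hi, hi1, hp⟩
        exact ⟨h1, by rw [val_inr, val_inr, hfW i hi, hfW _ hp], hf.2 _ h1⟩
      · right; left
        refine ⟨i, hi, rfl, ?_⟩
        rw [val_inr, hfR i hi, hRv i hi, hfW v hv]
        unfold dd
        omega
  refine ⟨f', hfW, ?_, ?_⟩
  · intro x hx y hy hxy
    rcases hcls x hx with ⟨hx1, hx2, hx3, hx4⟩ | ⟨c, hc, rfl, hx2⟩ | ⟨c, hc, rfl, hx2⟩ <;>
    rcases hcls y hy with ⟨hy1, hy2, hy3, hy4⟩ | ⟨d, hd, rfl, hy2⟩ | ⟨d, hd, rfl, hy2⟩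
    · exact hf.1 hx1 hy1 (by rw [← hx2, ← hy2, hxy])
    · have := hg1 d hd; omega
    · have := hg1 d hd; omega
    · have := hg1 c hc; omega
    · rw [hg2 c hc d hd (by omega)]
    · have := hg1 c hc; have := hg1 d hd; omega
    · have := hg1 c hc; omega
    · have := hg1 c hc; have := hg1 d hd; omega
    · rw [hg2 c hc d hd (by omega)]
  · intro x hx
    rw [hcard]
    rcases hcls x hx with ⟨hx1, hx2, hx3, hx4⟩ | ⟨c, hc, rfl, hx2⟩ | ⟨c, hc, rfl, hx2⟩
    · omega
    · have := hg1 c hc; omega
    · have := hg1 c hc; omega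

theorem strip {n : ℕ} {par : ℕ → ℕ} {W : Finset ℕ} {f : ℕ → ℕ} (hW : W ⊆ range n) (h0 : 0 ∈ W)
    (hcl : ∀ u < n, 1 ≤ u → par u ∈ W) (hf : SSW par W f)
    (hdiv : ∀ v ∈ W, f v ∣ ((range n \ W).filter (fun c => par c = v)).card) :
    ∃ f' : ℕ → ℕ, (∀ i ∈ W, f' i = f i) ∧ SSW par (range n) f' := by
  suffices H : ∀ k : ℕ, ∀ (W : Finset ℕ) (f : ℕ → ℕ), (range n \ W).card = k → W ⊆ range n →
      0 ∈ W → (∀ u < n, 1 ≤ u → par u ∈ W) → SSW par W f →
      (∀ v ∈ W, f v ∣ ((range n \ W).filter (fun c => par c = v)).card) →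
      ∃ f' : ℕ → ℕ, (∀ i ∈ W, f' i = f i) ∧ SSW par (range n) f' from
    H _ W f rfl hW h0 hcl hf hdiv
  clear hW h0 hcl hf hdiv
  intro k
  induction k using Nat.strong_induction_on with
  | _ k ih =>
    intro W f hk hW h0 hcl hf hdiv
    by_cases hem : range n \ W = ∅
    · have hWn : W = range n := Finset.Subset.antisymm hW (sdiff_eq_empty_iff_subset.mp hem)
      refine ⟨f, fun _ _ => rfl, ?_⟩
      rw [← hWn]
      exact hf
    · obtain ⟨c, hc⟩ := Finset.nonempty_iff_ne_empty.mpr hem
      have hcW : c ∉ W := (mem_sdiff.mp hc).2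
      have hcn : c < n := mem_range.mp (mem_sdiff.mp hc).1
      have hc1 : 1 ≤ c := by
        rcases Nat.eq_zero_or_pos c with h | h
        · exact absurd (h ▸ h0) hcW
        · exact h
      have hv : par c ∈ W := hcl c hcn hc1
      have hcR : c ∈ (range n \ W).filter (fun u => par u = par c) :=
        mem_filter.mpr ⟨hc, rfl⟩
      have hle : f (par c) ≤ ((range n \ W).filter (fun u => par u = par c)).card :=
        Nat.le_of_dvd (Finset.card_pos.mpr ⟨c, hcR⟩) (hdiv (par c) hv)
      obtain ⟨R, hRsub, hRc⟩ := Finset.exists_subset_card_eq hle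
      have hfv : 1 ≤ f (par c) := (hf.2 (Sum.inl (par c)) (mem_items_inl.mpr hv)).1
      have hR1 : R ⊆ range n \ W := fun x hx => (mem_filter.mp (hRsub hx)).1
      have hR2 : ∀ x ∈ R, par x = par c := fun x hx => (mem_filter.mp (hRsub hx)).2
      obtain ⟨f1, hf1, hS1⟩ := strip1 hW h0 hcl hf hv hR1 hR2 hRc
      obtain ⟨r, hr⟩ : R.Nonempty := Finset.card_pos.mp (by omega)
      have hlt : (range n \ (W ∪ R)).card < k := by
        rw [← hk]
        apply Finset.card_lt_card
        refine ⟨fun x hx => ?_, fun hh => ?_⟩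
        · rw [mem_sdiff, mem_union, not_or] at hx
          exact mem_sdiff.mpr ⟨hx.1, hx.2.1⟩
        · have h1 := hh (hR1 hr)
          rw [mem_sdiff, mem_union, not_or] at h1
          exact h1.2.2 hr
      have hWR : W ∪ R ⊆ range n := by
        intro x hx
        rcases mem_union.mp hx with h | h
        · exact hW h
        · exact (mem_sdiff.mp (hR1 h)).1
      obtain ⟨f2, hf2, hS2⟩ := ih _ hlt (W ∪ R) f1 rfl hWR (mem_union_left _ h0)
        (fun u hu hu1 => mem_union_left _ (hcl u hu hu1)) hS1 (by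
          intro u hu
          by_cases huW : u ∈ W
          · rw [hf1 u huW]
            by_cases huv : u = par c
            · rw [huv]
              have hset : (range n \ (W ∪ R)).filter (fun x => par x = par c) =
                  ((range n \ W).filter (fun x => par x = par c)) \ R := by
                ext x
                simp only [mem_filter, mem_sdiff, mem_union, not_or]
                tauto
              rw [hset, Finset.card_sdiff_of_subset hRsub, hRc]
              exact Nat.dvd_sub (hdiv (par c) hv) (dvd_refl _)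
            · have hset : (range n \ (W ∪ R)).filter (fun x => par x = u) =
                  (range n \ W).filter (fun x => par x = u) := by
                ext x
                simp only [mem_filter, mem_sdiff, mem_union, not_or]
                constructor
                · rintro ⟨⟨h1, h2, _⟩, h4⟩
                  exact ⟨⟨h1, h2⟩, h4⟩
                · rintro ⟨⟨h1, h2⟩, h4⟩
                  refine ⟨⟨h1, h2, fun h5 => huv ?_⟩, h4⟩
                  rw [← h4, hR2 x h5]
              rw [hset]
              exact hdiv u huW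
          · have hset : (range n \ (W ∪ R)).filter (fun x => par x = u) = ∅ := by
              rw [Finset.filter_eq_empty_iff]
              intro x hx hxu
              rw [mem_sdiff, mem_union, not_or] at hx
              have hx1 : 1 ≤ x := by
                rcases Nat.eq_zero_or_pos x with h | h
                · exact absurd (h ▸ h0) hx.2.1
                · exact h
              exact huW (hxu ▸ hcl x (mem_range.mp hx.1) hx1)
            rw [hset, Finset.card_empty]
            exact dvd_zero _)
      refine ⟨f2, fun i hi => ?_, hS2⟩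
      rw [hf2 i (mem_union_left _ hi), hf1 i hi]

end SSB
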