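import Pool.Agent.Lib.MP_8a819d_co.LH.Red1
import Pool.Agent.Lib.MP_8a819d_co.AT.CloE

/-!
# MP_8a819d_co, all large trees: the parent array of a subtree

`W` contains `0` and with every vertex its parent. `e : [0, |W|) → W` is the increasing enumeration, `idx` its inverse, `par₀ i = idx (par (e i))` the parent array of the subtree `W`.

PROOF. `relabel`: `e i = W.orderEmbOfFin rfl ⟨i, _⟩` for `i < |W|` (anything for the other `i`), `idx v = #(W.filter (· < v))` (or the inverse of the bijection `Fin |W| ≃ W`); both are strictly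
increasing on `[0,|W|)` resp. on `W`. `par₀ i = if i < |W| then idx (par (e i)) else 0`. `e 0 = 0` as `0` is the minimum of `W`.
`Sub`-lemmas: everything is transported by the bijection `e`.
* `Sub.items`: `items par₀ (P.image idx)` is the image of `items par P` under `Sum.map idx idx` for `P ⊆ W` (`par₀ (idx v) = idx (par v)`, `1 ≤ idx v ↔ 1 ≤ v`; `idx` injective on `W`), and the value of
  `Sum.map idx idx x` under `f ∘ e` is the value of `x` under `f`. Conversely for a numbering `f₀` of `range |W| = W.image idx`, `f₀ ∘ idx`.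
* `Sub.chs`: `chs |W| par₀ (idx v) = ((chs n par v).filter (· ∈ W)).image idx`.
-/

set_option autoImplicit false

namespace SSB

open Finset

/-- `par₀` is the parent array of the subtree `W`, with the enumeration `e` and its inverse `idx` -/
structure Sub (n : ℕ) (par : ℕ → ℕ) (W : Finset ℕ) (e idx par₀ : ℕ → ℕ) : Prop where
  Wn : W ⊆ range n
  W0 : 0 ∈ W
  cl : ∀ v ∈ W, 1 ≤ v → par v ∈ W
  e_mem : ∀ i < W.card, e i ∈ W
  idx_e : ∀ i < W.card, idx (e i) = i
  idx_lt : ∀ v ∈ W, idx v < W.card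
  e_idx : ∀ v ∈ W, e (idx v) = v
  mono : ∀ i < W.card, ∀ j < W.card, i < j → e i < e j
  e0 : e 0 = 0
  idx0 : idx 0 = 0
  par_e : ∀ i < W.card, par₀ i = idx (par (e i))

private theorem red2a_idx_inj {n : ℕ} {par e idx par₀ : ℕ → ℕ} {W : Finset ℕ}
    (s : Sub n par W e idx par₀) {a b : ℕ} (ha : a ∈ W) (hb : b ∈ W) (h : idx a = idx b) : a = b := by
  rw [← s.e_idx a ha, ← s.e_idx b hb, h]

private theorem red2a_idx_zero {n : ℕ} {par e idx par₀ : ℕ → ℕ} {W : Finset ℕ}
    (s : Sub n par W e idx par₀) {v : ℕ} (hv : v ∈ W) : idx v = 0 ↔ v = 0 := by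
  constructor
  · intro h
    rw [← s.e_idx v hv, h, s.e0]
  · intro h
    rw [h, s.idx0]

private theorem red2a_e_pos {n : ℕ} {par e idx par₀ : ℕ → ℕ} {W : Finset ℕ}
    (s : Sub n par W e idx par₀) {i : ℕ} (hi : i < W.card) (h1 : 1 ≤ i) : 1 ≤ e i := by
  have h := s.mono 0 (by omega) i hi (by omega)
  omega

theorem relabel {n : ℕ} {par : ℕ → ℕ} {W : Finset ℕ} (hW : W ⊆ range n) (h0 : 0 ∈ W)
    (hcl : ∀ v ∈ W, 1 ≤ v → par v ∈ W) : ∃ e idx par₀ : ℕ → ℕ, Sub n par W e idx par₀ := by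
  classical
  set e : ℕ → ℕ := fun i => if h : i < W.card then W.orderEmbOfFin rfl ⟨i, h⟩ else 0 with he
  set idx : ℕ → ℕ := fun v => (W.filter (· < v)).card with hidx
  have he1 : ∀ i (h : i < W.card), e i = W.orderEmbOfFin rfl ⟨i, h⟩ := by
    intro i h
    rw [he]
    exact dif_pos h
  have hmem : ∀ i < W.card, e i ∈ W := by
    intro i h
    rw [he1 i h]
    exact Finset.orderEmbOfFin_mem W rfl _
  have hmono : ∀ i < W.card, ∀ j < W.card, i < j → e i < e j := by
    intro i hi j hj hij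
    rw [he1 i hi, he1 j hj]
    exact (W.orderEmbOfFin rfl).strictMono (by exact hij)
  have hsurj : ∀ v ∈ W, ∃ i < W.card, e i = v := by
    intro v hv
    have h1 : v ∈ Set.range (W.orderEmbOfFin rfl) := by
      rw [Finset.range_orderEmbOfFin]
      exact hv
    obtain ⟨i, hi⟩ := h1
    exact ⟨i.1, i.2, by rw [he1 i.1 i.2]; exact hi⟩
  have hinj : ∀ i < W.card, ∀ j < W.card, e i = e j → i = j := by
    intro i hi j hj hij
    rcases lt_trichotomy i j with h | h | h
    · exact absurd hij (hmono i hi j hj h).ne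
    · exact h
    · exact absurd hij (hmono j hj i hi h).ne'
  have hidxe : ∀ i < W.card, idx (e i) = i := by
    intro i hi
    have h1 : W.filter (· < e i) = (range i).image e := by
      ext v
      rw [mem_filter, mem_image]
      constructor
      · rintro ⟨hv, hlt⟩
        obtain ⟨j, hj, rfl⟩ := hsurj v hv
        refine ⟨j, mem_range.mpr ?_, rfl⟩
        by_contra hji
        rcases (not_lt.mp hji).lt_or_eq with h | h
        · exact absurd hlt (hmono i hi j hj h).le.not_gt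
        · rw [h] at hlt
          exact lt_irrefl _ hlt
      · rintro ⟨j, hj, rfl⟩
        rw [mem_range] at hj
        exact ⟨hmem j (hj.trans hi), hmono j (hj.trans hi) i hi hj⟩
    rw [hidx]
    simp only
    rw [h1, Finset.card_image_of_injOn, card_range]
    intro a ha b hb hab
    rw [coe_range, Set.mem_Iio] at ha hb
    exact hinj a (ha.trans hi) b (hb.trans hi) hab
  have hidxlt : ∀ v ∈ W, idx v < W.card := by
    intro v hv
    obtain ⟨i, hi, rfl⟩ := hsurj v hv
    rw [hidxe i hi]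
    exact hi
  have hei : ∀ v ∈ W, e (idx v) = v := by
    intro v hv
    obtain ⟨i, hi, rfl⟩ := hsurj v hv
    rw [hidxe i hi]
  have he0 : e 0 = 0 := by
    obtain ⟨i, hi, hi0⟩ := hsurj 0 h0
    rcases Nat.eq_zero_or_pos i with h | h
    · rw [← h]
      rw [h] at hi0
      rw [h]
      exact hi0
    · have h1 := hmono 0 (by omega) i hi h
      omega
  refine ⟨e, idx, fun i => if i < W.card then idx (par (e i)) else 0, ?_⟩
  exact
    { Wn := hW
      W0 := h0
      cl := hcl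
      e_mem := hmem
      idx_e := hidxe
      idx_lt := hidxlt
      e_idx := hei
      mono := hmono
      e0 := he0
      idx0 := by
        rw [hidx]
        simp
      par_e := fun i hi => if_pos hi }

theorem Sub.isPar {n : ℕ} {par e idx par₀ : ℕ → ℕ} {W : Finset ℕ} (s : Sub n par W e idx par₀) (hpar : IsPar n par)
    (h00 : par 0 = 0) : IsPar W.card par₀ ∧ par₀ 0 = 0 := by
  refine ⟨?_, ?_⟩
  · intro i hi1 hi
    rw [s.par_e i hi]
    have he1 := red2a_e_pos s hi hi1
    have hen : e i < n := mem_range.mp (s.Wn (s.e_mem i hi))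
    have hpW : par (e i) ∈ W := s.cl _ (s.e_mem i hi) he1
    have hlt := hpar (e i) he1 hen
    by_contra hcon
    rcases (not_lt.mp hcon).lt_or_eq with h | h
    · have h1 := s.mono i hi _ (s.idx_lt _ hpW) h
      rw [s.e_idx _ hpW] at h1
      omega
    · have h1 := s.e_idx _ hpW
      rw [← h] at h1
      omega
  · have h1 : 0 < W.card := Finset.card_pos.mpr ⟨0, s.W0⟩
    rw [s.par_e 0 h1, s.e0, h00, s.idx0]

theorem Sub.chs_eq {n : ℕ} {par e idx par₀ : ℕ → ℕ} {W : Finset ℕ} (s : Sub n par W e idx par₀) {v : ℕ} (hv : v ∈ W) :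
    chs W.card par₀ (idx v) = ((chs n par v).filter (· ∈ W)).image idx ∧
      (chs W.card par₀ (idx v)).card = ((chs n par v).filter (· ∈ W)).card := by
  have hset : chs W.card par₀ (idx v) = ((chs n par v).filter (· ∈ W)).image idx := by
    ext i
    rw [mem_chs, mem_image]
    constructor
    · rintro ⟨hi, hi1, hp⟩
      have hc := s.e_mem i hi
      have hc1 := red2a_e_pos s hi hi1
      rw [s.par_e i hi] at hp
      have hpv := red2a_idx_inj s (s.cl _ hc hc1) hv hp
      refine ⟨e i, mem_filter.mpr ⟨mem_chs.mpr ⟨mem_range.mp (s.Wn hc), hc1, hpv⟩, hc⟩, s.idx_e i hi⟩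
    · rintro ⟨c, hc, rfl⟩
      rw [mem_filter, mem_chs] at hc
      obtain ⟨⟨_, hc1, hpc⟩, hcW⟩ := hc
      refine ⟨s.idx_lt c hcW, ?_, ?_⟩
      · rcases Nat.eq_zero_or_pos (idx c) with h | h
        · have := (red2a_idx_zero s hcW).mp h
          omega
        · exact h
      · rw [s.par_e _ (s.idx_lt c hcW), s.e_idx c hcW, hpc]
  refine ⟨hset, ?_⟩
  rw [hset]
  apply Finset.card_image_of_injOn
  intro a ha b hb hab
  rw [mem_coe, mem_filter] at ha hb
  exact red2a_idx_inj s ha.2 hb.2 hab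

theorem Sub.pdeg_eq {n : ℕ} {par e idx par₀ : ℕ → ℕ} {W : Finset ℕ} (s : Sub n par W e idx par₀) {v : ℕ} (hv : v ∈ W) :
    pdeg W.card par₀ (idx v) = ((chs n par v).filter (· ∈ W)).card + (if v = 0 then 0 else 1) := by
  unfold pdeg
  rw [(s.chs_eq hv).2]
  by_cases h : v = 0
  · rw [if_pos h, if_pos ((red2a_idx_zero s hv).mpr h)]
  · rw [if_neg h, if_neg (fun hh => h ((red2a_idx_zero s hv).mp hh))]

private theorem red2b_mem_items {par : ℕ → ℕ} {W : Finset ℕ} {x : ℕ ⊕ ℕ} : x ∈ items par W ↔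
    (∃ i ∈ W, x = Sum.inl i) ∨ (∃ i ∈ W, 1 ≤ i ∧ par i ∈ W ∧ x = Sum.inr i) := by
  simp only [items, mem_union, mem_image, mem_filter]
  constructor
  · rintro (⟨i, hi, rfl⟩ | ⟨i, ⟨hi, h1, h2⟩, rfl⟩)
    · exact Or.inl ⟨i, hi, rfl⟩
    · exact Or.inr ⟨i, hi, h1, h2, rfl⟩
  · rintro (⟨i, hi, rfl⟩ | ⟨i, hi, h1, h2, rfl⟩)
    · exact Or.inl ⟨i, hi, rfl⟩
    · exact Or.inr ⟨i, ⟨hi, h1, h2⟩, rfl⟩

private theorem red2b_e_inj {n : ℕ} {par e idx par₀ : ℕ → ℕ} {W : Finset ℕ} (s : Sub n par W e idx par₀) {i j : ℕ}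
    (hi : i < W.card) (hj : j < W.card) (h : e i = e j) : i = j := by
  rw [← s.idx_e i hi, ← s.idx_e j hj, h]

private theorem red2b_idx_inj {n : ℕ} {par e idx par₀ : ℕ → ℕ} {W : Finset ℕ} (s : Sub n par W e idx par₀) {u v : ℕ}
    (hu : u ∈ W) (hv : v ∈ W) (h : idx u = idx v) : u = v := by
  rw [← s.e_idx u hu, ← s.e_idx v hv, h]

private theorem red2b_e_pos {n : ℕ} {par e idx par₀ : ℕ → ℕ} {W : Finset ℕ} (s : Sub n par W e idx par₀) {i : ℕ}
    (hi : i < W.card) (h1 : 1 ≤ i) : 1 ≤ e i := by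
  rcases Nat.eq_zero_or_pos (e i) with h | h
  · have h2 := s.idx_e i hi
    rw [h, s.idx0] at h2
    omega
  · exact h

private theorem red2b_idx_pos {n : ℕ} {par e idx par₀ : ℕ → ℕ} {W : Finset ℕ} (s : Sub n par W e idx par₀) {v : ℕ}
    (hv : v ∈ W) (h1 : 1 ≤ v) : 1 ≤ idx v := by
  rcases Nat.eq_zero_or_pos (idx v) with h | h
  · have h2 := s.e_idx v hv
    rw [h, s.e0] at h2
    omega
  · exact h

private theorem red2b_img {n : ℕ} {par e idx par₀ : ℕ → ℕ} {W P : Finset ℕ} (s : Sub n par W e idx par₀) (hP : P ⊆ W)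
    {b : ℕ} (hb : b ∈ P.image idx) : b < W.card ∧ e b ∈ P := by
  obtain ⟨u, hu, rfl⟩ := mem_image.mp hb
  refine ⟨s.idx_lt u (hP hu), ?_⟩
  rw [s.e_idx u (hP hu)]
  exact hu

private theorem red2b_par {n : ℕ} {par e idx par₀ : ℕ → ℕ} {W : Finset ℕ} (s : Sub n par W e idx par₀) {i : ℕ}
    (hi : i < W.card) (h1 : 1 ≤ i) : e (par₀ i) = par (e i) := by
  rw [s.par_e i hi, s.e_idx _ (s.cl _ (s.e_mem i hi) (red2b_e_pos s hi h1))]

theorem Sub.clo {n : ℕ} {par e idx par₀ : ℕ → ℕ} {W P : Finset ℕ} (s : Sub n par W e idx par₀) (hP : P ⊆ W)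
    (h : Clo n par P) : Clo W.card par₀ (P.image idx) := by
  intro i hi hni
  have hv : e i ∈ W := s.e_mem i hi
  have hvn : e i < n := mem_range.mp (s.Wn hv)
  have hvP : e i ∉ P := by
    intro h1
    apply hni
    rw [mem_image]
    exact ⟨e i, h1, s.idx_e i hi⟩
  refine le_trans ?_ (h (e i) hvn hvP)
  refine card_le_card_of_injOn e ?_ ?_
  · intro b hb
    rw [mem_coe, mem_bnb] at hb
    obtain ⟨hbP, hb⟩ := hb
    obtain ⟨hbW, heb⟩ := red2b_img s hP hbP
    rw [mem_coe, mem_bnb]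
    refine ⟨heb, ?_⟩
    rcases hb with ⟨h1, h2, h3⟩ | ⟨h1, h2, h3⟩
    · left
      refine ⟨red2b_e_pos s hi h1, hvn, ?_⟩
      rw [← h3, red2b_par s hi h1]
    · right
      refine ⟨red2b_e_pos s hbW h1, mem_range.mp (s.Wn (hP heb)), ?_⟩
      rw [← h3, red2b_par s hbW h1]
  · intro b hb b' hb' hbb
    rw [mem_coe, mem_bnb] at hb hb'
    exact red2b_e_inj s (red2b_img s hP hb.1).1 (red2b_img s hP hb'.1).1 hbb

theorem Sub.nmb {n : ℕ} {par e idx par₀ : ℕ → ℕ} {W P : Finset ℕ} (s : Sub n par W e idx par₀) (hP : P ⊆ W) {f : ℕ → ℕ}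
    (h : Nmb par P f) : Nmb par₀ (P.image idx) (fun i => f (e i)) := by
  have key : ∀ x ∈ items par₀ (P.image idx), Sum.map e e x ∈ items par P ∧
      val par₀ (fun i => f (e i)) x = val par f (Sum.map e e x) := by
    intro x hx
    rcases red2b_mem_items.mp hx with ⟨j, hj, rfl⟩ | ⟨j, hj, h1, h2, rfl⟩
    · refine ⟨red2b_mem_items.mpr (Or.inl ⟨e j, (red2b_img s hP hj).2, rfl⟩), rfl⟩
    · obtain ⟨hjW, hej⟩ := red2b_img s hP hj
      have h3 := red2b_par s hjW h1
      refine ⟨red2b_mem_items.mpr (Or.inr ⟨e j, hej, red2b_e_pos s hjW h1, ?_, rfl⟩), ?_⟩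
      · rw [← h3]
        exact (red2b_img s hP h2).2
      · change dd (f (e j)) (f (e (par₀ j))) = dd (f (e j)) (f (par (e j)))
        rw [h3]
  have hlt : ∀ x ∈ items par₀ (P.image idx), Sum.elim (fun i => i) (fun i => i) x < W.card := by
    intro x hx
    rcases red2b_mem_items.mp hx with ⟨j, hj, rfl⟩ | ⟨j, hj, h1, h2, rfl⟩
    · exact (red2b_img s hP hj).1
    · exact (red2b_img s hP hj).1
  refine ⟨?_, ?_⟩
  · intro x hx y hy hxy
    rw [mem_coe] at hx hy
    obtain ⟨hx1, hx2⟩ := key x hx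
    obtain ⟨hy1, hy2⟩ := key y hy
    rw [hx2, hy2] at hxy
    have h1 := h.1 hx1 hy1 hxy
    have h2 := hlt x hx
    have h3 := hlt y hy
    cases x with
    | inl i =>
      cases y with
      | inl j => exact congrArg Sum.inl (red2b_e_inj s h2 h3 (Sum.inl.inj h1))
      | inr j => exact absurd h1 (by simp)
    | inr i =>
      cases y with
      | inl j => exact absurd h1 (by simp)
      | inr j => exact congrArg Sum.inr (red2b_e_inj s h2 h3 (Sum.inr.inj h1))
  · intro x hx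
    obtain ⟨hx1, hx2⟩ := key x hx
    rw [hx2]
    exact h.2 _ hx1

theorem Sub.ssw {n : ℕ} {par e idx par₀ : ℕ → ℕ} {W P : Finset ℕ} (s : Sub n par W e idx par₀) (hP : P ⊆ W) {f : ℕ → ℕ}
    (h : SSext W.card par₀ (P.image idx) (fun i => f (e i))) :
    ∃ f' : ℕ → ℕ, (∀ v ∈ P, f' v = f v) ∧ SSW par W f' := by
  obtain ⟨g, hg, hinj, hval⟩ := h
  have key : ∀ x ∈ items par W, Sum.map idx idx x ∈ items par₀ (range W.card) ∧
      val par (fun v => g (idx v)) x = val par₀ g (Sum.map idx idx x) := by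
    intro x hx
    rcases red2b_mem_items.mp hx with ⟨v, hv, rfl⟩ | ⟨v, hv, h1, h2, rfl⟩
    · exact ⟨red2b_mem_items.mpr (Or.inl ⟨idx v, mem_range.mpr (s.idx_lt v hv), rfl⟩), rfl⟩
    · have h3 : par₀ (idx v) = idx (par v) := by
        rw [s.par_e _ (s.idx_lt v hv), s.e_idx v hv]
      refine ⟨red2b_mem_items.mpr (Or.inr ⟨idx v, mem_range.mpr (s.idx_lt v hv), red2b_idx_pos s hv h1, ?_, rfl⟩), ?_⟩
      · rw [h3]
        exact mem_range.mpr (s.idx_lt _ h2)
      · change dd (g (idx v)) (g (idx (par v))) = dd (g (idx v)) (g (par₀ (idx v)))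
        rw [h3]
  have hW : ∀ x ∈ items par W, Sum.elim (fun i => i) (fun i => i) x ∈ W := by
    intro x hx
    rcases red2b_mem_items.mp hx with ⟨v, hv, rfl⟩ | ⟨v, hv, h1, h2, rfl⟩
    · exact hv
    · exact hv
  refine ⟨fun v => g (idx v), ?_, ?_, ?_⟩
  · intro v hv
    have h1 : g (idx v) = f (e (idx v)) := hg (idx v) (mem_image_of_mem idx hv)
    rw [s.e_idx v (hP hv)] at h1
    exact h1
  · intro x hx y hy hxy
    rw [mem_coe] at hx hy
    obtain ⟨hx1, hx2⟩ := key x hx
    obtain ⟨hy1, hy2⟩ := key y hy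
    rw [hx2, hy2] at hxy
    have h1 := hinj hx1 hy1 hxy
    have h2 := hW x hx
    have h3 := hW y hy
    cases x with
    | inl i =>
      cases y with
      | inl j => exact congrArg Sum.inl (red2b_idx_inj s h2 h3 (Sum.inl.inj h1))
      | inr j => exact absurd h1 (by simp)
    | inr i =>
      cases y with
      | inl j => exact absurd h1 (by simp)
      | inr j => exact congrArg Sum.inr (red2b_idx_inj s h2 h3 (Sum.inr.inj h1))
  · intro x hx
    obtain ⟨hx1, hx2⟩ := key x hx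
    rw [hx2]
    exact hval _ hx1

end SSB
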