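import Pool.Agent.Lib.MP_8a819d_co.LH.RDef
import Pool.Agent.Lib.MP_8a819d_co.AT.CloE

/-!
# MP_8a819d_co, all large trees: peeling

`lvs v` = childless children of `v`, `inn` = inner vertices, `Rm P = |inn| + ∑ v ∈ inn \ P, |lvs v|`.

* `inn_clo`: `inn` is closed: a vertex outside has no children, so at most one neighbour (its parent).
* `lvs_sum_le`: `|inn| + ∑ v ∈ inn, |lvs v| ≤ n` : the sets `inn` and `lvs v` (`v ∈ inn`) are disjoint subsets of `range n` (`c ∈ lvs v` has the parent `v` and no children).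
* `inn_chs`: `∑ v ∈ inn, #(chs v ∩ inn) ≤ |inn|`: the sets `chs v ∩ inn` are disjoint subsets of `inn`.
* `peel_aux`: induction on `m`. Let `M` be the smallest closed set containing `X` (`clo_exists`), `|M| ≤ 2|X|`; `M ⊆ inn` as `inn` is closed. If `s |lvs v| ≤ Rm M` for all `v ∈ inn \ M` take `P = M`.
  Otherwise let `v ∈ inn \ M`, `s |lvs v| > Rm M`. `m = 0`: `Rm M ≥ |inn| ≥ 1` (as `Rm M * 1 < 1` is assumed, contradiction). `m + 1`: apply the induction hypothesis to `X' = insert v X`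
  (`|X'| ≤ |X| + 1`); its smallest closed set `M'` contains `M` (as `M' ⊇ X` is closed) and `v`, so `Rm M' + |lvs v| ≤ Rm M` and `s Rm M' ≤ s Rm M - s |lvs v| ≤ (s-1) Rm M`;
  `s Rm M' (s-1)^m ≤ (s-1)^(m+1) Rm M < s^(m+1)`, so `Rm M' (s-1)^m < s^m`.
  (The hypothesis of the induction: `∀ M, X ⊆ M → Clo M → Rm M * (s-1)^m < s^m` for all closed `M ⊇ X`; then nothing about the smallest closed set is needed: for closed `M' ⊇ X'`
  intersect... simplest: state the hypothesis for the set `M` given by `clo_exists`, i.e. for every `M` with `X ⊆ M`, `Clo M`, `∀ H, X ⊆ H → Clo H → M ⊆ H`.)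
* `pow_aux`: `2 (s-1)^s ≤ s^s` for `s ≥ 1` (Bernoulli), so `n (s-1)^(s L) < s^(s L)` if `n < 2^L`, `s ≥ 1`.
* `peel`: `peel_aux` with `m = s (log₂ n + 1)`, `Rm M ≤ n` (`lvs_sum_le`).
-/

set_option autoImplicit false

namespace SSB

open Finset

/-- remaining mass -/
def Rm (n : ℕ) (par : ℕ → ℕ) (P : Finset ℕ) : ℕ := (inn n par).card + ∑ v ∈ inn n par \ P, (lvs n par v).card

private theorem red3a_mem_chs {n : ℕ} {par : ℕ → ℕ} {i c : ℕ} : c ∈ chs n par i ↔ c < n ∧ 1 ≤ c ∧ par c = i := by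
  simp [chs]

theorem inn_clo {n : ℕ} {par : ℕ → ℕ} : Clo n par (inn n par) := by
  intro v hv hvi
  have hemp : chs n par v = ∅ := by
    by_contra hne
    apply hvi
    rw [inn, Finset.mem_filter]
    exact ⟨Finset.mem_range.2 hv, Finset.nonempty_iff_ne_empty.2 hne⟩
  have hsub : bnb n par (inn n par) v ⊆ {par v} := by
    intro b hb
    rw [mem_bnb] at hb
    rcases hb.2 with h | h
    · exact Finset.mem_singleton.2 h.2.2.symm
    · exfalso
      have : b ∈ chs n par v := red3a_mem_chs.2 ⟨h.2.1, h.1, h.2.2⟩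
      rw [hemp] at this
      exact Finset.notMem_empty _ this
  have := Finset.card_le_card hsub
  rwa [Finset.card_singleton] at this

theorem lvs_sum_le {n : ℕ} {par : ℕ → ℕ} : (inn n par).card + ∑ v ∈ inn n par, (lvs n par v).card ≤ n := by
  classical
  have hdis : ∀ v ∈ inn n par, ∀ w ∈ inn n par, v ≠ w → Disjoint (lvs n par v) (lvs n par w) := by
    intro v _ w _ hvw
    rw [Finset.disjoint_left]
    intro c hc hc'
    rw [lvs, Finset.mem_filter, red3a_mem_chs] at hc hc'
    exact hvw (hc.1.2.2.symm.trans hc'.1.2.2)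
  rw [← Finset.card_biUnion hdis, ← Finset.card_union_of_disjoint]
  · have hsub : inn n par ∪ (inn n par).biUnion (lvs n par) ⊆ range n := by
      intro x hx
      rw [Finset.mem_union, Finset.mem_biUnion] at hx
      rcases hx with hx | ⟨v, _, hx⟩
      · rw [inn, Finset.mem_filter] at hx
        exact hx.1
      · rw [lvs, Finset.mem_filter, red3a_mem_chs] at hx
        exact Finset.mem_range.2 hx.1.1
    have := Finset.card_le_card hsub
    rwa [Finset.card_range] at this
  · rw [Finset.disjoint_left]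
    intro x hx hx'
    rw [Finset.mem_biUnion] at hx'
    obtain ⟨v, _, hx'⟩ := hx'
    rw [lvs, Finset.mem_filter] at hx'
    rw [inn, Finset.mem_filter, hx'.2] at hx
    exact Finset.not_nonempty_empty hx.2

theorem inn_chs {n : ℕ} {par : ℕ → ℕ} :
    ∑ v ∈ inn n par, ((chs n par v).filter (· ∈ inn n par)).card ≤ (inn n par).card := by
  classical
  have hdis : ∀ v ∈ inn n par, ∀ w ∈ inn n par, v ≠ w →
      Disjoint ((chs n par v).filter (· ∈ inn n par)) ((chs n par w).filter (· ∈ inn n par)) := by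
    intro v _ w _ hvw
    rw [Finset.disjoint_left]
    intro c hc hc'
    rw [Finset.mem_filter, red3a_mem_chs] at hc hc'
    exact hvw (hc.1.2.2.symm.trans hc'.1.2.2)
  rw [← Finset.card_biUnion hdis]
  apply Finset.card_le_card
  intro x hx
  rw [Finset.mem_biUnion] at hx
  obtain ⟨v, _, hx⟩ := hx
  rw [Finset.mem_filter] at hx
  exact hx.2

private theorem red3a_bern (m k : ℕ) : m ^ k * (m + k) ≤ (m + 1) ^ k * m := by
  induction k with
  | zero => simp
  | succ k ih =>
    have h1 : (m + 1) * (m ^ k * (m + k)) ≤ (m + 1) * ((m + 1) ^ k * m) := Nat.mul_le_mul_left _ ih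
    have h2 : (m + 1) ^ (k + 1) * m = (m + 1) * ((m + 1) ^ k * m) := by ring
    have h3 : m ^ (k + 1) * (m + (k + 1)) ≤ (m + 1) * (m ^ k * (m + k)) := by
      have h4 : (m + 1) * (m ^ k * (m + k)) = m ^ (k + 1) * (m + (k + 1)) + m ^ k * k := by ring
      omega
    omega

private theorem red3a_two (m : ℕ) : 2 * m ^ (m + 1) ≤ (m + 1) ^ (m + 1) := by
  rcases Nat.eq_zero_or_pos m with h | h
  · subst h
    norm_num
  · have h1 := red3a_bern m (m + 1)
    have h2 : 2 * m ^ (m + 1) * m ≤ (m + 1) ^ (m + 1) * m := by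
      refine le_trans ?_ h1
      have : m ^ (m + 1) * (m + (m + 1)) = 2 * m ^ (m + 1) * m + m ^ (m + 1) := by ring
      omega
    exact Nat.le_of_mul_le_mul_right h2 h

theorem pow_aux {s n L : ℕ} (hs : 1 ≤ s) (hn : n < 2 ^ L) : n * (s - 1) ^ (s * L) < s ^ (s * L) := by
  obtain ⟨m, rfl⟩ : ∃ m, s = m + 1 := ⟨s - 1, by omega⟩
  rw [Nat.add_sub_cancel]
  have hkey : 2 ^ L * m ^ ((m + 1) * L) ≤ (m + 1) ^ ((m + 1) * L) := by
    rw [pow_mul, pow_mul, ← mul_pow]
    exact Nat.pow_le_pow_left (red3a_two m) L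
  rcases Nat.eq_zero_or_pos (m ^ ((m + 1) * L)) with h | h
  · rw [h, Nat.mul_zero]
    exact Nat.pow_pos (Nat.succ_pos m)
  · exact lt_of_lt_of_le (Nat.mul_lt_mul_of_pos_right hn h) hkey

private theorem red3b_Rm_le {n : ℕ} {par : ℕ → ℕ} {M M' : Finset ℕ} (hMM : M ⊆ M') {v : ℕ}
    (hv : v ∈ inn n par \ M) (hv' : v ∈ M') :
    Rm n par M' + (lvs n par v).card ≤ Rm n par M := by
  unfold Rm
  have h1 : insert v (inn n par \ M') ⊆ inn n par \ M := by
    intro x hx
    rw [mem_insert] at hx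
    rcases hx with rfl | hx
    · exact hv
    · rw [mem_sdiff] at hx ⊢
      exact ⟨hx.1, fun h => hx.2 (hMM h)⟩
  have h2 : v ∉ inn n par \ M' := by
    rw [mem_sdiff]
    exact fun h => h.2 hv'
  have h3 : ∑ u ∈ insert v (inn n par \ M'), (lvs n par u).card
      ≤ ∑ u ∈ inn n par \ M, (lvs n par u).card := Finset.sum_le_sum_of_subset h1
  rw [sum_insert h2] at h3
  omega

private theorem peel_aux {n : ℕ} {par : ℕ → ℕ} (hpar : IsPar n par) (hi : (inn n par).Nonempty)
    {s : ℕ} (hs : 1 ≤ s) (m : ℕ) : ∀ X : Finset ℕ, X ⊆ inn n par →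
    (∀ M : Finset ℕ, X ⊆ M → Clo n par M → (∀ H : Finset ℕ, X ⊆ H → Clo n par H → M ⊆ H) →
      Rm n par M * (s - 1) ^ m < s ^ m) →
    ∃ P : Finset ℕ, X ⊆ P ∧ P ⊆ inn n par ∧ Clo n par P ∧ P.card ≤ 2 * (X.card + m) ∧
      ∀ v ∈ inn n par \ P, s * (lvs n par v).card ≤ Rm n par P := by
  induction m with
  | zero =>
    intro X hX hM
    have hXr : X ⊆ range n := fun x hx => (mem_filter.mp (hX hx)).1
    obtain ⟨M, h1, _, h3, _, h5⟩ := clo_exists hpar X hXr
    exfalso
    have h6 := hM M h1 h3 h5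
    rw [pow_zero, pow_zero, mul_one] at h6
    have h7 : 1 ≤ (inn n par).card := Finset.card_pos.mpr hi
    unfold Rm at h6
    omega
  | succ m ih =>
    intro X hX hM
    have hXr : X ⊆ range n := fun x hx => (mem_filter.mp (hX hx)).1
    obtain ⟨M, h1, _, h3, h4, h5⟩ := clo_exists hpar X hXr
    have hMi : M ⊆ inn n par := h5 _ hX inn_clo
    have h6 := hM M h1 h3 h5
    by_cases hgood : ∀ v ∈ inn n par \ M, s * (lvs n par v).card ≤ Rm n par M
    · exact ⟨M, h1, hMi, h3, by omega, hgood⟩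
    · push Not at hgood
      obtain ⟨v, hv, hvs⟩ := hgood
      have hvi : v ∈ inn n par := (mem_sdiff.mp hv).1
      obtain ⟨P, hP1, hP2, hP3, hP4, hP5⟩ := ih (insert v X)
        (by
          intro x hx
          rw [mem_insert] at hx
          rcases hx with rfl | hx
          · exact hvi
          · exact hX hx)
        (by
          intro M' hM'1 hM'2 _
          have hMM : M ⊆ M' := h5 M' (fun x hx => hM'1 (mem_insert_of_mem hx)) hM'2
          have hle := red3b_Rm_le hMM hv (hM'1 (mem_insert_self v X))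
          obtain ⟨t, rfl⟩ : ∃ t, s = t + 1 := ⟨s - 1, by omega⟩
          rw [Nat.add_sub_cancel] at h6 ⊢
          have h7 : (t + 1) * Rm n par M' ≤ t * Rm n par M := by
            have h8 := Nat.mul_le_mul_left (t + 1) hle
            rw [Nat.mul_add] at h8
            have h9 : (t + 1) * Rm n par M = t * Rm n par M + Rm n par M := by ring
            omega
          have h10 : (t + 1) * (Rm n par M' * t ^ m) < (t + 1) * (t + 1) ^ m := by
            calc (t + 1) * (Rm n par M' * t ^ m) = ((t + 1) * Rm n par M') * t ^ m := by ring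
              _ ≤ (t * Rm n par M) * t ^ m := Nat.mul_le_mul_right _ h7
              _ = Rm n par M * t ^ (m + 1) := by ring
              _ < (t + 1) ^ (m + 1) := h6
              _ = (t + 1) * (t + 1) ^ m := by ring
          exact Nat.lt_of_mul_lt_mul_left h10)
      refine ⟨P, fun x hx => hP1 (mem_insert_of_mem hx), hP2, hP3, ?_, hP5⟩
      have h11 := Finset.card_insert_le v X
      omega

theorem peel {n : ℕ} {par : ℕ → ℕ} (hpar : IsPar n par) (hi : (inn n par).Nonempty) {s : ℕ} (hs : 1 ≤ s)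
    {X : Finset ℕ} (hX : X ⊆ inn n par) :
    ∃ P : Finset ℕ, X ⊆ P ∧ P ⊆ inn n par ∧ Clo n par P ∧ P.card ≤ 2 * (X.card + s * (Nat.log 2 n + 1)) ∧
      ∀ v ∈ inn n par \ P, s * (lvs n par v).card ≤ Rm n par P := by
  have hLn : n < 2 ^ (Nat.log 2 n + 1) := Nat.lt_pow_succ_log_self (by norm_num) n
  refine peel_aux hpar hi hs (s * (Nat.log 2 n + 1)) X hX ?_
  intro M _ _ _
  have h1 : Rm n par M ≤ n := by
    have h2 := lvs_sum_le (n := n) (par := par)
    have h3 : ∑ v ∈ inn n par \ M, (lvs n par v).card ≤ ∑ v ∈ inn n par, (lvs n par v).card :=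
      Finset.sum_le_sum_of_subset sdiff_subset
    unfold Rm
    omega
  exact lt_of_le_of_lt (Nat.mul_le_mul_right _ h1) (pow_aux hs hLn)

end SSB
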