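import Pool.Agent.Lib.MP_8a819d_co.LH.RDef
import Pool.Agent.Lib.MP_8a819d_co.AT.GreedyN

/-!
# MP_8a819d_co, all large trees: labels of the peeled vertices; numbers

* `num_P`: `greedy_num` twice, with a large bound `N = 10^4 b (|P| + g₀ + 1)`: first `W = ∅`, `X = G`, `F = ∅`, set of labels = odd numbers `≤ 100 (g₀ + 1)` (at least `50 g₀ + 50 ≥ 15 g₀ + 10`
  elements); then `W = G`, `X = P \ G`, `F = ∅`, set of labels `{4 b i + 1 : 1 ≤ i ≤ T}` with `T = 10 g₀ + 15 |P| + 10` elements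
  (`|items par G| ≤ 2 |G|`: `items_le` of Cnt). Closed sets: at most one child in `W` (`Clo`; children in `W` are neighbours in `W`). Labels of `G` stay. All labels are odd
  (`4 b i + 1` is odd), `≤ 4 b T + 1`, `≥ b` on `P \ G`.
* `numbers`: elementary estimates for large `N₁` (`N₁ ≤ m ≤ n ≤ 1025 N₁^5`, `s = sqrt (sqrt N₁)`, `C` a constant, `L = log₂ n + 1`): `s ≥ 1`; `m ≤ s^25` [`(s+1)^4 > N₁`, so `m ≤ n ≤ 1025 (s+1)^20 ≤ s^25` for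
  `s ≥ 9`]; `(C s L)^10 ≤ m^3` and `(C s L)^5 ≤ m^2` [`s^4 ≤ N₁ ≤ m`, `L ≤ 12 + 5 log₂ N₁ + 5`, so `C L ≤ N₁^(1/20)` for large `N₁`, `(C s L)^10 ≤ N₁^(5/2 + 1/2)`, `(C s L)^5 ≤ N₁^(5/4 + 1/4)`];
  `m^24 ≤ (γ m)^25`-type statement: if `l^25 ≤ m^24` then `l ≤ γ/2 m` (`(l/m)^25 ≤ 1/m`).
-/

set_option autoImplicit false

namespace SSB

open Finset

theorem num_P {n : ℕ} {par : ℕ → ℕ} (hpar : IsPar n par) {G P : Finset ℕ} (hGP : G ⊆ P) (hP : P ⊆ range n)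
    (hG : Clo n par G) {g₀ b : ℕ} (hg : G.card ≤ g₀) (hb : 1 ≤ b) :
    ∃ f : ℕ → ℕ, Nmb par P f ∧ (∀ v ∈ P, f v % 2 = 1 ∧ f v ≤ 100 * b * (P.card + g₀ + 1)) ∧
      (∀ v ∈ G, f v ≤ 100 * (g₀ + 1)) ∧ ∀ v ∈ P \ G, f v % (4 * b) = 1 ∧ b ≤ f v := by
  have hGn : G ⊆ range n := hGP.trans hP
  obtain ⟨N, hN⟩ : ∃ N, N = 10 ^ 4 * b * (P.card + g₀ + 1) := ⟨_, rfl⟩
  have hN1 : 100 * b * (P.card + g₀ + 1) ≤ N := by
    rw [hN, mul_assoc, mul_assoc]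
    exact Nat.mul_le_mul_right _ (by norm_num)
  have hN2 : 100 * (g₀ + 1) ≤ 100 * b * (P.card + g₀ + 1) := by
    nlinarith [Nat.zero_le P.card, Nat.mul_le_mul hb (le_refl (P.card + g₀ + 1))]
  -- the labels of `G`
  obtain ⟨P₁, hP₁⟩ : ∃ P₁, P₁ = (Icc (0 + 1) (100 * (g₀ + 1))).filter (fun x => x % 2 = 1) :=
    ⟨_, rfl⟩
  have hP₁mem : ∀ x ∈ P₁, x % 2 = 1 ∧ 1 ≤ x ∧ x ≤ 100 * (g₀ + 1) := by
    intro x hx
    rw [hP₁, mem_filter, mem_Icc] at hx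
    exact ⟨hx.2, by omega, hx.1.2⟩
  have hP₁c : 100 * (g₀ + 1) ≤ 2 * P₁.card + 0 + 1 := by
    rw [hP₁]
    exact odd_card 0 (100 * (g₀ + 1))
  have hP₁N : P₁ ⊆ Icc 1 N := by
    intro x hx
    obtain ⟨_, h1, h2⟩ := hP₁mem x hx
    exact mem_Icc.2 ⟨h1, h2.trans (hN2.trans hN1)⟩
  have hit : items par (∅ : Finset ℕ) = ∅ := by
    have h := items_le par (∅ : Finset ℕ)
    rw [card_empty, mul_zero] at h
    exact card_eq_zero.1 (Nat.le_zero.1 h)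
  obtain ⟨f₁, -, hf₁i, hf₁X, hf₁v, -⟩ := greedy_num (N := N) hpar (W := ∅) (X := G) (F := ∅) (P := P₁)
    (f := fun _ => 0) (empty_subset _) hGn (disjoint_empty_left _)
    (by
      intro x _
      have h0 : (chs n par x).filter (fun c => c ∈ (∅ : Finset ℕ)) = ∅ := by
        apply filter_eq_empty_iff.2
        intro c _
        exact notMem_empty c
      rw [h0, card_empty]
      exact Nat.zero_le _)
    (by
      rw [hit, coe_empty]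
      exact Set.injOn_empty _)
    (by
      intro x hx
      rw [hit] at hx
      exact absurd hx (notMem_empty x))
    hP₁N
    (by
      simp only [hit, card_empty]
      omega)
  rw [empty_union] at hf₁i hf₁v
  -- the labels of the other vertices
  obtain ⟨T, hT⟩ : ∃ T, T = 10 * g₀ + 15 * P.card + 10 := ⟨_, rfl⟩
  obtain ⟨P₂, hP₂⟩ : ∃ P₂, P₂ = (Icc 1 T).image (fun i => 4 * b * i + 1) := ⟨_, rfl⟩
  have hbT : 4 * b * T + 1 ≤ 100 * b * (P.card + g₀ + 1) := by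
    rw [hT]
    nlinarith [Nat.zero_le (b * P.card), Nat.zero_le (b * g₀)]
  have hP₂mem : ∀ x ∈ P₂, ∃ i, 1 ≤ i ∧ i ≤ T ∧ x = 4 * b * i + 1 := by
    intro x hx
    rw [hP₂, mem_image] at hx
    obtain ⟨i, hi, rfl⟩ := hx
    rw [mem_Icc] at hi
    exact ⟨i, hi.1, hi.2, rfl⟩
  have hP₂le : ∀ x ∈ P₂, x ≤ 100 * b * (P.card + g₀ + 1) := by
    intro x hx
    obtain ⟨i, _, hi, rfl⟩ := hP₂mem x hx
    exact le_trans (Nat.add_le_add_right (Nat.mul_le_mul_left _ hi) 1) hbT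
  have hP₂c : P₂.card = T := by
    rw [hP₂, card_image_of_injective, Nat.card_Icc, Nat.add_sub_cancel]
    intro i j hij
    have h1 : 4 * b * i = 4 * b * j := Nat.add_right_cancel hij
    exact Nat.eq_of_mul_eq_mul_left (by omega) h1
  have hP₂N : P₂ ⊆ Icc 1 N := by
    intro x hx
    have h1 := hP₂le x hx
    obtain ⟨i, _, _, rfl⟩ := hP₂mem x hx
    exact mem_Icc.2 ⟨by omega, h1.trans hN1⟩
  obtain ⟨f₂, hf₂W, hf₂i, hf₂X, hf₂v, -⟩ := greedy_num (N := N) hpar (W := G) (X := P \ G) (F := ∅)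
    (P := P₂) (f := f₁) hGn (sdiff_subset.trans hP) disjoint_sdiff
    (by
      intro x hx
      rw [mem_sdiff] at hx
      refine le_trans (card_le_card ?_) (hG x (mem_range.1 (hP hx.1)) hx.2)
      intro c hc
      rw [mem_filter] at hc
      obtain ⟨hc1, hc2⟩ := hc
      rw [mem_chs] at hc1
      exact mem_filter.2 ⟨hc2, Or.inr ⟨hc1.2.1, hc1.1, hc1.2.2⟩⟩)
    hf₁i hf₁v hP₂N
    (by
      have h1 := items_le par G
      have h2 : (P \ G).card ≤ P.card := card_le_card sdiff_subset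
      rw [hP₂c, hT, card_empty]
      omega)
  rw [union_sdiff_of_subset hGP] at hf₂i hf₂v
  refine ⟨f₂, ⟨hf₂i, fun x hx => (hf₂v x hx).1⟩, ?_, ?_, ?_⟩
  · intro v hv
    by_cases hvG : v ∈ G
    · obtain ⟨h1, _, h2⟩ := hP₁mem _ (hf₁X v hvG)
      rw [hf₂W v hvG]
      exact ⟨h1, h2.trans hN2⟩
    · have h1 := hf₂X v (mem_sdiff.2 ⟨hv, hvG⟩)
      refine ⟨?_, hP₂le _ h1⟩
      obtain ⟨i, _, _, h2⟩ := hP₂mem _ h1
      rw [h2, mul_assoc]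
      omega
  · intro v hv
    rw [hf₂W v hv]
    exact (hP₁mem _ (hf₁X v hv)).2.2
  · intro v hv
    obtain ⟨i, hi, _, h2⟩ := hP₂mem _ (hf₂X v hv)
    rw [h2]
    constructor
    · rw [add_comm, Nat.add_mul_mod_self_left]
      exact Nat.mod_eq_of_lt (by omega)
    · nlinarith

private theorem red4b_log (C : ℕ) : ∃ K₀ : ℕ, ∀ k : ℕ, K₀ ≤ k → (C * (6 * k)) ^ 20 ≤ 2 ^ k := by
  have h1 := tendsto_pow_const_div_const_pow_of_one_lt 20 (one_lt_two : (1 : ℝ) < 2)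
  have h2 : (0 : ℝ) < 1 / ((6 * C : ℝ) ^ 20 + 1) := by positivity
  have h3 := h1.eventually (gt_mem_nhds h2)
  obtain ⟨K₀, h4⟩ := Filter.eventually_atTop.1 h3
  refine ⟨K₀, fun k hk => ?_⟩
  have h5 := h4 k hk
  have h6 : (0 : ℝ) < 2 ^ k := by positivity
  rw [div_lt_div_iff₀ h6 (by positivity), one_mul] at h5
  have h7 : ((C * (6 * k)) ^ 20 : ℝ) ≤ 2 ^ k := by
    have h8 : ((C * (6 * k)) ^ 20 : ℝ) = (k : ℝ) ^ 20 * (6 * C) ^ 20 := by ring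
    rw [h8]
    have h9 : (0 : ℝ) ≤ (k : ℝ) ^ 20 := by positivity
    nlinarith
  exact_mod_cast h7

theorem numbers (C : ℕ) : ∃ N₀ : ℕ, ∀ N₁ : ℕ, N₀ ≤ N₁ → ∀ m n s : ℕ, N₁ ≤ m → m ≤ n → n ≤ 1025 * N₁ ^ 5 →
    s = Nat.sqrt (Nat.sqrt N₁) → 1 ≤ s ∧ m ≤ s ^ 25 ∧ (C * (s * (Nat.log 2 n + 1))) ^ 10 ≤ m ^ 3 ∧
      (C * (s * (Nat.log 2 n + 1))) ^ 5 ≤ m ^ 2 := by
  obtain ⟨K₀, hK⟩ := red4b_log C
  refine ⟨2 ^ (max K₀ 28), ?_⟩
  intro N₁ hN m n s hNm hmn hn hs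
  have hN28 : 2 ^ 28 ≤ N₁ := (Nat.pow_le_pow_right (by norm_num) (le_max_right _ _)).trans hN
  have hNK : 2 ^ K₀ ≤ N₁ := (Nat.pow_le_pow_right (by norm_num) (le_max_left _ _)).trans hN
  have hN0 : N₁ ≠ 0 := by
    have : 0 < 2 ^ 28 := by positivity
    omega
  -- bounds for `s`
  have hs128 : 128 ≤ s := by
    rw [hs, Nat.le_sqrt, Nat.le_sqrt]
    calc 128 * 128 * (128 * 128) = 2 ^ 28 := by norm_num
      _ ≤ N₁ := hN28
  have hs4 : s ^ 4 ≤ N₁ := by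
    have h1 : s * s ≤ Nat.sqrt N₁ := by rw [hs]; exact Nat.sqrt_le _
    calc s ^ 4 = (s * s) * (s * s) := by ring
      _ ≤ Nat.sqrt N₁ * Nat.sqrt N₁ := Nat.mul_le_mul h1 h1
      _ ≤ N₁ := Nat.sqrt_le _
  have hs5 : N₁ < (s + 1) ^ 4 := by
    have h1 : Nat.sqrt N₁ < (s + 1) * (s + 1) := by rw [hs]; exact Nat.lt_succ_sqrt _
    have h2 : Nat.sqrt N₁ + 1 ≤ (s + 1) * (s + 1) := h1
    calc N₁ < (Nat.sqrt N₁ + 1) * (Nat.sqrt N₁ + 1) := Nat.lt_succ_sqrt _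
      _ ≤ ((s + 1) * (s + 1)) * ((s + 1) * (s + 1)) := Nat.mul_le_mul h2 h2
      _ = (s + 1) ^ 4 := by ring
  have hms : m ≤ s ^ 25 := by
    calc m ≤ 1025 * N₁ ^ 5 := hmn.trans hn
      _ ≤ 1025 * ((s + 1) ^ 4) ^ 5 := Nat.mul_le_mul_left _ (Nat.pow_le_pow_left hs5.le 5)
      _ ≤ 1025 * ((2 * s) ^ 4) ^ 5 := by
          refine Nat.mul_le_mul_left _ (Nat.pow_le_pow_left (Nat.pow_le_pow_left (by omega) 4) 5)
      _ = (1025 * 2 ^ 20) * s ^ 20 := by ring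
      _ ≤ 128 ^ 5 * s ^ 20 := Nat.mul_le_mul_right _ (by norm_num)
      _ ≤ s ^ 5 * s ^ 20 := Nat.mul_le_mul_right _ (Nat.pow_le_pow_left hs128 5)
      _ = s ^ 25 := by ring
  -- bounds for the logarithm
  have hk28 : 28 ≤ Nat.log 2 N₁ := (Nat.le_log_iff_pow_le (by norm_num) hN0).2 hN28
  have hkK : K₀ ≤ Nat.log 2 N₁ := (Nat.le_log_iff_pow_le (by norm_num) hN0).2 hNK
  have hk1 : 2 ^ Nat.log 2 N₁ ≤ N₁ := Nat.pow_log_le_self 2 hN0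
  have hk2 : N₁ < 2 ^ (Nat.log 2 N₁ + 1) := Nat.lt_pow_succ_log_self (by norm_num) N₁
  have hL : Nat.log 2 n + 1 ≤ 6 * Nat.log 2 N₁ := by
    have h1 : n < 2 ^ (5 * Nat.log 2 N₁ + 16) := by
      calc n ≤ 1025 * N₁ ^ 5 := hn
        _ ≤ 1025 * (2 ^ (Nat.log 2 N₁ + 1)) ^ 5 := Nat.mul_le_mul_left _ (Nat.pow_le_pow_left hk2.le 5)
        _ < 2 ^ 11 * (2 ^ (Nat.log 2 N₁ + 1)) ^ 5 := Nat.mul_lt_mul_of_pos_right (by norm_num) (by positivity)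
        _ = 2 ^ (5 * Nat.log 2 N₁ + 16) := by ring
    have h2 := Nat.log_lt_of_lt_pow' (b := 2) (by omega) h1
    omega
  have hCL : (C * (Nat.log 2 n + 1)) ^ 20 ≤ m := by
    calc (C * (Nat.log 2 n + 1)) ^ 20 ≤ (C * (6 * Nat.log 2 N₁)) ^ 20 :=
          Nat.pow_le_pow_left (Nat.mul_le_mul_left _ hL) 20
      _ ≤ 2 ^ Nat.log 2 N₁ := hK _ hkK
      _ ≤ N₁ := hk1
      _ ≤ m := hNm
  have h20 : (C * (s * (Nat.log 2 n + 1))) ^ 20 ≤ m ^ 6 := by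
    calc (C * (s * (Nat.log 2 n + 1))) ^ 20 = (C * (Nat.log 2 n + 1)) ^ 20 * (s ^ 4) ^ 5 := by ring
      _ ≤ m * m ^ 5 := Nat.mul_le_mul hCL (Nat.pow_le_pow_left (hs4.trans hNm) 5)
      _ = m ^ 6 := by ring
  have hm1 : 1 ≤ m := by omega
  refine ⟨by omega, hms, ?_, ?_⟩
  · refine le_of_pow_le_pow_left₀ (n := 2) (by norm_num) (by positivity) ?_
    calc ((C * (s * (Nat.log 2 n + 1))) ^ 10) ^ 2 = (C * (s * (Nat.log 2 n + 1))) ^ 20 := by ring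
      _ ≤ m ^ 6 := h20
      _ = (m ^ 3) ^ 2 := by ring
  · refine le_of_pow_le_pow_left₀ (n := 4) (by norm_num) (by positivity) ?_
    calc ((C * (s * (Nat.log 2 n + 1))) ^ 5) ^ 4 = (C * (s * (Nat.log 2 n + 1))) ^ 20 := by ring
      _ ≤ m ^ 6 := h20
      _ ≤ m ^ 8 := Nat.pow_le_pow_right hm1 (by norm_num)
      _ = (m ^ 2) ^ 4 := by ring

theorem small_root {γ : ℝ} (hγ : 0 < γ) : ∃ m₀ : ℕ, ∀ m : ℕ, m₀ ≤ m → ∀ l : ℕ, l ^ 25 ≤ m ^ 24 →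
    (l : ℝ) ≤ γ * m := by
  refine ⟨⌈(1 / γ) ^ 25⌉₊ + 1, fun m hm l hl => ?_⟩
  have h1 : (1 / γ) ^ 25 < (m : ℝ) := by
    have h2 : ((⌈(1 / γ) ^ 25⌉₊ : ℕ) : ℝ) + 1 ≤ m := by exact_mod_cast hm
    have h3 := Nat.le_ceil ((1 / γ) ^ 25)
    linarith
  have hm0 : (0 : ℝ) < m := lt_of_le_of_lt (by positivity) h1
  have h4 : 1 < γ ^ 25 * m := by
    have h5 : γ ^ 25 * (1 / γ) ^ 25 = 1 := by
      rw [← mul_pow, mul_one_div_cancel hγ.ne', one_pow]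
    calc 1 = γ ^ 25 * (1 / γ) ^ 25 := h5.symm
      _ < γ ^ 25 * m := mul_lt_mul_of_pos_left h1 (by positivity)
  by_contra hc
  rw [not_le] at hc
  have h6 : (γ * m) ^ 25 < (l : ℝ) ^ 25 := pow_lt_pow_left₀ hc (by positivity) (by norm_num)
  have h7 : (l : ℝ) ^ 25 ≤ (m : ℝ) ^ 24 := by exact_mod_cast hl
  have h8 : (m : ℝ) ^ 24 * 1 < (m : ℝ) ^ 24 * (γ ^ 25 * m) := mul_lt_mul_of_pos_left h4 (by positivity)
  have h9 : (γ * m) ^ 25 = (m : ℝ) ^ 24 * (γ ^ 25 * m) := by ring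
  linarith

end SSB
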