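import Pool.Agent.Lib.MP_8a819d_co.LH.Red2
import Pool.Agent.Lib.MP_8a819d_co.LH.Red3

/-!
# MP_8a819d_co, all large trees: the subtree that is kept
-/

set_option autoImplicit false

namespace SSB

open Finset

theorem mem_inn {n : ℕ} {par : ℕ → ℕ} {v : ℕ} : v ∈ inn n par ↔ v < n ∧ (chs n par v).Nonempty := by
  simp [inn]

theorem mem_lvs {n : ℕ} {par : ℕ → ℕ} {v c : ℕ} : c ∈ lvs n par v ↔ c ∈ chs n par v ∧ chs n par c = ∅ := by
  simp [lvs]

/-- the kept vertices -/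
def WkR (n : ℕ) (par : ℕ → ℕ) (Kp : ℕ → Finset ℕ) : Finset ℕ := inn n par ∪ (inn n par).biUnion Kp

theorem par_inn {n : ℕ} {par : ℕ → ℕ} (hpar : IsPar n par) : ∀ u < n, 1 ≤ u → par u ∈ inn n par := by
  intro u hu h1
  rw [mem_inn]
  exact ⟨(hpar u h1 hu).trans hu, ⟨u, mem_chs.2 ⟨hu, h1, rfl⟩⟩⟩

section

variable {n : ℕ} {par : ℕ → ℕ} {Kp : ℕ → Finset ℕ}

theorem Wk_sub (hK : ∀ v ∈ inn n par, Kp v ⊆ lvs n par v) : WkR n par Kp ⊆ range n := by
  intro x hx
  rcases mem_union.1 hx with h | h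
  · exact mem_range.2 (mem_inn.1 h).1
  · obtain ⟨v, hv, hx⟩ := mem_biUnion.1 h
    exact mem_range.2 (mem_chs.1 (mem_lvs.1 (hK v hv hx)).1).1

theorem Wk_leaf (hK : ∀ v ∈ inn n par, Kp v ⊆ lvs n par v) {x : ℕ} (hx : x ∈ WkR n par Kp)
    (h : x ∉ inn n par) : chs n par x = ∅ ∧ par x ∈ inn n par ∧ x ∈ Kp (par x) ∧ 1 ≤ x ∧ x < n := by
  rcases mem_union.1 hx with h1 | h1
  · exact absurd h1 h
  · obtain ⟨v, hv, hx⟩ := mem_biUnion.1 h1
    have h2 := mem_lvs.1 (hK v hv hx)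
    have h3 := mem_chs.1 h2.1
    refine ⟨h2.2, ?_, ?_, h3.2.1, h3.1⟩
    · rw [h3.2.2]; exact hv
    · rw [h3.2.2]; exact hx

theorem Wk_chs (hK : ∀ v ∈ inn n par, Kp v ⊆ lvs n par v) {v : ℕ} (hv : v ∈ inn n par) :
    (chs n par v).filter (· ∈ WkR n par Kp) = (chs n par v).filter (· ∈ inn n par) ∪ Kp v ∧
      ((chs n par v).filter (· ∈ WkR n par Kp)).card =
        ((chs n par v).filter (· ∈ inn n par)).card + (Kp v).card := by
  have h1 : (chs n par v).filter (· ∈ WkR n par Kp) = (chs n par v).filter (· ∈ inn n par) ∪ Kp v := by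
    ext c
    rw [mem_filter, mem_union, mem_filter]
    constructor
    · rintro ⟨hc, hw⟩
      by_cases hi : c ∈ inn n par
      · exact Or.inl ⟨hc, hi⟩
      · right
        have h2 := (Wk_leaf hK hw hi).2.2.1
        rwa [(mem_chs.1 hc).2.2] at h2
    · rintro (⟨hc, hi⟩ | hc)
      · exact ⟨hc, mem_union_left _ hi⟩
      · exact ⟨(mem_lvs.1 (hK v hv hc)).1, mem_union_right _ (mem_biUnion.2 ⟨v, hv, hc⟩)⟩
  refine ⟨h1, ?_⟩
  rw [h1, card_union_of_disjoint]
  rw [disjoint_left]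
  intro c hc hc'
  have h2 := (mem_lvs.1 (hK v hv hc')).2
  have h3 := (mem_inn.1 (mem_filter.1 hc).2).2
  rw [h2] at h3
  exact absurd h3 (by simp)

theorem Wk_card (hK : ∀ v ∈ inn n par, Kp v ⊆ lvs n par v) :
    (WkR n par Kp).card = (inn n par).card + ∑ v ∈ inn n par, (Kp v).card := by
  unfold WkR
  rw [card_union_of_disjoint, card_biUnion]
  · intro v hv w hw hne
    show Disjoint (Kp v) (Kp w)
    rw [disjoint_left]
    intro c hc hc'
    have h1 := (mem_chs.1 (mem_lvs.1 (hK v hv hc)).1).2.2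
    have h2 := (mem_chs.1 (mem_lvs.1 (hK w hw hc')).1).2.2
    exact hne (h1.symm.trans h2)
  · rw [disjoint_left]
    intro c hc hc'
    obtain ⟨v, hv, hx⟩ := mem_biUnion.1 hc'
    have h2 := (mem_lvs.1 (hK v hv hx)).2
    have h3 := (mem_inn.1 hc).2
    rw [h2] at h3
    exact absurd h3 (by simp)

theorem Wk_out (hpar : IsPar n par) (h0 : 0 ∈ inn n par) (hK : ∀ v ∈ inn n par, Kp v ⊆ lvs n par v) {v : ℕ}
    (hv : v ∈ inn n par) :
    ((range n \ WkR n par Kp).filter (fun c => par c = v)) = lvs n par v \ Kp v := by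
  ext c
  rw [mem_filter, mem_sdiff, mem_sdiff, mem_range, mem_lvs, mem_chs]
  constructor
  · rintro ⟨⟨hc, hw⟩, hp⟩
    have hci : c ∉ inn n par := fun h => hw (mem_union_left _ h)
    have hc1 : 1 ≤ c := by
      rcases Nat.eq_zero_or_pos c with h | h
      · rw [h] at hci; exact absurd h0 hci
      · exact h
    have hce : chs n par c = ∅ := by
      by_contra hne
      exact hci (mem_inn.2 ⟨hc, nonempty_of_ne_empty hne⟩)
    refine ⟨⟨⟨hc, hc1, hp⟩, hce⟩, fun hk => hw (mem_union_right _ (mem_biUnion.2 ⟨v, hv, hk⟩))⟩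
  · rintro ⟨⟨⟨hc, hc1, hp⟩, hce⟩, hk⟩
    refine ⟨⟨hc, fun hw => ?_⟩, hp⟩
    have hci : c ∉ inn n par := by
      rw [mem_inn]
      rintro ⟨-, h⟩
      rw [hce] at h
      exact absurd h (by simp)
    have h2 := (Wk_leaf hK hw hci).2.2.1
    rw [hp] at h2
    exact hk h2

theorem Wk_out2 (hK : ∀ v ∈ inn n par, Kp v ⊆ lvs n par v) (hpar : IsPar n par) (h0 : 0 ∈ inn n par) {v : ℕ}
    (hv : v ∉ inn n par) : ((range n \ WkR n par Kp).filter (fun c => par c = v)) = ∅ := by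
  rw [filter_eq_empty_iff]
  intro c hc hp
  rw [mem_sdiff, mem_range] at hc
  have hc1 : 1 ≤ c := by
    rcases Nat.eq_zero_or_pos c with h | h
    · rw [h] at hc
      exact absurd (mem_union_left _ h0) hc.2
    · exact h
  have := par_inn hpar c hc.1 hc1
  rw [hp] at this
  exact hv this

variable {e idx par₀ : ℕ → ℕ}

theorem sub_inn (s : Sub n par (WkR n par Kp) e idx par₀) (hpar : IsPar n par)
    (hK : ∀ v ∈ inn n par, Kp v ⊆ lvs n par v)
    (hKne : ∀ v ∈ inn n par, (lvs n par v).Nonempty → (Kp v).Nonempty) :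
    inn (WkR n par Kp).card par₀ = (inn n par).image idx := by
  ext i
  rw [mem_inn, mem_image]
  constructor
  · rintro ⟨hi, hne⟩
    refine ⟨e i, ?_, s.idx_e i hi⟩
    have hw := s.e_mem i hi
    by_contra hei
    have h1 := (Wk_leaf hK hw hei).1
    have h2 := (s.chs_eq hw).1
    rw [s.idx_e i hi, h1, filter_empty, image_empty] at h2
    rw [h2] at hne
    exact absurd hne (by simp)
  · rintro ⟨v, hv, rfl⟩
    have hw : v ∈ WkR n par Kp := mem_union_left _ hv
    refine ⟨s.idx_lt v hw, ?_⟩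
    rw [(s.chs_eq hw).1, (Wk_chs hK hv).1]
    apply Nonempty.image
    obtain ⟨hvn, c, hc⟩ := mem_inn.1 hv
    by_cases hci : c ∈ inn n par
    · exact ⟨c, mem_union_left _ (mem_filter.2 ⟨hc, hci⟩)⟩
    · have hcl : c ∈ lvs n par v := by
        rw [mem_lvs]
        refine ⟨hc, ?_⟩
        by_contra hne
        exact hci (mem_inn.2 ⟨(mem_chs.1 hc).1, nonempty_of_ne_empty hne⟩)
      obtain ⟨c', hc'⟩ := hKne v hv ⟨c, hcl⟩
      exact ⟨c', mem_union_right _ hc'⟩

theorem sub_lvs (s : Sub n par (WkR n par Kp) e idx par₀) (hpar : IsPar n par)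
    (hK : ∀ v ∈ inn n par, Kp v ⊆ lvs n par v)
    (hKne : ∀ v ∈ inn n par, (lvs n par v).Nonempty → (Kp v).Nonempty) {v : ℕ} (hv : v ∈ inn n par) :
    (lvs (WkR n par Kp).card par₀ (idx v)).card ≤ (Kp v).card := by
  have hw : v ∈ WkR n par Kp := mem_union_left _ hv
  have h1 : lvs (WkR n par Kp).card par₀ (idx v) ⊆ (Kp v).image idx := by
    intro i hi
    rw [mem_lvs] at hi
    have h2 := hi.1
    rw [(s.chs_eq hw).1, (Wk_chs hK hv).1] at h2
    obtain ⟨c, hc, rfl⟩ := mem_image.1 h2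
    rcases mem_union.1 hc with h3 | h3
    · exfalso
      have h4 := (mem_filter.1 h3).2
      have h5 : idx c ∈ inn (WkR n par Kp).card par₀ := by
        rw [sub_inn s hpar hK hKne]
        exact mem_image_of_mem _ h4
      rw [mem_inn, hi.2] at h5
      exact absurd h5.2 (by simp)
    · exact mem_image_of_mem _ h3
  exact (card_le_card h1).trans card_image_le

theorem sub_lvs0 (s : Sub n par (WkR n par Kp) e idx par₀) (hpar : IsPar n par)
    (hK : ∀ v ∈ inn n par, Kp v ⊆ lvs n par v)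
    (hKne : ∀ v ∈ inn n par, (lvs n par v).Nonempty → (Kp v).Nonempty) {i : ℕ}
    (hi : i ∉ inn (WkR n par Kp).card par₀) (him : i < (WkR n par Kp).card) :
    lvs (WkR n par Kp).card par₀ i = ∅ := by
  have h1 : chs (WkR n par Kp).card par₀ i = ∅ := by
    by_contra hne
    exact hi (mem_inn.2 ⟨him, nonempty_of_ne_empty hne⟩)
  unfold lvs
  rw [h1, filter_empty]

end

end SSB
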