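import Pool.Agent.Lib.MP_8a819d_co.LH.Red4
import Pool.Agent.Lib.MP_8a819d_co.LH.Red5

/-!
# MP_8a819d_co, all large trees: the reduction for parent arrays
-/

set_option autoImplicit false

namespace SSB

open Finset

/-- one application of a core: the kept subtree has an extending numbering, so the whole tree has one -/
theorem red_fin {n : ℕ} {par : ℕ → ℕ} (hpar : IsPar n par) (h0 : 0 ∈ inn n par)
    {P : Finset ℕ} {g : ℕ → ℕ} {Kp : ℕ → Finset ℕ} {e idx par₀ : ℕ → ℕ}
    (s : Sub n par (WkR n par Kp) e idx par₀)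
    (hK : ∀ v ∈ inn n par, Kp v ⊆ lvs n par v)
    (hKP : ∀ v ∈ inn n par, v ∉ P → Kp v = lvs n par v)
    (hKd : ∀ v ∈ inn n par, v ∈ P → g v ∣ (lvs n par v).card - (Kp v).card)
    (hP : P ⊆ inn n par)
    (h : SSext (WkR n par Kp).card par₀ (P.image idx) (fun i => g (e i))) : SSP n par := by
  have hWs := Wk_sub hK
  obtain ⟨f, hf1, hf2⟩ := s.ssw (hP.trans subset_union_left) h
  have hcl : ∀ u < n, 1 ≤ u → par u ∈ WkR n par Kp := fun u hu h1 =>
    mem_union_left _ (par_inn hpar u hu h1)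
  obtain ⟨f', hf', hs⟩ := strip hWs (mem_union_left _ h0) hcl hf2 (by
    intro v hv
    by_cases hvi : v ∈ inn n par
    · rw [Wk_out hpar h0 hK hvi, card_sdiff_of_subset (hK v hvi)]
      by_cases hvP : v ∈ P
      · rw [hf1 v hvP]
        exact hKd v hvi hvP
      · rw [hKP v hvi hvP, Nat.sub_self]
        exact dvd_zero _
    · rw [Wk_out2 hK hpar h0 hvi]
      simp)
  refine ⟨f', hs.1, fun x hx => ?_⟩
  have := hs.2 x hx
  rwa [card_range] at this

end SSB
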