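import Pool.Agent.Lib.MP_8a819d_co.LH.Red6

/-!
# MP_8a819d_co, all large trees: the reduction for parent arrays, main part
-/

set_option autoImplicit false

namespace SSB

open Finset

/-- the number of leaves kept at a peeled vertex -/
private def rr (l g : ℕ) : ℕ := if l = 0 then 0 else (l - 1) % g + 1

private theorem rr_le (l g : ℕ) : rr l g ≤ l := by
  unfold rr
  split_ifs with h
  · omega
  · have := Nat.mod_le (l - 1) g
    omega

private theorem rr_le2 {l g : ℕ} (hg : 1 ≤ g) : rr l g ≤ g := by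
  unfold rr
  split_ifs with h
  · omega
  · have := Nat.mod_lt (l - 1) (show g > 0 from hg)
    omega

private theorem rr_pos {l g : ℕ} (hl : l ≠ 0) : 1 ≤ rr l g := by
  unfold rr
  rw [if_neg hl]
  omega

private theorem rr_dvd (l g : ℕ) : g ∣ l - rr l g := by
  unfold rr
  split_ifs with h
  · subst h; simp
  · have h1 : l - ((l - 1) % g + 1) = (l - 1) - (l - 1) % g := by omega
    rw [h1]
    exact Nat.dvd_sub_mod _

/-- the giants of the inner tree -/
private theorem giants {n : ℕ} {par : ℕ → ℕ} {γ : ℝ} (hγ : 0 < γ) (hN : 8 / γ ≤ ((inn n par).card : ℝ)) :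
    (((inn n par).filter (fun v => γ / 2 * (inn n par).card <
      (((chs n par v).filter (· ∈ inn n par)).card : ℝ) + 1)).card : ℝ) ≤ 4 / γ := by
  set I := inn n par with hI
  set G := I.filter (fun v => γ / 2 * I.card < (((chs n par v).filter (· ∈ I)).card : ℝ) + 1) with hG
  have hN0 : (0 : ℝ) < I.card := lt_of_lt_of_le (by positivity) hN
  have h4 : 1 ≤ γ / 4 * I.card := by
    have h1 : γ / 4 * (8 / γ) ≤ γ / 4 * I.card := mul_le_mul_of_nonneg_left hN (by positivity)
    have h2 : γ / 4 * (8 / γ) = 2 := by field_simp; norm_num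
    linarith
  have h1 : (G.card : ℝ) * (γ / 4 * I.card) ≤ ∑ v ∈ G, (((chs n par v).filter (· ∈ I)).card : ℝ) := by
    rw [← nsmul_eq_mul, ← sum_const]
    apply sum_le_sum
    intro v hv
    have := (mem_filter.1 hv).2
    linarith
  have h2 : ∑ v ∈ G, (((chs n par v).filter (· ∈ I)).card : ℝ) ≤
      ∑ v ∈ I, (((chs n par v).filter (· ∈ I)).card : ℝ) :=
    sum_le_sum_of_subset_of_nonneg (filter_subset _ _) (fun _ _ _ => Nat.cast_nonneg _)
  have h3 : ∑ v ∈ I, (((chs n par v).filter (· ∈ I)).card : ℝ) ≤ I.card := by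
    have := inn_chs (n := n) (par := par)
    exact_mod_cast this
  have h5 : (G.card : ℝ) * (γ / 4) * I.card ≤ 1 * I.card := by
    rw [mul_assoc, one_mul]
    linarith
  have h6 := le_of_mul_le_mul_right h5 hN0
  rw [le_div_iff₀ hγ]
  linarith

/-- the root has an inner child if there are two inner vertices -/
private theorem root_child {n : ℕ} {par : ℕ → ℕ} (hpar : IsPar n par) (hc : 2 ≤ (inn n par).card) :
    ((chs n par 0).filter (· ∈ inn n par)).Nonempty := by
  classical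
  have h1 : ((inn n par).filter (fun v => 1 ≤ v)).Nonempty := by
    by_contra hne
    rw [not_nonempty_iff_eq_empty, filter_eq_empty_iff] at hne
    have h2 : inn n par ⊆ {0} := by
      intro v hv
      have := hne hv
      rw [mem_singleton]
      omega
    have := card_le_card h2
    rw [card_singleton] at this
    omega
  obtain ⟨v, hv, hmin⟩ := exists_min_image _ id h1
  rw [mem_filter] at hv
  have hvn := (mem_inn.1 hv.1).1
  have hp := par_inn hpar v hvn hv.2
  have hlt := hpar v hv.2 hvn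
  have h0 : par v = 0 := by
    by_contra h
    have := hmin (par v) (mem_filter.2 ⟨hp, Nat.one_le_iff_ne_zero.2 h⟩)
    simp only [id] at this
    omega
  exact ⟨v, mem_filter.2 ⟨mem_chs.2 ⟨hvn, hv.2, h0⟩, hv.1⟩⟩

theorem red_par (hL : CoreLH) (hD : CoreDP) : ∃ N₀ : ℕ, ∀ (n : ℕ) (par : ℕ → ℕ), IsPar n par → par 0 = 0 →
    2 ≤ pdeg n par 0 → N₀ ≤ (inn n par).card → n ≤ 1025 * (inn n par).card ^ 5 → SSP n par := by
  classical
  obtain ⟨δ₀, hδ₀, n₁, hL⟩ := hL
  obtain ⟨γ, hγ, hD⟩ := hD δ₀ hδ₀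
  obtain ⟨g₀, hg₀⟩ : ∃ g₀ : ℕ, 8 / γ ≤ g₀ := exists_nat_ge _
  obtain ⟨b, hb, n₂, hD⟩ := hD g₀ (100 * (g₀ + 1))
  obtain ⟨N₁, hnum⟩ := numbers (100 * b * (3 * g₀ + 3))
  obtain ⟨m₀, hroot⟩ := small_root (half_pos hγ)
  refine ⟨max (max n₁ n₂) (max (max N₁ m₀) (g₀ + 2)), fun n par hpar h00 hdeg0 hN hn => ?_⟩
  obtain ⟨I, hI⟩ : ∃ I, I = inn n par := ⟨_, rfl⟩
  rw [← hI] at hN hn
  have hN1 : n₁ ≤ I.card := le_trans (le_trans (le_max_left _ _) (le_max_left _ _)) hN
  have hN2 : n₂ ≤ I.card := le_trans (le_trans (le_max_right _ _) (le_max_left _ _)) hN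
  have hN3 : N₁ ≤ I.card := le_trans (le_trans (le_trans (le_max_left _ _) (le_max_left _ _)) (le_max_right _ _)) hN
  have hN4 : m₀ ≤ I.card := le_trans (le_trans (le_trans (le_max_right _ _) (le_max_left _ _)) (le_max_right _ _)) hN
  have hN5 : g₀ + 2 ≤ I.card := le_trans (le_trans (le_max_right _ _) (le_max_right _ _)) hN
  have hIne : I.Nonempty := card_pos.1 (by omega)
  have hIn : I ⊆ range n := by
    intro v hv
    rw [hI] at hv
    exact mem_range.2 (mem_inn.1 hv).1
  have hIc : I.card ≤ n := (card_le_card hIn).trans (card_range n).le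
  have h8 : 8 / γ ≤ (I.card : ℝ) := hg₀.trans (by exact_mod_cast (by omega : g₀ ≤ I.card))
  have h0I : 0 ∈ I := by
    rw [hI, mem_inn]
    refine ⟨by omega, ?_⟩
    rw [← card_pos]
    unfold pdeg at hdeg0
    rw [if_pos rfl] at hdeg0
    omega
  -- giants
  have hG0c := giants (n := n) (par := par) hγ (by rw [← hI]; exact h8)
  rw [← hI] at hG0c
  obtain ⟨G₀, hG₀⟩ : ∃ G₀, G₀ = I.filter (fun v => γ / 2 * I.card <
      (((chs n par v).filter (· ∈ I)).card : ℝ) + 1) := ⟨_, rfl⟩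
  rw [← hG₀] at hG0c
  have hG0I : G₀ ⊆ I := by rw [hG₀]; exact filter_subset _ _
  obtain ⟨G, hG1, hG2, hG3, hG4, hG5⟩ := clo_exists hpar G₀ (hG0I.trans hIn)
  have hGI : G ⊆ I := by rw [hI]; exact hG5 _ (by rw [← hI]; exact hG0I) inn_clo
  have hGc : G.card ≤ g₀ := by
    have h1 : (G.card : ℝ) ≤ 2 * G₀.card := by exact_mod_cast hG4
    have h2 : (2 : ℝ) * (4 / γ) = 8 / γ := by ring
    have h3 : (G.card : ℝ) ≤ g₀ := by linarith
    exact_mod_cast h3
  -- peeling
  obtain ⟨s, hs⟩ : ∃ s, s = Nat.sqrt (Nat.sqrt I.card) := ⟨_, rfl⟩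
  have hs1 : 1 ≤ s := (hnum I.card hN3 n n s hIc le_rfl hn hs).1
  obtain ⟨P, hP1, hP2, hP3, hP4, hP5⟩ := peel hpar (by rw [← hI]; exact hIne) hs1 (X := G) (by rw [← hI]; exact hGI)
  rw [← hI] at hP2 hP5
  obtain ⟨L, hLd⟩ : ∃ L, L = Nat.log 2 n + 1 := ⟨_, rfl⟩
  rw [← hLd] at hP4
  have hsL : 1 ≤ s * L := Nat.one_le_iff_ne_zero.2 (by
    have h2 : L ≠ 0 := by omega
    have h3 : s ≠ 0 := by omega
    exact mul_ne_zero h3 h2)
  have hPc : P.card + g₀ + 1 ≤ (3 * g₀ + 3) * (s * L) := by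
    have h1 : P.card ≤ 2 * (g₀ + s * L) := hP4.trans (Nat.mul_le_mul_left _ (Nat.add_le_add_right hGc _))
    have h2 : 3 * g₀ + 1 ≤ (3 * g₀ + 1) * (s * L) := Nat.le_mul_of_pos_right _ hsL
    calc P.card + g₀ + 1 ≤ (3 * g₀ + 1) + 2 * (s * L) := by omega
      _ ≤ (3 * g₀ + 1) * (s * L) + 2 * (s * L) := by omega
      _ = (3 * g₀ + 3) * (s * L) := by ring
  obtain ⟨g, hg1, hg2, hg3, hg4⟩ := num_P hpar hP1 (hP2.trans hIn) hG3 hGc hb
  have hgpos : ∀ v ∈ P, 1 ≤ g v := fun v hv => hg1.2 (Sum.inl v) (mem_items_inl.2 hv)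
  have hglab : ∀ v ∈ P, g v ≤ 100 * b * (3 * g₀ + 3) * (s * L) := by
    intro v hv
    refine (hg2 v hv).2.trans ?_
    rw [mul_assoc (100 * b)]
    exact Nat.mul_le_mul_left _ hPc
  -- the kept leaves
  have hKex : ∀ v, ∃ K ⊆ lvs n par v, K.card = if v ∈ P then rr (lvs n par v).card (g v) else (lvs n par v).card := by
    intro v
    split_ifs with h
    · exact exists_subset_card_eq (rr_le _ _)
    · exact ⟨_, subset_refl _, rfl⟩
  choose Kp hKp1 hKp2 using hKex
  have hK : ∀ v ∈ inn n par, Kp v ⊆ lvs n par v := fun v _ => hKp1 v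
  have hKP : ∀ v ∈ inn n par, v ∉ P → Kp v = lvs n par v := by
    intro v _ hv
    refine eq_of_subset_of_card_le (hKp1 v) ?_
    rw [hKp2 v, if_neg hv]
  have hKd : ∀ v ∈ inn n par, v ∈ P → g v ∣ (lvs n par v).card - (Kp v).card := by
    intro v _ hv
    rw [hKp2 v, if_pos hv]
    exact rr_dvd _ _
  have hKne : ∀ v ∈ inn n par, (lvs n par v).Nonempty → (Kp v).Nonempty := by
    intro v _ hne
    rw [← card_pos, hKp2 v]
    split_ifs with h
    · exact rr_pos (card_pos.2 hne).ne'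
    · exact card_pos.2 hne
  have hWs := Wk_sub hK
  have h0W : 0 ∈ WkR n par Kp := mem_union_left _ (by rw [← hI]; exact h0I)
  have hclW : ∀ v ∈ WkR n par Kp, 1 ≤ v → par v ∈ WkR n par Kp := fun v hv h1 =>
    mem_union_left _ (par_inn hpar v (mem_range.1 (hWs hv)) h1)
  obtain ⟨e, idx, par₀, sb⟩ := relabel hWs h0W hclW
  obtain ⟨m, hm⟩ : ∃ m, m = (WkR n par Kp).card := ⟨_, rfl⟩
  have hmc := Wk_card hK
  have hIm : I.card ≤ m := by rw [hm, hmc, ← hI]; exact Nat.le_add_right _ _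
  have hmn : m ≤ n := by
    rw [hm]
    exact (card_le_card hWs).trans (card_range n).le
  have hm1 : 1 ≤ m := by omega
  obtain ⟨-, hq1, hq2, hq3⟩ := hnum I.card hN3 m n s hIm hmn hn hs
  rw [← hLd] at hq2 hq3
  -- leaves at the vertices of the kept subtree
  have hRm : Rm n par P ≤ m := by
    rw [hm, hmc]
    unfold Rm
    refine Nat.add_le_add_left ?_ _
    calc ∑ v ∈ inn n par \ P, (lvs n par v).card = ∑ v ∈ inn n par \ P, (Kp v).card := by
          refine sum_congr rfl (fun v hv => ?_)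
          rw [mem_sdiff] at hv
          rw [hKP v hv.1 hv.2]
      _ ≤ ∑ v ∈ inn n par, (Kp v).card :=
          sum_le_sum_of_subset sdiff_subset
  have hK25 : ∀ v ∈ I, (Kp v).card ^ 25 ≤ m ^ 24 := by
    intro v hv
    by_cases hvP : v ∈ P
    · have h1 : (Kp v).card ≤ g v := by
        rw [hKp2 v, if_pos hvP]
        exact rr_le2 (hgpos v hvP)
      have h2 : (Kp v).card ^ 5 ≤ m ^ 2 :=
        (Nat.pow_le_pow_left (h1.trans (hglab v hvP)) 5).trans hq3
      calc (Kp v).card ^ 25 = ((Kp v).card ^ 5) ^ 5 := by ring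
        _ ≤ (m ^ 2) ^ 5 := Nat.pow_le_pow_left h2 5
        _ = m ^ 10 := by ring
        _ ≤ m ^ 24 := Nat.pow_le_pow_right hm1 (by norm_num)
    · have h1 : s * (Kp v).card ≤ m := by
        rw [hKP v (by rw [← hI]; exact hv) hvP]
        exact (hP5 v (mem_sdiff.2 ⟨hv, hvP⟩)).trans hRm
      have h2 : (Kp v).card ^ 25 * m ≤ m ^ 24 * m := by
        calc (Kp v).card ^ 25 * m ≤ (Kp v).card ^ 25 * s ^ 25 := Nat.mul_le_mul_left _ hq1
          _ = (s * (Kp v).card) ^ 25 := by ring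
          _ ≤ m ^ 25 := Nat.pow_le_pow_left h1 25
          _ = m ^ 24 * m := by ring
      exact Nat.le_of_mul_le_mul_right h2 (by omega)
  obtain ⟨hpar₀, hpar00⟩ := sb.isPar hpar h00
  have hinn := sub_inn sb hpar hK hKne
  have hIW : ∀ v ∈ I, v ∈ WkR n par Kp := fun v hv => mem_union_left _ (by rw [← hI]; exact hv)
  have hidx : Set.InjOn idx (WkR n par Kp : Set ℕ) := by
    intro v hv w hw h
    rw [← sb.e_idx v hv, ← sb.e_idx w hw, h]
  have hinnc : (inn m par₀).card = I.card := by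
    rw [hm, hinn, ← hI]
    exact card_image_of_injOn (hidx.mono (fun v hv => hIW v hv))
  rw [← hI] at hinn
  have hlv : ∀ i < m, (lvs m par₀ i).card ^ 25 ≤ m ^ 24 := by
    intro i hi
    by_cases hii : i ∈ inn m par₀
    · rw [hm, hinn] at hii
      obtain ⟨v, hv, rfl⟩ := mem_image.1 hii
      have h1 := sub_lvs sb hpar hK hKne (v := v) (by rw [← hI]; exact hv)
      rw [hm]
      refine (Nat.pow_le_pow_left h1 25).trans ?_
      rw [← hm]
      exact hK25 v hv
    · have h1 : lvs m par₀ i = ∅ := by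
        rw [hm] at hii hi ⊢
        exact sub_lvs0 sb hpar hK hKne hii hi
      rw [h1]
      simp
  have hPW : P ⊆ WkR n par Kp := fun v hv => hIW v (hP2 hv)
  have hP0i : P.image idx ⊆ inn m par₀ := by
    rw [hm, hinn]
    exact image_subset_image hP2
  have hP0c : (P.image idx).card ^ 10 ≤ m ^ 3 := by
    refine (Nat.pow_le_pow_left ?_ 10).trans hq2
    refine card_image_le.trans ?_
    calc P.card ≤ (3 * g₀ + 3) * (s * L) := by omega
      _ ≤ 100 * b * ((3 * g₀ + 3) * (s * L)) := Nat.le_mul_of_pos_left _ (by omega)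
      _ = 100 * b * (3 * g₀ + 3) * (s * L) := by ring
  have hP0clo : Clo m par₀ (P.image idx) := by
    rw [hm]
    exact sb.clo hPW hP3
  have hnmb : Nmb par₀ (P.image idx) (fun i => g (e i)) := sb.nmb hPW hg1
  have hodd : ∀ i ∈ P.image idx, g (e i) % 2 = 1 ∧ g (e i) ^ 5 ≤ m ^ 2 := by
    intro i hi
    obtain ⟨v, hv, rfl⟩ := mem_image.1 hi
    rw [sb.e_idx v (hPW hv)]
    exact ⟨(hg2 v hv).1, (Nat.pow_le_pow_left (hglab v hv) 5).trans hq3⟩
  have hPI : P ⊆ inn n par := by rw [← hI]; exact hP2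
  by_cases hcase : ((inn m par₀).card : ℝ) ≤ δ₀ * m
  · refine red_fin hpar (by rw [← hI]; exact h0I) sb hK hKP hKd hPI ?_
    rw [← hm]
    refine hL m (by omega) par₀ (by rw [hm]; exact hpar₀) hpar00 hcase hlv _ hP0i hP0clo hP0c _ hnmb hodd ?_
    intro i hi
    obtain ⟨v, hv, rfl⟩ := mem_image.1 hi
    show _ ≤ g (e (idx v))
    rw [sb.e_idx v (hPW hv), hm]
    refine (sub_lvs sb hpar hK hKne (v := v) (hPI hv)).trans ?_
    rw [hKp2 v, if_pos hv]
    exact rr_le2 (hgpos v hv)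
  · refine red_fin hpar (by rw [← hI]; exact h0I) sb hK hKP hKd hPI ?_
    rw [← hm]
    have hGW : G ⊆ WkR n par Kp := fun v hv => hIW v (hGI hv)
    refine hD m (by omega) par₀ (by rw [hm]; exact hpar₀) hpar00 ?_ (not_le.1 hcase).le (G.image idx) _
      (image_subset_image hP1) hP0i ?_ hP0clo (card_image_le.trans hGc) hP0c ?_ _ hnmb hodd ?_ ?_
    · -- the root
      have h1 := sb.pdeg_eq h0W
      rw [sb.idx0, if_pos rfl, add_zero, (Wk_chs hK (by rw [← hI]; exact h0I)).2] at h1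
      rw [hm, h1]
      have h2 := card_pos.2 (root_child hpar (by rw [← hI]; omega))
      by_cases hl : (lvs n par 0).Nonempty
      · have h3 := card_pos.2 (hKne 0 (by rw [← hI]; exact h0I) hl)
        omega
      · have h3 : (chs n par 0).filter (· ∈ inn n par) = chs n par 0 := by
          rw [filter_eq_self]
          intro c hc
          rw [mem_inn]
          refine ⟨(mem_chs.1 hc).1, ?_⟩
          by_contra hne
          exact hl ⟨c, mem_lvs.2 ⟨hc, not_nonempty_iff_eq_empty.1 hne⟩⟩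
        rw [h3]
        unfold pdeg at hdeg0
        rw [if_pos rfl] at hdeg0
        omega
    · rw [hm]
      exact sb.clo hGW hG3
    · -- degrees
      intro i hi hiG
      have hmγ : 1 ≤ γ / 2 * m := by
        have h1 : (I.card : ℝ) ≤ m := by exact_mod_cast hIm
        have h2 : γ / 2 * (8 / γ) ≤ γ / 2 * m := mul_le_mul_of_nonneg_left (h8.trans h1) (by positivity)
        have h3 : γ / 2 * (8 / γ) = 4 := by field_simp; norm_num
        linarith
      have hi' : i < (WkR n par Kp).card := by rw [← hm]; exact hi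
      obtain ⟨w, hw⟩ : ∃ w, w = e i := ⟨_, rfl⟩
      have hwW : w ∈ WkR n par Kp := by rw [hw]; exact sb.e_mem i hi'
      have hiw : i = idx w := by rw [hw, sb.idx_e i hi']
      have hpd := sb.pdeg_eq hwW
      rw [← hiw, ← hm] at hpd
      rw [hpd]
      by_cases hwI : w ∈ inn n par
      · have hwG : w ∉ G := by
          intro h
          exact hiG (by rw [hiw]; exact mem_image_of_mem _ h)
        have hwG0 : w ∉ G₀ := fun h => hwG (hG1 h)
        have h1 : (((chs n par w).filter (· ∈ I)).card : ℝ) + 1 ≤ γ / 2 * I.card := by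
          by_contra hlt
          apply hwG0
          rw [hG₀, mem_filter]
          exact ⟨by rw [hI]; exact hwI, not_le.1 hlt⟩
        have h2 : ((Kp w).card : ℝ) ≤ γ / 2 * m :=
          hroot m (hN4.trans hIm) _ (hK25 w (by rw [hI]; exact hwI))
        have h3 : γ / 2 * (I.card : ℝ) ≤ γ / 2 * m :=
          mul_le_mul_of_nonneg_left (by exact_mod_cast hIm) (by positivity)
        rw [(Wk_chs hK hwI).2, ← hI]
        push_cast
        have h4 : ((if w = 0 then 0 else 1 : ℕ) : ℝ) ≤ 1 := by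
          split_ifs <;> norm_num
        push_cast at h4
        linarith
      · rw [(Wk_leaf hK hwW hwI).1, filter_empty, card_empty]
        have h4 : (((0 : ℕ) + (if w = 0 then 0 else 1) : ℕ) : ℝ) ≤ 1 := by
          split_ifs <;> norm_num
        linarith
    · intro i hi
      obtain ⟨v, hv, rfl⟩ := mem_image.1 hi
      show g (e (idx v)) ≤ _
      rw [sb.e_idx v (hGW hv)]
      exact hg3 v hv
    · intro i hi
      rw [mem_sdiff] at hi
      obtain ⟨v, hv, rfl⟩ := mem_image.1 hi.1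
      have hvG : v ∉ G := fun h => hi.2 (mem_image_of_mem _ h)
      show g (e (idx v)) % (4 * b) = 1 ∧ b ≤ g (e (idx v))
      rw [sb.e_idx v (hPW hv)]
      exact hg4 v (mem_sdiff.2 ⟨hv, hvG⟩)

end SSB
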