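import Pool.Agent.Lib.MP_8a819d_co.LH.RuM

/-!
# MP_8a819d_co: absorbers with repeated units, 2. The template

`tmplt`: the ports. For `M` and a set `Z` with at most `2 M` labels there are `y + M` triples of ports in `Y ∪ Z` (`Y`: `y` new labels, `y ≤ C M`)
such that for all `Z' ⊆ Z` with `M` elements a choice of one port in every triple is a bijection to `Y ∪ Z'`.
`robustL`: with gadgets for these triples we get a robust absorber.
-/

set_option autoImplicit false

namespace SSB

open Finset

/-- enumeration of `Z` by a part of `Fin (2 M)` -/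
private theorem rut_enum {M : ℕ} {Z : Finset ℕ} (hZ : Z.Nonempty) (hc : Z.card ≤ 2 * M) :
    ∃ wz : Fin (2 * M) → ℕ, (∀ b, wz b ∈ Z) ∧ ∀ Z' ⊆ Z, Z'.card = M →
      ∃ Zf : Finset (Fin (2 * M)), Zf.card = M ∧ (∀ b ∈ Zf, wz b ∈ Z') ∧
        ∀ b ∈ Zf, ∀ b' ∈ Zf, wz b = wz b' → b = b' := by
  obtain ⟨z0, hz0⟩ := hZ
  let wz : Fin (2 * M) → ℕ := fun b =>
    if h : (b : ℕ) < Z.card then Z.orderEmbOfFin rfl ⟨b, h⟩ else z0
  have hwz : ∀ (b : Fin (2 * M)) (h : (b : ℕ) < Z.card), wz b = Z.orderEmbOfFin rfl ⟨b, h⟩ := by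
    intro b h
    simp only [wz, h, dif_pos]
  refine ⟨wz, ?_, ?_⟩
  · intro b
    by_cases h : (b : ℕ) < Z.card
    · rw [hwz b h]
      exact Z.orderEmbOfFin_mem rfl _
    · simp only [wz, h]
      exact hz0
  · intro Z' hZ' hM
    have hinj : ∀ b b' : Fin (2 * M), (b : ℕ) < Z.card → (b' : ℕ) < Z.card → wz b = wz b' →
        b = b' := by
      intro b b' hb hb' he
      rw [hwz b hb, hwz b' hb'] at he
      have h2 := (Z.orderEmbOfFin rfl).injective he
      have h3 : (b : ℕ) = (b' : ℕ) := by
        have := congrArg (fun q : Fin Z.card => (q : ℕ)) h2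
        exact this
      exact Fin.ext h3
    refine ⟨univ.filter (fun b => (b : ℕ) < Z.card ∧ wz b ∈ Z'), ?_, ?_, ?_⟩
    · have him : (univ.filter (fun b : Fin (2 * M) => (b : ℕ) < Z.card ∧ wz b ∈ Z')).image wz
          = Z' := by
        ext z
        rw [mem_image]
        constructor
        · rintro ⟨b, hb, rfl⟩
          exact (mem_filter.1 hb).2.2
        · intro hz
          have hzZ := hZ' hz
          have : z ∈ Set.range (Z.orderEmbOfFin (k := Z.card) rfl) := by
            rw [Finset.range_orderEmbOfFin]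
            exact hzZ
          obtain ⟨q, hq⟩ := this
          have hq2 : (q : ℕ) < 2 * M := lt_of_lt_of_le q.2 hc
          have hw : wz ⟨q, hq2⟩ = z := by
            rw [hwz ⟨q, hq2⟩ q.2]
            exact hq
          refine ⟨⟨q, hq2⟩, mem_filter.2 ⟨mem_univ _, q.2, ?_⟩, hw⟩
          rw [hw]
          exact hz
      have hio : Set.InjOn wz
          (univ.filter (fun b : Fin (2 * M) => (b : ℕ) < Z.card ∧ wz b ∈ Z')) := by
        intro b hb b' hb' he
        have hb1 := (mem_filter.1 (mem_coe.1 hb)).2.1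
        have hb1' := (mem_filter.1 (mem_coe.1 hb')).2.1
        exact hinj b b' hb1 hb1' he
      have hcc := card_image_of_injOn hio
      rw [him] at hcc
      exact hcc.symm.trans hM
    · intro b hb
      exact (mem_filter.1 hb).2.2
    · intro b hb b' hb' he
      exact hinj b b' (mem_filter.1 hb).2.1 (mem_filter.1 hb').2.1 he

/-- the triples of ports: `Y` new labels, `port x i` for `x < y + M`, `i < 3` -/
theorem tmplt : ∃ C : ℕ, ∀ M : ℕ, 1 ≤ M → ∀ Z : Finset ℕ, Z.Nonempty → Z.card ≤ 2 * M →
    ∃ y : ℕ, y ≤ C * M ∧ ∀ Y : Fin y → ℕ, Function.Injective Y → (∀ i, Y i ∉ Z) →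
      ∃ port : Fin (y + M) → Fin 3 → ℕ, (∀ x i, port x i ∈ univ.image Y ∪ Z) ∧
        ∀ Z' ⊆ Z, Z'.card = M → ∃ c : Fin (y + M) → Fin 3,
          Function.Injective (fun x => port x (c x)) ∧
          univ.image (fun x => port x (c x)) = univ.image Y ∪ Z' := by
  obtain ⟨C, hC⟩ := template3
  refine ⟨C, fun M hM Z hZ hZc => ?_⟩
  obtain ⟨y, nb, hy, hnb⟩ := hC M hM
  obtain ⟨wz, hwz, hwz2⟩ := rut_enum hZ hZc
  refine ⟨y, hy, fun Y hY hYZ => ⟨fun x i => Sum.elim Y wz (nb x i), fun x i => ?_,
    fun Z' hZ' hM' => ?_⟩⟩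
  · change Sum.elim Y wz (nb x i) ∈ _
    rcases nb x i with a | b
    · exact mem_union_left _ (mem_image_of_mem Y (mem_univ a))
    · exact mem_union_right _ (hwz b)
  · obtain ⟨Zf, hZfc, hZf1, hZf2⟩ := hwz2 Z' hZ' hM'
    obtain ⟨c, hc1, hc2⟩ := hnb Zf hZfc
    have hw : ∀ x, Sum.elim Y wz (nb x (c x)) ∈ univ.image Y ∪ Z' := by
      intro x
      rcases h : nb x (c x) with a | b
      · exact mem_union_left _ (mem_image_of_mem Y (mem_univ a))
      · exact mem_union_right _ (hZf1 b (hc2 x b h))
    have hwi : Function.Injective (fun x => Sum.elim Y wz (nb x (c x))) := by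
      intro x x' he
      simp only at he
      apply hc1
      show nb x (c x) = nb x' (c x')
      rcases h : nb x (c x) with a | b <;> rcases h' : nb x' (c x') with a' | b'
      · rw [h, h'] at he
        simp only [Sum.elim_inl] at he
        rw [hY he]
      · rw [h, h'] at he
        simp only [Sum.elim_inl, Sum.elim_inr] at he
        exact absurd (hwz b') (he ▸ hYZ a)
      · rw [h, h'] at he
        simp only [Sum.elim_inl, Sum.elim_inr] at he
        exact absurd (hwz b) (he.symm ▸ hYZ a')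
      · rw [h, h'] at he
        simp only [Sum.elim_inr] at he
        rw [hZf2 b (hc2 x b h) b' (hc2 x' b' h') he]
    have hYZ' : Disjoint (univ.image Y) Z' := by
      rw [disjoint_left]
      intro a ha haZ
      obtain ⟨i, -, rfl⟩ := mem_image.1 ha
      exact hYZ i (hZ' haZ)
    refine ⟨c, hwi, ?_⟩
    apply eq_of_subset_of_card_le
    · intro a ha
      obtain ⟨x, -, rfl⟩ := mem_image.1 ha
      exact hw x
    · rw [card_union_of_disjoint hYZ', card_image_of_injective _ hY, hM',
        card_image_of_injective _ hwi]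
      simp

/-- the robust absorber from gadgets: the gadget `x` has the labels `L x` and the units `U x`, and can absorb any of its three
ports -/
theorem robustL {υ : Type*} [DecidableEq υ] {ℓ : υ → ℕ} {M y N : ℕ} {Z F : Finset ℕ} {Y : Fin y → ℕ}
    (hY : Function.Injective Y) (hYN : ∀ i, Y i ∈ Icc 1 N) (hYF : ∀ i, Y i ∉ F) (hZF : Z ⊆ F)
    {port : Fin (y + M) → Fin 3 → ℕ}
    (hport : ∀ Z' ⊆ Z, Z'.card = M → ∃ c : Fin (y + M) → Fin 3,
      Function.Injective (fun x => port x (c x)) ∧
      univ.image (fun x => port x (c x)) = univ.image Y ∪ Z')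
    (L : Fin (y + M) → Finset ℕ) (U : Fin (y + M) → Finset υ)
    (hL : ∀ x, L x ⊆ Icc 1 N) (hLc : ∀ x, (L x).card + 1 = 2 * (U x).card)
    (hm : ∀ x i, MatchU (U x) ℓ (insert (port x i) (L x)))
    (hF : ∀ x, Disjoint (L x) (F ∪ univ.image Y))
    (hdL : ∀ x x', x ≠ x' → Disjoint (L x) (L x'))
    (hdU : ∀ x x', x ≠ x' → Disjoint (U x) (U x')) :
    univ.image Y ∪ univ.biUnion L ⊆ Icc 1 N ∧ Disjoint (univ.image Y ∪ univ.biUnion L) F ∧
      2 * (univ.biUnion U).card = (univ.image Y ∪ univ.biUnion L).card + M ∧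
      ∀ Z' ⊆ Z, Z'.card = M → MatchU (univ.biUnion U) ℓ (univ.image Y ∪ univ.biUnion L ∪ Z') := by
  have dLF : ∀ x, Disjoint (L x) F := fun x => disjoint_of_subset_right subset_union_left (hF x)
  have dLY : ∀ x, Disjoint (L x) (univ.image Y) := fun x =>
    disjoint_of_subset_right subset_union_right (hF x)
  have dYF : Disjoint (univ.image Y) F := by
    rw [disjoint_left]
    intro a ha haF
    obtain ⟨i, -, rfl⟩ := mem_image.1 ha
    exact hYF i haF
  have hUcard : (univ.biUnion U).card = ∑ x : Fin (y + M), (U x).card :=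
    card_biUnion fun x _ x' _ h => hdU x x' h
  have hLcard : (univ.biUnion L).card = ∑ x : Fin (y + M), (L x).card :=
    card_biUnion fun x _ x' _ h => hdL x x' h
  have hYL : Disjoint (univ.image Y) (univ.biUnion L) := by
    rw [disjoint_biUnion_right]
    exact fun x _ => (dLY x).symm
  have hYc : (univ.image Y).card = y := by
    rw [card_image_of_injective _ hY]
    simp
  have hsum : (univ.biUnion L).card + (y + M) = 2 * (univ.biUnion U).card := by
    rw [hUcard, hLcard, mul_sum, ← sum_congr rfl fun x _ => hLc x, sum_add_distrib]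
    simp
  refine ⟨?_, ?_, ?_, fun Z' hZ' hM => ?_⟩
  · refine union_subset ?_ (biUnion_subset.2 fun x _ => hL x)
    intro a ha
    obtain ⟨i, -, rfl⟩ := mem_image.1 ha
    exact hYN i
  · rw [disjoint_union_left, disjoint_biUnion_left]
    exact ⟨dYF, fun x _ => dLF x⟩
  · rw [card_union_of_disjoint hYL, hYc]
    omega
  · obtain ⟨c, hwi, himg⟩ := hport Z' hZ' hM
    have hw : ∀ x, port x (c x) ∈ univ.image Y ∪ Z' := fun x => by
      rw [← himg]
      exact mem_image_of_mem _ (mem_univ x)
    have hAZ : (univ.image Y ∪ univ.biUnion L) ∪ Z' =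
        univ.biUnion (fun x => insert (port x (c x)) (L x)) := by
      have h1 : univ.biUnion (fun x => insert (port x (c x)) (L x)) =
          univ.image (fun x => port x (c x)) ∪ univ.biUnion L := by
        ext a
        simp only [mem_biUnion, mem_union, mem_image, mem_insert, mem_univ, true_and]
        constructor
        · rintro ⟨x, rfl | hx⟩
          · exact Or.inl ⟨x, rfl⟩
          · exact Or.inr ⟨x, hx⟩
        · rintro (⟨x, rfl⟩ | ⟨x, hx⟩)
          · exact ⟨x, Or.inl rfl⟩
          · exact ⟨x, Or.inr hx⟩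
      rw [h1, himg, union_assoc, union_assoc, union_comm (univ.biUnion L) Z']
    rw [hAZ]
    refine matchU_biUnion univ U _ (fun x _ => hm x (c x)) (fun x _ x' _ h => hdU x x' h) ?_
    intro x _ x' _ h
    have hne : ∀ x x', port x (c x) ∉ L x' := by
      intro x x' hx
      rcases mem_union.1 (hw x) with h1 | h1
      · exact (disjoint_left.1 (dLY x') hx) h1
      · exact (disjoint_left.1 (dLF x') hx) (hZF (hZ' h1))
    rw [disjoint_insert_left, disjoint_insert_right]
    refine ⟨?_, hne x' x, hdL x x' h⟩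
    rw [mem_insert]
    rintro (h1 | h1)
    · exact h (hwi h1)
    · exact hne x x' h1

end SSB
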