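import Pool.Agent.Lib.MP_8a819d_co.LH.RuT

/-!
# MP_8a819d_co: absorbers with repeated units, 4. The template with bounded degrees

`template4`: as `template3`, and every port is used by at most four pairs `(x, i)`: for every incidence `i` of `template3` there is
a new port `v i` and a new node `u i` with the ports `pred i`, `v i`, `v i` (`pred i` is `v j` for the incidence `j` before `i` at
the same old port, and the old port itself for the first incidence).
-/

set_option autoImplicit false

namespace SSB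

open Finset

/-- the previous element with the same value -/
theorem t4_pr {I W : Type} [Fintype I] (w : I → W) (key : I → ℕ) :
    ∃ pr : I → Option I, ∀ i, (pr i = none ∧ ∀ j, w j = w i → key i ≤ key j) ∨
      ∃ j, pr i = some j ∧ w j = w i ∧ key j < key i ∧
        ∀ j', w j' = w i → key j' < key i → key j' ≤ key j := by
  classical
  have h : ∀ i, ∃ o : Option I, (o = none ∧ ∀ j, w j = w i → key i ≤ key j) ∨
      ∃ j, o = some j ∧ w j = w i ∧ key j < key i ∧
        ∀ j', w j' = w i → key j' < key i → key j' ≤ key j := by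
    intro i
    by_cases hne : (univ.filter (fun j => w j = w i ∧ key j < key i)).Nonempty
    · obtain ⟨j, hj, hmax⟩ := exists_max_image _ key hne
      obtain ⟨-, h1, h2⟩ := mem_filter.1 hj
      exact ⟨some j, Or.inr ⟨j, rfl, h1, h2, fun j' h3 h4 =>
        hmax j' (mem_filter.2 ⟨mem_univ _, h3, h4⟩)⟩⟩
    · refine ⟨none, Or.inl ⟨rfl, fun j h1 => ?_⟩⟩
      by_contra h2
      exact hne ⟨j, mem_filter.2 ⟨mem_univ _, h1, by omega⟩⟩
  choose pr hpr using h
  exact ⟨pr, hpr⟩

private theorem t4_aux {X Y Z : Type} [Fintype X] [Fintype Y] [DecidableEq X] [DecidableEq Y]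
    [DecidableEq Z] (nb : X → Fin 3 → Y ⊕ Z) (key : X × Fin 3 → ℕ)
    (hkey : Function.Injective key) :
    ∃ nb' : X ⊕ (X × Fin 3) → Fin 3 → (Y ⊕ (X × Fin 3)) ⊕ Z,
      (∀ w, (univ.filter (fun q : (X ⊕ (X × Fin 3)) × Fin 3 => nb' q.1 q.2 = w)).card ≤ 4) ∧
      ∀ (S : Finset Z) (c : X → Fin 3), Function.Injective (fun x => nb x (c x)) →
        (∀ x z, nb x (c x) = Sum.inr z → z ∈ S) →
        ∃ c' : X ⊕ (X × Fin 3) → Fin 3, Function.Injective (fun x => nb' x (c' x)) ∧
          ∀ x z, nb' x (c' x) = Sum.inr z → z ∈ S := by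
  obtain ⟨w, hw⟩ : ∃ w : X × Fin 3 → Y ⊕ Z, ∀ i, w i = nb i.1 i.2 := ⟨_, fun i => rfl⟩
  obtain ⟨pr, hpr⟩ := t4_pr w key
  obtain ⟨g, hg⟩ : ∃ g : Y ⊕ Z → (Y ⊕ (X × Fin 3)) ⊕ Z, g = Sum.map Sum.inl id := ⟨_, rfl⟩
  have hgi : Function.Injective g := by
    rw [hg]
    exact Sum.map_injective.2 ⟨Sum.inl_injective, Function.injective_id⟩
  have hgv : ∀ a i, g a ≠ Sum.inl (Sum.inr i) := by
    intro a i
    rw [hg]
    rcases a with a | a
    · intro h
      exact absurd (Sum.inl.inj h) (by simp)
    · intro h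
      exact absurd h (by simp)
  have hgz : ∀ a z, g a = Sum.inr z → a = Sum.inr z := by
    intro a z
    rw [hg]
    rcases a with a | a
    · intro h
      exact absurd h (by simp)
    · intro h
      rw [show a = z from Sum.inr.inj h]
  obtain ⟨pd, hpd⟩ : ∃ pd : X × Fin 3 → (Y ⊕ (X × Fin 3)) ⊕ Z,
      ∀ i, pd i = (pr i).elim (g (w i)) (fun j => Sum.inl (Sum.inr j)) := ⟨_, fun i => rfl⟩
  have hpdn : ∀ i, pr i = none → pd i = g (w i) := fun i h => by rw [hpd, h]; rfl
  have hpds : ∀ i j, pr i = some j → pd i = Sum.inl (Sum.inr j) := fun i j h => by rw [hpd, h]; rfl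
  -- `pd` is injective
  have hpdi : ∀ i i', pd i = pd i' → i = i' := by
    intro i i' h
    rcases hpr i with ⟨h1, h2⟩ | ⟨j, h1, h2, h3, h4⟩ <;>
      rcases hpr i' with ⟨h1', h2'⟩ | ⟨j', h1', h2', h3', h4'⟩
    · rw [hpdn i h1, hpdn i' h1'] at h
      have h5 := hgi h
      exact hkey (le_antisymm (h2 i' h5.symm) (h2' i h5))
    · rw [hpdn i h1, hpds i' j' h1'] at h
      exact absurd h (hgv _ _)
    · rw [hpds i j h1, hpdn i' h1'] at h
      exact absurd h.symm (hgv _ _)
    · rw [hpds i j h1, hpds i' j' h1'] at h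
      have h5 : j = j' := Sum.inr.inj (Sum.inl.inj h)
      rw [← h5] at h2' h3' h4'
      have h6 : w i = w i' := h2.symm.trans h2'
      rcases Nat.lt_trichotomy (key i) (key i') with h7 | h7 | h7
      · have h8 := h4' i h6 h7
        omega
      · exact hkey h7
      · have h8 := h4 i' h6.symm h7
        omega
  refine ⟨fun x => Sum.elim (fun x p => Sum.inl (Sum.inr (x, p)))
    (fun i p => if p = 0 then pd i else Sum.inl (Sum.inr i)) x, ?_, ?_⟩
  · intro a
    -- the nodes of the second kind with first port `a`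
    obtain ⟨k0, hk0⟩ : ∃ K : Finset (X × Fin 3), K.card ≤ 1 ∧ ∀ k, pd k = a → k ∈ K := by
      by_cases h : ∃ k, pd k = a
      · obtain ⟨k, hk⟩ := h
        exact ⟨{k}, by rw [card_singleton], fun k' hk' => by
          rw [mem_singleton]
          exact hpdi k' k (hk'.trans hk.symm)⟩
      · exact ⟨∅, by rw [card_empty]; norm_num, fun k hk => absurd ⟨k, hk⟩ h⟩
    by_cases hv : ∃ i, a = Sum.inl (Sum.inr i)
    · obtain ⟨i, hi⟩ := hv
      have hsub : (univ.filter (fun q : (X ⊕ (X × Fin 3)) × Fin 3 =>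
          Sum.elim (fun x p => Sum.inl (Sum.inr (x, p)))
            (fun i p => if p = 0 then pd i else Sum.inl (Sum.inr i)) q.1 q.2 = a)) ⊆
          {(Sum.inl i.1, i.2), (Sum.inr i, 1), (Sum.inr i, 2)} ∪
            k0.image (fun k => (Sum.inr k, 0)) := by
        rintro ⟨q, p⟩ hq
        have hq1 := (mem_filter.1 hq).2
        rw [mem_union, mem_insert, mem_insert, mem_singleton, mem_image]
        rcases q with x | k
        · have h1 : (Sum.inl (Sum.inr (x, p)) : (Y ⊕ (X × Fin 3)) ⊕ Z) = a := hq1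
          rw [hi] at h1
          have h2 : (x, p) = i := Sum.inr.inj (Sum.inl.inj h1)
          refine Or.inl (Or.inl ?_)
          rw [← h2]
        · have h1 : (if p = 0 then pd k else Sum.inl (Sum.inr k)) = a := hq1
          by_cases hp : p = 0
          · rw [if_pos hp] at h1
            refine Or.inr ⟨k, hk0.2 k h1, ?_⟩
            rw [hp]
          · rw [if_neg hp, hi] at h1
            have h2 : k = i := Sum.inr.inj (Sum.inl.inj h1)
            rw [h2]
            have h3 : p = 1 ∨ p = 2 := by omega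
            rcases h3 with rfl | rfl
            · exact Or.inl (Or.inr (Or.inl rfl))
            · exact Or.inl (Or.inr (Or.inr rfl))
      refine (card_le_card hsub).trans ((card_union_le _ _).trans ?_)
      have h1 : (({(Sum.inl i.1, i.2), (Sum.inr i, 1), (Sum.inr i, 2)} :
        Finset ((X ⊕ (X × Fin 3)) × Fin 3))).card ≤ 3 := card_le_three
      have h2 : (k0.image (fun k => ((Sum.inr k, 0) : (X ⊕ (X × Fin 3)) × Fin 3))).card ≤ k0.card :=
        card_image_le
      have h3 := hk0.1
      omega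
    · have hsub : (univ.filter (fun q : (X ⊕ (X × Fin 3)) × Fin 3 =>
          Sum.elim (fun x p => Sum.inl (Sum.inr (x, p)))
            (fun i p => if p = 0 then pd i else Sum.inl (Sum.inr i)) q.1 q.2 = a)) ⊆
            k0.image (fun k => (Sum.inr k, 0)) := by
        rintro ⟨q, p⟩ hq
        have hq1 := (mem_filter.1 hq).2
        rw [mem_image]
        rcases q with x | k
        · have h1 : (Sum.inl (Sum.inr (x, p)) : (Y ⊕ (X × Fin 3)) ⊕ Z) = a := hq1
          exact absurd ⟨_, h1.symm⟩ hv
        · have h1 : (if p = 0 then pd k else Sum.inl (Sum.inr k)) = a := hq1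
          by_cases hp : p = 0
          · rw [if_pos hp] at h1
            refine ⟨k, hk0.2 k h1, ?_⟩
            rw [hp]
          · rw [if_neg hp] at h1
            exact absurd ⟨_, h1.symm⟩ hv
      refine (card_le_card hsub).trans ?_
      have h2 : (k0.image (fun k => ((Sum.inr k, 0) : (X ⊕ (X × Fin 3)) × Fin 3))).card ≤ k0.card :=
        card_image_le
      have h3 := hk0.1
      omega
  · intro S c hc hS
    classical
    -- node of the second kind takes its first port
    obtain ⟨T, hT⟩ : ∃ T : X × Fin 3 → Prop, ∀ i, T i ↔ ∃ x, nb x (c x) = w i ∧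
        key i ≤ key (x, c x) := ⟨_, fun i => Iff.rfl⟩
    obtain ⟨c', hc'⟩ : ∃ c' : X ⊕ (X × Fin 3) → Fin 3,
        c' = Sum.elim c (fun i => if T i then 0 else 1) := ⟨_, rfl⟩
    have e1 : ∀ x, Sum.elim (fun x p => Sum.inl (Sum.inr (x, p)))
        (fun i p => if p = 0 then pd i else Sum.inl (Sum.inr i)) (Sum.inl x) (c' (Sum.inl x)) =
        Sum.inl (Sum.inr (x, c x)) := by
      intro x
      rw [hc']
      rfl
    have e2 : ∀ i, T i → Sum.elim (fun x p => Sum.inl (Sum.inr (x, p)))
        (fun i p => if p = 0 then pd i else Sum.inl (Sum.inr i)) (Sum.inr i) (c' (Sum.inr i)) =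
        pd i := by
      intro i hi
      rw [hc']
      change (if (if T i then (0 : Fin 3) else 1) = 0 then pd i else Sum.inl (Sum.inr i)) = pd i
      rw [if_pos hi, if_pos rfl]
    have e3 : ∀ i, ¬ T i → Sum.elim (fun x p => Sum.inl (Sum.inr (x, p)))
        (fun i p => if p = 0 then pd i else Sum.inl (Sum.inr i)) (Sum.inr i) (c' (Sum.inr i)) =
        Sum.inl (Sum.inr i) := by
      intro i hi
      rw [hc']
      change (if (if T i then (0 : Fin 3) else 1) = 0 then pd i else Sum.inl (Sum.inr i)) =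
        Sum.inl (Sum.inr i)
      rw [if_neg hi, if_neg (by decide)]
    -- a matched incidence takes its first port
    have hTm : ∀ x, T (x, c x) := fun x => (hT _).2 ⟨x, by rw [hw], le_refl _⟩
    -- the port of `T i`
    have hpT : ∀ i j, T i → pd i = Sum.inl (Sum.inr j) → T j ∧ ∀ x, (x, c x) ≠ j := by
      intro i j hi hj
      rcases hpr i with ⟨h1, -⟩ | ⟨j', h1, h2, h3, -⟩
      · rw [hpdn i h1] at hj
        exact absurd hj (hgv _ _)
      · rw [hpds i j' h1] at hj
        have h4 : j' = j := Sum.inr.inj (Sum.inl.inj hj)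
        rw [h4] at h2 h3
        obtain ⟨x, hx1, hx2⟩ := (hT i).1 hi
        refine ⟨(hT j).2 ⟨x, hx1.trans h2.symm, by omega⟩, fun x' hx' => ?_⟩
        have h5 : nb x' (c x') = w j := by rw [← hx', hw]
        have h6 : x' = x := hc (h5.trans (h2.trans hx1.symm))
        rw [h6] at hx'
        rw [hx'] at hx2
        omega
    refine ⟨c', ?_, ?_⟩
    · intro q q' h
      rcases q with x | i <;> rcases q' with x' | i'
      · simp only [e1] at h
        have h1 : (x, c x) = (x', c x') := Sum.inr.inj (Sum.inl.inj h)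
        rw [(Prod.mk.inj h1).1]
      · by_cases hi : T i'
        · simp only [e1, e2 i' hi] at h
          exact absurd rfl ((hpT i' _ hi h.symm).2 x)
        · simp only [e1, e3 i' hi] at h
          have h1 : (x, c x) = i' := Sum.inr.inj (Sum.inl.inj h)
          exact absurd (h1 ▸ hTm x) hi
      · by_cases hi : T i
        · simp only [e1, e2 i hi] at h
          exact absurd rfl ((hpT i _ hi h).2 x')
        · simp only [e1, e3 i hi] at h
          have h1 : i = (x', c x') := Sum.inr.inj (Sum.inl.inj h)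
          exact absurd (h1.symm ▸ hTm x') hi
      · by_cases hi : T i <;> by_cases hi' : T i'
        · simp only [e2 i hi, e2 i' hi'] at h
          rw [hpdi i i' h]
        · simp only [e2 i hi, e3 i' hi'] at h
          exact absurd (hpT i _ hi h).1 hi'
        · simp only [e3 i hi, e2 i' hi'] at h
          exact absurd (hpT i' _ hi' h.symm).1 hi
        · simp only [e3 i hi, e3 i' hi'] at h
          rw [Sum.inr.inj (Sum.inl.inj h)]
    · intro q z h
      rcases q with x | i
      · simp only [e1] at h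
        exact absurd h (by simp)
      · by_cases hi : T i
        · simp only [e2 i hi] at h
          rcases hpr i with ⟨h1, -⟩ | ⟨j', h1, -, -, -⟩
          · rw [hpdn i h1] at h
            have h2 := hgz _ _ h
            obtain ⟨x, hx1, -⟩ := (hT i).1 hi
            exact hS x z (hx1.trans h2)
          · rw [hpds i j' h1] at h
            exact absurd h (by simp)
        · simp only [e3 i hi] at h
          exact absurd h (by simp)

/-- the template with bounded degrees -/
theorem template4 : ∃ C : ℕ, ∀ M : ℕ, 1 ≤ M →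
    ∃ (y : ℕ) (nb : Fin (y + M) → Fin 3 → Fin y ⊕ Fin (2 * M)), y ≤ C * M ∧
      (∀ w, (univ.filter (fun q : Fin (y + M) × Fin 3 => nb q.1 q.2 = w)).card ≤ 4) ∧
      ∀ Z : Finset (Fin (2 * M)), Z.card = M →
        ∃ c : Fin (y + M) → Fin 3, Function.Injective (fun x => nb x (c x)) ∧
          ∀ x z, nb x (c x) = Sum.inr z → z ∈ Z := by
  obtain ⟨C, hC⟩ := template3
  refine ⟨4 * C + 3, fun M hM => ?_⟩
  obtain ⟨y, nb, hy, hnb⟩ := hC M hM
  obtain ⟨nb', hdeg, hmt⟩ := t4_aux nb (fun q => 3 * (q.1 : ℕ) + (q.2 : ℕ)) (by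
    rintro ⟨a, b⟩ ⟨a', b'⟩ h
    have h1 : 3 * (a : ℕ) + (b : ℕ) = 3 * (a' : ℕ) + (b' : ℕ) := h
    have hb := b.2
    have hb' := b'.2
    have h2 : (a : ℕ) = (a' : ℕ) := by omega
    have h3 : (b : ℕ) = (b' : ℕ) := by omega
    rw [Fin.ext h2, Fin.ext h3])
  have cX : Fintype.card (Fin (y + M) ⊕ (Fin (y + M) × Fin 3)) = (y + (y + M) * 3) + M := by
    rw [Fintype.card_sum, Fintype.card_prod, Fintype.card_fin, Fintype.card_fin]
    omega
  have cY : Fintype.card (Fin y ⊕ (Fin (y + M) × Fin 3)) = y + (y + M) * 3 := by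
    rw [Fintype.card_sum, Fintype.card_prod, Fintype.card_fin, Fintype.card_fin, Fintype.card_fin]
  obtain ⟨eX, -⟩ : ∃ e : Fin ((y + (y + M) * 3) + M) ≃ (Fin (y + M) ⊕ (Fin (y + M) × Fin 3)), True :=
    ⟨(Fintype.equivFinOfCardEq cX).symm, trivial⟩
  obtain ⟨eY, -⟩ : ∃ e : (Fin y ⊕ (Fin (y + M) × Fin 3)) ≃ Fin (y + (y + M) * 3), True :=
    ⟨Fintype.equivFinOfCardEq cY, trivial⟩
  have hinj : Function.Injective (Sum.map eY (id : Fin (2 * M) → Fin (2 * M))) :=
    Sum.map_injective.2 ⟨eY.injective, Function.injective_id⟩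
  refine ⟨y + (y + M) * 3, fun i p => Sum.map eY id (nb' (eX i) p), ?_, ?_, fun Z hZ => ?_⟩
  · have h1 : (4 * C + 3) * M = 4 * (C * M) + 3 * M := by ring
    rw [h1]
    omega
  · intro w
    have h1 : ∃ w', w = Sum.map eY id w' := by
      rcases w with a | b
      · exact ⟨Sum.inl (eY.symm a), by simp⟩
      · exact ⟨Sum.inr b, rfl⟩
    obtain ⟨w', rfl⟩ := h1
    refine le_trans ?_ (hdeg w')
    refine card_le_card_of_injOn (fun q => (eX q.1, q.2)) ?_ ?_
    · intro q hq
      have h2 := (mem_filter.1 (mem_coe.1 hq)).2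
      exact mem_coe.2 (mem_filter.2 ⟨mem_univ _, hinj h2⟩)
    · rintro ⟨a, b⟩ - ⟨a', b'⟩ - h2
      have h3 : (eX a, b) = (eX a', b') := h2
      obtain ⟨h4, h5⟩ := Prod.mk.inj h3
      rw [eX.injective h4, h5]
  · obtain ⟨c, hc1, hc2⟩ := hnb Z hZ
    obtain ⟨c', hc1', hc2'⟩ := hmt Z c hc1 hc2
    refine ⟨fun i => c' (eX i), fun i i' hii => ?_, fun i z hz => ?_⟩
    · have h1 : nb' (eX i) (c' (eX i)) = nb' (eX i') (c' (eX i')) := hinj hii
      exact eX.injective (hc1' h1)
    · have hz' : Sum.map eY id (nb' (eX i) (c' (eX i))) = Sum.inr z := hz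
      rcases h1 : nb' (eX i) (c' (eX i)) with a | b
      · rw [h1] at hz'
        cases hz'
      · rw [h1] at hz'
        have h2 : b = z := Sum.inr.inj hz'
        rw [← h2]
        exact hc2' _ _ h1

/-- enumeration of `Z` by `Fin (2 M)`, every label at most twice -/
theorem rh_enum {M : ℕ} {Z : Finset ℕ} (hZ : M ≤ Z.card) (hc : Z.card ≤ 2 * M) :
    ∃ wz : Fin (2 * M) → ℕ, (∀ b, wz b ∈ Z) ∧ (∀ z, (univ.filter (fun b => wz b = z)).card ≤ 2) ∧
      ∀ Z' ⊆ Z, Z'.card = M →
        ∃ Zf : Finset (Fin (2 * M)), Zf.card = M ∧ (∀ b ∈ Zf, wz b ∈ Z') ∧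
          ∀ b ∈ Zf, ∀ b' ∈ Zf, wz b = wz b' → b = b' := by
  have hlt : ∀ b : Fin (2 * M), (if (b : ℕ) < Z.card then (b : ℕ) else (b : ℕ) - Z.card) < Z.card := by
    intro b
    have h1 := b.2
    split_ifs with h
    · exact h
    · omega
  obtain ⟨wz, hwz⟩ : ∃ wz : Fin (2 * M) → ℕ, ∀ b, wz b = Z.orderEmbOfFin rfl ⟨_, hlt b⟩ :=
    ⟨_, fun b => rfl⟩
  have hv : ∀ b b', wz b = wz b' → (if (b : ℕ) < Z.card then (b : ℕ) else (b : ℕ) - Z.card) =
      (if (b' : ℕ) < Z.card then (b' : ℕ) else (b' : ℕ) - Z.card) := by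
    intro b b' h
    rw [hwz, hwz] at h
    have h2 := (Z.orderEmbOfFin rfl).injective h
    exact congrArg (fun q : Fin Z.card => (q : ℕ)) h2
  refine ⟨wz, ?_, ?_, ?_⟩
  · intro b
    rw [hwz]
    exact Z.orderEmbOfFin_mem rfl _
  · intro z
    have h1 : ((univ.filter (fun b => wz b = z)).filter (fun b : Fin (2 * M) => (b : ℕ) < Z.card)).card
        ≤ 1 := by
      rw [card_le_one]
      intro b hb b' hb'
      obtain ⟨h2, h3⟩ := mem_filter.1 hb
      obtain ⟨h2', h3'⟩ := mem_filter.1 hb'
      have h4 := hv b b' ((mem_filter.1 h2).2.trans (mem_filter.1 h2').2.symm)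
      rw [if_pos h3, if_pos h3'] at h4
      exact Fin.ext h4
    have h1' : ((univ.filter (fun b => wz b = z)).filter
        (fun b : Fin (2 * M) => ¬ (b : ℕ) < Z.card)).card ≤ 1 := by
      rw [card_le_one]
      intro b hb b' hb'
      obtain ⟨h2, h3⟩ := mem_filter.1 hb
      obtain ⟨h2', h3'⟩ := mem_filter.1 hb'
      have h4 := hv b b' ((mem_filter.1 h2).2.trans (mem_filter.1 h2').2.symm)
      rw [if_neg h3, if_neg h3'] at h4
      exact Fin.ext (by omega)
    have h5 := card_filter_add_card_filter_not (s := univ.filter (fun b => wz b = z))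
      (fun b : Fin (2 * M) => (b : ℕ) < Z.card)
    omega
  · intro Z' hZ' hM'
    have hinj : ∀ b b' : Fin (2 * M), (b : ℕ) < Z.card → (b' : ℕ) < Z.card → wz b = wz b' →
        b = b' := by
      intro b b' hb hb' he
      have h4 := hv b b' he
      rw [if_pos hb, if_pos hb'] at h4
      exact Fin.ext h4
    refine ⟨univ.filter (fun b => (b : ℕ) < Z.card ∧ wz b ∈ Z'), ?_, ?_, ?_⟩
    · have him : (univ.filter (fun b : Fin (2 * M) => (b : ℕ) < Z.card ∧ wz b ∈ Z')).image wz
          = Z' := by
        ext z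
        rw [mem_image]
        constructor
        · rintro ⟨b, hb, rfl⟩
          exact (mem_filter.1 hb).2.2
        · intro hz
          have hzZ := hZ' hz
          have : z ∈ Set.range (Z.orderEmbOfFin (k := Z.card) rfl) := by
            rw [Finset.range_orderEmbOfFin]
            exact hzZ
          obtain ⟨q, hq⟩ := this
          have hq2 : (q : ℕ) < 2 * M := lt_of_lt_of_le q.2 hc
          have hw : wz ⟨q, hq2⟩ = z := by
            rw [hwz, ← hq]
            congr 1
            apply Fin.ext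
            exact if_pos q.2
          refine ⟨⟨q, hq2⟩, mem_filter.2 ⟨mem_univ _, q.2, ?_⟩, hw⟩
          rw [hw]
          exact hz
      have hio : Set.InjOn wz
          (univ.filter (fun b : Fin (2 * M) => (b : ℕ) < Z.card ∧ wz b ∈ Z')) := by
        intro b hb b' hb' he
        have hb1 := (mem_filter.1 (mem_coe.1 hb)).2.1
        have hb1' := (mem_filter.1 (mem_coe.1 hb')).2.1
        exact hinj b b' hb1 hb1' he
      have hcc := card_image_of_injOn hio
      rw [him] at hcc
      exact hcc.symm.trans hM'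
    · intro b hb
      exact (mem_filter.1 hb).2.2
    · intro b hb b' hb' he
      exact hinj b b' (mem_filter.1 hb).2.1 (mem_filter.1 hb').2.1 he

/-- the ports, every label at most eight times -/
theorem tmplt8 : ∃ C : ℕ, ∀ M : ℕ, 1 ≤ M → ∃ y : ℕ, y ≤ C * M ∧
    ∀ Z : Finset ℕ, M ≤ Z.card → Z.card ≤ 2 * M →
    ∀ Y : Fin y → ℕ, Function.Injective Y → (∀ i, Y i ∉ Z) →
      ∃ port : Fin (y + M) → Fin 3 → ℕ, (∀ x i, port x i ∈ univ.image Y ∪ Z) ∧
        (∀ v, (univ.filter (fun q : Fin (y + M) × Fin 3 => port q.1 q.2 = v)).card ≤ 8) ∧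
        ∀ Z' ⊆ Z, Z'.card = M → ∃ c : Fin (y + M) → Fin 3,
          Function.Injective (fun x => port x (c x)) ∧
          univ.image (fun x => port x (c x)) = univ.image Y ∪ Z' := by
  obtain ⟨C, hC⟩ := template4
  refine ⟨C, fun M hM => ?_⟩
  obtain ⟨y, nb, hy, hdeg, hnb⟩ := hC M hM
  refine ⟨y, hy, fun Z hZ hZc Y hY hYZ => ?_⟩
  obtain ⟨wz, hwz, hwz2, hwz3⟩ := rh_enum hZ hZc
  refine ⟨fun x i => Sum.elim Y wz (nb x i), fun x i => ?_, fun v => ?_, fun Z' hZ' hM' => ?_⟩
  · change Sum.elim Y wz (nb x i) ∈ _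
    rcases nb x i with a | b
    · exact mem_union_left _ (mem_image_of_mem Y (mem_univ a))
    · exact mem_union_right _ (hwz b)
  · -- multiplicities
    obtain ⟨S, hS1, hS2⟩ : ∃ S : Finset (Fin y ⊕ Fin (2 * M)), S.card ≤ 2 ∧
        ∀ w, Sum.elim Y wz w = v → w ∈ S := by
      by_cases hv : v ∈ Z
      · refine ⟨(univ.filter (fun b => wz b = v)).image Sum.inr, card_image_le.trans (hwz2 v), ?_⟩
        intro w hw
        rcases w with a | b
        · exact absurd hv (hw ▸ hYZ a)
        · exact mem_image_of_mem _ (mem_filter.2 ⟨mem_univ _, hw⟩)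
      · by_cases hv2 : ∃ a, Y a = v
        · obtain ⟨a, ha⟩ := hv2
          refine ⟨{Sum.inl a}, by rw [card_singleton]; norm_num, ?_⟩
          intro w hw
          rw [mem_singleton]
          rcases w with a' | b
          · exact congrArg Sum.inl (hY ((show Y a' = v from hw).trans ha.symm))
          · exact absurd (hwz b) ((show wz b = v from hw).symm ▸ hv)
        · refine ⟨∅, by rw [card_empty]; norm_num, ?_⟩
          intro w hw
          rcases w with a' | b
          · exact absurd ⟨a', hw⟩ hv2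
          · exact absurd (hwz b) ((show wz b = v from hw).symm ▸ hv)
    have h1 : univ.filter (fun q : Fin (y + M) × Fin 3 => Sum.elim Y wz (nb q.1 q.2) = v) ⊆
        S.biUnion (fun w => univ.filter (fun q : Fin (y + M) × Fin 3 => nb q.1 q.2 = w)) := by
      intro q hq
      rw [mem_biUnion]
      exact ⟨_, hS2 _ (mem_filter.1 hq).2, mem_filter.2 ⟨mem_univ _, rfl⟩⟩
    refine (card_le_card h1).trans (card_biUnion_le.trans ?_)
    refine (sum_le_sum fun w _ => hdeg w).trans ?_
    rw [sum_const, smul_eq_mul]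
    omega
  · obtain ⟨Zf, hZfc, hZf1, hZf2⟩ := hwz3 Z' hZ' hM'
    obtain ⟨c, hc1, hc2⟩ := hnb Zf hZfc
    have hw : ∀ x, Sum.elim Y wz (nb x (c x)) ∈ univ.image Y ∪ Z' := by
      intro x
      rcases h : nb x (c x) with a | b
      · exact mem_union_left _ (mem_image_of_mem Y (mem_univ a))
      · exact mem_union_right _ (hZf1 b (hc2 x b h))
    have hwi : Function.Injective (fun x => Sum.elim Y wz (nb x (c x))) := by
      intro x x' he
      simp only at he
      apply hc1
      show nb x (c x) = nb x' (c x')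
      rcases h : nb x (c x) with a | b <;> rcases h' : nb x' (c x') with a' | b'
      · rw [h, h'] at he
        simp only [Sum.elim_inl] at he
        rw [hY he]
      · rw [h, h'] at he
        simp only [Sum.elim_inl, Sum.elim_inr] at he
        exact absurd (hwz b') (he ▸ hYZ a)
      · rw [h, h'] at he
        simp only [Sum.elim_inl, Sum.elim_inr] at he
        exact absurd (hwz b) (he.symm ▸ hYZ a')
      · rw [h, h'] at he
        simp only [Sum.elim_inr] at he
        rw [hZf2 b (hc2 x b h) b' (hc2 x' b' h') he]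
    have hYZ' : Disjoint (univ.image Y) Z' := by
      rw [disjoint_left]
      intro a ha haZ
      obtain ⟨i, -, rfl⟩ := mem_image.1 ha
      exact hYZ i (hZ' haZ)
    refine ⟨c, hwi, ?_⟩
    apply eq_of_subset_of_card_le
    · intro a ha
      obtain ⟨x, -, rfl⟩ := mem_image.1 ha
      exact hw x
    · rw [card_union_of_disjoint hYZ', card_image_of_injective _ hY, hM',
        card_image_of_injective _ hwi]
      simp

end SSB
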