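import Pool.Agent.Lib.MP_8a819d_co.LH.RuM

/-!
# MP_8a819d_co: absorbers with repeated units, 6. Links, paths and cores

A link with `k` units: cells `x 0, ..., x (2 k)`, the unit `u i` can take `{x (2 i), x (2 i + 1)}` and `{x (2 i + 1), x (2 i + 2)}`.
It absorbs one of its ends. Monotone links: `x (2 i + 1) = x (2 i) + c (u i)`, `x (2 i + 2) = x (2 i) + 2 c (u i)`.
-/

set_option autoImplicit false

namespace SSB

open Finset

section link

variable {υ : Type*} [DecidableEq υ] {ℓ : υ → ℕ}

/-- the inner cells of a link -/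
def lkIn (k : ℕ) (x : ℕ → ℕ) : Finset ℕ := (range (2 * k - 1)).image (fun i => x (i + 1))

/-- the units of a link -/
def lkU (k : ℕ) (u : ℕ → υ) : Finset υ := (range k).image u

theorem lkIn_succ {k : ℕ} (hk : 1 ≤ k) (x : ℕ → ℕ) :
    lkIn (k + 1) x = insert (x (2 * k + 1)) (insert (x (2 * k)) (lkIn k x)) := by
  unfold lkIn
  ext a
  simp only [mem_image, mem_range, mem_insert]
  constructor
  · rintro ⟨i, hi, rfl⟩
    rcases Nat.lt_trichotomy (i + 1) (2 * k) with h | h | h
    · exact Or.inr (Or.inr ⟨i, by omega, rfl⟩)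
    · exact Or.inr (Or.inl (by rw [h]))
    · exact Or.inl (by rw [show i + 1 = 2 * k + 1 by omega])
  · rintro (rfl | rfl | ⟨i, hi, rfl⟩)
    · exact ⟨2 * k, by omega, rfl⟩
    · exact ⟨2 * k - 1, by omega, by rw [show 2 * k - 1 + 1 = 2 * k by omega]⟩
    · exact ⟨i, by omega, rfl⟩

theorem lkIn_one (x : ℕ → ℕ) : lkIn 1 x = {x 1} := by
  unfold lkIn
  rw [show 2 * 1 - 1 = 1 from rfl, range_one, image_singleton]

theorem lkU_succ (k : ℕ) (u : ℕ → υ) : lkU (k + 1) u = insert (u k) (lkU k u) := by
  unfold lkU
  rw [range_add_one, image_insert]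

/-- a link absorbs one of its ends -/
theorem link_match {k : ℕ} (hk : 1 ≤ k) {x : ℕ → ℕ} {u : ℕ → υ}
    (hx : ∀ i ≤ 2 * k, ∀ j ≤ 2 * k, x i = x j → i = j)
    (hu : ∀ i < k, ∀ j < k, u i = u j → i = j)
    (h1 : ∀ i < k, IsBlock 1 (ℓ (u i), ℓ (u i)) {x (2 * i), x (2 * i + 1)})
    (h2 : ∀ i < k, IsBlock 1 (ℓ (u i), ℓ (u i)) {x (2 * i + 1), x (2 * i + 2)}) :
    MatchU (lkU k u) ℓ (insert (x 0) (lkIn k x)) ∧
      MatchU (lkU k u) ℓ (insert (x (2 * k)) (lkIn k x)) := by
  induction k with
  | zero => omega
  | succ k ih =>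
    rcases Nat.eq_zero_or_pos k with rfl | hk0
    · rw [lkIn_one]
      have h3 : lkU (0 + 1) u = {u 0} := by
        unfold lkU
        rw [show 0 + 1 = 1 from rfl, range_one, image_singleton]
      rw [h3]
      refine ⟨?_, ?_⟩
      · exact matchU_single (h1 0 (by norm_num))
      · rw [pair_comm]
        exact matchU_single (h2 0 (by norm_num))
    · obtain ⟨a1, a2⟩ := ih hk0 (fun i hi j hj => hx i (by omega) j (by omega))
        (fun i hi j hj => hu i (by omega) j (by omega)) (fun i hi => h1 i (by omega))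
        (fun i hi => h2 i (by omega))
      have hd : Disjoint {u k} (lkU k u) := by
        rw [disjoint_singleton_left]
        unfold lkU
        rw [mem_image]
        rintro ⟨i, hi, he⟩
        have h3 := hu i (by have := mem_range.1 hi; omega) k (by omega) he
        have := mem_range.1 hi
        omega
      have hn : ∀ i ≤ 2 * k + 2, 2 * k ≤ i → x i ∉ lkIn k x := by
        intro i hi1 hi2
        unfold lkIn
        rw [mem_image]
        rintro ⟨j, hj, he⟩
        have h3 := mem_range.1 hj
        have h4 := hx (j + 1) (by omega) i (by omega) he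
        omega
      have hne : ∀ i ≤ 2 * k + 2, ∀ j ≤ 2 * k + 2, i ≠ j → x i ≠ x j := fun i hi j hj hij h =>
        hij (hx i (by omega) j (by omega) h)
      have e1 : insert (x 0) (lkIn (k + 1) x) =
          {x (2 * k), x (2 * k + 1)} ∪ insert (x 0) (lkIn k x) := by
        rw [lkIn_succ hk0]
        ext a
        simp only [mem_insert, mem_union, mem_singleton]
        tauto
      have e2 : insert (x (2 * (k + 1))) (lkIn (k + 1) x) =
          {x (2 * k + 1), x (2 * k + 2)} ∪ insert (x (2 * k)) (lkIn k x) := by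
        rw [lkIn_succ hk0, show 2 * (k + 1) = 2 * k + 2 by ring]
        ext a
        simp only [mem_insert, mem_union, mem_singleton]
        tauto
      rw [e1, e2, lkU_succ, insert_eq]
      refine ⟨matchU_union (matchU_single (h1 k (by omega))) a1 hd ?_,
        matchU_union (matchU_single (h2 k (by omega))) a2 hd ?_⟩
      · simp only [disjoint_insert_left, disjoint_singleton_left, mem_insert, not_or]
        exact ⟨⟨hne _ (by omega) _ (by omega) (by omega), hn _ (by omega) (by omega)⟩,
          hne _ (by omega) _ (by omega) (by omega), hn _ (by omega) (by omega)⟩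
      · simp only [disjoint_insert_left, disjoint_singleton_left, mem_insert, not_or]
        exact ⟨⟨hne _ (by omega) _ (by omega) (by omega), hn _ (by omega) (by omega)⟩,
          hne _ (by omega) _ (by omega) (by omega), hn _ (by omega) (by omega)⟩

/-- a block `{a, a + c}` -/
theorem isBlock_add {a b c : ℕ} (h : b = a + c) (ha : a ≠ 0) (hc : c ≠ 0) :
    IsBlock 1 (c, c) {a, b} := by
  rw [h, pair_comm]
  refine isBlock_pair ?_ (by omega) (by omega) ha
  unfold dd
  omega

/-- a monotone link absorbs one of its ends -/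
theorem link_mono {k : ℕ} (hk : 1 ≤ k) {x : ℕ → ℕ} {u : ℕ → υ} (h0 : 1 ≤ x 0)
    (hu : ∀ i < k, ∀ j < k, u i = u j → i = j) (hp : ∀ i < k, 1 ≤ ℓ (u i))
    (h1 : ∀ i < k, x (2 * i + 1) = x (2 * i) + ℓ (u i))
    (h2 : ∀ i < k, x (2 * i + 2) = x (2 * i) + 2 * ℓ (u i)) :
    MatchU (lkU k u) ℓ (insert (x 0) (lkIn k x)) ∧
      MatchU (lkU k u) ℓ (insert (x (2 * k)) (lkIn k x)) := by
  have hlt : ∀ i < 2 * k, x i < x (i + 1) := by
    intro i hi
    have h3 := hp (i / 2) (by omega)
    have h4 := h1 (i / 2) (by omega)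
    have h5 := h2 (i / 2) (by omega)
    rcases Nat.even_or_odd' i with ⟨q, rfl | rfl⟩
    · rw [show 2 * q / 2 = q by omega] at h3 h4
      omega
    · rw [show (2 * q + 1) / 2 = q by omega] at h3 h4 h5
      rw [show 2 * q + 1 + 1 = 2 * q + 2 by ring]
      omega
  have hmono : ∀ d i, i + d ≤ 2 * k → x i + d ≤ x (i + d) := by
    intro d
    induction d with
    | zero => intro i _; simp
    | succ d ih =>
      intro i hi
      have h3 := ih i (by omega)
      have h4 := hlt (i + d) (by omega)
      rw [show i + (d + 1) = i + d + 1 by ring]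
      omega
  have hpos : ∀ i ≤ 2 * k, 1 ≤ x i := by
    intro i hi
    have h3 := hmono i 0 (by omega)
    rw [zero_add] at h3
    omega
  refine link_match hk ?_ hu ?_ ?_
  · intro i hi j hj he
    rcases Nat.lt_trichotomy i j with h | h | h
    · have h3 := hmono (j - i) i (by omega)
      rw [show i + (j - i) = j by omega] at h3
      omega
    · exact h
    · have h3 := hmono (i - j) j (by omega)
      rw [show j + (i - j) = i by omega] at h3
      omega
  · intro i hi
    refine isBlock_add (h1 i hi) ?_ ?_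
    · have := hpos (2 * i) (by omega)
      omega
    · have := hp i hi
      omega
  · intro i hi
    have h3 := hp i hi
    refine isBlock_add ?_ ?_ ?_
    · rw [h2 i hi, h1 i hi]
      ring
    · have := hpos (2 * i + 1) (by omega)
      omega
    · omega

/-- two links with a common end `y` -/
theorem link_two {U1 U2 : Finset υ} {L1 L2 : Finset ℕ} {a b y : ℕ}
    (h1 : MatchU U1 ℓ (insert a L1)) (h1' : MatchU U1 ℓ (insert y L1))
    (h2 : MatchU U2 ℓ (insert b L2)) (h2' : MatchU U2 ℓ (insert y L2))
    (hU : Disjoint U1 U2) (hL : Disjoint L1 L2) (ha : a ∉ insert y L2) (hb : b ∉ insert y L1)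
    (hy1 : y ∉ L1) (hy2 : y ∉ L2) :
    MatchU (U1 ∪ U2) ℓ (insert a (insert y (L1 ∪ L2))) ∧
      MatchU (U1 ∪ U2) ℓ (insert b (insert y (L1 ∪ L2))) := by
  rw [mem_insert, not_or] at ha hb
  constructor
  · have h3 := matchU_union h1 h2' hU (by
      simp only [disjoint_insert_left, disjoint_insert_right, mem_insert, not_or]
      exact ⟨⟨fun h => ha.1 h.symm, hy1⟩, ha.2, hL⟩)
    have e : insert a L1 ∪ insert y L2 = insert a (insert y (L1 ∪ L2)) := by
      ext t
      simp only [mem_insert, mem_union]
      tauto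
    rwa [e] at h3
  · have h3 := matchU_union h1' h2 hU (by
      simp only [disjoint_insert_left, disjoint_insert_right, mem_insert, not_or]
      exact ⟨⟨hb.1, hb.2⟩, hy2, hL⟩)
    have e : insert y L1 ∪ insert b L2 = insert b (insert y (L1 ∪ L2)) := by
      ext t
      simp only [mem_insert, mem_union]
      tauto
    rwa [e] at h3

private theorem rw_two {u v : υ} {A B : Finset ℕ} (huv : u ≠ v) (hA : IsBlock 1 (ℓ u, ℓ u) A)
    (hB : IsBlock 1 (ℓ v, ℓ v) B) (hAB : Disjoint A B) : MatchU {u, v} ℓ (A ∪ B) := by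
  have h1 := matchU_union (matchU_single hA) (matchU_single hB) (disjoint_singleton.2 huv) hAB
  rwa [← insert_eq] at h1

/-- the core with free signs: `{p - c2, p, p + c2}` and one of `p ± c2 ± c1` -/
theorem core_free {p c1 c2 q : ℕ} {u v : υ} (huv : u ≠ v) (hu : ℓ u = c1) (hv : ℓ v = c2)
    (h1 : 1 ≤ c1) (h2 : 1 ≤ c2) (h3 : c1 ≠ c2) (h4 : c1 ≠ 2 * c2) (h5 : c1 + c2 < p)
    (hq : q = p + c2 + c1 ∨ q = p + c2 - c1 ∨ q = p - c2 + c1 ∨ q = p - c2 - c1) :
    MatchU {u, v} ℓ (insert q {p - c2, p, p + c2}) := by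
  have hpu : ∀ a b, b = a + c1 → a ≠ 0 → IsBlock 1 (ℓ u, ℓ u) {a, b} := fun a b h ha => by
    rw [hu]
    exact isBlock_add h ha (by omega)
  have hpv : ∀ a b, b = a + c2 → a ≠ 0 → IsBlock 1 (ℓ v, ℓ v) {a, b} := fun a b h ha => by
    rw [hv]
    exact isBlock_add h ha (by omega)
  rcases hq with rfl | rfl | rfl | rfl
  · have h := rw_two huv (hpu (p + c2) (p + c2 + c1) rfl (by omega))
      (hpv (p - c2) p (by omega) (by omega)) (by
        simp only [disjoint_insert_left, disjoint_singleton_left, mem_insert, mem_singleton, not_or]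
        omega)
    have e : ({p + c2, p + c2 + c1} : Finset ℕ) ∪ {p - c2, p} =
        insert (p + c2 + c1) {p - c2, p, p + c2} := by
      ext t
      simp only [mem_insert, mem_union, mem_singleton]
      tauto
    rwa [e] at h
  · have h := rw_two huv (hpu (p + c2 - c1) (p + c2) (by omega) (by omega))
      (hpv (p - c2) p (by omega) (by omega)) (by
        simp only [disjoint_insert_left, disjoint_singleton_left, mem_insert, mem_singleton, not_or]
        omega)
    have e : ({p + c2 - c1, p + c2} : Finset ℕ) ∪ {p - c2, p} =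
        insert (p + c2 - c1) {p - c2, p, p + c2} := by
      ext t
      simp only [mem_insert, mem_union, mem_singleton]
      tauto
    rwa [e] at h
  · have h := rw_two huv (hpu (p - c2) (p - c2 + c1) rfl (by omega))
      (hpv p (p + c2) rfl (by omega)) (by
        simp only [disjoint_insert_left, disjoint_singleton_left, mem_insert, mem_singleton, not_or]
        omega)
    have e : ({p - c2, p - c2 + c1} : Finset ℕ) ∪ {p, p + c2} =
        insert (p - c2 + c1) {p - c2, p, p + c2} := by
      ext t
      simp only [mem_insert, mem_union, mem_singleton]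
      tauto
    rwa [e] at h
  · have h := rw_two huv (hpu (p - c2 - c1) (p - c2) (by omega) (by omega))
      (hpv p (p + c2) rfl (by omega)) (by
        simp only [disjoint_insert_left, disjoint_singleton_left, mem_insert, mem_singleton, not_or]
        omega)
    have e : ({p - c2 - c1, p - c2} : Finset ℕ) ∪ {p, p + c2} =
        insert (p - c2 - c1) {p - c2, p, p + c2} := by
      ext t
      simp only [mem_insert, mem_union, mem_singleton]
      tauto
    rwa [e] at h

/-- the ports of helper88's core -/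
def corePort (p c0 c1 c2 : ℕ) (i : Fin 3) : ℕ :=
  if i = 0 then p + c2 + c1 - 2 * c0 else if i = 1 then p + c2 - c1 else p - c2 + c1

/-- the labels of helper88's core -/
def coreK (p c0 c1 c2 : ℕ) : Finset ℕ := {p - c2, p, p + c2, p + c2 + c1, p + c2 + c1 - c0}

/-- helper88's core -/
theorem core_mono {p c0 c1 c2 : ℕ} {u0 u1 u2 : υ} (h01 : u0 ≠ u1) (h02 : u0 ≠ u2) (h12 : u1 ≠ u2)
    (e0 : ℓ u0 = c0) (e1 : ℓ u1 = c1) (e2 : ℓ u2 = c2) (h0 : 1 ≤ c0) (h1 : 2 * c0 < c1)
    (h2 : 2 * c1 < c2) (h3 : c2 < p) (i : Fin 3) :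
    MatchU {u0, u1, u2} ℓ (insert (corePort p c0 c1 c2 i) (coreK p c0 c1 c2)) := by
  have hp0 : ∀ a b, b = a + c0 → a ≠ 0 → IsBlock 1 (ℓ u0, ℓ u0) {a, b} := fun a b h ha => by
    rw [e0]
    exact isBlock_add h ha (by omega)
  have hp1 : ∀ a b, b = a + c1 → a ≠ 0 → IsBlock 1 (ℓ u1, ℓ u1) {a, b} := fun a b h ha => by
    rw [e1]
    exact isBlock_add h ha (by omega)
  have hp2 : ∀ a b, b = a + c2 → a ≠ 0 → IsBlock 1 (ℓ u2, ℓ u2) {a, b} := fun a b h ha => by
    rw [e2]
    exact isBlock_add h ha (by omega)
  have key : ∀ A B C : Finset ℕ, IsBlock 1 (ℓ u0, ℓ u0) A → IsBlock 1 (ℓ u1, ℓ u1) B →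
      IsBlock 1 (ℓ u2, ℓ u2) C → Disjoint A (B ∪ C) → Disjoint B C →
      MatchU {u0, u1, u2} ℓ (A ∪ (B ∪ C)) := by
    intro A B C hA hB hC hABC hBC
    have h4 := matchU_union (matchU_single hA) (rw_two h12 hB hC hBC) (by
      rw [disjoint_singleton_left, mem_insert, mem_singleton, not_or]
      exact ⟨h01, h02⟩) hABC
    rwa [← insert_eq] at h4
  have hi : i = 0 ∨ i = 1 ∨ i = 2 := by omega
  rcases hi with rfl | rfl | rfl
  · have h := key {p + c2 + c1 - 2 * c0, p + c2 + c1 - c0} {p + c2, p + c2 + c1} {p - c2, p}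
      (hp0 _ _ (by omega) (by omega)) (hp1 _ _ (by omega) (by omega)) (hp2 _ _ (by omega) (by omega))
      (by
        simp only [disjoint_insert_left, disjoint_singleton_left, mem_union, mem_insert,
          mem_singleton, not_or]
        omega)
      (by
        simp only [disjoint_insert_left, disjoint_singleton_left, mem_insert, mem_singleton, not_or]
        omega)
    have e : ({p + c2 + c1 - 2 * c0, p + c2 + c1 - c0} : Finset ℕ) ∪
        ({p + c2, p + c2 + c1} ∪ {p - c2, p}) =
        insert (corePort p c0 c1 c2 0) (coreK p c0 c1 c2) := by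
      unfold corePort coreK
      rw [if_pos rfl]
      ext t
      simp only [mem_insert, mem_union, mem_singleton]
      tauto
    rwa [e] at h
  · have h := key {p + c2 + c1 - c0, p + c2 + c1} {p + c2 - c1, p + c2} {p - c2, p}
      (hp0 _ _ (by omega) (by omega)) (hp1 _ _ (by omega) (by omega)) (hp2 _ _ (by omega) (by omega))
      (by
        simp only [disjoint_insert_left, disjoint_singleton_left, mem_union, mem_insert,
          mem_singleton, not_or]
        omega)
      (by
        simp only [disjoint_insert_left, disjoint_singleton_left, mem_insert, mem_singleton, not_or]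
        omega)
    have e : ({p + c2 + c1 - c0, p + c2 + c1} : Finset ℕ) ∪
        ({p + c2 - c1, p + c2} ∪ {p - c2, p}) =
        insert (corePort p c0 c1 c2 1) (coreK p c0 c1 c2) := by
      unfold corePort coreK
      rw [if_neg (by decide), if_pos rfl]
      ext t
      simp only [mem_insert, mem_union, mem_singleton]
      tauto
    rwa [e] at h
  · have h := key {p + c2 + c1 - c0, p + c2 + c1} {p - c2, p - c2 + c1} {p, p + c2}
      (hp0 _ _ (by omega) (by omega)) (hp1 _ _ (by omega) (by omega)) (hp2 _ _ (by omega) (by omega))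
      (by
        simp only [disjoint_insert_left, disjoint_singleton_left, mem_union, mem_insert,
          mem_singleton, not_or]
        omega)
      (by
        simp only [disjoint_insert_left, disjoint_singleton_left, mem_insert, mem_singleton, not_or]
        omega)
    have e : ({p + c2 + c1 - c0, p + c2 + c1} : Finset ℕ) ∪
        ({p - c2, p - c2 + c1} ∪ {p, p + c2}) =
        insert (corePort p c0 c1 c2 2) (coreK p c0 c1 c2) := by
      unfold corePort coreK
      rw [if_neg (by decide), if_neg (by decide)]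
      ext t
      simp only [mem_insert, mem_union, mem_singleton]
      tauto
    rwa [e] at h

end link

end SSB
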