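import Mathlib

/-!
# MP_8a819d_co, leaf-heavy trees: Sinkhorn scaling

JOB LH_Sk (all of this file; `sk_half` first, then `sinkhorn`).

`sinkhorn`: a bipartite graph `r` between `U` and `V` in which every vertex misses at most `1/32` of the other side. There are weights `g, h` between `1`
and `2` such that the weighted degrees `g u * ∑ v ~ u, h v` are all at most `(1 + τ)` times their average, and the same for `V`.

PROOF of `sk_half`. Put `Σ = ∑ v ∈ V, s v` and, for `u ∈ U`, `Σ_u = ∑ v ∈ V, r u v, s v`. `|V| m ≤ Σ`, the missing part is at most `(|V|/32) * 2 m ≤ Σ/16`, so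
`15/16 Σ ≤ Σ_u ≤ Σ`; hence with `m' = 1/Σ` the values `1/Σ_u` are in `[m', 16/15 m'] ⊆ [m', 2 m']`. Let `ρ v = s' v / s v ∈ [m₁, M₁]`, `D = M₁ - m₁ ≤ q m₁`,
`ρ̄ = (∑ V, s ρ)/Σ ∈ [m₁, M₁]`, `av u = (∑ v ~ u, s ρ)/Σ_u = (∑ v ~ u, s' v)/Σ_u ∈ [m₁, M₁]`. With `p = (Σ - Σ_u)/Σ ≤ 1/16` we have `ρ̄ = (1 - p) av u + p (average of ρ over the
missing part)` (for `p > 0`), so `|ρ̄ - av u| ≤ p D ≤ D/16`; directly: `Σ ρ̄ - Σ av u = (∑ missing, s ρ) - (Σ - Σ_u) av u`, and this is between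
`(Σ - Σ_u) (m₁ - av u)` and `(Σ - Σ_u) (M₁ - av u)`, so in absolute value at most `(Σ/16) D`. So `av u ∈ [ρ̄ - D/16, ρ̄ + D/16]`, and
`(1/∑ v ~ u, s')/(1/Σ_u) = 1/av u ∈ [m₂, M₂]` with `m₂ = 1/(ρ̄ + D/16)`, `M₂ = 1/(ρ̄ - D/16)`; `M₂ ≤ (1 + q/4) m₂`: `ρ̄ + D/16 ≤ (1 + q/4)(ρ̄ - D/16)` iff
`D/8 ≤ (q/4)(ρ̄ - D/16)`, true as `D ≤ q m₁ ≤ q ρ̄` and `D ≤ ρ̄` (`q ≤ 1`): `(q/4)(ρ̄ - D/16) ≥ (q/4)(15/16) ρ̄ ≥ (15/64) D ≥ D/8`.

PROOF of `sinkhorn`. `s 0 = 1` on `V`, `rr k u = 1/∑ v ~ u, s k v`, `s (k+1) v = 1/∑ u ~ v, rr k u`. Claim by induction on `k`: there is `m > 0` with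
`m ≤ s k ≤ 2 m` on `V`, and there are `m₁ > 0`, `M₁ ≤ (1 + 4^(-k)) m₁` with `m₁ s k ≤ s (k+1) ≤ M₁ s k` on `V`. `k = 0`: by the first part of `sk_half` (used for `U`, `V` and then for
`V`, `U`) `s 1` has values in `[m', 2 m']`, `s 0 = 1`. Step: apply `sk_half` to `s k, s (k+1)` and then (with `U, V` exchanged) to `rr k, rr (k+1)`: `q` becomes `q/16`.
Choose `k` with `4^(-k) ≤ τ` and put `g₀ = rr k`, `h₀ = s (k+1)`. For `v ∈ V`: `h₀ v * ∑ u ~ v, g₀ u = 1`, so `T := ∑ u ∈ U, g₀ u * ∑ v ~ u, h₀ v = |V|` (exchange the sums). For `u ∈ U`: `g₀ u * ∑ v ~ u, h₀ v = (∑ v ~ u, s (k+1) v)/(∑ v ~ u, s k v)`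
is in `[m₁, M₁]`; so `T ≥ |U| m₁` and each of them is `≤ M₁ ≤ (1 + τ) m₁ ≤ (1 + τ) T/|U|`. Finally `g = g₀/m''`, `h = h₀/m'''` with `m'' ≤ g₀ ≤ 2 m''` on `U` and `m''' ≤ h₀ ≤ 2 m'''`
on `V` (both inequalities are homogeneous in `g` and in `h`).
-/

set_option autoImplicit false

namespace SSB

open Finset

theorem sk_half {α β : Type*} (U : Finset α) (V : Finset β) (r : α → β → Prop)
    [∀ u v, Decidable (r u v)] (hV : V.Nonempty)
    (hr : ∀ u ∈ U, 32 * (V.filter (fun v => ¬ r u v)).card ≤ V.card)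
    (s s' : β → ℝ) (m m₁ M₁ q : ℝ) (hm : 0 < m) (hs : ∀ v ∈ V, m ≤ s v ∧ s v ≤ 2 * m)
    (hm₁ : 0 < m₁) (hq : 0 ≤ q) (hq1 : q ≤ 1) (hM : M₁ ≤ (1 + q) * m₁)
    (hss : ∀ v ∈ V, m₁ * s v ≤ s' v ∧ s' v ≤ M₁ * s v) :
    (∃ m' : ℝ, 0 < m' ∧ ∀ u ∈ U, m' ≤ 1 / ∑ v ∈ V.filter (fun v => r u v), s v ∧
      1 / ∑ v ∈ V.filter (fun v => r u v), s v ≤ 2 * m') ∧
    (∃ m₂ M₂ : ℝ, 0 < m₂ ∧ M₂ ≤ (1 + q / 4) * m₂ ∧ ∀ u ∈ U,
      m₂ * (1 / ∑ v ∈ V.filter (fun v => r u v), s v) ≤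
        1 / ∑ v ∈ V.filter (fun v => r u v), s' v ∧
      1 / ∑ v ∈ V.filter (fun v => r u v), s' v ≤
        M₂ * (1 / ∑ v ∈ V.filter (fun v => r u v), s v)) := by
  classical
  have hVc : (0 : ℝ) < V.card := by exact_mod_cast hV.card_pos
  set S : ℝ := ∑ v ∈ V, s v with hS
  set S' : ℝ := ∑ v ∈ V, s' v with hS'
  have hspos : ∀ v ∈ V, 0 < s v := fun v hv => lt_of_lt_of_le hm (hs v hv).1
  have hSm : V.card * m ≤ S := by
    rw [hS, ← nsmul_eq_mul]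
    exact card_nsmul_le_sum V s m fun v hv => (hs v hv).1
  have hS0 : 0 < S := lt_of_lt_of_le (mul_pos hVc hm) hSm
  have hD0 : m₁ ≤ M₁ := by
    obtain ⟨v, hv⟩ := hV
    have h1 := hss v hv
    have h2 : m₁ * s v ≤ M₁ * s v := h1.1.trans h1.2
    exact le_of_mul_le_mul_right h2 (hspos v hv)
  have hsplit : ∀ (t : β → ℝ) (u : α), ∑ v ∈ V, t v =
      ∑ v ∈ V.filter (fun v => r u v), t v + ∑ v ∈ V.filter (fun v => ¬ r u v), t v :=
    fun t u => (sum_filter_add_sum_filter_not V (fun v => r u v) t).symm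
  have hMi0 : ∀ u : α, 0 ≤ ∑ v ∈ V.filter (fun v => ¬ r u v), s v := fun u =>
    sum_nonneg fun v hv => (hspos v (mem_filter.1 hv).1).le
  have hMi : ∀ u ∈ U, ∑ v ∈ V.filter (fun v => ¬ r u v), s v ≤ S / 16 := by
    intro u hu
    have h1 : ∑ v ∈ V.filter (fun v => ¬ r u v), s v ≤
        (V.filter (fun v => ¬ r u v)).card * (2 * m) := by
      rw [← nsmul_eq_mul]
      exact sum_le_card_nsmul _ _ _ fun v hv => (hs v (mem_filter.1 hv).1).2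
    have h2 : (32 : ℝ) * (V.filter (fun v => ¬ r u v)).card ≤ V.card := by
      exact_mod_cast hr u hu
    nlinarith
  have hSu : ∀ u ∈ U, 15 / 16 * S ≤ ∑ v ∈ V.filter (fun v => r u v), s v := by
    intro u hu
    have h1 := hMi u hu
    have h2 := hsplit s u
    rw [← hS] at h2
    linarith
  have hSu2 : ∀ u : α, ∑ v ∈ V.filter (fun v => r u v), s v ≤ S := by
    intro u
    have h1 := hMi0 u
    have h2 := hsplit s u
    rw [← hS] at h2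
    linarith
  have hb1 : ∀ (W : Finset β), W ⊆ V → m₁ * ∑ v ∈ W, s v ≤ ∑ v ∈ W, s' v := by
    intro W hW
    rw [mul_sum]
    exact sum_le_sum fun v hv => (hss v (hW hv)).1
  have hb2 : ∀ (W : Finset β), W ⊆ V → ∑ v ∈ W, s' v ≤ M₁ * ∑ v ∈ W, s v := by
    intro W hW
    rw [mul_sum]
    exact sum_le_sum fun v hv => (hss v (hW hv)).2
  refine ⟨⟨1 / S, by positivity, fun u hu => ?_⟩, ?_⟩
  · have h1 := hSu u hu
    have h2 := hSu2 u
    have h3 : 0 < ∑ v ∈ V.filter (fun v => r u v), s v := by linarith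
    constructor
    · exact one_div_le_one_div_of_le h3 h2
    · rw [mul_one_div, div_le_div_iff₀ h3 hS0]
      linarith
  · have hρ1 : m₁ ≤ S' / S := by
      rw [le_div_iff₀ hS0]
      exact hb1 V (Subset.refl V)
    have hDq : M₁ - m₁ ≤ q * m₁ := by linarith
    have hDm : M₁ - m₁ ≤ m₁ := by nlinarith
    have hRm : 0 < S' / S - (M₁ - m₁) / 16 := by linarith
    have hRp : 0 < S' / S + (M₁ - m₁) / 16 := by linarith
    refine ⟨1 / (S' / S + (M₁ - m₁) / 16), 1 / (S' / S - (M₁ - m₁) / 16), by positivity, ?_, ?_⟩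
    · rw [mul_one_div, div_le_div_iff₀ hRm hRp]
      have h1 : (15 / 16 : ℝ) * m₁ ≤ S' / S - (M₁ - m₁) / 16 := by linarith
      have h2 : q / 4 * (15 / 16 * m₁) ≤ q / 4 * (S' / S - (M₁ - m₁) / 16) :=
        mul_le_mul_of_nonneg_left h1 (by positivity)
      nlinarith
    · intro u hu
      have h1 := hSu u hu
      have h3 : 0 < ∑ v ∈ V.filter (fun v => r u v), s v := by linarith
      have h4 := hb1 (V.filter (fun v => r u v)) (filter_subset _ _)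
      have h5 := hb2 (V.filter (fun v => r u v)) (filter_subset _ _)
      have h6 := hb1 (V.filter (fun v => ¬ r u v)) (filter_subset _ _)
      have h7 := hb2 (V.filter (fun v => ¬ r u v)) (filter_subset _ _)
      have h8 := hMi u hu
      have h9 := hMi0 u
      have h10 := hsplit s u
      have h11 := hsplit s' u
      rw [← hS] at h10
      rw [← hS'] at h11
      set Su : ℝ := ∑ v ∈ V.filter (fun v => r u v), s v with hSu_def
      set Su' : ℝ := ∑ v ∈ V.filter (fun v => r u v), s' v with hSu'_def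
      set Mi : ℝ := ∑ v ∈ V.filter (fun v => ¬ r u v), s v with hMi_def
      set Mi' : ℝ := ∑ v ∈ V.filter (fun v => ¬ r u v), s' v with hMi'_def
      have h12 : 0 < Su' := lt_of_lt_of_le (mul_pos hm₁ h3) h4
      have hD : 0 ≤ M₁ - m₁ := by linarith
      have hMS : Mi * Su * (M₁ - m₁) ≤ S / 16 * Su * (M₁ - m₁) :=
        mul_le_mul_of_nonneg_right (mul_le_mul_of_nonneg_right h8 h3.le) hD
      have e1 : Mi * Su' ≤ Mi * (M₁ * Su) := mul_le_mul_of_nonneg_left h5 h9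
      have e2 : Mi * (m₁ * Su) ≤ Mi * Su' := mul_le_mul_of_nonneg_left h4 h9
      have e3 : Su * (m₁ * Mi) ≤ Su * Mi' := mul_le_mul_of_nonneg_left h6 h3.le
      have e4 : Su * Mi' ≤ Su * (M₁ * Mi) := mul_le_mul_of_nonneg_left h7 h3.le
      have hup : Su' ≤ (S' / S + (M₁ - m₁) / 16) * Su := by
        have : S * Su' ≤ S * ((S' / S + (M₁ - m₁) / 16) * Su) := by
          have e5 : S * ((S' / S + (M₁ - m₁) / 16) * Su) = S' * Su + S / 16 * Su * (M₁ - m₁) := by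
            field_simp
          rw [e5, h11]
          have e6 : S * Su' = Su * Su' + Mi * Su' := by rw [h10]; ring
          rw [e6]
          linarith
        exact le_of_mul_le_mul_left this hS0
      have hlo : (S' / S - (M₁ - m₁) / 16) * Su ≤ Su' := by
        have : S * ((S' / S - (M₁ - m₁) / 16) * Su) ≤ S * Su' := by
          have e5 : S * ((S' / S - (M₁ - m₁) / 16) * Su) = S' * Su - S / 16 * Su * (M₁ - m₁) := by
            field_simp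
          rw [e5, h11]
          have e6 : S * Su' = Su * Su' + Mi * Su' := by rw [h10]; ring
          rw [e6]
          linarith
        exact le_of_mul_le_mul_left this hS0
      constructor
      · rw [one_div_mul_one_div]
        exact one_div_le_one_div_of_le h12 hup
      · rw [one_div_mul_one_div]
        exact one_div_le_one_div_of_le (mul_pos hRm h3) hlo

/-- both half steps of the scaling -/
private theorem skb_step {α β : Type*} (U : Finset α) (V : Finset β) (r : α → β → Prop)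
    [∀ u v, Decidable (r u v)] (hU : U.Nonempty) (hV : V.Nonempty)
    (hr : ∀ u ∈ U, 32 * (V.filter (fun v => ¬ r u v)).card ≤ V.card)
    (hc : ∀ v ∈ V, 32 * (U.filter (fun u => ¬ r u v)).card ≤ U.card)
    (s s' : β → ℝ) (m m₁ M₁ q : ℝ) (hm : 0 < m) (hs : ∀ v ∈ V, m ≤ s v ∧ s v ≤ 2 * m)
    (hm₁ : 0 < m₁) (hq : 0 ≤ q) (hq1 : q ≤ 1) (hM : M₁ ≤ (1 + q) * m₁)
    (hss : ∀ v ∈ V, m₁ * s v ≤ s' v ∧ s' v ≤ M₁ * s v)
    (R R' : α → ℝ) (hR : ∀ u, R u = 1 / ∑ v ∈ V.filter (fun v => r u v), s v)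
    (hR' : ∀ u, R' u = 1 / ∑ v ∈ V.filter (fun v => r u v), s' v)
    (S S' : β → ℝ) (hS : ∀ v, S v = 1 / ∑ u ∈ U.filter (fun u => r u v), R u)
    (hS' : ∀ v, S' v = 1 / ∑ u ∈ U.filter (fun u => r u v), R' u) :
    (∃ m' : ℝ, 0 < m' ∧ ∀ u ∈ U, m' ≤ R u ∧ R u ≤ 2 * m') ∧
    (∃ m' : ℝ, 0 < m' ∧ ∀ v ∈ V, m' ≤ S v ∧ S v ≤ 2 * m') ∧
    (∃ m₂ M₂ : ℝ, 0 < m₂ ∧ M₂ ≤ (1 + q / 16) * m₂ ∧ ∀ v ∈ V, m₂ * S v ≤ S' v ∧ S' v ≤ M₂ * S v) := by
  obtain ⟨⟨m', hm', h1⟩, m₂, M₂, hm₂, hM₂, h2⟩ := sk_half U V r hV hr s s' m m₁ M₁ q hm hs hm₁ hq hq1 hM hss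
  have h1' : ∀ u ∈ U, m' ≤ R u ∧ R u ≤ 2 * m' := by
    intro u hu
    rw [hR u]
    exact h1 u hu
  have h2' : ∀ u ∈ U, m₂ * R u ≤ R' u ∧ R' u ≤ M₂ * R u := by
    intro u hu
    rw [hR u, hR' u]
    exact h2 u hu
  obtain ⟨⟨m'', hm'', h3⟩, m₃, M₃, hm₃, hM₃, h4⟩ := sk_half V U (fun v u => r u v) hU hc R R' m' m₂ M₂ (q / 4)
    hm' h1' hm₂ (by linarith) (by linarith) hM₂ h2'
  refine ⟨⟨m', hm', h1'⟩, ⟨m'', hm'', ?_⟩, m₃, M₃, hm₃, ?_, ?_⟩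
  · intro v hv
    rw [hS v]
    exact h3 v hv
  · have e : q / 16 = q / 4 / 4 := by ring
    rw [e]
    exact hM₃
  · intro v hv
    rw [hS v, hS' v]
    exact h4 v hv

theorem sinkhorn {α β : Type*} (U : Finset α) (V : Finset β) (r : α → β → Prop)
    [∀ u v, Decidable (r u v)] (τ : ℝ) (hτ : 0 < τ) (hU : U.Nonempty) (hV : V.Nonempty)
    (hr : ∀ u ∈ U, 32 * (V.filter (fun v => ¬ r u v)).card ≤ V.card)
    (hc : ∀ v ∈ V, 32 * (U.filter (fun u => ¬ r u v)).card ≤ U.card) :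
    ∃ (g : α → ℝ) (h : β → ℝ), (∀ u ∈ U, 1 ≤ g u ∧ g u ≤ 2) ∧ (∀ v ∈ V, 1 ≤ h v ∧ h v ≤ 2) ∧
      (∀ u ∈ U, g u * (∑ v ∈ V.filter (fun v => r u v), h v) * U.card ≤
        (1 + τ) * ∑ u ∈ U, g u * ∑ v ∈ V.filter (fun v => r u v), h v) ∧
      (∀ v ∈ V, h v * (∑ u ∈ U.filter (fun u => r u v), g u) * V.card ≤
        (1 + τ) * ∑ u ∈ U, g u * ∑ v ∈ V.filter (fun v => r u v), h v) := by
  obtain ⟨R, hR⟩ : ∃ R : (β → ℝ) → α → ℝ, ∀ f u, R f u = 1 / ∑ v ∈ V.filter (fun v => r u v), f v :=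
    ⟨fun f u => 1 / ∑ v ∈ V.filter (fun v => r u v), f v, fun _ _ => rfl⟩
  obtain ⟨S, hS⟩ : ∃ S : (α → ℝ) → β → ℝ, ∀ f v, S f v = 1 / ∑ u ∈ U.filter (fun u => r u v), f u :=
    ⟨fun f v => 1 / ∑ u ∈ U.filter (fun u => r u v), f u, fun _ _ => rfl⟩
  obtain ⟨s, hs0, hs1⟩ : ∃ s : ℕ → β → ℝ, (∀ v, s 0 v = 1) ∧ ∀ k, s (k + 1) = S (R (s k)) :=
    ⟨fun k => Nat.rec (fun _ => 1) (fun _ f => S (R f)) k, fun _ => rfl, fun _ => rfl⟩
  have main : ∀ k : ℕ, (∃ m : ℝ, 0 < m ∧ ∀ v ∈ V, m ≤ s k v ∧ s k v ≤ 2 * m) ∧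
      ∃ m₁ M₁ : ℝ, 0 < m₁ ∧ M₁ ≤ (1 + (1 / 16) ^ k) * m₁ ∧
        ∀ v ∈ V, m₁ * s k v ≤ s (k + 1) v ∧ s (k + 1) v ≤ M₁ * s k v := by
    intro k
    induction k with
    | zero =>
      have hb : ∀ v ∈ V, (1 : ℝ) ≤ s 0 v ∧ s 0 v ≤ 2 * 1 := by
        intro v _
        rw [hs0]
        norm_num
      refine ⟨⟨1, one_pos, hb⟩, ?_⟩
      obtain ⟨-, ⟨m', hm', h2⟩, -⟩ := skb_step U V r hU hV hr hc (s 0) (s 0) 1 1 1 0 one_pos hb one_pos
        le_rfl zero_le_one (by norm_num) (fun v _ => ⟨by rw [one_mul], by rw [one_mul]⟩)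
        (R (s 0)) (R (s 0)) (hR _) (hR _) (S (R (s 0))) (S (R (s 0))) (hS _) (hS _)
      refine ⟨m', 2 * m', hm', by norm_num, ?_⟩
      intro v hv
      rw [hs0, hs1, mul_one, mul_one]
      exact h2 v hv
    | succ k ih =>
      obtain ⟨⟨m, hm, h1⟩, m₁, M₁, hm₁, hM₁, h2⟩ := ih
      have hq0 : (0 : ℝ) ≤ (1 / 16) ^ k := by positivity
      have hq1 : ((1 : ℝ) / 16) ^ k ≤ 1 := pow_le_one₀ (by norm_num) (by norm_num)
      obtain ⟨-, h3, m₂, M₂, hm₂, hM₂, h4⟩ := skb_step U V r hU hV hr hc (s k) (s (k + 1)) m m₁ M₁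
        ((1 / 16) ^ k) hm h1 hm₁ hq0 hq1 hM₁ h2
        (R (s k)) (R (s (k + 1))) (hR _) (hR _) (S (R (s k))) (S (R (s (k + 1)))) (hS _) (hS _)
      rw [← hs1, ← hs1] at h4
      rw [← hs1] at h3
      refine ⟨h3, m₂, M₂, hm₂, ?_, h4⟩
      have e : ((1 : ℝ) / 16) ^ (k + 1) = (1 / 16) ^ k / 16 := by rw [pow_succ]; ring
      rw [e]
      exact hM₂
  obtain ⟨k, hk⟩ := exists_pow_lt_of_lt_one hτ (show (1 : ℝ) / 16 < 1 by norm_num)
  obtain ⟨⟨m, hm, h1⟩, m₁, M₁, hm₁, hM₁, h2⟩ := main k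
  have hq0 : (0 : ℝ) ≤ (1 / 16) ^ k := by positivity
  have hq1 : ((1 : ℝ) / 16) ^ k ≤ 1 := pow_le_one₀ (by norm_num) (by norm_num)
  obtain ⟨⟨a, ha, h3⟩, ⟨b, hb, h4⟩, -⟩ := skb_step U V r hU hV hr hc (s k) (s (k + 1)) m m₁ M₁
    ((1 / 16) ^ k) hm h1 hm₁ hq0 hq1 hM₁ h2
    (R (s k)) (R (s (k + 1))) (hR _) (hR _) (S (R (s k))) (S (R (s (k + 1)))) (hS _) (hS _)
  obtain ⟨g₀, hg₀⟩ : ∃ g₀ : α → ℝ, g₀ = R (s k) := ⟨_, rfl⟩
  obtain ⟨h₀, hh₀⟩ : ∃ h₀ : β → ℝ, h₀ = s (k + 1) := ⟨_, rfl⟩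
  rw [← hg₀] at h3 h4
  rw [hg₀, ← hs1, ← hh₀] at h4
  rw [← hh₀] at h2
  -- the products on the side of `V` are `1`
  have k1 : ∀ v ∈ V, h₀ v * ∑ u ∈ U.filter (fun u => r u v), g₀ u = 1 := by
    intro v hv
    have e : h₀ v = 1 / ∑ u ∈ U.filter (fun u => r u v), g₀ u := by
      rw [hh₀, hs1, hS, hg₀]
    have hp : 0 < h₀ v := lt_of_lt_of_le hb (h4 v hv).1
    have hne : (∑ u ∈ U.filter (fun u => r u v), g₀ u) ≠ 0 := by
      intro h0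
      rw [e, h0, div_zero] at hp
      exact lt_irrefl _ hp
    rw [e]
    exact one_div_mul_cancel hne
  -- the products on the side of `U` are almost constant
  have k2 : ∀ u ∈ U, m₁ ≤ g₀ u * ∑ v ∈ V.filter (fun v => r u v), h₀ v ∧
      g₀ u * ∑ v ∈ V.filter (fun v => r u v), h₀ v ≤ M₁ := by
    intro u hu
    obtain ⟨X, hX⟩ : ∃ X : ℝ, X = ∑ v ∈ V.filter (fun v => r u v), s k v := ⟨_, rfl⟩
    have e : g₀ u = 1 / X := by rw [hg₀, hR, hX]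
    have hp : 0 < g₀ u := lt_of_lt_of_le ha (h3 u hu).1
    have hX0 : 0 < X := by
      rw [e] at hp
      exact one_div_pos.1 hp
    have l1 : m₁ * X ≤ ∑ v ∈ V.filter (fun v => r u v), h₀ v := by
      rw [hX, mul_sum]
      exact sum_le_sum fun v hv => (h2 v (mem_of_mem_filter v hv)).1
    have l2 : ∑ v ∈ V.filter (fun v => r u v), h₀ v ≤ M₁ * X := by
      rw [hX, mul_sum]
      exact sum_le_sum fun v hv => (h2 v (mem_of_mem_filter v hv)).2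
    rw [e, one_div_mul_eq_div]
    exact ⟨(le_div_iff₀ hX0).2 l1, (div_le_iff₀ hX0).2 l2⟩
  -- the total
  obtain ⟨T, hT⟩ : ∃ T : ℝ, T = ∑ u ∈ U, g₀ u * ∑ v ∈ V.filter (fun v => r u v), h₀ v := ⟨_, rfl⟩
  have hTV : T = V.card := by
    have e1 : T = ∑ u ∈ U, ∑ v ∈ V, (if r u v then g₀ u * h₀ v else 0) := by
      rw [hT]
      refine sum_congr rfl fun u _ => ?_
      rw [mul_sum, sum_filter]
    have e2 : ∑ v ∈ V, ∑ u ∈ U, (if r u v then g₀ u * h₀ v else 0) = ∑ v ∈ V, (1 : ℝ) := by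
      refine sum_congr rfl fun v hv => ?_
      rw [← k1 v hv, mul_sum, sum_filter]
      refine sum_congr rfl fun u _ => ?_
      split_ifs
      · ring
      · rfl
    rw [e1, sum_comm, e2, sum_const, nsmul_eq_mul, mul_one]
  have hT0 : 0 ≤ T := by
    rw [hTV]
    exact Nat.cast_nonneg _
  have hTU : U.card * m₁ ≤ T := by
    rw [hT, ← nsmul_eq_mul, ← sum_const]
    exact sum_le_sum fun u hu => (k2 u hu).1
  -- rescaling
  have es : ∀ u, g₀ u / a * ∑ v ∈ V.filter (fun v => r u v), h₀ v / b =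
      (g₀ u * ∑ v ∈ V.filter (fun v => r u v), h₀ v) / (a * b) := by
    intro u
    rw [← sum_div, div_mul_div_comm]
  have es' : ∀ v, h₀ v / b * ∑ u ∈ U.filter (fun u => r u v), g₀ u / a =
      (h₀ v * ∑ u ∈ U.filter (fun u => r u v), g₀ u) / (a * b) := by
    intro v
    rw [← sum_div, div_mul_div_comm, mul_comm b a]
  have eT : ∑ u ∈ U, g₀ u / a * ∑ v ∈ V.filter (fun v => r u v), h₀ v / b = T / (a * b) := by
    rw [hT, sum_div]
    exact sum_congr rfl fun u _ => es u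
  have hab : 0 < a * b := mul_pos ha hb
  refine ⟨fun u => g₀ u / a, fun v => h₀ v / b, ?_, ?_, ?_, ?_⟩
  · intro u hu
    exact ⟨(one_le_div ha).2 (h3 u hu).1, (div_le_iff₀ ha).2 (h3 u hu).2⟩
  · intro v hv
    exact ⟨(one_le_div hb).2 (h4 v hv).1, (div_le_iff₀ hb).2 (h4 v hv).2⟩
  · intro u hu
    rw [eT, es, div_mul_eq_mul_div, ← mul_div_assoc]
    refine div_le_div_of_nonneg_right ?_ hab.le
    have l1 := (k2 u hu).2
    have hc0 : (0 : ℝ) ≤ (U.card : ℝ) := Nat.cast_nonneg _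
    calc (g₀ u * ∑ v ∈ V.filter (fun v => r u v), h₀ v) * (U.card : ℝ) ≤ M₁ * U.card :=
          mul_le_mul_of_nonneg_right l1 hc0
      _ ≤ ((1 + (1 / 16) ^ k) * m₁) * U.card := mul_le_mul_of_nonneg_right hM₁ hc0
      _ = (1 + (1 / 16) ^ k) * (U.card * m₁) := by ring
      _ ≤ (1 + (1 / 16) ^ k) * T := mul_le_mul_of_nonneg_left hTU (by linarith)
      _ ≤ (1 + τ) * T := mul_le_mul_of_nonneg_right (by linarith) hT0
  · intro v hv
    rw [eT, es', k1 v hv, div_mul_eq_mul_div, ← mul_div_assoc, one_mul]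
    refine div_le_div_of_nonneg_right ?_ hab.le
    rw [← hTV]
    nlinarith

end SSB
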